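import Pool.Agent.Helper66.TF.Window

/-!
# XV AP: sum and integral over a window, with weights on the vertical sides

Apply `Helper66.TF.window` to `f w = F (w / N)` on the integer scale (heights `N h`, `N v`), with
`M = B * exp (2 π N h)`; its error is at most `4 n B`.  The remaining terms are two times `PT`.
Since `pc (1 / 2 + i y) = - π i tanh (π y)` (`pc` is `π cot π`),
`PT f H V u = i (∫_V^H (1 - tanh π y) / 2 f (u + i y) dy - ∫_{-H}^V (1 + tanh π y) / 2 f (u + i y) dy)`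
and `0 ≤ (1 - tanh π y) / 2 = 1 / (1 + e^{2 π y}) ≤ min 1 e^{-2 π y}`, the same for `1 + tanh` with
`- y`.  So the integrand is bounded by `B` everywhere: for `y` between `0` and `V` use the weight
`≤ 1` and `hV0`, otherwise the weight is `≤ e^{-2 π |y|}` and use `hV`.  Hence
`‖PT f (N h) (N v) u‖ ≤ 2 N h B` (the two integrals together run over `[-N h, N h]`), total
`4 n B + 4 N h B`.  `B ≥ 0` follows from `hV`.
-/

set_option autoImplicit false

namespace Pool.Agent.XV

open Complex Finset MeasureTheory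
open Pool.Agent.Helper9.TB

open Pool.Agent.Helper66.TF in
private lemma pc_half_eq (y : ℝ) :
    pc (((1 / 2 : ℝ) : ℂ) + y * I) = -(Real.pi * I * ((Real.tanh (Real.pi * y) : ℝ) : ℂ)) := by
  unfold pc
  have e : (Real.pi : ℂ) * (((1 / 2 : ℝ) : ℂ) + y * I) =
      Real.pi * y * I + Real.pi / 2 := by push_cast; ring
  rw [e, Complex.cos_add_pi_div_two, Complex.sin_add_pi_div_two, Complex.sin_mul_I,
    Complex.cos_mul_I, Complex.ofReal_tanh, Complex.tanh_eq_sinh_div_cosh]
  push_cast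
  ring

private lemma w_plus (y : ℝ) : (1 - Real.tanh (Real.pi * y)) / 2 = 1 / (1 + Real.exp (2 * Real.pi * y)) := by
  rw [Real.tanh_eq_sinh_div_cosh, Real.sinh_eq, Real.cosh_eq]
  have h1 : Real.exp (2 * Real.pi * y) = Real.exp (Real.pi * y) * Real.exp (Real.pi * y) := by
    rw [← Real.exp_add]; congr 1; ring
  have h2 : Real.exp (-(Real.pi * y)) = 1 / Real.exp (Real.pi * y) := by
    rw [Real.exp_neg, one_div]
  rw [h1, h2]
  have h3 := Real.exp_pos (Real.pi * y)
  field_simp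
  ring

private lemma w_plus_nonneg (y : ℝ) : 0 ≤ (1 - Real.tanh (Real.pi * y)) / 2 := by
  rw [w_plus]; positivity

private lemma w_plus_le_one (y : ℝ) : (1 - Real.tanh (Real.pi * y)) / 2 ≤ 1 := by
  rw [w_plus, div_le_one (by positivity)]
  linarith [Real.exp_pos (2 * Real.pi * y)]

private lemma w_plus_le (y : ℝ) :
    (1 - Real.tanh (Real.pi * y)) / 2 ≤ Real.exp (-(2 * Real.pi * y)) := by
  rw [w_plus, Real.exp_neg, ← one_div]
  apply one_div_le_one_div_of_le (Real.exp_pos _)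
  linarith

private lemma w_minus (y : ℝ) :
    (1 + Real.tanh (Real.pi * y)) / 2 = (1 - Real.tanh (Real.pi * (-y))) / 2 := by
  rw [mul_neg, Real.tanh_neg, sub_neg_eq_add]

private lemma PT_weight {f : ℂ → ℂ} {h v u B : ℝ} (h1 : -h ≤ v) (h2 : v ≤ h)
    (hcont : ContinuousOn (fun y : ℝ => f (u + y * I)) (Set.Icc (-h) h))
    (hB : ∀ y : ℝ, |y| ≤ h → ‖f (u + y * I)‖ ≤ B * Real.exp (2 * Real.pi * |y|))
    (hB0 : ∀ y : ℝ, (∃ κ : ℝ, 0 ≤ κ ∧ κ ≤ 1 ∧ y = κ * v) → ‖f (u + y * I)‖ ≤ B) :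
    ‖Pool.Agent.Helper66.TF.PT f h v u‖ ≤ 2 * h * B := by
  have hB00 : 0 ≤ B := (norm_nonneg _).trans (hB0 0 ⟨0, le_rfl, zero_le_one, by ring⟩)
  set g : ℝ → ℂ := fun y => f (u + y * I) with hg
  set T : ℝ → ℝ := fun y => Real.tanh (Real.pi * y) with hT
  have hTc : Continuous T := by
    have h3 : T = fun y => Real.sinh (Real.pi * y) / Real.cosh (Real.pi * y) := by
      funext y; exact Real.tanh_eq_sinh_div_cosh _
    rw [h3]
    apply Continuous.div
    · fun_prop
    · fun_prop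
    · intro y; exact (Real.cosh_pos _).ne'
  have hsub : ∀ c d : ℝ, -h ≤ c → c ≤ d → d ≤ h → Set.uIcc c d ⊆ Set.Icc (-h) h := by
    intro c d hc hcd hd
    rw [Set.uIcc_of_le hcd]
    exact Set.Icc_subset_Icc hc hd
  have hgi : ∀ c d : ℝ, -h ≤ c → c ≤ d → d ≤ h → IntervalIntegrable g volume c d :=
    fun c d hc hcd hd => (hcont.mono (hsub c d hc hcd hd)).intervalIntegrable
  have hgTi : ∀ c d : ℝ, -h ≤ c → c ≤ d → d ≤ h →
      IntervalIntegrable (fun y => g y * ((T y : ℝ) : ℂ)) volume c d := by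
    intro c d hc hcd hd
    apply ContinuousOn.intervalIntegrable
    exact (hcont.mono (hsub c d hc hcd hd)).mul
      (Complex.continuous_ofReal.comp hTc).continuousOn
  have hform : Pool.Agent.Helper66.TF.PT f h v u =
      I * (∫ y in v..h, g y * (((1 - T y) / 2 : ℝ) : ℂ)) -
        I * (∫ y in (-h)..v, g y * (((1 + T y) / 2 : ℝ) : ℂ)) := by
    unfold Pool.Agent.Helper66.TF.PT
    have e1 : (∫ y in (-h)..h, f (u + y * I) * pc (((1 / 2 : ℝ) : ℂ) + y * I)) =
        -(Real.pi * I) * ((∫ y in (-h)..v, g y * ((T y : ℝ) : ℂ)) +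
          ∫ y in v..h, g y * ((T y : ℝ) : ℂ)) := by
      rw [intervalIntegral.integral_add_adjacent_intervals (hgTi _ _ le_rfl h1 h2)
        (hgTi _ _ h1 h2 le_rfl), ← intervalIntegral.integral_const_mul]
      apply intervalIntegral.integral_congr
      intro y _
      simp only [hg, hT]
      rw [pc_half_eq]
      ring
    have e2 : (∫ y in v..h, g y * (((1 - T y) / 2 : ℝ) : ℂ)) =
        (1 / 2) * ((∫ y in v..h, g y) - ∫ y in v..h, g y * ((T y : ℝ) : ℂ)) := by
      rw [← intervalIntegral.integral_sub (hgi _ _ h1 h2 le_rfl) (hgTi _ _ h1 h2 le_rfl),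
        ← intervalIntegral.integral_const_mul]
      apply intervalIntegral.integral_congr
      intro y _
      simp only []
      push_cast
      ring
    have e3 : (∫ y in (-h)..v, g y * (((1 + T y) / 2 : ℝ) : ℂ)) =
        (1 / 2) * ((∫ y in (-h)..v, g y) + ∫ y in (-h)..v, g y * ((T y : ℝ) : ℂ)) := by
      rw [← intervalIntegral.integral_add (hgi _ _ le_rfl h1 h2) (hgTi _ _ le_rfl h1 h2),
        ← intervalIntegral.integral_const_mul]
      apply intervalIntegral.integral_congr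
      intro y _
      simp only []
      push_cast
      ring
    rw [e1, e2, e3]
    have hpi : (Real.pi : ℂ) ≠ 0 := by exact_mod_cast Real.pi_ne_zero
    simp only [hg]
    field_simp
    ring
  have hu : ∀ y : ℝ, -h ≤ y → y ≤ h → |y| ≤ h := fun y h3 h4 => abs_le.2 ⟨h3, h4⟩
  have b1 : ‖∫ y in v..h, g y * (((1 - T y) / 2 : ℝ) : ℂ)‖ ≤ B * |h - v| := by
    apply intervalIntegral.norm_integral_le_of_norm_le_const
    intro y hy
    rw [Set.uIoc_of_le h2] at hy
    rw [norm_mul, Complex.norm_real, Real.norm_of_nonneg (w_plus_nonneg y)]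
    rcases le_or_gt 0 y with hy0 | hy0
    · calc ‖g y‖ * ((1 - T y) / 2) ≤ (B * Real.exp (2 * Real.pi * |y|)) *
          Real.exp (-(2 * Real.pi * y)) :=
            mul_le_mul (hB y (hu y (by linarith [hy.1]) hy.2)) (w_plus_le y) (w_plus_nonneg y)
              (by positivity)
        _ = B := by
            rw [abs_of_nonneg hy0, mul_assoc, ← Real.exp_add, add_neg_cancel, Real.exp_zero,
              mul_one]
    · have hv0 : v < 0 := lt_trans hy.1 hy0
      have h5 : ‖g y‖ ≤ B := by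
        apply hB0 y
        refine ⟨y / v, (div_pos_of_neg_of_neg hy0 hv0).le, ?_, ?_⟩
        · rw [div_le_one_of_neg hv0]
          exact hy.1.le
        · exact (div_mul_cancel₀ y hv0.ne).symm
      calc ‖g y‖ * ((1 - T y) / 2) ≤ B * 1 :=
            mul_le_mul h5 (w_plus_le_one y) (w_plus_nonneg y) hB00
        _ = B := mul_one _
  have b2 : ‖∫ y in (-h)..v, g y * (((1 + T y) / 2 : ℝ) : ℂ)‖ ≤ B * |v - -h| := by
    apply intervalIntegral.norm_integral_le_of_norm_le_const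
    intro y hy
    rw [Set.uIoc_of_le h1] at hy
    have hw : (1 + T y) / 2 = (1 - Real.tanh (Real.pi * (-y))) / 2 := w_minus y
    rw [norm_mul, Complex.norm_real, hw, Real.norm_of_nonneg (w_plus_nonneg (-y))]
    rcases le_or_gt y 0 with hy0 | hy0
    · calc ‖g y‖ * ((1 - Real.tanh (Real.pi * (-y))) / 2) ≤ (B * Real.exp (2 * Real.pi * |y|)) *
          Real.exp (-(2 * Real.pi * (-y))) :=
            mul_le_mul (hB y (hu y hy.1.le (by linarith [hy.2]))) (w_plus_le (-y))
              (w_plus_nonneg (-y)) (by positivity)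
        _ = B := by
            rw [abs_of_nonpos hy0, mul_assoc, ← Real.exp_add, add_neg_cancel, Real.exp_zero,
              mul_one]
    · have hv0 : 0 < v := lt_of_lt_of_le hy0 hy.2
      have h5 : ‖g y‖ ≤ B := by
        apply hB0 y
        refine ⟨y / v, (div_pos hy0 hv0).le, ?_, ?_⟩
        · rw [div_le_one hv0]
          exact hy.2
        · field_simp
      calc ‖g y‖ * ((1 - Real.tanh (Real.pi * (-y))) / 2) ≤ B * 1 :=
            mul_le_mul h5 (w_plus_le_one (-y)) (w_plus_nonneg (-y)) hB00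
        _ = B := mul_one _
  rw [abs_of_nonneg (by linarith)] at b1 b2
  rw [hform]
  refine (norm_sub_le _ _).trans ?_
  rw [norm_mul, norm_mul, norm_I, one_mul, one_mul]
  linarith

theorem ap {F : ℂ → ℂ} {U : Set ℂ} (hU : IsOpen U) (hF : DifferentiableOn ℂ F U)
    {N : ℕ} (hN : 0 < N) {h v B : ℝ} (hh : 0 < h)
    (hq : Real.exp (-(2 * Real.pi * (N * h))) ≤ 1 / 2) (hv1 : -h ≤ v) (hv2 : v ≤ h) (m0 n : ℕ)
    (hsub : ∀ z : ℂ, ((m0 : ℝ) - 1 / 2) / N ≤ z.re → z.re ≤ ((m0 : ℝ) + n - 1 / 2) / N →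
      |z.im| ≤ h → z ∈ U)
    (hH : ∀ z : ℂ, ((m0 : ℝ) - 1 / 2) / N ≤ z.re → z.re ≤ ((m0 : ℝ) + n - 1 / 2) / N →
      |z.im| = h → ‖F z‖ ≤ B * Real.exp (2 * Real.pi * (N * h)))
    (hV : ∀ z : ℂ, (z.re = ((m0 : ℝ) - 1 / 2) / N ∨ z.re = ((m0 : ℝ) + n - 1 / 2) / N) →
      |z.im| ≤ h → ‖F z‖ ≤ B * Real.exp (2 * Real.pi * (N * |z.im|)))
    (hV0 : ∀ z : ℂ, (z.re = ((m0 : ℝ) - 1 / 2) / N ∨ z.re = ((m0 : ℝ) + n - 1 / 2) / N) →
      (∃ κ : ℝ, 0 ≤ κ ∧ κ ≤ 1 ∧ z.im = κ * v) → ‖F z‖ ≤ B) :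
    ‖∑ j ∈ Finset.range n, F (((m0 + j : ℕ) : ℂ) / N) -
      N * (∫ x in (((m0 : ℝ) - 1 / 2) / N)..(((m0 : ℝ) + n - 1 / 2) / N), F (x + v * I))‖ ≤
      (4 * n + 4 * (N * h)) * B := by
  have hN0 : (0 : ℝ) < N := by exact_mod_cast hN
  have hNC : (N : ℂ) ≠ 0 := by exact_mod_cast hN.ne'
  set f : ℂ → ℂ := fun w => F (w / N) with hf
  set V : Set ℂ := (fun w : ℂ => w / N) ⁻¹' U with hVd
  have hVo : IsOpen V := hU.preimage (by fun_prop)
  have hfd : DifferentiableOn ℂ f V := by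
    have hg : DifferentiableOn ℂ (fun w : ℂ => w / N) V := by fun_prop
    exact hF.comp hg (fun w hw => hw)
  have hre : ∀ z : ℂ, (z / N).re = z.re / N := fun z => by
    rw [show (N : ℂ) = ((N : ℝ) : ℂ) by push_cast; rfl, div_ofReal_re]
  have him : ∀ z : ℂ, (z / N).im = z.im / N := fun z => by
    rw [show (N : ℂ) = ((N : ℝ) : ℂ) by push_cast; rfl, div_ofReal_im]
  have habs : ∀ z : ℂ, |(z / N).im| = |z.im| / N := fun z => by
    rw [him, abs_div, abs_of_pos hN0]
  have hw := Pool.Agent.Helper66.TF.window hVo hfd (h := N * h) (v := N * v)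
    (M := B * Real.exp (2 * Real.pi * (N * h))) (by positivity) hq
    (by nlinarith) (by nlinarith) m0 n
    (fun z h1 h2 h3 => hsub (z / N) (by rw [hre]; gcongr) (by rw [hre]; gcongr)
      (by rw [habs, div_le_iff₀ hN0]; linarith))
    (fun z h1 h2 h3 => hH (z / N) (by rw [hre]; gcongr) (by rw [hre]; gcongr)
      (by rw [habs, h3]; field_simp))
  have hrept : ∀ u y : ℝ, ((u : ℂ) + y * I).re = u := by intro u y; simp
  have himpt : ∀ u y : ℝ, ((u : ℂ) + y * I).im = y := by intro u y; simp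
  have hP : ∀ u : ℝ, (u = (m0 : ℝ) - 1 / 2 ∨ u = m0 + n - 1 / 2) →
      ‖Pool.Agent.Helper66.TF.PT f (N * h) (N * v) u‖ ≤ 2 * (N * h) * B := by
    intro u hu
    have hure : u / N = ((m0 : ℝ) - 1 / 2) / N ∨ u / N = ((m0 : ℝ) + n - 1 / 2) / N := by
      rcases hu with h | h
      · left; rw [h]
      · right; rw [h]
    have hn0 : (0 : ℝ) ≤ n := Nat.cast_nonneg n
    have hule : ((m0 : ℝ) - 1 / 2) / N ≤ u / N ∧ u / N ≤ ((m0 : ℝ) + n - 1 / 2) / N := by
      rcases hu with h | h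
      · rw [h]
        exact ⟨le_rfl, by gcongr; linarith⟩
      · rw [h]
        exact ⟨by gcongr; linarith, le_rfl⟩
    apply PT_weight (by nlinarith) (by nlinarith)
    · have h3 : ContinuousOn (fun y : ℝ => (u : ℂ) + y * I) (Set.Icc (-(N * h)) (N * h)) := by
        fun_prop
      refine hfd.continuousOn.comp h3 ?_
      intro y hy
      show ((u : ℂ) + y * I) / N ∈ U
      apply hsub
      · rw [hre, hrept]; exact hule.1
      · rw [hre, hrept]; exact hule.2
      · rw [habs, himpt, div_le_iff₀ hN0, mul_comm]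
        exact abs_le.2 ⟨hy.1, hy.2⟩
    · intro y hy
      have h4 := hV (((u : ℂ) + y * I) / N) (by rw [hre, hrept]; exact hure)
        (by rw [habs, himpt, div_le_iff₀ hN0]; linarith)
      rw [habs, himpt] at h4
      have h5 : (N : ℝ) * (|y| / N) = |y| := by field_simp
      rw [h5] at h4
      exact h4
    · rintro y ⟨κ, hκ0, hκ1, hκ⟩
      apply hV0 (((u : ℂ) + y * I) / N) (by rw [hre, hrept]; exact hure)
      refine ⟨κ, hκ0, hκ1, ?_⟩
      rw [him, himpt, hκ]
      field_simp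
  have hI : (∫ x in ((m0 : ℝ) - 1 / 2)..(m0 + n - 1 / 2), f (x + (N * v : ℝ) * I)) =
      N * (∫ x in (((m0 : ℝ) - 1 / 2) / N)..(((m0 : ℝ) + n - 1 / 2) / N), F (x + v * I)) := by
    have h1 := intervalIntegral.integral_comp_div (a := (m0 : ℝ) - 1 / 2) (b := m0 + n - 1 / 2)
      (fun x : ℝ => F (x + v * I)) hN0.ne'
    rw [real_smul] at h1
    push_cast at h1 ⊢
    rw [← h1]
    apply intervalIntegral.integral_congr
    intro x _
    simp only [hf]
    congr 1
    field_simp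
  rw [hI] at hw
  have hexp : Real.exp (-(2 * Real.pi * (N * h))) * Real.exp (2 * Real.pi * (N * h)) = 1 := by
    rw [← Real.exp_add, neg_add_cancel, Real.exp_zero]
  have hw2 : (n : ℝ) * (4 * Real.exp (-(2 * Real.pi * (N * h))) *
      (B * Real.exp (2 * Real.pi * (N * h)))) = 4 * n * B := by
    calc (n : ℝ) * (4 * Real.exp (-(2 * Real.pi * (N * h))) *
      (B * Real.exp (2 * Real.pi * (N * h)))) = 4 * n * B * (Real.exp (-(2 * Real.pi * (N * h))) *
        Real.exp (2 * Real.pi * (N * h))) := by ring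
      _ = 4 * n * B := by rw [hexp, mul_one]
  rw [hw2] at hw
  have p1 := hP (m0 + n - 1 / 2) (Or.inr rfl)
  have p2 := hP (m0 - 1 / 2) (Or.inl rfl)
  have key := norm_add_le (∑ j ∈ Finset.range n, f ((m0 + j : ℕ) : ℂ) -
      N * (∫ x in (((m0 : ℝ) - 1 / 2) / N)..(((m0 : ℝ) + n - 1 / 2) / N), F (x + v * I)) -
      (Pool.Agent.Helper66.TF.PT f (N * h) (N * v) (m0 + n - 1 / 2) -
        Pool.Agent.Helper66.TF.PT f (N * h) (N * v) (m0 - 1 / 2)))
      (Pool.Agent.Helper66.TF.PT f (N * h) (N * v) (m0 + n - 1 / 2) -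
        Pool.Agent.Helper66.TF.PT f (N * h) (N * v) (m0 - 1 / 2))
  have key2 := norm_sub_le (Pool.Agent.Helper66.TF.PT f (N * h) (N * v) (m0 + n - 1 / 2))
    (Pool.Agent.Helper66.TF.PT f (N * h) (N * v) (m0 - 1 / 2))
  rw [sub_add_cancel] at key
  have hfin : (∑ j ∈ Finset.range n, F (((m0 + j : ℕ) : ℂ) / N)) =
      ∑ j ∈ Finset.range n, f ((m0 + j : ℕ) : ℂ) := rfl
  rw [hfin]
  linarith

end Pool.Agent.XV
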