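import Pool.Agent.XV.Defs

/-!
# XV ASH: the function `Ash w = arsinh w / w`

`Ash w = ∫_0^1 (1 + s ^ 2 w ^ 2) ^ (-1/2) ds`, with the principal branch; for `‖w‖ < 1` the number
`1 + s ^ 2 w ^ 2` has positive real part.

`ash_sinh`: let `g s = ∫_0^s w (1 + r ^ 2 w ^ 2) ^ (-1/2) dr` (so `g 1 = w Ash w`) and
`c s = exp (log (1 + s ^ 2 w ^ 2) / 2)`, `c s ^ 2 = 1 + s ^ 2 w ^ 2`, `c' = s w ^ 2 / c`,
`g' = w / c`.  Then `P s = (c s - s w) exp (g s)` has derivative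
`(s w ^ 2 / c - w) exp g + (c - s w) (w / c) exp g = 0`, so `exp (-g s) = c s - s w`; similarly
`exp (g s) = c s + s w`.  Hence `sinh (g 1) = w` and `cosh (g 1) = c 1`.

`ash_diff`: differentiation under the integral (`hasDerivAt_integral_of_dominated_loc_of_deriv_le`),
or: by `ash_sinh` `w Ash w = log (w + c 1)` near every point; or
`Ash = dslope (fun w => Complex.log (w + exp (log (1 + w ^ 2) / 2))) 0`.

`ash_bd`: for `‖ζ‖ < 1`, `f ζ = (1 + ζ) ^ (-1/2)` has `f'' = 3/4 (1 + ζ) ^ (-5/2)`,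
`‖f'' (x ζ)‖ ≤ 3/4 (1 - ‖ζ‖) ^ (-5/2)`, so `‖f ζ - 1 + ζ / 2‖ ≤ 3/8 ‖ζ‖ ^ 2 (1 - ‖ζ‖) ^ (-5/2)`; with
`ζ = s ^ 2 w ^ 2` and `∫ s ^ 4 = 1/5`:
`‖Ash w - 1 + w ^ 2 / 6‖ ≤ 3/40 ‖w‖ ^ 4 (1 - ‖w‖ ^ 2) ^ (-5/2)`.  For `‖w‖ ≤ 35/100` this is at most
`0.00157`, for `‖w‖ ≤ 63/100` at most `0.04183`.
-/

set_option autoImplicit false

namespace Pool.Agent.XV

open Complex Finset

/-- the principal square root -/
noncomputable def ASHq (u : ℂ) : ℂ := Complex.exp (Complex.log u / 2)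

theorem ASHq_sq {u : ℂ} (hu : u ≠ 0) : ASHq u ^ 2 = u := by
  unfold ASHq
  rw [← Complex.exp_nat_mul]
  have h : ((2 : ℕ) : ℂ) * (Complex.log u / 2) = Complex.log u := by
    push_cast
    ring
  rw [h, Complex.exp_log hu]

theorem ASHq_ne (u : ℂ) : ASHq u ≠ 0 := Complex.exp_ne_zero _

theorem ASHq_re (u : ℂ) : 0 ≤ (ASHq u).re := by
  unfold ASHq
  rw [Complex.exp_re]
  refine mul_nonneg (Real.exp_pos _).le ?_
  have h1 : (Complex.log u / 2).im = Complex.arg u / 2 := by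
    rw [← Complex.log_im]
    have : (Complex.log u / 2) = ((1 / 2 : ℝ) : ℂ) * Complex.log u := by
      push_cast
      ring
    rw [this, Complex.im_ofReal_mul]
    ring
  rw [h1]
  have h2 := Complex.neg_pi_lt_arg u
  have h3 := Complex.arg_le_pi u
  exact Real.cos_nonneg_of_neg_pi_div_two_le_of_le (by linarith) (by linarith)

theorem ASHq_inv (u : ℂ) : Complex.exp (-(Complex.log u / 2)) = (ASHq u)⁻¹ := by
  unfold ASHq
  rw [Complex.exp_neg]

theorem ASHq_re_ge {ζ : ℂ} {ρ : ℝ} (hζ : ‖ζ‖ ≤ ρ) (hρ : ρ < 1) :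
    1 - ρ ≤ (ASHq (1 + ζ)).re ^ 2 := by
  have hne : 1 + ζ ≠ 0 := by
    intro h
    have h1 : ζ = -1 := by linear_combination h
    rw [h1, norm_neg, norm_one] at hζ
    linarith
  have h1 := ASHq_sq hne
  set q := ASHq (1 + ζ) with hq
  have h2 : 1 - ρ ≤ ‖q‖ ^ 2 := by
    rw [← norm_pow, h1]
    have h3 := norm_sub_norm_le (1 : ℂ) (-ζ)
    rw [norm_one, norm_neg, sub_neg_eq_add] at h3
    linarith
  have h3 : 1 - ρ ≤ (q ^ 2).re := by
    rw [h1, Complex.add_re, Complex.one_re]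
    have := (abs_le.1 (Complex.abs_re_le_norm ζ)).1
    linarith
  have h4 : ‖q‖ ^ 2 = q.re ^ 2 + q.im ^ 2 := by
    rw [← Complex.normSq_eq_norm_sq, Complex.normSq_apply]
    ring
  have h5 : (q ^ 2).re = q.re ^ 2 - q.im ^ 2 := by
    rw [pow_two, Complex.mul_re]
    ring
  rw [h4] at h2
  rw [h5] at h3
  linarith

theorem ASH_pt {ζ : ℂ} {ρ μ : ℝ} (hζ : ‖ζ‖ ≤ ρ) (hμ : 0 < μ) (hμρ : μ ^ 2 ≤ 1 - ρ) :
    ‖Complex.exp (-(Complex.log (1 + ζ) / 2)) - 1 + ζ / 2‖ ≤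
      (2 + μ) / (2 * μ * (1 + μ) ^ 2) * ‖ζ‖ ^ 2 := by
  have hρ : ρ < 1 := by
    have : 0 < μ ^ 2 := by positivity
    linarith
  have hne : 1 + ζ ≠ 0 := by
    intro h
    have h1 : ζ = -1 := by linear_combination h
    rw [h1, norm_neg, norm_one] at hζ
    linarith
  rw [ASHq_inv]
  have h1 := ASHq_sq hne
  have h2 := ASHq_re_ge hζ hρ
  have h3 := ASHq_re (1 + ζ)
  have h0 := ASHq_ne (1 + ζ)
  set q := ASHq (1 + ζ) with hq
  have hre : μ ≤ q.re := by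
    refine le_of_sq_le_sq ?_ h3
    linarith
  have hqn : μ ≤ ‖q‖ := hre.trans (Complex.re_le_norm q)
  have ha : 1 + μ ≤ ‖q + 1‖ := by
    have := Complex.re_le_norm (q + 1)
    rw [Complex.add_re, Complex.one_re] at this
    linarith
  have hb : ‖q + 2‖ ≤ ‖q + 1‖ + 1 := by
    have h4 : q + 2 = (q + 1) + 1 := by ring
    rw [h4]
    refine (norm_add_le _ _).trans ?_
    rw [norm_one]
  have hq1 : q + 1 ≠ 0 := by
    intro h
    rw [h, norm_zero] at ha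
    linarith
  have hζq : ζ = q ^ 2 - 1 := by rw [h1]; ring
  have hid : q⁻¹ - 1 + ζ / 2 = ζ ^ 2 * (q + 2) / (2 * q * (q + 1) ^ 2) := by
    rw [hζq]
    field_simp
    ring
  rw [hid, norm_div, norm_mul, norm_pow, norm_mul, norm_mul, norm_pow, Complex.norm_two]
  have hap : 0 < ‖q + 1‖ := by linarith
  have hqp : 0 < ‖q‖ := by linarith
  rw [mul_comm ((2 + μ) / (2 * μ * (1 + μ) ^ 2)), mul_div_assoc]
  refine mul_le_mul_of_nonneg_left ?_ (by positivity)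
  calc ‖q + 2‖ / (2 * ‖q‖ * ‖q + 1‖ ^ 2) ≤ (‖q + 1‖ + 1) / (2 * μ * ‖q + 1‖ ^ 2) := by
        refine div_le_div₀ (by positivity) hb (by positivity) ?_
        refine mul_le_mul_of_nonneg_right ?_ (by positivity)
        linarith
    _ ≤ (2 + μ) / (2 * μ * (1 + μ) ^ 2) := by
        rw [div_le_div_iff₀ (by positivity) (by positivity)]
        set a := ‖q + 1‖ with haa
        have h5 : 0 ≤ (a - (1 + μ)) * (a * (1 + μ) + (a + (1 + μ))) :=
          mul_nonneg (by linarith) (by positivity)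
        have h6 : 0 ≤ 2 * μ * ((a - (1 + μ)) * (a * (1 + μ) + (a + (1 + μ)))) :=
          mul_nonneg (by positivity) h5
        nlinarith

theorem ASH_slit {w : ℂ} (hw : ‖w‖ < 1) {s : ℝ} (hs0 : 0 ≤ s) (hs1 : s ≤ 1) :
    0 < (1 + (s : ℂ) ^ 2 * w ^ 2).re := by
  have h1 : ‖(s : ℂ) ^ 2 * w ^ 2‖ < 1 := by
    rw [norm_mul, norm_pow, norm_pow, Complex.norm_real, Real.norm_of_nonneg hs0]
    have h2 : s ^ 2 ≤ 1 := by nlinarith
    have h3 : ‖w‖ ^ 2 < 1 := by nlinarith [norm_nonneg w]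
    nlinarith [sq_nonneg ‖w‖, sq_nonneg s]
  rw [Complex.add_re, Complex.one_re]
  have := (abs_le.1 (Complex.abs_re_le_norm ((s : ℂ) ^ 2 * w ^ 2))).1
  linarith

theorem ASH_mem {u : ℂ} (hu : 0 < u.re) : u ∈ Complex.slitPlane := Or.inl hu

/-- `z + sqrt (1 + z²)` is not a negative real number -/
theorem ASH_slit2 {z : ℂ} (hz : 0 < (1 + z ^ 2).re) : z + ASHq (1 + z ^ 2) ∈ Complex.slitPlane := by
  have hne : 1 + z ^ 2 ≠ 0 := by
    intro h
    rw [h, Complex.zero_re] at hz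
    exact lt_irrefl _ hz
  have h1 := ASHq_sq hne
  have h2 := ASHq_re (1 + z ^ 2)
  set q := ASHq (1 + z ^ 2) with hq
  have h3 : (z + q) * (q - z) = 1 := by linear_combination h1
  rw [Complex.mem_slitPlane_iff]
  by_contra hcon
  push Not at hcon
  obtain ⟨h4, h5⟩ := hcon
  have h6 : z + q = (((z + q).re : ℝ) : ℂ) := by
    apply Complex.ext
    · simp
    · simpa using h5
  set ρ := (z + q).re with hρ
  have hρ0 : ρ ≠ 0 := by
    intro h
    rw [h6, h] at h3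
    simp at h3
  have hρneg : ρ < 0 := lt_of_le_of_ne h4 hρ0
  have h7 : q - z = ((ρ⁻¹ : ℝ) : ℂ) := by
    rw [h6] at h3
    push_cast
    exact eq_inv_of_mul_eq_one_right h3
  have h8 : 2 * q = ((ρ + ρ⁻¹ : ℝ) : ℂ) := by
    have : 2 * q = (z + q) + (q - z) := by ring
    rw [this, h6, h7]
    push_cast
    ring
  have h9 : 2 * q.re = ρ + ρ⁻¹ := by
    have := congrArg Complex.re h8
    rw [Complex.ofReal_re] at this
    rw [← this]
    simp
  have h10 : ρ⁻¹ < 0 := inv_lt_zero.2 hρneg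
  linarith

/-- the primitive -/
noncomputable def ASHF (w : ℂ) (s : ℝ) : ℂ := Complex.log (s * w + ASHq (1 + (s : ℂ) ^ 2 * w ^ 2))

theorem ASHF_deriv {w : ℂ} (hw : ‖w‖ < 1) {s : ℝ} (hs0 : 0 ≤ s) (hs1 : s ≤ 1) :
    HasDerivAt (ASHF w) (w * Complex.exp (-(Complex.log (1 + (s : ℂ) ^ 2 * w ^ 2) / 2))) s := by
  have hre := ASH_slit hw hs0 hs1
  have hsl := ASH_mem hre
  have hne : 1 + (s : ℂ) ^ 2 * w ^ 2 ≠ 0 := Complex.slitPlane_ne_zero hsl
  have h1 := ASHq_sq hne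
  have hq0 := ASHq_ne (1 + (s : ℂ) ^ 2 * w ^ 2)
  -- complex variable
  have hu : HasDerivAt (fun z : ℂ => 1 + z ^ 2 * w ^ 2) (2 * (s : ℂ) * w ^ 2) (s : ℂ) := by
    have := ((hasDerivAt_pow 2 (s : ℂ)).mul_const (w ^ 2)).const_add 1
    refine this.congr_deriv ?_
    norm_num
  have hl := hu.clog hsl
  have hq : HasDerivAt (fun z : ℂ => ASHq (1 + z ^ 2 * w ^ 2))
      (ASHq (1 + (s : ℂ) ^ 2 * w ^ 2) * ((2 * (s : ℂ) * w ^ 2) / (1 + (s : ℂ) ^ 2 * w ^ 2) / 2))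
      (s : ℂ) := (hl.div_const 2).cexp
  have hsum : HasDerivAt (fun z : ℂ => z * w + ASHq (1 + z ^ 2 * w ^ 2))
      (w + ASHq (1 + (s : ℂ) ^ 2 * w ^ 2) *
        ((2 * (s : ℂ) * w ^ 2) / (1 + (s : ℂ) ^ 2 * w ^ 2) / 2)) (s : ℂ) := by
    have := ((hasDerivAt_id (s : ℂ)).mul_const w).add hq
    refine this.congr_deriv ?_
    rw [one_mul]
  have hz : (s * w) ^ 2 = (s : ℂ) ^ 2 * w ^ 2 := by ring
  have hsl2 : (s : ℂ) * w + ASHq (1 + (s : ℂ) ^ 2 * w ^ 2) ∈ Complex.slitPlane := by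
    have := ASH_slit2 (z := s * w) (by rw [hz]; exact hre)
    rwa [hz] at this
  have hlog := hsum.clog hsl2
  have hcomp := hlog.comp_ofReal
  refine hcomp.congr_deriv ?_
  rw [ASHq_inv]
  have hne2 : (s : ℂ) * w + ASHq (1 + (s : ℂ) ^ 2 * w ^ 2) ≠ 0 := Complex.slitPlane_ne_zero hsl2
  set q := ASHq (1 + (s : ℂ) ^ 2 * w ^ 2) with hqdef
  rw [← h1, div_eq_iff hne2]
  field_simp
  ring

theorem ASH_cont {w : ℂ} (hw : ‖w‖ < 1) : ContinuousOn (fun s : ℝ =>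
    Complex.exp (-(Complex.log (1 + (s : ℂ) ^ 2 * w ^ 2) / 2))) (Set.Icc 0 1) := by
  intro s hs
  refine ContinuousAt.continuousWithinAt ?_
  have hsl := ASH_mem (ASH_slit hw hs.1 hs.2)
  have h1 : ContinuousAt (fun s : ℝ => 1 + (s : ℂ) ^ 2 * w ^ 2) s := by fun_prop
  exact ((h1.clog hsl).div_const 2).neg.cexp

theorem ASH_int {w : ℂ} (hw : ‖w‖ < 1) : IntervalIntegrable (fun s : ℝ =>
    Complex.exp (-(Complex.log (1 + (s : ℂ) ^ 2 * w ^ 2) / 2))) MeasureTheory.volume 0 1 := by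
  refine ContinuousOn.intervalIntegrable ?_
  rw [Set.uIcc_of_le zero_le_one]
  exact ASH_cont hw

theorem ash_log {w : ℂ} (hw : ‖w‖ < 1) : w * Ash w = Complex.log (w + ASHq (1 + w ^ 2)) := by
  have h1 : w * Ash w = ∫ s in (0 : ℝ)..1, w *
      Complex.exp (-(Complex.log (1 + (s : ℂ) ^ 2 * w ^ 2) / 2)) := by
    unfold Ash
    rw [intervalIntegral.integral_const_mul]
  rw [h1, intervalIntegral.integral_eq_sub_of_hasDerivAt (f := ASHF w)]
  · unfold ASHF ASHq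
    simp
  · intro s hs
    rw [Set.uIcc_of_le zero_le_one] at hs
    exact ASHF_deriv hw hs.1 hs.2
  · exact (ASH_int hw).const_mul w

theorem ASH_re {w : ℂ} (hw : ‖w‖ < 1) : 0 < (1 + w ^ 2).re := by
  have := ASH_slit hw zero_le_one le_rfl
  simpa using this

theorem ash_sinh {w : ℂ} (hw : ‖w‖ < 1) : Complex.sinh (w * Ash w) = w ∧
    Complex.cosh (w * Ash w) = Complex.exp (Complex.log (1 + w ^ 2) / 2) := by
  have hre := ASH_re hw
  have hne : 1 + w ^ 2 ≠ 0 := Complex.slitPlane_ne_zero (ASH_mem hre)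
  have h1 := ASHq_sq hne
  have hsl := ASH_slit2 hre
  have hne2 := Complex.slitPlane_ne_zero hsl
  have h2 : Complex.exp (w * Ash w) = w + ASHq (1 + w ^ 2) := by
    rw [ash_log hw, Complex.exp_log hne2]
  have h3 : Complex.exp (-(w * Ash w)) = ASHq (1 + w ^ 2) - w := by
    rw [Complex.exp_neg, h2]
    rw [inv_eq_iff_eq_inv]
    refine eq_inv_of_mul_eq_one_left ?_
    linear_combination h1
  constructor
  · rw [Complex.sinh, h2, h3]
    ring
  · rw [Complex.cosh, h2, h3]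
    unfold ASHq
    ring

theorem ash_zero : Ash 0 = 1 := by
  unfold Ash
  simp

/-- the logarithm as a function of `w` -/
noncomputable def ASHG (w : ℂ) : ℂ := Complex.log (w + ASHq (1 + w ^ 2))

theorem ASHG_deriv {w : ℂ} (hw : ‖w‖ < 1) : HasDerivAt ASHG
    ((1 + ASHq (1 + w ^ 2) * ((2 * w) / (1 + w ^ 2) / 2)) / (w + ASHq (1 + w ^ 2))) w := by
  have hre := ASH_re hw
  have hsl := ASH_mem hre
  have hu : HasDerivAt (fun z : ℂ => 1 + z ^ 2) (2 * w) w := by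
    have := (hasDerivAt_pow 2 w).const_add 1
    refine this.congr_deriv ?_
    norm_num
  have hq : HasDerivAt (fun z : ℂ => ASHq (1 + z ^ 2))
      (ASHq (1 + w ^ 2) * ((2 * w) / (1 + w ^ 2) / 2)) w := ((hu.clog hsl).div_const 2).cexp
  exact ((hasDerivAt_id w).add hq).clog (ASH_slit2 hre)

theorem ash_diff : DifferentiableOn ℂ Ash (Metric.ball 0 1) := by
  have h1 : DifferentiableOn ℂ ASHG (Metric.ball 0 1) := fun w hw =>
    (ASHG_deriv (mem_ball_zero_iff.1 hw)).differentiableAt.differentiableWithinAt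
  have h2 : DifferentiableOn ℂ (dslope ASHG 0) (Metric.ball 0 1) :=
    (Complex.differentiableOn_dslope (Metric.ball_mem_nhds 0 one_pos)).2 h1
  refine h2.congr fun w hw => ?_
  have hw1 := mem_ball_zero_iff.1 hw
  have h0 : ASHG 0 = 0 := by
    have := ash_log (w := 0) (by simp)
    rw [zero_mul] at this
    exact this.symm
  by_cases hw0 : w = 0
  · rw [hw0, dslope_same, ash_zero]
    have h3 := (ASHG_deriv (w := 0) (by simp)).deriv
    rw [h3]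
    unfold ASHq
    simp
  · rw [dslope_of_ne _ hw0, slope_def_field, h0, sub_zero, sub_zero]
    have h4 := ash_log hw1
    rw [eq_div_iff hw0, mul_comm]
    exact h4

theorem ash_bd {w : ℂ} {R μ : ℝ} (hw : ‖w‖ ≤ R) (hμ : 0 < μ) (hμR : μ ^ 2 ≤ 1 - R ^ 2) :
    ‖Ash w - 1 + w ^ 2 / 6‖ ≤ (2 + μ) / (2 * μ * (1 + μ) ^ 2) * R ^ 4 / 5 := by
  have hR0 : 0 ≤ R := (norm_nonneg w).trans hw
  have hR1 : R ^ 2 < 1 := by
    have : 0 < μ ^ 2 := by positivity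
    linarith
  have hR : R < 1 := by nlinarith
  have hw1 : ‖w‖ < 1 := lt_of_le_of_lt hw hR
  set K : ℝ := (2 + μ) / (2 * μ * (1 + μ) ^ 2) with hK
  have hK0 : 0 < K := by positivity
  have h1 : Ash w - 1 + w ^ 2 / 6 = ∫ s in (0 : ℝ)..1,
      (Complex.exp (-(Complex.log (1 + (s : ℂ) ^ 2 * w ^ 2) / 2)) - 1 + (s : ℂ) ^ 2 * w ^ 2 / 2) := by
    have h2 : ∫ s in (0 : ℝ)..1, ((s : ℂ) ^ 2 * w ^ 2 / 2) = w ^ 2 / 6 := by
      have h3 : ∀ s : ℝ, (s : ℂ) ^ 2 * w ^ 2 / 2 = ((s ^ 2 : ℝ) : ℂ) * (w ^ 2 / 2) := by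
        intro s
        push_cast
        ring
      simp only [h3]
      rw [intervalIntegral.integral_mul_const, intervalIntegral.integral_ofReal, integral_pow]
      norm_num
      ring
    rw [intervalIntegral.integral_add, intervalIntegral.integral_sub, h2]
    · unfold Ash
      simp
    · exact ASH_int hw1
    · exact intervalIntegrable_const
    · exact (ASH_int hw1).sub intervalIntegrable_const
    · exact Continuous.intervalIntegrable (by fun_prop) _ _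
  rw [h1]
  have h4 : ∀ s ∈ Set.Ioc (0 : ℝ) 1,
      ‖Complex.exp (-(Complex.log (1 + (s : ℂ) ^ 2 * w ^ 2) / 2)) - 1 + (s : ℂ) ^ 2 * w ^ 2 / 2‖ ≤
      K * R ^ 4 * s ^ 4 := by
    intro s hs
    have h5 : ‖(s : ℂ) ^ 2 * w ^ 2‖ ≤ s ^ 2 * R ^ 2 := by
      rw [norm_mul, norm_pow, norm_pow, Complex.norm_real, Real.norm_of_nonneg hs.1.le]
      gcongr
    have h6 : s ^ 2 * R ^ 2 ≤ R ^ 2 := by
      have : s ^ 2 ≤ 1 := by nlinarith [hs.1, hs.2]
      nlinarith [sq_nonneg R]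
    refine (ASH_pt (h5.trans h6) hμ hμR).trans ?_
    rw [← hK]
    calc K * ‖(s : ℂ) ^ 2 * w ^ 2‖ ^ 2 ≤ K * (s ^ 2 * R ^ 2) ^ 2 := by gcongr
      _ = K * R ^ 4 * s ^ 4 := by ring
  have h7 := intervalIntegral.norm_integral_le_of_norm_le (μ := MeasureTheory.volume)
    (f := fun s : ℝ => Complex.exp (-(Complex.log (1 + (s : ℂ) ^ 2 * w ^ 2) / 2)) - 1 +
      (s : ℂ) ^ 2 * w ^ 2 / 2) (g := fun s : ℝ => K * R ^ 4 * s ^ 4) zero_le_one
    (Filter.Eventually.of_forall h4) (Continuous.intervalIntegrable (by fun_prop) _ _)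
  refine h7.trans (le_of_eq ?_)
  rw [intervalIntegral.integral_const_mul, integral_pow]
  norm_num
  ring

theorem ash_bd1 {w : ℂ} (hw : ‖w‖ ≤ 35 / 100) : ‖Ash w - 1 + w ^ 2 / 6‖ ≤ 1 / 600 := by
  refine (ash_bd (μ := 93 / 100) hw (by norm_num) (by norm_num)).trans ?_
  norm_num

theorem ash_bd2 {w : ℂ} (hw : ‖w‖ ≤ 63 / 100) : ‖Ash w - 1 + w ^ 2 / 6‖ ≤ 42 / 1000 := by
  refine (ash_bd (μ := 77 / 100) hw (by norm_num) (by norm_num)).trans ?_
  norm_num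

end Pool.Agent.XV
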