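import Pool.Agent.XV.Defs
import Pool.Agent.Helper11.TF.Lim

/-!
# XV CV: `gam` along straight lines

`gam y t = CC (t + y) + CC (t - y) - 2 CC (t - 1 / 2)`, `CC_deriv`, `cc_deriv` (Helper11.TF.CN) on
`HS = {|re| < 1 / 2}`, `tan (π (t - 1 / 2)) = - cot (π t)`, composed with real lines
`s ↦ (y + s a, t + s b)` (`HasDerivAt.comp_ofReal` or `HasDerivAt.scomp`).

`gam_d1`, `gam_d2`: first and second derivative of `s ↦ gam (y + s a) (t + s b)`.

`taylor`: for real `a`, `b` let `f s = (gam (y + s a) (t + s b)).re`; `f'' = -(QQ ..).re ≤ -c` on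
`[0, 1]`, so `f 1 ≤ f 0 + f' 0 - c / 2`.

`convex_im`: for real `a`, `b` and `f s = (gam (y + s a i) (t + s b i)).re`, `f'' = (QQ .. a b).re`
(`QQ y t (a i) (b i) = - QQ y t a b`), so `f` is convex on `[s0, s1]`.

`im_deriv`: `f' s = - (gamy a + gamt b).im` at the point.

`ge_real`: `f` on `[0, 1]` starting at a real point: there `gamy`, `gamt` are real, so `f' 0 = 0` and
`f 1 ≥ f 0`.

`gam_even`, `gam_conj`: `CC` is odd and commutes with conjugation (`cc_conj`, or `CN_conj`, `LI_conj`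
with `CC_eq`); `gam (-y) t` exchanges the first two terms.
-/

set_option autoImplicit false

namespace Pool.Agent.XV

open Complex Finset
open Pool.Agent.Helper9.TB Pool.Agent.Helper9.TF

/-- the domain of `gam` -/
structure Dom (y t : ℂ) : Prop where
  h1 : |(t + y).re| < 1 / 2
  h2 : |(t - y).re| < 1 / 2
  h3 : 0 < t.re
  h4 : t.re < 1

lemma Dom.m1 {y t : ℂ} (h : Dom y t) : t + y ∈ HS := h.h1

lemma Dom.m2 {y t : ℂ} (h : Dom y t) : t - y ∈ HS := h.h2

lemma Dom.m3 {y t : ℂ} (h : Dom y t) : t - 1 / 2 ∈ HS := by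
  show |(t - 1 / 2).re| < 1 / 2
  have e : (t - 1 / 2).re = t.re - 1 / 2 := by simp
  rw [e, abs_lt]
  exact ⟨by linarith [h.h3], by linarith [h.h4]⟩

lemma line_deriv (u v : ℂ) (s : ℝ) : HasDerivAt (fun s : ℝ => u + s * v) v s := by
  have h3 : HasDerivAt (fun s : ℝ => (s : ℂ)) 1 s := Complex.ofRealCLM.hasDerivAt
  simpa using (h3.mul_const v).const_add u

lemma tan_shift (t : ℂ) : Complex.tan (Real.pi * (t - 1 / 2)) = -Complex.cot (Real.pi * t) := by
  rw [Complex.tan_eq_sin_div_cos, Complex.cot_eq_cos_div_sin,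
    show (Real.pi : ℂ) * (t - 1 / 2) = Real.pi * t - Real.pi / 2 by ring,
    Complex.sin_sub_pi_div_two, Complex.cos_sub_pi_div_two]
  ring

theorem gam_d1 {y t a b : ℂ} {s : ℝ} (h : Dom (y + s * a) (t + s * b)) :
    HasDerivAt (fun s : ℝ => gam (y + s * a) (t + s * b))
      (gamy (y + s * a) (t + s * b) * a + gamt (y + s * a) (t + s * b) * b) s := by
  have hy := line_deriv y a s
  have ht := line_deriv t b s
  have e1 := HasDerivAt.comp_of_eq (h₂ := CC) s (CC_deriv h.m1) (ht.add hy) rfl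
  have e2 := HasDerivAt.comp_of_eq (h₂ := CC) s (CC_deriv h.m2) (ht.sub hy) rfl
  have e3 := HasDerivAt.comp_of_eq (h₂ := CC) s (CC_deriv h.m3) (ht.sub_const (1 / 2)) rfl
  have e4 := (e1.add e2).sub (e3.const_mul 2)
  refine e4.congr_deriv ?_
  unfold gamy gamt
  ring

theorem gam_d2 {y t a b : ℂ} {s : ℝ} (h : Dom (y + s * a) (t + s * b)) :
    HasDerivAt (fun s : ℝ => gamy (y + s * a) (t + s * b) * a + gamt (y + s * a) (t + s * b) * b)
      (-QQ (y + s * a) (t + s * b) a b) s := by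
  have hy := line_deriv y a s
  have ht := line_deriv t b s
  have e1 := HasDerivAt.comp_of_eq (h₂ := cc) s (cc_deriv h.m1) (ht.add hy) rfl
  have e2 := HasDerivAt.comp_of_eq (h₂ := cc) s (cc_deriv h.m2) (ht.sub hy) rfl
  have e3 := HasDerivAt.comp_of_eq (h₂ := cc) s (cc_deriv h.m3) (ht.sub_const (1 / 2)) rfl
  have e4 := ((e1.sub e2).mul_const a).add (((e1.add e2).sub (e3.const_mul 2)).mul_const b)
  refine e4.congr_deriv ?_
  unfold QQ
  rw [tan_shift]
  ring

/-- second order bound -/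
lemma second_order {f f' f'' : ℝ → ℝ} {c : ℝ} (h1 : ∀ s, 0 ≤ s → s ≤ 1 → HasDerivAt f (f' s) s)
    (h2 : ∀ s, 0 ≤ s → s ≤ 1 → HasDerivAt f' (f'' s) s) (h3 : ∀ s, 0 ≤ s → s ≤ 1 → f'' s ≤ -c) :
    f 1 ≤ f 0 + f' 0 - c / 2 := by
  have g1 : AntitoneOn (fun s => f' s + c * s) (Set.Icc 0 1) := by
    have hd : ∀ s, 0 ≤ s → s ≤ 1 → HasDerivAt (fun s => f' s + c * s) (f'' s + c) s := by
      intro s s0 s1
      have := (h2 s s0 s1).add ((hasDerivAt_id s).const_mul c)
      refine this.congr_deriv ?_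
      ring
    apply antitoneOn_of_deriv_nonpos (convex_Icc 0 1)
    · intro s hs
      exact (hd s hs.1 hs.2).continuousAt.continuousWithinAt
    · intro s hs
      rw [interior_Icc] at hs
      exact (hd s hs.1.le hs.2.le).differentiableAt.differentiableWithinAt
    · intro s hs
      rw [interior_Icc] at hs
      rw [(hd s hs.1.le hs.2.le).deriv]
      linarith [h3 s hs.1.le hs.2.le]
  have g2 : AntitoneOn (fun s => f s - f' 0 * s + c * s ^ 2 / 2) (Set.Icc 0 1) := by
    have hd : ∀ s, 0 ≤ s → s ≤ 1 → HasDerivAt (fun s => f s - f' 0 * s + c * s ^ 2 / 2)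
        (f' s - f' 0 + c * s) s := by
      intro s s0 s1
      have := ((h1 s s0 s1).sub ((hasDerivAt_id s).const_mul (f' 0))).add
        (((hasDerivAt_pow 2 s).const_mul c).div_const 2)
      refine this.congr_deriv ?_
      push_cast
      ring
    apply antitoneOn_of_deriv_nonpos (convex_Icc 0 1)
    · intro s hs
      exact (hd s hs.1 hs.2).continuousAt.continuousWithinAt
    · intro s hs
      rw [interior_Icc] at hs
      exact (hd s hs.1.le hs.2.le).differentiableAt.differentiableWithinAt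
    · intro s hs
      rw [interior_Icc] at hs
      rw [(hd s hs.1.le hs.2.le).deriv]
      have := g1 (Set.left_mem_Icc.2 zero_le_one) ⟨hs.1.le, hs.2.le⟩ hs.1.le
      simp only at this
      linarith
  have := g2 (Set.left_mem_Icc.2 zero_le_one) (Set.right_mem_Icc.2 zero_le_one) zero_le_one
  simp only at this
  linarith

lemma re_deriv {F : ℝ → ℂ} {F' : ℂ} {s : ℝ} (h : HasDerivAt F F' s) :
    HasDerivAt (fun s => (F s).re) F'.re s := by
  have := Complex.reCLM.hasFDerivAt.comp_hasDerivAt s h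
  exact this

theorem taylor {y t : ℂ} {a b c : ℝ} (h : ∀ s : ℝ, 0 ≤ s → s ≤ 1 →
      Dom (y + s * a) (t + s * b) ∧ c ≤ (QQ (y + s * a) (t + s * b) a b).re) :
    (gam (y + a) (t + b)).re ≤
      (gam y t).re + (gamy y t).re * a + (gamt y t).re * b - c / 2 := by
  have h1 := second_order (f := fun s : ℝ => (gam (y + s * a) (t + s * b)).re)
    (f' := fun s : ℝ => (gamy (y + s * a) (t + s * b) * a + gamt (y + s * a) (t + s * b) * b).re)
    (f'' := fun s : ℝ => (-QQ (y + s * a) (t + s * b) a b).re) (c := c)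
    (fun s s0 s1 => re_deriv (gam_d1 (h s s0 s1).1)) (fun s s0 s1 => re_deriv (gam_d2 (h s s0 s1).1))
    (fun s s0 s1 => by
      have := (h s s0 s1).2
      rw [Complex.neg_re]
      linarith)
  simp only [Complex.ofReal_one, one_mul, Complex.ofReal_zero, zero_mul, add_zero] at h1
  rw [Complex.add_re, Complex.re_mul_ofReal, Complex.re_mul_ofReal] at h1
  linarith

lemma QQ_I (y t a b : ℂ) : -QQ y t (a * I) (b * I) = QQ y t a b := by
  unfold QQ
  have h := Complex.I_sq
  linear_combination (-(Real.pi * (Complex.tan (Real.pi * (t + y)) * (b + a) ^ 2 +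
    Complex.tan (Real.pi * (t - y)) * (b - a) ^ 2 + 2 * Complex.cot (Real.pi * t) * b ^ 2))) * h

theorem convex_im {y t : ℂ} {a b s0 s1 : ℝ} (h : ∀ s : ℝ, s0 ≤ s → s ≤ s1 →
      Dom (y + s * (a * I)) (t + s * (b * I)) ∧
        0 ≤ (QQ (y + s * (a * I)) (t + s * (b * I)) a b).re) :
    ConvexOn ℝ (Set.Icc s0 s1) (fun s : ℝ => (gam (y + s * (a * I)) (t + s * (b * I))).re) := by
  apply convexOn_of_hasDerivWithinAt2_nonneg (convex_Icc s0 s1)
    (f' := fun s : ℝ => (gamy (y + s * (a * I)) (t + s * (b * I)) * (a * I) +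
      gamt (y + s * (a * I)) (t + s * (b * I)) * (b * I)).re)
    (f'' := fun s : ℝ => (-QQ (y + s * (a * I)) (t + s * (b * I)) (a * I) (b * I)).re)
  · intro s hs
    exact (re_deriv (gam_d1 (h s hs.1 hs.2).1)).continuousAt.continuousWithinAt
  · intro s hs
    have hs' := interior_subset hs
    exact (re_deriv (gam_d1 (h s hs'.1 hs'.2).1)).hasDerivWithinAt
  · intro s hs
    have hs' := interior_subset hs
    exact (re_deriv (gam_d2 (h s hs'.1 hs'.2).1)).hasDerivWithinAt
  · intro s hs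
    have hs' := interior_subset hs
    rw [QQ_I]
    exact (h s hs'.1 hs'.2).2

theorem im_deriv {y t : ℂ} {a b s : ℝ} (h : Dom (y + s * (a * I)) (t + s * (b * I))) :
    HasDerivAt (fun s : ℝ => (gam (y + s * (a * I)) (t + s * (b * I))).re)
      (-(gamy (y + s * (a * I)) (t + s * (b * I)) * a +
        gamt (y + s * (a * I)) (t + s * (b * I)) * b).im) s := by
  refine (re_deriv (gam_d1 h)).congr_deriv ?_
  simp
  ring

lemma LI_CC_conj {u : ℂ} (hu : u ∈ HS) :
    CC ((starRingEnd ℂ) u) = (starRingEnd ℂ) (CC u) := by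
  have hu' : (starRingEnd ℂ) u ∈ HS := by
    show |((starRingEnd ℂ) u).re| < 1 / 2
    rw [Complex.conj_re]
    exact hu
  rw [CC_eq hu, CC_eq hu', ← Helper48.QD.LI_conj, map_add, map_div₀, map_one, Complex.conj_ofNat]

lemma cc_real {x : ℝ} (hx : |x| < 1 / 2) : (cc (x : ℂ)).im = 0 := by
  unfold cc
  have h1 := abs_lt.1 hx
  have h2 : 0 < Real.cos (Real.pi * x) := by
    apply Real.cos_pos_of_mem_Ioo
    constructor
    · nlinarith [Real.pi_pos, h1.1]
    · nlinarith [Real.pi_pos, h1.2]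
  have h3 : (2 * Complex.cos (Real.pi * x) : ℂ) = ((2 * Real.cos (Real.pi * x) : ℝ) : ℂ) := by
    push_cast; ring
  rw [h3, Complex.log_im, Complex.arg_ofReal_of_nonneg (by positivity)]

theorem ge_real {x r η θ : ℝ} (h : ∀ s : ℝ, 0 ≤ s → s ≤ 1 →
      Dom (x + s * (η * I)) (r + s * (θ * I)) ∧
        0 ≤ (QQ (x + s * (η * I)) (r + s * (θ * I)) η θ).re) :
    (gam x r).re ≤ (gam (x + η * I) (r + θ * I)).re := by
  have h1 := second_order
    (f := fun s : ℝ => -(gam (x + s * (η * I)) (r + s * (θ * I))).re)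
    (f' := fun s : ℝ => -(gamy (x + s * (η * I)) (r + s * (θ * I)) * (η * I) +
      gamt (x + s * (η * I)) (r + s * (θ * I)) * (θ * I)).re)
    (f'' := fun s : ℝ => -(-QQ (x + s * (η * I)) (r + s * (θ * I)) (η * I) (θ * I)).re) (c := 0)
    (fun s s0 s1 => (re_deriv (gam_d1 (h s s0 s1).1)).neg)
    (fun s s0 s1 => (re_deriv (gam_d2 (h s s0 s1).1)).neg)
    (fun s s0 s1 => by
      have := (h s s0 s1).2
      rw [QQ_I]
      linarith)
  simp only [Complex.ofReal_one, one_mul, Complex.ofReal_zero, zero_mul, add_zero] at h1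
  have h0 := (h 0 le_rfl zero_le_one).1
  simp only [Complex.ofReal_zero, zero_mul, add_zero] at h0
  have c1 : (cc ((r : ℂ) + x)).im = 0 := by
    have := cc_real (x := r + x) (by simpa using h0.h1)
    simpa using this
  have c2 : (cc ((r : ℂ) - x)).im = 0 := by
    have := cc_real (x := r - x) (by simpa using h0.h2)
    simpa using this
  have c3 : (cc ((r : ℂ) - 1 / 2)).im = 0 := by
    have h3 := h0.m3
    have := cc_real (x := r - 1 / 2) (by
      have h4 : |((r : ℂ) - 1 / 2).re| < 1 / 2 := h3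
      have h5 : ((r : ℂ) - 1 / 2).re = r - 1 / 2 := by simp
      rwa [h5] at h4)
    push_cast at this
    exact this
  have g : (gamy (x : ℂ) r * (η * I) + gamt (x : ℂ) r * (θ * I)).re = 0 := by
    unfold gamy gamt
    have e : ∀ w : ℂ, ∀ p : ℝ, (w * (p * I)).re = -(w.im * p) := by
      intro w p
      simp
    rw [Complex.add_re, e, e, Complex.sub_im, Complex.sub_im, Complex.add_im, Complex.mul_im, c1, c2,
      c3]
    simp
  rw [g] at h1
  linarith

theorem gam_even (y t : ℂ) : gam (-y) t = gam y t := by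
  unfold gam
  rw [sub_neg_eq_add, ← sub_eq_add_neg]
  ring

theorem gam_conj {y t : ℂ} (h : Dom y t) :
    gam ((starRingEnd ℂ) y) ((starRingEnd ℂ) t) = (starRingEnd ℂ) (gam y t) := by
  unfold gam
  have e1 := LI_CC_conj h.m1
  have e2 := LI_CC_conj h.m2
  have e3 := LI_CC_conj h.m3
  rw [map_add] at e1
  rw [map_sub] at e2 e3
  have e5 : (starRingEnd ℂ) (2 : ℂ) = 2 := Complex.conj_ofNat 2
  have e4 : (starRingEnd ℂ) (1 / 2 : ℂ) = 1 / 2 := by rw [map_div₀, map_one, e5]
  rw [e4] at e3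
  rw [map_sub, map_add, map_mul, ← e1, ← e2, ← e3, e5]

theorem QQ_swap (y t a b : ℂ) : QQ (-y) t (-a) b = QQ y t a b := by
  unfold QQ
  rw [sub_neg_eq_add, ← sub_eq_add_neg, sub_neg_eq_add, ← sub_eq_add_neg]
  ring

end Pool.Agent.XV
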