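import Mathlib
import Pool.Agent.Helper9.TG.TreeDefs
import Pool.Agent.Helper9.TW.ZDefs
import Pool.Agent.Helper11.TF.GADefs

/-!
# XV: arborescent links with an explicit number of crossings in each twist region

Definitions.  `y` is the variable of a twist region (vertex of the tree), `t` the variable of an
edge; `gam y t` is the limit exponent of `gm`, with derivatives `gamy`, `gamt`.  All exponents are
per `N`.
-/

namespace Pool.Agent.XV

open Complex Finset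
open Pool.Agent.Helper9.TB Pool.Agent.Helper9.TF Pool.Agent.Helper9.TG Pool.Agent.Helper9.TW

/-! ### exact formulas -/

/-- the integrand of a twist region, normalised -/
noncomputable def om2 (N : ℕ) (a : ℤ) (y : ℂ) : ℂ := (-1) ^ N * omz N a y

/-- the kernel of an edge -/
noncomputable def KN (N : ℕ) (y z : ℂ) : ℂ := ∑ m ∈ range N, gm N m y * gm N m z

/-- the step from a child to its parent -/
noncomputable def ST (N : ℕ) (a : ℤ) (G : ℂ → ℂ) (y : ℂ) : ℂ :=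
  PI (fun z => om2 N a z * KN N y z * G z) 1

/-- the function of a tree in the frame `s = ± 1` -/
noncomputable def FT (N : ℕ) : ℤ → PTree → ℂ → ℂ
  | _, .leaf _ => fun _ => 1
  | s, .graft p c => fun y => FT N s p y * ST N (-s * c.wt) (FT N (-s) c) y

/-- the final integral of a tree -/
noncomputable def RT (N : ℕ) (t : PTree) : ℂ := PI (fun z => om2 N t.wt z * FT N 1 t z) 1

/-- All weights have absolute value at least `R`. -/
def AllGe (R : ℕ) : PTree → Prop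
  | .leaf a => R ≤ a.natAbs
  | .graft p c => AllGe R p ∧ AllGe R c

/-- The value at `z` of the exponent of a twist region with `a` crossings. -/
noncomputable def vx (a : ℤ) (z : ℂ) : ℂ := Real.pi * I * a * z ^ 2 - 2 * Real.pi * I * z

/-! ### the analytic continuation in the variable of the edge -/

/-- the analytic continuation of `m / N ↦ gm N m y` -/
noncomputable def gmc (N : ℕ) (y t : ℂ) : ℂ := Complex.exp (N * GA N y t)

/-- left end of the window -/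
noncomputable def aN (N : ℕ) : ℝ := ((⌈(17 / 100 : ℝ) * N⌉₊ : ℝ) + 1 / 2) / N

/-- right end of the window -/
noncomputable def bN (N : ℕ) : ℝ := ((⌊(31 / 100 : ℝ) * N⌋₊ : ℝ) - 1 / 2) / N

/-- the main part of the kernel, `θ` is the height of the path -/
noncomputable def KI (N : ℕ) (θ : ℝ) (y z : ℂ) : ℂ :=
  N * ∫ r in (aN N)..(bN N), gmc N y (r + θ * I) * gmc N z (r + θ * I)

/-! ### the path of a vertex -/

/-- the near points `w` of the path, with abscissa `ξ` -/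
def Nr (y w : ℂ) (ξ : ℝ) : Prop := |ξ| ≤ 17 / 100 ∧ w = ξ + y.im * I

/-- the points `w` on the walls, with the effective abscissa `ξ`; `x0 = 1 / a` -/
def Wa (x0 : ℝ) (y : ℂ) (N : ℕ) (w : ℂ) (ξ : ℝ) : Prop :=
  ∃ lam x : ℝ, 0 ≤ lam ∧ lam ≤ 1 ∧ 1 / (N : ℝ) ≤ lam * |y.im| ∧ |x| = 17 / 100 ∧
    w = x + (lam * y.im : ℝ) * I ∧ ξ = (1 - lam) * x0 + lam * x

/-- the far points of the path, with the effective abscissa `x0 = 1 / a` -/
def Fa (x0 : ℝ) (N : ℕ) (w : ℂ) (ξ : ℝ) : Prop :=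
  17 / 100 ≤ |w.re| ∧ |w.re| ≤ 1 / 2 ∧ -(1 / (N : ℝ)) ≤ w.im ∧ w.im ≤ 0 ∧
    (w.im = -(1 / (N : ℝ)) ∨ |w.re| = 1 / 2) ∧ ξ = x0

/-! ### conditions for a half edge -/

/-- the tangent plane of the real part of `gam` along real displacements -/
noncomputable def TP (y t : ℂ) (r ξ : ℝ) : ℝ :=
  (gam y t).re + (gamt y t).re * (r - t.re) + (gamy y t).re * (ξ - y.re)

/-- the same without the variable of the edge -/
noncomputable def SP (y t : ℂ) (ξ : ℝ) : ℝ := (gam y t).re + (gamy y t).re * (ξ - y.re)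

/-- The points `x + lam * y.im * I` of the inner part of the path of a vertex: either `lam = 1` (the
segment through the saddle point) or `|x| = 17 / 100` (the walls); `ξ` is the effective abscissa. -/
structure Inn (x0 lam x ξ : ℝ) : Prop where
  l0 : 0 ≤ lam
  l1 : lam ≤ 1
  x1 : |x| ≤ 17 / 100
  or : lam = 1 ∨ |x| = 17 / 100
  eq : ξ = (1 - lam) * x0 + lam * x

/-- The conditions for a half edge; `x0 = 1 / a`, `a` the weight of the vertex, `y` the variable of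
the vertex and `t` the variable of the edge at the saddle point. -/
structure Half (x0 : ℝ) (y t : ℂ) : Prop where
  x0a : |x0| ≤ 1 / 10
  yre : |y.re| ≤ 11 / 100
  yneg : y.im < 0
  yim : -(55 / 1000) ≤ y.im
  tre1 : 23 / 100 ≤ t.re
  tre2 : t.re ≤ 26 / 100
  tim : |t.im| ≤ 2 / 100
  near : ∀ r x : ℝ, 17 / 100 ≤ r → r ≤ 31 / 100 → |x| ≤ 17 / 100 →
    (gam (x + y.im * I) (r + t.im * I)).re ≤
      TP y t r x - ((r - t.re) ^ 2 + (x - y.re) ^ 2) / 5
  wall : ∀ r lam x ξ : ℝ, 17 / 100 ≤ r → r ≤ 31 / 100 → Inn x0 lam x ξ → |x| = 17 / 100 →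
    (gam (x + (lam * y.im : ℝ) * I) (r + t.im * I)).re ≤ TP y t r ξ - 1 / 2000
  side : ∀ r θ lam x ξ : ℝ, 17 / 100 ≤ r → r ≤ 31 / 100 → |θ| = 6 / 100 → Inn x0 lam x ξ →
    (gam (x + (lam * y.im : ℝ) * I) (r + θ * I)).re ≤ TP y t r ξ + Real.pi * |θ| - 1 / 2000
  vert : ∀ r θ lam x ξ : ℝ, 17 / 100 ≤ r → r ≤ 31 / 100 → (r ≤ 175 / 1000 ∨ 305 / 1000 ≤ r) →
    |θ| ≤ 6 / 100 → Inn x0 lam x ξ →
    (gam (x + (lam * y.im : ℝ) * I) (r + θ * I)).re ≤ TP y t r ξ + Real.pi * |θ| - 1 / 2000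
  vert0 : ∀ r κ lam x ξ : ℝ, 17 / 100 ≤ r → r ≤ 31 / 100 → (r ≤ 175 / 1000 ∨ 305 / 1000 ≤ r) →
    0 ≤ κ → κ ≤ 1 → Inn x0 lam x ξ →
    (gam (x + (lam * y.im : ℝ) * I) (r + (κ * t.im : ℝ) * I)).re ≤ TP y t r ξ - 1 / 2000
  real : ∀ r lam x ξ : ℝ, 0 ≤ r → r ≤ 1 → Inn x0 lam x ξ →
    win (lam * |y.im|) x r - 2 * ll r ≤ TP y t r ξ + 1 / 200
  realfar : ∀ r lam x ξ : ℝ, 0 ≤ r → r ≤ 1 → (r ≤ 175 / 1000 ∨ 305 / 1000 ≤ r) → Inn x0 lam x ξ →
    win (lam * |y.im|) x r - 2 * ll r ≤ TP y t r ξ - 1 / 2000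
  far : ∀ r x : ℝ, 0 ≤ r → r ≤ 1 → 17 / 100 ≤ |x| → |x| ≤ 1 / 2 →
    win 0 x r - 2 * ll r ≤ TP y t r x0 - 1 / 100

/-! ### asymptotic properties of the kernel of an edge -/

/-- The properties of the kernel of an edge used for the integral over the variable `z` of the
child; `x0`, `x1` are the inverse weights of parent and child. -/
structure KerP (x0 x1 : ℝ) (y z t : ℂ) : Prop where
  near : ∃ (C : ℝ) (N0 : ℕ), 0 < C ∧ ∀ N : ℕ, N0 ≤ N → ∀ x x' : ℝ, |x| ≤ 17 / 100 →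
    |x'| ≤ 17 / 100 →
    ‖KN N (x + y.im * I) (x' + z.im * I)‖ * Real.sqrt N ^ 3 ≤ C * Real.exp (N *
      (SP y t x + SP z t x' - ((x - y.re) ^ 2 + (x' - z.re) ^ 2) / 400))
  out : ∃ (C : ℝ) (K N0 : ℕ), 0 < C ∧ ∀ N : ℕ, N0 ≤ N → ∀ (w w' : ℂ) (ξ ξ' : ℝ),
    (Nr y w ξ ∨ Wa x0 y N w ξ ∨ Fa x0 N w ξ) → (Nr z w' ξ' ∨ Wa x1 z N w' ξ' ∨ Fa x1 N w' ξ') →
    (Wa x0 y N w ξ ∨ Fa x0 N w ξ ∨ Wa x1 z N w' ξ' ∨ Fa x1 N w' ξ') →
    ‖KN N w w'‖ ≤ C * N ^ K * Real.exp (N * (SP y t ξ + SP z t ξ' - 1 / 2000))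
  lim : ∃ k α β γ : ℂ, k ≠ 0 ∧ ∀ u v : ℝ, Filter.Tendsto (fun N : ℕ => (Real.sqrt N : ℂ) ^ 3 *
      Complex.exp (-(N * (gam y t + gam z t + gamy y t * (u / Real.sqrt N : ℝ) +
        gamy z t * (v / Real.sqrt N : ℝ)))) *
      KN N (y + (u / Real.sqrt N : ℝ)) (z + (v / Real.sqrt N : ℝ)))
    Filter.atTop (nhds (k * Complex.exp (α * u ^ 2 + β * u * v + γ * v ^ 2)))

/-! ### the class of functions -/

/-- The functions `G N` of the product of `d` subtrees at a vertex of weight `a` with saddle point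
`y`; `E` is the critical value, `D` the slope, `k * exp (q u ^ 2)` the limit after rescaling. -/
structure Nice (a : ℤ) (y : ℂ) (d : ℕ) (G : ℕ → ℂ → ℂ) (E D : ℂ) (e : ℕ) (k q : ℂ) : Prop where
  diff : ∀ N, Differentiable ℂ (G N)
  near : ∃ (C : ℝ) (N0 : ℕ), 0 < C ∧ ∀ N : ℕ, N0 ≤ N → ∀ x : ℝ, |x| ≤ 17 / 100 →
    ‖G N (x + y.im * I)‖ * N ^ e ≤
      C * Real.exp (N * (E.re + D.re * (x - y.re) - d * (x - y.re) ^ 2 / 400))
  out : ∃ (C : ℝ) (K N0 : ℕ), 0 < C ∧ ∀ N : ℕ, N0 ≤ N → ∀ (w : ℂ) (ξ : ℝ),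
    (Wa (1 / a) y N w ξ ∨ Fa (1 / a) N w ξ) →
    ‖G N w‖ ≤ C * N ^ K * Real.exp (N * (E.re + D.re * (ξ - y.re) - d / 2000))
  lim : ∀ u : ℝ, Filter.Tendsto (fun N : ℕ => (N : ℂ) ^ e *
      Complex.exp (-(N * (E + D * (u / Real.sqrt N : ℝ)))) * G N (y + (u / Real.sqrt N : ℝ)))
    Filter.atTop (nhds (k * Complex.exp (q * u ^ 2)))
  k_ne : k ≠ 0

/-! ### the critical point -/

/-- Critical point data of a tree in the frame `s = ± 1`: `y` is the variable of the root, `D` the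
sum of the slopes at the root and `E` the critical value without the term of the root. The vertices
have the weights `a'`, the product of the weight in the tree and `(-1) ^ depth`. -/
inductive CT : ℤ → PTree → ℂ → ℂ → ℂ → Prop
  | leaf (s a : ℤ) (y : ℂ) : CT s (.leaf a) y 0 0
  | graft {s : ℤ} {p c : PTree} {y D E z D' E' t : ℂ} (hp : CT s p y D E)
      (hc : CT (-s) c z D' E') (h1 : Half (1 / (s * p.wt : ℤ)) y t)
      (h2 : Half (1 / (-s * c.wt : ℤ)) z t)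
      (site : 2 * Real.pi * I * ((-s * c.wt : ℤ) * z - 1) + D' + gamy z t = 0)
      (kern : gamt y t + gamt z t = 0) :
      CT s (.graft p c) y (D + gamy y t) (E + E' + vx (-s * c.wt) z + gam y t + gam z t)

/-- The shapes of the tetrahedra have positive imaginary part, and the real parts of `t + y`,
`t - y` are between `0` and `1 / 2`. -/
structure ShpX (y t : ℂ) : Prop where
  a1 : 0 < (t + y).re
  a2 : (t + y).re < 1 / 2
  b1 : 0 < (t - y).re
  b2 : (t - y).re < 1 / 2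
  p1 : 0 < (-Complex.exp (-(2 * Real.pi * I * (t + y)))).im
  p2 : 0 < (-Complex.exp (-(2 * Real.pi * I * (t - y)))).im
  p3 : 0 < (Complex.exp (2 * Real.pi * I * t)).im

/-- The gluing equations of the octahedra of the tree below the root, in the frame `s = ± 1`, with
the sum `V` of the volumes of the octahedra; `y` is the variable of the root, `D` the sum of its
slopes. -/
inductive GeoX : ℤ → PTree → ℂ → ℂ → ℝ → Prop
  | leaf (s a : ℤ) (y : ℂ) : GeoX s (.leaf a) y 0 0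
  | graft {s : ℤ} {p c : PTree} {y D z D' t : ℂ} {V W : ℝ} (hp : GeoX s p y D V)
      (hc : GeoX (-s) c z D' W) (h1 : ShpX y t) (h2 : ShpX z t)
      (site : 2 * Real.pi * I * ((-s * c.wt : ℤ) * z - 1) + D' + gamy z t = 0)
      (kern : gamt y t + gamt z t = 0) :
      GeoX s (.graft p c) y (D + gamy y t) (V + W + GG y t + GG z t)

/-! ### the region of the saddle points -/

/-- the region of the variables of the vertices -/
structure Reg (y : ℂ) : Prop where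
  r1 : ‖y‖ ≤ 1004 / 10000
  r2 : y.im < 0
  r3 : 10 * ‖y‖ ^ 2 ≤ |y.re| + 9 / 100 * |y.im|

/-- Facts about a half edge `y`, `t` (variable of the vertex, variable of the edge) from which all
conditions `Half` follow. -/
structure RF (y t : ℂ) : Prop where
  yre : |y.re| ≤ 1004 / 10000
  yneg : y.im < 0
  yim : -(55 / 1000) ≤ y.im
  tre1 : 2335 / 10000 ≤ t.re
  tre2 : t.re ≤ 2545 / 10000
  tim : |t.im| ≤ 135 / 10000
  gt : |(gamt y t).re| ≤ 1 / 8
  gti : |(gamt y t.re).im| ≤ 1 / 5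
  gtd : |(gamt y t).re - (gamt y t.re).re| ≤ 9 / 200
  gyd : |(gamy y t).re - (gamy y t.re).re| ≤ 52 / 1000
  big : 1 / 2 ≤ (gam y t).re
  gy : ∀ ξ : ℝ, |ξ| ≤ 17 / 100 → -(55 / 1000) ≤ (gamy y t).re * (ξ - y.re)

/-- minus the second derivative of `gam` at `(y, t)` in the direction `(a, b)` -/
noncomputable def QQ (y t : ℂ) (a b : ℂ) : ℂ :=
  Real.pi * (Complex.tan (Real.pi * (t + y)) * (b + a) ^ 2 +
    Complex.tan (Real.pi * (t - y)) * (b - a) ^ 2 + 2 * Complex.cot (Real.pi * t) * b ^ 2)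

/-- `arsinh w / w` -/
noncomputable def Ash (w : ℂ) : ℂ :=
  ∫ s in (0 : ℝ)..1, Complex.exp (-(Complex.log (1 + (s : ℂ) ^ 2 * w ^ 2) / 2))

/-- The function with `gamy y t = -2 π y kapf y z` if `gamt y t + gamt z t = 0`. -/
noncomputable def kapf (y z : ℂ) : ℂ :=
  Ash (Complex.tan (Real.pi * y) * Complex.cos (Real.pi * z)) *
    (Pool.Agent.Helper9.TB.sl y / (Real.pi * Complex.cos (Real.pi * y))) *
    Complex.cos (Real.pi * z)

end Pool.Agent.XV
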