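import Mathlib

/-!
# XV LAP: auxiliary lemmas for the limits (dominated convergence on growing intervals, Gaussian
integrals)
-/

set_option autoImplicit false

namespace Pool.Agent.XV

open MeasureTheory Filter Topology

/-- dominated convergence on growing intervals -/
theorem lap_dct {Φ : ℕ → ℝ → ℂ} {φ : ℝ → ℂ} {A B : ℕ → ℝ} {C c : ℝ} (hc : 0 < c)
    (hA : Tendsto A atTop atBot) (hB : Tendsto B atTop atTop)
    (hm : ∀ᶠ N in atTop, ContinuousOn (Φ N) (Set.Icc (A N) (B N)))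
    (hb : ∀ᶠ N in atTop, ∀ s ∈ Set.Icc (A N) (B N), ‖Φ N s‖ ≤ C * Real.exp (-c * s ^ 2))
    (hl : ∀ s, Tendsto (fun N => Φ N s) atTop (𝓝 (φ s))) :
    Tendsto (fun N => ∫ s in (A N)..(B N), Φ N s) atTop (𝓝 (∫ s, φ s)) ∧
    ∀ s, ‖φ s‖ ≤ C * Real.exp (-c * s ^ 2) := by
  have hin : ∀ s : ℝ, ∀ᶠ N in atTop, A N < s ∧ s < B N := fun s =>
    (hA.eventually_lt_atBot s).and (hB.eventually_gt_atTop s)
  have hbd : ∀ s, ‖φ s‖ ≤ C * Real.exp (-c * s ^ 2) := by
    intro s
    refine le_of_tendsto (hl s).norm ?_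
    filter_upwards [hb, hin s] with N h1 h2
    exact h1 s ⟨h2.1.le, h2.2.le⟩
  refine ⟨?_, hbd⟩
  have key : Tendsto (fun N => ∫ s, (Set.Ioc (A N) (B N)).indicator (Φ N) s) atTop
      (𝓝 (∫ s, φ s)) := by
    refine tendsto_integral_filter_of_dominated_convergence
      (fun s => |C| * Real.exp (-c * s ^ 2)) ?_ ?_ ?_ ?_
    · filter_upwards [hm] with N h
      rw [aestronglyMeasurable_indicator_iff measurableSet_Ioc]
      exact (h.mono Set.Ioc_subset_Icc_self).aestronglyMeasurable measurableSet_Ioc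
    · filter_upwards [hb] with N h
      refine Eventually.of_forall fun s => ?_
      by_cases hs : s ∈ Set.Ioc (A N) (B N)
      · rw [Set.indicator_of_mem hs]
        refine (h s (Set.Ioc_subset_Icc_self hs)).trans ?_
        exact mul_le_mul_of_nonneg_right (le_abs_self C) (Real.exp_pos _).le
      · rw [Set.indicator_of_notMem hs, norm_zero]
        positivity
    · exact (integrable_exp_neg_mul_sq hc).const_mul _
    · refine Eventually.of_forall fun s => ?_
      refine (hl s).congr' ?_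
      filter_upwards [hin s] with N h
      rw [Set.indicator_of_mem (show s ∈ Set.Ioc (A N) (B N) from ⟨h.1, h.2.le⟩)]
  refine key.congr' ?_
  filter_upwards [hin 0] with N h
  rw [intervalIntegral.integral_of_le (h.1.trans h.2).le, integral_indicator measurableSet_Ioc]

/-- The exponent of a function bounded by a Gaussian has negative leading coefficient. -/
theorem gauss_re {K b c d : ℂ} {C c0 : ℝ} (hK : K ≠ 0) (hc0 : 0 < c0)
    (h : ∀ s : ℝ, ‖K * Complex.exp (b * s ^ 2 + c * s + d)‖ ≤ C * Real.exp (-c0 * s ^ 2)) :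
    b.re < 0 := by
  by_contra hb
  push Not at hb
  have hn : ∀ s : ℝ, ‖K * Complex.exp (b * s ^ 2 + c * s + d)‖ =
      ‖K‖ * Real.exp (b.re * s ^ 2 + c.re * s + d.re) := by
    intro s
    rw [norm_mul, Complex.norm_exp]
    congr 2
    have e1 : (b * (s : ℂ) ^ 2).re = b.re * s ^ 2 := by
      rw [← Complex.ofReal_pow, Complex.re_mul_ofReal]
    rw [Complex.add_re, Complex.add_re, e1, Complex.re_mul_ofReal]
  have hKp : 0 < ‖K‖ := norm_pos_iff.2 hK
  have h2 : ∀ s : ℝ, ‖K‖ ^ 2 * Real.exp (2 * d.re) ≤ C ^ 2 * Real.exp (-(2 * c0) * s ^ 2) := by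
    intro s
    have h3 := h s
    have h4 := h (-s)
    rw [hn] at h3 h4
    have e1 : 0 ≤ ‖K‖ * Real.exp (b.re * s ^ 2 + c.re * s + d.re) := by positivity
    have e2 : 0 ≤ ‖K‖ * Real.exp (b.re * (-s) ^ 2 + c.re * -s + d.re) := by positivity
    have h5 := mul_le_mul h3 h4 e2 (e1.trans h3)
    have h6 : ‖K‖ * Real.exp (b.re * s ^ 2 + c.re * s + d.re) *
        (‖K‖ * Real.exp (b.re * (-s) ^ 2 + c.re * -s + d.re)) =
        ‖K‖ ^ 2 * Real.exp (2 * b.re * s ^ 2 + 2 * d.re) := by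
      have : Real.exp (2 * b.re * s ^ 2 + 2 * d.re) =
          Real.exp (b.re * s ^ 2 + c.re * s + d.re) *
          Real.exp (b.re * (-s) ^ 2 + c.re * -s + d.re) := by
        rw [← Real.exp_add]; congr 1; ring
      rw [this]; ring
    have h7 : C * Real.exp (-c0 * s ^ 2) * (C * Real.exp (-c0 * (-s) ^ 2)) =
        C ^ 2 * Real.exp (-(2 * c0) * s ^ 2) := by
      have : Real.exp (-(2 * c0) * s ^ 2) =
          Real.exp (-c0 * s ^ 2) * Real.exp (-c0 * (-s) ^ 2) := by
        rw [← Real.exp_add]; congr 1; ring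
      rw [this]; ring
    rw [h6, h7] at h5
    refine le_trans ?_ h5
    have h8 : Real.exp (2 * d.re) ≤ Real.exp (2 * b.re * s ^ 2 + 2 * d.re) := by
      apply Real.exp_le_exp.2
      nlinarith [mul_nonneg hb (sq_nonneg s)]
    exact mul_le_mul_of_nonneg_left h8 (by positivity)
  have hlim : Tendsto (fun s : ℝ => C ^ 2 * Real.exp (-(2 * c0) * s ^ 2)) atTop (𝓝 (C ^ 2 * 0)) := by
    refine Tendsto.const_mul _ (Real.tendsto_exp_atBot.comp ?_)
    refine Tendsto.const_mul_atTop_of_neg (by linarith) ?_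
    exact tendsto_pow_atTop (by norm_num)
  have h9 := ge_of_tendsto hlim (Eventually.of_forall h2)
  have h10 : 0 < ‖K‖ ^ 2 * Real.exp (2 * d.re) := by positivity
  rw [mul_zero] at h9
  linarith

theorem sqrt_mul_atTop {c : ℝ} (hc : 0 < c) :
    Tendsto (fun N : ℕ => Real.sqrt N * c) atTop atTop :=
  (Real.tendsto_sqrt_atTop.comp tendsto_natCast_atTop_atTop).atTop_mul_const hc

theorem sqrt_mul_atBot {c : ℝ} (hc : c < 0) :
    Tendsto (fun N : ℕ => Real.sqrt N * c) atTop atBot :=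
  (Real.tendsto_sqrt_atTop.comp tendsto_natCast_atTop_atTop).atTop_mul_const_of_neg hc

/-- `u / sqrt N → 0` -/
theorem div_sqrt_lim (u : ℝ) : Tendsto (fun N : ℕ => u / Real.sqrt N) atTop (𝓝 0) :=
  (Real.tendsto_sqrt_atTop.comp tendsto_natCast_atTop_atTop).const_div_atTop u

/-- `N ^ K * exp (- c N) → 0` -/
theorem pow_exp_lim (K : ℕ) {c : ℝ} (hc : 0 < c) :
    Tendsto (fun N : ℕ => (N : ℝ) ^ K * Real.exp (-(c * N))) atTop (𝓝 0) := by
  have h := Real.tendsto_pow_mul_exp_neg_atTop_nhds_zero K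
  have h1 : Tendsto (fun N : ℕ => ((c * N : ℝ)) ^ K * Real.exp (-(c * N))) atTop (𝓝 0) :=
    h.comp (Tendsto.const_mul_atTop hc tendsto_natCast_atTop_atTop)
  have h2 := h1.const_mul (c ^ K)⁻¹
  rw [mul_zero] at h2
  refine h2.congr fun N => ?_
  rw [mul_pow]
  field_simp

end Pool.Agent.XV
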