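import Pool.Agent.XV.Snear
import Pool.Agent.XV.Lap

/-!
# XV SLIM: the limit of the step after rescaling

Let `yN = y + u / sqrt N = x + y.im I`, `x = y.re + u / sqrt N` (`|x| ≤ 17 / 100` for large `N`),
`f w = om2 N a w * KN N yN w * G N w`, `ST N a (G N) yN = PI f 1`.

1. `pi_rest`, `om2_out`, `KerP.out`, `Nice.out`, `tot`: the difference to the near integral,
   multiplied by the normalising factor, is at most `C N ^ (K + e + 2) exp (-N / 2000) → 0`.
2. Substitute `x' = z.re + v / sqrt N`: the near integral is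
   `(1 / sqrt N) ∫_{AN}^{BN} f (z + v / sqrt N) dv`, `AN = sqrt N (-17 / 100 - z.re) → -∞`,
   `BN = sqrt N (17 / 100 - z.re) → ∞`.  The normalised integrand is the product of
   * `exp (-(N vx a zN)) om2 N a zN → dLy z` (`om2_lim`),
   * `sqrt N ^ 3 exp (-(N (gam y t + gam z t + gamy y t u / sqrt N + gamy z t v / sqrt N))) KN N yN zN`
     `→ kK exp (α u ^ 2 + β u v + γ v ^ 2)` (`KerP.lim`),
   * `N ^ e exp (-(N (E + D v / sqrt N))) G N zN → k exp (q v ^ 2)` (`Nice.lim`),
   * `exp (N (vx a zN - vx a z) + sqrt N v (gamy z t + D)) = exp (π i a v ^ 2)`, because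
     `vx a (z + δ) = vx a z + 2 π i (a z - 1) δ + π i a δ ^ 2` and `site`.
   (`N ^ (e + 2) = sqrt N * sqrt N ^ 3 * N ^ e`.)
3. Domination on `[AN, BN]`: `om2_in`, `KerP.near`, `Nice.near` (drop `d`) and `tot`: the normalised
   integrand is at most `C exp (-(u ^ 2 + v ^ 2) / 400)`.
4. Dominated convergence: the limit is
   `dLy z kK k ∫ exp ((γ + q + π i a) v ^ 2 + β u v + α u ^ 2) dv`.  By 3. for `u = 0` the limit
   function is at most `C exp (-v ^ 2 / 400)` for all `v`, so `(γ + q + π i a).re ≤ -1 / 400 < 0`,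
   and `integral_cexp_quadratic` gives `q' = α - β ^ 2 / (4 b)`, `k' = dLy z kK k (π / -b) ^ (1 / 2)`
   with `b = γ + q + π i a`.  `dLy z = 4 π sin (2 π z) ≠ 0` because `z.im < 0`.
-/

set_option autoImplicit false

namespace Pool.Agent.XV

open Complex Finset Filter Topology
open Pool.Agent.Helper9.TB Pool.Agent.Helper9.TF Pool.Agent.Helper9.TW

private lemma pt_eq (y : ℂ) (x : ℝ) : y + (x : ℂ) = ((y.re + x : ℝ) : ℂ) + y.im * I := by
  apply Complex.ext <;> simp

private lemma ev_near {y : ℂ} (hyr : |y.re| ≤ 11 / 100) (u : ℝ) :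
    ∀ᶠ N : ℕ in atTop, |y.re + u / Real.sqrt N| ≤ 17 / 100 := by
  have h := (div_sqrt_lim u).abs
  rw [abs_zero] at h
  filter_upwards [h.eventually (ge_mem_nhds (show (0 : ℝ) < 6 / 100 by norm_num))] with N hN
  calc |y.re + u / Real.sqrt N| ≤ |y.re| + |u / Real.sqrt N| := abs_add_le _ _
    _ ≤ 11 / 100 + 6 / 100 := add_le_add hyr hN
    _ = 17 / 100 := by norm_num

private lemma ev_inv {b : ℝ} (hb : 0 < b) : ∀ᶠ N : ℕ in atTop, 1 / (N : ℝ) ≤ b := by
  have h : Tendsto (fun N : ℕ => 1 / (N : ℝ)) atTop (𝓝 0) := tendsto_one_div_atTop_nhds_zero_nat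
  exact h.eventually (ge_mem_nhds hb)

/-- the rest of the path -/
private lemma outer {a : ℤ} (ha : a ≠ 0) {x0 : ℝ} {y z t E D k q : ℂ} {d e : ℕ} {G : ℕ → ℂ → ℂ}
    (hyr : |y.re| ≤ 11 / 100) (hz : z.im < 0) (hz' : -(55 / 1000) ≤ z.im)
    (K : KerP x0 (1 / a) y z t) (HG : Nice a z d G E D e k q)
    (site : 2 * Real.pi * I * (a * z - 1) + D + gamy z t = 0) (u : ℝ) :
    ∃ (C : ℝ) (M : ℕ), 0 < C ∧ ∀ᶠ N : ℕ in atTop,
      ‖ST N a (G N) (y + (u / Real.sqrt N : ℝ)) - ∫ x in (-(17 / 100) : ℝ)..(17 / 100),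
        (om2 N a (x + z.im * I) * KN N (y + (u / Real.sqrt N : ℝ)) (x + z.im * I) *
          G N (x + z.im * I))‖ ≤
      C * N ^ M * Real.exp (N * ((E + vx a z + gam y t + gam z t).re +
        (gamy y t).re * (u / Real.sqrt N) - 1 / 2000)) := by
  obtain ⟨C1, hC1, h1⟩ := om2_out ha hz hz'
  obtain ⟨C2, K2, N2, hC2, h2⟩ := K.out
  obtain ⟨C3, K3, N3, hC3, h3⟩ := HG.out
  refine ⟨2 * (C1 * C2 * C3), K2 + K3, by positivity, ?_⟩
  filter_upwards [ev_near hyr u, ev_inv (show 0 < -z.im by linarith), eventually_ge_atTop 10,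
    eventually_ge_atTop N2, eventually_ge_atTop N3] with N e1 e2 e3 e4 e5
  have hN : 0 < N := by omega
  have hNp : (0 : ℝ) < N := by exact_mod_cast hN
  have := pi_rest (f := fun w => om2 N a w * KN N (y + (u / Real.sqrt N : ℝ)) w * G N w) (y := z)
    (x0 := 1 / a) (B := C1 * C2 * C3 * N ^ (K2 + K3) *
      Real.exp (N * ((E + vx a z + gam y t + gam z t).re +
        (gamy y t).re * (u / Real.sqrt N) - 1 / 2000))) hN hz' e2 ?_ ?_ ?_
  · have h6 : ST N a (G N) (y + (u / Real.sqrt N : ℝ)) =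
        PI (fun w => om2 N a w * KN N (y + (u / Real.sqrt N : ℝ)) w * G N w) 1 := rfl
    rw [h6]
    refine this.trans (le_of_eq ?_)
    ring
  · intro w hw1 hw2
    exact ((om2_diff (by omega) a hw1 hw2).mul (kn_diff N _ w)).mul (HG.diff N w)
  · exact ((om2_cont (by omega) a one_pos).mul (kn_diff N _).continuous.continuousOn).mul
      (HG.diff N).continuous.continuousOn
  · intro w ξ hw
    have a1 := h1 N e3 w ξ hw
    have a2 := h2 N e4 (y + (u / Real.sqrt N : ℝ)) w (y.re + u / Real.sqrt N) ξ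
      (Or.inl ⟨e1, pt_eq y _⟩) (Or.inr hw) (by tauto)
    have a3 := h3 N e5 w ξ hw
    have a4 := tot (E := E) site ξ
    rw [norm_mul, norm_mul]
    have a5 : ‖om2 N a w‖ * ‖KN N (y + (u / Real.sqrt N : ℝ)) w‖ * ‖G N w‖ ≤
        (C1 * Real.exp (N * -(2 * Real.pi * z.im * (a * ξ - 1)))) *
        (C2 * N ^ K2 * Real.exp (N * (SP y t (y.re + u / Real.sqrt N) + SP z t ξ - 1 / 2000))) *
        (C3 * N ^ K3 * Real.exp (N * (E.re + D.re * (ξ - z.re) - d / 2000))) := by
      have p1 : 0 ≤ ‖om2 N a w‖ := norm_nonneg _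
      have p2 : 0 ≤ ‖KN N (y + (u / Real.sqrt N : ℝ)) w‖ := norm_nonneg _
      have p3 : 0 ≤ ‖G N w‖ := norm_nonneg _
      gcongr
    refine a5.trans ?_
    have a6 : (C1 * Real.exp (N * -(2 * Real.pi * z.im * (a * ξ - 1)))) *
        (C2 * N ^ K2 * Real.exp (N * (SP y t (y.re + u / Real.sqrt N) + SP z t ξ - 1 / 2000))) *
        (C3 * N ^ K3 * Real.exp (N * (E.re + D.re * (ξ - z.re) - d / 2000))) =
        C1 * C2 * C3 * N ^ (K2 + K3) *
        Real.exp (N * -(2 * Real.pi * z.im * (a * ξ - 1)) +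
          N * (SP y t (y.re + u / Real.sqrt N) + SP z t ξ - 1 / 2000) +
          N * (E.re + D.re * (ξ - z.re) - d / 2000)) := by
      rw [Real.exp_add, Real.exp_add]; ring
    rw [a6]
    refine mul_le_mul_of_nonneg_left (Real.exp_le_exp.2 ?_) (by positivity)
    have a7 : SP y t (y.re + u / Real.sqrt N) =
        (gam y t).re + (gamy y t).re * (u / Real.sqrt N) := by
      unfold SP; ring
    have a8 : (E + vx a z + gam y t + gam z t).re =
        E.re + (vx a z).re + (gam y t).re + (gam z t).re := by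
      simp
    rw [a7, a8]
    have a9 : (N : ℝ) * (E.re + D.re * (ξ - z.re) + SP z t ξ +
        -(2 * Real.pi * z.im * (a * ξ - 1))) = N * (E.re + (gam z t).re + (vx a z).re) := by
      rw [a4]
    have a10 : (0 : ℝ) ≤ N * (d / 2000) := by positivity
    nlinarith

/-- the normalised integrand -/
private noncomputable def Ph (a : ℤ) (y z t E D : ℂ) (e : ℕ) (G : ℕ → ℂ → ℂ) (u : ℝ) (N : ℕ)
    (v : ℝ) : ℂ :=
  (N : ℂ) ^ (e + 2) *
    Complex.exp (-(N * (E + vx a z + gam y t + gam z t + gamy y t * (u / Real.sqrt N : ℝ)))) *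
    (Real.sqrt N : ℂ)⁻¹ *
    (om2 N a (z + (v / Real.sqrt N : ℝ)) * KN N (y + (u / Real.sqrt N : ℝ))
      (z + (v / Real.sqrt N : ℝ)) * G N (z + (v / Real.sqrt N : ℝ)))

private lemma ph_eq {a : ℤ} {y z t E D : ℂ} {e : ℕ} {G : ℕ → ℂ → ℂ}
    (site : 2 * Real.pi * I * (a * z - 1) + D + gamy z t = 0) (u v : ℝ) {N : ℕ} (hN : 0 < N) :
    Ph a y z t E D e G u N v =
      (Complex.exp (-(N * vx a (z + (v / Real.sqrt N : ℝ)))) * om2 N a (z + (v / Real.sqrt N : ℝ))) *
      ((Real.sqrt N : ℂ) ^ 3 * Complex.exp (-(N * (gam y t + gam z t +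
        gamy y t * (u / Real.sqrt N : ℝ) + gamy z t * (v / Real.sqrt N : ℝ)))) *
        KN N (y + (u / Real.sqrt N : ℝ)) (z + (v / Real.sqrt N : ℝ))) *
      ((N : ℂ) ^ e * Complex.exp (-(N * (E + D * (v / Real.sqrt N : ℝ)))) *
        G N (z + (v / Real.sqrt N : ℝ))) *
      Complex.exp (Real.pi * I * a * v ^ 2) := by
  have hNp : (0 : ℝ) < N := by exact_mod_cast hN
  have hs : (Real.sqrt N : ℂ) ≠ 0 := by
    exact_mod_cast (Real.sqrt_pos.2 hNp).ne'
  have hs2 : (Real.sqrt N : ℂ) ^ 2 = N := by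
    rw [← Complex.ofReal_pow, Real.sq_sqrt hNp.le]
    simp
  unfold Ph
  have e1 : Complex.exp (-(N * (E + vx a z + gam y t + gam z t +
      gamy y t * (u / Real.sqrt N : ℝ)))) =
      Complex.exp (-(N * vx a (z + (v / Real.sqrt N : ℝ)))) *
      Complex.exp (-(N * (gam y t + gam z t +
        gamy y t * (u / Real.sqrt N : ℝ) + gamy z t * (v / Real.sqrt N : ℝ)))) *
      Complex.exp (-(N * (E + D * (v / Real.sqrt N : ℝ)))) *
      Complex.exp (Real.pi * I * a * v ^ 2) := by
    rw [← Complex.exp_add, ← Complex.exp_add, ← Complex.exp_add]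
    congr 1
    have h1 : (N : ℂ) * ((v / Real.sqrt N : ℝ) : ℂ) ^ 2 = v ^ 2 := by
      have hN0 : (N : ℂ) ≠ 0 := by exact_mod_cast hN.ne'
      push_cast
      rw [div_pow, hs2]
      exact mul_div_cancel₀ _ hN0
    unfold vx
    linear_combination ((N : ℂ) * ((v / Real.sqrt N : ℝ) : ℂ)) * site +
      (Real.pi * I * a) * h1
  have e2 : (N : ℂ) ^ (e + 2) * (Real.sqrt N : ℂ)⁻¹ = (Real.sqrt N : ℂ) ^ 3 * (N : ℂ) ^ e := by
    rw [pow_add, ← hs2]
    field_simp
  rw [e1]
  linear_combination (Complex.exp (-(N * vx a (z + (v / Real.sqrt N : ℝ)))) *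
      Complex.exp (-(N * (gam y t + gam z t +
        gamy y t * (u / Real.sqrt N : ℝ) + gamy z t * (v / Real.sqrt N : ℝ)))) *
      Complex.exp (-(N * (E + D * (v / Real.sqrt N : ℝ)))) *
      Complex.exp (Real.pi * I * a * v ^ 2) *
      (om2 N a (z + (v / Real.sqrt N : ℝ)) * KN N (y + (u / Real.sqrt N : ℝ))
      (z + (v / Real.sqrt N : ℝ)) * G N (z + (v / Real.sqrt N : ℝ)))) * e2

private lemma ph_bound {a : ℤ} {x0 : ℝ} {y z t E D k q : ℂ} {d e : ℕ}
    {G : ℕ → ℂ → ℂ} (hyr : |y.re| ≤ 11 / 100) (hz : z.im < 0) (hz' : -(55 / 1000) ≤ z.im)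
    (K : KerP x0 (1 / a) y z t) (HG : Nice a z d G E D e k q)
    (site : 2 * Real.pi * I * (a * z - 1) + D + gamy z t = 0) (u : ℝ) :
    ∃ C : ℝ, 0 < C ∧ ∀ᶠ N : ℕ in atTop, ∀ v : ℝ, |z.re + v / Real.sqrt N| ≤ 17 / 100 →
      ‖Ph a y z t E D e G u N v‖ ≤ C * Real.exp (-(1 / 400) * v ^ 2) := by
  obtain ⟨C1, hC1, h1⟩ := om2_in a
  obtain ⟨C2, N2, hC2, h2⟩ := K.near
  obtain ⟨C3, N3, hC3, h3⟩ := HG.near
  refine ⟨C1 * C2 * C3, by positivity, ?_⟩
  filter_upwards [ev_near hyr u, ev_inv (show 0 < -z.im by linarith), eventually_ge_atTop 1,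
    eventually_ge_atTop N2, eventually_ge_atTop N3] with N e1 e2 e3 e4 e5 v hv
  have hNp : (0 : ℝ) < N := by exact_mod_cast (show 0 < N by omega)
  set δ : ℝ := u / Real.sqrt N with hδ
  set ε : ℝ := v / Real.sqrt N with hε
  have hs : 0 < Real.sqrt N := Real.sqrt_pos.2 hNp
  have hs2 : Real.sqrt N ^ 2 = N := Real.sq_sqrt hNp.le
  have a1 := h1 N e3 (z + (ε : ℂ)) (by simp; linarith) (by simp; simp at e2; linarith)
  have a2 := h2 N e4 (y.re + δ) (z.re + ε) e1 hv
  have a3 := h3 N e5 (z.re + ε) hv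
  rw [← pt_eq, ← pt_eq] at a2
  rw [← pt_eq] at a3
  have a4 := tot (E := E) site (z.re + ε)
  rw [vx_re] at a1
  unfold Ph
  rw [← hδ, ← hε, norm_mul, norm_mul, norm_mul, norm_mul, norm_mul, Complex.norm_exp, norm_inv,
    norm_pow, Complex.norm_natCast, Complex.norm_real, Real.norm_of_nonneg hs.le]
  set o := ‖om2 N a (z + (ε : ℂ))‖ with ho
  set κ := ‖KN N (y + (δ : ℂ)) (z + (ε : ℂ))‖ with hκ
  set g := ‖G N (z + (ε : ℂ))‖ with hg
  have p1 : 0 ≤ o := norm_nonneg _
  have p2 : 0 ≤ κ := norm_nonneg _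
  have p3 : 0 ≤ g := norm_nonneg _
  have a5 : (N : ℝ) ^ (e + 2) * (Real.sqrt N)⁻¹ * (o * κ * g) =
      o * (κ * Real.sqrt N ^ 3) * (g * N ^ e) := by
    have hs4 : (N : ℝ) ^ 2 = Real.sqrt N ^ 3 * Real.sqrt N := by
      rw [← pow_succ, show (3 + 1) = 2 * 2 by norm_num, pow_mul, hs2]
    rw [pow_add, hs4]
    field_simp
  have a6 : o * (κ * Real.sqrt N ^ 3) * (g * N ^ e) ≤
      (C1 * Real.exp (N * -(2 * Real.pi * (z + (ε : ℂ)).im * (a * (z + (ε : ℂ)).re - 1)))) *
      (C2 * Real.exp (N * (SP y t (y.re + δ) + SP z t (z.re + ε) -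
        ((y.re + δ - y.re) ^ 2 + (z.re + ε - z.re) ^ 2) / 400))) *
      (C3 * Real.exp (N * (E.re + D.re * (z.re + ε - z.re) -
        d * (z.re + ε - z.re) ^ 2 / 400))) := by
    gcongr
  have a7 : ((-(N * (E + vx a z + gam y t + gam z t + gamy y t * (δ : ℂ)))) : ℂ).re =
      -(N * (E.re + (vx a z).re + (gam y t).re + (gam z t).re + (gamy y t).re * δ)) := by
    rw [Complex.neg_re, ← Complex.ofReal_natCast, Complex.re_ofReal_mul]
    simp
  rw [a7]
  calc (N : ℝ) ^ (e + 2) * Real.exp (-(N * (E.re + (vx a z).re + (gam y t).re + (gam z t).re +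
        (gamy y t).re * δ))) * (Real.sqrt N)⁻¹ * (o * κ * g)
      = Real.exp (-(N * (E.re + (vx a z).re + (gam y t).re + (gam z t).re +
        (gamy y t).re * δ))) * ((N : ℝ) ^ (e + 2) * (Real.sqrt N)⁻¹ * (o * κ * g)) := by ring
    _ ≤ Real.exp (-(N * (E.re + (vx a z).re + (gam y t).re + (gam z t).re +
        (gamy y t).re * δ))) * ((C1 * Real.exp (N * -(2 * Real.pi * (z + (ε : ℂ)).im *
          (a * (z + (ε : ℂ)).re - 1)))) *
      (C2 * Real.exp (N * (SP y t (y.re + δ) + SP z t (z.re + ε) -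
        ((y.re + δ - y.re) ^ 2 + (z.re + ε - z.re) ^ 2) / 400))) *
      (C3 * Real.exp (N * (E.re + D.re * (z.re + ε - z.re) -
        d * (z.re + ε - z.re) ^ 2 / 400)))) := by
        rw [a5]
        exact mul_le_mul_of_nonneg_left a6 (Real.exp_pos _).le
    _ = C1 * C2 * C3 * Real.exp (-(N * (E.re + (vx a z).re + (gam y t).re + (gam z t).re +
        (gamy y t).re * δ)) + N * -(2 * Real.pi * (z + (ε : ℂ)).im *
          (a * (z + (ε : ℂ)).re - 1)) + N * (SP y t (y.re + δ) + SP z t (z.re + ε) -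
        ((y.re + δ - y.re) ^ 2 + (z.re + ε - z.re) ^ 2) / 400) +
        N * (E.re + D.re * (z.re + ε - z.re) - d * (z.re + ε - z.re) ^ 2 / 400)) := by
        rw [Real.exp_add, Real.exp_add, Real.exp_add]; ring
    _ ≤ C1 * C2 * C3 * Real.exp (-(1 / 400) * v ^ 2) := by
        refine mul_le_mul_of_nonneg_left (Real.exp_le_exp.2 ?_) (by positivity)
        have b1 : (z + (ε : ℂ)).im = z.im := by simp
        have b2 : (z + (ε : ℂ)).re = z.re + ε := by simp
        have b3 : (N : ℝ) * ε ^ 2 = v ^ 2 := by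
          rw [hε, div_pow, hs2]
          field_simp
        have b4 : SP y t (y.re + δ) = (gam y t).re + (gamy y t).re * δ := by
          unfold SP; ring
        rw [b1, b2, b4]
        have b5 : (N : ℝ) * (E.re + D.re * (z.re + ε - z.re) + SP z t (z.re + ε) +
            -(2 * Real.pi * z.im * (a * (z.re + ε) - 1))) =
            N * (E.re + (gam z t).re + (vx a z).re) := by rw [a4]
        have b6 : (0 : ℝ) ≤ N * δ ^ 2 := by positivity
        have b7 : (0 : ℝ) ≤ d * (N * ε ^ 2) := by positivity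
        nlinarith

theorem st_lim {a : ℤ} (ha : a ≠ 0) {x0 : ℝ} {y z t E D k q : ℂ} {d e : ℕ} {G : ℕ → ℂ → ℂ}
    (hyr : |y.re| ≤ 11 / 100) (hzr : |z.re| ≤ 11 / 100) (hz : z.im < 0)
    (hz' : -(55 / 1000) ≤ z.im)
    (K : KerP x0 (1 / a) y z t) (HG : Nice a z d G E D e k q)
    (site : 2 * Real.pi * I * (a * z - 1) + D + gamy z t = 0) :
    ∃ k' q' : ℂ, k' ≠ 0 ∧ ∀ u : ℝ, Tendsto (fun N : ℕ => (N : ℂ) ^ (e + 2) *
      Complex.exp (-(N * (E + vx a z + gam y t + gam z t + gamy y t * (u / Real.sqrt N : ℝ)))) *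
      ST N a (G N) (y + (u / Real.sqrt N : ℝ)))
    atTop (𝓝 (k' * Complex.exp (q' * u ^ 2))) := by
  obtain ⟨κ, α, β, γ, hκ, hK⟩ := K.lim
  have hd : dLy z ≠ 0 := by
    unfold dLy
    have h1 : Complex.sin (2 * Real.pi * z) ≠ 0 := by
      rw [Ne, Complex.sin_eq_zero_iff]
      rintro ⟨n, hn⟩
      have h2 := congrArg Complex.im hn
      have h3 : (2 * (Real.pi : ℂ) * z).im = 2 * Real.pi * z.im := by
        rw [show (2 * (Real.pi : ℂ) * z) = ((2 * Real.pi : ℝ) : ℂ) * z by push_cast; ring,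
          Complex.im_ofReal_mul]
      have h4 : ((n : ℂ) * (Real.pi : ℂ)).im = 0 := by
        rw [Complex.im_mul_ofReal]; simp
      rw [h3, h4] at h2
      have : 2 * Real.pi * z.im < 0 := by
        have := Real.pi_pos
        nlinarith
      linarith
    have h5 : (Real.pi : ℂ) ≠ 0 := by exact_mod_cast Real.pi_ne_zero
    exact mul_ne_zero (mul_ne_zero (by norm_num) h5) h1
  set b : ℂ := γ + q + Real.pi * I * a with hb
  -- the limit of the integrals
  have key : ∀ u : ℝ, b.re < 0 ∧ Tendsto (fun N : ℕ =>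
      ∫ v in (Real.sqrt N * (-(17 / 100) - z.re))..(Real.sqrt N * (17 / 100 - z.re)),
        Ph a y z t E D e G u N v) atTop
      (𝓝 (∫ v : ℝ, dLy z * κ * k * Complex.exp (b * v ^ 2 + β * u * v + α * u ^ 2))) := by
    intro u
    obtain ⟨C, hC, hbd⟩ := ph_bound hyr hz hz' K HG site u
    have hz1 := abs_le.1 hzr
    have hrange : ∀ {N : ℕ}, 0 < N → ∀ v ∈ Set.Icc (Real.sqrt N * (-(17 / 100) - z.re))
        (Real.sqrt N * (17 / 100 - z.re)), |z.re + v / Real.sqrt N| ≤ 17 / 100 := by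
      intro N hN v hv
      have hs : 0 < Real.sqrt N := Real.sqrt_pos.2 (by exact_mod_cast hN)
      rw [abs_le]
      have h1 : -(17 / 100) - z.re ≤ v / Real.sqrt N := by
        rw [le_div_iff₀ hs]; linarith [hv.1]
      have h2 : v / Real.sqrt N ≤ 17 / 100 - z.re := by
        rw [div_le_iff₀ hs]; linarith [hv.2]
      constructor <;> linarith
    have := lap_dct (Φ := fun N v => Ph a y z t E D e G u N v)
      (φ := fun v => dLy z * κ * k * Complex.exp (b * v ^ 2 + β * u * v + α * u ^ 2))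
      (C := C) (c := 1 / 400) (by norm_num) (sqrt_mul_atBot (c := -(17 / 100) - z.re) (by linarith))
      (sqrt_mul_atTop (c := 17 / 100 - z.re) (by linarith)) ?_ ?_ ?_
    · refine ⟨?_, this.1⟩
      exact gauss_re (c := β * u) (d := α * u ^ 2) (mul_ne_zero (mul_ne_zero hd hκ) HG.k_ne)
        (by norm_num) this.2
    · filter_upwards [eventually_ge_atTop 1] with N hN
      intro v hv
      have hr := hrange (by omega) v hv
      refine ContinuousAt.continuousWithinAt ?_
      unfold Ph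
      refine continuousAt_const.mul ?_
      have hc : ContinuousAt (fun v : ℝ => z + ((v / Real.sqrt N : ℝ) : ℂ)) v := by
        fun_prop
      have hd1 : DifferentiableAt ℂ (fun w => om2 N a w * KN N (y + (u / Real.sqrt N : ℝ)) w *
          G N w) (z + ((v / Real.sqrt N : ℝ) : ℂ)) := by
        refine ((om2_diff hN a ?_ ?_).mul (kn_diff N _ _)).mul (HG.diff N _)
        · simp only [Complex.add_re, Complex.ofReal_re]
          linarith
        · simp only [Complex.add_im, Complex.ofReal_im]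
          linarith
      exact hd1.continuousAt.comp (f := fun v : ℝ => z + ((v / Real.sqrt N : ℝ) : ℂ)) hc
    · filter_upwards [hbd, eventually_ge_atTop 1] with N h hN v hv
      exact h v (hrange (by omega) v hv)
    · intro v
      have t1 := om2_lim a hz v
      have t2 := hK u v
      have t3 := HG.lim v
      have t4 := ((t1.mul t2).mul t3).mul_const (Complex.exp (Real.pi * I * a * v ^ 2))
      have e1 : dLy z * (κ * Complex.exp (α * u ^ 2 + β * u * v + γ * v ^ 2)) *
          (k * Complex.exp (q * v ^ 2)) * Complex.exp (Real.pi * I * a * v ^ 2) =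
          dLy z * κ * k * Complex.exp (b * v ^ 2 + β * u * v + α * u ^ 2) := by
        have : Complex.exp (b * v ^ 2 + β * u * v + α * u ^ 2) =
            Complex.exp (α * u ^ 2 + β * u * v + γ * v ^ 2) * Complex.exp (q * v ^ 2) *
            Complex.exp (Real.pi * I * a * v ^ 2) := by
          rw [← Complex.exp_add, ← Complex.exp_add, hb]
          congr 1
          ring
        rw [this]; ring
      rw [e1] at t4
      refine t4.congr' ?_
      filter_upwards [eventually_ge_atTop 1] with N hN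
      rw [ph_eq site u v (by omega)]
  have hbre : b.re < 0 := (key 0).1
  have hb0 : b ≠ 0 := by
    rintro h
    rw [h] at hbre
    simp at hbre
  refine ⟨dLy z * κ * k * (Real.pi / -b) ^ (1 / 2 : ℂ), α - β ^ 2 / (4 * b), ?_, fun u => ?_⟩
  · refine mul_ne_zero (mul_ne_zero (mul_ne_zero hd hκ) HG.k_ne) ?_
    rw [Ne, Complex.cpow_eq_zero_iff]
    rintro ⟨h, -⟩
    have h5 : (Real.pi : ℂ) ≠ 0 := by exact_mod_cast Real.pi_ne_zero
    exact div_ne_zero h5 (neg_ne_zero.2 hb0) h
  · have hI : ∫ v : ℝ, dLy z * κ * k * Complex.exp (b * v ^ 2 + β * u * v + α * u ^ 2) =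
        dLy z * κ * k * (Real.pi / -b) ^ (1 / 2 : ℂ) *
          Complex.exp ((α - β ^ 2 / (4 * b)) * u ^ 2) := by
      rw [MeasureTheory.integral_const_mul, integral_cexp_quadratic hbre, ← mul_assoc]
      congr 2
      field_simp
    rw [← hI]
    have h1 := (key u).2
    obtain ⟨C, M, hC, ho⟩ := outer ha hyr hz hz' K HG site u
    -- the difference
    have h2 : Tendsto (fun N : ℕ => (N : ℂ) ^ (e + 2) *
      Complex.exp (-(N * (E + vx a z + gam y t + gam z t + gamy y t * (u / Real.sqrt N : ℝ)))) *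
      (ST N a (G N) (y + (u / Real.sqrt N : ℝ)) - ∫ x in (-(17 / 100) : ℝ)..(17 / 100),
        (om2 N a (x + z.im * I) * KN N (y + (u / Real.sqrt N : ℝ)) (x + z.im * I) *
          G N (x + z.im * I)))) atTop (𝓝 0) := by
      have h3 := (pow_exp_lim (M + (e + 2)) (show (0 : ℝ) < 1 / 2000 by norm_num)).const_mul C
      rw [mul_zero] at h3
      refine squeeze_zero_norm' ?_ h3
      filter_upwards [ho] with N hN
      rw [norm_mul, norm_mul, norm_pow, Complex.norm_natCast, Complex.norm_exp]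
      have a7 : ((-(N * (E + vx a z + gam y t + gam z t + gamy y t *
          ((u / Real.sqrt N : ℝ) : ℂ)))) : ℂ).re =
          -(N * ((E + vx a z + gam y t + gam z t).re + (gamy y t).re * (u / Real.sqrt N))) := by
        rw [Complex.neg_re, ← Complex.ofReal_natCast, Complex.re_ofReal_mul, Complex.add_re,
          Complex.re_mul_ofReal]
      rw [a7]
      calc _ ≤ (N : ℝ) ^ (e + 2) * Real.exp (-(N * ((E + vx a z + gam y t + gam z t).re +
            (gamy y t).re * (u / Real.sqrt N)))) *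
            (C * N ^ M * Real.exp (N * ((E + vx a z + gam y t + gam z t).re +
            (gamy y t).re * (u / Real.sqrt N) - 1 / 2000))) :=
            mul_le_mul_of_nonneg_left hN (by positivity)
        _ = C * ((N : ℝ) ^ (M + (e + 2)) * Real.exp (-(1 / 2000 * N))) := by
            have : Real.exp (-(1 / 2000 * (N : ℝ))) =
                Real.exp (-(N * ((E + vx a z + gam y t + gam z t).re +
                  (gamy y t).re * (u / Real.sqrt N)))) *
                Real.exp (N * ((E + vx a z + gam y t + gam z t).re +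
                  (gamy y t).re * (u / Real.sqrt N) - 1 / 2000)) := by
              rw [← Real.exp_add]; congr 1; ring
            rw [this, pow_add]
            ring
    have h4 := h1.add h2
    rw [add_zero] at h4
    refine h4.congr' ?_
    filter_upwards [eventually_ge_atTop 1] with N hN
    have hs : (Real.sqrt N) ≠ 0 := (Real.sqrt_pos.2 (by exact_mod_cast (show 0 < N by omega))).ne'
    have h5 : ∫ v in (Real.sqrt N * (-(17 / 100) - z.re))..(Real.sqrt N * (17 / 100 - z.re)),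
        Ph a y z t E D e G u N v = (N : ℂ) ^ (e + 2) *
      Complex.exp (-(N * (E + vx a z + gam y t + gam z t + gamy y t * (u / Real.sqrt N : ℝ)))) *
      ∫ x in (-(17 / 100) : ℝ)..(17 / 100),
        (om2 N a (x + z.im * I) * KN N (y + (u / Real.sqrt N : ℝ)) (x + z.im * I) *
          G N (x + z.im * I)) := by
      have h6 := intervalIntegral.integral_comp_div_add
        (a := Real.sqrt N * (-(17 / 100) - z.re)) (b := Real.sqrt N * (17 / 100 - z.re))
        (fun x : ℝ => om2 N a (x + z.im * I) * KN N (y + (u / Real.sqrt N : ℝ)) (x + z.im * I) *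
          G N (x + z.im * I)) hs z.re
      have h7 : Real.sqrt N * (-(17 / 100) - z.re) / Real.sqrt N + z.re = -(17 / 100) := by
        field_simp
        ring
      have h8 : Real.sqrt N * (17 / 100 - z.re) / Real.sqrt N + z.re = 17 / 100 := by
        field_simp
        ring
      rw [h7, h8] at h6
      have h9 : ∀ v : ℝ, Ph a y z t E D e G u N v = (N : ℂ) ^ (e + 2) *
          Complex.exp (-(N * (E + vx a z + gam y t + gam z t +
            gamy y t * (u / Real.sqrt N : ℝ)))) * (Real.sqrt N : ℂ)⁻¹ *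
          (om2 N a (((v / Real.sqrt N + z.re : ℝ) : ℂ) + z.im * I) *
            KN N (y + (u / Real.sqrt N : ℝ)) (((v / Real.sqrt N + z.re : ℝ) : ℂ) + z.im * I) *
            G N (((v / Real.sqrt N + z.re : ℝ) : ℂ) + z.im * I)) := by
        intro v
        unfold Ph
        rw [pt_eq z (v / Real.sqrt N), add_comm z.re]
      simp_rw [h9]
      rw [intervalIntegral.integral_const_mul, h6, Complex.real_smul]
      have hs' : (Real.sqrt N : ℂ) ≠ 0 := by exact_mod_cast hs
      field_simp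
    rw [h5]
    ring

end Pool.Agent.XV
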