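import Pool.Agent.XV.Snear

/-!
# XV SOUT: bound of the step at the outer points

`ST N a (G N) w = PI f 1` with `f w' = om2 N a w' * KN N w w' * G N w'`.  As in SNEAR use
`pi_rest`; now `w` is an outer point (`Wa` or `Fa`), so `KerP.out` applies for all points `w'` of
the path of `z` (near ones: `Nr z w' x'` with `w' = x' + z.im I`, `|x'| ≤ 17 / 100`).

Factors: `om2_in` / `om2_out`, `KerP.out`, `Nice.near` / `Nice.out` (drop the terms with `d`), `tot`;
the path has bounded length.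
-/

set_option autoImplicit false

namespace Pool.Agent.XV

open Complex Finset
open Pool.Agent.Helper9.TB Pool.Agent.Helper9.TF Pool.Agent.Helper9.TW

private theorem so_mul3 {N k g : ℕ} {u v w : ℂ} {C1 C2 C3 e1 e2 e3 T : ℝ} (hC1 : 0 ≤ C1)
    (hC2 : 0 ≤ C2) (h1 : ‖u‖ ≤ C1 * Real.exp (N * e1)) (h2 : ‖v‖ ≤ C2 * N ^ k * Real.exp (N * e2))
    (h3 : ‖w‖ ≤ C3 * N ^ g * Real.exp (N * e3)) (hT : e1 + e2 + e3 = T) :
    ‖u * v * w‖ ≤ C1 * C2 * C3 * N ^ (k + g) * Real.exp (N * T) := by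
  rw [norm_mul, norm_mul]
  have h4 := mul_le_mul (mul_le_mul h1 h2 (norm_nonneg _) (by positivity)) h3 (norm_nonneg _)
    (by positivity)
  refine h4.trans (le_of_eq ?_)
  have h5 : Real.exp (N * T) = Real.exp (N * e1) * Real.exp (N * e2) * Real.exp (N * e3) := by
    rw [← Real.exp_add, ← Real.exp_add, ← hT]
    congr 1
    ring
  rw [h5, pow_add]
  ring

theorem st_out {a : ℤ} (ha : a ≠ 0) {x0 : ℝ} {y z t E D k q : ℂ} {d e : ℕ} {G : ℕ → ℂ → ℂ}
    (hz : z.im < 0) (hz' : -(55 / 1000) ≤ z.im)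
    (K : KerP x0 (1 / a) y z t) (HG : Nice a z d G E D e k q)
    (site : 2 * Real.pi * I * (a * z - 1) + D + gamy z t = 0) :
    ∃ (C : ℝ) (K N0 : ℕ), 0 < C ∧ ∀ N : ℕ, N0 ≤ N → ∀ (w : ℂ) (ξ : ℝ),
      (Wa x0 y N w ξ ∨ Fa x0 N w ξ) →
      ‖ST N a (G N) w‖ ≤ C * N ^ K * Real.exp (N * ((E + vx a z + gam y t + gam z t).re +
        (gamy y t).re * (ξ - y.re) - 1 / 2000)) := by
  obtain ⟨Co, hCo, ho⟩ := om2_in a
  obtain ⟨Cp, hCp, hp⟩ := om2_out ha hz hz'
  obtain ⟨Ck, Kk, Nk, hCk, hk⟩ := K.out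
  obtain ⟨Cn, Nn, hCn, hn⟩ := HG.near
  obtain ⟨Cg, Kg, Ng, hCg, hg⟩ := HG.out
  refine ⟨2 * (Cp * Ck * Cg) + Co * Ck * Cn, Kk + Kg,
    max (max 10 ⌈1 / (-z.im)⌉₊) (max Nk (max Nn Ng)), by positivity, fun N hN w ξ hw => ?_⟩
  have hN10 : 10 ≤ N := ((le_max_left _ _).trans (le_max_left _ _)).trans hN
  have hNz : ⌈1 / (-z.im)⌉₊ ≤ N := ((le_max_right _ _).trans (le_max_left _ _)).trans hN
  have hNk : Nk ≤ N := ((le_max_left _ _).trans (le_max_right _ _)).trans hN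
  have hNn : Nn ≤ N :=
    ((le_max_left _ _).trans ((le_max_right _ _).trans (le_max_right _ _))).trans hN
  have hNg : Ng ≤ N :=
    ((le_max_right _ _).trans ((le_max_right _ _).trans (le_max_right _ _))).trans hN
  have hN1 : 1 ≤ N := by omega
  have hN0 : (0 : ℝ) < N := by exact_mod_cast hN1
  have hNr : (1 : ℝ) ≤ N := by exact_mod_cast hN1
  have hNy : 1 / (N : ℝ) ≤ -z.im := by
    have h1 : 1 / (-z.im) ≤ N := (Nat.le_ceil _).trans (by exact_mod_cast hNz)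
    rw [div_le_iff₀ (by linarith)] at h1
    rw [div_le_iff₀ hN0]
    linarith
  set T : ℝ := (E + vx a z + gam y t + gam z t).re + (gamy y t).re * (ξ - y.re) - 1 / 2000 with hT
  have hTe : ∀ ξ' : ℝ, -(2 * Real.pi * z.im * (a * ξ' - 1)) + (SP y t ξ + SP z t ξ' - 1 / 2000) +
      (E.re + D.re * (ξ' - z.re)) = T := by
    intro ξ'
    have h1 := tot (E := E) site ξ'
    rw [hT, add_re, add_re, add_re]
    have h2 : SP y t ξ = (gam y t).re + (gamy y t).re * (ξ - y.re) := rfl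
    rw [h2]
    linarith
  set f : ℂ → ℂ := fun z => om2 N a z * KN N w z * G N z with hf
  have hout : ∀ (w' : ℂ) (ξ' : ℝ), (Wa (1 / a) z N w' ξ' ∨ Fa (1 / a) N w' ξ') →
      ‖f w'‖ ≤ Cp * Ck * Cg * N ^ (Kk + Kg) * Real.exp (N * T) := by
    intro w' ξ' hw'
    refine so_mul3 hCp.le hCk.le (hp N hN10 w' ξ' hw')
      (hk N hNk w w' ξ ξ' (Or.inr hw) (Or.inr hw') (by tauto))
      (e3 := E.re + D.re * (ξ' - z.re)) ?_ (hTe ξ')
    refine (hg N hNg w' ξ' hw').trans (mul_le_mul_of_nonneg_left (Real.exp_le_exp.2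
      (mul_le_mul_of_nonneg_left ?_ hN0.le)) (by positivity))
    have : (0 : ℝ) ≤ d / 2000 := by positivity
    linarith
  have hnear : ∀ x' : ℝ, |x'| ≤ 17 / 100 →
      ‖f (x' + z.im * I)‖ ≤ Co * Ck * Cn * N ^ (Kk + 0) * Real.exp (N * T) := by
    intro x' hx'
    have hre : ((x' : ℂ) + z.im * I).re = x' := by simp
    have him : ((x' : ℂ) + z.im * I).im = z.im := by simp
    have h1 := ho N hN1 ((x' : ℂ) + z.im * I) (by rw [him]; linarith) (by rw [him]; linarith)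
    rw [vx_re, hre, him] at h1
    have hNr' : Nr z ((x' : ℂ) + z.im * I) x' := ⟨hx', rfl⟩
    refine so_mul3 hCo.le hCk.le h1
      (hk N hNk w _ ξ x' (Or.inr hw) (Or.inl hNr') (by tauto))
      (e3 := E.re + D.re * (x' - z.re)) ?_ (hTe x')
    have h2 := hn N hNn x' hx'
    have h3 : ‖G N (x' + z.im * I)‖ ≤ ‖G N (x' + z.im * I)‖ * N ^ e :=
      le_mul_of_one_le_right (norm_nonneg _) (one_le_pow₀ hNr)
    rw [pow_zero, mul_one]
    refine (h3.trans h2).trans (mul_le_mul_of_nonneg_left (Real.exp_le_exp.2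
      (mul_le_mul_of_nonneg_left ?_ hN0.le)) hCn.le)
    have : 0 ≤ (d : ℝ) * (x' - z.re) ^ 2 / 400 := by positivity
    linarith
  have hrest := pi_rest (f := f) (y := z) (x0 := 1 / a) hN1 hz' hNy
    (fun y h1 h2 => ((om2_diff hN1 a h1 h2).mul (kn_diff N w y)).mul (HG.diff N y))
    (((om2_cont hN1 a one_pos).mul (kn_diff N w).continuous.continuousOn).mul
      (HG.diff N).continuous.continuousOn) hout
  have hint : ‖∫ x in (-(17 / 100) : ℝ)..(17 / 100), f (x + z.im * I)‖ ≤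
      Co * Ck * Cn * N ^ (Kk + 0) * Real.exp (N * T) := by
    have h1 := intervalIntegral.norm_integral_le_of_norm_le_const
      (a := (-(17 / 100) : ℝ)) (b := 17 / 100) (f := fun x : ℝ => f (x + z.im * I))
      (C := Co * Ck * Cn * N ^ (Kk + 0) * Real.exp (N * T)) (by
        intro x hx
        rw [Set.uIoc_of_le (by norm_num)] at hx
        exact hnear x (abs_le.2 ⟨hx.1.le, hx.2⟩))
    refine h1.trans ?_
    have h2 : |(17 / 100 : ℝ) - -(17 / 100)| ≤ 1 := by norm_num [abs_le]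
    exact mul_le_of_le_one_right (by positivity) h2
  have hST : ST N a (G N) w = PI f 1 := rfl
  rw [hST]
  have h1 : ‖PI f 1‖ ≤ 2 * (Cp * Ck * Cg * N ^ (Kk + Kg) * Real.exp (N * T)) +
      Co * Ck * Cn * N ^ (Kk + 0) * Real.exp (N * T) := by
    have h2 := norm_le_insert' (PI f 1) (∫ x in (-(17 / 100) : ℝ)..(17 / 100), f (x + z.im * I))
    linarith
  refine h1.trans ?_
  have h3 : (N : ℝ) ^ (Kk + 0) ≤ N ^ (Kk + Kg) := pow_le_pow_right₀ hNr (by omega)
  have h4 : Co * Ck * Cn * N ^ (Kk + 0) * Real.exp (N * T) ≤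
      Co * Ck * Cn * N ^ (Kk + Kg) * Real.exp (N * T) := by
    gcongr
  have h5 : (2 * (Cp * Ck * Cg) + Co * Ck * Cn) * (N : ℝ) ^ (Kk + Kg) * Real.exp (N * T) =
      2 * (Cp * Ck * Cg * N ^ (Kk + Kg) * Real.exp (N * T)) +
      Co * Ck * Cn * N ^ (Kk + Kg) * Real.exp (N * T) := by ring
  rw [h5]
  linarith

end Pool.Agent.XV
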