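import Pool.Agent.XV.Ker
import Pool.Agent.XV.Sout
import Pool.Agent.XV.Slim

/-!
# XV EDGE: the step preserves the class of functions
-/

set_option autoImplicit false

namespace Pool.Agent.XV

open Complex Finset Filter Topology
open Pool.Agent.Helper9.TB Pool.Agent.Helper9.TF Pool.Agent.Helper9.TW

theorem edge_nice {a a' : ℤ} (ha' : a' ≠ 0) {y z t E D k q : ℂ} {d e : ℕ} {G : ℕ → ℂ → ℂ}
    (H1 : Half (1 / a) y t) (H2 : Half (1 / a') z t) (kern : gamt y t + gamt z t = 0)
    (HG : Nice a' z d G E D e k q)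
    (site : 2 * Real.pi * I * (a' * z - 1) + D + gamy z t = 0) :
    ∃ k' q' : ℂ, Nice a y 1 (fun N => ST N a' (G N)) (E + vx a' z + gam y t + gam z t)
      (gamy y t) (e + 2) k' q' := by
  have K := kerP H1 H2 kern
  obtain ⟨k', q', hk', hlim⟩ := st_lim ha' H1.yre H2.yre H2.yneg H2.yim K HG site
  refine ⟨k', q', fun N => st_diff N a' (HG.diff N), ?_, ?_, hlim, hk'⟩
  · obtain ⟨C, N0, hC, h⟩ := st_near ha' H1.yre H2.yneg H2.yim K HG site
    refine ⟨C, N0, hC, fun N hN x hx => ?_⟩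
    have := h N hN x hx
    simpa using this
  · obtain ⟨C, K', N0, hC, h⟩ := st_out ha' H2.yneg H2.yim K HG site
    refine ⟨C, K', N0, hC, fun N hN w ξ hw => ?_⟩
    have := h N hN w ξ hw
    simpa using this

end Pool.Agent.XV
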