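import Pool.Agent.XV.Defs

/-!
# XV EXS: the equation of a vertex

`low`: for `|a| ≥ 10`, `n ≥ 1`, `‖κ - n‖ ≤ 2 n / 25`: `‖a + i κ‖ ≥ sqrt (a ^ 2 + n ^ 2) - 2 n / 25`.
With `M = sqrt (a ^ 2 + n ^ 2)`: `M - 2 n / 25 ≥ 10 / 1.004` because
`M ≥ 0.9967 |a| + 0.08 n` (Cauchy-Schwarz, `0.9967 ^ 2 + 0.08 ^ 2 ≤ 1`), so
`M - 2 n / 25 ≥ 9.967 ≥ 1 / 0.1004`.  And `(M - 2 n / 25) ^ 2 ≥ 17.4 n`: from
`M ≥ 0.68 * 10 + 0.733 n` (`0.68 ^ 2 + 0.733 ^ 2 ≤ 1`) one gets `M - 0.08 n ≥ 6.8 + 0.653 n`, and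
`(6.8 + 0.653 n) ^ 2 ≥ 4 * 6.8 * 0.653 n ≥ 17.7 n`.

`reg_of`: `‖z‖ = 1 / ‖a + i κ‖ ≤ 0.1004`; `z = conj (a + i κ) / ‖a + i κ‖ ^ 2`, so
`z.im = -κ.re / ‖a + i κ‖ ^ 2 < 0` and the third condition times `‖a + i κ‖ ^ 2` is
`10 ≤ |a - κ.im| + 9/100 κ.re`, true because `|a| ≥ 10`, `|κ.im| ≤ 8 n / 100`,
`9/100 κ.re ≥ 9/100 * 92/100 n ≥ 8 n / 100`.

`ex_fix`: Banach's fixed point theorem for `z ↦ 1 / (a + i κ z)` on the closed disc of radius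
`0.1004`: it maps the disc into itself by `low`, and
`‖1 / (a + i κ z) - 1 / (a + i κ z')‖ ≤ 6 n ‖z - z'‖ / (17.4 n)`, constant `6 / 17.4 < 1`
(`‖a + i κ z‖ ‖a + i κ z'‖ ≥ 17.4 n`).

`ex_stab`: `z - z' = i z z' (κ' z' - κ z)`, so
`‖z - z'‖ ≤ ‖z‖ ‖z'‖ (‖κ' z' - κ z'‖ + 6 n ‖z - z'‖)`, `‖z‖ ‖z'‖ ≤ min (0.1004 ^ 2) (1 / (17.4 n))`, hence
`(1 - 6 / 17.4) ‖z - z'‖ ≤ 0.01009 ‖κ' z' - κ z'‖`, and `0.01009 / 0.655 ≤ 1 / 60`.
-/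

set_option autoImplicit false

namespace Pool.Agent.XV

open Complex Finset

/-- lower bounds of `a + i κ` -/
private theorem low_aux {a : ℤ} (ha : 10 ≤ a.natAbs) {n : ℕ} {κ : ℂ}
    (hκ : ‖κ - n‖ ≤ 2 / 25 * n) {c s : ℝ} (hc : 0 ≤ c) (hcs : c ^ 2 + s ^ 2 ≤ 1) :
    10 * c + (s - 2 / 25) * n ≤ ‖(a : ℂ) + I * κ‖ := by
  have h10 : (10 : ℝ) ≤ |(a : ℝ)| := by
    rw [← Int.cast_abs, Int.abs_eq_natAbs]
    exact_mod_cast ha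
  have hn0 : (0 : ℝ) ≤ n := Nat.cast_nonneg n
  have h1 : ‖(a : ℂ) + I * n‖ ≤ ‖(a : ℂ) + I * κ‖ + ‖κ - n‖ := by
    have : (a : ℂ) + I * n = ((a : ℂ) + I * κ) - I * (κ - n) := by ring
    rw [this]
    refine (norm_sub_le _ _).trans ?_
    rw [norm_mul, Complex.norm_I, one_mul]
  have h2 : c * |(a : ℝ)| + s * n ≤ ‖(a : ℂ) + I * n‖ := by
    have h3 : ‖(a : ℂ) + I * n‖ ^ 2 = (a : ℝ) ^ 2 + (n : ℝ) ^ 2 := by
      rw [← Complex.normSq_eq_norm_sq, Complex.normSq_apply]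
      simp
      ring
    refine abs_le_of_sq_le_sq' ?_ (norm_nonneg _) |>.2
    rw [h3, ← sq_abs (a : ℝ)]
    nlinarith [sq_nonneg (c * n - s * |(a : ℝ)|), mul_nonneg (sub_nonneg.2 hcs)
      (add_nonneg (sq_nonneg |(a : ℝ)|) (sq_nonneg (n : ℝ)))]
  nlinarith [mul_le_mul_of_nonneg_left h10 hc]

private theorem low1 {a : ℤ} (ha : 10 ≤ a.natAbs) {n : ℕ} {κ : ℂ}
    (hκ : ‖κ - n‖ ≤ 2 / 25 * n) : 9967 / 1000 ≤ ‖(a : ℂ) + I * κ‖ := by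
  have h := low_aux ha hκ (c := 9967 / 10000) (s := 2 / 25) (by norm_num) (by norm_num)
  linarith

private theorem low2 {a : ℤ} (ha : 10 ≤ a.natAbs) {n : ℕ} {κ : ℂ}
    (hκ : ‖κ - n‖ ≤ 2 / 25 * n) : 68 / 10 + 653 / 1000 * n ≤ ‖(a : ℂ) + I * κ‖ := by
  have h := low_aux ha hκ (c := 68 / 100) (s := 733 / 1000) (by norm_num) (by norm_num)
  linarith

private theorem low3 {a : ℤ} (ha : 10 ≤ a.natAbs) {n : ℕ} {κ κ' : ℂ}
    (hκ : ‖κ - n‖ ≤ 2 / 25 * n) (hκ' : ‖κ' - n‖ ≤ 2 / 25 * n) :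
    174 / 10 * n ≤ ‖(a : ℂ) + I * κ‖ * ‖(a : ℂ) + I * κ'‖ := by
  have h1 := low2 ha hκ
  have h2 := low2 ha hκ'
  have hn0 : (0 : ℝ) ≤ n := Nat.cast_nonneg n
  have h3 : (68 / 10 + 653 / 1000 * (n : ℝ)) * (68 / 10 + 653 / 1000 * n) ≤
      ‖(a : ℂ) + I * κ‖ * ‖(a : ℂ) + I * κ'‖ :=
    mul_le_mul h1 h2 (by positivity) (norm_nonneg _)
  nlinarith [sq_nonneg (68 / 10 - 653 / 1000 * (n : ℝ))]

theorem reg_of {a : ℤ} (ha : 10 ≤ a.natAbs) {n : ℕ} (hn : 1 ≤ n) {z κ : ℂ}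
    (hκ : ‖κ - n‖ ≤ 2 / 25 * n) (h : z * (a + I * κ) = 1) : Reg z := by
  have hl := low1 ha hκ
  set w : ℂ := (a : ℂ) + I * κ with hw
  have hw0 : 0 < ‖w‖ := by linarith
  have hn1 : (1 : ℝ) ≤ n := by exact_mod_cast hn
  have h10 : (10 : ℝ) ≤ |(a : ℝ)| := by
    rw [← Int.cast_abs, Int.abs_eq_natAbs]
    exact_mod_cast ha
  have hz : z = w⁻¹ := eq_inv_of_mul_eq_one_left h
  have hns : 0 < Complex.normSq w := by
    rw [Complex.normSq_pos]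
    intro h0
    rw [h0] at hw0
    simp at hw0
  have hre : w.re = a - κ.im := by rw [hw]; simp; ring
  have him : w.im = κ.re := by rw [hw]; simp
  have hk1 : |(κ - n).re| ≤ 2 / 25 * n := (Complex.abs_re_le_norm _).trans hκ
  have hk2 : |(κ - n).im| ≤ 2 / 25 * n := (Complex.abs_im_le_norm _).trans hκ
  simp only [Complex.sub_re, Complex.natCast_re, Complex.sub_im, Complex.natCast_im,
    sub_zero] at hk1 hk2
  have hk3 := (abs_le.1 hk1).1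
  have hkre : 0 < κ.re := by linarith
  refine ⟨?_, ?_, ?_⟩
  · rw [hz, norm_inv]
    have : ‖w‖⁻¹ ≤ (9967 / 1000 : ℝ)⁻¹ := inv_anti₀ (by norm_num) hl
    refine this.trans (by norm_num)
  · rw [hz, Complex.inv_im, him]
    exact div_neg_of_neg_of_pos (by linarith) hns
  · rw [hz, norm_inv, Complex.inv_im, Complex.inv_re, him, hre, inv_pow,
      ← Complex.normSq_eq_norm_sq, abs_div, abs_div, abs_of_pos hns, abs_neg, abs_of_pos hkre,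
      ← div_eq_mul_inv, mul_div_assoc', ← add_div]
    refine div_le_div_of_nonneg_right ?_ hns.le
    have h5 : |(a : ℝ)| - |κ.im| ≤ |(a : ℝ) - κ.im| := abs_sub_abs_le_abs_sub _ _
    linarith

theorem ex_fix {a : ℤ} (ha : 10 ≤ a.natAbs) {n : ℕ} (hn : 1 ≤ n) {κ : ℂ → ℂ}
    (h1 : ∀ z, ‖z‖ ≤ 1004 / 10000 → ‖κ z - n‖ ≤ 2 / 25 * n)
    (h2 : ∀ z z', ‖z‖ ≤ 1004 / 10000 → ‖z'‖ ≤ 1004 / 10000 →
      ‖κ z - κ z'‖ ≤ 6 * n * ‖z - z'‖) : ∃ z : ℂ, Reg z ∧ z * (a + I * κ z) = 1 := by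
  have hn1 : (1 : ℝ) ≤ n := by exact_mod_cast hn
  set f : ℂ → ℂ := fun z => (a + I * κ z)⁻¹ with hf
  set s : Set ℂ := Metric.closedBall 0 (1004 / 10000) with hs
  have hmem : ∀ z, z ∈ s ↔ ‖z‖ ≤ 1004 / 10000 := fun z => by rw [hs]; simp
  have hmaps : Set.MapsTo f s s := by
    intro z hz
    rw [hmem] at hz ⊢
    have hl := low1 ha (h1 z hz)
    rw [hf]
    simp only [norm_inv]
    have : ‖(a : ℂ) + I * κ z‖⁻¹ ≤ (9967 / 1000 : ℝ)⁻¹ := inv_anti₀ (by norm_num) hl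
    refine this.trans (by norm_num)
  have hlip : ∀ z ∈ s, ∀ z' ∈ s, dist (f z) (f z') ≤ (6 / 17 : ℝ) * dist z z' := by
    intro z hz z' hz'
    rw [hmem] at hz hz'
    have l1 := low1 ha (h1 z hz)
    have l2 := low1 ha (h1 z' hz')
    have l3 := low3 ha (h1 z hz) (h1 z' hz')
    have l4 := h2 z' z hz' hz
    have p1 : 0 < ‖(a : ℂ) + I * κ z‖ := by linarith
    have p2 : 0 < ‖(a : ℂ) + I * κ z'‖ := by linarith
    have e1 : f z - f z' = I * (κ z' - κ z) / (((a : ℂ) + I * κ z) * ((a : ℂ) + I * κ z')) := by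
      rw [hf]
      simp only
      rw [inv_sub_inv (norm_pos_iff.1 p1) (norm_pos_iff.1 p2)]
      ring
    rw [dist_eq_norm, dist_eq_norm, e1, norm_div, norm_mul, norm_mul, Complex.norm_I, one_mul,
      div_le_iff₀ (mul_pos p1 p2)]
    rw [norm_sub_rev z' z] at l4
    have h0 : 0 ≤ ‖z - z'‖ := norm_nonneg _
    nlinarith [mul_le_mul_of_nonneg_left l3 h0]
  have hcon : ContractingWith (6 / 17 : NNReal) (hmaps.restrict f s s) := by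
    refine ⟨?_, ?_⟩
    · rw [← NNReal.coe_lt_coe]
      norm_num
    · refine LipschitzWith.of_dist_le_mul ?_
      intro x y
      have h := hlip x x.2 y y.2
      rw [Subtype.dist_eq, Subtype.dist_eq]
      simpa using h
  obtain ⟨z, hz, hfix, -⟩ := hcon.exists_fixedPoint' (Metric.isClosed_closedBall.isComplete)
    hmaps (x := 0) (by rw [hmem]; simp; norm_num) (edist_ne_top _ _)
  have hz' : ‖z‖ ≤ 1004 / 10000 := (hmem z).1 hz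
  have hl := low1 ha (h1 z hz')
  have hne : (a : ℂ) + I * κ z ≠ 0 := by
    intro h0
    rw [h0, norm_zero] at hl
    norm_num at hl
  have hzz : z * (a + I * κ z) = 1 := by
    have h3 : f z = z := hfix
    rw [hf] at h3
    simp only at h3
    nth_rewrite 1 [← h3]
    exact inv_mul_cancel₀ hne
  exact ⟨z, reg_of ha hn (h1 z hz') hzz, hzz⟩

theorem ex_stab {a : ℤ} (ha : 10 ≤ a.natAbs) {n : ℕ} (hn : 1 ≤ n) {κ κ' : ℂ → ℂ}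
    (h1 : ∀ z, ‖z‖ ≤ 1004 / 10000 → ‖κ z - n‖ ≤ 2 / 25 * n)
    (h2 : ∀ z z', ‖z‖ ≤ 1004 / 10000 → ‖z'‖ ≤ 1004 / 10000 → ‖κ z - κ z'‖ ≤ 6 * n * ‖z - z'‖)
    (h1' : ∀ z, ‖z‖ ≤ 1004 / 10000 → ‖κ' z - n‖ ≤ 2 / 25 * n) {z z' : ℂ}
    (hz : z * (a + I * κ z) = 1) (hz' : z' * (a + I * κ' z') = 1) (hzn : ‖z‖ ≤ 1004 / 10000)
    (hzn' : ‖z'‖ ≤ 1004 / 10000) : ‖z - z'‖ ≤ 1 / 60 * ‖κ z' - κ' z'‖ := by
  have hn1 : (1 : ℝ) ≤ n := by exact_mod_cast hn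
  have k1 := h1 z hzn
  have k2 := h1' z' hzn'
  have l1 := low1 ha k1
  have l2 := low1 ha k2
  have l3 := low3 ha k1 k2
  have l4 := h2 z' z hzn' hzn
  have p1 : 0 < ‖(a : ℂ) + I * κ z‖ := by linarith
  have p2 : 0 < ‖(a : ℂ) + I * κ' z'‖ := by linarith
  have e1 : (z - z') * (((a : ℂ) + I * κ z) * ((a : ℂ) + I * κ' z')) =
      I * (κ' z' - κ z) := by
    have : (z - z') * (((a : ℂ) + I * κ z) * ((a : ℂ) + I * κ' z')) =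
      (z * (a + I * κ z)) * ((a : ℂ) + I * κ' z') - (z' * (a + I * κ' z')) * ((a : ℂ) + I * κ z) := by
      ring
    rw [this, hz, hz']
    ring
  have e2 : ‖z - z'‖ * (‖(a : ℂ) + I * κ z‖ * ‖(a : ℂ) + I * κ' z'‖) = ‖κ' z' - κ z‖ := by
    rw [← norm_mul, ← norm_mul, e1, norm_mul, Complex.norm_I, one_mul]
  have e3 : ‖κ' z' - κ z‖ ≤ ‖κ z' - κ' z'‖ + 6 * n * ‖z - z'‖ := by
    have : κ' z' - κ z = (κ z' - κ z) - (κ z' - κ' z') := by ring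
    rw [this]
    refine (norm_sub_le _ _).trans ?_
    rw [norm_sub_rev z' z] at l4
    linarith
  have l5 : (9967 / 1000 : ℝ) * (9967 / 1000) ≤ ‖(a : ℂ) + I * κ z‖ * ‖(a : ℂ) + I * κ' z'‖ :=
    mul_le_mul l1 l2 (by norm_num) (norm_nonneg _)
  have h0 : 0 ≤ ‖z - z'‖ := norm_nonneg _
  set P := ‖(a : ℂ) + I * κ z‖ * ‖(a : ℂ) + I * κ' z'‖ with hP
  set e := ‖z - z'‖ with he
  set k := ‖κ z' - κ' z'‖ with hk
  -- e * P ≤ k + 6 n e, 6 n ≤ 6 / 17.4 P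
  have h6 : 6 * (n : ℝ) ≤ 6 / (174 / 10) * P := by linarith
  have h7 : e * P ≤ k + 6 * n * e := by linarith [e2, e3]
  have h8 : 6 * n * e ≤ 6 / (174 / 10) * P * e := mul_le_mul_of_nonneg_right h6 h0
  have h9 : e * 60 ≤ e * ((1 - 6 / (174 / 10)) * P) := by
    refine mul_le_mul_of_nonneg_left ?_ h0
    nlinarith
  nlinarith

end Pool.Agent.XV
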