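import Pool.Agent.XV.Tn

/-!
# XV RG: the region of the saddle points

Write `x = |y.re|`, `h = -y.im > 0`; `Reg`: `x ^ 2 + h ^ 2 ≤ 0.1004 ^ 2`,
`10 (x ^ 2 + h ^ 2) ≤ x + 0.09 h`.

`rg_re`: `|y.re| ≤ ‖y‖`.  `rg_im`: `h ≤ 0.055`: otherwise
`10 x ^ 2 - x + 10 h ^ 2 - 0.09 h ≥ -1/40 + 0.03025 - 0.00495 > 0` (true maximum `0.0547`).
`rg_prod`: `x h ≤ 0.0037` (true maximum `0.0036`); e.g. from
`(x - 0.05) ^ 2 + (h - 0.0045) ^ 2 ≤ 0.0025203`, with `x = 0.05 + ρ c`, `h = 0.0045 + ρ s`; or: for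
every `μ` with `20 μ > 1`: `x h - 0.0037 ≤ μ (10 x ^ 2 + 10 h ^ 2 - x - 0.09 h)` for all real `x, h`
when `μ` is chosen such that the quadratic form is definite and its minimum is `≥ 0`
(`μ` about `0.068`; find it by minimising).
`rg_sum`: `x + h ≤ 0.1255` (the same disc: `0.0545 + 0.050203 * sqrt 2`).
`rg_diff`: `h ^ 2 - x ^ 2 ≤ 0.0018`: `h ^ 2 - x ^ 2 - 0.0018 ≤ 0.12 (10 x ^ 2 + 10 h ^ 2 - x - 0.09 h)`.
`rg_cos`: with `u = 2πx`, `v = 2πh ≤ 0.3456`: `cos u ≥ cos (2π * 0.1004) ≥ 0.807` and `cosh v ≥ 1`;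
upper bound: `cos u + cosh v ≤ 2 + (v ^ 2 - u ^ 2) / 2 + u ^ 4 / 24 + 0.0006`; for `x ≤ 0.0545` use
`rg_diff`: `≤ 2 + 0.0356 + 0.0006 + 0.0006`; for `x ≥ 0.0545`: `h ^ 2 - x ^ 2 ≤ 0.00006`, `u ^ 4 / 24 ≤ 0.0067`.

`rg_tan`: `tan (πy) = (sin 2πy.re + i sinh 2πy.im) / (cos u + cosh v)` (`tan_re`, `tan_im`), so
`re (tan ^ 2) = (sin u ^ 2 - sinh v ^ 2) / (cos u + cosh v) ^ 2`,
`|im (tan ^ 2)| = 2 sin u sinh v / (cos u + cosh v) ^ 2`.
* upper bound of `re`: `≤ sin u ^ 2 / (1 + cos u) ^ 2 = tan (u / 2) ^ 2 ≤ tan (0.3155) ^ 2 ≤ 0.107`.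
* lower bound of `re`: if `v ≥ u` then `cos u + cosh v ≥ 2 + (v ^ 2 - u ^ 2) / 2 ≥ 2`, and
  `sinh v ^ 2 - sin u ^ 2 ≤ (v ^ 2 - u ^ 2) + 0.0051 + u ^ 4 / 3 ≤ 0.08` with
  `v ^ 2 - u ^ 2 ≤ min 0.0711 (0.1195 - u ^ 2)` (consider `u ≤ 0.25` and `u ≥ 0.25`).
* `|im| ≤ 0.08`: with `w = u ^ 2 - v ^ 2`, `sin u sinh v ≤ u v (1 - w / 6 + ...)` and
  `(cos u + cosh v) ^ 2 ≥ 4 (1 - w / 4 + ...) ^ 2`, so `|im|` is at most `(u v / 2) (1 + 0.37 w)` for
  `w ≥ 0` and `u v / 2` for `w ≤ 0` (up to terms of order 4; leave some room), and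
  `u v / 2 = 2π ^ 2 x h`, `2π ^ 2 * 0.0037 ≤ 0.0731`; so it is enough that
  `x h (1 + 14.6 (x ^ 2 - h ^ 2)) ≤ 0.004` on the region; the left side increases with `h`, so
  subdivide in `x` (for `x ≤ 0.08`: `x h ≤ 0.0037`, `x ^ 2 - h ^ 2 ≤ 0.0047`; for `x ≥ 0.08` the disc
  gives `h ≤ 0.0448`, `x h ≤ 0.0036`, etc.).
(True ranges: `re ∈ [-0.0169, 0.1059]`, `|im| ≤ 0.0748`.)
-/

set_option autoImplicit false

namespace Pool.Agent.XV

open Complex Finset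

/-! ### elementary bounds -/

theorem rg_cos_hi4 {x : ℝ} (hx : 0 ≤ x) : Real.cos x ≤ 1 - x ^ 2 / 2 + x ^ 4 / 24 := by
  have h : MonotoneOn (fun t : ℝ => 1 - t ^ 2 / 2 + t ^ 4 / 24 - Real.cos t) (Set.Ici 0) := by
    apply monotoneOn_of_deriv_nonneg (convex_Ici 0) (by fun_prop) (by fun_prop)
    intro t ht
    rw [interior_Ici] at ht
    have hd : HasDerivAt (fun t : ℝ => 1 - t ^ 2 / 2 + t ^ 4 / 24 - Real.cos t)
        (-t + t ^ 3 / 6 + Real.sin t) t := by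
      have h1 := (((hasDerivAt_pow 2 t).div_const 2).const_sub 1).add
        ((hasDerivAt_pow 4 t).div_const 24)
      have h2 := h1.sub (Real.hasDerivAt_cos t)
      refine h2.congr_deriv ?_
      push_cast
      ring
    rw [hd.deriv]
    have := Real.sin_ge_sub_cube (le_of_lt ht)
    linarith
  have h1 := h (Set.self_mem_Ici) hx hx
  simp only [Real.cos_zero] at h1
  norm_num at h1
  linarith

theorem rg_sin_hi5 {x : ℝ} (hx : 0 ≤ x) : Real.sin x ≤ x - x ^ 3 / 6 + x ^ 5 / 120 := by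
  have h : MonotoneOn (fun t : ℝ => t - t ^ 3 / 6 + t ^ 5 / 120 - Real.sin t) (Set.Ici 0) := by
    apply monotoneOn_of_deriv_nonneg (convex_Ici 0) (by fun_prop) (by fun_prop)
    intro t ht
    rw [interior_Ici] at ht
    have hd : HasDerivAt (fun t : ℝ => t - t ^ 3 / 6 + t ^ 5 / 120 - Real.sin t)
        (1 - t ^ 2 / 2 + t ^ 4 / 24 - Real.cos t) t := by
      have h1 := ((hasDerivAt_id' t).sub ((hasDerivAt_pow 3 t).div_const 6)).add
        ((hasDerivAt_pow 5 t).div_const 120)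
      have h2 := h1.sub (Real.hasDerivAt_sin t)
      refine h2.congr_deriv ?_
      push_cast
      ring
    rw [hd.deriv]
    have := rg_cos_hi4 (le_of_lt ht)
    linarith
  have h1 := h (Set.self_mem_Ici) hx hx
  simp only [Real.sin_zero] at h1
  norm_num at h1
  linarith

theorem rg_cos_lo6 {x : ℝ} (hx : 0 ≤ x) :
    1 - x ^ 2 / 2 + x ^ 4 / 24 - x ^ 6 / 720 ≤ Real.cos x := by
  have h : MonotoneOn (fun t : ℝ => Real.cos t - (1 - t ^ 2 / 2 + t ^ 4 / 24 - t ^ 6 / 720))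
      (Set.Ici 0) := by
    apply monotoneOn_of_deriv_nonneg (convex_Ici 0) (by fun_prop) (by fun_prop)
    intro t ht
    rw [interior_Ici] at ht
    have hd : HasDerivAt (fun t : ℝ => Real.cos t - (1 - t ^ 2 / 2 + t ^ 4 / 24 - t ^ 6 / 720))
        (t - t ^ 3 / 6 + t ^ 5 / 120 - Real.sin t) t := by
      have h1 := ((((hasDerivAt_pow 2 t).div_const 2).const_sub 1).add
        ((hasDerivAt_pow 4 t).div_const 24)).sub ((hasDerivAt_pow 6 t).div_const 720)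
      have h2 := (Real.hasDerivAt_cos t).sub h1
      refine h2.congr_deriv ?_
      push_cast
      ring
    rw [hd.deriv]
    have := rg_sin_hi5 (le_of_lt ht)
    linarith
  have h1 := h (Set.self_mem_Ici) hx hx
  simp only [Real.cos_zero] at h1
  norm_num at h1
  linarith

theorem rg_cosh_bd {v : ℝ} (hv : |v| ≤ 1) :
    |Real.cosh v - (1 + v ^ 2 / 2)| ≤ |v| ^ 4 * (5 / 96) := by
  have h1 : ‖(v : ℂ) * I‖ ≤ 1 := by
    rw [norm_mul, Complex.norm_I, mul_one, Complex.norm_real, Real.norm_eq_abs]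
    exact hv
  have h2 := Complex.cos_bound h1
  rw [Complex.cos_mul_I, norm_mul, Complex.norm_I, mul_one, Complex.norm_real,
    Real.norm_eq_abs] at h2
  have h3 : Complex.cosh (v : ℂ) - (1 - ((v : ℂ) * I) ^ 2 / 2) =
      ((Real.cosh v - (1 + v ^ 2 / 2) : ℝ) : ℂ) := by
    rw [mul_pow, Complex.I_sq]
    push_cast
    ring
  rw [h3, Complex.norm_real, Real.norm_eq_abs] at h2
  exact h2

theorem rg_sinh_bd {v : ℝ} (hv : |v| ≤ 1) :
    |Real.sinh v - (v + v ^ 3 / 6)| ≤ |v| ^ 5 / 100 := by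
  have h1 : ‖(v : ℂ) * I‖ ≤ 1 := by
    rw [norm_mul, Complex.norm_I, mul_one, Complex.norm_real, Real.norm_eq_abs]
    exact hv
  have h2 := Complex.sin_bound h1
  rw [Complex.sin_mul_I, norm_mul, Complex.norm_I, mul_one, Complex.norm_real,
    Real.norm_eq_abs] at h2
  have h3 : Complex.sinh (v : ℂ) * I - ((v : ℂ) * I - ((v : ℂ) * I) ^ 3 / 6) =
      ((Real.sinh v - (v + v ^ 3 / 6) : ℝ) : ℂ) * I := by
    have h4 : ((v : ℂ) * I) ^ 3 = -((v : ℂ) ^ 3) * I := by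
      rw [mul_pow, pow_succ I 2, Complex.I_sq]
      ring
    rw [h4]
    push_cast
    ring
  rw [h3, norm_mul, Complex.norm_I, mul_one, Complex.norm_real, Real.norm_eq_abs] at h2
  exact h2

theorem rg_p1 : 39476 / 1000 ≤ 4 * Real.pi ^ 2 := by
  nlinarith [Real.pi_gt_d4]

theorem rg_p2 : 4 * Real.pi ^ 2 ≤ 39479 / 1000 := by
  nlinarith [Real.pi_lt_d4, Real.pi_gt_d4]

/-! ### the region -/

theorem rg_basic {y : ℂ} (hy : Reg y) : 0 ≤ |y.re| ∧ 0 < -y.im ∧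
    |y.re| ^ 2 + (-y.im) ^ 2 ≤ (1004 / 10000) ^ 2 ∧
    10 * (|y.re| ^ 2 + (-y.im) ^ 2) ≤ |y.re| + 9 / 100 * -y.im := by
  have h1 : ‖y‖ ^ 2 = |y.re| ^ 2 + (-y.im) ^ 2 := by
    rw [Complex.sq_norm, Complex.normSq_apply, sq_abs]
    ring
  have h2 := hy.r1
  have h3 := hy.r2
  have h4 := hy.r3
  rw [abs_of_neg h3] at h4
  refine ⟨abs_nonneg _, by linarith, ?_, ?_⟩
  · rw [← h1]
    exact pow_le_pow_left₀ (norm_nonneg _) h2 2
  · rw [← h1]
    exact h4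

theorem rg_re {y : ℂ} (hy : Reg y) : |y.re| ≤ 1004 / 10000 :=
  (Complex.abs_re_le_norm y).trans hy.r1

theorem rg_im {y : ℂ} (hy : Reg y) : -(55 / 1000) ≤ y.im := by
  obtain ⟨hx, hh, hS, hT⟩ := rg_basic hy
  obtain ⟨x, ex⟩ : ∃ x, x = |y.re| := ⟨_, rfl⟩
  obtain ⟨h, eh⟩ : ∃ h, h = -y.im := ⟨_, rfl⟩
  rw [← ex] at hx hS hT
  rw [← eh] at hh hS hT
  by_contra hcon
  push Not at hcon
  have h1 : 55 / 1000 < h := by linarith
  nlinarith [sq_nonneg (x - 1 / 20), mul_pos (sub_pos.2 h1) (sub_pos.2 h1)]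

theorem rg_prod {y : ℂ} (hy : Reg y) : |y.re| * -y.im ≤ 37 / 10000 := by
  obtain ⟨hx, hh, hS, hT⟩ := rg_basic hy
  obtain ⟨x, ex⟩ : ∃ x, x = |y.re| := ⟨_, rfl⟩
  obtain ⟨h, eh⟩ : ∃ h, h = -y.im := ⟨_, rfl⟩
  rw [← ex] at hx hS hT
  rw [← eh] at hh hS hT
  rw [← ex, ← eh]
  nlinarith [sq_nonneg (x - 768 / 10000 - (h - 476 / 10000) / (178 / 100)),
    sq_nonneg (h - 476 / 10000)]

theorem rg_sum {y : ℂ} (hy : Reg y) : |y.re| + -y.im ≤ 1255 / 10000 := by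
  obtain ⟨hx, hh, hS, hT⟩ := rg_basic hy
  obtain ⟨x, ex⟩ : ∃ x, x = |y.re| := ⟨_, rfl⟩
  obtain ⟨h, eh⟩ : ∃ h, h = -y.im := ⟨_, rfl⟩
  rw [← ex] at hx hS hT
  rw [← eh] at hh hS hT
  rw [← ex, ← eh]
  have h1 : (x + h - 545 / 10000) ^ 2 ≤ (71 / 1000) ^ 2 := by
    nlinarith [sq_nonneg (x - 1 / 20 - (h - 45 / 10000))]
  have h2 := (le_abs_self _).trans (abs_le_of_sq_le_sq h1 (by norm_num))
  linarith

theorem rg_diff {y : ℂ} (hy : Reg y) : y.im ^ 2 - y.re ^ 2 ≤ 18 / 10000 := by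
  obtain ⟨hx, hh, hS, hT⟩ := rg_basic hy
  have e1 : y.im ^ 2 = (-y.im) ^ 2 := by ring
  have e2 : y.re ^ 2 = |y.re| ^ 2 := (sq_abs _).symm
  rw [e1, e2]
  obtain ⟨x, ex⟩ : ∃ x, x = |y.re| := ⟨_, rfl⟩
  obtain ⟨h, eh⟩ : ∃ h, h = -y.im := ⟨_, rfl⟩
  rw [← ex] at hx hS hT
  rw [← eh] at hh hS hT
  rw [← ex, ← eh]
  nlinarith [sq_nonneg (x - 3 / 110), sq_nonneg (h - 27 / 1000)]

/-- `x h` is smaller if `x ^ 2 - h ^ 2` is large. -/
theorem rg_prod2 {x h : ℝ} (hT : 10 * (x ^ 2 + h ^ 2) ≤ x + 9 / 100 * h)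
    (hm : 65 / 10000 ≤ x ^ 2 - h ^ 2) : x * h ≤ 34 / 10000 := by
  nlinarith [sq_nonneg (x - 887 / 10000 - (h - 366 / 10000) / (163 / 100)),
    sq_nonneg (h - 366 / 10000)]

/-- numerical data of the region: `s = (2 π x) ^ 2`, `t = (2 π h) ^ 2` -/
theorem rg_data {y : ℂ} (hy : Reg y) : ∃ u v : ℝ, 0 ≤ u ∧ 0 < v ∧
    Real.cos (2 * Real.pi * y.re) = Real.cos u ∧ Real.cosh (2 * Real.pi * y.im) = Real.cosh v ∧
    |Real.sin (2 * Real.pi * y.re)| = |Real.sin u| ∧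
    |Real.sinh (2 * Real.pi * y.im)| = |Real.sinh v| ∧
    u ^ 2 ≤ 398 / 1000 ∧ v ^ 2 ≤ 11943 / 100000 ∧ v ^ 2 - u ^ 2 ≤ 7107 / 100000 ∧
    u * v ≤ 14608 / 100000 ∧ (25662 / 100000 ≤ u ^ 2 - v ^ 2 → u * v ≤ 13423 / 100000) := by
  obtain ⟨hx, hh, hS, hT⟩ := rg_basic hy
  have him := rg_im hy
  have hre := rg_re hy
  have hpr := rg_prod hy
  have hdi := rg_diff hy
  have hp1 := rg_p1
  have hp2 := rg_p2
  have hπ := Real.pi_pos
  have e1 : y.im ^ 2 = (-y.im) ^ 2 := by ring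
  have e2 : y.re ^ 2 = |y.re| ^ 2 := (sq_abs _).symm
  rw [e1, e2] at hdi
  refine ⟨2 * Real.pi * |y.re|, 2 * Real.pi * -y.im, by positivity, by positivity, ?_, ?_, ?_, ?_,
    ?_⟩
  · rcases abs_choice y.re with h | h
    · rw [h]
    · rw [h, mul_neg, Real.cos_neg]
  · rw [mul_neg, Real.cosh_neg]
  · rcases abs_choice y.re with h | h
    · rw [h]
    · rw [h, mul_neg, Real.sin_neg, abs_neg]
  · rw [mul_neg, Real.sinh_neg, abs_neg]
  · obtain ⟨x, ex⟩ : ∃ x, x = |y.re| := ⟨_, rfl⟩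
    obtain ⟨h, eh⟩ : ∃ h, h = -y.im := ⟨_, rfl⟩
    have him' : h ≤ 55 / 1000 := by linarith
    rw [← ex] at hx hS hT hpr hdi
    rw [← eh] at hh hS hT hpr hdi
    rw [← ex] at hre
    rw [← ex, ← eh]
    obtain ⟨p, ep⟩ : ∃ p, p = 4 * Real.pi ^ 2 := ⟨_, rfl⟩
    rw [← ep] at hp1 hp2
    have f1 : (2 * Real.pi * x) ^ 2 = p * x ^ 2 := by rw [ep]; ring
    have f2 : (2 * Real.pi * h) ^ 2 = p * h ^ 2 := by rw [ep]; ring
    have f3 : (2 * Real.pi * x) * (2 * Real.pi * h) = p * (x * h) := by rw [ep]; ring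
    have hx2 : x ^ 2 ≤ (1004 / 10000) ^ 2 := pow_le_pow_left₀ hx hre 2
    have hh2 : h ^ 2 ≤ (55 / 1000) ^ 2 := pow_le_pow_left₀ hh.le him' 2
    rw [f1, f2, f3]
    have g1 : p * x ^ 2 ≤ 39479 / 1000 * (1004 / 10000) ^ 2 :=
      mul_le_mul hp2 hx2 (sq_nonneg _) (by norm_num)
    have g2 : p * h ^ 2 ≤ 39479 / 1000 * (55 / 1000) ^ 2 :=
      mul_le_mul hp2 hh2 (sq_nonneg _) (by norm_num)
    have g3 : p * (x * h) ≤ 39479 / 1000 * (37 / 10000) :=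
      mul_le_mul hp2 hpr (by positivity) (by norm_num)
    refine ⟨by norm_num at g1 ⊢; linarith, by norm_num at g2 ⊢; linarith, ?_,
      by norm_num at g3 ⊢; linarith, ?_⟩
    · have g4 : p * (h ^ 2 - x ^ 2) ≤ p * (18 / 10000) :=
        mul_le_mul_of_nonneg_left hdi (by linarith)
      nlinarith
    · intro hm
      have g5 : 65 / 10000 ≤ x ^ 2 - h ^ 2 := by
        by_contra hcon
        push Not at hcon
        have g6 : p * (x ^ 2 - h ^ 2) < p * (65 / 10000) :=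
          mul_lt_mul_of_pos_left hcon (by linarith)
        nlinarith
      have g7 := rg_prod2 hT g5
      have g8 : p * (x * h) ≤ 39479 / 1000 * (34 / 10000) :=
        mul_le_mul hp2 g7 (by positivity) (by norm_num)
      norm_num at g8 ⊢
      linarith

theorem rg_cosu {u : ℝ} (hu : 0 ≤ u) (hs : u ^ 2 ≤ 398 / 1000) : 807 / 1000 ≤ Real.cos u := by
  have h1 := rg_cos_lo6 hu
  obtain ⟨s, es⟩ : ∃ s, s = u ^ 2 := ⟨_, rfl⟩
  have e4 : u ^ 4 = s ^ 2 := by rw [es]; ring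
  have e6 : u ^ 6 = s ^ 3 := by rw [es]; ring
  rw [← es, e4, e6] at h1
  rw [← es] at hs
  have hs0 : 0 ≤ s := by rw [es]; positivity
  have h2 : s ^ 3 ≤ 398 / 1000 * s ^ 2 := by nlinarith [mul_nonneg hs0 hs0]
  nlinarith [mul_nonneg (sub_nonneg.2 hs) hs0, mul_nonneg (sub_nonneg.2 hs) (sub_nonneg.2 hs)]

theorem rg_sqrt_le {u : ℝ} (hu : 0 ≤ u) {a b : ℝ} (hb : 0 ≤ b) (h : u ^ 2 ≤ a) (hab : a ≤ b ^ 2) :
    u ≤ b := by
  exact (le_abs_self u).trans (abs_le_of_sq_le_sq (h.trans hab) hb)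

theorem rg_cos {y : ℂ} (hy : Reg y) :
    1804 / 1000 ≤ Real.cos (2 * Real.pi * y.re) + Real.cosh (2 * Real.pi * y.im) ∧
      Real.cos (2 * Real.pi * y.re) + Real.cosh (2 * Real.pi * y.im) ≤ 2042 / 1000 := by
  obtain ⟨u, v, hu, hv, e1, e2, -, -, hs, ht, hd, -, -⟩ := rg_data hy
  rw [e1, e2]
  constructor
  · have h1 := rg_cosu hu hs
    have h2 := Real.one_le_cosh v
    linarith
  · have h1 := rg_cos_hi4 hu
    have hv1 : v ≤ 35 / 100 := rg_sqrt_le hv.le (by norm_num) ht (by norm_num)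
    have h2 := (abs_le.1 (rg_cosh_bd (v := v) (by rw [abs_of_pos hv]; linarith))).2
    rw [abs_of_pos hv] at h2
    obtain ⟨s, es⟩ : ∃ s, s = u ^ 2 := ⟨_, rfl⟩
    obtain ⟨t, et⟩ : ∃ t, t = v ^ 2 := ⟨_, rfl⟩
    have e4 : u ^ 4 = s ^ 2 := by rw [es]; ring
    have e5 : v ^ 4 = t ^ 2 := by rw [et]; ring
    rw [← es, e4] at h1
    rw [← et, e5] at h2
    rw [← es] at hs hd
    rw [← et] at ht hd
    have hs0 : 0 ≤ s := by rw [es]; positivity
    have ht0 : 0 ≤ t := by rw [et]; positivity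
    have ht2 : t ^ 2 ≤ 1427 / 100000 := by nlinarith
    rcases le_total s (12 / 100) with h3 | h3
    · have : s ^ 2 ≤ 144 / 10000 := by nlinarith
      nlinarith
    · have h4 : s ^ 2 ≤ 398 / 1000 * s := by nlinarith
      nlinarith

theorem rg_sin_sq {u s : ℝ} (hu : 0 ≤ u) (es : s = u ^ 2) (hs : s ≤ 398 / 1000) :
    s - s ^ 2 / 3 ≤ Real.sin u ^ 2 := by
  have h1 : 0 ≤ u * (1 - s / 6) := mul_nonneg hu (by linarith)
  have h2 : u * (1 - s / 6) ≤ Real.sin u := by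
    have h3 := Real.sin_ge_sub_cube hu
    have h4 : u * (1 - s / 6) = u - u ^ 3 / 6 := by rw [es]; ring
    rw [h4]
    exact h3
  have h5 := pow_le_pow_left₀ h1 h2 2
  have h6 : (u * (1 - s / 6)) ^ 2 = s - s ^ 2 / 3 + s ^ 3 / 36 := by
    rw [mul_pow, ← es]
    ring
  have hs0 : 0 ≤ s := by rw [es]; positivity
  have h7 : 0 ≤ s ^ 3 := by positivity
  linarith

theorem rg_sinh_le {v t : ℝ} (hv : 0 < v) (et : t = v ^ 2) (ht : t ≤ 11943 / 100000) :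
    Real.sinh v ≤ v * (1 + t / 6 + 15 / 100000) := by
  have hv1 : v ≤ 3456 / 10000 := rg_sqrt_le hv.le (by norm_num) (et ▸ ht) (by norm_num)
  have h1 := (abs_le.1 (rg_sinh_bd (v := v) (by rw [abs_of_pos hv]; linarith))).2
  rw [abs_of_pos hv] at h1
  have h2 : v * (1 + t / 6 + t ^ 2 / 100) = v + v ^ 3 / 6 + v ^ 5 / 100 := by rw [et]; ring
  have ht0 : 0 ≤ t := by rw [et]; positivity
  have h3 : t ^ 2 ≤ 11943 / 100000 * t := by
    rw [sq]
    exact mul_le_mul_of_nonneg_right ht ht0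
  have h4 : 1 + t / 6 + t ^ 2 / 100 ≤ 1 + t / 6 + 15 / 100000 := by linarith
  have h5 := mul_le_mul_of_nonneg_left h4 hv.le
  linarith

theorem rg_sinh_sq {v t : ℝ} (hv : 0 < v) (et : t = v ^ 2) (ht : t ≤ 11943 / 100000) :
    Real.sinh v ^ 2 ≤ t + 49 / 10000 := by
  have h1 := rg_sinh_le hv et ht
  have ht0 : 0 ≤ t := by rw [et]; positivity
  have h2 := pow_le_pow_left₀ (Real.sinh_nonneg_iff.2 hv.le) h1 2
  have h3 : t ^ 2 ≤ 11943 / 100000 * t := by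
    rw [sq]
    exact mul_le_mul_of_nonneg_right ht ht0
  have h4 : (1 + t / 6 + 15 / 100000) ^ 2 ≤ 1 + t / 3 + 8 / 10000 := by
    have h5 : (1 + t / 6 + 15 / 100000) ^ 2 =
      (100015 / 100000) ^ 2 + 100015 / 300000 * t + t ^ 2 / 36 := by ring
    rw [h5]
    norm_num
    linarith
  have h6 := mul_le_mul_of_nonneg_left h4 ht0
  rw [mul_pow, ← et] at h2
  have h7 : t * (1 + t / 3 + 8 / 10000) = t + t ^ 2 / 3 + 8 / 10000 * t := by ring
  linarith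

theorem rg_cosh_lo (v : ℝ) : 1 + v ^ 2 / 2 ≤ Real.cosh v := by
  rw [← Real.cosh_abs, ← sq_abs v]
  have hv := abs_nonneg v
  have h1 : Real.cosh |v| = 1 + 2 * Real.sinh (|v| / 2) ^ 2 := by
    have h2 := Real.cosh_two_mul (|v| / 2)
    have h3 := Real.cosh_sq (|v| / 2)
    rw [show 2 * (|v| / 2) = |v| by ring] at h2
    rw [h2, h3]
    ring
  have h4 : |v| / 2 ≤ Real.sinh (|v| / 2) := Real.self_le_sinh_iff.2 (by linarith)
  have h5 := pow_le_pow_left₀ (by linarith) h4 2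
  rw [h1]
  linarith [show (|v| / 2) ^ 2 = |v| ^ 2 / 4 by ring]

theorem rg_num1 {s t a b D : ℝ} (hs0 : 0 ≤ s) (hs : s ≤ 398 / 1000) (ht : t ≤ 11943 / 100000)
    (hd : t - s ≤ 7107 / 100000) (ha : s - s ^ 2 / 3 ≤ a) (hb : b ≤ t + 49 / 10000)
    (hD1 : 1807 / 1000 ≤ D) (hD2 : 2 - (s - t) / 2 ≤ D) : -(2 / 100) * D ^ 2 ≤ a - b := by
  rcases le_total s t with h1 | h1
  · have h2 : 4 ≤ D ^ 2 := by nlinarith
    have h3 : b - a ≤ 8 / 100 := by
      rcases le_total s (625 / 10000) with h4 | h4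
      · have h5 : s ^ 2 ≤ 625 / 10000 * s := by
          rw [sq]
          exact mul_le_mul_of_nonneg_right h4 hs0
        linarith
      · have h5 : s ^ 2 ≤ 398 / 1000 * s := by
          rw [sq]
          exact mul_le_mul_of_nonneg_right hs hs0
        linarith
    linarith
  · have h2 : 326 / 100 ≤ D ^ 2 := by nlinarith
    have h5 : s ^ 2 ≤ 398 / 1000 * s := by
      rw [sq]
      exact mul_le_mul_of_nonneg_right hs hs0
    linarith

theorem rg_num2 {s t : ℝ} (hs0 : 0 ≤ s) (hs : s ≤ 398 / 1000) (ht0 : 0 ≤ t)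
    (ht : t ≤ 11943 / 100000) :
    (1 - s / 6 + s ^ 2 / 120) * (1 + t / 6 + 15 / 100000) ≤ 10017 / 10000 - (s - t) / 6 := by
  have h5 : s ^ 2 ≤ 398 / 1000 * s := by
    rw [sq]
    exact mul_le_mul_of_nonneg_right hs hs0
  have h6 : s ^ 2 * t ≤ 398 / 1000 * (s * t) := by
    have := mul_le_mul_of_nonneg_right h5 ht0
    linarith
  have h7 : 0 ≤ s * t := mul_nonneg hs0 ht0
  have h8 : (1 - s / 6 + s ^ 2 / 120) * (1 + t / 6 + 15 / 100000) =
    1 - (s - t) / 6 + 15 / 100000 - 15 / 600000 * s + 15 / 12000000 * s ^ 2 + s ^ 2 / 120 +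
      s ^ 2 * t / 720 - s * t / 36 := by ring
  rw [h8]
  linarith

theorem rg_num3 {w P D : ℝ} (hw1 : w ≤ 398 / 1000) (hw2 : -(7107 / 100000) ≤ w) (hP0 : 0 ≤ P)
    (hP : P ≤ 14608 / 100000) (hP2 : 25662 / 100000 ≤ w → P ≤ 13423 / 100000)
    (h6 : (2 - w / 2) ^ 2 ≤ D) : 2 * (P * (10017 / 10000 - w / 6)) ≤ 8 / 100 * D := by
  have hpos : 0 ≤ 10017 / 10000 - w / 6 := by linarith
  rcases le_total (25662 / 100000) w with h10 | h10
  · have h8 : P * (10017 / 10000 - w / 6) ≤ 13423 / 100000 * (10017 / 10000 - w / 6) :=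
      mul_le_mul_of_nonneg_right (hP2 h10) hpos
    have h9 : 0 ≤ (398 / 1000 - w) * (w - 25662 / 100000) :=
      mul_nonneg (by linarith) (by linarith)
    nlinarith
  · have h8 : P * (10017 / 10000 - w / 6) ≤ 14608 / 100000 * (10017 / 10000 - w / 6) :=
      mul_le_mul_of_nonneg_right hP hpos
    have h9 : 0 ≤ (25662 / 100000 - w) * (25662 / 100000 - w) :=
      mul_nonneg (by linarith) (by linarith)
    nlinarith

theorem rg_tan {y : ℂ} (hy : Reg y) :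
    -(2 / 100) ≤ (Complex.tan (Real.pi * y) ^ 2).re ∧
      (Complex.tan (Real.pi * y) ^ 2).re ≤ 107 / 1000 ∧
      |(Complex.tan (Real.pi * y) ^ 2).im| ≤ 8 / 100 := by
  obtain ⟨u, v, hu, hv, e1, e2, e3, e4, hs, ht, hd, huv, huv2⟩ := rg_data hy
  have hy1 : (Real.pi : ℂ) * y = ((Real.pi * y.re : ℝ) : ℂ) + ((Real.pi * y.im : ℝ) : ℂ) * I := by
    apply Complex.ext <;> simp
  have hre := tan_re (Real.pi * y.re) (Real.pi * y.im)
  have him := tan_im (Real.pi * y.re) (Real.pi * y.im)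
  rw [← hy1] at hre him
  have f1 : 2 * (Real.pi * y.re) = 2 * Real.pi * y.re := by ring
  have f2 : 2 * (Real.pi * y.im) = 2 * Real.pi * y.im := by ring
  rw [f1, f2, e1, e2] at hre him
  obtain ⟨D, eD⟩ : ∃ D, D = Real.cos u + Real.cosh v := ⟨_, rfl⟩
  rw [← eD] at hre him
  have g1 : (Complex.tan (Real.pi * y) ^ 2).re =
      (Real.sin u ^ 2 - Real.sinh v ^ 2) / D ^ 2 := by
    rw [sq, Complex.mul_re, hre, him]
    have h1 : Real.sin (2 * Real.pi * y.re) ^ 2 = Real.sin u ^ 2 := by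
      rw [← sq_abs, e3, sq_abs]
    have h2 : Real.sinh (2 * Real.pi * y.im) ^ 2 = Real.sinh v ^ 2 := by
      rw [← sq_abs, e4, sq_abs]
    rw [← h1, ← h2]
    ring
  have g2 : |(Complex.tan (Real.pi * y) ^ 2).im| =
      2 * (|Real.sin u| * |Real.sinh v|) / D ^ 2 := by
    rw [sq, Complex.mul_im, hre, him, ← e3, ← e4, ← abs_mul]
    have h1 : Real.sin (2 * Real.pi * y.re) / D * (Real.sinh (2 * Real.pi * y.im) / D) +
        Real.sinh (2 * Real.pi * y.im) / D * (Real.sin (2 * Real.pi * y.re) / D) =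
        2 * (Real.sin (2 * Real.pi * y.re) * Real.sinh (2 * Real.pi * y.im)) / D ^ 2 := by
      ring
    rw [h1, abs_div, abs_mul, abs_of_pos (show (0 : ℝ) < 2 by norm_num), abs_of_nonneg (sq_nonneg D)]
  rw [g1, g2]
  have hcu := rg_cosu hu hs
  have hch1 := Real.one_le_cosh v
  have hD1 : 1807 / 1000 ≤ D := by rw [eD]; linarith
  have hDpos : 0 < D ^ 2 := by positivity
  have hu1 : u ≤ 631 / 1000 := rg_sqrt_le hu (by norm_num) hs (by norm_num)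
  have hsin0 : 0 ≤ Real.sin u := Real.sin_nonneg_of_nonneg_of_le_pi hu (by
    linarith [Real.pi_gt_three])
  have hsinh0 : 0 < Real.sinh v := Real.sinh_pos_iff.2 hv
  have hcu2 := Real.one_sub_sq_div_two_le_cos (x := u)
  have hch2 := rg_cosh_lo v
  have hD2 : 2 - (u ^ 2 - v ^ 2) / 2 ≤ D := by rw [eD]; linarith
  obtain ⟨s, es⟩ : ∃ s, s = u ^ 2 := ⟨_, rfl⟩
  obtain ⟨t, et⟩ : ∃ t, t = v ^ 2 := ⟨_, rfl⟩
  have hs0 : 0 ≤ s := by rw [es]; positivity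
  have ht0 : 0 ≤ t := by rw [et]; positivity
  rw [← es] at hs hd hD2 huv2
  rw [← et] at ht hd hD2 huv2
  refine ⟨?_, ?_, ?_⟩
  · rw [le_div_iff₀ hDpos]
    exact rg_num1 hs0 hs ht hd (rg_sin_sq hu es hs) (rg_sinh_sq hv et ht) hD1 hD2
  · rw [div_le_iff₀ hDpos]
    have h1 : Real.sin u ^ 2 = (1 - Real.cos u) * (1 + Real.cos u) := by
      have := Real.sin_sq_add_cos_sq u
      linarith [show (1 - Real.cos u) * (1 + Real.cos u) = 1 - Real.cos u ^ 2 by ring]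
    have h2 : (1 + Real.cos u) ^ 2 ≤ D ^ 2 := by
      have : 1 + Real.cos u ≤ D := by rw [eD]; linarith
      exact pow_le_pow_left₀ (by linarith) this 2
    have h3 : 1 - Real.cos u ≤ 107 / 1000 * (1 + Real.cos u) := by linarith
    have h4 := mul_le_mul_of_nonneg_right h3 (show 0 ≤ 1 + Real.cos u by linarith)
    have h5 : 0 ≤ Real.sinh v ^ 2 := sq_nonneg _
    have h6 : 107 / 1000 * (1 + Real.cos u) * (1 + Real.cos u) =
      107 / 1000 * (1 + Real.cos u) ^ 2 := by ring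
    linarith
  · rw [div_le_iff₀ hDpos, abs_of_nonneg hsin0, abs_of_pos hsinh0]
    have h1 : Real.sin u ≤ u * (1 - s / 6 + s ^ 2 / 120) := by
      have : u * (1 - s / 6 + s ^ 2 / 120) = u - u ^ 3 / 6 + u ^ 5 / 120 := by rw [es]; ring
      rw [this]
      exact rg_sin_hi5 hu
    have h2 := rg_sinh_le hv et ht
    have h30 : 0 ≤ 1 - s / 6 + s ^ 2 / 120 := by
      have : 0 ≤ s ^ 2 := sq_nonneg s
      linarith
    have h3 : Real.sin u * Real.sinh v ≤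
        (u * v) * ((1 - s / 6 + s ^ 2 / 120) * (1 + t / 6 + 15 / 100000)) := by
      have := mul_le_mul h1 h2 hsinh0.le (mul_nonneg hu h30)
      calc _ ≤ _ := this
        _ = _ := by ring
    have huv0 : 0 ≤ u * v := mul_nonneg hu hv.le
    have h5 : Real.sin u * Real.sinh v ≤ (u * v) * (10017 / 10000 - (s - t) / 6) :=
      h3.trans (mul_le_mul_of_nonneg_left (rg_num2 hs0 hs ht0 ht) huv0)
    have h6 : (2 - (s - t) / 2) ^ 2 ≤ D ^ 2 := pow_le_pow_left₀ (by linarith) hD2 2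
    have h7 := rg_num3 (w := s - t) (P := u * v) (by linarith) (by linarith) huv0 huv huv2 h6
    linarith

end Pool.Agent.XV
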