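import Pool.Agent.XV.Gmb
import Pool.Agent.XV.Rg

/-!
# XV SLP: slopes and large values of the variable of the edge

`F r = win h x r - 2 ll r`.  For `h > 0` and `0 < r < 1`, `F` is differentiable with derivative
`-ff h x r` (`Fderiv`, `Fcont` in Helper11.TB.Win), and (`ff_eq`)
`-2 ff h x r = log (Π / (1 - c) ^ 2)`, where with `c = cos 2πr`, `X = cos 2πx`, `H = cosh 2πh`
`Π = (H + cos 2π(x + r)) (H + cos 2π(x - r)) = c ^ 2 + X ^ 2 + H ^ 2 - 1 + 2 c X H` (`prod_form`).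

`slp_low`: `0 < r ≤ 175/1000`: `c ≥ 0.4539`, `X ≥ 0.4817`, `H ≥ 1`, and `Π ≥ e (1 - c) ^ 2`: the left
side increases with `c, X, H`, the right side decreases with `c`; at the corner
`0.875 ≥ 2.7183 * 0.2983 = 0.811`.  So `F' ≥ 1/2`.

`slp_mid`: `305/1000 ≤ r ≤ 1/2`: `-1 ≤ c ≤ -0.3387`, `0.4817 ≤ X ≤ 1`, `1 ≤ H ≤ 1.0604`:
`Π ≤ e⁻¹ (1 - c) ^ 2`: `Π` is convex in `X`, so check `X = 0.4817` and `X = 1`:
`c ^ 2 + H ^ 2 - 0.768 + 0.9634 c H` and `c ^ 2 + H ^ 2 + 2 c H = (c + H) ^ 2`; at `c = -0.3387`,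
`H = 1.0604`: `0.126` and `0.521` against `0.659`; at `c = -1`: `0.335`, `0.0037` against `1.47`.
So `F' ≤ -1/2`.

For `h = 0` apply the result for small `h > 0`: `win 0 ≤ win h ≤ win 0 + 2πh` (`win_ge`,
`win_close` in Helper48.TF.Gaps) and let `h → 0`.

`win0_anti`: `win h` is antitone in the abscissa on `[0, 1/2]` (`win_anti`), even (`win_neg`), let
`h → 0`.

`high`: for `h > 0`: `int_ff_refl` with `τ = r` and `int_ff_nonpos` with `α = 1 - r ∈ [0, 1/2]`.
For `h = 0` let `h → 0`.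
-/

set_option autoImplicit false

namespace Pool.Agent.XV

open Complex Finset
open Pool.Agent.Helper9.TB Pool.Agent.Helper9.TF

/-- lower bound of the cosine at a point -/
theorem slp_cos_lo {a s c : ℝ} (ha : 0 ≤ a) (h1 : a ^ 2 ≤ s) (hs : s ≤ 4)
    (hc : c ≤ 1 - s / 2 + s ^ 2 / 24 - s ^ 3 / 720) : c ≤ Real.cos a := by
  have h2 := rg_cos_lo6 ha
  obtain ⟨t, et⟩ : ∃ t, t = a ^ 2 := ⟨_, rfl⟩
  have e4 : a ^ 4 = t ^ 2 := by rw [et]; ring
  have e6 : a ^ 6 = t ^ 3 := by rw [et]; ring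
  rw [← et, e4, e6] at h2
  rw [← et] at h1
  have ht : 0 ≤ t := by rw [et]; positivity
  have h3 : 0 ≤ (s - t) * (1 / 2 - (s + t) / 24 + (s ^ 2 + s * t + t ^ 2) / 720) := by
    refine mul_nonneg (sub_nonneg.2 h1) ?_
    have h4 : 0 ≤ s := ht.trans h1
    have h5 : 0 ≤ s * t := mul_nonneg h4 ht
    have h6 : 0 ≤ s ^ 2 := sq_nonneg s
    have h7 : 0 ≤ t ^ 2 := sq_nonneg t
    linarith
  have h8 : (s - t) * (1 / 2 - (s + t) / 24 + (s ^ 2 + s * t + t ^ 2) / 720) =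
    (1 - t / 2 + t ^ 2 / 24 - t ^ 3 / 720) - (1 - s / 2 + s ^ 2 / 24 - s ^ 3 / 720) := by ring
  linarith

theorem slp_cx {x : ℝ} (hx : |x| ≤ 17 / 100) : 48 / 100 ≤ Real.cos (2 * Real.pi * x) := by
  have h0 : Real.cos (2 * Real.pi * x) = Real.cos (2 * Real.pi * |x|) := by
    rcases abs_choice x with h | h
    · rw [h]
    · rw [h, mul_neg, Real.cos_neg]
  rw [h0]
  have hp := rg_p2
  have hπ := Real.pi_pos
  refine slp_cos_lo (s := 1141 / 1000) (by positivity) ?_ (by norm_num) (by norm_num)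
  have h1 : |x| ^ 2 ≤ (17 / 100) ^ 2 := pow_le_pow_left₀ (abs_nonneg x) hx 2
  have h2 : (2 * Real.pi * |x|) ^ 2 = (4 * Real.pi ^ 2) * |x| ^ 2 := by ring
  rw [h2]
  have h3 := mul_le_mul hp h1 (sq_nonneg _) (by norm_num)
  refine h3.trans (by norm_num)

theorem slp_cl {r : ℝ} (r0 : 0 ≤ r) (r1 : r ≤ 175 / 1000) :
    45 / 100 ≤ Real.cos (2 * Real.pi * r) := by
  have hp := rg_p2
  have hπ := Real.pi_pos
  refine slp_cos_lo (s := 12095 / 10000) (by positivity) ?_ (by norm_num) (by norm_num)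
  have h1 : r ^ 2 ≤ (175 / 1000) ^ 2 := pow_le_pow_left₀ r0 r1 2
  have h2 : (2 * Real.pi * r) ^ 2 = (4 * Real.pi ^ 2) * r ^ 2 := by ring
  rw [h2]
  have h3 := mul_le_mul hp h1 (sq_nonneg _) (by norm_num)
  refine h3.trans (by norm_num)

theorem slp_cm {r : ℝ} (r0 : 305 / 1000 ≤ r) (r1 : r ≤ 1 / 2) :
    Real.cos (2 * Real.pi * r) ≤ -(338 / 1000) := by
  have h0 : Real.cos (2 * Real.pi * r) = -Real.cos (2 * Real.pi * (1 / 2 - r)) := by
    rw [show 2 * Real.pi * (1 / 2 - r) = Real.pi - 2 * Real.pi * r by ring, Real.cos_pi_sub,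
      neg_neg]
  rw [h0, neg_le_neg_iff]
  have hp := rg_p2
  have hπ := Real.pi_pos
  refine slp_cos_lo (s := 15012 / 10000) (by
    have : 0 ≤ 1 / 2 - r := by linarith
    positivity) ?_ (by norm_num) (by norm_num)
  have h1 : (1 / 2 - r) ^ 2 ≤ (195 / 1000) ^ 2 :=
    pow_le_pow_left₀ (by linarith) (by linarith) 2
  have h2 : (2 * Real.pi * (1 / 2 - r)) ^ 2 = (4 * Real.pi ^ 2) * (1 / 2 - r) ^ 2 := by ring
  rw [h2]
  have h3 := mul_le_mul hp h1 (sq_nonneg _) (by norm_num)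
  refine h3.trans (by norm_num)

theorem slp_ch {h : ℝ} (h0 : 0 ≤ h) (h1 : h ≤ 55 / 1000) :
    Real.cosh (2 * Real.pi * h) ≤ 1061 / 1000 := by
  have hp := rg_p2
  have hπ := Real.pi_pos
  obtain ⟨v, ev⟩ : ∃ v, v = 2 * Real.pi * h := ⟨_, rfl⟩
  have hv0 : 0 ≤ v := by rw [ev]; positivity
  have hv2 : v ^ 2 ≤ 1195 / 10000 := by
    have h2 : h ^ 2 ≤ (55 / 1000) ^ 2 := pow_le_pow_left₀ h0 h1 2
    have h3 : v ^ 2 = (4 * Real.pi ^ 2) * h ^ 2 := by rw [ev]; ring
    rw [h3]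
    have h4 := mul_le_mul hp h2 (sq_nonneg _) (by norm_num)
    refine h4.trans (by norm_num)
  have hv1 : v ≤ 1 := rg_sqrt_le hv0 (by norm_num) hv2 (by norm_num)
  have h5 := (abs_le.1 (rg_cosh_bd (v := v) (by rw [abs_of_nonneg hv0]; exact hv1))).2
  rw [abs_of_nonneg hv0] at h5
  have h6 : v ^ 4 ≤ 1195 / 10000 * v ^ 2 := by
    have : v ^ 4 = v ^ 2 * v ^ 2 := by ring
    rw [this]
    exact mul_le_mul_of_nonneg_right hv2 (sq_nonneg v)
  rw [← ev]
  linarith

theorem slp_e : Real.exp 1 ≤ 2719 / 1000 := by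
  have := Real.exp_one_lt_d9
  linarith

/-- `Π` in terms of the cosines -/
theorem slp_prod (h x r : ℝ) : (Real.cosh (2 * Real.pi * h) + Real.cos (2 * Real.pi * (x + r))) *
      (Real.cosh (2 * Real.pi * h) + Real.cos (2 * Real.pi * (x - r))) =
    Real.cos (2 * Real.pi * r) ^ 2 + Real.cos (2 * Real.pi * x) ^ 2 +
      Real.cosh (2 * Real.pi * h) ^ 2 - 1 +
      2 * Real.cos (2 * Real.pi * r) * Real.cos (2 * Real.pi * x) *
        Real.cosh (2 * Real.pi * h) := by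
  have h1 := Pool.Agent.Helper11.TB.prod_form h x r
  unfold Pool.Agent.Helper11.TB.phi at h1
  linarith

theorem slp_ffl {h x r : ℝ} (h0 : 0 < h) (hx : |x| ≤ 17 / 100) (r0 : 0 < r)
    (r1 : r ≤ 175 / 1000) : ff h x r ≤ -(1 / 2) := by
  have h2 := Pool.Agent.Helper11.TB.ff_eq h0 x r0 (by linarith)
  have h3 := Pool.Agent.Helper11.TB.cos_lt_one r0 (by linarith)
  have hX := slp_cx hx
  have hc := slp_cl r0.le r1
  have hH := Real.one_le_cosh (2 * Real.pi * h)
  have he := slp_e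
  have hpos : 0 < (1 - Real.cos (2 * Real.pi * r)) ^ 2 := by
    have : 0 < 1 - Real.cos (2 * Real.pi * r) := by linarith
    positivity
  have key : Real.exp 1 * (1 - Real.cos (2 * Real.pi * r)) ^ 2 ≤
      (Real.cosh (2 * Real.pi * h) + Real.cos (2 * Real.pi * (x + r))) *
      (Real.cosh (2 * Real.pi * h) + Real.cos (2 * Real.pi * (x - r))) := by
    rw [slp_prod]
    generalize Real.cos (2 * Real.pi * r) = c at *
    generalize Real.cos (2 * Real.pi * x) = X at *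
    generalize Real.cosh (2 * Real.pi * h) = H at *
    have k1 : (1 - c) ^ 2 ≤ (55 / 100) ^ 2 := pow_le_pow_left₀ (by linarith) (by linarith) 2
    have k2 : Real.exp 1 * (1 - c) ^ 2 ≤ 2719 / 1000 * (55 / 100) ^ 2 :=
      mul_le_mul he k1 (sq_nonneg _) (by norm_num)
    have k3 : (93 / 100) ^ 2 ≤ (c + X) ^ 2 := pow_le_pow_left₀ (by norm_num) (by linarith) 2
    have k4 : 0 ≤ 2 * c * X * (H - 1) :=
      mul_nonneg (mul_nonneg (by linarith) (by linarith)) (by linarith)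
    have k5 : 1 ≤ H ^ 2 := one_le_pow₀ hH
    nlinarith
  have h4 := Real.log_le_log (mul_pos (Real.exp_pos 1) hpos) key
  rw [Real.log_mul (Real.exp_pos 1).ne' hpos.ne', Real.log_exp] at h4
  linarith

theorem slp_ffm {h x r : ℝ} (h0 : 0 < h) (h1 : h ≤ 55 / 1000) (hx : |x| ≤ 17 / 100)
    (r0 : 305 / 1000 ≤ r) (r1 : r ≤ 1 / 2) : 1 / 2 ≤ ff h x r := by
  have h2 := Pool.Agent.Helper11.TB.ff_eq h0 x (by linarith) (by linarith)
  have hX := slp_cx hx
  have hX1 := Real.cos_le_one (2 * Real.pi * x)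
  have hc := slp_cm r0 r1
  have hc1 := Real.neg_one_le_cos (2 * Real.pi * r)
  have hH := Real.one_le_cosh (2 * Real.pi * h)
  have hH1 := slp_ch h0.le h1
  have he := slp_e
  have p1 := Pool.Agent.Helper11.TB.arg_pos' h0 (x + r)
  have p2 := Pool.Agent.Helper11.TB.arg_pos' h0 (x - r)
  have hpos := mul_pos p1 p2
  have key : Real.exp 1 * ((Real.cosh (2 * Real.pi * h) + Real.cos (2 * Real.pi * (x + r))) *
      (Real.cosh (2 * Real.pi * h) + Real.cos (2 * Real.pi * (x - r)))) ≤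
      (1 - Real.cos (2 * Real.pi * r)) ^ 2 := by
    have k0 := mul_le_mul_of_nonneg_right he hpos.le
    refine k0.trans ?_
    rw [slp_prod]
    clear h2 p1 p2 hpos he k0
    generalize Real.cos (2 * Real.pi * r) = c at *
    generalize Real.cos (2 * Real.pi * x) = X at *
    generalize Real.cosh (2 * Real.pi * h) = H at *
    obtain ⟨d, ed⟩ : ∃ d, d = -c := ⟨_, rfl⟩
    have hcd : c = -d := by rw [ed]; ring
    rw [hcd] at hc hc1 ⊢
    have k1 : (1338 / 1000) ^ 2 ≤ (1 - -d) ^ 2 :=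
      pow_le_pow_left₀ (by norm_num) (by linarith) 2
    -- linear bound in `X`
    have k2 : 0 ≤ (X - 48 / 100) * (1 - X) := mul_nonneg (by linarith) (by linarith)
    have k3 : (-d) ^ 2 + X ^ 2 + H ^ 2 - 1 + 2 * (-d) * X * H ≤
        d ^ 2 + H ^ 2 - 148 / 100 + X * (148 / 100 - 2 * d * H) := by nlinarith
    -- value at `X = 1`
    have k4 : (H - d) ^ 2 ≤ (723 / 1000) ^ 2 := pow_le_pow_left₀ (by linarith) (by linarith) 2
    -- value at `X = 48 / 100`
    have k5 : d ^ 2 + H ^ 2 - 148 / 100 + 48 / 100 * (148 / 100 - 2 * d * H) ≤ 40 / 100 := by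
      have k6 : H ^ 2 ≤ (1061 / 1000) ^ 2 := pow_le_pow_left₀ (by linarith) hH1 2
      have k7 : 0 ≤ d * (H - 1) := mul_nonneg (by linarith) (by linarith)
      have k8 : 0 ≤ (d - 338 / 1000) * (1 - d) := mul_nonneg (by linarith) (by linarith)
      nlinarith
    rcases le_total 0 (148 / 100 - 2 * d * H) with k9 | k9
    · have k10 : X * (148 / 100 - 2 * d * H) ≤ 1 * (148 / 100 - 2 * d * H) :=
        mul_le_mul_of_nonneg_right hX1 k9
      nlinarith
    · have k10 : X * (148 / 100 - 2 * d * H) ≤ 48 / 100 * (148 / 100 - 2 * d * H) :=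
        mul_le_mul_of_nonpos_right hX k9
      linarith
  have h4 := Real.log_le_log (mul_pos (Real.exp_pos 1) hpos) key
  rw [Real.log_mul (Real.exp_pos 1).ne' hpos.ne', Real.log_exp] at h4
  linarith

theorem slp_low0 {h x r r' : ℝ} (h0 : 0 < h) (hx : |x| ≤ 17 / 100)
    (r0 : 0 ≤ r) (rr : r ≤ r') (r1 : r' ≤ 175 / 1000) :
    win h x r - 2 * ll r + (r' - r) / 2 ≤ win h x r' - 2 * ll r' := by
  have hanti : AntitoneOn (fun α => 2 * ll α - win h x α + α / 2) (Set.Icc r r') := by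
    apply antitoneOn_of_deriv_nonpos (convex_Icc _ _)
    · exact ((Pool.Agent.Helper11.TB.Fcont h0 x).add (by fun_prop)).continuousOn
    · intro u hu
      rw [interior_Icc] at hu
      have h1 := Pool.Agent.Helper11.TB.Fderiv h0 x (x := u) (by linarith [hu.1])
        (by linarith [hu.2])
      exact ((h1.add ((hasDerivAt_id' u).div_const 2)).differentiableAt).differentiableWithinAt
    · intro u hu
      rw [interior_Icc] at hu
      have h1 := Pool.Agent.Helper11.TB.Fderiv h0 x (x := u) (by linarith [hu.1])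
        (by linarith [hu.2])
      have h2 := h1.add ((hasDerivAt_id' u).div_const 2)
      have h3 : deriv (fun α => 2 * ll α - win h x α + α / 2) u = ff h x u + 1 / 2 := h2.deriv
      rw [h3]
      have := slp_ffl h0 hx (show 0 < u by linarith [hu.1]) (by linarith [hu.2])
      linarith
  have := hanti ⟨le_rfl, rr⟩ ⟨rr, le_rfl⟩ rr
  simp only at this
  linarith

theorem slp_mid0 {h x r r' : ℝ} (h0 : 0 < h) (h1 : h ≤ 55 / 1000) (hx : |x| ≤ 17 / 100)
    (r0 : 305 / 1000 ≤ r) (rr : r ≤ r') (r1 : r' ≤ 1 / 2) :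
    win h x r' - 2 * ll r' + (r' - r) / 2 ≤ win h x r - 2 * ll r := by
  have hmono : MonotoneOn (fun α => 2 * ll α - win h x α - α / 2) (Set.Icc r r') := by
    apply monotoneOn_of_deriv_nonneg (convex_Icc _ _)
    · exact ((Pool.Agent.Helper11.TB.Fcont h0 x).sub (by fun_prop)).continuousOn
    · intro u hu
      rw [interior_Icc] at hu
      have h1 := Pool.Agent.Helper11.TB.Fderiv h0 x (x := u) (by linarith [hu.1])
        (by linarith [hu.2])
      exact ((h1.sub ((hasDerivAt_id' u).div_const 2)).differentiableAt).differentiableWithinAt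
    · intro u hu
      rw [interior_Icc] at hu
      have h1' := Pool.Agent.Helper11.TB.Fderiv h0 x (x := u) (by linarith [hu.1])
        (by linarith [hu.2])
      have h2 := h1'.sub ((hasDerivAt_id' u).div_const 2)
      have h3 : deriv (fun α => 2 * ll α - win h x α - α / 2) u = ff h x u - 1 / 2 := h2.deriv
      rw [h3]
      have := slp_ffm h0 h1 hx (show 305 / 1000 ≤ u by linarith [hu.1]) (by linarith [hu.2])
      linarith
  have := hmono ⟨le_rfl, rr⟩ ⟨rr, le_rfl⟩ rr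
  simp only at this
  linarith

/-- passage to height zero -/
theorem slp_eps {a b : ℝ} (H : ∀ ε : ℝ, 0 < ε → ε ≤ 55 / 1000 → a ≤ b + 2 * Real.pi * ε) :
    a ≤ b := by
  have hπ := Real.pi_pos
  refine le_of_forall_pos_le_add fun δ hδ => ?_
  have h1 := H (min (55 / 1000) (δ / (2 * Real.pi))) (lt_min (by norm_num) (by positivity))
    (min_le_left _ _)
  have h2 : 2 * Real.pi * min (55 / 1000) (δ / (2 * Real.pi)) ≤ δ := by
    have h3 := mul_le_mul_of_nonneg_left (min_le_right (55 / 1000) (δ / (2 * Real.pi)))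
      (show 0 ≤ 2 * Real.pi by positivity)
    rwa [mul_div_cancel₀ δ (by positivity)] at h3
  linarith

theorem slp_low {h x r r' : ℝ} (h0 : 0 ≤ h) (h1 : h ≤ 55 / 1000) (hx : |x| ≤ 17 / 100)
    (r0 : 0 ≤ r) (rr : r ≤ r') (r1 : r' ≤ 175 / 1000) :
    win h x r - 2 * ll r + (r' - r) / 2 ≤ win h x r' - 2 * ll r' := by
  rcases h0.eq_or_lt with rfl | h0
  · refine slp_eps fun ε e0 e1 => ?_
    have k1 := Pool.Agent.Helper48.TF.win_ge (ξ := x) e0 r0
    have k2 := Pool.Agent.Helper48.TF.win_close (ξ := x) e0 (r0.trans rr)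
      (by linarith : r' ≤ 1)
    have k3 := slp_low0 e0 hx r0 rr r1
    linarith
  · exact slp_low0 h0 hx r0 rr r1

theorem slp_mid {h x r r' : ℝ} (h0 : 0 ≤ h) (h1 : h ≤ 55 / 1000) (hx : |x| ≤ 17 / 100)
    (r0 : 305 / 1000 ≤ r) (rr : r ≤ r') (r1 : r' ≤ 1 / 2) :
    win h x r' - 2 * ll r' + (r' - r) / 2 ≤ win h x r - 2 * ll r := by
  rcases h0.eq_or_lt with rfl | h0
  · refine slp_eps fun ε e0 e1 => ?_
    have k1 := Pool.Agent.Helper48.TF.win_ge (ξ := x) e0 (show 0 ≤ r' by linarith)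
    have k2 := Pool.Agent.Helper48.TF.win_close (ξ := x) e0 (show 0 ≤ r by linarith)
      (by linarith : r ≤ 1)
    have k3 := slp_mid0 e0 e1 hx r0 rr r1
    linarith
  · exact slp_mid0 h0 h1 hx r0 rr r1

theorem win0_anti {x r : ℝ} (h1 : 17 / 100 ≤ |x|) (h2 : |x| ≤ 1 / 2) (r0 : 0 ≤ r)
    (r1 : r ≤ 1 / 2) : win 0 x r ≤ win 0 (17 / 100) r := by
  have h3 : win 0 x r = win 0 |x| r := by
    rcases abs_choice x with h | h
    · rw [h]
    · rw [h, Pool.Agent.Helper48.TF.win0_neg]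
  rw [h3]
  refine slp_eps fun ε e0 e1 => ?_
  have k1 := Pool.Agent.Helper48.TF.win_ge (ξ := |x|) e0 r0
  have k2 := Pool.Agent.Helper48.TF.win_close (ξ := 17 / 100) e0 r0 (by linarith : r ≤ 1)
  have k3 := Pool.Agent.Helper11.TB.win_anti e0 r0 r1
    (show (17 / 100 : ℝ) ∈ Set.Icc 0 (1 / 2) by constructor <;> norm_num)
    (show |x| ∈ Set.Icc (0 : ℝ) (1 / 2) from ⟨abs_nonneg x, h2⟩) h1
  simp only at k3
  linarith

theorem high {h x r : ℝ} (h0 : 0 ≤ h) (r0 : 1 / 2 ≤ r) (r1 : r ≤ 1) :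
    win h x r - 2 * ll r ≤ 2 * Real.pi * h := by
  have main : ∀ ε : ℝ, 0 < ε → win ε x r - 2 * ll r ≤ 2 * Real.pi * ε := by
    intro ε e0
    have k1 := Pool.Agent.Helper11.TB.int_ff_refl e0 x r
    have k2 := Pool.Agent.Helper11.TB.int_ff_nonpos e0 x (α := 1 - r) (by linarith)
      (by linarith)
    linarith
  rcases h0.eq_or_lt with rfl | h0
  · rw [mul_zero]
    refine slp_eps fun ε e0 e1 => ?_
    have k1 := Pool.Agent.Helper48.TF.win_ge (ξ := x) e0 (show 0 ≤ r by linarith)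
    have k2 := main ε e0
    linarith
  · exact main h h0

end Pool.Agent.XV
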