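import Pool.Agent.XV.Hr
import Pool.Agent.XV.Slp

/-!
# XV HF: all real values of the variable of the edge

`T r = TP y t r ξ` is affine in `r` with slope `(gamt y t).re ∈ [-1/8, 1/8]` (`H.gt`).
`F r = win h x r - 2 ll r` with `h = lam |y.im| ∈ [0, 55/1000]`, `|x| ≤ 17/100`.

`rf_realfar`:
* `17/100 ≤ r ≤ 31/100`: `win_gam` (`η = lam y.im`, `|η| = lam |y.im|`) and `reale_rf`.
* `r ≤ 17/100`: `slp_low` from `r` to `17/100`: `F r ≤ F (17/100) - (17/100 - r)/2`, and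
  `T r ≥ T (17/100) - (17/100 - r)/8`.
* `31/100 ≤ r ≤ 1/2`: `slp_mid` from `31/100` to `r`.
* `1/2 ≤ r ≤ 1`: `high`: `F r ≤ 2 π * 55/1000 ≤ 0.3456`, and
  `T r ≥ 1/2 - (1 - 0.2335)/8 - 0.055 ≥ 0.349` (`H.big`, `H.gt`, `H.gy`; `|ξ| ≤ 17/100`).

`rf_real`: inside `[17/100, 31/100]` by `win_gam` and `real_rf`; outside by `rf_realfar`.

`rf_far`: `ξ = x0`.
* `r ≤ 1/2`: `win 0 x r ≤ win 0 (17/100) r` (`win0_anti`); then for `17/100 ≤ r ≤ 31/100`:
  `win_gam` with `η = 0`, `gap`, `tge_rf`: `≤ T r - 1/50`; outside use the slopes as above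
  (`h = 0`, `x = 17/100`).
* `r ≥ 1/2`: `high` with `h = 0`: `≤ 0`, and `T r ≥ 0.349`.
-/

set_option autoImplicit false

namespace Pool.Agent.XV

open Complex Finset
open Pool.Agent.Helper9.TB Pool.Agent.Helper9.TF

lemma HF_slope {y t : ℂ} (H : RF y t) {r r' ξ : ℝ} (h : r ≤ r') :
    TP y t r' ξ ≤ TP y t r ξ + (r' - r) / 8 ∧ TP y t r ξ ≤ TP y t r' ξ + (r' - r) / 8 := by
  have h1 := abs_le.1 H.gt
  have h2 : TP y t r' ξ - TP y t r ξ = (gamt y t).re * (r' - r) := by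
    unfold TP
    ring
  constructor <;> nlinarith [h1.1, h1.2]

lemma HF_xi {x0 lam x ξ : ℝ} (hx0 : |x0| ≤ 1 / 10) (hI : Inn x0 lam x ξ) : |ξ| ≤ 17 / 100 := by
  have h1 := abs_le.1 hx0
  have h2 := abs_le.1 hI.x1
  have h3 := hI.l0
  have h4 := hI.l1
  rw [hI.eq, abs_le]
  constructor <;> nlinarith [h1.1, h1.2, h2.1, h2.2]

/-- Lower bound of the tangent plane for large values of the variable of the edge. -/
lemma HF_big {y t : ℂ} (H : RF y t) {r ξ : ℝ} (hr : 1 / 2 ≤ r) (h2 : r ≤ 1)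
    (hξ : |ξ| ≤ 17 / 100) : 349 / 1000 ≤ TP y t r ξ := by
  have h1 := abs_le.1 H.gt
  have h3 := H.gy ξ hξ
  have h4 := H.big
  have h5 := H.tre1
  have h6 := H.tre2
  have h7 : -(1 / 8 * (r - t.re)) ≤ (gamt y t).re * (r - t.re) := by nlinarith [h1.1, h1.2]
  unfold TP
  linarith

/-- the value on the window -/
lemma HF_win {y : ℂ} {x lam r : ℝ} (l0 : 0 ≤ lam) (h1 : 17 / 100 ≤ r) (h2 : r ≤ 31 / 100)
    (hx : |x| ≤ 17 / 100) :
    (gam (x + (lam * y.im : ℝ) * I) r).re = win (lam * |y.im|) x r - 2 * ll r := by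
  rw [win_gam (by linarith) (by linarith), abs_mul, abs_of_nonneg l0]

theorem rf_realfar {y t : ℂ} (H : RF y t) {x0 r lam x ξ : ℝ} (hx0 : |x0| ≤ 1 / 10)
    (h1 : 0 ≤ r) (h2 : r ≤ 1) (he : r ≤ 175 / 1000 ∨ 305 / 1000 ≤ r) (hI : Inn x0 lam x ξ) :
    win (lam * |y.im|) x r - 2 * ll r ≤ TP y t r ξ - 1 / 2000 := by
  have hh0 : 0 ≤ lam * |y.im| := mul_nonneg hI.l0 (abs_nonneg _)
  have hh1 : lam * |y.im| ≤ 55 / 1000 := by
    have := HN_abs_mul hI.l0 hI.l1 (HN_abs_yim H)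
    rwa [abs_mul, abs_of_nonneg hI.l0] at this
  by_cases c1 : r ≤ 17 / 100
  · have k1 := slp_low hh0 hh1 hI.x1 h1 c1 (by norm_num)
    have k2 := reale_rf H hx0 (r := 17 / 100) le_rfl (by norm_num) (Or.inl (by norm_num)) hI
    have k3 := HF_slope H (ξ := ξ) c1
    rw [HF_win hI.l0 le_rfl (by norm_num) hI.x1] at k2
    linarith [k3.1]
  by_cases c2 : r ≤ 31 / 100
  · have k2 := reale_rf H hx0 (by linarith) c2 he hI
    rwa [HF_win hI.l0 (by linarith) c2 hI.x1] at k2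
  by_cases c3 : r ≤ 1 / 2
  · have c4 : 31 / 100 ≤ r := by linarith
    have k1 := slp_mid hh0 hh1 hI.x1 (by norm_num) c4 c3
    have k2 := reale_rf H hx0 (r := 31 / 100) (by norm_num) le_rfl (Or.inr (by norm_num)) hI
    have k3 := HF_slope H (ξ := ξ) c4
    rw [HF_win hI.l0 (by norm_num) le_rfl hI.x1] at k2
    linarith [k3.2]
  · have k1 := high (x := x) hh0 (r := r) (by linarith) h2
    have k2 := HF_big H (r := r) (by linarith) h2 (HF_xi hx0 hI)
    have k3 := Real.pi_lt_d4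
    have k4 : 2 * Real.pi * (lam * |y.im|) ≤ 2 * 3.1416 * (55 / 1000) := by
      have := Real.pi_pos
      nlinarith
    norm_num at k4
    linarith

theorem rf_real {y t : ℂ} (H : RF y t) {x0 r lam x ξ : ℝ} (hx0 : |x0| ≤ 1 / 10)
    (h1 : 0 ≤ r) (h2 : r ≤ 1) (hI : Inn x0 lam x ξ) :
    win (lam * |y.im|) x r - 2 * ll r ≤ TP y t r ξ + 1 / 200 := by
  by_cases c1 : r ≤ 17 / 100
  · have := rf_realfar H hx0 h1 h2 (Or.inl (by linarith)) hI
    linarith
  by_cases c2 : r ≤ 31 / 100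
  · have k2 := real_rf H hx0 (by linarith) c2 hI
    rwa [HF_win hI.l0 (by linarith) c2 hI.x1] at k2
  · have := rf_realfar H hx0 h1 h2 (Or.inr (by linarith)) hI
    linarith

theorem rf_far {y t : ℂ} (H : RF y t) {x0 r x : ℝ} (hx0 : |x0| ≤ 1 / 10) (h1 : 0 ≤ r)
    (h2 : r ≤ 1) (h3 : 17 / 100 ≤ |x|) (h4 : |x| ≤ 1 / 2) :
    win 0 x r - 2 * ll r ≤ TP y t r x0 - 1 / 100 := by
  have habs : |(17 / 100 : ℝ)| = 17 / 100 := abs_of_pos (by norm_num)
  -- the window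
  have hmid : ∀ r' : ℝ, 17 / 100 ≤ r' → r' ≤ 31 / 100 →
      win 0 (17 / 100) r' - 2 * ll r' ≤ TP y t r' x0 - 1 / 50 := by
    intro r' a1 a2
    have k1 := win_gam (x := 17 / 100) (η := 0) (r := r') (by linarith)
      (by rw [habs]; linarith)
    have k2 := gap a1 a2 hx0 habs
    have k3 := tge_rf H a1 a2 (ξ := x0) (hx0.trans (by norm_num))
    rw [Complex.ofReal_zero, zero_mul, add_zero, abs_zero] at k1
    linarith
  by_cases c3 : r ≤ 1 / 2
  · have k0 := win0_anti h3 h4 h1 c3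
    by_cases c1 : r ≤ 17 / 100
    · have k1 := slp_low (h := 0) (x := 17 / 100) le_rfl (by norm_num) habs.le h1 c1
        (by norm_num)
      have k2 := hmid (17 / 100) le_rfl (by norm_num)
      have k3 := HF_slope H (ξ := x0) c1
      linarith [k3.1]
    by_cases c2 : r ≤ 31 / 100
    · have k2 := hmid r (by linarith) c2
      linarith
    · have c4 : 31 / 100 ≤ r := by linarith
      have k1 := slp_mid (h := 0) (x := 17 / 100) le_rfl (by norm_num) habs.le (by norm_num) c4 c3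
      have k2 := hmid (31 / 100) (by norm_num) le_rfl
      have k3 := HF_slope H (ξ := x0) c4
      linarith [k3.2]
  · have k1 := high (x := x) (h := 0) le_rfl (r := r) (by linarith) h2
    have k2 := HF_big H (r := r) (ξ := x0) (by linarith) h2 (hx0.trans (by norm_num))
    rw [mul_zero] at k1
    linarith

end Pool.Agent.XV
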