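import Pool.Agent.XV.Ash

/-!
# XV KAP: bounds for `kapf`

`Y = π y`, `Z = π z`, `w = tan Y cos Z`, `kapf y z = Ash w * (tan Y / Y) * cos Z` (for `y ≠ 0`;
`TB.sl y = dslope (sin π ·) 0 y`, `y * TB.sl y = sin (π y)`, and `TB.sl 0 = π`).

`tq_bd`, `cs_bd`: power series: `‖tan Y / Y - 1 - Y ^ 2 / 3‖ ≤ tan ‖Y‖ / ‖Y‖ - 1 - ‖Y‖ ^ 2 / 3` and
`‖cos Z - 1 + Z ^ 2 / 2‖ ≤ cosh ‖Z‖ - 1 - ‖Z‖ ^ 2 / 2`.  (Without the series of `tan`: estimate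
`sin Y / Y - cos Y (1 + Y ^ 2 / 3) = O (Y ^ 4)`, namely the coefficient of `Y ^ 4` is
`1/120 - 1/24 + 1/6 = 2/15`, and divide by `cos Y`, `‖cos Y‖ ≥ cos ‖Y‖`.)

`kap_small`: `‖Y‖, ‖Z‖ ≤ 0.3155`; `a = ‖Ash w - 1‖ ≤ ‖w‖ ^ 2 / 6 + 1/600 ≤ 0.0213` where
`‖w‖ ≤ 0.343`, `b = ‖tan Y / Y - 1‖ ≤ 0.0348`, `c = ‖cos Z - 1‖ ≤ 0.0503`;
`Ash w * (tan Y / Y) * cos Z - 1` is `(Ash w - 1) + (tan Y / Y - 1) + (cos Z - 1)` plus products, which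
are together at most `a b + a c + b c + a b c ≤ 0.0037`; the sum of the three is
`- w ^ 2 / 6 + Y ^ 2 / 3 - Z ^ 2 / 2` up to `1/600 + 0.0016 + 0.0005`, and
`‖w ^ 2 - Y ^ 2‖ ≤ ‖Y‖ ^ 2 ((1.0348 * 1.0503) ^ 2 - 1) ≤ 0.0181`, so it is at most
`‖Y‖ ^ 2 / 6 + ‖Z‖ ^ 2 / 2 + 0.0181 / 6 + 0.0038 ≤ 0.0664 + 0.0031 + 0.0038`.  Total `≤ 0.078`.

`kap_big`: the same with `‖Y‖, ‖Z‖ ≤ 0.5027`: `‖w‖ ≤ 0.621`, `a ≤ 0.0643 + 0.042`, `b ≤ 0.0939`,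
`c ≤ 0.1291`; products `≤ 0.0363`; `‖Y‖ ^ 2 / 6 + ‖Z‖ ^ 2 / 2 ≤ 0.1685`, `‖w ^ 2 - Y ^ 2‖ / 6 ≤ 0.0222`,
errors `0.042 + 0.0097 + 0.0028`.  Total `≤ 0.282`.

`kap_diff1`, `kap_diff2`: `ash_diff`, `TB.sl_diff` (Helper9.TB.Contour), `cos (π y) ≠ 0`.

`kap_lip1`, `kap_lip2`: Cauchy's estimate for `kapf - 1` on the discs of radius `0.0596` around the
points of the disc of radius `0.1004`: the derivative is at most `0.3 / 0.0596 ≤ 5.04`; mean value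
inequality on the convex disc.
-/

set_option autoImplicit false

namespace Pool.Agent.XV

open Complex Finset

/-- products of three numbers close to one -/
theorem KAP_gen {u v q Y Z w : ℂ} {R b c a εa εb εc : ℝ} (hR : 0 ≤ R) (hY : ‖Y‖ ≤ R)
    (hZ : ‖Z‖ ≤ R) (hw : w = Y * (1 + v) * (1 + q)) (hu : ‖u + w ^ 2 / 6‖ ≤ εa)
    (hv : ‖v - Y ^ 2 / 3‖ ≤ εb) (hq : ‖q + Z ^ 2 / 2‖ ≤ εc) (hb : b = R ^ 2 / 3 + εb)
    (hc : c = R ^ 2 / 2 + εc) (ha : a = R ^ 2 * ((1 + b) * (1 + c)) ^ 2 / 6 + εa) :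
    ‖(1 + u) * (1 + v) * (1 + q) - 1‖ ≤ R ^ 2 / 6 + R ^ 2 / 2 +
      R ^ 2 * (((1 + b) * (1 + c)) ^ 2 - 1) / 6 + εa + εb + εc +
      (a * b + a * c + b * c + a * b * c) := by
  have hεa : 0 ≤ εa := (norm_nonneg _).trans hu
  have hεb : 0 ≤ εb := (norm_nonneg _).trans hv
  have hεc : 0 ≤ εc := (norm_nonneg _).trans hq
  have hb0 : 0 ≤ b := by rw [hb]; positivity
  have hc0 : 0 ≤ c := by rw [hc]; positivity
  have ha0 : 0 ≤ a := by rw [ha]; positivity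
  have hY2 : ‖Y ^ 2‖ ≤ R ^ 2 := by
    rw [norm_pow]
    exact pow_le_pow_left₀ (norm_nonneg _) hY 2
  have hZ2 : ‖Z ^ 2‖ ≤ R ^ 2 := by
    rw [norm_pow]
    exact pow_le_pow_left₀ (norm_nonneg _) hZ 2
  have hvb : ‖v‖ ≤ b := by
    have h1 : v = Y ^ 2 / 3 + (v - Y ^ 2 / 3) := by ring
    rw [h1, hb]
    refine (norm_add_le _ _).trans (add_le_add ?_ hv)
    have e1 : ‖Y ^ 2 / 3‖ = ‖Y ^ 2‖ / 3 := by rw [norm_div]; norm_num
    rw [e1]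
    linarith
  have hqc : ‖q‖ ≤ c := by
    have h1 : q = -(Z ^ 2 / 2) + (q + Z ^ 2 / 2) := by ring
    rw [h1, hc]
    refine (norm_add_le _ _).trans (add_le_add ?_ hq)
    have e1 : ‖-(Z ^ 2 / 2)‖ = ‖Z ^ 2‖ / 2 := by rw [norm_neg, norm_div]; norm_num
    rw [e1]
    linarith
  have h1v : ‖1 + v‖ ≤ 1 + b := (norm_add_le _ _).trans (by rw [norm_one]; linarith)
  have h1q : ‖1 + q‖ ≤ 1 + c := (norm_add_le _ _).trans (by rw [norm_one]; linarith)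
  have hw2 : ‖w ^ 2‖ ≤ R ^ 2 * ((1 + b) * (1 + c)) ^ 2 := by
    have h2 : w ^ 2 = Y ^ 2 * ((1 + v) * (1 + q)) ^ 2 := by rw [hw]; ring
    rw [h2, norm_mul, norm_pow ((1 + v) * (1 + q)), norm_mul (1 + v)]
    gcongr
  have hm : ‖(1 + v) * (1 + q) - 1‖ ≤ (1 + b) * (1 + c) - 1 := by
    have h2 : (1 + v) * (1 + q) - 1 = v + q + v * q := by ring
    rw [h2]
    calc ‖v + q + v * q‖ ≤ ‖v‖ + ‖q‖ + ‖v‖ * ‖q‖ := by
          refine (norm_add_le _ _).trans (add_le_add (norm_add_le _ _) ?_)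
          rw [norm_mul]
      _ ≤ b + c + b * c := by gcongr
      _ = _ := by ring
  have hwY : ‖w ^ 2 - Y ^ 2‖ ≤ R ^ 2 * (((1 + b) * (1 + c)) ^ 2 - 1) := by
    set m := (1 + v) * (1 + q) - 1 with hmdef
    have h2 : w ^ 2 - Y ^ 2 = Y ^ 2 * (2 * m + m ^ 2) := by rw [hw, hmdef]; ring
    rw [h2, norm_mul]
    refine mul_le_mul hY2 ?_ (norm_nonneg _) (by positivity)
    calc ‖2 * m + m ^ 2‖ ≤ 2 * ‖m‖ + ‖m‖ ^ 2 := by
          refine (norm_add_le _ _).trans ?_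
          rw [norm_mul, norm_pow, Complex.norm_two]
      _ ≤ 2 * ((1 + b) * (1 + c) - 1) + ((1 + b) * (1 + c) - 1) ^ 2 := by gcongr
      _ = _ := by ring
  have hua : ‖u‖ ≤ a := by
    have h1 : u = -(w ^ 2 / 6) + (u + w ^ 2 / 6) := by ring
    rw [h1, ha]
    refine (norm_add_le _ _).trans (add_le_add ?_ hu)
    rw [norm_neg, norm_div]
    norm_num
    norm_num at hw2
    linarith
  have hlin : ‖u + v + q‖ ≤ R ^ 2 / 6 + R ^ 2 / 2 +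
      R ^ 2 * (((1 + b) * (1 + c)) ^ 2 - 1) / 6 + εa + εb + εc := by
    have h2 : u + v + q = Y ^ 2 / 6 + -(Z ^ 2 / 2) + -((w ^ 2 - Y ^ 2) / 6) + (u + w ^ 2 / 6) +
        (v - Y ^ 2 / 3) + (q + Z ^ 2 / 2) := by ring
    rw [h2]
    have g1 : ‖Y ^ 2 / 6‖ ≤ R ^ 2 / 6 := by
      rw [norm_div]
      norm_num
      norm_num at hY2
      linarith
    have g2 : ‖-(Z ^ 2 / 2)‖ ≤ R ^ 2 / 2 := by
      rw [norm_neg, norm_div]
      norm_num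
      norm_num at hZ2
      linarith
    have g3 : ‖-((w ^ 2 - Y ^ 2) / 6)‖ ≤ R ^ 2 * (((1 + b) * (1 + c)) ^ 2 - 1) / 6 := by
      rw [norm_neg, norm_div]
      have : ‖(6 : ℂ)‖ = 6 := by norm_num
      rw [this]
      linarith
    have k1 := norm_add_le (Y ^ 2 / 6 + -(Z ^ 2 / 2) + -((w ^ 2 - Y ^ 2) / 6) + (u + w ^ 2 / 6) +
        (v - Y ^ 2 / 3)) (q + Z ^ 2 / 2)
    have k2 := norm_add_le (Y ^ 2 / 6 + -(Z ^ 2 / 2) + -((w ^ 2 - Y ^ 2) / 6) + (u + w ^ 2 / 6))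
        (v - Y ^ 2 / 3)
    have k3 := norm_add_le (Y ^ 2 / 6 + -(Z ^ 2 / 2) + -((w ^ 2 - Y ^ 2) / 6)) (u + w ^ 2 / 6)
    have k4 := norm_add_le (Y ^ 2 / 6 + -(Z ^ 2 / 2)) (-((w ^ 2 - Y ^ 2) / 6))
    have k5 := norm_add_le (Y ^ 2 / 6) (-(Z ^ 2 / 2))
    linarith
  have h3 : (1 + u) * (1 + v) * (1 + q) - 1 = (u + v + q) + (u * v + u * q + v * q + u * v * q) := by
    ring
  rw [h3]
  refine (norm_add_le _ _).trans (add_le_add hlin ?_)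
  calc ‖u * v + u * q + v * q + u * v * q‖ ≤ ‖u * v‖ + ‖u * q‖ + ‖v * q‖ + ‖u * v * q‖ :=
        (norm_add_le _ _).trans (add_le_add ((norm_add_le _ _).trans
          (add_le_add (norm_add_le _ _) le_rfl)) le_rfl)
    _ = ‖u‖ * ‖v‖ + ‖u‖ * ‖q‖ + ‖v‖ * ‖q‖ + ‖u‖ * ‖v‖ * ‖q‖ := by
        rw [norm_mul, norm_mul, norm_mul, norm_mul, norm_mul]
    _ ≤ _ := by gcongr

theorem KAP_cos {Y : ℂ} (h : ‖Y‖ ≤ 1) :
    ‖Complex.cos Y - (1 - Y ^ 2 / 2 + Y ^ 4 / 24)‖ ≤ 7 / 4320 * ‖Y‖ ^ 6 := by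
  have hn1 : ‖Y * I‖ = ‖Y‖ := by rw [norm_mul, Complex.norm_I, mul_one]
  have hn2 : ‖-Y * I‖ = ‖Y‖ := by rw [norm_mul, norm_neg, Complex.norm_I, mul_one]
  have h1 := Complex.exp_bound (x := Y * I) (by rw [hn1]; exact h) (n := 6) (by norm_num)
  have h2 := Complex.exp_bound (x := -Y * I) (by rw [hn2]; exact h) (n := 6) (by norm_num)
  rw [hn1] at h1
  rw [hn2] at h2
  have hI2 := Complex.I_sq
  have h3 : Complex.cos Y - (1 - Y ^ 2 / 2 + Y ^ 4 / 24) =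
      ((Complex.exp (Y * I) - ∑ m ∈ Finset.range 6, (Y * I) ^ m / (m.factorial : ℂ)) +
       (Complex.exp (-Y * I) - ∑ m ∈ Finset.range 6, (-Y * I) ^ m / (m.factorial : ℂ))) / 2 := by
    rw [Complex.cos]
    simp only [Finset.sum_range_succ, Finset.sum_range_zero, Nat.factorial]
    push_cast
    have hI4 : I ^ 4 = 1 := by rw [show (4 : ℕ) = 2 * 2 from rfl, pow_mul, hI2]; norm_num
    ring_nf
    rw [hI2, hI4]
    ring
  rw [h3, norm_div, Complex.norm_two]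
  have h4 := norm_add_le (Complex.exp (Y * I) -
      ∑ m ∈ Finset.range 6, (Y * I) ^ m / (m.factorial : ℂ))
    (Complex.exp (-Y * I) - ∑ m ∈ Finset.range 6, (-Y * I) ^ m / (m.factorial : ℂ))
  have h5 : ((Nat.succ 6 : ℕ) : ℝ) * (((Nat.factorial 6 : ℕ) : ℝ) * ((6 : ℕ) : ℝ))⁻¹ = 7 / 4320 := by
    norm_num [Nat.factorial]
  rw [h5] at h1 h2
  rw [div_le_iff₀ (by norm_num)]
  linarith

theorem KAP_sin {Y : ℂ} (h : ‖Y‖ ≤ 1) :
    ‖Complex.sin Y - (Y - Y ^ 3 / 6 + Y ^ 5 / 120)‖ ≤ 1 / 4410 * ‖Y‖ ^ 7 := by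
  have hn1 : ‖Y * I‖ = ‖Y‖ := by rw [norm_mul, Complex.norm_I, mul_one]
  have hn2 : ‖-Y * I‖ = ‖Y‖ := by rw [norm_mul, norm_neg, Complex.norm_I, mul_one]
  have h1 := Complex.exp_bound (x := Y * I) (by rw [hn1]; exact h) (n := 7) (by norm_num)
  have h2 := Complex.exp_bound (x := -Y * I) (by rw [hn2]; exact h) (n := 7) (by norm_num)
  rw [hn1] at h1
  rw [hn2] at h2
  have hI2 := Complex.I_sq
  have h3 : Complex.sin Y - (Y - Y ^ 3 / 6 + Y ^ 5 / 120) =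
      (((Complex.exp (-Y * I) - ∑ m ∈ Finset.range 7, (-Y * I) ^ m / (m.factorial : ℂ)) -
       (Complex.exp (Y * I) - ∑ m ∈ Finset.range 7, (Y * I) ^ m / (m.factorial : ℂ))) * I) / 2 := by
    rw [Complex.sin]
    simp only [Finset.sum_range_succ, Finset.sum_range_zero, Nat.factorial]
    push_cast
    have hI4 : I ^ 4 = 1 := by rw [show (4 : ℕ) = 2 * 2 from rfl, pow_mul, hI2]; norm_num
    have hI6 : I ^ 6 = -1 := by rw [show (6 : ℕ) = 2 * 3 from rfl, pow_mul, hI2]; norm_num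
    ring_nf
    rw [hI2, hI4, hI6]
    ring
  rw [h3, norm_div, norm_mul, Complex.norm_I, mul_one, Complex.norm_two]
  have h4 := norm_sub_le (Complex.exp (-Y * I) -
      ∑ m ∈ Finset.range 7, (-Y * I) ^ m / (m.factorial : ℂ))
    (Complex.exp (Y * I) - ∑ m ∈ Finset.range 7, (Y * I) ^ m / (m.factorial : ℂ))
  have h5 : ((Nat.succ 7 : ℕ) : ℝ) * (((Nat.factorial 7 : ℕ) : ℝ) * ((7 : ℕ) : ℝ))⁻¹ = 1 / 4410 := by
    norm_num [Nat.factorial]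
  rw [h5] at h1 h2
  rw [div_le_iff₀ (by norm_num)]
  linarith

/-- lower bound of the cosine -/
theorem KAP_cos_ge {Y : ℂ} {R : ℝ} (hY : ‖Y‖ ≤ R) (hR : R ≤ 1) :
    1 - R ^ 2 / 2 - R ^ 4 / 24 - 7 / 4320 * R ^ 6 ≤ ‖Complex.cos Y‖ := by
  have h0 := norm_nonneg Y
  have h1 := KAP_cos (hY.trans hR)
  have h2 : (1 : ℂ) = Complex.cos Y - (Complex.cos Y - (1 - Y ^ 2 / 2 + Y ^ 4 / 24)) +
      (Y ^ 2 / 2 - Y ^ 4 / 24) := by ring
  have h3 : (1 : ℝ) ≤ ‖Complex.cos Y‖ + 7 / 4320 * ‖Y‖ ^ 6 + (‖Y‖ ^ 2 / 2 + ‖Y‖ ^ 4 / 24) := by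
    calc (1 : ℝ) = ‖(1 : ℂ)‖ := norm_one.symm
      _ = ‖Complex.cos Y - (Complex.cos Y - (1 - Y ^ 2 / 2 + Y ^ 4 / 24)) +
          (Y ^ 2 / 2 - Y ^ 4 / 24)‖ := by rw [← h2]
      _ ≤ (‖Complex.cos Y‖ + ‖Complex.cos Y - (1 - Y ^ 2 / 2 + Y ^ 4 / 24)‖) +
          (‖Y ^ 2 / 2‖ + ‖Y ^ 4 / 24‖) :=
          (norm_add_le _ _).trans (add_le_add (norm_sub_le _ _) (norm_sub_le _ _))
      _ ≤ _ := by
          have e1 : ‖Y ^ 2 / 2‖ = ‖Y‖ ^ 2 / 2 := by rw [norm_div, norm_pow]; norm_num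
          have e2 : ‖Y ^ 4 / 24‖ = ‖Y‖ ^ 4 / 24 := by rw [norm_div, norm_pow]; norm_num
          rw [e1, e2]
          linarith
  have g2 := pow_le_pow_left₀ h0 hY 2
  have g4 := pow_le_pow_left₀ h0 hY 4
  have g6 := pow_le_pow_left₀ h0 hY 6
  linarith

theorem KAP_tan {Y : ℂ} {R ε : ℝ} (hY : ‖Y‖ ≤ R) (hR : R ≤ 1) (hY0 : Y ≠ 0)
    (hκ : 0 < 1 - R ^ 2 / 2 - R ^ 4 / 24 - 7 / 4320 * R ^ 6)
    (hε : 2 / 15 * R ^ 4 + R ^ 6 / 72 + R ^ 6 / 4410 + 7 / 4320 * R ^ 6 * (1 + R ^ 2 / 3) ≤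
      ε * (1 - R ^ 2 / 2 - R ^ 4 / 24 - 7 / 4320 * R ^ 6)) (hε0 : 0 ≤ ε) :
    ‖Complex.sin Y / (Y * Complex.cos Y) - 1 - Y ^ 2 / 3‖ ≤ ε := by
  have h0 : 0 < ‖Y‖ := norm_pos_iff.2 hY0
  have hR0 : 0 < R := h0.trans_le hY
  have hc := KAP_cos_ge hY hR
  have hcp : 0 < ‖Complex.cos Y‖ := hκ.trans_le hc
  have hc0 : Complex.cos Y ≠ 0 := norm_pos_iff.1 hcp
  have h1 := KAP_cos (hY.trans hR)
  have h2 := KAP_sin (hY.trans hR)
  set e2 := Complex.cos Y - (1 - Y ^ 2 / 2 + Y ^ 4 / 24) with he2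
  set e1 := Complex.sin Y - (Y - Y ^ 3 / 6 + Y ^ 5 / 120) with he1
  have h3 : Complex.sin Y / (Y * Complex.cos Y) - 1 - Y ^ 2 / 3 =
      (2 / 15 * Y ^ 4 + -(Y ^ 6 / 72) + e1 / Y + -(e2 * (1 + Y ^ 2 / 3))) / Complex.cos Y := by
    have h4 : Complex.sin Y = (Y - Y ^ 3 / 6 + Y ^ 5 / 120) + e1 := by rw [he1]; ring
    have h5 : e2 = Complex.cos Y - (1 - Y ^ 2 / 2 + Y ^ 4 / 24) := he2
    rw [h4, h5]
    field_simp
    ring
  rw [h3, norm_div, div_le_iff₀ hcp]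
  have k1 : ‖e1 / Y‖ ≤ 1 / 4410 * ‖Y‖ ^ 6 := by
    rw [norm_div, div_le_iff₀ h0]
    calc ‖e1‖ ≤ 1 / 4410 * ‖Y‖ ^ 7 := h2
      _ = _ := by ring
  have k2 : ‖-(e2 * (1 + Y ^ 2 / 3))‖ ≤ 7 / 4320 * ‖Y‖ ^ 6 * (1 + ‖Y‖ ^ 2 / 3) := by
    rw [norm_neg, norm_mul]
    refine mul_le_mul h1 ?_ (norm_nonneg _) (by positivity)
    refine (norm_add_le _ _).trans ?_
    rw [norm_one, norm_div, norm_pow]
    norm_num
  have k3 : ‖2 / 15 * Y ^ 4‖ = 2 / 15 * ‖Y‖ ^ 4 := by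
    rw [norm_mul, norm_pow]
    norm_num
  have k4 : ‖-(Y ^ 6 / 72)‖ = ‖Y‖ ^ 6 / 72 := by
    rw [norm_neg, norm_div, norm_pow]
    norm_num
  have l1 := norm_add_le (2 / 15 * Y ^ 4 + -(Y ^ 6 / 72) + e1 / Y) (-(e2 * (1 + Y ^ 2 / 3)))
  have l2 := norm_add_le (2 / 15 * Y ^ 4 + -(Y ^ 6 / 72)) (e1 / Y)
  have l3 := norm_add_le (2 / 15 * Y ^ 4) (-(Y ^ 6 / 72))
  have g2 := pow_le_pow_left₀ h0.le hY 2
  have g4 := pow_le_pow_left₀ h0.le hY 4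
  have g6 := pow_le_pow_left₀ h0.le hY 6
  have g8 : 7 / 4320 * ‖Y‖ ^ 6 * (1 + ‖Y‖ ^ 2 / 3) ≤ 7 / 4320 * R ^ 6 * (1 + R ^ 2 / 3) := by
    gcongr
  have m1 : ε * (1 - R ^ 2 / 2 - R ^ 4 / 24 - 7 / 4320 * R ^ 6) ≤ ε * ‖Complex.cos Y‖ :=
    mul_le_mul_of_nonneg_left hc hε0
  linarith

theorem KAP_sl_zero : Pool.Agent.Helper9.TB.sl 0 = Real.pi := by
  unfold Pool.Agent.Helper9.TB.sl
  rw [dslope_same]
  have : HasDerivAt (fun z : ℂ => Complex.sin (Real.pi * z)) (Real.pi : ℂ) 0 := by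
    have h1 := ((hasDerivAt_id (0 : ℂ)).const_mul (Real.pi : ℂ)).csin
    simpa using h1
  rw [this.deriv]

/-- the factor `tan Y / Y` -/
noncomputable def KAPt (y : ℂ) : ℂ :=
  Pool.Agent.Helper9.TB.sl y / (Real.pi * Complex.cos (Real.pi * y))

theorem KAPt_mul (y : ℂ) : (Real.pi * y) * KAPt y = Complex.tan (Real.pi * y) := by
  unfold KAPt
  have h1 := Pool.Agent.Helper9.TB.sl_mul y
  have hpi : (Real.pi : ℂ) ≠ 0 := by exact_mod_cast Real.pi_ne_zero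
  rw [Complex.tan, ← h1]
  by_cases hc : Complex.cos (Real.pi * y) = 0
  · rw [hc]
    simp
  · field_simp

theorem KAPt_bd {y : ℂ} {R ε : ℝ} (hY : ‖(Real.pi : ℂ) * y‖ ≤ R) (hR : R ≤ 1)
    (hκ : 0 < 1 - R ^ 2 / 2 - R ^ 4 / 24 - 7 / 4320 * R ^ 6)
    (hε : 2 / 15 * R ^ 4 + R ^ 6 / 72 + R ^ 6 / 4410 + 7 / 4320 * R ^ 6 * (1 + R ^ 2 / 3) ≤
      ε * (1 - R ^ 2 / 2 - R ^ 4 / 24 - 7 / 4320 * R ^ 6)) (hε0 : 0 ≤ ε) :
    ‖(KAPt y - 1) - (Real.pi * y) ^ 2 / 3‖ ≤ ε := by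
  have hpi : (Real.pi : ℂ) ≠ 0 := by exact_mod_cast Real.pi_ne_zero
  by_cases hy : y = 0
  · rw [hy]
    unfold KAPt
    rw [KAP_sl_zero]
    simp only [mul_zero, Complex.cos_zero, mul_one]
    rw [div_self hpi]
    simpa using hε0
  · have hY0 : (Real.pi : ℂ) * y ≠ 0 := mul_ne_zero hpi hy
    have h1 := KAP_tan hY hR hY0 hκ hε hε0
    have h2 : KAPt y = Complex.sin (Real.pi * y) / ((Real.pi * y) * Complex.cos (Real.pi * y)) := by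
      unfold KAPt
      rw [← Pool.Agent.Helper9.TB.sl_mul y]
      by_cases hc : Complex.cos (Real.pi * y) = 0
      · rw [hc]
        simp
      · field_simp
    rw [h2]
    exact h1

theorem KAP_norm {y : ℂ} {r R : ℝ} (hy : ‖y‖ ≤ r) (hR : 3141593 / 1000000 * r ≤ R) :
    ‖(Real.pi : ℂ) * y‖ ≤ R := by
  have hpi := Real.pi_lt_d6
  rw [norm_mul, Complex.norm_real, Real.norm_of_nonneg Real.pi_pos.le]
  have h0 := norm_nonneg y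
  calc Real.pi * ‖y‖ ≤ 3141593 / 1000000 * r := by
        refine mul_le_mul (by linarith) hy h0 (by norm_num)
    _ ≤ R := hR

theorem KAP_w (y z : ℂ) : Complex.tan (Real.pi * y) * Complex.cos (Real.pi * z) =
    (Real.pi * y) * (1 + (KAPt y - 1)) * (1 + (Complex.cos (Real.pi * z) - 1)) := by
  rw [← KAPt_mul y]
  ring

theorem KAP_eq (y z : ℂ) : kapf y z = (1 + (Ash (Complex.tan (Real.pi * y) *
    Complex.cos (Real.pi * z)) - 1)) * (1 + (KAPt y - 1)) *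
    (1 + (Complex.cos (Real.pi * z) - 1)) := by
  unfold kapf KAPt
  ring

theorem KAP_cosbd {Z : ℂ} {R ε : ℝ} (hZ : ‖Z‖ ≤ R) (hR : R ≤ 1)
    (hε : R ^ 4 / 24 + 7 / 4320 * R ^ 6 ≤ ε) : ‖(Complex.cos Z - 1) + Z ^ 2 / 2‖ ≤ ε := by
  have h1 := KAP_cos (hZ.trans hR)
  have h2 : (Complex.cos Z - 1) + Z ^ 2 / 2 =
      (Complex.cos Z - (1 - Z ^ 2 / 2 + Z ^ 4 / 24)) + Z ^ 4 / 24 := by ring
  rw [h2]
  have h3 : ‖Z ^ 4 / 24‖ = ‖Z‖ ^ 4 / 24 := by rw [norm_div, norm_pow]; norm_num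
  have h4 := norm_add_le (Complex.cos Z - (1 - Z ^ 2 / 2 + Z ^ 4 / 24)) (Z ^ 4 / 24)
  rw [h3] at h4
  have g4 := pow_le_pow_left₀ (norm_nonneg Z) hZ 4
  have g6 := pow_le_pow_left₀ (norm_nonneg Z) hZ 6
  linarith

/-- bound of the argument of `Ash` -/
theorem KAP_wbd {v q Y Z : ℂ} {R εb εc : ℝ} (hR : 0 ≤ R) (hY : ‖Y‖ ≤ R)
    (hZ : ‖Z‖ ≤ R) (hv : ‖v - Y ^ 2 / 3‖ ≤ εb) (hq : ‖q + Z ^ 2 / 2‖ ≤ εc) :
    ‖Y * (1 + v) * (1 + q)‖ ≤ R * (1 + (R ^ 2 / 3 + εb)) * (1 + (R ^ 2 / 2 + εc)) := by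
  have hY2 : ‖Y ^ 2‖ ≤ R ^ 2 := by
    rw [norm_pow]
    exact pow_le_pow_left₀ (norm_nonneg _) hY 2
  have hZ2 : ‖Z ^ 2‖ ≤ R ^ 2 := by
    rw [norm_pow]
    exact pow_le_pow_left₀ (norm_nonneg _) hZ 2
  have h1 : ‖1 + v‖ ≤ 1 + (R ^ 2 / 3 + εb) := by
    have h2 : 1 + v = 1 + (Y ^ 2 / 3 + (v - Y ^ 2 / 3)) := by ring
    rw [h2]
    refine (norm_add_le _ _).trans ?_
    rw [norm_one]
    have h3 := norm_add_le (Y ^ 2 / 3) (v - Y ^ 2 / 3)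
    have h4 : ‖Y ^ 2 / 3‖ = ‖Y ^ 2‖ / 3 := by rw [norm_div]; norm_num
    rw [h4] at h3
    linarith
  have h5 : ‖1 + q‖ ≤ 1 + (R ^ 2 / 2 + εc) := by
    have h2 : 1 + q = 1 + (-(Z ^ 2 / 2) + (q + Z ^ 2 / 2)) := by ring
    rw [h2]
    refine (norm_add_le _ _).trans ?_
    rw [norm_one]
    have h3 := norm_add_le (-(Z ^ 2 / 2)) (q + Z ^ 2 / 2)
    have h4 : ‖-(Z ^ 2 / 2)‖ = ‖Z ^ 2‖ / 2 := by rw [norm_neg, norm_div]; norm_num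
    rw [h4] at h3
    linarith
  have hεb : 0 ≤ εb := (norm_nonneg _).trans hv
  rw [norm_mul, norm_mul]
  gcongr

theorem KAP_w1 {y z : ℂ} (hy : ‖y‖ ≤ 1004 / 10000) (hz : ‖z‖ ≤ 1004 / 10000) :
    ‖Complex.tan (Real.pi * y) * Complex.cos (Real.pi * z)‖ ≤ 35 / 100 := by
  have hY := KAP_norm hy (R := 3155 / 10000) (by norm_num)
  have hZ := KAP_norm hz (R := 3155 / 10000) (by norm_num)
  rw [KAP_w]
  refine (KAP_wbd (εb := 16 / 10000) (εc := 5 / 10000) (by norm_num) hY hZ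
    (KAPt_bd hY (by norm_num) (by norm_num) (by norm_num) (by norm_num))
    (KAP_cosbd hZ (by norm_num) (by norm_num))).trans ?_
  norm_num

theorem KAP_w2 {y z : ℂ} (hy : ‖y‖ ≤ 4 / 25) (hz : ‖z‖ ≤ 4 / 25) :
    ‖Complex.tan (Real.pi * y) * Complex.cos (Real.pi * z)‖ ≤ 63 / 100 := by
  have hY := KAP_norm hy (R := 5027 / 10000) (by norm_num)
  have hZ := KAP_norm hz (R := 5027 / 10000) (by norm_num)
  rw [KAP_w]
  refine (KAP_wbd (εb := 101 / 10000) (εc := 27 / 10000) (by norm_num) hY hZ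
    (KAPt_bd hY (by norm_num) (by norm_num) (by norm_num) (by norm_num))
    (KAP_cosbd hZ (by norm_num) (by norm_num))).trans ?_
  norm_num

theorem kap_small {y z : ℂ} (hy : ‖y‖ ≤ 1004 / 10000) (hz : ‖z‖ ≤ 1004 / 10000) :
    ‖kapf y z - 1‖ ≤ 2 / 25 := by
  have hY := KAP_norm hy (R := 3155 / 10000) (by norm_num)
  have hZ := KAP_norm hz (R := 3155 / 10000) (by norm_num)
  have hw := ash_bd1 (KAP_w1 hy hz)
  rw [KAP_eq]
  refine (KAP_gen (R := 3155 / 10000) (εa := 1 / 600) (εb := 16 / 10000) (εc := 5 / 10000)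
    (by norm_num) hY hZ (KAP_w y z) hw
    (KAPt_bd hY (by norm_num) (by norm_num) (by norm_num) (by norm_num))
    (KAP_cosbd hZ (by norm_num) (by norm_num)) rfl rfl rfl).trans ?_
  norm_num

theorem kap_big {y z : ℂ} (hy : ‖y‖ ≤ 4 / 25) (hz : ‖z‖ ≤ 4 / 25) : ‖kapf y z - 1‖ ≤ 3 / 10 := by
  have hY := KAP_norm hy (R := 5027 / 10000) (by norm_num)
  have hZ := KAP_norm hz (R := 5027 / 10000) (by norm_num)
  have hw := ash_bd2 (KAP_w2 hy hz)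
  rw [KAP_eq]
  refine (KAP_gen (R := 5027 / 10000) (εa := 42 / 1000) (εb := 101 / 10000) (εc := 27 / 10000)
    (by norm_num) hY hZ (KAP_w y z) hw
    (KAPt_bd hY (by norm_num) (by norm_num) (by norm_num) (by norm_num))
    (KAP_cosbd hZ (by norm_num) (by norm_num)) rfl rfl rfl).trans ?_
  norm_num

theorem KAP_cos_ne {y : ℂ} (hy : ‖y‖ ≤ 4 / 25) : Complex.cos (Real.pi * y) ≠ 0 := by
  have hY := KAP_norm hy (R := 5027 / 10000) (by norm_num)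
  have h1 := KAP_cos_ge hY (by norm_num)
  have h2 : (0 : ℝ) < 1 - (5027 / 10000) ^ 2 / 2 - (5027 / 10000) ^ 4 / 24 -
      7 / 4320 * (5027 / 10000) ^ 6 := by norm_num
  exact norm_pos_iff.1 (h2.trans_le h1)

theorem KAP_ash {w : ℂ} (hw : ‖w‖ ≤ 63 / 100) : DifferentiableAt ℂ Ash w :=
  (ash_diff w (mem_ball_zero_iff.2 (by linarith))).differentiableAt
    (Metric.isOpen_ball.mem_nhds (mem_ball_zero_iff.2 (by linarith)))

theorem KAP_dy {y z : ℂ} (hy : ‖y‖ ≤ 4 / 25) (hz : ‖z‖ ≤ 4 / 25) :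
    DifferentiableAt ℂ (fun y => kapf y z) y := by
  have hc := KAP_cos_ne hy
  have hpi : (Real.pi : ℂ) ≠ 0 := by exact_mod_cast Real.pi_ne_zero
  unfold kapf
  have h1 : DifferentiableAt ℂ (fun y : ℂ => Complex.tan (Real.pi * y)) y :=
    (Complex.differentiableAt_tan.2 hc).comp y (by fun_prop)
  have h2 : DifferentiableAt ℂ (fun y : ℂ => Complex.tan (Real.pi * y) *
      Complex.cos (Real.pi * z)) y := h1.mul_const _
  have h3 : DifferentiableAt ℂ (fun y : ℂ => Ash (Complex.tan (Real.pi * y) *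
      Complex.cos (Real.pi * z))) y := 
    DifferentiableAt.comp (g := Ash) (f := fun y : ℂ => Complex.tan (Real.pi * y) *
      Complex.cos (Real.pi * z)) y (KAP_ash (KAP_w2 hy hz)) h2
  have h4 : DifferentiableAt ℂ (fun y : ℂ => Pool.Agent.Helper9.TB.sl y /
      (Real.pi * Complex.cos (Real.pi * y))) y := by
    refine (Pool.Agent.Helper9.TB.sl_diff y).div (by fun_prop) (mul_ne_zero hpi hc)
  exact (h3.mul h4).mul_const _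

theorem KAP_dz {y z : ℂ} (hy : ‖y‖ ≤ 4 / 25) (hz : ‖z‖ ≤ 4 / 25) :
    DifferentiableAt ℂ (fun z => kapf y z) z := by
  unfold kapf
  have h2 : DifferentiableAt ℂ (fun z : ℂ => Complex.tan (Real.pi * y) *
      Complex.cos (Real.pi * z)) z := by fun_prop
  have h3 : DifferentiableAt ℂ (fun z : ℂ => Ash (Complex.tan (Real.pi * y) *
      Complex.cos (Real.pi * z))) z := 
    DifferentiableAt.comp (g := Ash) (f := fun z : ℂ => Complex.tan (Real.pi * y) *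
      Complex.cos (Real.pi * z)) z (KAP_ash (KAP_w2 hy hz)) h2
  exact (h3.mul_const _).mul (by fun_prop)

theorem kap_diff1 {z : ℂ} (hz : ‖z‖ ≤ 4 / 25) :
    DifferentiableOn ℂ (fun y => kapf y z) (Metric.closedBall 0 (4 / 25)) := fun _ hy =>
  (KAP_dy (mem_closedBall_zero_iff.1 hy) hz).differentiableWithinAt

theorem kap_diff2 {y : ℂ} (hy : ‖y‖ ≤ 4 / 25) :
    DifferentiableOn ℂ (fun z => kapf y z) (Metric.closedBall 0 (4 / 25)) := fun _ hz =>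
  (KAP_dz hy (mem_closedBall_zero_iff.1 hz)).differentiableWithinAt

/-- Cauchy estimate and mean value inequality -/
theorem KAP_lip {f : ℂ → ℂ} (hd : ∀ y : ℂ, ‖y‖ ≤ 4 / 25 → DifferentiableAt ℂ f y)
    (hb : ∀ y : ℂ, ‖y‖ ≤ 4 / 25 → ‖f y - 1‖ ≤ 3 / 10) {y y' : ℂ} (hy : ‖y‖ ≤ 1004 / 10000)
    (hy' : ‖y'‖ ≤ 1004 / 10000) : ‖f y - f y'‖ ≤ 51 / 10 * ‖y - y'‖ := by
  have hder : ∀ x ∈ Metric.closedBall (0 : ℂ) (1004 / 10000), ‖deriv f x‖ ≤ 51 / 10 := by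
    intro x hx
    rw [mem_closedBall_zero_iff] at hx
    have hsub : ∀ z ∈ Metric.closedBall x (596 / 10000), ‖z‖ ≤ 4 / 25 := by
      intro z hz
      rw [Metric.mem_closedBall, dist_eq_norm] at hz
      have h1 := norm_add_le (z - x) x
      rw [sub_add_cancel] at h1
      linarith
    have hdc : DiffContOnCl ℂ (fun z => f z - 1) (Metric.ball x (596 / 10000)) := by
      refine DifferentiableOn.diffContOnCl ?_
      intro z hz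
      have hz' := hsub z (Metric.closure_ball_subset_closedBall hz)
      exact ((hd z hz').sub_const 1).differentiableWithinAt
    have h2 := Complex.norm_deriv_le_of_forall_mem_sphere_norm_le (c := x) (R := 596 / 10000)
      (C := 3 / 10) (by norm_num) hdc (fun z hz =>
        hb z (hsub z (Metric.sphere_subset_closedBall hz)))
    have h3 : deriv (fun z => f z - 1) x = deriv f x := by
      rw [deriv_sub_const]
    rw [h3] at h2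
    refine h2.trans ?_
    norm_num
  have h4 := (convex_closedBall (0 : ℂ) (1004 / 10000)).norm_image_sub_le_of_norm_deriv_le
    (f := f) (C := 51 / 10) (x := y') (y := y) (fun x hx => hd x (by
      rw [mem_closedBall_zero_iff] at hx
      linarith)) hder (mem_closedBall_zero_iff.2 hy') (mem_closedBall_zero_iff.2 hy)
  exact h4

theorem kap_lip1 {y y' z : ℂ} (hy : ‖y‖ ≤ 1004 / 10000) (hy' : ‖y'‖ ≤ 1004 / 10000)
    (hz : ‖z‖ ≤ 1004 / 10000) : ‖kapf y z - kapf y' z‖ ≤ 51 / 10 * ‖y - y'‖ :=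
  KAP_lip (f := fun y => kapf y z) (fun y h => KAP_dy h (by linarith))
    (fun y h => kap_big h (by linarith)) hy hy'

theorem kap_lip2 {y z z' : ℂ} (hy : ‖y‖ ≤ 1004 / 10000) (hz : ‖z‖ ≤ 1004 / 10000)
    (hz' : ‖z'‖ ≤ 1004 / 10000) : ‖kapf y z - kapf y z'‖ ≤ 51 / 10 * ‖z - z'‖ :=
  KAP_lip (f := fun z => kapf y z) (fun z h => KAP_dz (by linarith) h)
    (fun z h => kap_big (by linarith) h) hz hz'

end Pool.Agent.XV
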