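import Pool.Agent.XV.Tn

/-!
# XV QLB: lower bound of the second derivative

For real `α`, `β`: `(tan (α + i β)).re = sin 2α / (cos 2α + cosh 2β)` and
`(cot (α + i β)).re = sin 2α / (cosh 2β - cos 2α)`.
Let `p = (tan π (t + y)).re`, `m = (tan π (t - y)).re`, `k = (cot π t).re`, `t = r + θ i`,
`y = x + η i`: `(QQ y t a b).re = π (p (b + a) ^ 2 + m (b - a) ^ 2 + 2 k b ^ 2)`; replacing `x, η, a`
by `-x, -η, -a` exchanges `p` and `m`, so let `x ≥ 0`.

Put `A = 2 π r`, `B = 2 π x`, `c = cos A ∈ [-0.3682, 0.4818]`, `s = sin A`, `X = cos B ∈ [0.4817, 1]`,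
`X ≥ c`, `C = 1.1132 ≥ cosh (2 π (|θ| + |η|))`, `H = 1.008 ≥ cosh (2 π θ)`, and
`p0 = sin (A + B) / (cos (A + B) + C)`, `m0 = sin (A - B) / (cos (A - B) + C)`, `k0 = s / (H - c)`.
Then `p ≥ p0`, `m ≥ m0 ≥ 0`, `k ≥ k0` (the numerators are `≥ 0`, the denominators `> 0`).

The claim `π (p (b + a) ^ 2 + m (b - a) ^ 2 + 2 k b ^ 2) ≥ 6 b ^ 2 + (4/5) a ^ 2` follows from
`S = p + m > 0.8 / π` and `Δ p m k ≥ 0`, where (completing the square)
`Δ p m k = (S + 2k - 6/π) (S - 0.8/π) - (p - m) ^ 2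
         = 4 p m + (2 k - c1) S - c2 k + c3`, `c1 = 6.8/π ≤ 2.1646`, `c2 = 1.6/π ≤ 0.5094`,
`c3 = 4.8/π ^ 2 ≥ 0.4863`.  (Or directly: since the left side increases with `p, m, k`, one may first
replace `p, m, k` by `p0, m0, k0`; then no monotonicity of `Δ` is needed.)

`S0 = p0 + m0 ≥ p0 ≥ 0.54 > 0.8/π`: `A + B ∈ [0.34 π, 0.96 π]` and `sin φ / (cos φ + C)` is at least
`0.8763 / 1.5951` up to `φ = π / 2`, and for `φ ≥ π / 2` at least `sin φ / (cos φ + C) ≥ 1.03`
(`sin φ - 1.03 cos φ ≥ 1.03 C = 1.1466` on `[π / 2, 0.96 π]`, concave function, check the ends).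

Closed forms with `Q = c ^ 2 + X ^ 2 - 1 + 2 C c X + C ^ 2 = (cos (A + B) + C) (cos (A - B) + C) > 0`:
`p0 m0 = (X ^ 2 - c ^ 2) / Q`, `p0 + m0 = 2 s (c + C X) / Q`, `k0 s = (1 - c ^ 2) / (H - c)
≥ 0.9847 (1 + c)`.  So (with `c + C X > 0`)
`Q Δ ≥ 4 (X ^ 2 - c ^ 2) + (c + C X) (3.9388 (1 + c) - 4.3292 s) + (c3 - c2 k0) Q`.
* `c ≤ 0`, `g = -c ∈ [0, 0.3682]`: `k0 ≤ 1`, `c3 - c2 k0 ≥ -0.0231`, `Q ≤ c ^ 2 + X ^ 2 + C ^ 2 - 1
  ≤ 1.38`, `s ≤ 1 - g ^ 2 / 2`, so
  `Q Δ ≥ 4 (X ^ 2 - g ^ 2) - (1.1132 X - g) (0.3904 + 3.9388 g - 2.16 g ^ 2) - 0.0319`; the right side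
  increases with `X` and for `X = 0.4817` it decreases with `g`; at `g = 0.3682` it is `≥ 0.09`.
* `c ≥ 0`: `c3 - c2 k0 ≥ 0.4863 - 0.5094 s / (1 - c)`, again everything increases with `X`
  (coefficient of the negative term is small); for `X = max 0.4817 c` the values are
  `≥ 0.7` (`c = 0`), `0.86` (`c = 0.1`), `1.2` (`c = 0.3`), `1.6` (`c = 0.4818`).
(The true minimum of `Δ` is `0.84`, at `r = 31/100`, `x = 17/100`, `|θ| + |η| = 75/1000`.)
-/

set_option autoImplicit false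

namespace Pool.Agent.XV

open Complex Finset

theorem QLB_mono {f f' : ℝ → ℝ} (h0 : f 0 = 0) (hd : ∀ x, HasDerivAt f (f' x) x)
    (hn : ∀ x, 0 ≤ x → 0 ≤ f' x) {x : ℝ} (hx : 0 ≤ x) : 0 ≤ f x := by
  have hm : MonotoneOn f (Set.Ici 0) := by
    refine monotoneOn_of_deriv_nonneg (convex_Ici 0)
      (fun y _ => (hd y).continuousAt.continuousWithinAt)
      (fun y _ => (hd y).differentiableAt.differentiableWithinAt) fun y hy => ?_
    rw [interior_Ici] at hy
    rw [(hd y).deriv]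
    exact hn y (le_of_lt hy)
  have := hm (Set.mem_Ici.2 le_rfl) (Set.mem_Ici.2 hx) hx
  rwa [h0] at this

theorem QLB_s3 {x : ℝ} (hx : 0 ≤ x) : 0 ≤ Real.sin x - (x - x ^ 3 / 6) := by
  refine QLB_mono (f := fun x => Real.sin x - (x - x ^ 3 / 6))
    (f' := fun x => Real.cos x - (1 - x ^ 2 / 2)) (by simp) (fun y => ?_) (fun y _ => ?_) hx
  · refine ((Real.hasDerivAt_sin y).sub ((hasDerivAt_id y).sub
      ((hasDerivAt_pow 3 y).div_const 6))).congr_deriv ?_
    norm_num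
    ring
  · have := Real.one_sub_sq_div_two_le_cos (x := y)
    linarith

theorem QLB_c4 {x : ℝ} (hx : 0 ≤ x) : 0 ≤ (1 - x ^ 2 / 2 + x ^ 4 / 24) - Real.cos x := by
  refine QLB_mono (f := fun x => (1 - x ^ 2 / 2 + x ^ 4 / 24) - Real.cos x)
    (f' := fun x => Real.sin x - (x - x ^ 3 / 6)) (by simp) (fun y => ?_) (fun y hy => QLB_s3 hy) hx
  refine ((((hasDerivAt_const y (1 : ℝ)).sub ((hasDerivAt_pow 2 y).div_const 2)).add
      ((hasDerivAt_pow 4 y).div_const 24)).sub (Real.hasDerivAt_cos y)).congr_deriv ?_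
  norm_num
  ring

theorem QLB_s5 {x : ℝ} (hx : 0 ≤ x) : 0 ≤ (x - x ^ 3 / 6 + x ^ 5 / 120) - Real.sin x := by
  refine QLB_mono (f := fun x => (x - x ^ 3 / 6 + x ^ 5 / 120) - Real.sin x)
    (f' := fun x => (1 - x ^ 2 / 2 + x ^ 4 / 24) - Real.cos x) (by simp) (fun y => ?_)
    (fun y hy => QLB_c4 hy) hx
  refine ((((hasDerivAt_id y).sub ((hasDerivAt_pow 3 y).div_const 6)).add
      ((hasDerivAt_pow 5 y).div_const 120)).sub (Real.hasDerivAt_sin y)).congr_deriv ?_
  norm_num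
  ring

theorem QLB_c6 {x : ℝ} (hx : 0 ≤ x) :
    0 ≤ Real.cos x - (1 - x ^ 2 / 2 + x ^ 4 / 24 - x ^ 6 / 720) := by
  refine QLB_mono (f := fun x => Real.cos x - (1 - x ^ 2 / 2 + x ^ 4 / 24 - x ^ 6 / 720))
    (f' := fun x => (x - x ^ 3 / 6 + x ^ 5 / 120) - Real.sin x) (by simp) (fun y => ?_)
    (fun y hy => QLB_s5 hy) hx
  refine ((Real.hasDerivAt_cos y).sub (((((hasDerivAt_const y (1 : ℝ)).sub
      ((hasDerivAt_pow 2 y).div_const 2)).add ((hasDerivAt_pow 4 y).div_const 24)).sub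
      ((hasDerivAt_pow 6 y).div_const 720)))).congr_deriv ?_
  norm_num
  ring

theorem QLB_s7 {x : ℝ} (hx : 0 ≤ x) :
    0 ≤ Real.sin x - (x - x ^ 3 / 6 + x ^ 5 / 120 - x ^ 7 / 5040) := by
  refine QLB_mono (f := fun x => Real.sin x - (x - x ^ 3 / 6 + x ^ 5 / 120 - x ^ 7 / 5040))
    (f' := fun x => Real.cos x - (1 - x ^ 2 / 2 + x ^ 4 / 24 - x ^ 6 / 720)) (by simp)
    (fun y => ?_) (fun y hy => QLB_c6 hy) hx
  refine ((Real.hasDerivAt_sin y).sub (((((hasDerivAt_id y).sub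
      ((hasDerivAt_pow 3 y).div_const 6)).add ((hasDerivAt_pow 5 y).div_const 120)).sub
      ((hasDerivAt_pow 7 y).div_const 5040)))).congr_deriv ?_
  norm_num
  ring

theorem QLB_sin_mono {a b : ℝ} (h0 : 0 ≤ a) (hab : a ≤ b) (hb : b ≤ 1) :
    Real.sin a ≤ Real.sin b := by
  have hpi := Real.pi_gt_three
  exact Real.sin_le_sin_of_le_of_le_pi_div_two (by linarith) (by linarith) hab

/-- `cos (0.34 π)` -/
theorem QLB_cos34 : (4817 : ℝ) / 10000 ≤ Real.cos (34 / 100 * Real.pi) ∧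
    Real.cos (34 / 100 * Real.pi) ≤ 4818 / 10000 := by
  have h1 := Real.pi_gt_d6
  have h2 := Real.pi_lt_d6
  have h3 : Real.cos (34 / 100 * Real.pi) = Real.sin (16 / 100 * Real.pi) := by
    rw [← Real.cos_pi_div_two_sub]
    congr 1
    ring
  rw [h3]
  constructor
  · have h4 := QLB_s7 (x := 502654 / 1000000) (by norm_num)
    have h5 : Real.sin (502654 / 1000000) ≤ Real.sin (16 / 100 * Real.pi) :=
      QLB_sin_mono (by norm_num) (by linarith) (by linarith)
    norm_num at h4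
    linarith
  · have h4 := QLB_s5 (x := 502655 / 1000000) (by norm_num)
    have h5 : Real.sin (16 / 100 * Real.pi) ≤ Real.sin (502655 / 1000000) :=
      QLB_sin_mono (by positivity) (by linarith) (by norm_num)
    norm_num at h4
    linarith

/-- `cos (0.62 π)` -/
theorem QLB_cos62 : -(3682 : ℝ) / 10000 ≤ Real.cos (62 / 100 * Real.pi) := by
  have h1 := Real.pi_gt_d6
  have h2 := Real.pi_lt_d6
  have h3 : Real.cos (62 / 100 * Real.pi) = -Real.sin (12 / 100 * Real.pi) := by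
    rw [← Real.cos_add_pi_div_two]
    congr 1
    ring
  rw [h3]
  have h4 := QLB_s5 (x := 376992 / 1000000) (by norm_num)
  have h5 : Real.sin (12 / 100 * Real.pi) ≤ Real.sin (376992 / 1000000) :=
    QLB_sin_mono (by positivity) (by linarith) (by norm_num)
  norm_num at h4
  linarith

theorem QLB_cosh1 {u : ℝ} (hu : |u| ≤ 15 / 100 * Real.pi) : Real.cosh u ≤ 11132 / 10000 := by
  have h2 := Real.pi_lt_d6
  have h3 : |u| ≤ |(47124 / 100000 : ℝ)| := by
    rw [abs_of_pos (show (0 : ℝ) < 47124 / 100000 by norm_num)]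
    linarith
  refine (Real.cosh_le_cosh.2 h3).trans ?_
  have h4 := Real.exp_bound' (x := 47124 / 100000) (by norm_num) (by norm_num) (n := 6) (by norm_num)
  have h5 := Real.exp_bound (x := -(47124 / 100000)) (by norm_num [abs_of_pos]) (n := 6)
    (by norm_num)
  have h6 := (abs_le.1 h5).2
  rw [Real.cosh_eq]
  simp only [Finset.sum_range_succ, Finset.sum_range_zero, Nat.factorial] at h4 h6
  norm_num [abs_of_pos] at h4 h6 ⊢
  linarith

theorem QLB_cosh2 {u : ℝ} (hu : |u| ≤ 4 / 100 * Real.pi) : Real.cosh u ≤ 1008 / 1000 := by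
  have h2 := Real.pi_lt_d6
  have h3 : |u| ≤ |(125664 / 1000000 : ℝ)| := by
    rw [abs_of_pos (show (0 : ℝ) < 125664 / 1000000 by norm_num)]
    linarith
  refine (Real.cosh_le_cosh.2 h3).trans ?_
  have h4 := Real.exp_bound' (x := 125664 / 1000000) (by norm_num) (by norm_num) (n := 4)
    (by norm_num)
  have h5 := Real.exp_bound (x := -(125664 / 1000000)) (by norm_num [abs_of_pos]) (n := 4)
    (by norm_num)
  have h6 := (abs_le.1 h5).2
  rw [Real.cosh_eq]
  simp only [Finset.sum_range_succ, Finset.sum_range_zero, Nat.factorial] at h4 h6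
  norm_num [abs_of_pos] at h4 h6 ⊢
  linarith

/-- the polynomial inequality -/
theorem QLB_poly {c s X k Q T : ℝ} (hcs : s ^ 2 = 1 - c ^ 2) (hs : 0 ≤ s)
    (c1 : -(3682 / 10000) ≤ c) (c2 : c ≤ 4818 / 10000) (X1 : 4817 / 10000 ≤ X) (X2 : X ≤ 1)
    (hk : k * (1008 / 1000 - c) = s) (hQ : Q = c ^ 2 + X ^ 2 - 1 + 2 * (11132 / 10000) * c * X +
      (11132 / 10000) ^ 2) (hQ0 : 0 ≤ Q) (hT : T = c + 11132 / 10000 * X) :
    0 ≤ 4 * (X ^ 2 - c ^ 2) + (2 * k - 21646 / 10000) * (2 * s * T) +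
      (4863 / 10000 - 5094 / 10000 * k) * Q := by
  have hK : 0 < 1008 / 1000 - c := by linarith
  have hT0 : 0 ≤ T := by rw [hT]; linarith
  have hs1 : s ≤ 1 - c ^ 2 / 2 := by
    by_contra hcon
    push Not at hcon
    nlinarith [sq_nonneg c, sq_nonneg (c ^ 2)]
  have hks : 9847 / 10000 * (1 + c) ≤ s * k := by
    have h1 : s * k * (1008 / 1000 - c) = 1 - c ^ 2 := by
      rw [mul_assoc, hk, ← hcs]
      ring
    refine le_of_mul_le_mul_right ?_ hK
    rw [h1]
    nlinarith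
  have h2 : T * (39388 / 10000 * (1 + c) - 43292 / 10000 * (1 - c ^ 2 / 2)) ≤
      (2 * k - 21646 / 10000) * (2 * s * T) := by
    have h3 : (2 * k - 21646 / 10000) * (2 * s * T) =
        T * (4 * (s * k) - 43292 / 10000 * s) := by ring
    rw [h3]
    refine mul_le_mul_of_nonneg_left ?_ hT0
    linarith
  rcases le_total c 0 with hc | hc
  · have hk1 : k ≤ 1 := by
      refine le_of_mul_le_mul_right ?_ hK
      rw [hk]
      have := sq_nonneg c
      linarith
    have hQ1 : Q ≤ 1375 / 1000 := by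
      rw [hQ]
      nlinarith [mul_nonneg (neg_nonneg.2 hc) (show (0 : ℝ) ≤ X by linarith)]
    have h4 : -(318 / 10000) ≤ (4863 / 10000 - 5094 / 10000 * k) * Q := by
      nlinarith
    set w : ℝ := -(3904 / 10000) + 39388 / 10000 * c + 21646 / 10000 * c ^ 2 with hw
    have hw1 : 39388 / 10000 * (1 + c) - 43292 / 10000 * (1 - c ^ 2 / 2) = w := by
      rw [hw]
      ring
    have hwlo : -(156 / 100) ≤ w := by
      rw [hw]
      nlinarith
    have h5 : 0 ≤ (X - 4817 / 10000) * (4 * (X + 4817 / 10000) + 11132 / 10000 * w) := by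
      refine mul_nonneg (by linarith) ?_
      linarith
    have h6 : 0 ≤ 4 * ((4817 / 10000) ^ 2 - c ^ 2) + (c + 11132 / 10000 * (4817 / 10000)) * w -
        318 / 10000 := by
      rw [hw]
      nlinarith [mul_nonneg (neg_nonneg.2 hc) (show 0 ≤ 3682 / 10000 + c by linarith),
        mul_nonneg (sq_nonneg c) (show 0 ≤ 3682 / 10000 + c by linarith)]
    rw [hw1] at h2
    rw [hT] at h2 ⊢
    nlinarith
  · have hk1 : k ≤ 1 + 142 / 100 * c := by
      refine le_of_mul_le_mul_right ?_ hK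
      rw [hk]
      nlinarith
    have h4 : -(231 / 10000 + 7234 / 10000 * c) * (c ^ 2 + X ^ 2 + 22264 / 10000 * c * X +
        2393 / 10000) ≤ (4863 / 10000 - 5094 / 10000 * k) * Q := by
      have h5 : -(231 / 10000 + 7234 / 10000 * c) ≤ 4863 / 10000 - 5094 / 10000 * k := by linarith
      have h6 : Q ≤ c ^ 2 + X ^ 2 + 22264 / 10000 * c * X + 2393 / 10000 := by
        rw [hQ]
        nlinarith
      have h7 : -(231 / 10000 + 7234 / 10000 * c) * Q ≤ (4863 / 10000 - 5094 / 10000 * k) * Q :=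
        mul_le_mul_of_nonneg_right h5 hQ0
      have h8 : -(231 / 10000 + 7234 / 10000 * c) * (c ^ 2 + X ^ 2 + 22264 / 10000 * c * X +
        2393 / 10000) ≤ -(231 / 10000 + 7234 / 10000 * c) * Q :=
        mul_le_mul_of_nonpos_left h6 (by linarith)
      linarith
    have hX0 : 0 ≤ X - 4817 / 10000 := by linarith
    have h9 : 0 ≤ 4 * (X ^ 2 - c ^ 2) + (c + 11132 / 10000 * X) *
        (39388 / 10000 * (1 + c) - 43292 / 10000 * (1 - c ^ 2 / 2)) -
        (231 / 10000 + 7234 / 10000 * c) * (c ^ 2 + X ^ 2 + 22264 / 10000 * c * X +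
        2393 / 10000) := by
      nlinarith [mul_nonneg hc hX0, mul_nonneg hX0 hX0, mul_nonneg hc (mul_nonneg hc hX0),
        mul_nonneg hc (mul_nonneg hX0 hX0), mul_nonneg hc (mul_nonneg hc hc),
        mul_nonneg hc (show 0 ≤ 4818 / 10000 - c by linarith), mul_nonneg hX0
          (show 0 ≤ 1 - X by linarith), mul_nonneg (mul_nonneg hc hX0)
          (show 0 ≤ 4818 / 10000 - c by linarith), mul_nonneg (mul_nonneg hX0 hX0)
          (show 0 ≤ 4818 / 10000 - c by linarith)]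
    rw [hT] at h2 ⊢
    linarith

/-- the quadratic form with the worst constants -/
theorem QLB_form {c s X Y p0 m0 k0 : ℝ} (hcs : s ^ 2 = 1 - c ^ 2) (hs : 0 ≤ s)
    (hXY : Y ^ 2 = 1 - X ^ 2) (hP : -1 ≤ c * X - s * Y) (hM : -1 ≤ c * X + s * Y)
    (c1 : -(3682 / 10000) ≤ c) (c2 : c ≤ 4818 / 10000) (X1 : 4817 / 10000 ≤ X) (X2 : X ≤ 1)
    (hp : p0 * (c * X - s * Y + 11132 / 10000) = s * X + c * Y)
    (hm : m0 * (c * X + s * Y + 11132 / 10000) = s * X - c * Y)
    (hk : k0 * (1008 / 1000 - c) = s) (a b : ℝ) :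
    6 * b ^ 2 + 4 / 5 * a ^ 2 ≤
      Real.pi * (p0 * (b + a) ^ 2 + m0 * (b - a) ^ 2 + 2 * k0 * b ^ 2) := by
  have hpi1 := Real.pi_gt_d6
  have hpi2 := Real.pi_lt_d6
  have hpi0 : 0 < Real.pi := Real.pi_pos
  have hK : 0 < 1008 / 1000 - c := by linarith
  have hk0 : 0 ≤ k0 := by
    by_contra hcon
    push Not at hcon
    nlinarith
  set P := c * X - s * Y + 11132 / 10000 with hPdef
  set M := c * X + s * Y + 11132 / 10000 with hMdef
  have hP0 : 0 < P := by rw [hPdef]; linarith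
  have hM0 : 0 < M := by rw [hMdef]; linarith
  set T := c + 11132 / 10000 * X with hT
  have hT0 : 0 < T := by rw [hT]; linarith
  have hQ : P * M = c ^ 2 + X ^ 2 - 1 + 2 * (11132 / 10000) * c * X +
      (11132 / 10000) ^ 2 := by
    rw [hPdef, hMdef]
    have h1 : (c * X - s * Y + 11132 / 10000) * (c * X + s * Y + 11132 / 10000) =
        (c * X + 11132 / 10000) ^ 2 - s ^ 2 * Y ^ 2 := by ring
    rw [h1, hcs, hXY]
    ring
  have hQ0 : 0 < P * M := mul_pos hP0 hM0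
  have hS : (p0 + m0) * (P * M) = 2 * s * T := by
    have h1 : (p0 + m0) * (P * M) = (p0 * P) * M + (m0 * M) * P := by ring
    rw [h1, hp, hm, hPdef, hMdef, hT]
    have h2 : (s * X + c * Y) * (c * X + s * Y + 11132 / 10000) +
        (s * X - c * Y) * (c * X - s * Y + 11132 / 10000) =
        2 * s * (c * X ^ 2 + c * Y ^ 2 + 11132 / 10000 * X) := by ring
    rw [h2, hXY]
    ring
  have hpm : p0 * m0 * (P * M) = X ^ 2 - c ^ 2 := by
    have h1 : p0 * m0 * (P * M) = (p0 * P) * (m0 * M) := by ring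
    rw [h1, hp, hm]
    have h2 : (s * X + c * Y) * (s * X - c * Y) = s ^ 2 * X ^ 2 - c ^ 2 * Y ^ 2 := by ring
    rw [h2, hcs, hXY]
    ring
  have hpoly := QLB_poly hcs hs c1 c2 X1 X2 hk hQ hQ0.le hT
  have hII : 0 ≤ 4 * (p0 * m0) + (2 * k0 - 21646 / 10000) * (p0 + m0) +
      (4863 / 10000 - 5094 / 10000 * k0) := by
    refine le_of_mul_le_mul_right ?_ hQ0
    rw [zero_mul]
    have h1 : (4 * (p0 * m0) + (2 * k0 - 21646 / 10000) * (p0 + m0) +
        (4863 / 10000 - 5094 / 10000 * k0)) * (P * M) =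
        4 * (p0 * m0 * (P * M)) + (2 * k0 - 21646 / 10000) * ((p0 + m0) * (P * M)) +
        (4863 / 10000 - 5094 / 10000 * k0) * (P * M) := by ring
    rw [h1, hpm, hS]
    exact hpoly
  have hI : 2547 / 10000 ≤ p0 + m0 := by
    refine le_of_mul_le_mul_right ?_ hQ0
    rw [hS]
    have hs87 : 87 / 100 ≤ s := by
      by_contra hcon
      push Not at hcon
      nlinarith
    have h1 : 2 * (87 / 100) * T ≤ 2 * s * T := by
      refine mul_le_mul_of_nonneg_right ?_ hT0.le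
      linarith
    have h2 : 2547 / 10000 * (P * M) ≤ 2 * (87 / 100) * T := by
      rw [hQ, hT]
      rcases le_total c 0 with hc | hc
      · nlinarith [mul_nonneg (neg_nonneg.2 hc) (show (0 : ℝ) ≤ X by linarith),
          mul_nonneg (show (0 : ℝ) ≤ X by linarith) (show 0 ≤ 1 - X by linarith)]
      · nlinarith [mul_nonneg hc (show 0 ≤ 1 - X by linarith),
          mul_nonneg (show (0 : ℝ) ≤ X by linarith) (show 0 ≤ 1 - X by linarith)]
    linarith
  set S := p0 + m0 with hSdef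
  set D := p0 - m0 with hD
  have hSD : S ^ 2 - D ^ 2 = 4 * (p0 * m0) := by rw [hSdef, hD]; ring
  have hS0 : 0 ≤ S := by linarith
  have hα : 0 < Real.pi * S - 4 / 5 := by nlinarith
  have hdisc : 0 ≤ (Real.pi * S - 4 / 5) * (Real.pi * (S + 2 * k0) - 6) - (Real.pi * D) ^ 2 := by
    have h1 : (Real.pi * S - 4 / 5) * (Real.pi * (S + 2 * k0) - 6) - (Real.pi * D) ^ 2 =
        Real.pi ^ 2 * (4 * (p0 * m0) + (2 * k0 - 21646 / 10000) * S +
          (4863 / 10000 - 5094 / 10000 * k0)) +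
        (Real.pi * S * (21646 / 10000 * Real.pi - 68 / 10) +
        Real.pi * k0 * (5094 / 10000 * Real.pi - 16 / 10) +
        (48 / 10 - 4863 / 10000 * Real.pi ^ 2)) := by
      rw [← hSD]
      ring
    rw [h1]
    have h2 : 0 ≤ Real.pi * S * (21646 / 10000 * Real.pi - 68 / 10) :=
      mul_nonneg (by positivity) (by linarith)
    have h3 : 0 ≤ Real.pi * k0 * (5094 / 10000 * Real.pi - 16 / 10) :=
      mul_nonneg (by positivity) (by linarith)
    have h4 : 0 ≤ 48 / 10 - 4863 / 10000 * Real.pi ^ 2 := by nlinarith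
    have h5 : 0 ≤ Real.pi ^ 2 * (4 * (p0 * m0) + (2 * k0 - 21646 / 10000) * S +
          (4863 / 10000 - 5094 / 10000 * k0)) := mul_nonneg (by positivity) hII
    linarith
  have hfin : 0 ≤ (Real.pi * S - 4 / 5) *
      (Real.pi * (p0 * (b + a) ^ 2 + m0 * (b - a) ^ 2 + 2 * k0 * b ^ 2) -
        (6 * b ^ 2 + 4 / 5 * a ^ 2)) := by
    have h1 : (Real.pi * S - 4 / 5) *
      (Real.pi * (p0 * (b + a) ^ 2 + m0 * (b - a) ^ 2 + 2 * k0 * b ^ 2) -
        (6 * b ^ 2 + 4 / 5 * a ^ 2)) =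
        ((Real.pi * S - 4 / 5) * a + Real.pi * D * b) ^ 2 +
        ((Real.pi * S - 4 / 5) * (Real.pi * (S + 2 * k0) - 6) - (Real.pi * D) ^ 2) * b ^ 2 := by
      rw [hSdef, hD]
      ring
    rw [h1]
    have h2 := mul_nonneg hdisc (sq_nonneg b)
    have h3 := sq_nonneg ((Real.pi * S - 4 / 5) * a + Real.pi * D * b)
    linarith
  have := nonneg_of_mul_nonneg_right hfin hα
  linarith

/-- the case `0 ≤ x` -/
theorem QLB_pos {r θ x η : ℝ} (h1 : 17 / 100 ≤ r) (h2 : r ≤ 31 / 100) (h3 : x ≤ 17 / 100)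
    (h30 : 0 ≤ x) (h4 : |θ| ≤ 2 / 100) (h5 : |η| ≤ 55 / 1000) (a b : ℝ) :
    6 * b ^ 2 + 4 / 5 * a ^ 2 ≤ (QQ (x + η * I) (r + θ * I) a b).re := by
  have hpi0 : 0 < Real.pi := Real.pi_pos
  have h4' := abs_le.1 h4
  have h5' := abs_le.1 h5
  -- the real part
  have e1 : (Real.pi : ℂ) * ((r + θ * I) + (x + η * I)) =
      ((Real.pi * (r + x) : ℝ) : ℂ) + ((Real.pi * (θ + η) : ℝ) : ℂ) * I := by
    push_cast
    ring
  have e2 : (Real.pi : ℂ) * ((r + θ * I) - (x + η * I)) =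
      ((Real.pi * (r - x) : ℝ) : ℂ) + ((Real.pi * (θ - η) : ℝ) : ℂ) * I := by
    push_cast
    ring
  have e3 : (Real.pi : ℂ) * (r + θ * I) =
      ((Real.pi * r : ℝ) : ℂ) + ((Real.pi * θ : ℝ) : ℂ) * I := by
    push_cast
    ring
  have hre : (QQ (x + η * I) (r + θ * I) a b).re = Real.pi *
      ((Complex.tan (((Real.pi * (r + x) : ℝ) : ℂ) + ((Real.pi * (θ + η) : ℝ) : ℂ) * I)).re *
        (b + a) ^ 2 +
      (Complex.tan (((Real.pi * (r - x) : ℝ) : ℂ) + ((Real.pi * (θ - η) : ℝ) : ℂ) * I)).re *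
        (b - a) ^ 2 +
      2 * (Complex.cot (((Real.pi * r : ℝ) : ℂ) + ((Real.pi * θ : ℝ) : ℂ) * I)).re * b ^ 2) := by
    unfold QQ
    rw [e1, e2, e3]
    have f1 : ((b : ℂ) + a) ^ 2 = (((b + a) ^ 2 : ℝ) : ℂ) := by push_cast; ring
    have f2 : ((b : ℂ) - a) ^ 2 = (((b - a) ^ 2 : ℝ) : ℂ) := by push_cast; ring
    have f3 : (b : ℂ) ^ 2 = ((b ^ 2 : ℝ) : ℂ) := by push_cast; ring
    rw [f1, f2, f3, Complex.re_ofReal_mul, Complex.add_re, Complex.add_re, Complex.re_mul_ofReal,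
      Complex.re_mul_ofReal, Complex.re_mul_ofReal]
    have f4 : ∀ z : ℂ, (2 * z).re = 2 * z.re := fun z => by simp
    rw [f4]
  rw [hre, tan_re, tan_re, cot_re]
  set A := 2 * (Real.pi * r) with hA
  set B := 2 * (Real.pi * x) with hB
  have g1 : 2 * (Real.pi * (r + x)) = A + B := by rw [hA, hB]; ring
  have g2 : 2 * (Real.pi * (r - x)) = A - B := by rw [hA, hB]; ring
  rw [g1, g2]
  have hA1 : 34 / 100 * Real.pi ≤ A := by rw [hA]; nlinarith
  have hA2 : A ≤ 62 / 100 * Real.pi := by rw [hA]; nlinarith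
  have hB0 : 0 ≤ B := by rw [hB]; positivity
  have hB1 : B ≤ 34 / 100 * Real.pi := by rw [hB]; nlinarith
  have hA0 : 0 ≤ A := by linarith [mul_pos (show (0 : ℝ) < 34 / 100 by norm_num) hpi0]
  -- cosh bounds
  have c1 : Real.cosh (2 * (Real.pi * (θ + η))) ≤ 11132 / 10000 := by
    refine QLB_cosh1 ?_
    rw [abs_le]
    constructor <;> nlinarith
  have c2 : Real.cosh (2 * (Real.pi * (θ - η))) ≤ 11132 / 10000 := by
    refine QLB_cosh1 ?_
    rw [abs_le]
    constructor <;> nlinarith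
  have c3 : Real.cosh (2 * (Real.pi * θ)) ≤ 1008 / 1000 := by
    refine QLB_cosh2 ?_
    rw [abs_le]
    constructor <;> nlinarith
  have d1 := Real.one_le_cosh (2 * (Real.pi * (θ + η)))
  have d2 := Real.one_le_cosh (2 * (Real.pi * (θ - η)))
  have d3 := Real.one_le_cosh (2 * (Real.pi * θ))
  -- trigonometric bounds
  have s1 : 0 ≤ Real.sin (A + B) :=
    Real.sin_nonneg_of_nonneg_of_le_pi (by linarith) (by linarith)
  have s2 : 0 ≤ Real.sin (A - B) :=
    Real.sin_nonneg_of_nonneg_of_le_pi (by linarith) (by linarith)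
  have s3 : 0 ≤ Real.sin A :=
    Real.sin_nonneg_of_nonneg_of_le_pi (by linarith) (by linarith)
  have t1 : -1 < Real.cos (A + B) := by
    rw [← Real.cos_pi]
    exact Real.cos_lt_cos_of_nonneg_of_le_pi (by linarith) le_rfl (by linarith)
  have t2 : -1 < Real.cos (A - B) := by
    rw [← Real.cos_pi]
    exact Real.cos_lt_cos_of_nonneg_of_le_pi (by linarith) le_rfl (by linarith)
  have u1 : Real.cos A ≤ 4818 / 10000 :=
    (Real.cos_le_cos_of_nonneg_of_le_pi (by positivity) (by linarith) hA1).trans QLB_cos34.2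
  have u2 : -(3682 / 10000) ≤ Real.cos A := by
    have := Real.cos_le_cos_of_nonneg_of_le_pi hA0 (by linarith) hA2
    have h6 := QLB_cos62
    linarith
  have u3 : 4817 / 10000 ≤ Real.cos B :=
    QLB_cos34.1.trans (Real.cos_le_cos_of_nonneg_of_le_pi hB0 (by linarith) hB1)
  have v1 : Real.cos (A + B) = Real.cos A * Real.cos B - Real.sin A * Real.sin B := Real.cos_add A B
  have v2 : Real.cos (A - B) = Real.cos A * Real.cos B + Real.sin A * Real.sin B := Real.cos_sub A B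
  have v3 : Real.sin (A + B) = Real.sin A * Real.cos B + Real.cos A * Real.sin B := Real.sin_add A B
  have v4 : Real.sin (A - B) = Real.sin A * Real.cos B - Real.cos A * Real.sin B := Real.sin_sub A B
  have key := QLB_form (c := Real.cos A) (s := Real.sin A) (X := Real.cos B) (Y := Real.sin B)
    (p0 := Real.sin (A + B) / (Real.cos (A + B) + 11132 / 10000))
    (m0 := Real.sin (A - B) / (Real.cos (A - B) + 11132 / 10000))
    (k0 := Real.sin A / (1008 / 1000 - Real.cos A)) (Real.sin_sq A) s3 (Real.sin_sq B)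
    (by rw [← v1]; exact t1.le) (by rw [← v2]; exact t2.le) u2 u1 u3 (Real.cos_le_one B)
    (by
      rw [← v1, ← v3]
      exact div_mul_cancel₀ _ (by linarith))
    (by
      rw [← v2, ← v4]
      exact div_mul_cancel₀ _ (by linarith))
    (div_mul_cancel₀ _ (by linarith)) a b
  refine key.trans (mul_le_mul_of_nonneg_left ?_ hpi0.le)
  have w1 : Real.sin (A + B) / (Real.cos (A + B) + 11132 / 10000) ≤
      Real.sin (A + B) / (Real.cos (A + B) + Real.cosh (2 * (Real.pi * (θ + η)))) :=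
    div_le_div_of_nonneg_left s1 (by linarith) (by linarith)
  have w2 : Real.sin (A - B) / (Real.cos (A - B) + 11132 / 10000) ≤
      Real.sin (A - B) / (Real.cos (A - B) + Real.cosh (2 * (Real.pi * (θ - η)))) :=
    div_le_div_of_nonneg_left s2 (by linarith) (by linarith)
  have w3 : Real.sin A / (1008 / 1000 - Real.cos A) ≤
      Real.sin A / (Real.cosh (2 * (Real.pi * θ)) - Real.cos A) :=
    div_le_div_of_nonneg_left s3 (by linarith) (by linarith)
  have x1 := mul_le_mul_of_nonneg_right w1 (sq_nonneg (b + a))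
  have x2 := mul_le_mul_of_nonneg_right w2 (sq_nonneg (b - a))
  have x3 := mul_le_mul_of_nonneg_right w3 (sq_nonneg b)
  linarith

theorem qlb {r θ x η : ℝ} (h1 : 17 / 100 ≤ r) (h2 : r ≤ 31 / 100) (h3 : |x| ≤ 17 / 100)
    (h4 : |θ| ≤ 2 / 100) (h5 : |η| ≤ 55 / 1000) (a b : ℝ) :
    6 * b ^ 2 + 4 / 5 * a ^ 2 ≤ (QQ (x + η * I) (r + θ * I) a b).re := by
  have h3' := abs_le.1 h3
  rcases le_total 0 x with hx | hx
  · exact QLB_pos h1 h2 h3'.2 hx h4 h5 a b
  · have key := QLB_pos (x := -x) (η := -η) h1 h2 (by linarith) (by linarith) h4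
      (by rwa [abs_neg]) (-a) b
    have e : QQ ((-x : ℝ) + (-η : ℝ) * I) (r + θ * I) (-a : ℝ) b =
        QQ (x + η * I) (r + θ * I) a b := by
      unfold QQ
      have f1 : (r + θ * I : ℂ) + (((-x : ℝ) : ℂ) + ((-η : ℝ) : ℂ) * I) =
          (r + θ * I) - (x + η * I) := by push_cast; ring
      have f2 : (r + θ * I : ℂ) - (((-x : ℝ) : ℂ) + ((-η : ℝ) : ℂ) * I) =
          (r + θ * I) + (x + η * I) := by push_cast; ring
      rw [f1, f2]
      push_cast
      ring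
    rw [e] at key
    rw [neg_sq] at key
    exact key

end Pool.Agent.XV
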