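import Pool.Agent.XV.Cv
import Pool.Agent.XV.Rg
import Pool.Agent.XV.Qlb

/-!
# XV RB: lower bound of the critical exponent

`rb0`: `gam 0 (1/4) = 2 CC (1/4) - 2 CC (-1/4) = 4 CC (1/4)`, `CC (1/4) = ∫_0^{1/4} log (2 cos πu) du`
and `u ↦ log (2 cos πu)` is concave on `[0, 1/4]`, so the trapezoidal rule with the nodes
`0, 1/12, 1/6, 1/4` is a lower bound:
`(1/12) ((log 2 + log (sqrt 2)) / 2 + log (2 cos (π/12)) + log (sqrt 3))
  = (1/12) ((3/4) log 2 + (1/2) log (2 + sqrt 3) + (1/2) log 3) ≥ 0.14396`, times 4 is `≥ 0.5758`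
(`(2 cos (π/12)) ^ 2 = 2 + sqrt 3`; `exp` of the bracket to the fourth:
`2 ^ 3 * (2 + sqrt 3) ^ 2 * 9 ≥ 1002 ≥ exp 6.9`, `6.9 / 12 = 0.575`).

`rb_real`: base point `(0, 1/4)`, where `gamy = 0` and `gamt = 0` (`gamt_zero`); second derivative
along the segment to `(x, r)`, `a = x`, `b = r - 1/4`, `|a| ≤ 0.1004`, `|b| ≤ 0.0165`:
`QQ ≤ π (tan (π * 0.3669) (0.1169) ^ 2 + tan (π * 0.2665) (0.1169) ^ 2 + 2 cot (π * 0.2335) 0.0165 ^ 2)
  ≤ π (2.26 * 0.01367 + 1.11 * 0.01367 + 0.00062) ≤ 0.1468` (for `x ≥ 0`: `t - y ≤ 0.2665`; for `x ≤ 0`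
exchange), so `(gam x r).re ≥ 0.575 - 0.0734 ≥ 1/2` (Taylor with `gam_d1`, `gam_d2`, as in `taylor`
with the opposite inequality).

`rb_big`: `ge_real` with `qlb`.
-/

set_option autoImplicit false

namespace Pool.Agent.XV

open Complex Finset
open Pool.Agent.Helper9.TB Pool.Agent.Helper9.TF

/-- the real function on `[0, 1]` -/
private noncomputable def rbF (s : ℝ) : ℝ := Real.log (2 * Real.cos (Real.pi * s / 4))

private lemma rb_cos {s : ℝ} (hs : s ∈ Set.Icc (0 : ℝ) 1) : 0 < 2 * Real.cos (Real.pi * s / 4) := by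
  have hpi := Real.pi_pos
  have : 0 < Real.cos (Real.pi * s / 4) :=
    Real.cos_pos_of_mem_Ioo ⟨by nlinarith [hs.1, hs.2], by nlinarith [hs.1, hs.2]⟩
  linarith

private lemma rb_cont : ContinuousOn rbF (Set.Icc 0 1) := by
  unfold rbF
  apply ContinuousOn.log
  · fun_prop
  · intro s hs
    exact (rb_cos hs).ne'

private lemma rb_conc : ConcaveOn ℝ (Set.Icc 0 1) rbF := by
  refine ⟨convex_Icc 0 1, ?_⟩
  intro s hs t ht a b ha hb hab
  have hpi := Real.pi_pos
  have c1 := strictConcaveOn_cos_Icc.concaveOn.2 (x := Real.pi * s / 4) (y := Real.pi * t / 4)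
    ⟨by nlinarith [hs.1], by nlinarith [hs.2]⟩ ⟨by nlinarith [ht.1], by nlinarith [ht.2]⟩
    ha hb hab
  have c2 := strictConcaveOn_log_Ioi.concaveOn.2 (x := 2 * Real.cos (Real.pi * s / 4))
    (y := 2 * Real.cos (Real.pi * t / 4)) (rb_cos hs) (rb_cos ht) ha hb hab
  simp only [smul_eq_mul] at c1 c2 ⊢
  refine c2.trans ?_
  unfold rbF
  apply Real.log_le_log
  · have h1 := rb_cos hs
    have h2 := rb_cos ht
    rcases lt_or_ge 0 a with h | h
    · have := mul_pos h h1
      have := mul_nonneg hb h2.le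
      linarith
    · have h3 : a = 0 := le_antisymm h ha
      have h4 : b = 1 := by linarith
      rw [h3, h4]
      linarith
  · have e : Real.pi * (a * s + b * t) / 4 = a * (Real.pi * s / 4) + b * (Real.pi * t / 4) := by
      ring
    rw [e]
    linarith

private lemma rb_trap {a b : ℝ} (ha : 0 ≤ a) (hab : a < b) (hb : b ≤ 1) :
    (b - a) * (rbF a + rbF b) / 2 ≤ ∫ s in a..b, rbF s := by
  have hd : 0 < b - a := by linarith
  set c1 := (rbF b - rbF a) / (b - a) with hc1
  have hlin : ∫ s in a..b, (rbF a - c1 * a + c1 * s) = (b - a) * (rbF a + rbF b) / 2 := by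
    rw [intervalIntegral.integral_add (by simp) (by
      apply Continuous.intervalIntegrable; fun_prop), intervalIntegral.integral_const,
      intervalIntegral.integral_const_mul, integral_id, smul_eq_mul]
    have e : c1 * (b - a) = rbF b - rbF a := by
      rw [hc1, div_mul_cancel₀ _ hd.ne']
    linear_combination ((b - a) / 2) * e
  rw [← hlin]
  apply intervalIntegral.integral_mono_on hab.le
  · apply Continuous.intervalIntegrable; fun_prop
  · apply ContinuousOn.intervalIntegrable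
    apply rb_cont.mono
    rw [Set.uIcc_of_le hab.le]
    exact Set.Icc_subset_Icc ha hb
  · intro s hs
    have p1 : 0 ≤ (b - s) / (b - a) := by
      apply div_nonneg _ hd.le; linarith [hs.2]
    have p2 : 0 ≤ (s - a) / (b - a) := by
      apply div_nonneg _ hd.le; linarith [hs.1]
    have p3 : (b - s) / (b - a) + (s - a) / (b - a) = 1 := by
      rw [← add_div, div_eq_one_iff_eq hd.ne']; ring
    have q1 : a ∈ Set.Icc (0 : ℝ) 1 := ⟨ha, by linarith⟩
    have q2 : b ∈ Set.Icc (0 : ℝ) 1 := ⟨by linarith, hb⟩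
    have h := rb_conc.2 q1 q2 p1 p2 p3
    simp only [smul_eq_mul] at h
    have e1 : (b - s) / (b - a) * a + (s - a) / (b - a) * b = s := by
      field_simp; ring
    rw [e1] at h
    refine le_trans (le_of_eq ?_) h
    rw [hc1]
    field_simp
    ring

private lemma rb_int : 575 / 1000 ≤ ∫ s in (0 : ℝ)..1, rbF s := by
  have hI : ∀ a b : ℝ, 0 ≤ a → a ≤ b → b ≤ 1 →
      IntervalIntegrable rbF MeasureTheory.volume a b := by
    intro a b ha hab hb
    apply ContinuousOn.intervalIntegrable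
    apply rb_cont.mono
    rw [Set.uIcc_of_le hab]
    exact Set.Icc_subset_Icc ha hb
  have s1 := intervalIntegral.integral_add_adjacent_intervals
    (hI 0 (1 / 3) le_rfl (by norm_num) (by norm_num))
    (hI (1 / 3) (2 / 3) (by norm_num) (by norm_num) (by norm_num))
  have s2 := intervalIntegral.integral_add_adjacent_intervals
    (hI 0 (2 / 3) le_rfl (by norm_num) (by norm_num))
    (hI (2 / 3) 1 (by norm_num) (by norm_num) le_rfl)
  have t1 := rb_trap (a := 0) (b := 1 / 3) le_rfl (by norm_num) (by norm_num)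
  have t2 := rb_trap (a := 1 / 3) (b := 2 / 3) (by norm_num) (by norm_num) (by norm_num)
  have t3 := rb_trap (a := 2 / 3) (b := 1) (by norm_num) (by norm_num) le_rfl
  -- the values
  have v0 : rbF 0 = Real.log 2 := by
    unfold rbF; simp
  have v1 : 2 * rbF 1 = Real.log 2 := by
    unfold rbF
    rw [mul_one, Real.cos_pi_div_four, ← Real.log_rpow (by positivity)]
    congr 1
    rw [show (2 : ℝ) * (Real.sqrt 2 / 2) = Real.sqrt 2 by ring]
    norm_num
  have v2 : 2 * rbF (2 / 3) = Real.log 3 := by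
    unfold rbF
    rw [show Real.pi * (2 / 3) / 4 = Real.pi / 6 by ring, Real.cos_pi_div_six,
      show (2 : ℝ) * (Real.sqrt 3 / 2) = Real.sqrt 3 by ring, Real.log_sqrt (by norm_num)]
    ring
  have v3 : 2 * rbF (1 / 3) = Real.log (2 + Real.sqrt 3) := by
    unfold rbF
    have hc := rb_cos (s := 1 / 3) ⟨by norm_num, by norm_num⟩
    have e : Real.log (2 + Real.sqrt 3) =
        Real.log ((2 * Real.cos (Real.pi * (1 / 3) / 4)) ^ 2) := by
      congr 1
      rw [mul_pow, Real.cos_sq, show 2 * (Real.pi * (1 / 3) / 4) = Real.pi / 6 by ring,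
        Real.cos_pi_div_six]
      ring
    rw [e, Real.log_pow]
    push_cast
    ring
  -- the number
  have num : 69 / 10 ≤ 3 * Real.log 2 + 2 * Real.log (2 + Real.sqrt 3) + 2 * Real.log 3 := by
    have h3 : (1732 / 1000 : ℝ) ≤ Real.sqrt 3 := Real.le_sqrt_of_sq_le (by norm_num)
    have e1 : 3 * Real.log 2 + 2 * Real.log (2 + Real.sqrt 3) + 2 * Real.log 3 =
        Real.log (2 ^ 3 * (2 + Real.sqrt 3) ^ 2 * 3 ^ 2) := by
      rw [Real.log_mul (by positivity) (by positivity), Real.log_mul (by positivity) (by positivity),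
        Real.log_pow, Real.log_pow, Real.log_pow]
      push_cast
      ring
    rw [e1, Real.le_log_iff_exp_le (by positivity)]
    have e2 : Real.exp (69 / 10) * Real.exp (1 / 10) = Real.exp 1 ^ 7 := by
      rw [← Real.exp_add, ← Real.exp_nat_mul]
      norm_num
    have e3 : (1105 / 1000 : ℝ) ≤ Real.exp (1 / 10) := by
      have := Real.quadratic_le_exp_of_nonneg (x := 1 / 10) (by norm_num)
      norm_num at this
      linarith
    have e4 : Real.exp 1 ^ 7 ≤ 1097 := by
      have h := Real.exp_one_lt_d9.le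
      calc Real.exp 1 ^ 7 ≤ (2.7182818286 : ℝ) ^ 7 :=
            pow_le_pow_left₀ (Real.exp_pos 1).le h 7
        _ ≤ 1097 := by norm_num
    have e5 := Real.exp_pos (69 / 10)
    have e6 : Real.exp (69 / 10) ≤ 1000 := by nlinarith
    refine e6.trans ?_
    nlinarith
  linarith

theorem rb0 : 575 / 1000 ≤ (gam 0 (1 / 4)).re := by
  have hodd : CC (-(1 / 4)) = -CC (1 / 4) := by
    unfold CC
    have : ∀ s : ℝ, cc ((s : ℂ) * -(1 / 4)) = cc ((s : ℂ) * (1 / 4)) := by
      intro s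
      rw [mul_neg, cc_neg]
    simp only [this]
    ring
  have e : gam 0 (1 / 4) = ((∫ s in (0 : ℝ)..1, rbF s : ℝ) : ℂ) := by
    unfold gam
    rw [add_zero, sub_zero, show (1 / 4 : ℂ) - 1 / 2 = -(1 / 4) by norm_num, hodd]
    have h1 : CC (1 / 4) = 1 / 4 * ((∫ s in (0 : ℝ)..1, rbF s : ℝ) : ℂ) := by
      unfold CC
      rw [← intervalIntegral.integral_ofReal]
      congr 1
      apply intervalIntegral.integral_congr
      intro s hs
      rw [Set.uIcc_of_le zero_le_one] at hs
      have hc := rb_cos hs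
      change cc ((s : ℂ) * (1 / 4)) = ((rbF s : ℝ) : ℂ)
      unfold rbF cc
      rw [Complex.ofReal_log hc.le]
      push_cast
      congr 3
      ring
    rw [h1]
    ring
  rw [e, Complex.ofReal_re]
  exact rb_int

private lemma rb_t2 {f f' f'' : ℝ → ℝ} {M : ℝ}
    (h1 : ∀ s, 0 ≤ s → s ≤ 1 → HasDerivAt f (f' s) s)
    (h2 : ∀ s, 0 ≤ s → s ≤ 1 → HasDerivAt f' (f'' s) s)
    (h3 : ∀ s, 0 ≤ s → s ≤ 1 → -M ≤ f'' s) : f 0 + f' 0 - M / 2 ≤ f 1 := by
  have A : ∀ s ∈ Set.Icc (0 : ℝ) 1, f' 0 - M * s ≤ f' s := by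
    have hm : MonotoneOn (fun s => f' s + M * s) (Set.Icc 0 1) := by
      refine monotoneOn_of_hasDerivWithinAt_nonneg (convex_Icc 0 1) (f' := fun s => f'' s + M)
        ?_ ?_ ?_
      · intro s hs
        have c1 := (h2 s hs.1 hs.2).continuousAt
        exact (c1.add (by fun_prop)).continuousWithinAt
      · intro s hs
        rw [interior_Icc] at hs
        have d1 := h2 s hs.1.le hs.2.le
        have d2 : HasDerivAt (fun s : ℝ => M * s) M s := by
          simpa using (hasDerivAt_id s).const_mul M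
        exact (d1.add d2).hasDerivWithinAt
      · intro s hs
        rw [interior_Icc] at hs
        linarith [h3 s hs.1.le hs.2.le]
    intro s hs
    have := hm (Set.left_mem_Icc.2 zero_le_one) hs hs.1
    simp only [mul_zero, add_zero] at this
    linarith
  have hm : MonotoneOn (fun s => f s - (f' 0 * s - M / 2 * s ^ 2)) (Set.Icc 0 1) := by
    refine monotoneOn_of_hasDerivWithinAt_nonneg (convex_Icc 0 1)
      (f' := fun s => f' s - (f' 0 - M * s)) ?_ ?_ ?_
    · intro s hs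
      have c1 := (h1 s hs.1 hs.2).continuousAt
      exact (c1.sub (by fun_prop)).continuousWithinAt
    · intro s hs
      rw [interior_Icc] at hs
      have d1 := h1 s hs.1.le hs.2.le
      have d2 : HasDerivAt (fun s : ℝ => f' 0 * s - M / 2 * s ^ 2) (f' 0 - M * s) s := by
        have e1 := (hasDerivAt_id s).const_mul (f' 0)
        have e2 := (hasDerivAt_pow 2 s).const_mul (M / 2)
        refine (e1.sub e2).congr_deriv ?_
        push_cast
        ring
      exact (d1.sub d2).hasDerivWithinAt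
    · intro s hs
      rw [interior_Icc] at hs
      linarith [A s ⟨hs.1.le, hs.2.le⟩]
  have := hm (Set.left_mem_Icc.2 zero_le_one) (Set.right_mem_Icc.2 zero_le_one) zero_le_one
  norm_num at this
  linarith

private lemma rb_tan1 {w : ℝ} (h0 : 0 ≤ w) (h1 : w ≤ 1 / 4) : Real.tan (Real.pi * w) ≤ 1 := by
  have hpi := Real.pi_pos
  rw [← Real.tan_pi_div_four]
  rcases h1.lt_or_eq with h | h
  · exact (Real.tan_lt_tan_of_lt_of_lt_pi_div_two (by nlinarith) (by linarith)
      (by nlinarith)).le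
  · rw [h]
    exact le_of_eq (by congr 1; ring)

private lemma rb_tan2 {w : ℝ} (h0 : 0 ≤ w) (h1 : w ≤ 3549 / 10000) :
    Real.tan (Real.pi * w) ≤ 235 / 100 := by
  have hpi := Real.pi_pos
  have hpi1 := Real.pi_gt_d4
  have hpi2 := Real.pi_lt_d4
  have hc : 43 / 100 ≤ Real.cos (Real.pi * w) := by
    rw [← Real.sin_pi_div_two_sub]
    have h2 : (4558 / 10000 : ℝ) ≤ Real.pi / 2 - Real.pi * w := by nlinarith
    have h3 := Real.sin_gt_sub_cube (x := 4558 / 10000) (by norm_num)
    have h4 : Real.sin (4558 / 10000) ≤ Real.sin (Real.pi / 2 - Real.pi * w) :=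
      Real.sin_le_sin_of_le_of_le_pi_div_two (by linarith) (by nlinarith) h2
    norm_num at h3
    linarith
  rw [Real.tan_eq_sin_div_cos, div_le_iff₀ (by linarith)]
  have := Real.sin_le_one (Real.pi * w)
  linarith

private lemma rb_cot {w : ℝ} (h0 : 1 / 6 ≤ w) (h1 : w ≤ 1 / 2) :
    Real.cot (Real.pi * w) ≤ 17321 / 10000 := by
  have hpi := Real.pi_pos
  rw [Real.cot_eq_cos_div_sin]
  have hs : 1 / 2 ≤ Real.sin (Real.pi * w) := by
    rw [← Real.sin_pi_div_six]
    exact Real.sin_le_sin_of_le_of_le_pi_div_two (by linarith) (by nlinarith) (by nlinarith)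
  rw [div_le_iff₀ (by linarith)]
  have hsc := Real.sin_sq_add_cos_sq (Real.pi * w)
  apply le_of_sq_le_sq _ (by positivity)
  nlinarith

/-- one term -/
private lemma rb_term {s u : ℝ} (hs0 : 0 ≤ s) (hs1 : s ≤ 1) (h1 : |u| ≤ 1169 / 10000)
    (h2 : u ≤ 1049 / 10000) :
    (u ≤ 0 → Real.tan (Real.pi * (1 / 4 + s * u)) * u ^ 2 ≤ 1367 / 100000) ∧
    Real.tan (Real.pi * (1 / 4 + s * u)) * u ^ 2 ≤ 2587 / 100000 ∧
    (0 ≤ u → Real.tan (Real.pi * (1 / 4 + s * u)) * u ^ 2 ≤ 235 / 100 * u ^ 2) := by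
  have h3 := abs_le.1 h1
  have a : u ≤ 0 → Real.tan (Real.pi * (1 / 4 + s * u)) * u ^ 2 ≤ 1367 / 100000 := by
    intro hu
    have h4 := rb_tan1 (w := 1 / 4 + s * u) (by nlinarith) (by nlinarith)
    have h5 : Real.tan (Real.pi * (1 / 4 + s * u)) * u ^ 2 ≤ 1 * u ^ 2 :=
      mul_le_mul_of_nonneg_right h4 (sq_nonneg u)
    nlinarith
  have b : 0 ≤ u → Real.tan (Real.pi * (1 / 4 + s * u)) * u ^ 2 ≤ 235 / 100 * u ^ 2 := by
    intro hu
    have h4 := rb_tan2 (w := 1 / 4 + s * u) (by nlinarith) (by nlinarith)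
    exact mul_le_mul_of_nonneg_right h4 (sq_nonneg u)
  refine ⟨a, ?_, b⟩
  rcases le_or_gt u 0 with hu | hu
  · have := a hu
    linarith
  · have := b hu.le
    nlinarith

theorem rb_real {x r : ℝ} (h1 : |x| ≤ 1004 / 10000) (h2 : 2335 / 10000 ≤ r)
    (h3 : r ≤ 2545 / 10000) : 1 / 2 ≤ (gam x r).re := by
  have hpi := Real.pi_pos
  have hpi2 := Real.pi_lt_d2
  have hx := abs_le.1 h1
  set b : ℝ := r - 1 / 4 with hb
  have hb1 : -(165 / 10000) ≤ b := by linarith
  have hb2 : b ≤ 45 / 10000 := by linarith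
  have hdom : ∀ s : ℝ, 0 ≤ s → s ≤ 1 → Dom (0 + s * (x : ℂ)) (1 / 4 + s * (b : ℂ)) := by
    intro s hs0 hs1
    have e1 : (1 / 4 + s * (b : ℂ) + (0 + s * (x : ℂ))) = ((1 / 4 + s * (b + x) : ℝ) : ℂ) := by
      push_cast; ring
    have e2 : (1 / 4 + s * (b : ℂ) - (0 + s * (x : ℂ))) = ((1 / 4 + s * (b - x) : ℝ) : ℂ) := by
      push_cast; ring
    have e3 : (1 / 4 + s * (b : ℂ)) = ((1 / 4 + s * b : ℝ) : ℂ) := by
      push_cast; ring
    refine ⟨?_, ?_, ?_, ?_⟩
    · rw [e1, Complex.ofReal_re, abs_lt]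
      constructor <;> nlinarith
    · rw [e2, Complex.ofReal_re, abs_lt]
      constructor <;> nlinarith
    · rw [e3, Complex.ofReal_re]
      nlinarith
    · rw [e3, Complex.ofReal_re]
      nlinarith
  have hre : ∀ {f : ℝ → ℂ} {f' : ℂ} {s : ℝ}, HasDerivAt f f' s →
      HasDerivAt (fun s => (f s).re) f'.re s := fun h => by
    have h2 := Complex.reCLM.hasFDerivAt.comp_hasDerivAt _ h
    exact h2
  have key := rb_t2 (M := Real.pi * (405 / 10000))
    (fun s h0 h1 => hre (gam_d1 (hdom s h0 h1))) (fun s h0 h1 => hre (gam_d2 (hdom s h0 h1))) ?_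
  · have e0 : (0 : ℂ) + ((0 : ℝ) : ℂ) * x = 0 := by simp
    have e1 : (1 / 4 : ℂ) + ((0 : ℝ) : ℂ) * (b : ℂ) = 1 / 4 := by simp
    have e2 : (0 : ℂ) + ((1 : ℝ) : ℂ) * x = x := by simp
    have e3 : (1 / 4 : ℂ) + ((1 : ℝ) : ℂ) * (b : ℂ) = r := by
      rw [hb]; push_cast; ring
    rw [e0, e1, e2, e3] at key
    have hgy : gamy 0 (1 / 4) = 0 := by
      unfold gamy
      rw [add_zero, sub_zero, sub_self]
    have hgt : gamt 0 (1 / 4) = 0 := by
      unfold gamt
      rw [add_zero, sub_zero, show (1 / 4 : ℂ) - 1 / 2 = -(1 / 4) by norm_num, cc_neg]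
      ring
    rw [hgy, hgt, zero_mul, zero_mul, add_zero, Complex.zero_re] at key
    have h4 := rb0
    nlinarith
  · intro s hs0 hs1
    have e1 : (Real.pi : ℂ) * (1 / 4 + s * (b : ℂ) + (0 + s * (x : ℂ))) =
        ((Real.pi * (1 / 4 + s * (b + x)) : ℝ) : ℂ) := by push_cast; ring
    have e2 : (Real.pi : ℂ) * (1 / 4 + s * (b : ℂ) - (0 + s * (x : ℂ))) =
        ((Real.pi * (1 / 4 + s * (b - x)) : ℝ) : ℂ) := by push_cast; ring
    have e3 : (Real.pi : ℂ) * (1 / 4 + s * (b : ℂ)) =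
        ((Real.pi * (1 / 4 + s * b) : ℝ) : ℂ) := by push_cast; ring
    have e4 : -QQ (0 + s * (x : ℂ)) (1 / 4 + s * (b : ℂ)) x b =
        ((-(Real.pi * (Real.tan (Real.pi * (1 / 4 + s * (b + x))) * (b + x) ^ 2 +
          Real.tan (Real.pi * (1 / 4 + s * (b - x))) * (b - x) ^ 2 +
          2 * Real.cot (Real.pi * (1 / 4 + s * b)) * b ^ 2)) : ℝ) : ℂ) := by
      unfold QQ
      rw [e1, e2, e3, ← Complex.ofReal_tan, ← Complex.ofReal_tan, ← Complex.ofReal_cot]
      push_cast
      ring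
    rw [e4, Complex.ofReal_re]
    have hk := rb_cot (w := 1 / 4 + s * b) (by nlinarith) (by nlinarith)
    have hk2 : 2 * Real.cot (Real.pi * (1 / 4 + s * b)) * b ^ 2 ≤ 95 / 100000 := by
      have : Real.cot (Real.pi * (1 / 4 + s * b)) * b ^ 2 ≤ 17321 / 10000 * b ^ 2 :=
        mul_le_mul_of_nonneg_right hk (sq_nonneg b)
      nlinarith
    have T1 := rb_term (u := b + x) hs0 hs1 (by rw [abs_le]; constructor <;> linarith)
      (by linarith)
    have T2 := rb_term (u := b - x) hs0 hs1 (by rw [abs_le]; constructor <;> linarith)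
      (by linarith)
    have hsum : Real.tan (Real.pi * (1 / 4 + s * (b + x))) * (b + x) ^ 2 +
          Real.tan (Real.pi * (1 / 4 + s * (b - x))) * (b - x) ^ 2 ≤ 3955 / 100000 := by
      rcases le_or_gt (b + x) 0 with hu | hu
      · have := T1.1 hu
        linarith [T2.2.1]
      · rcases le_or_gt (b - x) 0 with hv | hv
        · have := T2.1 hv
          linarith [T1.2.1]
        · have := T2.2.2 hv.le
          nlinarith [T1.2.1]
    have : Real.pi * (Real.tan (Real.pi * (1 / 4 + s * (b + x))) * (b + x) ^ 2 +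
          Real.tan (Real.pi * (1 / 4 + s * (b - x))) * (b - x) ^ 2 +
          2 * Real.cot (Real.pi * (1 / 4 + s * b)) * b ^ 2) ≤ Real.pi * (405 / 10000) := by
      apply mul_le_mul_of_nonneg_left _ hpi.le
      linarith
    linarith

theorem rb_big {y t : ℂ} (hy : Reg y) (h1 : 2335 / 10000 ≤ t.re) (h2 : t.re ≤ 2545 / 10000)
    (h3 : |t.im| ≤ 135 / 10000) : 1 / 2 ≤ (gam y t).re := by
  have hyr := rg_re hy
  have hyr' := abs_le.1 hyr
  have hyi := rg_im hy
  have hyn := hy.r2
  have h4 := rb_real hyr h1 h2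
  refine h4.trans ?_
  have ey : y = (y.re : ℂ) + (y.im : ℂ) * I := (Complex.re_add_im y).symm
  have et : t = (t.re : ℂ) + (t.im : ℂ) * I := (Complex.re_add_im t).symm
  have key := ge_real (x := y.re) (r := t.re) (η := y.im) (θ := t.im) ?_
  · rw [← ey, ← et] at key
    exact key
  · intro s hs0 hs1
    refine ⟨⟨?_, ?_, ?_, ?_⟩, ?_⟩
    · have : ((t.re : ℂ) + s * ((t.im : ℂ) * I) + ((y.re : ℂ) + s * ((y.im : ℂ) * I))).re =
          t.re + y.re := by simp
      rw [this, abs_lt]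
      constructor <;> linarith
    · have : ((t.re : ℂ) + s * ((t.im : ℂ) * I) - ((y.re : ℂ) + s * ((y.im : ℂ) * I))).re =
          t.re - y.re := by simp
      rw [this, abs_lt]
      constructor <;> linarith
    · have : ((t.re : ℂ) + s * ((t.im : ℂ) * I)).re = t.re := by simp
      rw [this]
      linarith
    · have : ((t.re : ℂ) + s * ((t.im : ℂ) * I)).re = t.re := by simp
      rw [this]
      linarith
    · have e1 : (y.re : ℂ) + s * ((y.im : ℂ) * I) = (y.re : ℂ) + ((s * y.im : ℝ) : ℂ) * I := by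
        push_cast; ring
      have e2 : (t.re : ℂ) + s * ((t.im : ℂ) * I) = (t.re : ℂ) + ((s * t.im : ℝ) : ℂ) * I := by
        push_cast; ring
      rw [e1, e2]
      have h5 : |s * t.im| ≤ 2 / 100 := by
        rw [abs_mul, abs_of_nonneg hs0]
        have := abs_nonneg t.im
        nlinarith
      have h6 : |s * y.im| ≤ 55 / 1000 := by
        rw [abs_mul, abs_of_nonneg hs0, abs_of_neg hyn]
        nlinarith
      have h7 := qlb (r := t.re) (θ := s * t.im) (x := y.re) (η := s * y.im) (by linarith)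
        (by linarith) (by linarith) h5 h6 y.im t.im
      have h8 := sq_nonneg t.im
      have h9 := sq_nonneg y.im
      linarith

end Pool.Agent.XV
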