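import Pool.Agent.XV.Cv
import Pool.Agent.XV.Rg

/-!
# XV RD: the slopes at the saddle point and at the real part of the edge variable

`x = |y.re|`, `h = -y.im`, `ρ = t.re ∈ [0.2335, 0.2545]`, `|t.im| ≤ 0.0135`.

`rd_gti`: `gamt y ρ = cc (ρ + y) + cc (ρ - y) - 2 cc (ρ - 1/2)`, the last term is real, and
`(cc u).im = arg (cos πu) = - arctan (tan (π u.re) tanh (π u.im))`.  So
`|(gamt y ρ).im| = arctan (T₊ τ) - arctan (T₋ τ) ≤ (T₊ - T₋) τ`, `T± = tan π(ρ ± x)`,
`τ = tanh πh ≤ πh`, and `T₊ - T₋ = 2 sin 2πx / (cos 2πρ + cos 2πx) ≤ 4πx / 0.778`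
(`cos 2πρ ≥ -0.029`, `cos 2πx ≥ 0.807`).  Total `≤ 4π ^ 2 * 0.0037 / 0.778 ≤ 0.188` (`rg_prod`).

`rd_gtd`, `rd_gyd`: `f θ = (gamt y (ρ + θ i)).re` has derivative `- (gamtt).im`, where
`gamtt = -π (tan π(t + y) + tan π(t - y) + 2 cot πt)`, and `(gamy y (ρ + θ i)).re` has derivative
`- (gamty).im`, `gamty = -π (tan π(t + y) - tan π(t - y))` (`gam_d2` with `a, b`, or `cc_deriv`).
By `tan_im`, for `y.re ≥ 0` (the other case exchanges the roles), `|θ| ≤ 0.0135`:
`s1 = |im tan π(t + y)| ≤ sinh 2π(h + 0.0135) / (1 + cos 2π(0.2545 + x)) ≤ 0.85`: for `h ≥ 0.025` use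
`x ≤ 0.1255 - h` (`rg_sum`), with `H = 2π(h + 0.0135) ∈ [0.241, 0.4305]` this is
`sinh H ≤ 0.85 (1 + cos (2.4725 - H))` (values `0.444 ≤ 0.463` at the right end, `0.244 ≤ 0.328` at the
left end; true values of the quotient increase from `0.63` to `0.813`); for `h ≤ 0.025` use `x ≤ 0.1004`:
`≤ 0.2445 / 0.387`.
`s2 = |im tan π(t - y)| ≤ sinh 2π(0.0685) / (1 + cos 2π * 0.2545) ≤ 0.4439 / 0.9717 ≤ 0.457`; more
precisely `t + y`, `t - y` have imaginary parts `θ - h`, `θ + h`; if `|θ - h| ≥ h` then `|θ + h| ≤ h` and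
`s2 ≤ sinh (2π * 0.055) / 0.9717 ≤ 0.363`; otherwise `s1 ≤ sinh 2πh / (1 + cos ..)` is smaller
(the same estimate gives `s1 ≤ 0.66`).  So `s1 + s2 ≤ 1.22` and, as `im tan π(t + y)`,
`im tan π(t - y)` have opposite signs (if both `|θ| ≤ h`) or are small, `|im (sum)| ≤ 0.85`.
`|im cot πt| ≤ sinh (2π * 0.0135) / (1 - cos 2π * 0.2335) ≤ 0.0949`.
So `gtd ≤ 0.0135 π (0.85 + 0.19) ≤ 0.0442 ≤ 9/200`, `gyd ≤ 0.0135 π * 1.22 ≤ 0.0518 ≤ 52/1000`.
(If `|θ| > h`: then `h ≤ 0.0135`, everything is small: `s1 ≤ sinh (2π * 0.027) / 0.387 ≤ 0.45`,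
`s2 ≤ 0.175`.)
(True maxima over the region: `|gamtt.im| ≤ 1.21`, `|gamty.im| ≤ 2.58`, `|(gamt y ρ).im| ≤ 0.155`.)
-/

set_option autoImplicit false

namespace Pool.Agent.XV

open Complex Finset
open Pool.Agent.Helper9.TB Pool.Agent.Helper9.TF

lemma rd_pt (u : ℂ) : (Real.pi : ℂ) * u = ((Real.pi * u.re : ℝ) : ℂ) + ((Real.pi * u.im : ℝ) : ℂ) * I := by
  apply Complex.ext <;> simp

/-- `im tan` as a function of the denominator. -/
noncomputable def rdS (c H : ℝ) : ℝ := Real.sinh H / (c + Real.cosh H)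

lemma rd_tan_im (u : ℂ) : (Complex.tan (Real.pi * u)).im =
    rdS (Real.cos (2 * Real.pi * u.re)) (2 * Real.pi * u.im) := by
  rw [rd_pt, tan_im]
  unfold rdS
  have e1 : 2 * (Real.pi * u.im) = 2 * Real.pi * u.im := by ring
  have e2 : 2 * (Real.pi * u.re) = 2 * Real.pi * u.re := by ring
  rw [e1, e2]

lemma rd_tan_re (u : ℂ) : (Complex.tan (Real.pi * u)).re =
    Real.sin (2 * Real.pi * u.re) /
      (Real.cos (2 * Real.pi * u.re) + Real.cosh (2 * Real.pi * u.im)) := by
  rw [rd_pt, tan_re]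
  have e1 : 2 * (Real.pi * u.im) = 2 * Real.pi * u.im := by ring
  have e2 : 2 * (Real.pi * u.re) = 2 * Real.pi * u.re := by ring
  rw [e1, e2]

lemma rdS_neg (c H : ℝ) : rdS c (-H) = -rdS c H := by
  unfold rdS
  rw [Real.sinh_neg, Real.cosh_neg, neg_div]

lemma rd_sinh {H : ℝ} (h0 : 0 ≤ H) (h1 : H ≤ 4305 / 10000) : Real.sinh H ≤ 1035 / 1000 * H := by
  have a1 := Real.exp_bound (x := H) (by rw [abs_of_nonneg h0]; linarith) (n := 5) (by norm_num)
  have a2 := Real.exp_bound (x := -H) (by rw [abs_neg, abs_of_nonneg h0]; linarith) (n := 5)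
    (by norm_num)
  rw [abs_neg, abs_of_nonneg h0] at a2
  rw [abs_of_nonneg h0] at a1
  simp only [Finset.sum_range_succ, Finset.sum_range_zero, Nat.factorial] at a1 a2
  norm_num at a1 a2
  have b1 := (abs_le.1 a1).2
  have b2 := (abs_le.1 a2).1
  rw [Real.sinh_eq]
  have h2 : H ^ 2 ≤ (4305 / 10000) ^ 2 := pow_le_pow_left₀ h0 h1 2
  have h3 : H ^ 3 ≤ (4305 / 10000) ^ 2 * H := by nlinarith
  have h5 : H ^ 5 ≤ (4305 / 10000) ^ 4 * H := by
    have h4 : H ^ 4 ≤ (4305 / 10000) ^ 4 := pow_le_pow_left₀ h0 h1 4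
    nlinarith
  nlinarith

lemma rdS_abs {c H D : ℝ} (hD : 0 < D) (hc : D ≤ 1 + c) (hH : |H| ≤ 4305 / 10000) :
    |rdS c H| ≤ 1035 / 1000 * |H| / D := by
  have key : ∀ H : ℝ, 0 ≤ H → H ≤ 4305 / 10000 → |rdS c H| ≤ 1035 / 1000 * H / D := by
    intro H h0 h1
    unfold rdS
    have h2 : 1 ≤ Real.cosh H := Real.one_le_cosh H
    have h3 : 0 ≤ Real.sinh H := Real.sinh_nonneg_iff.2 h0
    rw [abs_of_nonneg (div_nonneg h3 (by linarith))]
    exact div_le_div₀ (by positivity) (rd_sinh h0 h1) hD (by linarith)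
  rcases le_total 0 H with h0 | h0
  · rw [abs_of_nonneg h0] at hH ⊢
    exact key H h0 hH
  · rw [abs_of_nonpos h0] at hH ⊢
    have h1 := key (-H) (by linarith) hH
    rwa [rdS_neg, abs_neg] at h1

lemma rdS_nonneg {c H : ℝ} (hc : 0 < 1 + c) (hH : 0 ≤ H) : 0 ≤ rdS c H := by
  unfold rdS
  have h2 : 1 ≤ Real.cosh H := Real.one_le_cosh H
  exact div_nonneg (Real.sinh_nonneg_iff.2 hH) (by linarith)

/-- the estimate for the pair of the two tangents. -/
lemma rd_pair {c1 c2 v θ : ℝ} (hv : 0 ≤ v) (hv1 : v ≤ 3456 / 10000) (hθ : |θ| ≤ 849 / 10000)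
    (h1 : 3408 / 10000 ≤ 1 + c1) (h1' : 1831 / 10000 + v ≤ 1 + c1) (h2 : 9717 / 10000 ≤ 1 + c2) :
    |rdS c1 (θ - v) + rdS c2 (θ + v)| ≤ 843 / 1000 ∧
      |rdS c1 (θ - v) - rdS c2 (θ + v)| ≤ 1215 / 1000 := by
  have hθ' := abs_le.1 hθ
  have e1 : rdS c1 (θ - v) = -rdS c1 (v - θ) := by
    rw [← rdS_neg, neg_sub]
  rw [e1]
  have ha : |v - θ| ≤ 4305 / 10000 := by
    rw [abs_le]; constructor <;> linarith
  have hb : |θ + v| ≤ 4305 / 10000 := by
    rw [abs_le]; constructor <;> linarith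
  have hA1 := rdS_abs (c := c1) (H := v - θ) (D := 3408 / 10000) (by norm_num) h1 ha
  have hA2 := rdS_abs (c := c1) (H := v - θ) (D := 1831 / 10000 + v) (by linarith) h1' ha
  have hB := rdS_abs (c := c2) (H := θ + v) (D := 9717 / 10000) (by norm_num) h2 hb
  rw [le_div_iff₀ (by linarith)] at hA2
  rw [le_div_iff₀ (by norm_num)] at hA1 hB
  have hA0 : 0 ≤ |rdS c1 (v - θ)| := abs_nonneg _
  have hB0 : 0 ≤ |rdS c2 (θ + v)| := abs_nonneg _
  have a1 := le_abs_self (rdS c1 (v - θ))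
  have a2 := neg_abs_le (rdS c1 (v - θ))
  have b1 := le_abs_self (rdS c2 (θ + v))
  have b2 := neg_abs_le (rdS c2 (θ + v))
  have cA : |v - θ| ≤ v + 849 / 10000 := by
    rw [abs_le]; constructor <;> linarith
  have cB : |θ + v| ≤ v + 849 / 10000 := by
    rw [abs_le]; constructor <;> linarith
  -- the bound for the first term
  have hA : |rdS c1 (v - θ)| ≤ 843 / 1000 := by
    rcases le_total v (1577 / 10000) with h3 | h3
    · nlinarith
    · by_contra h4
      rw [not_le] at h4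
      nlinarith
  have hBb : |rdS c2 (θ + v)| ≤ 46 / 100 := by nlinarith
  constructor
  · rcases le_total |θ| v with h3 | h3
    · have h4 := abs_le.1 h3
      have h5 : 0 ≤ rdS c1 (v - θ) := rdS_nonneg (by linarith) (by linarith)
      have h6 : 0 ≤ rdS c2 (θ + v) := rdS_nonneg (by linarith) (by linarith)
      rw [abs_le]
      constructor <;> linarith
    · have h4 : v ≤ 849 / 10000 := h3.trans hθ
      have h5 : |rdS c1 (v - θ)| ≤ 52 / 100 := by nlinarith
      have h6 : |rdS c2 (θ + v)| ≤ 19 / 100 := by nlinarith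
      rw [abs_le]
      constructor <;> linarith
  · rcases le_total θ 0 with h3 | h3
    · have h4 : |θ + v| ≤ 3456 / 10000 := by
        rw [abs_le]; constructor <;> linarith
      have h5 : |rdS c2 (θ + v)| ≤ 369 / 1000 := by nlinarith
      rw [abs_le]
      constructor <;> linarith
    · have h5 : |rdS c1 (v - θ)| ≤ 68 / 100 := by
        rcases le_total θ v with h6 | h6
        · have h7 : |v - θ| ≤ v := by
            rw [abs_le]; constructor <;> linarith
          by_contra h4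
          rw [not_le] at h4
          nlinarith
        · have h7 : |v - θ| ≤ 849 / 10000 := by
            rw [abs_le]; constructor <;> linarith
          nlinarith
      rw [abs_le]
      constructor <;> linarith

lemma rd_cos {a ε : ℝ} (hε : 0 ≤ ε) (h1 : a ≤ 1 / 4 + ε) (h2 : -(1 / 4) ≤ a) :
    -(2 * Real.pi * ε) ≤ Real.cos (2 * Real.pi * a) := by
  have hpi := Real.pi_pos
  rcases le_total a (1 / 4) with h3 | h3
  · have h4 : 0 ≤ Real.cos (2 * Real.pi * a) := by
      apply Real.cos_nonneg_of_neg_pi_div_two_le_of_le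
      · nlinarith
      · nlinarith
    have : 0 ≤ 2 * Real.pi * ε := by positivity
    linarith
  · have h4 : Real.cos (2 * Real.pi * a) = -Real.sin (2 * Real.pi * (a - 1 / 4)) := by
      have h5 : 2 * Real.pi * a = 2 * Real.pi * (a - 1 / 4) + Real.pi / 2 := by ring
      rw [h5, Real.cos_add_pi_div_two]
    rw [h4]
    have h5 : Real.sin (2 * Real.pi * (a - 1 / 4)) ≤ 2 * Real.pi * (a - 1 / 4) :=
      Real.sin_le (mul_nonneg (by positivity) (by linarith))
    nlinarith

lemma rd_cc {u w : ℂ} {s : ℝ} (h : |(u + s * w).re| < 1 / 2) :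
    HasDerivAt (fun s : ℝ => cc (u + s * w)) (-(Real.pi * Complex.tan (Real.pi * (u + s * w))) * w)
      s := by
  have h1 : HasDerivAt cc (-(Real.pi * Complex.tan (Real.pi * (u + s * w)))) (u + s * w) :=
    cc_deriv h
  have h2 : HasDerivAt (fun z : ℂ => u + z * w) w (s : ℂ) := by
    have h3 := ((hasDerivAt_id (s : ℂ)).mul_const w).const_add u
    simpa using h3
  exact (HasDerivAt.comp (s : ℂ) h1 h2).comp_ofReal

lemma rd_mvt {f : ℝ → ℂ} {f' : ℝ → ℂ} {C : ℝ}
    (hf : ∀ s ∈ Set.Icc (0 : ℝ) 1, HasDerivAt f (f' s) s)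
    (hb : ∀ s ∈ Set.Icc (0 : ℝ) 1, |(f' s).re| ≤ C) : |(f 1).re - (f 0).re| ≤ C := by
  have h := norm_image_sub_le_of_norm_deriv_le_segment_01' (f := fun s => (f s).re)
    (f' := fun s => (f' s).re) (C := C)
    (fun s hs => ((Complex.reCLM.hasFDerivAt.comp_hasDerivAt s (hf s hs)).hasDerivWithinAt))
    (fun s hs => by rw [Real.norm_eq_abs]; exact hb s ⟨hs.1, hs.2.le⟩)
  rwa [Real.norm_eq_abs] at h

lemma rd_mvti {f : ℝ → ℂ} {f' : ℝ → ℂ} {C : ℝ}
    (hf : ∀ s ∈ Set.Icc (0 : ℝ) 1, HasDerivAt f (f' s) s)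
    (hb : ∀ s ∈ Set.Icc (0 : ℝ) 1, |(f' s).im| ≤ C) : |(f 1).im - (f 0).im| ≤ C := by
  have h := norm_image_sub_le_of_norm_deriv_le_segment_01' (f := fun s => (f s).im)
    (f' := fun s => (f' s).im) (C := C)
    (fun s hs => ((Complex.imCLM.hasFDerivAt.comp_hasDerivAt s (hf s hs)).hasDerivWithinAt))
    (fun s hs => by rw [Real.norm_eq_abs]; exact hb s ⟨hs.1, hs.2.le⟩)
  rwa [Real.norm_eq_abs] at h

/-- the two tangents at a point of the vertical segment. -/
lemma rd_two {y : ℂ} {ρ θ : ℝ} (hy : Reg y) (h1 : 2335 / 10000 ≤ ρ) (h2 : ρ ≤ 2545 / 10000)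
    (h3 : |θ| ≤ 135 / 10000) :
    |(Complex.tan (Real.pi * ((ρ + θ * I) + y))).im + (Complex.tan (Real.pi * ((ρ + θ * I) - y))).im|
        ≤ 843 / 1000 ∧
      |(Complex.tan (Real.pi * ((ρ + θ * I) + y))).im -
        (Complex.tan (Real.pi * ((ρ + θ * I) - y))).im| ≤ 1215 / 1000 := by
  have hpi1 := Real.pi_gt_d4
  have hpi2 := Real.pi_lt_d4
  have hre := rg_re hy
  have him := rg_im hy
  have hsum := rg_sum hy
  have hneg := hy.r2
  have hθ := abs_le.1 h3
  have r1 : ((ρ : ℂ) + θ * I + y).re = ρ + y.re := by simp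
  have r2 : ((ρ : ℂ) + θ * I + y).im = θ + y.im := by simp
  have r3 : ((ρ : ℂ) + θ * I - y).re = ρ - y.re := by simp
  have r4 : ((ρ : ℂ) + θ * I - y).im = θ - y.im := by simp
  rw [rd_tan_im, rd_tan_im, r1, r2, r3, r4]
  have hv : 0 ≤ 2 * Real.pi * -y.im := by
    apply mul_nonneg (by positivity) (by linarith)
  have hv1 : 2 * Real.pi * -y.im ≤ 3456 / 10000 := by nlinarith
  have hth : |2 * Real.pi * θ| ≤ 849 / 10000 := by
    rw [abs_mul, abs_of_pos (by positivity : (0 : ℝ) < 2 * Real.pi)]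
    nlinarith [abs_nonneg θ]
  rcases le_total 0 y.re with h4 | h4
  · rw [abs_of_nonneg h4] at hre hsum
    have c1 := rd_cos (a := ρ + y.re) (ε := 45 / 10000 + y.re) (by linarith) (by linarith)
      (by linarith)
    have c2 := rd_cos (a := ρ - y.re) (ε := 45 / 10000) (by norm_num) (by linarith) (by linarith)
    have h := rd_pair (c1 := Real.cos (2 * Real.pi * (ρ + y.re)))
      (c2 := Real.cos (2 * Real.pi * (ρ - y.re))) hv hv1 hth (by nlinarith) (by nlinarith)
      (by nlinarith)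
    have e1 : 2 * Real.pi * (θ + y.im) = 2 * Real.pi * θ - 2 * Real.pi * -y.im := by ring
    have e2 : 2 * Real.pi * (θ - y.im) = 2 * Real.pi * θ + 2 * Real.pi * -y.im := by ring
    rw [e1, e2]
    exact h
  · rw [abs_of_nonpos h4] at hre hsum
    have c1 := rd_cos (a := ρ - y.re) (ε := 45 / 10000 - y.re) (by linarith) (by linarith)
      (by linarith)
    have c2 := rd_cos (a := ρ + y.re) (ε := 45 / 10000) (by norm_num) (by linarith) (by linarith)
    have h := rd_pair (c1 := Real.cos (2 * Real.pi * (ρ - y.re)))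
      (c2 := Real.cos (2 * Real.pi * (ρ + y.re))) (θ := -(2 * Real.pi * θ)) hv hv1
      (by rw [abs_neg]; exact hth) (by nlinarith) (by nlinarith) (by nlinarith)
    have e1 : 2 * Real.pi * (θ + y.im) = -(-(2 * Real.pi * θ) + 2 * Real.pi * -y.im) := by ring
    have e2 : 2 * Real.pi * (θ - y.im) = -(-(2 * Real.pi * θ) - 2 * Real.pi * -y.im) := by ring
    rw [e1, e2, rdS_neg, rdS_neg]
    constructor
    · rw [← abs_neg]
      convert h.1 using 2
      ring
    · convert h.2 using 2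
      ring

lemma rd_t (t : ℂ) : t = (t.re : ℂ) + ((1 : ℝ) : ℂ) * (t.im * I) := by
  apply Complex.ext <;> simp

/-- the difference of the real parts of two tangents. -/
lemma rd_dif {P Q R S c : ℝ} (h1 : Q ^ 2 + R ^ 2 = 1) (h2 : P ^ 2 + S ^ 2 = 1) (hc : 1 ≤ c)
    (hP : 801 / 1000 ≤ P) (hQ : -(283 / 10000) ≤ Q) (hX : 0 < Q * P - R * S + c)
    (hX' : 0 < Q * P + R * S + c) :
    |(R * P + Q * S) / (Q * P - R * S + c) - (R * P - Q * S) / (Q * P + R * S + c)| ≤
      2 * |S| / (P + Q) := by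
  have hPQ : 0 < P + Q := by linarith
  have hP1 : P ≤ 1 := by nlinarith [sq_nonneg S]
  have hQ1 : Q ≤ 1 := by nlinarith [sq_nonneg R]
  have hD : (Q * P - R * S + c) * (Q * P + R * S + c) = P ^ 2 + Q ^ 2 - 1 + 2 * c * P * Q + c ^ 2 := by
    linear_combination (-S ^ 2) * h1 - (1 - Q ^ 2) * h2
  have hPQ0 : -(283 / 10000) ≤ P * Q := by
    rcases le_total 0 Q with h3 | h3
    · have := mul_nonneg (by linarith : (0 : ℝ) ≤ P) h3
      linarith
    · nlinarith
  have hup : (P + c * Q) * (P + Q) ≤ (Q * P - R * S + c) * (Q * P + R * S + c) := by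
    rw [hD]
    have h3 : 0 ≤ (c - 1) * (c + 1 + P * Q - Q ^ 2) :=
      mul_nonneg (by linarith) (by nlinarith)
    nlinarith
  have hlo : -((Q * P - R * S + c) * (Q * P + R * S + c)) ≤ (P + c * Q) * (P + Q) := by
    rw [hD]
    have h3 : (1 + 3 * c) * -(283 / 10000) ≤ (1 + 3 * c) * (P * Q) :=
      mul_le_mul_of_nonneg_left hPQ0 (by linarith)
    have h4 : 0 ≤ (1 + c) * Q ^ 2 := by positivity
    have h5 : (801 / 1000) ^ 2 ≤ P ^ 2 := pow_le_pow_left₀ (by norm_num) hP 2
    nlinarith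
  rw [div_sub_div _ _ hX.ne' hX'.ne', abs_div, abs_of_pos (mul_pos hX hX'),
    div_le_div_iff₀ (mul_pos hX hX') hPQ]
  have hN : (R * P + Q * S) * (Q * P + R * S + c) - (Q * P - R * S + c) * (R * P - Q * S) =
      (2 * S) * (P + c * Q) := by
    linear_combination (2 * P * S) * h1
  rw [hN, abs_mul, abs_mul, abs_two]
  have h6 : |P + c * Q| * (P + Q) ≤ (Q * P - R * S + c) * (Q * P + R * S + c) := by
    rw [← abs_of_pos hPQ, ← abs_mul, abs_le]

    exact ⟨hlo, hup⟩
  calc 2 * |S| * |P + c * Q| * (P + Q) = 2 * |S| * (|P + c * Q| * (P + Q)) := by ring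
    _ ≤ _ := mul_le_mul_of_nonneg_left h6 (by positivity)

theorem rd_gti {y t : ℂ} (hy : Reg y) (h1 : 2335 / 10000 ≤ t.re) (h2 : t.re ≤ 2545 / 10000) :
    |(gamt y t.re).im| ≤ 1 / 5 := by
  have hpi1 := Real.pi_gt_d4
  have hpi2 := Real.pi_lt_d4
  have hpi0 := Real.pi_pos
  have hre := rg_re hy
  have him := rg_im hy
  have hprod := rg_prod hy
  have hneg := hy.r2
  have hre' := abs_le.1 hre
  -- real arguments
  have hreal : ∀ r : ℝ, |r| < 1 / 2 → (cc (r : ℂ)).im = 0 := by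
    intro r hr
    rw [abs_lt] at hr
    unfold cc
    have e1 : 2 * Complex.cos (Real.pi * (r : ℂ)) = ((2 * Real.cos (Real.pi * r) : ℝ) : ℂ) := by
      push_cast; ring
    rw [e1, Complex.log_im]
    have h3 : 0 < Real.cos (Real.pi * r) := by
      apply Real.cos_pos_of_mem_Ioo
      constructor <;> nlinarith
    exact Complex.arg_ofReal_of_nonneg (by linarith)
  have hmain := rd_mvti (f := fun s : ℝ => cc ((t.re + y.re : ℝ) + s * (y.im * I)) +
      cc ((t.re - y.re : ℝ) + s * (-(y.im * I))) - 2 * cc ((t.re - 1 / 2 : ℝ)))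
    (f' := fun s : ℝ =>
      -(Real.pi * Complex.tan (Real.pi * ((t.re + y.re : ℝ) + s * (y.im * I)))) * (y.im * I) +
      -(Real.pi * Complex.tan (Real.pi * ((t.re - y.re : ℝ) + s * (-(y.im * I))))) *
        (-(y.im * I)))
    (C := 1 / 5) ?_ ?_
  · have e1 : ((t.re + y.re : ℝ) : ℂ) + ((1 : ℝ) : ℂ) * (y.im * I) = t.re + y := by
      conv_rhs => rw [rd_t y]
      push_cast
      ring
    have e2 : ((t.re - y.re : ℝ) : ℂ) + ((1 : ℝ) : ℂ) * (-(y.im * I)) = t.re - y := by
      conv_rhs => rw [rd_t y]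
      push_cast
      ring
    have e3 : ((t.re - 1 / 2 : ℝ) : ℂ) = t.re - 1 / 2 := by push_cast; ring
    have z1 : (cc ((t.re + y.re : ℝ) : ℂ)).im = 0 := hreal _ (by rw [abs_lt]; constructor <;> linarith)
    have z2 : (cc ((t.re - y.re : ℝ) : ℂ)).im = 0 := hreal _ (by rw [abs_lt]; constructor <;> linarith)
    have z3 : (cc ((t.re - 1 / 2 : ℝ) : ℂ)).im = 0 := hreal _ (by rw [abs_lt]; constructor <;> linarith)
    simp only [e1, e2, Complex.ofReal_zero, zero_mul, add_zero] at hmain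
    have z4 : (cc ((t.re + y.re : ℝ) : ℂ) + cc ((t.re - y.re : ℝ) : ℂ) -
        2 * cc ((t.re - 1 / 2 : ℝ) : ℂ)).im = 0 := by
      have e5 : (2 : ℂ) = ((2 : ℝ) : ℂ) := by norm_num
      rw [Complex.sub_im, Complex.add_im, z1, z2, e5, Complex.im_ofReal_mul, z3]
      ring
    rw [z4, sub_zero, e3] at hmain
    unfold gamt
    exact hmain
  · intro s _
    refine ((rd_cc ?_).add (rd_cc ?_)).sub_const _
    · rw [abs_lt]; simp; constructor <;> linarith
    · rw [abs_lt]; simp; constructor <;> linarith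
  · intro s hs
    have e4 : (-(Real.pi * Complex.tan (Real.pi * ((t.re + y.re : ℝ) + s * (y.im * I)))) *
        (y.im * I) + -(Real.pi * Complex.tan (Real.pi * ((t.re - y.re : ℝ) +
          s * (-(y.im * I))))) * (-(y.im * I))).im
        = Real.pi * y.im * ((Complex.tan (Real.pi * ((t.re - y.re : ℝ) + s * (-(y.im * I))))).re -
          (Complex.tan (Real.pi * ((t.re + y.re : ℝ) + s * (y.im * I)))).re) := by
      generalize Complex.tan (Real.pi * ((t.re + y.re : ℝ) + s * (y.im * I))) = T1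
      generalize Complex.tan (Real.pi * ((t.re - y.re : ℝ) + s * (-(y.im * I)))) = T2
      simp
      ring
    have r1 : (((t.re + y.re : ℝ) : ℂ) + s * (y.im * I)).re = t.re + y.re := by simp
    have r2 : (((t.re + y.re : ℝ) : ℂ) + s * (y.im * I)).im = s * y.im := by simp
    have r3 : (((t.re - y.re : ℝ) : ℂ) + s * (-(y.im * I))).re = t.re - y.re := by simp
    have r4 : (((t.re - y.re : ℝ) : ℂ) + s * (-(y.im * I))).im = -(s * y.im) := by simp
    show |(-(Real.pi * Complex.tan (Real.pi * ((t.re + y.re : ℝ) + s * (y.im * I)))) *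
        (y.im * I) + -(Real.pi * Complex.tan (Real.pi * ((t.re - y.re : ℝ) +
          s * (-(y.im * I))))) * (-(y.im * I))).im| ≤ 1 / 5
    rw [e4, rd_tan_re, rd_tan_re, r1, r2, r3, r4]
    have e5 : 2 * Real.pi * -(s * y.im) = -(2 * Real.pi * (s * y.im)) := by ring
    have e6 : 2 * Real.pi * (t.re + y.re) = 2 * Real.pi * t.re + 2 * Real.pi * y.re := by ring
    have e7 : 2 * Real.pi * (t.re - y.re) = 2 * Real.pi * t.re - 2 * Real.pi * y.re := by ring
    have hx : |2 * Real.pi * y.re| ≤ 63084 / 100000 := by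
      rw [abs_mul, abs_of_pos (by positivity : (0 : ℝ) < 2 * Real.pi)]
      nlinarith [abs_nonneg y.re]
    have hP : 801 / 1000 ≤ Real.cos (2 * Real.pi * y.re) := by
      have h3 := Real.one_sub_sq_div_two_le_cos (x := 2 * Real.pi * y.re)
      have h4 : (2 * Real.pi * y.re) ^ 2 ≤ (63084 / 100000) ^ 2 := by
        rw [← sq_abs]
        exact pow_le_pow_left₀ (abs_nonneg _) hx 2
      linarith
    have hQ : -(283 / 10000) ≤ Real.cos (2 * Real.pi * t.re) := by
      have h3 := rd_cos (a := t.re) (ε := 45 / 10000) (by norm_num) (by linarith) (by linarith)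
      linarith
    have hlow : ∀ a : ℝ, -(1 / 4) ≤ a → a ≤ 1 / 4 + 1049 / 10000 →
        -(66 / 100) ≤ Real.cos (2 * Real.pi * a) := by
      intro a ha hb
      have h3 := rd_cos (a := a) (ε := 1049 / 10000) (by norm_num) hb ha
      linarith
    have hX := hlow (t.re + y.re) (by linarith) (by linarith)
    have hX' := hlow (t.re - y.re) (by linarith) (by linarith)
    have hch := Real.one_le_cosh (2 * Real.pi * (s * y.im))
    rw [e6, Real.cos_add] at hX
    rw [e7, Real.cos_sub] at hX'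
    have hdif := rd_dif (Real.cos_sq_add_sin_sq (2 * Real.pi * t.re))
      (Real.cos_sq_add_sin_sq (2 * Real.pi * y.re)) hch hP hQ (by linarith) (by linarith)
    rw [e5, e6, e7, Real.cosh_neg, Real.cos_add, Real.sin_add, Real.cos_sub, Real.sin_sub]
    rw [abs_mul, abs_sub_comm, abs_mul, abs_of_pos hpi0, abs_of_neg hneg]
    have hS : |Real.sin (2 * Real.pi * y.re)| ≤ 2 * Real.pi * |y.re| := by
      have h3 := Real.abs_sin_le_abs (x := 2 * Real.pi * y.re)
      rwa [abs_mul, abs_of_pos (by positivity : (0 : ℝ) < 2 * Real.pi)] at h3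
    have h5 : 2 * |Real.sin (2 * Real.pi * y.re)| /
        (Real.cos (2 * Real.pi * y.re) + Real.cos (2 * Real.pi * t.re)) ≤
        2 * (2 * Real.pi * |y.re|) / (7727 / 10000) :=
      div_le_div₀ (by positivity) (by linarith) (by norm_num) (by linarith)
    calc Real.pi * -y.im * _ ≤ Real.pi * -y.im * (2 * (2 * Real.pi * |y.re|) / (7727 / 10000)) := by
          apply mul_le_mul_of_nonneg_left (hdif.trans h5)
          exact mul_nonneg hpi0.le (by linarith)
      _ = (4 / (7727 / 10000)) * (Real.pi ^ 2 * (|y.re| * -y.im)) := by ring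
      _ ≤ (4 / (7727 / 10000)) * (3.1416 ^ 2 * (37 / 10000)) := by
          apply mul_le_mul_of_nonneg_left _ (by norm_num)
          apply mul_le_mul _ hprod (mul_nonneg (abs_nonneg _) (by linarith)) (by norm_num)
          exact pow_le_pow_left₀ hpi0.le hpi2.le 2
      _ ≤ 1 / 5 := by norm_num

theorem rd_gtd {y t : ℂ} (hy : Reg y) (h1 : 2335 / 10000 ≤ t.re) (h2 : t.re ≤ 2545 / 10000)
    (h3 : |t.im| ≤ 135 / 10000) : |(gamt y t).re - (gamt y t.re).re| ≤ 9 / 200 := by
  have hpi1 := Real.pi_gt_d4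
  have hpi2 := Real.pi_lt_d4
  have hpi0 := Real.pi_pos
  have hre := rg_re hy
  have hre' := abs_le.1 hre
  have h3' := abs_le.1 h3
  have hmain := rd_mvt (f := fun s : ℝ => cc ((t.re + y) + s * (t.im * I)) +
      cc ((t.re - y) + s * (t.im * I)) - 2 * cc ((t.re - 1 / 2) + s * (t.im * I)))
    (f' := fun s : ℝ =>
      -(Real.pi * Complex.tan (Real.pi * ((t.re + y) + s * (t.im * I)))) * (t.im * I) +
      -(Real.pi * Complex.tan (Real.pi * ((t.re - y) + s * (t.im * I)))) * (t.im * I) -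
      2 * (-(Real.pi * Complex.tan (Real.pi * ((t.re - 1 / 2) + s * (t.im * I)))) * (t.im * I)))
    (C := 9 / 200) ?_ ?_
  · have e1 : (t.re : ℂ) + y + ((1 : ℝ) : ℂ) * (t.im * I) = t + y := by
      conv_rhs => rw [rd_t t]
      ring
    have e2 : (t.re : ℂ) - y + ((1 : ℝ) : ℂ) * (t.im * I) = t - y := by
      conv_rhs => rw [rd_t t]
      ring
    have e3 : (t.re : ℂ) - 1 / 2 + ((1 : ℝ) : ℂ) * (t.im * I) = t - 1 / 2 := by
      conv_rhs => rw [rd_t t]
      ring
    simp only [e1, e2, e3, Complex.ofReal_zero, zero_mul, add_zero] at hmain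
    unfold gamt
    exact hmain
  · intro s _
    refine ((rd_cc ?_).add (rd_cc ?_)).sub ((rd_cc ?_).const_mul 2)
    · rw [abs_lt]; simp; constructor <;> linarith
    · rw [abs_lt]; simp; constructor <;> linarith
    · rw [abs_lt]; simp; constructor <;> linarith
  · intro s hs
    have hθ : |s * t.im| ≤ 135 / 10000 := by
      rw [abs_mul, abs_of_nonneg hs.1]
      calc s * |t.im| ≤ 1 * |t.im| := mul_le_mul_of_nonneg_right hs.2 (abs_nonneg _)
        _ ≤ _ := by linarith
    have htwo := (rd_two (θ := s * t.im) hy h1 h2 hθ).1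
    have e1 : (t.re : ℂ) + y + s * (t.im * I) = ((t.re : ℂ) + ((s * t.im : ℝ) : ℂ) * I) + y := by
      push_cast; ring
    have e2 : (t.re : ℂ) - y + s * (t.im * I) = ((t.re : ℂ) + ((s * t.im : ℝ) : ℂ) * I) - y := by
      push_cast; ring
    simp only [e1, e2]
    -- the third tangent
    have hT3 : |(Complex.tan (Real.pi * (t.re - 1 / 2 + s * (t.im * I)))).im| ≤ 981 / 10000 := by
      rw [rd_tan_im]
      have r1 : ((t.re : ℂ) - 1 / 2 + s * (t.im * I)).re = t.re - 1 / 2 := by simp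
      have r2 : ((t.re : ℂ) - 1 / 2 + s * (t.im * I)).im = s * t.im := by simp
      rw [r1, r2]
      have hth : |2 * Real.pi * (s * t.im)| ≤ 849 / 10000 := by
        rw [abs_mul, abs_of_pos (by positivity : (0 : ℝ) < 2 * Real.pi)]
        nlinarith [abs_nonneg (s * t.im)]
      have hc : -(2 * Real.pi * (165 / 10000)) ≤ Real.cos (2 * Real.pi * (t.re - 1 / 2)) := by
        have h5 := rd_cos (a := 1 / 2 - t.re) (ε := 165 / 10000) (by norm_num) (by linarith)
          (by linarith)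
        have h6 : 2 * Real.pi * (t.re - 1 / 2) = -(2 * Real.pi * (1 / 2 - t.re)) := by ring
        rw [h6, Real.cos_neg]
        exact h5
      have h7 := rdS_abs (c := Real.cos (2 * Real.pi * (t.re - 1 / 2)))
        (H := 2 * Real.pi * (s * t.im)) (D := 8963 / 10000) (by norm_num) (by nlinarith)
        (by linarith)
      refine h7.trans ?_
      rw [div_le_iff₀ (by norm_num)]
      linarith
    generalize Complex.tan (Real.pi * ((t.re : ℂ) + ((s * t.im : ℝ) : ℂ) * I + y)) = T1 at htwo ⊢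
    generalize Complex.tan (Real.pi * ((t.re : ℂ) + ((s * t.im : ℝ) : ℂ) * I - y)) = T2 at htwo ⊢
    generalize Complex.tan (Real.pi * ((t.re : ℂ) - 1 / 2 + s * (t.im * I))) = T3 at hT3 ⊢
    have e4 : (-(Real.pi * T1) * (t.im * I) + -(Real.pi * T2) * (t.im * I) -
        2 * (-(Real.pi * T3) * (t.im * I))).re
        = Real.pi * t.im * ((T1.im + T2.im) - 2 * T3.im) := by
      simp
      ring
    rw [e4, abs_mul, abs_mul, abs_of_pos hpi0]
    have h8 : |T1.im + T2.im - 2 * T3.im| ≤ 10392 / 10000 := by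
      have h9 := abs_le.1 htwo
      have h10 := abs_le.1 hT3
      rw [abs_le]
      constructor <;> linarith
    calc Real.pi * |t.im| * |T1.im + T2.im - 2 * T3.im|
        ≤ 3.1416 * (135 / 10000) * (10392 / 10000) := by
          apply mul_le_mul _ h8 (abs_nonneg _) (by norm_num)
          exact mul_le_mul hpi2.le h3 (abs_nonneg _) (by norm_num)
      _ ≤ 9 / 200 := by norm_num

theorem rd_gyd {y t : ℂ} (hy : Reg y) (h1 : 2335 / 10000 ≤ t.re) (h2 : t.re ≤ 2545 / 10000)
    (h3 : |t.im| ≤ 135 / 10000) : |(gamy y t).re - (gamy y t.re).re| ≤ 52 / 1000 := by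
  have hpi1 := Real.pi_gt_d4
  have hpi2 := Real.pi_lt_d4
  have hpi0 := Real.pi_pos
  have hre := rg_re hy
  have hre' := abs_le.1 hre
  have h3' := abs_le.1 h3
  have hmain := rd_mvt (f := fun s : ℝ => cc ((t.re + y) + s * (t.im * I)) -
      cc ((t.re - y) + s * (t.im * I)))
    (f' := fun s : ℝ =>
      -(Real.pi * Complex.tan (Real.pi * ((t.re + y) + s * (t.im * I)))) * (t.im * I) -
      -(Real.pi * Complex.tan (Real.pi * ((t.re - y) + s * (t.im * I)))) * (t.im * I))
    (C := 52 / 1000) ?_ ?_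
  · have e1 : (t.re : ℂ) + y + ((1 : ℝ) : ℂ) * (t.im * I) = t + y := by
      conv_rhs => rw [rd_t t]
      ring
    have e2 : (t.re : ℂ) - y + ((1 : ℝ) : ℂ) * (t.im * I) = t - y := by
      conv_rhs => rw [rd_t t]
      ring
    simp only [e1, e2, Complex.ofReal_zero, zero_mul, add_zero] at hmain
    unfold gamy
    exact hmain
  · intro s _
    refine (rd_cc ?_).sub (rd_cc ?_)
    · rw [abs_lt]; simp; constructor <;> linarith
    · rw [abs_lt]; simp; constructor <;> linarith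
  · intro s hs
    have hθ : |s * t.im| ≤ 135 / 10000 := by
      rw [abs_mul, abs_of_nonneg hs.1]
      calc s * |t.im| ≤ 1 * |t.im| := mul_le_mul_of_nonneg_right hs.2 (abs_nonneg _)
        _ ≤ _ := by linarith
    have htwo := (rd_two (θ := s * t.im) hy h1 h2 hθ).2
    have e1 : (t.re : ℂ) + y + s * (t.im * I) = ((t.re : ℂ) + ((s * t.im : ℝ) : ℂ) * I) + y := by
      push_cast; ring
    have e2 : (t.re : ℂ) - y + s * (t.im * I) = ((t.re : ℂ) + ((s * t.im : ℝ) : ℂ) * I) - y := by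
      push_cast; ring
    simp only [e1, e2]
    generalize Complex.tan (Real.pi * ((t.re : ℂ) + ((s * t.im : ℝ) : ℂ) * I + y)) = T1 at htwo ⊢
    generalize Complex.tan (Real.pi * ((t.re : ℂ) + ((s * t.im : ℝ) : ℂ) * I - y)) = T2 at htwo ⊢
    have e4 : (-(Real.pi * T1) * (t.im * I) - -(Real.pi * T2) * (t.im * I)).re
        = Real.pi * t.im * (T1.im - T2.im) := by
      simp
      ring
    rw [e4, abs_mul, abs_mul, abs_of_pos hpi0]
    calc Real.pi * |t.im| * |T1.im - T2.im|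
        ≤ 3.1416 * (135 / 10000) * (1215 / 1000) := by
          apply mul_le_mul _ htwo (abs_nonneg _) (by norm_num)
          exact mul_le_mul hpi2.le h3 (abs_nonneg _) (by norm_num)
      _ ≤ 52 / 1000 := by norm_num

end Pool.Agent.XV
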