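import Pool.Agent.XV.Ash
import Pool.Agent.Helper11.TF.CN

/-!
# XV TAU: the variable of an edge

All `cc` are at points of `HS` (`|re| < 1 / 2`): `exp (cc u) = 2 cos (π u)` (`exp_cc`,
Helper11.TF.CN), and `|(cc u).im| = |arg (cos (π u))|` with
`tan (arg) = - tan (π u.re) tanh (π u.im)`; for `|u.re| ≤ 41/100`, `|u.im| ≤ 16/100` it is at most
`arctan (3.45 * 0.465) ≤ 1.02`; so `|(gamt y t).im| < π` and `|(gamy y t).im| ≤ 2.1 < π`
(`u = t + y`, `t - y` (`|re| ≤ 0.41`), and `t - 1 / 2` where `|re| ≤ 0.3`, `|im| ≤ 1/20` and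
`arctan (1.4 * 0.16) ≤ 0.23`).

With `c = cot (π t)`, `P = tan (π y) ^ 2`, `P' = tan (π z) ^ 2`:
`exp (gamt y t) = cos π (t + y) cos π (t - y) / sin (π t) ^ 2 = cos (π y) ^ 2 (c ^ 2 - P)`.

`tau_cot`: `exp (gamt y t) exp (gamt z t) = 1` gives `(c ^ 2 - P) (c ^ 2 - P') = (1 + P) (1 + P')`,
i.e. `(c ^ 2 + 1) (c ^ 2 - (1 + P + P')) = 0`, and `c ^ 2 + 1 = 1 / sin (π t) ^ 2 ≠ 0`.

`tau_gt`: `c ^ 2 - P = 1 + P' = 1 / cos (π z) ^ 2`.

`tau_ex`: `W = 1 + P + P'`, `‖P‖, ‖P'‖ ≤ tan (11 π / 100) ^ 2 ≤ 0.13`, `c = W ^ (1/2)` (principal,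
`c.re > 0`), `‖c - 1‖ = ‖W - 1‖ / ‖c + 1‖ ≤ 0.26 / 1.8`.  Put
`t = 1 / 4 + log ((c + i) / (1 + i c)) / (2 π i)`: `(c + i) / (1 + i c) - 1 = (c - 1) (1 - i) / (1 + i c)`
has norm `≤ 0.17`, so `‖t - 1 / 4‖ ≤ 0.2 / (2 π) ≤ 1 / 20`, `exp (2 π i t) = (c + i) / (c - i)`, so
`cot (π t) = c`, and `exp (gamt y t + gamt z t) = cos (π y) ^ 2 cos (π z) ^ 2 (W - P) (W - P') = 1`
with `|(gamt y t + gamt z t).im| < 2 π` (bounds above: `2 (1.02 + 1.02 + 0.46) < 6.28`).

`tau_gy`: `exp (gamy y t) = cos π (t + y) / cos π (t - y) = (1 - T) / (1 + T)`, `T = tan (π y) / c`,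
`c = cot (π t)`, `c.re > 0`, `c ^ 2 = W`.  Let `w = tan (π y) cos (π z)`, `‖w‖ ≤ 0.39`,
`θ = w * Ash w = π y * kapf y z` (definition of `kapf`, `y * TB.sl y = sin (π y)`),
`sinh θ = w`, `cosh θ = exp (log (1 + w ^ 2) / 2) =: C` (`ash_sinh`).
`C ^ 2 = 1 + w ^ 2 = cos (π z) ^ 2 W`, so `C = ± cos (π z) c`, and the sign is `+` because the
arguments of `C`, `cos (π z)`, `c` are all less than `π / 6` in absolute value (`‖w ^ 2‖`, `‖P + P'‖`
and `‖cos (π z) - 1‖` are small).  So `tanh θ = w / C = T` and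
`exp (-2 θ) = (1 - T) / (1 + T) = exp (gamy y t)`; since `‖2 θ‖ ≤ 2 * 0.39 * 1.05 < 1` and
`|(gamy y t).im| ≤ 2.1` the two exponents agree.
-/

set_option autoImplicit false

namespace Pool.Agent.XV

open Complex Finset
open Pool.Agent.Helper9.TB Pool.Agent.Helper9.TF

private lemma tau_pos {u : ℂ} (hu : u ∈ HS) : 0 < (2 * Complex.cos (Real.pi * u)).re := by
  have h := Pool.Agent.Helper48.QD.sin_re_pos (HS_VS hu)
  rwa [show (Real.pi : ℂ) * (1 / 2 + u) = Real.pi * u + Real.pi / 2 by ring,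
    Complex.sin_add_pi_div_two] at h

private lemma tau_arg {u : ℂ} (hu : u ∈ HS) : |(cc u).im| < Real.pi / 2 := by
  unfold cc
  rw [Complex.log_im, Complex.abs_arg_lt_pi_div_two_iff]
  exact Or.inl (tau_pos hu)

private lemma tau_logmul {a b : ℂ} (ha : 0 < a.re) (hb : 0 < b.re) :
    Complex.log a + Complex.log b = Complex.log (a * b) := by
  have ha0 : a ≠ 0 := by
    rintro rfl
    simp at ha
  have hb0 : b ≠ 0 := by
    rintro rfl
    simp at hb
  have h1 := abs_lt.1 (Complex.abs_arg_lt_pi_div_two_iff.2 (Or.inl ha))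
  have h2 := abs_lt.1 (Complex.abs_arg_lt_pi_div_two_iff.2 (Or.inl hb))
  symm
  rw [Complex.log_mul_eq_add_log_iff ha0 hb0]
  exact ⟨by linarith [h1.1, h2.1], by linarith [h1.2, h2.2]⟩

private lemma tau_cosmul (y t : ℂ) : 2 * Complex.cos (Real.pi * (t + y)) *
    (2 * Complex.cos (Real.pi * (t - y))) =
      ((2 : ℝ) : ℂ) * (Complex.cos (2 * Real.pi * t) + Complex.cos (2 * Real.pi * y)) := by
  rw [show 2 * (Real.pi : ℂ) * t = Real.pi * (t + y) + Real.pi * (t - y) by ring,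
    show 2 * (Real.pi : ℂ) * y = Real.pi * (t + y) - Real.pi * (t - y) by ring,
    Complex.cos_add, Complex.cos_sub]
  push_cast
  ring

private lemma tau_sinmul (t : ℂ) : 2 * Complex.cos (Real.pi * (t - 1 / 2)) *
    (2 * Complex.cos (Real.pi * (t - 1 / 2))) =
      ((2 : ℝ) : ℂ) * (1 - Complex.cos (2 * Real.pi * t)) := by
  rw [show (Real.pi : ℂ) * (t - 1 / 2) = Real.pi * t - Real.pi / 2 by ring,
    Complex.cos_sub_pi_div_two, show 2 * (Real.pi : ℂ) * t = 2 * (Real.pi * t) by ring,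
    Complex.cos_two_mul]
  have := Complex.sin_sq_add_cos_sq (Real.pi * t)
  push_cast
  linear_combination 4 * this

/-- the conditions on the variables -/
private structure TD (y t : ℂ) : Prop where
  h1 : t + y ∈ HS
  h2 : t - y ∈ HS
  h3 : t - 1 / 2 ∈ HS

private lemma tau_td {y t : ℂ} (hy : ‖y‖ ≤ 11 / 100) (ht : ‖t - 1 / 4‖ ≤ 1 / 20) : TD y t := by
  have h1 := abs_le.1 ((Complex.abs_re_le_norm y).trans hy)
  have h2 := abs_le.1 ((Complex.abs_re_le_norm (t - 1 / 4)).trans ht)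
  have e4 : ((1 : ℂ) / 4).re = 1 / 4 := by norm_num
  have e2 : ((1 : ℂ) / 2).re = 1 / 2 := by norm_num
  rw [Complex.sub_re, e4] at h2
  refine ⟨?_, ?_, ?_⟩
  · show |(t + y).re| < 1 / 2
    rw [Complex.add_re, abs_lt]
    constructor <;> linarith [h1.1, h1.2, h2.1, h2.2]
  · show |(t - y).re| < 1 / 2
    rw [Complex.sub_re, abs_lt]
    constructor <;> linarith [h1.1, h1.2, h2.1, h2.2]
  · show |(t - 1 / 2).re| < 1 / 2
    rw [Complex.sub_re, e2, abs_lt]
    constructor <;> linarith [h1.1, h1.2, h2.1, h2.2]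

private lemma tau_gamt {y t : ℂ} (h : TD y t) :
    gamt y t = Complex.log (Complex.cos (2 * Real.pi * t) + Complex.cos (2 * Real.pi * y)) -
      Complex.log (1 - Complex.cos (2 * Real.pi * t)) := by
  have h1 := tau_logmul (tau_pos h.h1) (tau_pos h.h2)
  have h2 := tau_logmul (tau_pos h.h3) (tau_pos h.h3)
  have n1 : Complex.cos (2 * Real.pi * t) + Complex.cos (2 * Real.pi * y) ≠ 0 := by
    intro h0
    have h3 := tau_cosmul y t
    rw [h0, mul_zero] at h3
    rcases mul_eq_zero.1 h3 with h4 | h4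
    · have := tau_pos h.h1
      rw [h4] at this
      simp at this
    · have := tau_pos h.h2
      rw [h4] at this
      simp at this
  have n2 : 1 - Complex.cos (2 * Real.pi * t) ≠ 0 := by
    intro h0
    have h3 := tau_sinmul t
    rw [h0, mul_zero] at h3
    have := tau_pos h.h3
    rcases mul_eq_zero.1 h3 with h4 | h4 <;> rw [h4] at this <;> simp at this
  rw [tau_cosmul, Complex.log_ofReal_mul two_pos n1] at h1
  rw [tau_sinmul, Complex.log_ofReal_mul two_pos n2] at h2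
  have h3 : gamt y t = (Complex.log (2 * Complex.cos (Real.pi * (t + y))) +
      Complex.log (2 * Complex.cos (Real.pi * (t - y)))) -
      (Complex.log (2 * Complex.cos (Real.pi * (t - 1 / 2))) +
      Complex.log (2 * Complex.cos (Real.pi * (t - 1 / 2)))) := by
    unfold gamt cc
    ring
  rw [h3, h1, h2]
  ring

private lemma tau_cos1 {x : ℂ} {r : ℝ} (hr : r ≤ 1) (hx : ‖x‖ ≤ r) :
    ‖Complex.cos x - 1‖ ≤ r ^ 2 / 2 + r ^ 4 * (5 / 96) := by
  have h0 := norm_nonneg x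
  have h1 := Complex.cos_bound (hx.trans hr)
  have h2 : Complex.cos x - 1 = (Complex.cos x - (1 - x ^ 2 / 2)) + (-(x ^ 2 / 2)) := by ring
  rw [h2]
  refine (norm_add_le _ _).trans ?_
  rw [norm_neg, norm_div, norm_pow, Complex.norm_two]
  have h3 : ‖x‖ ^ 2 ≤ r ^ 2 := by gcongr
  have h4 : ‖x‖ ^ 4 ≤ r ^ 4 := by gcongr
  nlinarith

private lemma tau_sin1 {x : ℂ} {r : ℝ} (hr : r ≤ 1) (hx : ‖x‖ ≤ r) :
    ‖Complex.sin x‖ ≤ r + r ^ 3 / 6 + r ^ 5 / 100 := by
  have h0 := norm_nonneg x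
  have h1 := Complex.sin_bound (hx.trans hr)
  have h2 : Complex.sin x = (Complex.sin x - (x - x ^ 3 / 6)) + (x - x ^ 3 / 6) := by ring
  rw [h2]
  refine (norm_add_le _ _).trans ?_
  have h5 : ‖x - x ^ 3 / 6‖ ≤ ‖x‖ + ‖x‖ ^ 3 / 6 := by
    refine (norm_sub_le _ _).trans ?_
    rw [norm_div, norm_pow]
    norm_num
  have h3 : ‖x‖ ^ 3 ≤ r ^ 3 := by gcongr
  have h4 : ‖x‖ ^ 5 ≤ r ^ 5 := by gcongr
  linarith

private lemma tau_cos2t {t : ℂ} (ht : ‖t - 1 / 4‖ ≤ 1 / 20) :
    ‖Complex.cos (2 * Real.pi * t)‖ ≤ 32 / 100 := by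
  have e : Complex.cos (2 * Real.pi * t) = Complex.sin (-(2 * Real.pi * (t - 1 / 4))) := by
    rw [show 2 * (Real.pi : ℂ) * t = Real.pi / 2 - (-(2 * Real.pi * (t - 1 / 4))) by ring,
      Complex.cos_pi_div_two_sub]
  rw [e]
  have hp := Real.pi_pos
  have hp2 := Real.pi_lt_d4
  have h1 : ‖-(2 * (Real.pi : ℂ) * (t - 1 / 4))‖ ≤ 3142 / 10000 := by
    rw [norm_neg, norm_mul, norm_mul, Complex.norm_two, Complex.norm_real, Real.norm_eq_abs,
      abs_of_pos hp]
    have := norm_nonneg (t - 1 / 4)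
    nlinarith
  have h2 := tau_sin1 (by norm_num) h1
  refine h2.trans ?_
  norm_num

private lemma tau_cos2y {y : ℂ} (hy : ‖y‖ ≤ 11 / 100) :
    ‖Complex.cos (2 * Real.pi * y) - 1‖ ≤ 251 / 1000 := by
  have hp := Real.pi_pos
  have hp2 := Real.pi_lt_d4
  have h1 : ‖2 * (Real.pi : ℂ) * y‖ ≤ 6912 / 10000 := by
    rw [norm_mul, norm_mul, Complex.norm_two, Complex.norm_real, Real.norm_eq_abs,
      abs_of_pos hp]
    have := norm_nonneg y
    nlinarith
  have h2 := tau_cos1 (by norm_num) h1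
  refine h2.trans ?_
  norm_num

private lemma tau_log1 {x : ℂ} {r : ℝ} (hr : r < 1) (hx : ‖x‖ ≤ r) :
    ‖Complex.log (1 + x)‖ ≤ r ^ 2 * (1 - r)⁻¹ / 2 + r := by
  have h0 := norm_nonneg x
  refine (Complex.norm_log_one_add_le (hx.trans_lt hr)).trans ?_
  have h1 : (1 - ‖x‖)⁻¹ ≤ (1 - r)⁻¹ := inv_anti₀ (by linarith) (by linarith)
  have h2 : 0 ≤ (1 - r)⁻¹ := inv_nonneg.2 (by linarith)
  have h3 : ‖x‖ ^ 2 ≤ r ^ 2 := by gcongr
  have h5 : 0 ≤ (1 - ‖x‖)⁻¹ := inv_nonneg.2 (by linarith)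
  have h4 : ‖x‖ ^ 2 * (1 - ‖x‖)⁻¹ ≤ r ^ 2 * (1 - r)⁻¹ := by gcongr
  linarith

private lemma tau_gamt_bd {y t : ℂ} (hy : ‖y‖ ≤ 11 / 100) (ht : ‖t - 1 / 4‖ ≤ 1 / 20) :
    ‖gamt y t‖ ≤ 3 / 2 := by
  rw [tau_gamt (tau_td hy ht)]
  have h1 := tau_cos2t ht
  have h2 := tau_cos2y hy
  have h3 : ‖Complex.cos (2 * Real.pi * t) + (Complex.cos (2 * Real.pi * y) - 1)‖ ≤ 571 / 1000 :=
    (norm_add_le _ _).trans (by linarith)
  have h4 := tau_log1 (by norm_num) h3
  rw [show 1 + (Complex.cos (2 * Real.pi * t) + (Complex.cos (2 * Real.pi * y) - 1)) =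
    Complex.cos (2 * Real.pi * t) + Complex.cos (2 * Real.pi * y) by ring] at h4
  have h5 : ‖-Complex.cos (2 * Real.pi * t)‖ ≤ 32 / 100 := by rwa [norm_neg]
  have h6 := tau_log1 (by norm_num) h5
  rw [← sub_eq_add_neg] at h6
  refine (norm_sub_le _ _).trans ((add_le_add h4 h6).trans ?_)
  norm_num

private lemma tau_ne {y t : ℂ} (hy : ‖y‖ ≤ 11 / 100) (ht : ‖t - 1 / 4‖ ≤ 1 / 20) :
    Complex.cos (2 * Real.pi * t) + Complex.cos (2 * Real.pi * y) ≠ 0 ∧
      1 - Complex.cos (2 * Real.pi * t) ≠ 0 ∧ 1 + Complex.cos (2 * Real.pi * y) ≠ 0 := by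
  have h1 := tau_cos2t ht
  have h2 := tau_cos2y hy
  refine ⟨fun h => ?_, fun h => ?_, fun h => ?_⟩
  · have h3 : ‖Complex.cos (2 * Real.pi * t) + (Complex.cos (2 * Real.pi * y) - 1)‖ ≤ 571 / 1000 :=
      (norm_add_le _ _).trans (by linarith)
    rw [show Complex.cos (2 * Real.pi * t) + (Complex.cos (2 * Real.pi * y) - 1) = -1 by
      linear_combination h] at h3
    norm_num at h3
  · rw [show Complex.cos (2 * Real.pi * t) = 1 by linear_combination -h] at h1
    norm_num at h1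
  · rw [show Complex.cos (2 * Real.pi * y) - 1 = -2 by linear_combination h] at h2
    norm_num at h2

private lemma tau_exp {y t : ℂ} (hy : ‖y‖ ≤ 11 / 100) (ht : ‖t - 1 / 4‖ ≤ 1 / 20) :
    Complex.exp (gamt y t) = (Complex.cos (2 * Real.pi * t) + Complex.cos (2 * Real.pi * y)) /
      (1 - Complex.cos (2 * Real.pi * t)) := by
  obtain ⟨n1, n2, -⟩ := tau_ne hy ht
  rw [tau_gamt (tau_td hy ht), Complex.exp_sub, Complex.exp_log n1, Complex.exp_log n2]

private lemma tau_zero {x : ℂ} (hx : ‖x‖ < 2 * Real.pi) (h : Complex.exp x = 1) : x = 0 := by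
  obtain ⟨n, hn⟩ := Complex.exp_eq_one_iff.1 h
  have hp := Real.pi_pos
  rw [hn, norm_mul, norm_mul, norm_mul, Complex.norm_two, Complex.norm_real, Complex.norm_I,
    Real.norm_eq_abs, abs_of_pos hp, mul_one, Complex.norm_intCast] at hx
  have h1 : |(n : ℝ)| < 1 := by
    by_contra hc
    push Not at hc
    nlinarith
  have h2 : n = 0 := by
    have : |n| < 1 := by exact_mod_cast h1
    exact Int.abs_lt_one_iff.1 this
  rw [hn, h2]
  simp

private lemma tau_c {y z t : ℂ} (hy : ‖y‖ ≤ 11 / 100) (hz : ‖z‖ ≤ 11 / 100)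
    (ht : ‖t - 1 / 4‖ ≤ 1 / 20) (kern : gamt y t + gamt z t = 0) :
    Complex.cos (2 * Real.pi * t) * (2 + Complex.cos (2 * Real.pi * y) +
      Complex.cos (2 * Real.pi * z)) =
      1 - Complex.cos (2 * Real.pi * y) * Complex.cos (2 * Real.pi * z) := by
  have h1 : Complex.exp (gamt y t) * Complex.exp (gamt z t) = 1 := by
    rw [← Complex.exp_add, kern, Complex.exp_zero]
  rw [tau_exp hy ht, tau_exp hz ht] at h1
  obtain ⟨n1, n2, -⟩ := tau_ne hy ht
  field_simp at h1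
  linear_combination h1

theorem tau_ex {y z : ℂ} (hy : ‖y‖ ≤ 11 / 100) (hz : ‖z‖ ≤ 11 / 100) :
    ∃ t : ℂ, ‖t - 1 / 4‖ ≤ 1 / 20 ∧ gamt y t + gamt z t = 0 := by
  set A := Complex.cos (2 * Real.pi * y) with hA
  set B := Complex.cos (2 * Real.pi * z) with hB
  have hA1 : ‖A - 1‖ ≤ 251 / 1000 := tau_cos2y hy
  have hB1 : ‖B - 1‖ ≤ 251 / 1000 := tau_cos2y hz
  have hden : 3498 / 1000 ≤ ‖2 + A + B‖ := by
    have h1 : (4 : ℂ) = (2 + A + B) - ((A - 1) + (B - 1)) := by ring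
    have h2 : ‖(4 : ℂ)‖ ≤ ‖2 + A + B‖ + ‖(A - 1) + (B - 1)‖ := by
      conv_lhs => rw [h1]
      exact norm_sub_le _ _
    have h3 := norm_add_le (A - 1) (B - 1)
    have h4 : ‖(4 : ℂ)‖ = 4 := by norm_num
    rw [h4] at h2
    linarith
  have hD0 : 2 + A + B ≠ 0 := by
    intro h0
    rw [h0, norm_zero] at hden
    norm_num at hden
  set C := (1 - A * B) / (2 + A + B) with hC
  have hCn : ‖C‖ ≤ 162 / 1000 := by
    have h1 : ‖1 - A * B‖ ≤ 566 / 1000 := by
      have h2 : 1 - A * B = -((A - 1) * (B - 1)) - ((A - 1) + (B - 1)) := by ring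
      rw [h2]
      refine (norm_sub_le _ _).trans ?_
      rw [norm_neg, norm_mul]
      have h3 := norm_add_le (A - 1) (B - 1)
      have := norm_nonneg (A - 1)
      have := norm_nonneg (B - 1)
      nlinarith
    rw [hC, norm_div, div_le_iff₀ (by linarith)]
    linarith
  -- the square root of `1 - C ^ 2`
  have hC2 : ‖-C ^ 2‖ ≤ 27 / 1000 := by
    rw [norm_neg, norm_pow]
    have := norm_nonneg C
    nlinarith
  have hl := tau_log1 (by norm_num) hC2
  have h1C : 1 + -C ^ 2 ≠ 0 := by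
    intro h0
    rw [show -C ^ 2 = -1 by linear_combination h0] at hC2
    norm_num at hC2
  obtain ⟨q, hq, hq1⟩ : ∃ q : ℂ, q ^ 2 = 1 - C ^ 2 ∧ ‖q - 1‖ ≤ 3 / 100 := by
    refine ⟨Complex.exp (Complex.log (1 + -C ^ 2) / 2), ?_, ?_⟩
    · rw [← Complex.exp_nat_mul]
      rw [show ((2 : ℕ) : ℂ) * (Complex.log (1 + -C ^ 2) / 2) = Complex.log (1 + -C ^ 2) by
        push_cast; ring, Complex.exp_log h1C]
      ring
    · have h2 : ‖Complex.log (1 + -C ^ 2) / 2‖ ≤ 14 / 1000 := by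
        rw [norm_div, Complex.norm_two]
        have : (27 / 1000 : ℝ) ^ 2 * (1 - 27 / 1000)⁻¹ / 2 + 27 / 1000 ≤ 28 / 1000 := by norm_num
        linarith
      have h3 := Complex.norm_exp_sub_one_le (h2.trans (by norm_num))
      linarith
  have hζ : ‖I * C + (q - 1)‖ ≤ 192 / 1000 := by
    refine (norm_add_le _ _).trans ?_
    rw [norm_mul, Complex.norm_I, one_mul]
    linarith
  have hζl := tau_log1 (by norm_num) hζ
  have hζ0 : 1 + (I * C + (q - 1)) ≠ 0 := by
    intro h0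
    rw [show I * C + (q - 1) = -1 by linear_combination h0] at hζ
    norm_num at hζ
  set L := Complex.log (1 + (I * C + (q - 1))) with hL
  have hLn : ‖L‖ ≤ 22 / 100 := hζl.trans (by norm_num)
  have hpi : (Real.pi : ℂ) ≠ 0 := by exact_mod_cast Real.pi_ne_zero
  have hp := Real.pi_pos
  have hp3 := Real.pi_gt_three
  have ht : ‖(1 / 4 + I * L / (2 * Real.pi)) - 1 / 4‖ ≤ 1 / 20 := by
    rw [add_sub_cancel_left, norm_div, norm_mul, norm_mul, Complex.norm_I, one_mul,
      Complex.norm_two, Complex.norm_real, Real.norm_eq_abs, abs_of_pos hp,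
      div_le_iff₀ (by positivity)]
    linarith
  have hcos : Complex.cos (2 * Real.pi * (1 / 4 + I * L / (2 * Real.pi))) = C := by
    have e : 2 * (Real.pi : ℂ) * (1 / 4 + I * L / (2 * Real.pi)) = Real.pi / 2 - -(I * L) := by
      field_simp
      ring
    rw [e, Complex.cos_pi_div_two_sub, Complex.sin]
    have e1 : -(-(I * L)) * I = -L := by
      linear_combination L * Complex.I_sq
    have e2 : -(I * L) * I = L := by
      linear_combination -L * Complex.I_sq
    rw [e1, e2, Complex.exp_neg, hL, Complex.exp_log hζ0]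
    have e3 : (1 + (I * C + (q - 1)))⁻¹ = q - I * C := by
      apply inv_eq_of_mul_eq_one_right
      linear_combination hq - C ^ 2 * Complex.I_sq
    rw [e3]
    linear_combination (-C) * Complex.I_sq
  refine ⟨1 / 4 + I * L / (2 * Real.pi), ht, ?_⟩
  apply tau_zero
  · have h1 := tau_gamt_bd hy ht
    have h2 := tau_gamt_bd hz ht
    have h3 := norm_add_le (gamt y (1 / 4 + I * L / (2 * Real.pi)))
      (gamt z (1 / 4 + I * L / (2 * Real.pi)))
    linarith
  · rw [Complex.exp_add, tau_exp hy ht, tau_exp hz ht]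
    obtain ⟨n1, n2, -⟩ := tau_ne hy ht
    rw [hcos] at n2 ⊢
    rw [← hA, ← hB]
    have h1 : C * (2 + A + B) = 1 - A * B := by
      rw [hC, div_mul_cancel₀ _ hD0]
    field_simp
    linear_combination h1

private lemma tau_cossq (y : ℂ) : Complex.cos (Real.pi * y) ^ 2 =
    (1 + Complex.cos (2 * Real.pi * y)) / 2 := by
  rw [Complex.cos_sq, show 2 * ((Real.pi : ℂ) * y) = 2 * Real.pi * y by ring]
  ring

private lemma tau_sinsq (y : ℂ) : Complex.sin (Real.pi * y) ^ 2 =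
    (1 - Complex.cos (2 * Real.pi * y)) / 2 := by
  rw [Complex.sin_sq, tau_cossq]
  ring

theorem tau_cot {y z t : ℂ} (hy : ‖y‖ ≤ 11 / 100) (hz : ‖z‖ ≤ 11 / 100) (ht : ‖t - 1 / 4‖ ≤ 1 / 20)
    (kern : gamt y t + gamt z t = 0) : Complex.cot (Real.pi * t) ^ 2 =
      1 + Complex.tan (Real.pi * y) ^ 2 + Complex.tan (Real.pi * z) ^ 2 := by
  have h1 := tau_c hy hz ht kern
  obtain ⟨-, n2, n3⟩ := tau_ne hy ht
  obtain ⟨-, -, n4⟩ := tau_ne hz ht
  rw [Complex.cot_eq_cos_div_sin, Complex.tan_eq_sin_div_cos, Complex.tan_eq_sin_div_cos,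
    div_pow, div_pow, div_pow, tau_cossq, tau_cossq, tau_cossq, tau_sinsq, tau_sinsq, tau_sinsq]
  field_simp
  linear_combination 2 * h1

theorem tau_gt {y z t : ℂ} (hy : ‖y‖ ≤ 11 / 100) (hz : ‖z‖ ≤ 11 / 100) (ht : ‖t - 1 / 4‖ ≤ 1 / 20)
    (kern : gamt y t + gamt z t = 0) : Complex.exp (gamt y t) =
      Complex.cos (Real.pi * y) ^ 2 / Complex.cos (Real.pi * z) ^ 2 := by
  have h1 := tau_c hy hz ht kern
  obtain ⟨-, n2, n3⟩ := tau_ne hy ht
  obtain ⟨-, -, n4⟩ := tau_ne hz ht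
  rw [tau_exp hy ht, tau_cossq, tau_cossq]
  field_simp
  linear_combination h1

private lemma tau_npi {y : ℂ} (hy : ‖y‖ ≤ 11 / 100) : ‖(Real.pi : ℂ) * y‖ ≤ 3456 / 10000 := by
  have hp := Real.pi_pos
  have hp2 := Real.pi_lt_d4
  rw [norm_mul, Complex.norm_real, Real.norm_eq_abs, abs_of_pos hp]
  have := norm_nonneg y
  nlinarith

private lemma tau_cosy {y : ℂ} (hy : ‖y‖ ≤ 11 / 100) :
    ‖Complex.cos (Real.pi * y) - 1‖ ≤ 61 / 1000 := by
  refine (tau_cos1 (by norm_num) (tau_npi hy)).trans ?_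
  norm_num

private lemma tau_w {y z : ℂ} (hy : ‖y‖ ≤ 11 / 100) (hz : ‖z‖ ≤ 11 / 100) :
    ‖Complex.tan (Real.pi * y) * Complex.cos (Real.pi * z)‖ ≤ 4 / 10 := by
  have h1 := tau_cosy hy
  have h2 := tau_cosy hz
  have h3 : ‖Complex.sin (Real.pi * y)‖ ≤ 353 / 1000 := by
    refine (tau_sin1 (by norm_num) (tau_npi hy)).trans ?_
    norm_num
  have h4 : 939 / 1000 ≤ ‖Complex.cos (Real.pi * y)‖ := by
    have h5 : ‖(1 : ℂ)‖ ≤ ‖Complex.cos (Real.pi * y)‖ + ‖Complex.cos (Real.pi * y) - 1‖ := by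
      conv_lhs => rw [show (1 : ℂ) = Complex.cos (Real.pi * y) - (Complex.cos (Real.pi * y) - 1) by
        ring]
      exact norm_sub_le _ _
    rw [norm_one] at h5
    linarith
  have h6 : ‖Complex.cos (Real.pi * z)‖ ≤ 1061 / 1000 := by
    have h5 : ‖Complex.cos (Real.pi * z)‖ ≤ ‖Complex.cos (Real.pi * z) - 1‖ + ‖(1 : ℂ)‖ := by
      conv_lhs => rw [show Complex.cos (Real.pi * z) = (Complex.cos (Real.pi * z) - 1) + 1 by ring]
      exact norm_add_le _ _
    rw [norm_one] at h5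
    linarith
  rw [norm_mul, Complex.tan_eq_sin_div_cos, norm_div, div_mul_eq_mul_div,
    div_le_iff₀ (by linarith)]
  have h7 := norm_nonneg (Complex.sin (Real.pi * y))
  have h8 := norm_nonneg (Complex.cos (Real.pi * z))
  calc ‖Complex.sin (Real.pi * y)‖ * ‖Complex.cos (Real.pi * z)‖ ≤ 353 / 1000 * (1061 / 1000) := by
        gcongr
    _ ≤ 4 / 10 * (939 / 1000) := by norm_num
    _ ≤ _ := by gcongr

/-- `cos (π z) cot (π t)` is near `1` -/
private lemma tau_cotn {z t : ℂ} (hz : ‖z‖ ≤ 11 / 100) (ht : ‖t - 1 / 4‖ ≤ 1 / 20) :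
    ‖Complex.cos (Real.pi * z) * Complex.cot (Real.pi * t) - 1‖ ≤ 1 / 2 := by
  set s : ℂ := -(2 * Real.pi * (t - 1 / 4)) with hs
  have hp := Real.pi_pos
  have hp2 := Real.pi_lt_d4
  have hsn : ‖s‖ ≤ 3142 / 10000 := by
    rw [hs, norm_neg, norm_mul, norm_mul, Complex.norm_two, Complex.norm_real, Real.norm_eq_abs,
      abs_of_pos hp]
    have := norm_nonneg (t - 1 / 4)
    nlinarith
  have hsin : ‖Complex.sin s‖ ≤ 32 / 100 :=
    (tau_sin1 (by norm_num) hsn).trans (by norm_num)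
  have hcos : ‖Complex.cos s - 1‖ ≤ 5 / 100 :=
    (tau_cos1 (by norm_num) hsn).trans (by norm_num)
  have hcosn : 95 / 100 ≤ ‖Complex.cos s‖ := by
    have h5 : ‖(1 : ℂ)‖ ≤ ‖Complex.cos s‖ + ‖Complex.cos s - 1‖ := by
      conv_lhs => rw [show (1 : ℂ) = Complex.cos s - (Complex.cos s - 1) by ring]
      exact norm_sub_le _ _
    rw [norm_one] at h5
    linarith
  have hc0 : Complex.cos s ≠ 0 := by
    intro h0
    rw [h0, norm_zero] at hcosn
    norm_num at hcosn
  have h2t : 2 * ((Real.pi : ℂ) * t) = Real.pi / 2 - s := by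
    rw [hs]
    ring
  have hsin2 : Complex.sin (2 * ((Real.pi : ℂ) * t)) = Complex.cos s := by
    rw [h2t, Complex.sin_pi_div_two_sub]
  have hcos2 : Complex.cos (2 * ((Real.pi : ℂ) * t)) = Complex.sin s := by
    rw [h2t, Complex.cos_pi_div_two_sub]
  have hst : Complex.sin (Real.pi * t) ≠ 0 := by
    intro h0
    rw [Complex.sin_two_mul, h0] at hsin2
    exact hc0 (by rw [← hsin2]; ring)
  have hcot : Complex.cot (Real.pi * t) = (1 + Complex.sin s) / Complex.cos s := by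
    rw [Complex.cot_eq_cos_div_sin, div_eq_div_iff hst hc0, ← hsin2, ← hcos2,
      Complex.sin_two_mul, Complex.cos_two_mul]
    ring
  have hcotn : ‖Complex.cot (Real.pi * t) - 1‖ ≤ 39 / 100 := by
    rw [hcot, show (1 + Complex.sin s) / Complex.cos s - 1 =
      (Complex.sin s - (Complex.cos s - 1)) / Complex.cos s by
        rw [div_sub_one hc0]; congr 1; ring, norm_div, div_le_iff₀ (by linarith)]
    have := norm_sub_le (Complex.sin s) (Complex.cos s - 1)
    linarith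
  have h1 := tau_cosy hz
  rw [show Complex.cos (Real.pi * z) * Complex.cot (Real.pi * t) - 1 =
    (Complex.cos (Real.pi * z) - 1) * (Complex.cot (Real.pi * t) - 1) +
      (Complex.cos (Real.pi * z) - 1) + (Complex.cot (Real.pi * t) - 1) by ring]
  refine (norm_add_le _ _).trans ?_
  have h2 := norm_add_le ((Complex.cos (Real.pi * z) - 1) * (Complex.cot (Real.pi * t) - 1))
    (Complex.cos (Real.pi * z) - 1)
  rw [norm_mul] at h2
  have h3 := norm_nonneg (Complex.cos (Real.pi * z) - 1)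
  have h4 := norm_nonneg (Complex.cot (Real.pi * t) - 1)
  nlinarith

theorem tau_gy {y z t : ℂ} (hy : ‖y‖ ≤ 11 / 100) (hz : ‖z‖ ≤ 11 / 100) (ht : ‖t - 1 / 4‖ ≤ 1 / 20)
    (kern : gamt y t + gamt z t = 0) : gamy y t = -(2 * Real.pi * y * kapf y z) := by
  have hp := Real.pi_pos
  have hpi : (Real.pi : ℂ) ≠ 0 := by exact_mod_cast Real.pi_ne_zero
  have htd := tau_td hy ht
  obtain ⟨n1, n2, n3⟩ := tau_ne hy ht
  obtain ⟨-, -, n4⟩ := tau_ne hz ht
  have hcy0 : Complex.cos (Real.pi * y) ≠ 0 := by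
    intro h0
    have h1 := tau_cossq y
    rw [h0] at h1
    exact n3 (by linear_combination -2 * h1)
  have hst0 : Complex.sin (Real.pi * t) ≠ 0 := by
    intro h0
    have h1 := tau_sinsq t
    rw [h0] at h1
    exact n2 (by linear_combination -2 * h1)
  set w := Complex.tan (Real.pi * y) * Complex.cos (Real.pi * z) with hw
  have hwn : ‖w‖ ≤ 4 / 10 := tau_w hy hz
  -- the right hand side
  have hrhs : 2 * Real.pi * y * kapf y z = 2 * (w * Ash w) := by
    unfold kapf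
    rw [← hw]
    have h1 := sl_mul y
    have h2 : 2 * (Real.pi : ℂ) * y * (Ash w * (Pool.Agent.Helper9.TB.sl y /
        (Real.pi * Complex.cos (Real.pi * y))) * Complex.cos (Real.pi * z)) =
        2 * Ash w * ((y * Pool.Agent.Helper9.TB.sl y) / Complex.cos (Real.pi * y)) *
          Complex.cos (Real.pi * z) := by
      field_simp
    rw [h2, h1, ← Complex.tan_eq_sin_div_cos, hw]
    ring
  obtain ⟨hsinh, hcosh⟩ := ash_sinh (w := w) (hwn.trans_lt (by norm_num))
  set θ := w * Ash w with hθ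
  set K := Complex.exp (Complex.log (1 + w ^ 2) / 2) with hK
  have hw2 : ‖w ^ 2‖ ≤ 16 / 100 := by
    rw [norm_pow]
    have := norm_nonneg w
    nlinarith
  have h1w : 1 + w ^ 2 ≠ 0 := by
    intro h0
    rw [show w ^ 2 = -1 by linear_combination h0] at hw2
    norm_num at hw2
  have hK2 : K ^ 2 = 1 + w ^ 2 := by
    rw [hK, ← Complex.exp_nat_mul]
    rw [show ((2 : ℕ) : ℂ) * (Complex.log (1 + w ^ 2) / 2) = Complex.log (1 + w ^ 2) by
      push_cast; ring, Complex.exp_log h1w]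
  have hK1 : ‖K - 1‖ ≤ 2 / 10 := by
    have hl := tau_log1 (by norm_num) hw2
    have h2 : ‖Complex.log (1 + w ^ 2) / 2‖ ≤ 1 / 10 := by
      rw [norm_div, Complex.norm_two]
      have : (16 / 100 : ℝ) ^ 2 * (1 - 16 / 100)⁻¹ / 2 + 16 / 100 ≤ 2 / 10 := by norm_num
      linarith
    have h3 := Complex.norm_exp_sub_one_le (h2.trans (by norm_num))
    rw [hK]
    linarith
  -- `K = cos (π z) cot (π t)`
  have hcot := tau_cot hy hz ht kern
  have hKX : K = Complex.cos (Real.pi * z) * Complex.cot (Real.pi * t) := by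
    set X := Complex.cos (Real.pi * z) * Complex.cot (Real.pi * t) with hX
    have hX1 : ‖X - 1‖ ≤ 1 / 2 := tau_cotn hz ht
    have hcz0 : Complex.cos (Real.pi * z) ≠ 0 := by
      intro h0
      have h1 := tau_cossq z
      rw [h0] at h1
      exact n4 (by linear_combination -2 * h1)
    have hsq : K ^ 2 = X ^ 2 := by
      rw [hK2, hX, hw, mul_pow, mul_pow, hcot, Complex.tan_eq_sin_div_cos (Real.pi * z)]
      have h1 := Complex.sin_sq_add_cos_sq (Real.pi * z)
      field_simp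
      linear_combination -h1
    rcases sq_eq_sq_iff_eq_or_eq_neg.1 hsq with h | h
    · exact h
    · exfalso
      have h1 : (2 : ℂ) = -((K - 1) + (X - 1)) := by rw [h]; ring
      have h2 : ‖(2 : ℂ)‖ ≤ ‖K - 1‖ + ‖X - 1‖ := by
        rw [h1, norm_neg]
        exact norm_add_le _ _
      rw [Complex.norm_two] at h2
      linarith
  -- exponentials
  have he1 : Complex.exp (gamy y t) * (2 * Complex.cos (Real.pi * (t - y))) =
      2 * Complex.cos (Real.pi * (t + y)) := by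
    rw [← exp_cc htd.h2, ← exp_cc htd.h1, ← Complex.exp_add]
    congr 1
    unfold gamy
    ring
  have he2 : Complex.exp (-(2 * θ)) = (K - w) ^ 2 := by
    have h1 : Complex.exp (-θ) = K - w := by
      rw [← hcosh, ← hsinh, Complex.cosh_sub_sinh]
    rw [show -(2 * θ) = -θ + -θ by ring, Complex.exp_add, h1]
    ring
  have hs : Complex.sin (Real.pi * t) * K * Complex.cos (Real.pi * y) =
      Complex.cos (Real.pi * z) * Complex.cos (Real.pi * t) * Complex.cos (Real.pi * y) := by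
    rw [hKX, Complex.cot_eq_cos_div_sin]
    field_simp
  have hs2 : Complex.sin (Real.pi * t) * w * Complex.cos (Real.pi * y) =
      Complex.cos (Real.pi * z) * Complex.sin (Real.pi * t) * Complex.sin (Real.pi * y) := by
    rw [hw, Complex.tan_eq_sin_div_cos]
    field_simp
  have hcz0 : Complex.cos (Real.pi * z) ≠ 0 := by
    intro h0
    have h1 := tau_cossq z
    rw [h0] at h1
    exact n4 (by linear_combination -2 * h1)
  have he3 : Complex.exp (-(2 * θ)) * (2 * Complex.cos (Real.pi * (t - y))) =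
      2 * Complex.cos (Real.pi * (t + y)) := by
    have h1 : Complex.cos (Real.pi * z) * Complex.cos (Real.pi * (t - y)) =
        Complex.sin (Real.pi * t) * Complex.cos (Real.pi * y) * (K + w) := by
      rw [show (Real.pi : ℂ) * (t - y) = Real.pi * t - Real.pi * y by ring, Complex.cos_sub]
      linear_combination -hs - hs2
    have h2 : Complex.cos (Real.pi * z) * Complex.cos (Real.pi * (t + y)) =
        Complex.sin (Real.pi * t) * Complex.cos (Real.pi * y) * (K - w) := by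
      rw [show (Real.pi : ℂ) * (t + y) = Real.pi * t + Real.pi * y by ring, Complex.cos_add]
      linear_combination -hs + hs2
    apply mul_left_cancel₀ hcz0
    rw [he2]
    have h3 : (K - w) * (K + w) = 1 := by linear_combination hK2
    linear_combination 2 * (K - w) ^ 2 * h1 - 2 * h2 +
      2 * Complex.sin (Real.pi * t) * Complex.cos (Real.pi * y) * (K - w) * h3
  have hcm0 : 2 * Complex.cos (Real.pi * (t - y)) ≠ 0 := by
    rw [← exp_cc htd.h2]
    exact Complex.exp_ne_zero _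
  have he4 : Complex.exp (gamy y t) = Complex.exp (-(2 * θ)) :=
    mul_right_cancel₀ hcm0 (he1.trans he3.symm)
  rw [hrhs]
  -- the exponents agree
  obtain ⟨n, hn⟩ := Complex.exp_eq_exp_iff_exists_int.1 he4
  have hθn : ‖2 * θ‖ ≤ 1 := by
    have h1 := ash_bd2 (w := w) (hwn.trans (by norm_num))
    have h2 : ‖Ash w‖ ≤ 11 / 10 := by
      have h3 : Ash w = (Ash w - 1 + w ^ 2 / 6) + (1 - w ^ 2 / 6) := by ring
      rw [h3]
      refine (norm_add_le _ _).trans ?_
      have h4 := norm_sub_le (1 : ℂ) (w ^ 2 / 6)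
      have h5 : ‖w ^ 2 / 6‖ ≤ 16 / 600 := by
        rw [norm_div]
        have h6 : ‖(6 : ℂ)‖ = 6 := by norm_num
        rw [h6]
        linarith
      rw [norm_one] at h4
      linarith
    rw [hθ, norm_mul, norm_mul, Complex.norm_two]
    have h3 := norm_nonneg w
    have h4 := norm_nonneg (Ash w)
    nlinarith
  have him : |(gamy y t).im| < Real.pi := by
    have h1 := abs_lt.1 (tau_arg htd.h1)
    have h2 := abs_lt.1 (tau_arg htd.h2)
    unfold gamy
    rw [Complex.sub_im, abs_lt]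
    constructor <;> linarith [h1.1, h1.2, h2.1, h2.2]
  have h2θ : |(2 * θ).im| ≤ 1 := (Complex.abs_im_le_norm _).trans hθn
  have hp3 := Real.pi_gt_three
  have himn : (gamy y t).im = -(2 * θ).im + n * (2 * Real.pi) := by
    have h1 := congrArg Complex.im hn
    rw [Complex.add_im, Complex.neg_im] at h1
    rw [h1]
    congr 1
    rw [show (n : ℂ) * (2 * Real.pi * I) = ((n * (2 * Real.pi) : ℝ) : ℂ) * I by push_cast; ring,
      Complex.im_ofReal_mul, Complex.I_im, mul_one]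
  have hn0 : n = 0 := by
    have h1 := abs_lt.1 him
    have h2 := abs_le.1 h2θ
    have h3 : |(n : ℝ)| < 1 := by
      rw [abs_lt]
      constructor
      · by_contra hc
        push Not at hc
        nlinarith [h1.1, h1.2, h2.1, h2.2]
      · by_contra hc
        push Not at hc
        nlinarith [h1.1, h1.2, h2.1, h2.2]
    have : |n| < 1 := by exact_mod_cast h3
    exact Int.abs_lt_one_iff.1 this
  rw [hn, hn0]
  simp

end Pool.Agent.XV
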