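import Pool.Agent.XV.Rg
import Pool.Agent.XV.Tau

/-!
# XV RT: the range of the variable of an edge

`S = tan (πy) ^ 2 + tan (πz) ^ 2`; `S.re ∈ [-0.04, 0.214]`, `|S.im| ≤ 0.16` (`rg_tan`).
`tau_cot`: `cot (πt) ^ 2 = 1 + S`, and `cot (πt) ^ 2 = (1 + κ) / (1 - κ)` with `κ = cos (2πt)`, so
`κ = S / (2 + S) = 1 - 2 / (2 + S)`.
* `|κ.im| = 2 |S.im| / ‖2 + S‖ ^ 2 ≤ 0.32 / 1.96 ^ 2 ≤ 0.0834`.
* `κ.re = 1 - 2 (2 + S.re) / ‖2 + S‖ ^ 2 ≤ 1 - 2 * 2.214 / (2.214 ^ 2 + 0.16 ^ 2) ≤ 0.1014` (the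
  function `x / (x ^ 2 + 0.0256)` is decreasing), and `κ.re ≥ S.re / (2 + S.re) ≥ -0.0205`.
* `κ.re = cos (2πt.re) cosh (2πt.im)`, `κ.im = - sin (2πt.re) sinh (2πt.im)`, and
  `t.re ∈ [0.2, 0.3]` from `ht`.  So `cos (2πt.re) ≤ 0.1014`, `cos (2π * 0.2335) ≥ 0.1034`:
  `t.re ≥ 0.2335`; `cos (2πt.re) ≥ -0.0205`, `cos (2π * 0.2545) ≤ -0.028`: `t.re ≤ 0.2545`.
  Then `sin (2πt.re) ≥ 0.994` and `2π|t.im| ≤ sinh (2π|t.im|) ≤ 0.0834 / 0.994 ≤ 0.084`,
  `|t.im| ≤ 0.0134`.
-/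

set_option autoImplicit false

namespace Pool.Agent.XV

open Complex Finset
open Pool.Agent.Helper9.TB Pool.Agent.Helper9.TF

theorem rt_cos_eq (z : ℂ) : Complex.cos z = ((Real.cos z.re * Real.cosh z.im : ℝ) : ℂ) +
    ((-(Real.sin z.re * Real.sinh z.im) : ℝ) : ℂ) * I := by
  rw [Complex.cos_eq]; push_cast; ring

theorem rt_cos_re (z : ℂ) : (Complex.cos z).re = Real.cos z.re * Real.cosh z.im := by
  rw [rt_cos_eq]
  simp only [Complex.add_re, Complex.ofReal_re, Complex.re_ofReal_mul, Complex.I_re, mul_zero,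
    add_zero]

theorem rt_cos_im (z : ℂ) : (Complex.cos z).im = -(Real.sin z.re * Real.sinh z.im) := by
  rw [rt_cos_eq]
  simp only [Complex.add_im, Complex.ofReal_im, Complex.im_ofReal_mul, Complex.I_im, mul_one,
    zero_add]

/-- the equation of `κ` -/
theorem rt_kappa {S τ : ℂ} (hS : 1 + S ≠ 0) (h : Complex.cot τ ^ 2 = 1 + S) :
    Complex.cos (2 * τ) * (2 + S) = S := by
  have hs : Complex.sin τ ≠ 0 := by
    intro h0
    rw [Complex.cot_eq_cos_div_sin, h0] at h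
    simp at h
    exact hS h.symm
  rw [Complex.cot_eq_cos_div_sin, div_pow, div_eq_iff (pow_ne_zero 2 hs)] at h
  have h1 := Complex.sin_sq_add_cos_sq τ
  rw [Complex.cos_two_mul]
  linear_combination (2 : ℂ) * h + (2 * S + 2) * h1

/-- bounds of `κ` from bounds of `S` -/
theorem rt_kb {a b s σ : ℝ} (e1 : a * (2 + s) - b * σ = s) (e2 : b * (2 + s) + a * σ = σ)
    (s1 : -(4 / 100) ≤ s) (s2 : s ≤ 214 / 1000) (σ1 : |σ| ≤ 16 / 100) :
    a ≤ 1014 / 10000 ∧ -(205 / 10000) ≤ a ∧ |b| ≤ 834 / 10000 := by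
  obtain ⟨t1, t2⟩ := abs_le.1 σ1
  have hD : 0 < (2 + s) ^ 2 + σ ^ 2 := by nlinarith
  have hD1 : (3.8416 : ℝ) ≤ (2 + s) ^ 2 + σ ^ 2 := by nlinarith
  have ha : a * ((2 + s) ^ 2 + σ ^ 2) = s * (2 + s) + σ ^ 2 := by
    linear_combination (2 + s) * e1 + σ * e2
  have hb : b * ((2 + s) ^ 2 + σ ^ 2) = 2 * σ := by
    linear_combination (2 + s) * e2 - σ * e1
  have hσ : σ ^ 2 ≤ 0.0256 := by nlinarith
  refine ⟨?_, ?_, ?_⟩
  · by_contra hc
    push Not at hc
    nlinarith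
  · by_contra hc
    push Not at hc
    nlinarith
  · rw [abs_le]
    constructor
    · by_contra hc
      push Not at hc
      nlinarith
    · by_contra hc
      push Not at hc
      nlinarith

theorem rt_range {y z t : ℂ} (hy : Reg y) (hz : Reg z) (ht : ‖t - 1 / 4‖ ≤ 1 / 20)
    (kern : gamt y t + gamt z t = 0) :
    2335 / 10000 ≤ t.re ∧ t.re ≤ 2545 / 10000 ∧ |t.im| ≤ 135 / 10000 := by
  have hcot := tau_cot (by linarith [hy.r1] : ‖y‖ ≤ 11 / 100) (by linarith [hz.r1]) ht kern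
  obtain ⟨p1, p2, p3⟩ := rg_tan hy
  obtain ⟨q1, q2, q3⟩ := rg_tan hz
  set S : ℂ := Complex.tan (Real.pi * y) ^ 2 + Complex.tan (Real.pi * z) ^ 2 with hSdef
  have hSre : S.re = (Complex.tan (Real.pi * y) ^ 2).re + (Complex.tan (Real.pi * z) ^ 2).re := by
    rw [hSdef, Complex.add_re]
  have hSim : S.im = (Complex.tan (Real.pi * y) ^ 2).im + (Complex.tan (Real.pi * z) ^ 2).im := by
    rw [hSdef, Complex.add_im]
  have s1 : -(4 / 100) ≤ S.re := by rw [hSre]; linarith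
  have s2 : S.re ≤ 214 / 1000 := by rw [hSre]; linarith
  have σ1 : |S.im| ≤ 16 / 100 := by
    rw [hSim]
    exact le_trans (abs_add_le _ _) (by linarith)
  have hS0 : 1 + S ≠ 0 := by
    intro h
    have := congrArg Complex.re h
    simp at this
    linarith
  have hk := rt_kappa (τ := Real.pi * t) hS0 (by rw [hcot, hSdef]; ring)
  set κ : ℂ := Complex.cos (2 * (Real.pi * t)) with hκ
  have hk1 : κ.re * (2 + S.re) - κ.im * S.im = S.re := by
    have := congrArg Complex.re hk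
    simpa using this
  have hk2 : κ.im * (2 + S.re) + κ.re * S.im = S.im := by
    have := congrArg Complex.im hk
    simp at this
    linarith
  obtain ⟨k1, k2, k3⟩ := rt_kb hk1 hk2 s1 s2 σ1
  have hπ0 := Real.pi_pos
  have hπ1 := Real.pi_gt_d6
  have hπ2 := Real.pi_lt_d6
  have hre : κ.re = Real.cos (2 * Real.pi * t.re) * Real.cosh (2 * Real.pi * t.im) := by
    rw [hκ, rt_cos_re]
    congr 2 <;> simp [mul_assoc]
  have him : κ.im = -(Real.sin (2 * Real.pi * t.re) * Real.sinh (2 * Real.pi * t.im)) := by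
    rw [hκ, rt_cos_im]
    congr 2 <;> simp [mul_assoc]
  have hch : 1 ≤ Real.cosh (2 * Real.pi * t.im) := Real.one_le_cosh _
  have hrb : |t.re - 1 / 4| ≤ 1 / 20 := by
    have := Complex.abs_re_le_norm (t - 1 / 4)
    have h2 : (t - 1 / 4).re = t.re - 1 / 4 := by simp
    rw [h2] at this
    linarith
  obtain ⟨r1, r2⟩ := abs_le.1 hrb
  -- cos is sin of the difference
  have hcs : Real.cos (2 * Real.pi * t.re) = Real.sin (2 * Real.pi * (1 / 4 - t.re)) := by
    rw [← Real.cos_pi_div_two_sub]; congr 1; ring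
  have t1 : 2335 / 10000 ≤ t.re := by
    by_contra hc
    push Not at hc
    have h1 : Real.sin (2 * Real.pi * (165 / 10000)) ≤ Real.sin (2 * Real.pi * (1 / 4 - t.re)) := by
      apply Real.sin_le_sin_of_le_of_le_pi_div_two
      · nlinarith
      · nlinarith
      · nlinarith
    have h2 : 0.1034 < Real.sin (2 * Real.pi * (165 / 10000)) := by
      have e : (0.10367 : ℝ) < 2 * Real.pi * (165 / 10000) := by nlinarith
      have e2 : Real.sin 0.10367 ≤ Real.sin (2 * Real.pi * (165 / 10000)) := by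
        apply Real.sin_le_sin_of_le_of_le_pi_div_two
        · nlinarith
        · nlinarith
        · linarith
      have e3 := Real.sin_gt_sub_cube (x := 0.10367) (by norm_num)
      norm_num at e3 ⊢
      linarith
    have h3 : 0 ≤ Real.cos (2 * Real.pi * t.re) := by rw [hcs]; linarith
    rw [hcs] at hre h3
    nlinarith
  have t2 : t.re ≤ 2545 / 10000 := by
    by_contra hc
    push Not at hc
    have h1 : Real.sin (2 * Real.pi * (45 / 10000)) ≤ Real.sin (2 * Real.pi * (t.re - 1 / 4)) := by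
      apply Real.sin_le_sin_of_le_of_le_pi_div_two
      · nlinarith
      · nlinarith
      · nlinarith
    have h2 : 0.028 < Real.sin (2 * Real.pi * (45 / 10000)) := by
      have e : (0.02827 : ℝ) < 2 * Real.pi * (45 / 10000) := by nlinarith
      have e2 : Real.sin 0.02827 ≤ Real.sin (2 * Real.pi * (45 / 10000)) := by
        apply Real.sin_le_sin_of_le_of_le_pi_div_two
        · nlinarith
        · nlinarith
        · linarith
      have e3 := Real.sin_gt_sub_cube (x := 0.02827) (by norm_num)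
      norm_num at e3 ⊢
      linarith
    have h3 : Real.cos (2 * Real.pi * t.re) = -Real.sin (2 * Real.pi * (t.re - 1 / 4)) := by
      rw [hcs, ← Real.sin_neg]; congr 1; ring
    rw [h3] at hre
    nlinarith
  refine ⟨t1, t2, ?_⟩
  -- the imaginary part
  have hsin : Real.sin (2 * Real.pi * t.re) = Real.cos (2 * Real.pi * (t.re - 1 / 4)) := by
    rw [← Real.cos_pi_div_two_sub, ← Real.cos_neg]; congr 1; ring
  have hsin2 : 0.994 ≤ Real.sin (2 * Real.pi * t.re) := by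
    rw [hsin]
    have h1 := Real.one_sub_sq_div_two_le_cos (x := 2 * Real.pi * (t.re - 1 / 4))
    have h2 : |2 * Real.pi * (t.re - 1 / 4)| ≤ 0.10368 := by
      rw [abs_mul, abs_of_pos (by positivity)]
      have : |t.re - 1 / 4| ≤ 165 / 10000 := by rw [abs_le]; constructor <;> linarith
      nlinarith [abs_nonneg (t.re - 1 / 4)]
    have h3 : (2 * Real.pi * (t.re - 1 / 4)) ^ 2 ≤ 0.10368 ^ 2 := by
      rw [← sq_abs]
      gcongr
    norm_num at h3 ⊢
    linarith
  have hsh : |Real.sinh (2 * Real.pi * t.im)| ≤ 0.084 := by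
    have h1 : |κ.im| = Real.sin (2 * Real.pi * t.re) * |Real.sinh (2 * Real.pi * t.im)| := by
      rw [him, abs_neg, abs_mul, abs_of_pos (by linarith)]
    have h2 := abs_nonneg (Real.sinh (2 * Real.pi * t.im))
    rw [h1] at k3
    nlinarith
  have hsh2 : |2 * Real.pi * t.im| ≤ |Real.sinh (2 * Real.pi * t.im)| := by
    rw [Real.abs_sinh]
    exact Real.self_le_sinh_iff.2 (abs_nonneg _)
  rw [abs_mul, abs_of_pos (by positivity)] at hsh2
  nlinarith [abs_nonneg t.im]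

theorem rt_norm_cos (y : ℂ) : ‖Complex.cos (Real.pi * y)‖ ^ 2 =
    (Real.cos (2 * Real.pi * y.re) + Real.cosh (2 * Real.pi * y.im)) / 2 := by
  have h1 : ((Real.pi : ℂ) * y).re = Real.pi * y.re := by simp
  have h2 : ((Real.pi : ℂ) * y).im = Real.pi * y.im := by simp
  rw [← Complex.normSq_eq_norm_sq, Complex.normSq_apply, rt_cos_re, rt_cos_im, h1, h2]
  have e1 : 2 * Real.pi * y.re = 2 * (Real.pi * y.re) := by ring
  have e2 : 2 * Real.pi * y.im = 2 * (Real.pi * y.im) := by ring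
  rw [e1, e2, Real.cos_two_mul, Real.cosh_two_mul]
  have c1 := Real.sin_sq_add_cos_sq (Real.pi * y.re)
  have c2 := Real.cosh_sq (Real.pi * y.im)
  have c3 : Real.sin (Real.pi * y.re) ^ 2 = 1 - Real.cos (Real.pi * y.re) ^ 2 := by linarith
  linear_combination (Real.sinh (Real.pi * y.im) ^ 2) * c3 +
    (Real.cos (Real.pi * y.re) ^ 2 - 1 / 2) * c2

theorem rt_gt {y z t : ℂ} (hy : Reg y) (hz : Reg z) (ht : ‖t - 1 / 4‖ ≤ 1 / 20)
    (kern : gamt y t + gamt z t = 0) : |(gamt y t).re| ≤ 1 / 8 := by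
  have h := tau_gt (by linarith [hy.r1] : ‖y‖ ≤ 11 / 100) (by linarith [hz.r1]) ht kern
  have h1 := congrArg (fun u => ‖u‖) h
  simp only [Complex.norm_exp, norm_div, norm_pow] at h1
  rw [rt_norm_cos, rt_norm_cos] at h1
  obtain ⟨a1, a2⟩ := rg_cos hy
  obtain ⟨b1, b2⟩ := rg_cos hz
  set A := Real.cos (2 * Real.pi * y.re) + Real.cosh (2 * Real.pi * y.im) with hA
  set B := Real.cos (2 * Real.pi * z.re) + Real.cosh (2 * Real.pi * z.im) with hB
  have hB0 : 0 < B := by linarith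
  have hA0 : 0 < A := by linarith
  have hAB : Real.exp ((gamt y t).re) = A / B := by rw [h1]; field_simp
  have he : (1.1331 : ℝ) ≤ Real.exp (1 / 8) := by
    have := Real.sum_le_exp_of_nonneg (x := 1 / 8) (by norm_num) 4
    simp [Finset.sum_range_succ, Nat.factorial] at this
    norm_num at this ⊢
    linarith
  rw [abs_le]
  constructor
  · rw [← Real.exp_le_exp, hAB]
    have h3 : Real.exp (-(1 / 8)) ≤ 1 / 1.1331 := by
      rw [Real.exp_neg, ← one_div (Real.exp (1 / 8))]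
      exact one_div_le_one_div_of_le (by norm_num) he
    refine le_trans h3 ?_
    rw [div_le_div_iff₀ (by norm_num) hB0]
    linarith
  · rw [← Real.exp_le_exp, hAB]
    refine le_trans ?_ he
    rw [div_le_iff₀ hB0]
    linarith

theorem rt_gy {y z t : ℂ} (hy : Reg y) (hz : Reg z) (ht : ‖t - 1 / 4‖ ≤ 1 / 20)
    (kern : gamt y t + gamt z t = 0) (hk : ‖kapf y z - 1‖ ≤ 2 / 25) (ξ : ℝ)
    (hξ : |ξ| ≤ 17 / 100) : -(55 / 1000) ≤ (gamy y t).re * (ξ - y.re) := by
  have h := tau_gy (by linarith [hy.r1] : ‖y‖ ≤ 11 / 100) (by linarith [hz.r1]) ht kern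
  set e := (y * (kapf y z - 1)).re with he
  have h1 : (gamy y t).re = -(2 * Real.pi * (y.re + e)) := by
    rw [h]
    have : -(2 * (Real.pi : ℂ) * y * kapf y z) =
        ((-(2 * Real.pi) : ℝ) : ℂ) * (y + y * (kapf y z - 1)) := by
      push_cast; ring
    rw [this, Complex.re_ofReal_mul, Complex.add_re, ← he]; ring
  have he1 : |e| ≤ 0.008032 := by
    have h2 := Complex.abs_re_le_norm (y * (kapf y z - 1))
    rw [← he, norm_mul] at h2
    have h3 := hy.r1
    have h4 : ‖y‖ * ‖kapf y z - 1‖ ≤ (1004 / 10000) * (2 / 25) := by gcongr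
    norm_num at h4 ⊢
    linarith
  obtain ⟨e1, e2⟩ := abs_le.1 he1
  obtain ⟨x1, x2⟩ := abs_le.1 hξ
  have hπ1 := Real.pi_gt_d6
  have hπ2 := Real.pi_lt_d6
  rw [h1]
  -- `u (v - u) ≤ v ^ 2 / 4` with `u = y.re + e`, `v = ξ + e`
  have h5 : (y.re + e) * (ξ - y.re) ≤ 0.0079239 := by
    have h6 : (y.re + e) * (ξ - y.re) = (ξ + e) ^ 2 / 4 - ((ξ + e) / 2 - (y.re + e)) ^ 2 := by ring
    have h7 : (ξ + e) ^ 2 ≤ 0.178032 ^ 2 := by
      rw [← sq_abs]
      have : |ξ + e| ≤ 0.178032 := by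
        rw [abs_le]; constructor <;> norm_num <;> linarith
      gcongr
    rw [h6]
    have h8 := sq_nonneg ((ξ + e) / 2 - (y.re + e))
    norm_num at h7 ⊢
    linarith
  have h9 : -(2 * Real.pi * (y.re + e)) * (ξ - y.re) = -(2 * Real.pi) * ((y.re + e) * (ξ - y.re)) := by
    ring
  rw [h9]
  nlinarith

end Pool.Agent.XV
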