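import Pool.Agent.XV.Hs
import Pool.Agent.XV.Hf
import Pool.Agent.XV.Rt
import Pool.Agent.XV.Rd
import Pool.Agent.XV.Rb
import Pool.Agent.XV.Kap

/-!
# XV HOK: the conditions `Half`
-/

set_option autoImplicit false

namespace Pool.Agent.XV

open Complex Finset
open Pool.Agent.Helper9.TB Pool.Agent.Helper9.TF

theorem rf_ok {y z t : ℂ} (hy : Reg y) (hz : Reg z) (ht : ‖t - 1 / 4‖ ≤ 1 / 20)
    (kern : gamt y t + gamt z t = 0) : RF y t := by
  obtain ⟨r1, r2, r3⟩ := rt_range hy hz ht kern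
  exact ⟨rg_re hy, hy.r2, rg_im hy, r1, r2, r3, rt_gt hy hz ht kern, rd_gti hy r1 r2,
    rd_gtd hy r1 r2 r3, rd_gyd hy r1 r2 r3, rb_big hy r1 r2 r3,
    fun ξ hξ => rt_gy hy hz ht kern (kap_small hy.r1 hz.r1) ξ hξ⟩

theorem half_rf {x0 : ℝ} {y t : ℂ} (H : RF y t) (hx0 : |x0| ≤ 1 / 10) : Half x0 y t where
  x0a := hx0
  yre := by linarith [H.yre]
  yneg := H.yneg
  yim := H.yim
  tre1 := by linarith [H.tre1]
  tre2 := by linarith [H.tre2]
  tim := by linarith [H.tim]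
  near := fun r x h1 h2 h3 => by
    have := near_rf H h1 h2 h3
    nlinarith [sq_nonneg (r - t.re), sq_nonneg (x - y.re)]
  wall := fun r lam x ξ h1 h2 hI hx => by
    rw [hI.eq]
    exact wall_rf H hx0 h1 h2 hI.l0 hI.l1 hx
  side := fun r θ lam x ξ h1 h2 hθ hI => side_rf H hx0 h1 h2 hθ hI
  vert := fun r θ lam x ξ h1 h2 he hθ hI => vert_rf H hx0 h1 h2 he hθ hI
  vert0 := fun r κ lam x ξ h1 h2 he k0 k1 hI => vert0_rf H hx0 h1 h2 he k0 k1 hI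
  real := fun r lam x ξ h1 h2 hI => rf_real H hx0 h1 h2 hI
  realfar := fun r lam x ξ h1 h2 he hI => rf_realfar H hx0 h1 h2 he hI
  far := fun r x h1 h2 h3 h4 => rf_far H hx0 h1 h2 h3 h4

theorem half_ok {y z t : ℂ} (hy : Reg y) (hz : Reg z) (ht : ‖t - 1 / 4‖ ≤ 1 / 20)
    (kern : gamt y t + gamt z t = 0) {x0 : ℝ} (hx0 : |x0| ≤ 1 / 10) : Half x0 y t :=
  half_rf (rf_ok hy hz ht kern) hx0

end Pool.Agent.XV
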