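import Pool.Agent.XV.Defs

/-!
# XV PROD: products of functions of the class `Nice`

`nice_one`: everything is explicit (`N ^ 0 = 1`, exponents `0`).

`Nice.mul`: multiply the bounds (constants `C C'`, powers `K + K'`, `max N0 N0'`; norms are
multiplicative, `N ^ (e + e') = N ^ e N ^ e'`, the casts `((d + d' : ℕ) : ℝ) = d + d'`), and the
limits.
-/

set_option autoImplicit false

namespace Pool.Agent.XV

open Complex Finset Filter Topology

theorem nice_one (a : ℤ) (y : ℂ) : Nice a y 0 (fun _ _ => 1) 0 0 0 1 0 where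
  diff := fun _ => differentiable_const _
  near := ⟨1, 0, one_pos, fun N _ x _ => by simp⟩
  out := ⟨1, 0, 0, one_pos, fun N _ w ξ _ => by simp⟩
  lim := fun u => by simp
  k_ne := one_ne_zero

theorem Nice.mul {a : ℤ} {y : ℂ} {d d' : ℕ} {G G' : ℕ → ℂ → ℂ} {E D E' D' : ℂ} {e e' : ℕ}
    {k q k' q' : ℂ} (h : Nice a y d G E D e k q) (h' : Nice a y d' G' E' D' e' k' q') :
    Nice a y (d + d') (fun N w => G N w * G' N w) (E + E') (D + D') (e + e') (k * k')
      (q + q') where
  diff := fun N => (h.diff N).mul (h'.diff N)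
  near := by
    obtain ⟨C, N0, hC, h1⟩ := h.near
    obtain ⟨C', N0', hC', h1'⟩ := h'.near
    refine ⟨C * C', max N0 N0', mul_pos hC hC', fun N hN x hx => ?_⟩
    have h2 := h1 N ((le_max_left _ _).trans hN) x hx
    have h2' := h1' N ((le_max_right _ _).trans hN) x hx
    have h3 := mul_le_mul h2 h2' (by positivity) (by positivity)
    have h4 : (N : ℝ) * (E.re + D.re * (x - y.re) - d * (x - y.re) ^ 2 / 400) +
        N * (E'.re + D'.re * (x - y.re) - d' * (x - y.re) ^ 2 / 400) =
        N * ((E + E').re + (D + D').re * (x - y.re) -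
          ((d + d' : ℕ) : ℝ) * (x - y.re) ^ 2 / 400) := by
      rw [Complex.add_re, Complex.add_re]
      push_cast
      ring
    rw [← h4, Real.exp_add, norm_mul, pow_add]
    calc _ = (‖G N (x + y.im * I)‖ * (N : ℝ) ^ e) * (‖G' N (x + y.im * I)‖ * (N : ℝ) ^ e') := by
          ring
      _ ≤ _ := h3
      _ = _ := by ring
  out := by
    obtain ⟨C, K, N0, hC, h1⟩ := h.out
    obtain ⟨C', K', N0', hC', h1'⟩ := h'.out
    refine ⟨C * C', K + K', max N0 N0', mul_pos hC hC', fun N hN w ξ hw => ?_⟩
    have h2 := h1 N ((le_max_left _ _).trans hN) w ξ hw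
    have h2' := h1' N ((le_max_right _ _).trans hN) w ξ hw
    have h3 := mul_le_mul h2 h2' (by positivity) (by positivity)
    have h4 : (N : ℝ) * (E.re + D.re * (ξ - y.re) - d / 2000) +
        N * (E'.re + D'.re * (ξ - y.re) - d' / 2000) =
        N * ((E + E').re + (D + D').re * (ξ - y.re) - ((d + d' : ℕ) : ℝ) / 2000) := by
      rw [Complex.add_re, Complex.add_re]
      push_cast
      ring
    rw [← h4, Real.exp_add, norm_mul, pow_add]
    calc _ ≤ _ := h3
      _ = _ := by ring
  lim := by
    intro u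
    have h1 := (h.lim u).mul (h'.lim u)
    have h2 : k * Complex.exp (q * u ^ 2) * (k' * Complex.exp (q' * u ^ 2)) =
        k * k' * Complex.exp ((q + q') * u ^ 2) := by
      rw [add_mul, Complex.exp_add]
      ring
    rw [h2] at h1
    refine h1.congr fun N => ?_
    have h3 : -((N : ℂ) * (E + E' + (D + D') * (u / Real.sqrt N : ℝ))) =
        -(N * (E + D * (u / Real.sqrt N : ℝ))) + -(N * (E' + D' * (u / Real.sqrt N : ℝ))) := by
      ring
    rw [h3, Complex.exp_add, pow_add]
    ring
  k_ne := mul_ne_zero h.k_ne h'.k_ne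

end Pool.Agent.XV
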