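import Mathlib
import Pool.Agent.XV.Defs
import Pool.Agent.Helper9.TB.Path

/-!
# XV PATH: the path through the saddle point

`pi_path2` is the two sided version of `PI_path` (Helper9.TB.Path; same proof: Cauchy's theorem for
the rectangles `[-1/2, -c] × [-h, -δ]`, `[-c, c] × [-h, -H]`, `[c, 1/2] × [-h, -δ]`, and splitting of
the vertical integrals at `-δ`, of the horizontal ones at `± c`).

`pi_height`: `pi_path2` with `c = 0`, `δ = min h h'` for both heights.

`pi_conj`: formal; substitute `x ↦ -x` in the horizontal part and use that the conjugate function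
`cj f y = conj (f (conj y))` is odd (`cj` in Helper9.TG.TreeDefs):
`conj (f (-1/2 + v i)) = cj f (-1/2 - v i) = - cj f (1/2 + v i)`, etc.

`pi_rest`: `pi_path2` with `h = 1`, `H = -y.im`, `δ = 1 / N`, `c = 17 / 100`.  The points of the
other parts of the path: `x = ± 1/2`, `-1/N ≤ im ≤ 0` and `17/100 ≤ |x| ≤ 1/2`, `im = -1/N` satisfy
`Fa x0 N w x0`; `x = ± 17/100`, `y.im ≤ im ≤ -1/N` satisfy `Wa x0 y N w ξ` with
`lam = im / y.im`.  Total length `2 / N + 2 * 33/100 + 2 (|y.im| - 1 / N) ≤ 2`.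
-/

set_option autoImplicit false

namespace Pool.Agent.XV

open Complex Finset
open Pool.Agent.Helper9.TB Pool.Agent.Helper9.TF

private theorem rect0 {f : ℂ → ℂ} {a b p q : ℝ} (ha : -(1 / 2) ≤ a) (hab : a ≤ b)
    (hb : b ≤ 1 / 2) (hpq : p ≤ q) (hq : q < 0)
    (hf : ∀ y : ℂ, |y.re| ≤ 1 / 2 → y.im < 0 → DifferentiableAt ℂ f y) :
    hor f a b p - hor f a b q + I * ver f b p q - I * ver f a p q = 0 := by
  have hrect := integral_boundary_rect_eq_zero_of_differentiableOn f
    (((a : ℝ) : ℂ) + ((p : ℝ) : ℂ) * I) (((b : ℝ) : ℂ) + ((q : ℝ) : ℂ) * I) (by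
      rw [re_pt, re_pt, im_pt, im_pt, Set.uIcc_of_le hab, Set.uIcc_of_le hpq]
      intro y hy
      rw [mem_reProdIm] at hy
      apply DifferentiableAt.differentiableWithinAt
      apply hf
      · rw [abs_le]; exact ⟨by linarith [hy.1.1], by linarith [hy.1.2]⟩
      · linarith [hy.2.2])
  rw [re_pt, re_pt, im_pt, im_pt] at hrect
  unfold hor ver
  simpa only [smul_eq_mul] using hrect

private theorem hor_int {f : ℂ → ℂ} {a b η : ℝ} (ha : |a| ≤ 1 / 2) (hb : |b| ≤ 1 / 2)
    (hη : η < 0) (hf : ∀ y : ℂ, |y.re| ≤ 1 / 2 → y.im < 0 → DifferentiableAt ℂ f y) :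
    IntervalIntegrable (fun x : ℝ => f (x + η * I)) MeasureTheory.volume a b := by
  apply ContinuousOn.intervalIntegrable
  intro x hx
  apply ContinuousAt.continuousWithinAt
  have h1 : ContinuousAt f ((x : ℂ) + η * I) := by
    refine (hf _ ?_ ?_).continuousAt
    · rw [re_pt]
      rw [abs_le] at ha hb ⊢
      rw [Set.mem_uIcc] at hx
      rcases hx with hx | hx <;> constructor <;> linarith [hx.1, hx.2]
    · rw [im_pt]; exact hη
  exact ContinuousAt.comp (f := fun x : ℝ => (x : ℂ) + η * I) h1 (by fun_prop)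

private theorem ver_int {f : ℂ → ℂ} {x a b : ℝ} (hx : |x| ≤ 1 / 2) (ha : a < 0) (hb : b < 0)
    (hf : ∀ y : ℂ, |y.re| ≤ 1 / 2 → y.im < 0 → DifferentiableAt ℂ f y) :
    IntervalIntegrable (fun y : ℝ => f (x + y * I)) MeasureTheory.volume a b := by
  apply ContinuousOn.intervalIntegrable
  intro y hy
  apply ContinuousAt.continuousWithinAt
  have h1 : ContinuousAt f ((x : ℂ) + y * I) := by
    refine (hf _ ?_ ?_).continuousAt
    · rw [re_pt]
      exact hx
    · rw [im_pt]
      rw [Set.mem_uIcc] at hy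
      rcases hy with hy | hy <;> linarith [hy.1, hy.2]
  exact ContinuousAt.comp (f := fun y : ℝ => (x : ℂ) + y * I) h1 (by fun_prop)

private theorem ver_int0 {f : ℂ → ℂ} {h x a : ℝ} (hx : |x| = 1 / 2) (ha : -h ≤ a) (ha0 : a ≤ 0)
    (hf' : ContinuousOn f (PS h)) :
    IntervalIntegrable (fun y : ℝ => f (x + y * I)) MeasureTheory.volume a 0 := by
  apply ContinuousOn.intervalIntegrable
  apply ver_cont hf'
  intro y hy
  rw [Set.uIcc_of_le ha0] at hy
  right
  rw [re_pt, im_pt]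
  exact ⟨hx, ha.trans hy.1, hy.2⟩

theorem pi_path2 {f : ℂ → ℂ} {h H δ c : ℝ} (hδ : 0 < δ) (h1 : δ ≤ H) (h2 : H ≤ h) (hc0 : 0 ≤ c)
    (hc : c ≤ 1 / 2) (hf : ∀ y : ℂ, |y.re| ≤ 1 / 2 → y.im < 0 → DifferentiableAt ℂ f y)
    (hf' : ContinuousOn f (PS h)) :
    PI f h = -(I * ver f (-1 / 2) (-δ) 0) + hor f (-1 / 2) (-c) (-δ) - I * ver f (-c) (-H) (-δ) +
      hor f (-c) c (-H) + I * ver f c (-H) (-δ) + hor f c (1 / 2) (-δ) +
      I * ver f (1 / 2) (-δ) 0 := by
  have r1 := rect0 (f := f) (a := -1 / 2) (b := -c) (p := -h) (q := -δ) (by norm_num)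
    (by linarith) (by linarith) (by linarith) (by linarith) hf
  have r2 := rect0 (f := f) (a := -c) (b := c) (p := -h) (q := -H) (by linarith)
    (by linarith) (by linarith) (by linarith) (by linarith) hf
  have r3 := rect0 (f := f) (a := c) (b := 1 / 2) (p := -h) (q := -δ) (by linarith)
    (by linarith) (by linarith) (by linarith) (by linarith) hf
  have hca : |c| ≤ 1 / 2 := by rw [abs_of_nonneg hc0]; exact hc
  have hca' : |(-c)| ≤ 1 / 2 := by rw [abs_neg]; exact hca
  have s1 : hor f (-1 / 2) (1 / 2) (-h) = hor f (-1 / 2) (-c) (-h) + hor f (-c) c (-h) +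
      hor f c (1 / 2) (-h) := by
    unfold hor
    rw [intervalIntegral.integral_add_adjacent_intervals,
      intervalIntegral.integral_add_adjacent_intervals]
    · exact hor_int ab1.le hca (by linarith) hf
    · exact hor_int hca ab2.le (by linarith) hf
    · exact hor_int ab1.le hca' (by linarith) hf
    · exact hor_int hca' hca (by linarith) hf
  have s2 : ∀ x : ℝ, |x| = 1 / 2 → ver f x (-h) 0 = ver f x (-h) (-δ) + ver f x (-δ) 0 := by
    intro x hx
    unfold ver
    rw [intervalIntegral.integral_add_adjacent_intervals]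
    · exact ver_int hx.le (by linarith) (by linarith) hf
    · exact ver_int0 hx (by linarith) (by linarith) hf'
  have s3 : ∀ x : ℝ, |x| ≤ 1 / 2 → ver f x (-h) (-δ) = ver f x (-h) (-H) + ver f x (-H) (-δ) := by
    intro x hx
    unfold ver
    rw [intervalIntegral.integral_add_adjacent_intervals]
    · exact ver_int hx (by linarith) (by linarith) hf
    · exact ver_int hx (by linarith) (by linarith) hf
  have t1 := s2 (-1 / 2) ab1
  have t2 := s2 (1 / 2) ab2
  have t3 := s3 c hca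
  have t4 := s3 (-c) hca'
  have r1' := r1
  rw [t4] at r1'
  have r3' := r3
  rw [t3] at r3'
  unfold PI
  rw [s1, t1, t2]
  linear_combination r1' + r2 + r3'

theorem pi_height {f : ℂ → ℂ} {h h' : ℝ} (hh : 0 < h) (hh' : 0 < h')
    (hf : ∀ y : ℂ, |y.re| ≤ 1 / 2 → y.im < 0 → DifferentiableAt ℂ f y)
    (hf1 : ContinuousOn f (PS h)) (hf2 : ContinuousOn f (PS h')) : PI f h = PI f h' := by
  have hm : 0 < min h h' := lt_min hh hh'
  rw [pi_path2 hm le_rfl (min_le_left h h') le_rfl (by norm_num) hf hf1,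
    pi_path2 hm le_rfl (min_le_right h h') le_rfl (by norm_num) hf hf2]

private theorem ii_conj (f : ℝ → ℂ) (a b : ℝ) :
    ∫ x in a..b, (starRingEnd ℂ) (f x) = (starRingEnd ℂ) (∫ x in a..b, f x) := by
  rw [intervalIntegral, intervalIntegral, integral_conj, integral_conj, map_sub]

private theorem conj_ver {f : ℂ → ℂ} (hodd : ∀ y, f (-y) = -f y) (x a b : ℝ) :
    (starRingEnd ℂ) (ver f x a b) = -ver (Pool.Agent.Helper9.TG.cj f) (-x) a b := by
  unfold ver
  rw [← intervalIntegral.integral_neg, ← ii_conj]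
  refine intervalIntegral.integral_congr fun y _ => ?_
  simp only [Pool.Agent.Helper9.TG.cj]
  rw [← map_neg (starRingEnd ℂ), ← hodd]
  congr 2
  simp only [map_add, map_mul, Complex.conj_ofReal, Complex.conj_I]
  push_cast
  ring

private theorem conj_hor {f : ℂ → ℂ} (hodd : ∀ y, f (-y) = -f y) (a b η : ℝ) :
    (starRingEnd ℂ) (hor f a b η) = -hor (Pool.Agent.Helper9.TG.cj f) (-b) (-a) η := by
  unfold hor
  rw [← intervalIntegral.integral_comp_neg (fun x : ℝ =>
      Pool.Agent.Helper9.TG.cj f ((x : ℂ) + η * I)),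
    ← intervalIntegral.integral_neg, ← ii_conj]
  refine intervalIntegral.integral_congr fun y _ => ?_
  simp only [Pool.Agent.Helper9.TG.cj]
  rw [← map_neg (starRingEnd ℂ), ← hodd]
  congr 2
  simp only [map_add, map_mul, Complex.conj_ofReal, Complex.conj_I]
  push_cast
  ring

theorem pi_conj {f : ℂ → ℂ} (hodd : ∀ y, f (-y) = -f y) (h : ℝ) :
    (starRingEnd ℂ) (PI f h) = -PI (Pool.Agent.Helper9.TG.cj f) h := by
  unfold PI
  rw [map_add, map_add, map_neg, map_mul, map_mul, conj_ver hodd, conj_ver hodd, conj_hor hodd,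
    Complex.conj_I]
  have e1 : -(-1 / 2 : ℝ) = 1 / 2 := by norm_num
  have e2 : -(1 / 2 : ℝ) = -1 / 2 := by norm_num
  rw [e1, e2]
  ring

theorem pi_rest {f : ℂ → ℂ} {y : ℂ} {x0 B : ℝ} {N : ℕ} (hN : 0 < N) (hy : -(55 / 1000) ≤ y.im)
    (hNy : 1 / (N : ℝ) ≤ -y.im)
    (hf : ∀ y : ℂ, |y.re| ≤ 1 / 2 → y.im < 0 → DifferentiableAt ℂ f y)
    (hf' : ContinuousOn f (PS 1))
    (hB : ∀ (w : ℂ) (ξ : ℝ), (Wa x0 y N w ξ ∨ Fa x0 N w ξ) → ‖f w‖ ≤ B) :
    ‖PI f 1 - ∫ x in (-(17 / 100) : ℝ)..(17 / 100), f (x + y.im * I)‖ ≤ 2 * B := by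
  have hN0 : (0 : ℝ) < N := by exact_mod_cast hN
  have hδ : (0 : ℝ) < 1 / N := by positivity
  have hyim : 0 < -y.im := by linarith
  have key := pi_path2 (f := f) (h := 1) (H := -y.im) (δ := 1 / N) (c := 17 / 100) hδ hNy
    (by linarith) (by norm_num) (by norm_num) hf hf'
  have hmid : hor f (-(17 / 100)) (17 / 100) (- -y.im) =
      ∫ x in (-(17 / 100) : ℝ)..(17 / 100), f (x + y.im * I) := by
    unfold hor
    rw [neg_neg]
  rw [hmid] at key
  have Bv : ∀ x : ℝ, |x| = 1 / 2 → ‖ver f x (-(1 / N)) 0‖ ≤ B * (1 / N) := by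
    intro x hx
    unfold ver
    refine (intervalIntegral.norm_integral_le_of_norm_le_const (C := B) ?_).trans ?_
    · intro v hv
      rw [Set.uIoc_of_le (by linarith)] at hv
      refine hB _ x0 (Or.inr ⟨?_, ?_, ?_, ?_, ?_, rfl⟩)
      · rw [re_pt, hx]; norm_num
      · rw [re_pt, hx]
      · rw [im_pt]; exact hv.1.le
      · rw [im_pt]; exact hv.2
      · right; rw [re_pt, hx]
    · rw [abs_of_pos (by linarith)]
      exact le_of_eq (by ring)
  have Bh : ∀ a b : ℝ, a ≤ b → (∀ x, a ≤ x → x ≤ b → 17 / 100 ≤ |x| ∧ |x| ≤ 1 / 2) →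
      ‖hor f a b (-(1 / N))‖ ≤ B * (b - a) := by
    intro a b hab hx
    unfold hor
    refine (intervalIntegral.norm_integral_le_of_norm_le_const (C := B) ?_).trans ?_
    · intro v hv
      rw [Set.uIoc_of_le hab] at hv
      obtain ⟨x1, x2⟩ := hx v hv.1.le hv.2
      refine hB _ x0 (Or.inr ⟨?_, ?_, ?_, ?_, ?_, rfl⟩)
      · rw [re_pt]; exact x1
      · rw [re_pt]; exact x2
      · rw [im_pt]
      · rw [im_pt]; linarith
      · left; rw [im_pt]
    · rw [abs_of_nonneg (by linarith)]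
  have Bw : ∀ x : ℝ, |x| = 17 / 100 → ‖ver f x (- -y.im) (-(1 / N))‖ ≤
      B * (-y.im - 1 / N) := by
    intro x hx
    unfold ver
    refine (intervalIntegral.norm_integral_le_of_norm_le_const (C := B) ?_).trans ?_
    · intro v hv
      rw [Set.uIoc_of_le (by linarith)] at hv
      refine hB _ _ (Or.inl ⟨v / y.im, x, ?_, ?_, ?_, hx, ?_, rfl⟩)
      · exact div_nonneg_of_nonpos (by linarith [hv.2]) (by linarith)
      · rw [div_le_one_of_neg (by linarith)]
        linarith [hv.1]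
      · rw [abs_of_neg (by linarith : y.im < 0), mul_neg, div_mul_cancel₀ _ (by linarith)]
        linarith [hv.2]
      · rw [div_mul_cancel₀ _ (by linarith)]
    · rw [abs_of_nonneg (by linarith)]
      exact le_of_eq (by ring)
  have b1 := Bv (-1 / 2) ab1
  have b2 := Bv (1 / 2) ab2
  have b3 := Bh (-1 / 2) (-(17 / 100)) (by norm_num) (by
    intro x h1 h2
    rw [abs_of_nonpos (by linarith)]
    constructor <;> linarith)
  have b4 := Bh (17 / 100) (1 / 2) (by norm_num) (by
    intro x h1 h2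
    rw [abs_of_nonneg (by linarith)]
    constructor <;> linarith)
  have b5 := Bw (-(17 / 100)) (by rw [abs_neg, abs_of_pos (by norm_num)])
  have b6 := Bw (17 / 100) (by rw [abs_of_pos (by norm_num)])
  have hB0 : 0 ≤ B := by
    have := mul_nonneg_iff_of_pos_right (c := (-1 / 2 : ℝ) * -1) (b := B) (by norm_num)
    have h3 : (0 : ℝ) ≤ B * (-(17 / 100) - -1 / 2) := (norm_nonneg _).trans b3
    nlinarith
  rw [key]
  have e : -(I * ver f (-1 / 2) (-(1 / N)) 0) + hor f (-1 / 2) (-(17 / 100)) (-(1 / N)) -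
      I * ver f (-(17 / 100)) (- -y.im) (-(1 / N)) +
      (∫ x in (-(17 / 100) : ℝ)..(17 / 100), f (x + y.im * I)) +
      I * ver f (17 / 100) (- -y.im) (-(1 / N)) + hor f (17 / 100) (1 / 2) (-(1 / N)) +
      I * ver f (1 / 2) (-(1 / N)) 0 - (∫ x in (-(17 / 100) : ℝ)..(17 / 100), f (x + y.im * I)) =
      -(I * ver f (-1 / 2) (-(1 / N)) 0) + hor f (-1 / 2) (-(17 / 100)) (-(1 / N)) -
      I * ver f (-(17 / 100)) (- -y.im) (-(1 / N)) +
      I * ver f (17 / 100) (- -y.im) (-(1 / N)) + hor f (17 / 100) (1 / 2) (-(1 / N)) +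
      I * ver f (1 / 2) (-(1 / N)) 0 := by ring
  rw [e]
  have nI : ∀ z : ℂ, ‖I * z‖ = ‖z‖ := fun z => by rw [norm_mul, Complex.norm_I, one_mul]
  refine (norm_add_le _ _).trans ?_
  refine (add_le_add_left (norm_add_le _ _) _).trans ?_
  refine (add_le_add_left (add_le_add_left (norm_add_le _ _) _) _).trans ?_
  refine (add_le_add_left (add_le_add_left (add_le_add_left (norm_sub_le _ _) _) _) _).trans ?_
  refine (add_le_add_left (add_le_add_left (add_le_add_left (add_le_add_left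
    (norm_add_le _ _) _) _) _) _).trans ?_
  rw [norm_neg, nI, nI, nI, nI]
  have hfin : B * (1 / N) + B * (-(17 / 100) - -1 / 2) + B * (-y.im - 1 / N) +
      B * (-y.im - 1 / N) + B * (1 / 2 - 17 / 100) + B * (1 / N) =
      B * (66 / 100 + 2 * -y.im) := by ring
  have hfin2 : B * (66 / 100 + 2 * -y.im) ≤ B * 2 := by
    refine mul_le_mul_of_nonneg_left ?_ hB0
    linarith
  linarith

end Pool.Agent.XV
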