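import Pool.Agent.XV.Om
import Pool.Agent.XV.Pth

/-!
# XV ROOT: the integral over the variable of the root

`f w = om2 N a w * G N w`.  `tot'`: the real part of `site` is `D.re = 2 π a y.im`, hence
`E.re + D.re (ξ - y.re) - 2 π y.im (a ξ - 1) = E.re + (vx a y).re` for all `ξ` (`vx_re`), and
`(vx a (ξ + y.im I)).re = -2 π y.im (a ξ - 1)`.

1. `pi_rest` with `x0 := 1 / a`: the difference of `PI f 1` and the near integral is, by `om2_out`,
   `Nice.out`, `d ≥ 1` and `tot'`, at most `C N ^ K exp (N ((E + vx a y).re - 1 / 2000))`.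
2. Substitute `x = y.re + v / sqrt N` in the near integral.  The normalised integrand
   (factor `N ^ e exp (-(N (E + vx a y)))`, the factor `1 / sqrt N` of the substitution is taken out)
   tends to `dLy y * k * exp ((q + π i a) v ^ 2)` (`om2_lim`, `Nice.lim`, and
   `N (vx a (y + v / sqrt N) - vx a y) + sqrt N v D = π i a v ^ 2` by `site`), and it is at most
   `C exp (-d v ^ 2 / 400) ≤ C exp (-v ^ 2 / 400)` (`om2_in`, `Nice.near`, `tot'`).
   So `(q + π i a).re ≤ -1 / 400` (let `v → ∞` in the limit of the bound) and by dominated convergence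
   and `integral_cexp_quadratic`
   `sqrt N * N ^ e * exp (-(N (E + vx a y))) * PI f 1 → L = dLy y * k * (π / -(q + π i a)) ^ (1 / 2)`,
   `L ≠ 0` (`dLy y = 4 π sin (2 π y) ≠ 0` because `y.im < 0`).
3. Hence `log ‖PI f 1‖ = N (E + vx a y).re - (e + 1 / 2) log N + log ‖L‖ + o (1)`, divide by `N`.
-/

set_option autoImplicit false

namespace Pool.Agent.XV

open Complex Finset Filter Topology
open Pool.Agent.Helper9.TB Pool.Agent.Helper9.TF Pool.Agent.Helper9.TW

open MeasureTheory in
lemma rt_pt (y : ℂ) (δ : ℝ) : y + ((δ : ℝ) : ℂ) = ((y.re + δ : ℝ) : ℂ) + y.im * I := by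
  apply Complex.ext <;> simp

lemma rt_site {a : ℤ} {y D : ℂ} (site : 2 * Real.pi * I * (a * y - 1) + D = 0) :
    D.re = 2 * Real.pi * a * y.im := by
  have h0 : D = ((2 * Real.pi : ℝ) : ℂ) * (I - I * (((a : ℝ) : ℂ) * y)) := by
    push_cast
    linear_combination site
  rw [h0, Complex.re_ofReal_mul, Complex.sub_re, Complex.I_re, Complex.I_mul_re,
    Complex.im_ofReal_mul]
  ring

lemma rt_tot {a : ℤ} {y E D : ℂ} (site : 2 * Real.pi * I * (a * y - 1) + D = 0) (ξ : ℝ) :
    E.re + D.re * (ξ - y.re) + -(2 * Real.pi * y.im * (a * ξ - 1)) = (E + vx a y).re := by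
  rw [Complex.add_re, vx_re, rt_site site]
  ring

lemma rt_sq {N : ℕ} (hN : 1 ≤ N) (v : ℝ) : (N : ℝ) * (v / Real.sqrt N) ^ 2 = v ^ 2 := by
  have h0 : (0 : ℝ) < N := by exact_mod_cast hN
  rw [div_pow, Real.sq_sqrt h0.le]
  field_simp

lemma rt_exp {a : ℤ} {y E D : ℂ} (site : 2 * Real.pi * I * (a * y - 1) + D = 0) {N : ℕ}
    (hN : 1 ≤ N) (v : ℝ) : Complex.exp (-(N * (E + vx a y))) =
      Complex.exp (-(N * vx a (y + (v / Real.sqrt N : ℝ)))) *
      Complex.exp (-(N * (E + D * (v / Real.sqrt N : ℝ)))) *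
      Complex.exp (Real.pi * I * a * v ^ 2) := by
  rw [← Complex.exp_add, ← Complex.exp_add]
  congr 1
  have h1 : (N : ℂ) * ((v / Real.sqrt N : ℝ) : ℂ) ^ 2 = (v : ℂ) ^ 2 := by
    have := rt_sq hN v
    exact_mod_cast this
  generalize ((v / Real.sqrt N : ℝ) : ℂ) = δ at h1 ⊢
  unfold vx
  rw [← h1]
  linear_combination (N : ℂ) * δ * site

lemma rt_dLy {y : ℂ} (hy : y.im < 0) : dLy y ≠ 0 := by
  unfold dLy
  have hpi : (Real.pi : ℂ) ≠ 0 := by exact_mod_cast Real.pi_ne_zero
  refine mul_ne_zero (mul_ne_zero (by norm_num) hpi) ?_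
  intro h
  rw [Complex.sin_eq_zero_iff] at h
  obtain ⟨n, hn⟩ := h
  have h2 : y = ((n / 2 : ℝ) : ℂ) := by
    push_cast
    have h3 : (Real.pi : ℂ) * (2 * y - n) = 0 := by linear_combination hn
    rcases mul_eq_zero.1 h3 with h4 | h4
    · exact absurd h4 hpi
    · linear_combination h4 / 2
  rw [h2, Complex.ofReal_im] at hy
  exact absurd hy (lt_irrefl 0)

/-- the normalised integrand -/
noncomputable def rtF (a : ℤ) (y E : ℂ) (e : ℕ) (G : ℕ → ℂ → ℂ) (N : ℕ) (v : ℝ) : ℂ :=
  (N : ℂ) ^ e * Complex.exp (-(N * (E + vx a y))) *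
    (om2 N a (y + (v / Real.sqrt N : ℝ)) * G N (y + (v / Real.sqrt N : ℝ)))

lemma rt_flim {a : ℤ} {y E D k q : ℂ} {d e : ℕ} {G : ℕ → ℂ → ℂ} (hy : y.im < 0)
    (HG : Nice a y d G E D e k q) (site : 2 * Real.pi * I * (a * y - 1) + D = 0) (v : ℝ) :
    Tendsto (fun N : ℕ => rtF a y E e G N v) atTop
      (𝓝 (dLy y * (k * Complex.exp (q * v ^ 2)) * Complex.exp (Real.pi * I * a * v ^ 2))) := by
  have h1 := (om2_lim a hy v).mul (HG.lim v)
  have h2 := h1.mul_const (Complex.exp (Real.pi * I * a * v ^ 2))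
  refine h2.congr' ?_
  filter_upwards [eventually_ge_atTop 1] with N hN
  unfold rtF
  rw [rt_exp site hN v]
  ring

lemma rt_bound {a : ℤ} {y E D k q : ℂ} {d e : ℕ} {G : ℕ → ℂ → ℂ} (hd : 1 ≤ d) (hy : y.im < 0)
    (hy' : -(55 / 1000) ≤ y.im) (HG : Nice a y d G E D e k q)
    (site : 2 * Real.pi * I * (a * y - 1) + D = 0) : ∃ (C : ℝ) (N0 : ℕ), 0 < C ∧ ∀ N : ℕ, N0 ≤ N →
      ∀ v : ℝ, |y.re + v / Real.sqrt N| ≤ 17 / 100 →
      ‖rtF a y E e G N v‖ ≤ C * Real.exp (-(1 / 400) * v ^ 2) := by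
  obtain ⟨C1, hC1, h1⟩ := om2_in a
  obtain ⟨C2, N2, hC2, h2⟩ := HG.near
  obtain ⟨N3, hN3⟩ := exists_nat_gt (1 / -y.im)
  refine ⟨C1 * C2, max (max 1 N2) N3, by positivity, ?_⟩
  intro N hN v hv
  have hN1 : 1 ≤ N := le_trans (le_max_left _ _) (le_trans (le_max_left _ _) hN)
  have hN2 : N2 ≤ N := le_trans (le_max_right _ _) (le_trans (le_max_left _ _) hN)
  have hN3' : N3 ≤ N := le_trans (le_max_right _ _) hN
  have h0 : (0 : ℝ) < N := by exact_mod_cast hN1
  have h3 : y.im ≤ -(1 / (N : ℝ)) := by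
    have h4 : (1 : ℝ) / -y.im < N := lt_of_lt_of_le hN3 (by exact_mod_cast hN3')
    have h5 : 1 / (N : ℝ) < -y.im := by
      rw [div_lt_iff₀ (by linarith)] at h4
      rw [div_lt_iff₀ h0]
      linarith
    linarith
  have hw : y + ((v / Real.sqrt N : ℝ) : ℂ) = ((y.re + v / Real.sqrt N : ℝ) : ℂ) + y.im * I :=
    rt_pt y _
  have hre : (((y.re + v / Real.sqrt N : ℝ) : ℂ) + y.im * I).re = y.re + v / Real.sqrt N := by
    simp
  have him : (((y.re + v / Real.sqrt N : ℝ) : ℂ) + y.im * I).im = y.im := by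
    simp
  have ho := h1 N hN1 (((y.re + v / Real.sqrt N : ℝ) : ℂ) + y.im * I)
    (by rw [him]; linarith) (by rw [him]; exact h3)
  rw [vx_re, hre, him] at ho
  have hg := h2 N hN2 _ hv
  unfold rtF
  rw [hw, norm_mul, norm_mul, norm_mul, norm_pow, Complex.norm_natCast, Complex.norm_exp]
  have e1 : (-((N : ℂ) * (E + vx a y))).re = -(N * (E + vx a y).re) := by
    rw [Complex.neg_re]
    congr 1
    have : ((N : ℂ)) = ((N : ℝ) : ℂ) := by norm_cast
    rw [this, Complex.re_ofReal_mul]
  rw [e1]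
  have hn0 : 0 ≤ ‖om2 N a (((y.re + v / Real.sqrt N : ℝ) : ℂ) + y.im * I)‖ := norm_nonneg _
  calc (N : ℝ) ^ e * Real.exp (-(N * (E + vx a y).re)) *
      (‖om2 N a (((y.re + v / Real.sqrt N : ℝ) : ℂ) + y.im * I)‖ *
        ‖G N (((y.re + v / Real.sqrt N : ℝ) : ℂ) + y.im * I)‖)
      = Real.exp (-(N * (E + vx a y).re)) *
        (‖om2 N a (((y.re + v / Real.sqrt N : ℝ) : ℂ) + y.im * I)‖ *
        (‖G N (((y.re + v / Real.sqrt N : ℝ) : ℂ) + y.im * I)‖ * (N : ℝ) ^ e)) := by ring
    _ ≤ Real.exp (-(N * (E + vx a y).re)) *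
        ((C1 * Real.exp (N * -(2 * Real.pi * y.im * (a * (y.re + v / Real.sqrt N) - 1)))) *
        (C2 * Real.exp (N * (E.re + D.re * (y.re + v / Real.sqrt N - y.re) -
          d * (y.re + v / Real.sqrt N - y.re) ^ 2 / 400)))) := by
        apply mul_le_mul_of_nonneg_left _ (Real.exp_pos _).le
        exact mul_le_mul ho hg (by positivity) (by positivity)
    _ = C1 * C2 * Real.exp (-(d / 400) * v ^ 2) := by
        have e2 : Real.exp (-(d / 400) * v ^ 2) = Real.exp (-(N * (E + vx a y).re)) *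
            Real.exp (N * -(2 * Real.pi * y.im * (a * (y.re + v / Real.sqrt N) - 1))) *
            Real.exp (N * (E.re + D.re * (y.re + v / Real.sqrt N - y.re) -
              d * (y.re + v / Real.sqrt N - y.re) ^ 2 / 400)) := by
          rw [← Real.exp_add, ← Real.exp_add]
          congr 1
          have e3 := rt_tot (E := E) site (y.re + v / Real.sqrt N)
          have e4 := rt_sq hN1 v
          rw [← e3, ← e4]
          ring
        rw [e2]
        ring
    _ ≤ C1 * C2 * Real.exp (-(1 / 400) * v ^ 2) := by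
        apply mul_le_mul_of_nonneg_left _ (by positivity)
        apply Real.exp_le_exp.2
        have h5 : (1 : ℝ) ≤ d := by exact_mod_cast hd
        nlinarith [sq_nonneg v]

lemma rt_in {y : ℂ} (hyr : |y.re| ≤ 11 / 100) {v s : ℝ} (hs : 0 < s) (hv : |v| ≤ s * (6 / 100)) :
    |y.re + v / s| ≤ 17 / 100 := by
  have h1 : |v / s| ≤ 6 / 100 := by
    rw [abs_div, abs_of_pos hs, div_le_iff₀ hs]
    linarith
  calc |y.re + v / s| ≤ |y.re| + |v / s| := abs_add_le _ _
    _ ≤ 17 / 100 := by linarith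

lemma rt_ev (v : ℝ) : ∀ᶠ N : ℕ in atTop, |v| < Real.sqrt N * (6 / 100) := by
  have h1 : Tendsto (fun N : ℕ => Real.sqrt N * (6 / 100)) atTop atTop :=
    (Real.tendsto_sqrt_atTop.comp tendsto_natCast_atTop_atTop).atTop_mul_const (by norm_num)
  exact h1.eventually_gt_atTop _

lemma rt_neg {a : ℤ} {y E D k q : ℂ} {d e : ℕ} {G : ℕ → ℂ → ℂ} (hd : 1 ≤ d)
    (hyr : |y.re| ≤ 11 / 100) (hy : y.im < 0) (hy' : -(55 / 1000) ≤ y.im)
    (HG : Nice a y d G E D e k q) (site : 2 * Real.pi * I * (a * y - 1) + D = 0) :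
    (q + Real.pi * I * a).re < 0 := by
  by_contra hcon
  rw [not_lt] at hcon
  obtain ⟨C, N0, hC, hb⟩ := rt_bound hd hy hy' HG site
  have hL : ∀ v : ℝ, ‖dLy y * k‖ ≤ C * Real.exp (-(1 / 400) * v ^ 2) := by
    intro v
    have h1 := (rt_flim hy HG site v).norm
    have h2 : ‖dLy y * (k * Complex.exp (q * v ^ 2)) * Complex.exp (Real.pi * I * a * v ^ 2)‖ ≤
        C * Real.exp (-(1 / 400) * v ^ 2) := by
      refine le_of_tendsto h1 ?_
      filter_upwards [eventually_ge_atTop N0, eventually_ge_atTop 1, rt_ev v] with N hN hN1 hv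
      refine hb N hN v (rt_in hyr ?_ hv.le)
      exact Real.sqrt_pos.2 (by exact_mod_cast hN1)
    refine le_trans ?_ h2
    have h3 : dLy y * (k * Complex.exp (q * v ^ 2)) * Complex.exp (Real.pi * I * a * v ^ 2)
        = (dLy y * k) * Complex.exp (((v ^ 2 : ℝ) : ℂ) * (q + Real.pi * I * a)) := by
      have h4 : Complex.exp (((v ^ 2 : ℝ) : ℂ) * (q + Real.pi * I * a)) =
          Complex.exp (q * v ^ 2) * Complex.exp (Real.pi * I * a * v ^ 2) := by
        rw [← Complex.exp_add]
        congr 1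
        push_cast
        ring
      rw [h4]
      ring
    rw [h3, norm_mul (dLy y * k), Complex.norm_exp, Complex.re_ofReal_mul]
    have h5 : 1 ≤ Real.exp (v ^ 2 * (q + Real.pi * I * a).re) :=
      Real.one_le_exp (mul_nonneg (sq_nonneg v) hcon)
    nlinarith [norm_nonneg (dLy y * k)]
  have hk : 0 < ‖dLy y * k‖ := norm_pos_iff.2 (mul_ne_zero (rt_dLy hy) HG.k_ne)
  have h6 : Tendsto (fun v : ℝ => C * Real.exp (-(1 / 400) * v ^ 2)) atTop (𝓝 (C * 0)) := by
    apply Tendsto.const_mul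
    apply Real.tendsto_exp_atBot.comp
    exact (tendsto_pow_atTop (by norm_num : (2 : ℕ) ≠ 0)).const_mul_atTop_of_neg (by norm_num)
  have h7 := ge_of_tendsto' h6 hL
  rw [mul_zero] at h7
  linarith

lemma rt_dom {a : ℤ} {y E D k q : ℂ} {d e : ℕ} {G : ℕ → ℂ → ℂ} (hd : 1 ≤ d)
    (hyr : |y.re| ≤ 11 / 100) (hy : y.im < 0) (hy' : -(55 / 1000) ≤ y.im)
    (HG : Nice a y d G E D e k q) (site : 2 * Real.pi * I * (a * y - 1) + D = 0) :
    ∃ L : ℂ, L ≠ 0 ∧ Tendsto (fun N : ℕ => ∫ v in (Real.sqrt N * (-(17 / 100) - y.re))..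
      (Real.sqrt N * (17 / 100 - y.re)), rtF a y E e G N v) atTop (𝓝 L) := by
  obtain ⟨C, N0, hC, hb⟩ := rt_bound hd hy hy' HG site
  have hneg := rt_neg hd hyr hy hy' HG site
  have hyr' := abs_le.1 hyr
  refine ⟨∫ v : ℝ, dLy y * (k * Complex.exp (q * v ^ 2)) * Complex.exp (Real.pi * I * a * v ^ 2),
    ?_, ?_⟩
  · have h1 : ∀ v : ℝ, dLy y * (k * Complex.exp (q * v ^ 2)) *
        Complex.exp (Real.pi * I * a * v ^ 2) =
        (dLy y * k) * Complex.exp (-(-(q + Real.pi * I * a)) * (v : ℂ) ^ 2) := by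
      intro v
      have h4 : Complex.exp (-(-(q + Real.pi * I * a)) * (v : ℂ) ^ 2) =
          Complex.exp (q * v ^ 2) * Complex.exp (Real.pi * I * a * v ^ 2) := by
        rw [← Complex.exp_add]
        congr 1
        ring
      rw [h4]
      ring
    simp only [h1]
    rw [MeasureTheory.integral_const_mul, integral_gaussian_complex
      (by rw [Complex.neg_re]; linarith)]
    refine mul_ne_zero (mul_ne_zero (rt_dLy hy) HG.k_ne) ?_
    intro h2
    rw [Complex.cpow_eq_zero_iff] at h2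
    have hb0 : -(q + Real.pi * I * a) ≠ 0 := by
      intro h3
      have h4 := congrArg Complex.re h3
      rw [Complex.neg_re, Complex.zero_re] at h4
      linarith
    have hpi : (Real.pi : ℂ) ≠ 0 := by exact_mod_cast Real.pi_ne_zero
    exact (div_ne_zero hpi hb0) h2.1
  · have hA : ∀ N : ℕ, Real.sqrt N * (-(17 / 100) - y.re) ≤ Real.sqrt N * (17 / 100 - y.re) := by
      intro N
      exact mul_le_mul_of_nonneg_left (by linarith) (Real.sqrt_nonneg _)
    have hint : ∀ N : ℕ, ∫ v in (Real.sqrt N * (-(17 / 100) - y.re))..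
        (Real.sqrt N * (17 / 100 - y.re)), rtF a y E e G N v =
        ∫ v : ℝ, (Set.Ioc (Real.sqrt N * (-(17 / 100) - y.re))
          (Real.sqrt N * (17 / 100 - y.re))).indicator (rtF a y E e G N) v := by
      intro N
      rw [intervalIntegral.integral_of_le (hA N), MeasureTheory.integral_indicator measurableSet_Ioc]
    simp only [hint]
    have hmem : ∀ N : ℕ, 1 ≤ N → ∀ v : ℝ, v ∈ Set.Icc (Real.sqrt N * (-(17 / 100) - y.re))
        (Real.sqrt N * (17 / 100 - y.re)) → |y.re + v / Real.sqrt N| ≤ 17 / 100 := by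
      intro N hN v hv
      have hs : 0 < Real.sqrt N := Real.sqrt_pos.2 (by exact_mod_cast hN)
      have h1 : -(17 / 100) - y.re ≤ v / Real.sqrt N := by
        rw [le_div_iff₀ hs]
        linarith [hv.1]
      have h2 : v / Real.sqrt N ≤ 17 / 100 - y.re := by
        rw [div_le_iff₀ hs]
        linarith [hv.2]
      rw [abs_le]
      constructor <;> linarith
    apply MeasureTheory.tendsto_integral_filter_of_dominated_convergence
      (fun v : ℝ => C * Real.exp (-(1 / 400) * v ^ 2))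
    · filter_upwards [eventually_ge_atTop 1] with N hN
      rw [aestronglyMeasurable_indicator_iff measurableSet_Ioc]
      have hcont : ContinuousOn (rtF a y E e G N) (Set.Ioc (Real.sqrt N * (-(17 / 100) - y.re))
          (Real.sqrt N * (17 / 100 - y.re))) := ?_
      · exact hcont.aestronglyMeasurable measurableSet_Ioc
      intro v hv
      apply ContinuousAt.continuousWithinAt
      unfold rtF
      have hx := hmem N hN v ⟨hv.1.le, hv.2⟩
      have hc : ContinuousAt (fun v : ℝ => y + ((v / Real.sqrt N : ℝ) : ℂ)) v := by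
        apply Continuous.continuousAt
        fun_prop
      have hre : (y + ((v / Real.sqrt N : ℝ) : ℂ)).re = y.re + v / Real.sqrt N := by simp
      have him : (y + ((v / Real.sqrt N : ℝ) : ℂ)).im = y.im := by simp
      have ho : ContinuousAt (om2 N a) (y + ((v / Real.sqrt N : ℝ) : ℂ)) := by
        exact (om2_diff hN a (by rw [hre]; linarith) (by rw [him]; exact hy)).continuousAt
      have hg : ContinuousAt (G N) (y + ((v / Real.sqrt N : ℝ) : ℂ)) :=
        (HG.diff N).continuous.continuousAt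
      apply ContinuousAt.mul continuousAt_const
      exact (ContinuousAt.comp (f := fun v : ℝ => y + ((v / Real.sqrt N : ℝ) : ℂ)) ho hc).mul
        (ContinuousAt.comp (f := fun v : ℝ => y + ((v / Real.sqrt N : ℝ) : ℂ)) hg hc)
    · filter_upwards [eventually_ge_atTop 1, eventually_ge_atTop N0] with N hN hN0
      refine Filter.Eventually.of_forall fun v => ?_
      by_cases hv : v ∈ Set.Ioc (Real.sqrt N * (-(17 / 100) - y.re))
        (Real.sqrt N * (17 / 100 - y.re))
      · rw [Set.indicator_of_mem hv]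
        exact hb N hN0 v (hmem N hN v ⟨hv.1.le, hv.2⟩)
      · rw [Set.indicator_of_notMem hv, norm_zero]
        positivity
    · exact MeasureTheory.Integrable.const_mul
        (integrable_exp_neg_mul_sq (by norm_num : (0 : ℝ) < 1 / 400)) C
    · refine Filter.Eventually.of_forall fun v => ?_
      refine (rt_flim hy HG site v).congr' ?_
      filter_upwards [rt_ev v] with N hv
      rw [Set.indicator_of_mem]
      have h1 := abs_lt.1 hv
      have hs : 0 ≤ Real.sqrt N := Real.sqrt_nonneg _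
      constructor
      · nlinarith
      · nlinarith

theorem root_lim {a : ℤ} (ha : a ≠ 0) {y E D k q : ℂ} {d e : ℕ} {G : ℕ → ℂ → ℂ} (hd : 1 ≤ d)
    (hyr : |y.re| ≤ 11 / 100) (hy : y.im < 0) (hy' : -(55 / 1000) ≤ y.im)
    (HG : Nice a y d G E D e k q) (site : 2 * Real.pi * I * (a * y - 1) + D = 0) :
    Tendsto (fun N : ℕ => Real.log ‖PI (fun w => om2 N a w * G N w) 1‖ / N) atTop
      (𝓝 (E + vx a y).re) := by
  obtain ⟨L, hL0, hL⟩ := rt_dom hd hyr hy hy' HG site
  obtain ⟨C1, hC1, ho⟩ := om2_out ha hy hy'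
  obtain ⟨C2, K, N2, hC2, hg⟩ := HG.out
  obtain ⟨N3, hN3⟩ := exists_nat_gt (1 / -y.im)
  -- the difference to the near integral
  have hdiff : ∀ᶠ N : ℕ in atTop, ‖PI (fun w => om2 N a w * G N w) 1 -
      ∫ x in (-(17 / 100) : ℝ)..(17 / 100), (fun w => om2 N a w * G N w) (x + y.im * I)‖ ≤
      2 * (C1 * C2 * N ^ K * Real.exp (N * ((E + vx a y).re - 1 / 2000))) := by
    filter_upwards [eventually_ge_atTop 10, eventually_ge_atTop N2, eventually_ge_atTop N3]
      with N hN10 hN2 hN3'
    have hN1 : 1 ≤ N := by omega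
    have h0 : (0 : ℝ) < N := by exact_mod_cast hN1
    refine pi_rest (x0 := 1 / a) (show 0 < N by omega) hy' ?_ ?_ ?_ ?_
    · have h4 : (1 : ℝ) / -y.im < N := lt_of_lt_of_le hN3 (by exact_mod_cast hN3')
      rw [div_lt_iff₀ (by linarith)] at h4
      rw [div_le_iff₀ h0]
      linarith
    · intro w h1 h2
      exact (om2_diff hN1 a h1 h2).mul ((HG.diff N) w)
    · exact (om2_cont hN1 a one_pos).mul (HG.diff N).continuous.continuousOn
    · intro w ξ hw
      have h1 := ho N hN10 w ξ hw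
      have h2 := hg N hN2 w ξ hw
      rw [norm_mul]
      calc ‖om2 N a w‖ * ‖G N w‖ ≤ (C1 * Real.exp (N * -(2 * Real.pi * y.im * (a * ξ - 1)))) *
            (C2 * N ^ K * Real.exp (N * (E.re + D.re * (ξ - y.re) - d / 2000))) :=
            mul_le_mul h1 h2 (norm_nonneg _) (by positivity)
        _ = C1 * C2 * N ^ K * Real.exp (N * ((E + vx a y).re - d / 2000)) := by
            have e1 : Real.exp (N * ((E + vx a y).re - d / 2000)) =
                Real.exp (N * -(2 * Real.pi * y.im * (a * ξ - 1))) *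
                Real.exp (N * (E.re + D.re * (ξ - y.re) - d / 2000)) := by
              rw [← Real.exp_add]
              congr 1
              rw [← rt_tot (E := E) site ξ]
              ring
            rw [e1]
            ring
        _ ≤ _ := by
            apply mul_le_mul_of_nonneg_left _ (by positivity)
            apply Real.exp_le_exp.2
            apply mul_le_mul_of_nonneg_left _ h0.le
            have h5 : (1 : ℝ) ≤ d := by exact_mod_cast hd
            linarith
  -- the near integral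
  have hnear : ∀ᶠ N : ℕ in atTop, ((Real.sqrt N : ℝ) : ℂ) * ((N : ℂ) ^ e *
      Complex.exp (-(N * (E + vx a y)))) * (∫ x in (-(17 / 100) : ℝ)..(17 / 100),
        (fun w => om2 N a w * G N w) (x + y.im * I)) =
      ∫ v in (Real.sqrt N * (-(17 / 100) - y.re))..
        (Real.sqrt N * (17 / 100 - y.re)), rtF a y E e G N v := by
    filter_upwards [eventually_ge_atTop 1] with N hN1
    have hs : 0 < Real.sqrt N := Real.sqrt_pos.2 (by exact_mod_cast hN1)
    have h1 : ∀ v : ℝ, rtF a y E e G N v = (fun x : ℝ => ((N : ℂ) ^ e *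
        Complex.exp (-(N * (E + vx a y)))) *
        ((fun w => om2 N a w * G N w) (x + y.im * I))) (y.re + v / Real.sqrt N) := by
      intro v
      unfold rtF
      rw [rt_pt]
    simp only [h1]
    rw [intervalIntegral.integral_comp_add_div (fun x : ℝ => ((N : ℂ) ^ e *
        Complex.exp (-(N * (E + vx a y)))) *
        ((fun w => om2 N a w * G N w) (x + y.im * I))) hs.ne' y.re,
      intervalIntegral.integral_const_mul, Complex.real_smul]
    have e1 : y.re + Real.sqrt N * (-(17 / 100) - y.re) / Real.sqrt N = -(17 / 100) := by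
      rw [mul_div_cancel_left₀ _ hs.ne']; ring
    have e2 : y.re + Real.sqrt N * (17 / 100 - y.re) / Real.sqrt N = 17 / 100 := by
      rw [mul_div_cancel_left₀ _ hs.ne']; ring
    rw [e1, e2]
    ring
  -- the normalised integral
  have hz : Tendsto (fun N : ℕ => 2 * (C1 * C2) * ((N : ℝ) ^ (e + K + 1) *
      Real.exp (-(1 / 2000) * N))) atTop (𝓝 0) := by
    have h1 : Tendsto (fun x : ℝ => x ^ (e + K + 1) * Real.exp (-(1 / 2000) * x)) atTop (𝓝 0) := by
      have h2 := Real.tendsto_pow_mul_exp_neg_atTop_nhds_zero (e + K + 1)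
      have h3 : Tendsto (fun x : ℝ => (1 / 2000 : ℝ) * x) atTop atTop :=
        tendsto_id.const_mul_atTop (by norm_num)
      have h4 := (h2.comp h3).const_mul ((2000 : ℝ) ^ (e + K + 1))
      rw [mul_zero] at h4
      refine h4.congr fun x => ?_
      show (2000 : ℝ) ^ (e + K + 1) * (((1 / 2000 : ℝ) * x) ^ (e + K + 1) *
        Real.exp (-((1 / 2000 : ℝ) * x))) = _
      rw [mul_pow, ← mul_assoc, ← mul_assoc, ← mul_pow]
      norm_num
    have h5 := (h1.comp tendsto_natCast_atTop_atTop).const_mul (2 * (C1 * C2))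
    rw [mul_zero] at h5
    exact h5
  have hPI : Tendsto (fun N : ℕ => ((Real.sqrt N : ℝ) : ℂ) * ((N : ℂ) ^ e *
      Complex.exp (-(N * (E + vx a y)))) * PI (fun w => om2 N a w * G N w) 1) atTop (𝓝 L) := by
    have h1 : Tendsto (fun N : ℕ => ((Real.sqrt N : ℝ) : ℂ) * ((N : ℂ) ^ e *
      Complex.exp (-(N * (E + vx a y)))) * PI (fun w => om2 N a w * G N w) 1 -
      ((Real.sqrt N : ℝ) : ℂ) * ((N : ℂ) ^ e *
      Complex.exp (-(N * (E + vx a y)))) * (∫ x in (-(17 / 100) : ℝ)..(17 / 100),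
        (fun w => om2 N a w * G N w) (x + y.im * I))) atTop (𝓝 0) := by
      refine squeeze_zero_norm' ?_ hz
      filter_upwards [hdiff, eventually_ge_atTop 1] with N hN hN1
      have h0 : (1 : ℝ) ≤ N := by exact_mod_cast hN1
      rw [← mul_sub, norm_mul, norm_mul, norm_mul, norm_pow, Complex.norm_natCast,
        Complex.norm_exp, Complex.norm_real, Real.norm_of_nonneg (Real.sqrt_nonneg _)]
      have e1 : (-((N : ℂ) * (E + vx a y))).re = -(N * (E + vx a y).re) := by
        rw [Complex.neg_re]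
        congr 1
        have : ((N : ℂ)) = ((N : ℝ) : ℂ) := by norm_cast
        rw [this, Complex.re_ofReal_mul]
      rw [e1]
      have hsq : Real.sqrt N ≤ N := by
        rw [Real.sqrt_le_left (by linarith)]
        nlinarith
      calc Real.sqrt N * ((N : ℝ) ^ e * Real.exp (-(N * (E + vx a y).re))) *
          ‖PI (fun w => om2 N a w * G N w) 1 - ∫ x in (-(17 / 100) : ℝ)..(17 / 100),
            (fun w => om2 N a w * G N w) (x + y.im * I)‖
          ≤ (N : ℝ) * ((N : ℝ) ^ e * Real.exp (-(N * (E + vx a y).re))) *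
            (2 * (C1 * C2 * N ^ K * Real.exp (N * ((E + vx a y).re - 1 / 2000)))) := by
            apply mul_le_mul _ hN (norm_nonneg _) (by positivity)
            apply mul_le_mul_of_nonneg_right hsq (by positivity)
        _ = 2 * (C1 * C2) * ((N : ℝ) ^ (e + K + 1) * Real.exp (-(1 / 2000) * N)) := by
            have e2 : Real.exp (-(1 / 2000) * N) = Real.exp (-(N * (E + vx a y).re)) *
                Real.exp (N * ((E + vx a y).re - 1 / 2000)) := by
              rw [← Real.exp_add]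
              congr 1
              ring
            rw [e2]
            ring
    have h2 : Tendsto (fun N : ℕ => ((Real.sqrt N : ℝ) : ℂ) * ((N : ℂ) ^ e *
      Complex.exp (-(N * (E + vx a y)))) * (∫ x in (-(17 / 100) : ℝ)..(17 / 100),
        (fun w => om2 N a w * G N w) (x + y.im * I))) atTop (𝓝 L) := by
      refine hL.congr' ?_
      filter_upwards [hnear] with N hN
      exact hN.symm
    have h3 := h1.add h2
    rw [zero_add] at h3
    refine h3.congr fun N => ?_
    ring
  -- the logarithm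
  have hlog : Tendsto (fun N : ℕ => Real.log ‖((Real.sqrt N : ℝ) : ℂ) * ((N : ℂ) ^ e *
      Complex.exp (-(N * (E + vx a y)))) * PI (fun w => om2 N a w * G N w) 1‖ / N) atTop
      (𝓝 0) := by
    have h1 := (Real.continuousAt_log (norm_ne_zero_iff.2 hL0)).tendsto.comp hPI.norm
    exact h1.div_atTop tendsto_natCast_atTop_atTop
  have hln : Tendsto (fun N : ℕ => Real.log N / N) atTop (𝓝 0) := by
    have h1 := Real.isLittleO_log_id_atTop.tendsto_div_nhds_zero
    exact h1.comp tendsto_natCast_atTop_atTop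
  have hfin := (hlog.sub (hln.const_mul ((1 : ℝ) / 2 + e))).add_const ((E + vx a y).re)
  rw [mul_zero, sub_zero, zero_add] at hfin
  refine hfin.congr' ?_
  have hne : ∀ᶠ N : ℕ in atTop, ((Real.sqrt N : ℝ) : ℂ) * ((N : ℂ) ^ e *
      Complex.exp (-(N * (E + vx a y)))) * PI (fun w => om2 N a w * G N w) 1 ≠ 0 :=
    hPI.eventually_ne hL0
  filter_upwards [hne, eventually_ge_atTop 1] with N hN hN1
  have h0 : (0 : ℝ) < N := by exact_mod_cast hN1
  have hs : 0 < Real.sqrt N := Real.sqrt_pos.2 h0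
  have hP : PI (fun w => om2 N a w * G N w) 1 ≠ 0 := right_ne_zero_of_mul hN
  rw [norm_mul, norm_mul, norm_mul, norm_pow, Complex.norm_natCast,
    Complex.norm_exp, Complex.norm_real, Real.norm_of_nonneg (Real.sqrt_nonneg _)]
  have e1 : (-((N : ℂ) * (E + vx a y))).re = -(N * (E + vx a y).re) := by
    rw [Complex.neg_re]
    congr 1
    have : ((N : ℂ)) = ((N : ℝ) : ℂ) := by norm_cast
    rw [this, Complex.re_ofReal_mul]
  rw [e1, Real.log_mul (by positivity) (norm_ne_zero_iff.2 hP), Real.log_mul hs.ne' (by positivity),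
    Real.log_mul (by positivity) (Real.exp_pos _).ne', Real.log_exp, Real.log_pow,
    Real.log_sqrt h0.le]
  field_simp
  ring

end Pool.Agent.XV
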