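import Pool.Agent.XV.Edge
import Pool.Agent.XV.Prod
import Pool.Agent.XV.Root

/-!
# XV TREE: induction over the tree
-/

set_option autoImplicit false

namespace Pool.Agent.XV

open Complex Finset Filter Topology
open Pool.Agent.Helper9.TB Pool.Agent.Helper9.TF Pool.Agent.Helper9.TG Pool.Agent.Helper9.TW

lemma AllGe.wt {R : ℕ} : ∀ {t : PTree}, AllGe R t → R ≤ t.wt.natAbs
  | .leaf _, h => h
  | .graft p _, h => AllGe.wt (t := p) h.1

lemma AllGe.mono {R R' : ℕ} (hR : R' ≤ R) : ∀ {t : PTree}, AllGe R t → AllGe R' t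
  | .leaf _, h => le_trans hR h
  | .graft _ _, h => ⟨AllGe.mono hR h.1, AllGe.mono hR h.2⟩

theorem tree_nice {s : ℤ} {t : PTree} {y D E : ℂ} (h : CT s t y D E) (hs : s = 1 ∨ s = -1)
    (ht : AllGe 1 t) :
    ∃ (e : ℕ) (k q : ℂ), Nice (s * t.wt) y t.deg (fun N => FT N s t) E D e k q := by
  induction h with
  | leaf s a y => exact ⟨0, 1, 0, nice_one _ _⟩
  | @graft s p c y D E z D' E' t hp hc h1 h2 site kern ihp ihc =>
    obtain ⟨e1, k1, q1, N1⟩ := ihp hs ht.1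
    obtain ⟨e2, k2, q2, N2⟩ := ihc (by rcases hs with rfl | rfl <;> simp) ht.2
    have hw : (-s * c.wt : ℤ) ≠ 0 := by
      have h0 : 1 ≤ c.wt.natAbs := AllGe.wt ht.2
      rcases hs with rfl | rfl <;> simp <;> omega
    have h1' : Half (1 / (s * p.wt : ℤ)) y t := h1
    have h2' : Half (1 / (-s * c.wt : ℤ)) z t := h2
    obtain ⟨k', q', N3⟩ := edge_nice (a := s * p.wt) hw h1' h2' kern N2 site
    refine ⟨e1 + (e2 + 2), k1 * k', q1 + q', ?_⟩
    have h4 := N1.mul N3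
    have e1 : E + (E' + vx (-s * c.wt) z + gam y t + gam z t) =
        E + E' + vx (-s * c.wt) z + gam y t + gam z t := by ring
    rw [e1] at h4
    exact h4

theorem tree_log {t : PTree} {y D E : ℂ} (h : CT 1 t y D E) (ht : AllGe 1 t) (hd : 1 ≤ t.deg)
    (hyr : |y.re| ≤ 11 / 100) (hy : y.im < 0) (hy' : -(55 / 1000) ≤ y.im)
    (hroot : 2 * Real.pi * I * (t.wt * y - 1) + D = 0) :
    Tendsto (fun N : ℕ => Real.log ‖RT N t‖ / N) atTop (𝓝 (E + vx t.wt y).re) := by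
  obtain ⟨e, k, q, H⟩ := tree_nice h (Or.inl rfl) ht
  have hw : t.wt ≠ 0 := by
    have h0 : 1 ≤ t.wt.natAbs := AllGe.wt ht
    omega
  rw [one_mul] at H
  exact root_lim hw hd hyr hy hy' H hroot

end Pool.Agent.XV
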