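import Pool.Agent.XV.Exs
import Pool.Agent.XV.Kap
import Pool.Agent.XV.Hok
import Pool.Agent.XV.Tree

/-!
# XV EXT: existence of the critical point
-/

set_option autoImplicit false

namespace Pool.Agent.XV

open Complex Finset
open Pool.Agent.Helper9.TB Pool.Agent.Helper9.TF Pool.Agent.Helper9.TG

lemma one_div_wt {a : ℤ} (ha : 10 ≤ a.natAbs) : |(1 / (a : ℝ))| ≤ 1 / 10 := by
  rw [abs_div, abs_one]
  have h1 : ((10 : ℕ) : ℝ) ≤ (a.natAbs : ℝ) := by exact_mod_cast ha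
  rw [Nat.cast_natAbs] at h1
  push_cast at h1
  apply one_div_le_one_div_of_le (by norm_num) h1

lemma natAbs_s {s a : ℤ} (hs : s = 1 ∨ s = -1) : (s * a).natAbs = a.natAbs := by
  rcases hs with rfl | rfl <;> simp

theorem ex_tree : ∀ (t : PTree), AllGe 10 t → ∀ s : ℤ, (s = 1 ∨ s = -1) → ∃ κ : ℂ → ℂ,
    (∀ y, ‖y‖ ≤ 1004 / 10000 → ‖κ y - t.deg‖ ≤ 2 / 25 * t.deg) ∧
    (∀ y y', ‖y‖ ≤ 1004 / 10000 → ‖y'‖ ≤ 1004 / 10000 →
      ‖κ y - κ y'‖ ≤ 6 * t.deg * ‖y - y'‖) ∧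
    ∀ y, Reg y → ∃ E, CT s t y (-(2 * Real.pi * y * κ y)) E := by
  intro t
  induction t with
  | leaf a =>
    intro _ s _
    refine ⟨fun _ => 0, fun y _ => ?_, fun y y' _ _ => ?_, fun y _ => ⟨0, ?_⟩⟩
    · simp [PTree.deg]
    · simp [PTree.deg]
    · simpa using CT.leaf s a y
  | graft p c ihp ihc =>
    intro ht s hs
    obtain ⟨κp, p1, p2, p3⟩ := ihp ht.1 s hs
    have hs' : (-s = 1 ∨ -s = -1) := by rcases hs with rfl | rfl <;> simp
    obtain ⟨κc, c1, c2, c3⟩ := ihc ht.2 (-s) hs'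
    set a : ℤ := -s * c.wt with ha
    have haN : 10 ≤ a.natAbs := by
      rw [ha, natAbs_s hs']
      exact AllGe.wt ht.2
    have hn : 1 ≤ c.deg + 1 := by omega
    have hcast : ((c.deg + 1 : ℕ) : ℂ) = (c.deg : ℂ) + 1 := by push_cast; ring
    have hcastR : ((c.deg + 1 : ℕ) : ℝ) = (c.deg : ℝ) + 1 := by push_cast; ring
    have g1 : ∀ y, ‖y‖ ≤ 1004 / 10000 → ∀ z, ‖z‖ ≤ 1004 / 10000 →
        ‖(κc z + kapf z y) - ((c.deg + 1 : ℕ) : ℂ)‖ ≤ 2 / 25 * ((c.deg + 1 : ℕ) : ℝ) := by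
      intro y hy z hz
      rw [hcast, hcastR]
      calc ‖κc z + kapf z y - ((c.deg : ℂ) + 1)‖ = ‖(κc z - c.deg) + (kapf z y - 1)‖ := by
            congr 1; ring
        _ ≤ ‖κc z - c.deg‖ + ‖kapf z y - 1‖ := norm_add_le _ _
        _ ≤ 2 / 25 * c.deg + 2 / 25 := add_le_add (c1 z hz) (kap_small hz hy)
        _ = 2 / 25 * ((c.deg : ℝ) + 1) := by ring
    have g2 : ∀ y, ‖y‖ ≤ 1004 / 10000 → ∀ z z', ‖z‖ ≤ 1004 / 10000 → ‖z'‖ ≤ 1004 / 10000 →
        ‖(κc z + kapf z y) - (κc z' + kapf z' y)‖ ≤ 6 * ((c.deg + 1 : ℕ) : ℝ) * ‖z - z'‖ := by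
      intro y hy z z' hz hz'
      rw [hcastR]
      calc ‖(κc z + kapf z y) - (κc z' + kapf z' y)‖
          = ‖(κc z - κc z') + (kapf z y - kapf z' y)‖ := by congr 1; ring
        _ ≤ ‖κc z - κc z'‖ + ‖kapf z y - kapf z' y‖ := norm_add_le _ _
        _ ≤ 6 * c.deg * ‖z - z'‖ + 51 / 10 * ‖z - z'‖ :=
            add_le_add (c2 z z' hz hz') (kap_lip1 hz hz' hy)
        _ ≤ 6 * ((c.deg : ℝ) + 1) * ‖z - z'‖ := by
            nlinarith [norm_nonneg (z - z')]
    have hex : ∀ y, ∃ z : ℂ, ‖y‖ ≤ 1004 / 10000 →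
        (Reg z ∧ z * (a + I * (κc z + kapf z y)) = 1) := by
      intro y
      by_cases hy : ‖y‖ ≤ 1004 / 10000
      · obtain ⟨z, hz⟩ := ex_fix haN hn (κ := fun z => κc z + kapf z y) (g1 y hy) (g2 y hy)
        exact ⟨z, fun _ => hz⟩
      · exact ⟨0, fun h => absurd h hy⟩
    choose Z hZ using hex
    refine ⟨fun y => κp y + kapf y (Z y), fun y hy => ?_, fun y y' hy hy' => ?_, fun y hy => ?_⟩
    · have h1 := (hZ y hy).1.r1
      simp only [PTree.deg]
      push_cast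
      calc ‖κp y + kapf y (Z y) - ((p.deg : ℂ) + 1)‖
          = ‖(κp y - p.deg) + (kapf y (Z y) - 1)‖ := by congr 1; ring
        _ ≤ ‖κp y - p.deg‖ + ‖kapf y (Z y) - 1‖ := norm_add_le _ _
        _ ≤ 2 / 25 * p.deg + 2 / 25 := add_le_add (p1 y hy) (kap_small hy h1)
        _ = 2 / 25 * ((p.deg : ℝ) + 1) := by ring
    · have h1 := (hZ y hy).1.r1
      have h1' := (hZ y' hy').1.r1
      have h3 := ex_stab haN hn (κ := fun z => κc z + kapf z y)
        (κ' := fun z => κc z + kapf z y') (g1 y hy) (g2 y hy) (g1 y' hy') (hZ y hy).2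
        (hZ y' hy').2 h1 h1'
      have h4 : ‖(κc (Z y') + kapf (Z y') y) - (κc (Z y') + kapf (Z y') y')‖ ≤
          51 / 10 * ‖y - y'‖ := by
        have := kap_lip2 h1' hy hy'
        have e : (κc (Z y') + kapf (Z y') y) - (κc (Z y') + kapf (Z y') y') =
          kapf (Z y') y - kapf (Z y') y' := by ring
        rw [e]
        exact this
      have h5 : ‖Z y - Z y'‖ ≤ 1 / 60 * (51 / 10 * ‖y - y'‖) := by
        refine h3.trans ?_
        exact mul_le_mul_of_nonneg_left h4 (by norm_num)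
      have h6 := kap_lip1 hy hy' h1
      have h7 := kap_lip2 hy' h1 h1'
      simp only [PTree.deg]
      push_cast
      calc ‖κp y + kapf y (Z y) - (κp y' + kapf y' (Z y'))‖
          = ‖(κp y - κp y') + (kapf y (Z y) - kapf y' (Z y)) +
            (kapf y' (Z y) - kapf y' (Z y'))‖ := by congr 1; ring
        _ ≤ ‖κp y - κp y'‖ + ‖kapf y (Z y) - kapf y' (Z y)‖ +
            ‖kapf y' (Z y) - kapf y' (Z y')‖ := norm_add₃_le
        _ ≤ 6 * p.deg * ‖y - y'‖ + 51 / 10 * ‖y - y'‖ +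
            51 / 10 * (1 / 60 * (51 / 10 * ‖y - y'‖)) := by
            refine add_le_add (add_le_add (p2 y y' hy hy') h6) (h7.trans ?_)
            exact mul_le_mul_of_nonneg_left h5 (by norm_num)
        _ ≤ 6 * ((p.deg : ℝ) + 1) * ‖y - y'‖ := by
            nlinarith [norm_nonneg (y - y')]
    · obtain ⟨hz, he⟩ := hZ y hy.r1
      obtain ⟨E, hE⟩ := p3 y hy
      obtain ⟨E', hE'⟩ := c3 (Z y) hz
      have hy11 : ‖y‖ ≤ 11 / 100 := by linarith [hy.r1]
      have hz11 : ‖Z y‖ ≤ 11 / 100 := by linarith [hz.r1]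
      obtain ⟨t, ht1, kern⟩ := tau_ex hy11 hz11
      have kern' : gamt (Z y) t + gamt y t = 0 := by rw [add_comm]; exact kern
      have gy := tau_gy hy11 hz11 ht1 kern
      have gz := tau_gy hz11 hy11 ht1 kern'
      have hp10 : 10 ≤ (s * p.wt).natAbs := by rw [natAbs_s hs]; exact AllGe.wt ht.1
      have H1 := half_ok hy hz ht1 kern (one_div_wt hp10)
      have H2 := half_ok hz hy ht1 kern' (one_div_wt haN)
      have site : 2 * Real.pi * I * ((-s * c.wt : ℤ) * Z y - 1) +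
          -(2 * Real.pi * Z y * κc (Z y)) + gamy (Z y) t = 0 := by
        rw [gz, ← ha]
        have he' : Z y * a + I * (Z y * (κc (Z y) + kapf (Z y) y)) = 1 := by
          rw [← he]; ring
        have : 2 * Real.pi * I * (a * Z y - 1) + -(2 * Real.pi * Z y * κc (Z y)) +
            -(2 * Real.pi * Z y * kapf (Z y) y) = 2 * Real.pi * I *
            (Z y * a + I * (Z y * (κc (Z y) + kapf (Z y) y)) - 1) +
            (-(I * I) - 1) * (2 * Real.pi * Z y * (κc (Z y) + kapf (Z y) y)) := by ring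
        rw [this, he', I_mul_I]
        ring
      refine ⟨E + E' + vx (-s * c.wt) (Z y) + gam y t + gam (Z y) t, ?_⟩
      have hCT := CT.graft hE hE' H1 H2 site kern
      rw [gy] at hCT
      have e1 : -(2 * Real.pi * y * κp y) + -(2 * Real.pi * y * kapf y (Z y)) =
          -(2 * Real.pi * y * (κp y + kapf y (Z y))) := by ring
      rw [e1] at hCT
      exact hCT

theorem ct_exists {t : PTree} (ht : AllGe 10 t) (hd : 1 ≤ t.deg) :
    ∃ y D E : ℂ, CT 1 t y D E ∧ Reg y ∧ 2 * Real.pi * I * (t.wt * y - 1) + D = 0 := by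
  obtain ⟨κ, k1, k2, k3⟩ := ex_tree t ht 1 (Or.inl rfl)
  obtain ⟨y, hy, he⟩ := ex_fix (AllGe.wt ht) hd k1 k2
  obtain ⟨E, hE⟩ := k3 y hy
  refine ⟨y, _, E, hE, hy, ?_⟩
  have he' : y * t.wt + I * (y * κ y) = 1 := by rw [← he]; ring
  have : 2 * Real.pi * I * (t.wt * y - 1) + -(2 * Real.pi * y * κ y) = 2 * Real.pi * I *
      (y * t.wt + I * (y * κ y) - 1) + (-(I * I) - 1) * (2 * Real.pi * y * κ y) := by ring
  rw [this, he', I_mul_I]
  ring

end Pool.Agent.XV
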