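import Pool.Agent.XV.Std
import Pool.Agent.XV.Pth
import Pool.Agent.Helper48.TG.RB

/-!
# XV FLAT: comparison with the functions of Helper9.TG

Signs: write `A ~ B` if `A = B` or `A = -B` (as functions, the sign depends on `N` and the tree).

1. For `a > 0` (`a : ℕ`) and `h > 0`, `f` entire:
   `nx N a h f y = ∑ m, site N a h f m * gm N m y = PI (om N a * KN N y * f) h` (`PI_add` as in
   `st_eq`), the height can be changed from `h` to `1` (`pi_height`), and `om2 N a = (-1) ^ N om N a`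
   (`om`, `omz` differ only in the type of `a`): `nx N a h f ~ ST N a f`.
2. `cj (ST N a G) = - ST N (-a) (cj G)` for even entire `G`: `pi_conj` for the odd function
   `om2 N a * KN N y * G` (`dLy` is odd, `DN`, `gm`, `G` are even), `cj (om2 N a) = om2 N (-a)`,
   `cj (gm N m) = gm N m` (`rb_gm_conj`), `conj` of the sum.
3. `tc N a d f ~ ST N (-a) (cj f)` for `a ≠ 0`, `d ≥ 1`, `f` even entire: if `0 < a` it is
   `cj (nx N a (d / a ^ 2) f) ~ cj (ST N a f) ~ ST N (-a) (cj f)`, if `a < 0` it is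
   `nx N |a| (d / a ^ 2) (cj f) ~ ST N (-a) (cj f)`.
4. By induction on the tree, with all weights `≠ 0`: `FT N 1 t ~ ft N t` and
   `FT N (-1) t ~ cj (ft N t)`:
   `FT N 1 (graft p c) = FT N 1 p * ST N (-c.wt) (FT N (-1) c) ~ ft N p * ST N (-c.wt) (cj (ft N c))
     ~ ft N p * tc N c.wt (c.deg + 1) (ft N c)`, and
   `FT N (-1) (graft p c) = FT N (-1) p * ST N c.wt (FT N 1 c) ~ cj (ft N p) * ST N c.wt (ft N c)`
   where `cj (tc N c.wt _ (ft N c)) ~ cj (ST N (-c.wt) (cj (ft N c))) ~ ST N c.wt (ft N c)`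
   (`rb_cj_cj`, `rb_cj_mul`, `rb_ft_diff`, `rb_ft_even` of Helper48.TG.RB).
5. `rt N t = site N |wt| h (ft N t or cj (ft N t)) 0`, `gm N 0 = 1`, `h = deg / wt ^ 2 > 0`:
   for `0 < wt` this is `~ PI (om2 N wt * ft N t) 1 ~ RT N t`; for `wt < 0` it is
   `~ PI (om2 N (-wt) * cj (ft N t)) 1 ~ conj (PI (om2 N wt * ft N t) 1)` by `pi_conj`.
-/

set_option autoImplicit false

namespace Pool.Agent.XV

open Complex Finset
open Pool.Agent.Helper9.TB Pool.Agent.Helper9.TF Pool.Agent.Helper9.TG Pool.Agent.Helper9.TW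

open Pool.Agent.Helper48.TG

private lemma flat_om (N a : ℕ) (z : ℂ) : om N a z = (-1) ^ N * om2 N a z := by
  have h1 : ((-1 : ℂ) ^ N) * (-1) ^ N = 1 := by
    rw [← mul_pow, neg_one_mul, neg_neg, one_pow]
  have h2 : om2 N a z = (-1) ^ N * om N a z := by
    unfold om om2 omz
    rw [Int.cast_natCast]
  rw [h2, ← mul_assoc, h1, one_mul]

private lemma flat_DN_neg (N : ℕ) (z : ℂ) : DN N (-z) = DN N z := by
  unfold DN
  rw [rb_Ly_even]

private lemma flat_om2_odd (N : ℕ) (a : ℤ) (z : ℂ) : om2 N a (-z) = -om2 N a z := by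
  unfold om2 omz
  rw [rb_dLy_odd, flat_DN_neg, neg_sq]
  ring

private lemma flat_Ly_conj (z : ℂ) : (starRingEnd ℂ) (Ly ((starRingEnd ℂ) z)) = Ly z := by
  unfold Ly
  rw [map_mul, map_neg, map_ofNat, ← Complex.cos_conj, map_mul, map_mul, map_ofNat,
    Complex.conj_ofReal, Complex.conj_conj]

private lemma flat_dLy_conj (z : ℂ) : (starRingEnd ℂ) (dLy ((starRingEnd ℂ) z)) = dLy z := by
  unfold dLy
  rw [map_mul, map_mul, map_ofNat, Complex.conj_ofReal, ← Complex.sin_conj, map_mul, map_mul,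
    map_ofNat, Complex.conj_ofReal, Complex.conj_conj]

private lemma flat_DN_conj (N : ℕ) (z : ℂ) : (starRingEnd ℂ) (DN N ((starRingEnd ℂ) z)) = DN N z := by
  unfold DN
  rw [map_prod]
  refine prod_congr rfl fun k _ => ?_
  rw [map_sub, flat_Ly_conj]
  congr 1
  unfold lam
  exact Complex.conj_ofReal _

private lemma flat_om2_conj (N : ℕ) (a : ℤ) (z : ℂ) :
    (starRingEnd ℂ) (om2 N a ((starRingEnd ℂ) z)) = om2 N (-a) z := by
  unfold om2 omz
  rw [map_mul, map_div₀, map_mul, flat_dLy_conj, flat_DN_conj, ← Complex.exp_conj, map_pow,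
    map_neg, map_one]
  congr 3
  congr 1
  simp only [map_mul, map_pow, Complex.conj_ofReal, Complex.conj_I, Complex.conj_conj, map_intCast,
    map_natCast, Int.cast_neg]
  ring

/-- the change of the height -/
private lemma flat_site {N a : ℕ} (hN : 1 ≤ N) {h : ℝ} (hh : 0 < h) {f : ℂ → ℂ}
    (hf : Differentiable ℂ f) (m : ℕ) :
    site N a h f m = (-1) ^ N * PI (fun z => om2 N a z * gm N m z * f z) 1 := by
  unfold site
  have h1 : (fun y => om N a y * gm N m y * f y) =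
      fun y => (-1) ^ N * (om2 N a y * gm N m y * f y) := by
    funext y
    rw [flat_om]
    ring
  rw [h1, PI_mul]
  congr 1
  have hc : ∀ h : ℝ, 0 < h → ContinuousOn (fun y => om2 N a y * gm N m y * f y) (PS h) :=
    fun h hh => ((om2_cont hN a hh).mul (gm_differentiable N m).continuous.continuousOn).mul
      hf.continuous.continuousOn
  exact pi_height hh one_pos
    (fun y h1 h2 => ((om2_diff hN a h1 h2).mul (gm_differentiable N m y)).mul (hf y))
    (hc h hh) (hc 1 one_pos)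

/-- step 1 -/
lemma nx_st {N a : ℕ} (hN : 1 ≤ N) (ha : 0 < a) {h : ℝ} (hh : 0 < h) {f : ℂ → ℂ}
    (hf : Differentiable ℂ f) (y : ℂ) : nx N a h f y = (-1) ^ N * ST N a f y := by
  unfold nx
  rw [st_eq N a hf, mul_sum]
  refine sum_congr rfl fun m _ => ?_
  rw [flat_site hN hh hf]
  ring

private lemma flat_KN_neg (N : ℕ) (y z : ℂ) : KN N y (-z) = KN N y z := by
  unfold KN
  exact sum_congr rfl fun m _ => by rw [Ctx.gm_even]

private lemma flat_KN_conj (N : ℕ) (y z : ℂ) :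
    (starRingEnd ℂ) (KN N ((starRingEnd ℂ) y) ((starRingEnd ℂ) z)) = KN N y z := by
  unfold KN
  rw [map_sum]
  exact sum_congr rfl fun m _ => by rw [map_mul, rb_gm_conj, rb_gm_conj]

/-- step 2 -/
lemma st_cj {N : ℕ} (hN : 1 ≤ N) (a : ℤ) {G : ℂ → ℂ} (hG : Differentiable ℂ G)
    (hev : ∀ y, G (-y) = G y) (y : ℂ) : cj (ST N a G) y = -ST N (-a) (cj G) y := by
  unfold ST
  show (starRingEnd ℂ) (PI (fun z => om2 N a z * KN N ((starRingEnd ℂ) y) z * G z) 1) = _
  rw [pi_conj (fun z => by rw [flat_om2_odd, flat_KN_neg, hev]; ring)]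
  congr 2
  funext z
  show (starRingEnd ℂ) (om2 N a ((starRingEnd ℂ) z) *
    KN N ((starRingEnd ℂ) y) ((starRingEnd ℂ) z) * G ((starRingEnd ℂ) z)) = _
  rw [map_mul, map_mul, flat_om2_conj, flat_KN_conj]
  rfl

/-- equality up to the sign -/
private def Sg (A B : ℂ → ℂ) : Prop := ∃ ε : ℂ, (ε = 1 ∨ ε = -1) ∧ ∀ y, A y = ε * B y

private lemma Sg.refl (A : ℂ → ℂ) : Sg A A := ⟨1, Or.inl rfl, fun y => (one_mul _).symm⟩

private lemma Sg.symm {A B : ℂ → ℂ} (h : Sg A B) : Sg B A := by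
  obtain ⟨ε, hε, h1⟩ := h
  refine ⟨ε, hε, fun y => ?_⟩
  rw [h1, ← mul_assoc]
  rcases hε with rfl | rfl
  · rw [one_mul, one_mul]
  · rw [neg_one_mul, neg_neg, one_mul]

private lemma Sg.trans {A B D : ℂ → ℂ} (h : Sg A B) (h' : Sg B D) : Sg A D := by
  obtain ⟨ε, hε, h1⟩ := h
  obtain ⟨ε', hε', h1'⟩ := h'
  refine ⟨ε * ε', ?_, fun y => by rw [h1, h1', mul_assoc]⟩
  rcases hε with rfl | rfl <;> rcases hε' with rfl | rfl <;> simp

private lemma Sg.mul {A B A' B' : ℂ → ℂ} (h : Sg A B) (h' : Sg A' B') :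
    Sg (fun y => A y * A' y) (fun y => B y * B' y) := by
  obtain ⟨ε, hε, h1⟩ := h
  obtain ⟨ε', hε', h1'⟩ := h'
  refine ⟨ε * ε', ?_, fun y => by
    show A y * A' y = ε * ε' * (B y * B' y)
    rw [h1, h1']
    ring⟩
  rcases hε with rfl | rfl <;> rcases hε' with rfl | rfl <;> simp

private lemma Sg.cj {A B : ℂ → ℂ} (h : Sg A B) : Sg (cj A) (cj B) := by
  obtain ⟨ε, hε, h1⟩ := h
  refine ⟨ε, hε, fun y => ?_⟩
  show (starRingEnd ℂ) (A ((starRingEnd ℂ) y)) = ε * (starRingEnd ℂ) (B ((starRingEnd ℂ) y))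
  rw [h1, map_mul]
  congr 1
  rcases hε with rfl | rfl <;> simp

private lemma Sg.st {A B : ℂ → ℂ} (h : Sg A B) (N : ℕ) (a : ℤ) : Sg (ST N a A) (ST N a B) := by
  obtain ⟨ε, hε, h1⟩ := h
  refine ⟨ε, hε, fun y => ?_⟩
  unfold ST
  rw [← PI_mul]
  congr 1
  funext z
  rw [h1]
  ring

private lemma flat_nx {N : ℕ} (hN : 1 ≤ N) {a : ℕ} (ha : 0 < a) {h : ℝ} (hh : 0 < h) {f : ℂ → ℂ}
    (hf : Differentiable ℂ f) : Sg (nx N a h f) (ST N a f) := by
  refine ⟨(-1) ^ N, ?_, nx_st hN ha hh hf⟩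
  exact neg_one_pow_eq_or ℂ N

private lemma flat_stcj {N : ℕ} (hN : 1 ≤ N) (a : ℤ) {G : ℂ → ℂ} (hG : Differentiable ℂ G)
    (hev : ∀ y, G (-y) = G y) : Sg (cj (ST N a G)) (ST N (-a) (cj G)) :=
  ⟨-1, Or.inr rfl, fun y => by rw [st_cj hN a hG hev, neg_one_mul]⟩

/-- step 3 -/
private lemma flat_tc {N : ℕ} (hN : 1 ≤ N) {a : ℤ} (ha : a ≠ 0) {d : ℕ} (hd : 1 ≤ d) {f : ℂ → ℂ}
    (hf : Differentiable ℂ f) (hev : ∀ y, f (-y) = f y) :
    Sg (tc N a d f) (ST N (-a) (cj f)) := by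
  have h1 : 0 < a.natAbs := Int.natAbs_pos.2 ha
  have h2 : (0 : ℝ) < (d : ℝ) / (a.natAbs : ℝ) ^ 2 := by
    have h3 : (0 : ℝ) < a.natAbs := by exact_mod_cast h1
    have h4 : (0 : ℝ) < d := by exact_mod_cast hd
    positivity
  unfold tc
  by_cases h0 : 0 < a
  · rw [if_pos h0]
    have h5 : ((a.natAbs : ℕ) : ℤ) = a := Int.natAbs_of_nonneg h0.le
    have h6 := (flat_nx hN h1 h2 hf).cj
    rw [h5] at h6
    exact h6.trans (flat_stcj hN a hf hev)
  · rw [if_neg h0]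
    have h5 : ((a.natAbs : ℕ) : ℤ) = -a := by omega
    have h6 := flat_nx hN h1 h2 (rb_cj_diff hf)
    rw [h5] at h6
    exact h6

private lemma flat_wt {t : PTree} (ht : AllGe 1 t) : t.wt ≠ 0 := by
  induction t with
  | leaf a =>
    intro h
    have h1 : 1 ≤ a.natAbs := ht
    have h2 : a = 0 := h
    rw [h2] at h1
    simp at h1
  | graft p c hp _ => exact hp ht.1

/-- step 4 -/
private lemma flat_FT {N : ℕ} (hN : 1 ≤ N) {t : PTree} (ht : AllGe 1 t) :
    Sg (FT N 1 t) (ft N t) ∧ Sg (FT N (-1) t) (cj (ft N t)) := by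
  induction t with
  | leaf a =>
    refine ⟨Sg.refl _, ?_⟩
    have h : cj (ft N (.leaf a)) = FT N (-1) (.leaf a) := by
      funext y
      simp [cj, ft, FT]
    rw [h]
    exact Sg.refl _
  | graft p c hp hc =>
    obtain ⟨hp1, hp2⟩ := hp ht.1
    obtain ⟨hc1, hc2⟩ := hc ht.2
    have hcw := flat_wt ht.2
    have hd := rb_ft_diff N c
    have hev := rb_ft_even N c
    have htc := flat_tc hN hcw (d := c.deg + 1) (Nat.le_add_left _ _) hd hev
    constructor
    · have h1 : Sg (ST N (-c.wt) (FT N (-1) c)) (tc N c.wt (c.deg + 1) (ft N c)) :=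
        (hc2.st N (-c.wt)).trans htc.symm
      have h2 := hp1.mul h1
      have h3 : FT N 1 (.graft p c) = fun y => FT N 1 p y * ST N (-c.wt) (FT N (-1) c) y := by
        funext y
        simp only [FT, neg_one_mul]
      rw [h3]
      exact h2
    · have h1 : Sg (ST N c.wt (FT N 1 c)) (cj (tc N c.wt (c.deg + 1) (ft N c))) := by
        have h2 := flat_stcj hN (-c.wt) (rb_cj_diff hd) (rb_cj_even hev)
        rw [neg_neg, rb_cj_cj] at h2
        exact (hc1.st N c.wt).trans (htc.cj.trans h2).symm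
      have h2 := hp2.mul h1
      have h3 : FT N (-1) (.graft p c) = fun y => FT N (-1) p y * ST N c.wt (FT N 1 c) y := by
        funext y
        simp only [FT, neg_neg, one_mul]
      have h4 : cj (ft N (.graft p c)) =
          fun y => cj (ft N p) y * cj (tc N c.wt (c.deg + 1) (ft N c)) y :=
        rb_cj_mul _ _
      rw [h3, h4]
      exact h2

theorem flat {N : ℕ} (hN : 2 ≤ N) {t : PTree} (ht : AllGe 1 t) (hd : 1 ≤ t.deg) :
    ‖rt N t‖ = ‖RT N t‖ := by
  have hN1 : 1 ≤ N := by omega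
  have hwt := flat_wt ht
  have h1 : 0 < t.wt.natAbs := Int.natAbs_pos.2 hwt
  have h2 : (0 : ℝ) < (t.deg : ℝ) / (t.wt.natAbs : ℝ) ^ 2 := by
    have h3 : (0 : ℝ) < t.wt.natAbs := by exact_mod_cast h1
    have h4 : (0 : ℝ) < t.deg := by exact_mod_cast hd
    positivity
  obtain ⟨ε, hε, hFT⟩ := (flat_FT hN1 ht).1
  have hε1 : ‖ε‖ = 1 := by
    rcases hε with rfl | rfl <;> simp
  have hRT : ‖RT N t‖ = ‖PI (fun z => om2 N t.wt z * ft N t z) 1‖ := by
    unfold RT
    have h5 : (fun z => om2 N t.wt z * FT N 1 t z) = fun z => ε * (om2 N t.wt z * ft N t z) := by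
      funext z
      rw [hFT]
      ring
    rw [h5, PI_mul, norm_mul, hε1, one_mul]
  have hs : ∀ f : ℂ → ℂ, Differentiable ℂ f →
      ‖site N t.wt.natAbs (t.deg / (t.wt.natAbs : ℝ) ^ 2) f 0‖ =
        ‖PI (fun z => om2 N (t.wt.natAbs : ℕ) z * f z) 1‖ := by
    intro f hf
    rw [flat_site hN1 h2 hf, norm_mul, norm_pow, norm_neg, norm_one, one_pow, one_mul]
    congr 2
    funext z
    rw [gm_zero, mul_one]
  rw [hRT]
  unfold rt
  by_cases h0 : 0 < t.wt
  · rw [if_pos h0, hs _ (rb_ft_diff N t)]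
    have h5 : ((t.wt.natAbs : ℕ) : ℤ) = t.wt := Int.natAbs_of_nonneg h0.le
    rw [h5]
  · rw [if_neg h0, hs _ (rb_cj_diff (rb_ft_diff N t))]
    have h5 : ((t.wt.natAbs : ℕ) : ℤ) = -t.wt := by omega
    rw [h5]
    have h6 := pi_conj (f := fun z => om2 N t.wt z * ft N t z)
      (fun z => by rw [flat_om2_odd, rb_ft_even]; ring) 1
    have h7 : cj (fun z => om2 N t.wt z * ft N t z) =
        fun z => om2 N (-t.wt) z * cj (ft N t) z := by
      funext z
      show (starRingEnd ℂ) (om2 N t.wt ((starRingEnd ℂ) z) * ft N t ((starRingEnd ℂ) z)) = _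
      rw [map_mul, flat_om2_conj]
      rfl
    rw [h7] at h6
    rw [← RCLike.norm_conj (PI (fun z => om2 N t.wt z * ft N t z) 1), h6, norm_neg]

end Pool.Agent.XV
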