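import Pool.Agent.XV.Defs
import Pool.Agent.Helper66.TF.EVre

/-!
# XV GEO: the critical value and the volume

`gam_reX`: as `gam_re` (Helper66.TF.EVre), whose proof uses only that `t + y`, `t - y`, `t - 1 / 2`
are in `HS` with real part `≠ 0` (`CC_re`).

`ct_geo`: induction.  In the step: by `Half.yre`, `tre1`, `tre2` the real parts of `t ± y` are in
`(0, 1 / 2)`, `ShpX` follows with `(-exp (-(2 π i u))).im = exp (2 π u.im) sin (2 π u.re) > 0`.
`E.re = V / 2π - y.im D.im`, `E'.re = W / 2π - z.im D'.im`, `gam_reX` twice,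
`(vx a z).re = -2 π z.im (a z.re - 1)`, the imaginary part of `site`:
`2 π (a z.re - 1) + D'.im + (gamy z t).im = 0`, of `kern`: `(gamt y t).im + (gamt z t).im = 0`.
So everything cancels except `(V + W + GG y t + GG z t) / 2π - y.im (D + gamy y t).im`.
-/

set_option autoImplicit false

namespace Pool.Agent.XV

open Complex Finset
open Pool.Agent.Helper9.TB Pool.Agent.Helper9.TF Pool.Agent.Helper9.TG
open Pool.Agent.Helper5.TB (BW BW_inv)

theorem gam_reX {y t : ℂ} (h1 : 0 < (t + y).re) (h2 : (t + y).re < 1 / 2) (h3 : 0 < (t - y).re)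
    (h4 : (t - y).re < 1 / 2) :
    (gam y t).re = GG y t / (2 * Real.pi) - t.im * (gamt y t).im - y.im * (gamy y t).im := by
  have hpi := Real.pi_pos
  have k1 := CC_re (u := t + y) (by
    show |(t + y).re| < 1 / 2
    rw [abs_of_pos h1]; exact h2) h1.ne'
  have k2 := CC_re (u := t - y) (by
    show |(t - y).re| < 1 / 2
    rw [abs_of_pos h3]; exact h4) h3.ne'
  have e5 : (t - 1 / 2).re = t.re - 1 / 2 := by simp
  rw [Complex.add_re] at h1 h2
  rw [Complex.sub_re] at h3 h4
  have k3 := CC_re (u := t - 1 / 2) (by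
    show |(t - 1 / 2).re| < 1 / 2
    rw [e5, abs_lt]
    constructor <;> linarith) (by
    rw [e5]; intro h; linarith)
  have e1 : -Complex.exp (-(2 * Real.pi * I * (t - 1 / 2))) =
      (Complex.exp (2 * Real.pi * I * t))⁻¹ := by
    rw [← Complex.exp_neg, show -(2 * Real.pi * I * (t - 1 / 2)) =
      -(2 * Real.pi * I * t) + Real.pi * I by ring, Complex.exp_add, Complex.exp_pi_mul_I]
    ring
  rw [e1, BW_inv] at k3
  have i3 : (t - 1 / 2).im = t.im := by simp
  unfold gam Pool.Agent.Helper9.TF.GG gamt gamy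
  simp only [Complex.sub_re, Complex.add_re, Complex.sub_im, Complex.add_im, Complex.mul_re,
    Complex.mul_im, Complex.re_ofNat, Complex.im_ofNat, zero_mul, sub_zero, add_zero]
  rw [k1, k2, k3, i3, Complex.add_im, Complex.sub_im]
  field_simp
  ring

private lemma geo_vx (a : ℤ) (z : ℂ) : (vx a z).re = -(2 * Real.pi * z.im * (a * z.re - 1)) := by
  unfold vx
  rw [pow_two]
  simp
  ring

private lemma geo_p {u : ℂ} (h1 : 0 < u.re) (h2 : u.re < 1 / 2) :
    0 < (-Complex.exp (-(2 * Real.pi * I * u))).im := by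
  have hpi := Real.pi_pos
  rw [Complex.neg_im, Complex.exp_im]
  have e1 : (-(2 * Real.pi * I * u)).re = 2 * Real.pi * u.im := by simp
  have e2 : (-(2 * Real.pi * I * u)).im = -(2 * Real.pi * u.re) := by simp
  rw [e1, e2, Real.sin_neg]
  have h3 : 0 < Real.sin (2 * Real.pi * u.re) :=
    Real.sin_pos_of_pos_of_lt_pi (by positivity) (by nlinarith)
  have h4 := Real.exp_pos (2 * Real.pi * u.im)
  have := mul_pos h4 h3
  linarith

private lemma geo_q {u : ℂ} (h1 : 0 < u.re) (h2 : u.re < 1 / 2) :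
    0 < (Complex.exp (2 * Real.pi * I * u)).im := by
  have hpi := Real.pi_pos
  rw [Complex.exp_im]
  have e1 : (2 * Real.pi * I * u).re = -(2 * Real.pi * u.im) := by simp
  have e2 : (2 * Real.pi * I * u).im = 2 * Real.pi * u.re := by simp
  rw [e1, e2]
  exact mul_pos (Real.exp_pos _) (Real.sin_pos_of_pos_of_lt_pi (by positivity) (by nlinarith))

private lemma geo_shp {x0 : ℝ} {y t : ℂ} (h : Half x0 y t) : ShpX y t := by
  have h1 := abs_le.1 h.yre
  have h2 := h.tre1
  have h3 := h.tre2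
  have a1 : 0 < (t + y).re := by rw [Complex.add_re]; linarith
  have a2 : (t + y).re < 1 / 2 := by rw [Complex.add_re]; linarith
  have b1 : 0 < (t - y).re := by rw [Complex.sub_re]; linarith
  have b2 : (t - y).re < 1 / 2 := by rw [Complex.sub_re]; linarith
  exact ⟨a1, a2, b1, b2, geo_p a1 a2, geo_p b1 b2, geo_q (by linarith) (by linarith)⟩

theorem ct_geo {s : ℤ} {t : PTree} {y D E : ℂ} (h : CT s t y D E) :
    ∃ V : ℝ, GeoX s t y D V ∧ E.re = V / (2 * Real.pi) - y.im * D.im := by
  have hpi := Real.pi_pos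
  induction h with
  | leaf s a y => exact ⟨0, GeoX.leaf s a y, by simp⟩
  | @graft s p c y D E z D' E' t hp hc h1 h2 site kern ih1 ih2 =>
    obtain ⟨V, g1, e1⟩ := ih1
    obtain ⟨W, g2, e2⟩ := ih2
    have s1 := geo_shp h1
    have s2 := geo_shp h2
    refine ⟨V + W + GG y t + GG z t, GeoX.graft g1 g2 s1 s2 site kern, ?_⟩
    have r1 := gam_reX s1.a1 s1.a2 s1.b1 s1.b2
    have r2 := gam_reX s2.a1 s2.a2 s2.b1 s2.b2
    have i1 := congrArg Complex.im site
    have i2 := congrArg Complex.im kern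
    rw [Complex.add_im, Complex.zero_im] at i2
    rw [Complex.add_im, Complex.add_im, Complex.zero_im] at i1
    have i3 : (2 * Real.pi * I * (((-s * c.wt : ℤ) : ℂ) * z - 1)).im =
        2 * Real.pi * (((-s * c.wt : ℤ) : ℝ) * z.re - 1) := by
      generalize (-s * c.wt : ℤ) = a
      simp
    rw [i3] at i1
    simp only [Complex.add_re, Complex.add_im]
    rw [geo_vx, e1, e2, r1, r2]
    have i4 : 2 * Real.pi * (((-s * c.wt : ℤ) : ℝ) * z.re - 1) =
        -(D'.im + (gamy z t).im) := by linarith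
    have i5 : (gamt z t).im = -(gamt y t).im := by linarith
    have i6 : 2 * Real.pi * z.im * (((-s * c.wt : ℤ) : ℝ) * z.re - 1) =
        z.im * -(D'.im + (gamy z t).im) := by
      rw [← i4]; ring
    rw [i6, i5]
    ring

end Pool.Agent.XV
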