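import Pool.Agent.XV.Ext
import Pool.Agent.XV.Flat
import Pool.Agent.XV.Geo
import Pool.Agent.Helper11.TG.R4
import Pool.Agent.Helper9.TF.Many

/-!
# XV: the volume conjecture for arborescent links with at least ten crossings in each twist region
-/

set_option autoImplicit false

namespace Pool.Agent.XV

open Complex Finset Filter Topology
open Pool.Agent.Helper9.TB Pool.Agent.Helper9.TF Pool.Agent.Helper9.TG Pool.Agent.Helper9.Kashaev

lemma Big.monoD {R D D' : ℕ} (h : D ≤ D') (t : PTree) (ht : t.Big R D) : t.Big R D' := by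
  induction t with
  | leaf a => exact ht
  | graft p c ihp ihc => exact ⟨ihp ht.1, ihc ht.2.1, le_trans ht.2.2 h⟩

lemma deg_lt_size : ∀ t : PTree, t.deg + 1 ≤ t.size
  | .leaf _ => by simp [PTree.deg, PTree.size]
  | .graft p c => by
    have h1 := deg_lt_size p
    have h2 := deg_lt_size c
    simp only [PTree.deg, PTree.size]
    omega

lemma big_of_allGe {R : ℕ} : ∀ {t : PTree}, AllGe R t → t.Big R t.size
  | .leaf _, h => h
  | .graft p c, h => by
    have h1 := big_of_allGe h.1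
    have h2 := big_of_allGe h.2
    have s1 := deg_lt_size p
    have s2 := deg_lt_size c
    refine ⟨Big.monoD ?_ _ h1, Big.monoD ?_ _ h2, ?_⟩
    · simp only [PTree.size]; omega
    · simp only [PTree.size]; omega
    · simp only [PTree.size]; omega

theorem arbor10 (t : PTree) (ht : AllGe 10 t) (hd : 1 ≤ t.deg) :
    ∃ (z : ℕ → ℂ) (y D : ℂ) (V : ℝ),
      (∀ N, 2 ≤ N → ∀ u : ℂ, IsKashaev N (plumbLink t) u ↔ u = z N) ∧
      GeoX 1 t y D V ∧ 2 * Real.pi * I * (t.wt * y - 1) + D = 0 ∧ Reg y ∧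
      Tendsto (fun N : ℕ => 2 * Real.pi * Real.log ‖z N‖ / N) atTop (𝓝 V) := by
  obtain ⟨y, D, E, hC, hy, hroot⟩ := ct_exists ht hd
  have ht1 : AllGe 1 t := AllGe.mono (by norm_num) ht
  have hyim : -(55 / 1000) ≤ y.im := by
    have h1 := hy.r3
    have h2 := hy.r2
    have h3 : ‖y‖ ^ 2 = y.re ^ 2 + y.im ^ 2 := by
      rw [← Complex.normSq_eq_norm_sq, Complex.normSq_apply]; ring
    rw [h3, abs_of_neg h2] at h1
    have h4 := sq_abs y.re
    by_contra hc
    push Not at hc
    nlinarith [sq_nonneg (|y.re| - 1 / 20), sq_nonneg (y.im + 55 / 1000)]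
  have hyre : |y.re| ≤ 11 / 100 := by
    have := Complex.abs_re_le_norm y
    linarith [hy.r1]
  have hlim := tree_log hC ht1 hd hyre hy.r2 hyim hroot
  obtain ⟨V, hV, hE⟩ := ct_geo hC
  have hz : ∀ N : ℕ, ∃ z : ℂ, 2 ≤ N → IsKashaev N (plumbLink t) z ∧
      ‖z‖ = (N ^ 2 / (2 * Real.pi)) ^ t.size * ‖RT N t‖ := by
    intro N
    by_cases hN : 2 ≤ N
    · obtain ⟨z, h1, h2⟩ := tree_matrix hN t
      refine ⟨z, fun _ => ⟨h1, ?_⟩⟩
      rw [h2, tree_integral hN (big_of_allGe ht1) hd, flat hN ht1 hd]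
    · exact ⟨0, fun h => absurd h hN⟩
  choose z hz using hz
  refine ⟨z, y, D, V, fun N hN u => kashaev_unique hN (hz N hN).1, hV, hroot, hy, ?_⟩
  have hval : 2 * Real.pi * (E + vx t.wt y).re = V := by
    have h1 : D = -(2 * Real.pi * I * (t.wt * y - 1)) := by linear_combination hroot
    have h2 : D.im = -(2 * Real.pi * (t.wt * y.re - 1)) := by
      rw [h1]
      simp [Complex.mul_im, Complex.mul_re]
    rw [Complex.add_re, vx_re, hE, h2]
    have hpi := Real.pi_pos
    field_simp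
    ring
  rw [← hval]
  have h1 := log_limit (L := fun _ => 0) (b := fun N => ‖z N‖)
    (c := fun N => ‖RT N t‖) (k := t.size) (fun N hN => (hz N hN).2) hlim
  have h2 := h1.const_mul (2 * Real.pi)
  refine h2.congr fun N => ?_
  ring

end Pool.Agent.XV
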