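import Pool.Agent.XV.Defs
import Pool.Agent.Helper11.TF.Lim

/-!
# XV GC: the analytic continuation `gmc` of `gm`

`gmc N y t = exp (N * GA N y t)`, `GA` in Helper11.TF.GADefs, `CN N u = LD N (1 / 2 + u)`.

`gmc_eq` is `GA_exact` (Helper11.TF.GA).

`gmc_diffOn`: `CN_diff` (Helper11.TF.CN); `t + y`, `t - y` have real part in `(-1/100, 49/100)`
and `t - 1 / 2 + 1 / (2 N)` in `(-17/50, -15/100)`.

`gmc_lim`: with `CC u = LI (1 / 2 + u)` (`CC_eq`, Helper11.TF.CN) and `LD_asymp` (Helper48.QD.Cot,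
with `ε = 1 / 50`, `B = 2`):
`N * GA N y t = N * CC (t + y) + N * CC (t - y) - 2 * N * LI (t + 1 / (2 N)) - log N + O (1 / N)`.
By `LI_deriv` (`LI' = LS = log (2 sin π z)`) and `LS_deriv` (`LS' = π cot π z`, bounded on
`16 / 100 ≤ re ≤ 33 / 100`, `|im| ≤ 1 / 10`): `LI (t + 1 / (2 N)) = LI t + LS t / (2 N) +
O (1 / N ^ 2)`.  So `N * GA N y t = N * gam y t - LS t - log N + r` with `|r| ≤ C / N`
(`gam y t = CC (t + y) + CC (t - y) - 2 * CC (t - 1 / 2)`), and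
`N * gmc N y t * exp (-(N * gam y t)) = exp (-(LS t)) * exp r`, where
`exp (LS t) = 2 sin (π t)` (`exp_LS`), `‖2 sin (π t)‖ ≥ 2 sin (π t.re) ≥ 1 / 2` and
`‖exp r - 1‖ ≤ 2 ‖r‖`.

`gmc_bd` follows from `gmc_lim`.
-/

set_option autoImplicit false

namespace Pool.Agent.XV

open Complex Finset
open Pool.Agent.Helper9.TB Pool.Agent.Helper9.TF

open Pool.Agent.Helper48.QD (VS LD LD_asymp) in
/-- approximation of `CN` on a larger strip -/
lemma gc_CN : ∃ C : ℝ, 0 < C ∧ ∀ N : ℕ, 1 ≤ N → ∀ u : ℂ, |u.re| ≤ 12 / 25 → ‖u‖ ≤ 1 →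
    ‖CN N u - N * CC u‖ ≤ C / N := by
  obtain ⟨C, hC⟩ := LD_asymp (ε := 1 / 50) (B := 2) (by norm_num)
  refine ⟨max C 1, by positivity, fun N hN u hu hB => ?_⟩
  have hN' : (0 : ℝ) < N := by exact_mod_cast hN
  have h1 := abs_le.1 hu
  have hre : (1 / 2 + u).re = 1 / 2 + u.re := by simp
  have h2 := hC N hN' (1 / 2 + u) (by rw [hre]; linarith [h1.1]) (by rw [hre]; linarith [h1.2]) (by
    refine (norm_add_le _ _).trans ?_
    have : ‖(1 / 2 : ℂ)‖ = 1 / 2 := by simp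
    rw [this]; linarith)
  have hHS : u ∈ HS := by
    rw [HS_iff]; linarith
  rw [CC_eq hHS]
  refine h2.trans ?_
  gcongr
  exact le_max_left _ _

lemma gc_re1 {y t : ℂ} {a b : ℝ} (hy : |y.re| ≤ 17 / 100) (h1 : a ≤ t.re) (h2 : t.re ≤ b)
    (h3 : -(12 / 25) ≤ a - 17 / 100) (h4 : b + 17 / 100 ≤ 12 / 25) : |(t + y).re| ≤ 12 / 25 := by
  have h := abs_le.1 hy
  rw [Complex.add_re, abs_le]
  constructor <;> linarith [h.1, h.2]

lemma gc_re2 {y t : ℂ} {a b : ℝ} (hy : |y.re| ≤ 17 / 100) (h1 : a ≤ t.re) (h2 : t.re ≤ b)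
    (h3 : -(12 / 25) ≤ a - 17 / 100) (h4 : b + 17 / 100 ≤ 12 / 25) : |(t - y).re| ≤ 12 / 25 := by
  rw [sub_eq_add_neg]
  exact gc_re1 (by rwa [Complex.neg_re, abs_neg]) h1 h2 h3 h4

lemma gc_HN {N : ℕ} (hN : 100 ≤ N) : (0 : ℝ) < 1 / (2 * N) ∧ (1 : ℝ) / (2 * N) ≤ 1 / 200 := by
  have h : (100 : ℝ) ≤ N := by exact_mod_cast hN
  constructor
  · positivity
  · apply one_div_le_one_div_of_le (by norm_num)
    linarith

lemma gc_re3 {N : ℕ} (t : ℂ) : (t - 1 / 2 + 1 / (2 * N)).re = t.re - 1 / 2 + 1 / (2 * N) := by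
  rw [half_N_re, Complex.add_re, Complex.ofReal_re]
  simp

theorem gmc_eq {N m : ℕ} (hN : 2 ≤ N) (hm : m < N) {y : ℂ} (h : |y.re| + m / N < 1 / 2) :
    gm N m y = gmc N y (m / N) := by
  unfold gmc
  exact GA_exact N hN m hm y h

theorem gmc_diffOn {N : ℕ} (hN : 100 ≤ N) {y : ℂ} (hy : |y.re| ≤ 17 / 100) :
    DifferentiableOn ℂ (gmc N y) {t : ℂ | 16 / 100 < t.re ∧ t.re < 32 / 100} := by
  have hN1 : 1 ≤ N := by omega
  have h0 := gc_HN hN
  have hy' := abs_le.1 hy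
  have c := CN_diff hN1
  have m1 : Set.MapsTo (fun t : ℂ => t + y) {t : ℂ | 16 / 100 < t.re ∧ t.re < 32 / 100}
      {u : ℂ | |u.re| < 1 / 2} := by
    intro t ht
    show |(t + y).re| < 1 / 2
    rw [Complex.add_re, abs_lt]
    constructor <;> linarith [ht.1, ht.2, hy'.1, hy'.2]
  have m2 : Set.MapsTo (fun t : ℂ => t - y) {t : ℂ | 16 / 100 < t.re ∧ t.re < 32 / 100}
      {u : ℂ | |u.re| < 1 / 2} := by
    intro t ht
    show |(t - y).re| < 1 / 2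
    rw [Complex.sub_re, abs_lt]
    constructor <;> linarith [ht.1, ht.2, hy'.1, hy'.2]
  have m3 : Set.MapsTo (fun t : ℂ => t - 1 / 2 + 1 / (2 * (N : ℂ)))
      {t : ℂ | 16 / 100 < t.re ∧ t.re < 32 / 100} {u : ℂ | |u.re| < 1 / 2} := by
    intro t ht
    show |(t - 1 / 2 + 1 / (2 * (N : ℂ))).re| < 1 / 2
    rw [gc_re3, abs_lt]
    constructor <;> linarith [ht.1, ht.2, h0.1, h0.2]
  have f1 : DifferentiableOn ℂ (fun t : ℂ => t + y) {t : ℂ | 16 / 100 < t.re ∧ t.re < 32 / 100} := by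
    fun_prop
  have f2 : DifferentiableOn ℂ (fun t : ℂ => t - y) {t : ℂ | 16 / 100 < t.re ∧ t.re < 32 / 100} := by
    fun_prop
  have f3 : DifferentiableOn ℂ (fun t : ℂ => t - 1 / 2 + 1 / (2 * (N : ℂ)))
      {t : ℂ | 16 / 100 < t.re ∧ t.re < 32 / 100} := by
    fun_prop
  have h := ((((c.comp f1 m1).add (c.comp f2 m2)).sub ((c.comp f3 m3).const_mul 2)).sub_const
    (Real.log N : ℂ)).div_const (N : ℂ)
  have h2 : DifferentiableOn ℂ (fun t => N * GA N y t)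
      {t : ℂ | 16 / 100 < t.re ∧ t.re < 32 / 100} := h.const_mul (N : ℂ)
  exact h2.cexp

/-- second order Taylor formula of `CC` -/
lemma gc_taylor : ∃ L : ℝ, 0 < L ∧ ∀ u ∈ KB, ‖cc u‖ ≤ L ∧ ∀ h : ℝ, 0 ≤ h → u + h ∈ KB →
    ‖CC (u + h) - CC u - cc u * h‖ ≤ L * h ^ 2 := by
  obtain ⟨L, hL, hlip⟩ := KB_lip
  obtain ⟨M, hM, hb⟩ := KB_bounds
  refine ⟨max L M, by positivity, fun u hu => ⟨(hb u hu).1.trans (le_max_right _ _),
    fun h h0 huh => ?_⟩⟩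
  have key : ‖(CC (u + h) - cc u * (u + h)) - (CC u - cc u * u)‖ ≤ (L * h) * ‖(u + h) - u‖ := by
    have hconv : Convex ℝ (KB ∩ Metric.closedBall u h) := KB_convex.inter (convex_closedBall _ _)
    refine hconv.norm_image_sub_le_of_norm_hasDerivWithin_le
      (f := fun w => CC w - cc u * w) (f' := fun w => cc w - cc u) ?_ ?_ ?_ ?_
    · intro w hw
      have d := (CC_deriv (KB_HS hw.1)).sub ((hasDerivAt_id w).const_mul (cc u))
      rw [mul_one] at d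
      exact d.hasDerivWithinAt
    · intro w hw
      refine (hlip w hw.1 u hu).1.trans ?_
      gcongr
      exact mem_closedBall_iff_norm.1 hw.2
    · exact ⟨hu, Metric.mem_closedBall_self h0⟩
    · refine ⟨huh, ?_⟩
      rw [mem_closedBall_iff_norm, add_sub_cancel_left, Complex.norm_real, Real.norm_eq_abs,
        abs_of_nonneg h0]
  have e : (CC (u + h) - cc u * (u + h)) - (CC u - cc u * u) = CC (u + h) - CC u - cc u * h := by
    ring
  rw [e, add_sub_cancel_left, Complex.norm_real, Real.norm_eq_abs, abs_of_nonneg h0] at key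
  refine key.trans ?_
  have : L * h * h ≤ max L M * h * h := by
    gcongr
    exact le_max_left _ _
  calc L * h * h ≤ max L M * h * h := this
    _ = max L M * h ^ 2 := by ring

lemma gc_norm {z : ℂ} {a b : ℝ} (h1 : |z.re| ≤ a) (h2 : |z.im| ≤ b) : ‖z‖ ≤ a + b :=
  (Complex.norm_le_abs_re_add_abs_im z).trans (add_le_add h1 h2)

/-- the exponent -/
lemma gc_exp : ∃ (C L : ℝ) (N0 : ℕ), 0 < C ∧ 0 < L ∧ 1 ≤ N0 ∧ ∀ N : ℕ, N0 ≤ N → ∀ y t : ℂ,
    |y.re| ≤ 17 / 100 → |y.im| ≤ 1 / 10 → 17 / 100 ≤ t.re → t.re ≤ 31 / 100 → |t.im| ≤ 1 / 10 →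
    ‖cc (t - 1 / 2)‖ ≤ L ∧ t - 1 / 2 ∈ HS ∧
    ‖N * GA N y t - (N * gam y t - cc (t - 1 / 2) - Real.log N)‖ ≤ C / N := by
  obtain ⟨A, hA, happ⟩ := gc_CN
  obtain ⟨L, hL, htay⟩ := gc_taylor
  refine ⟨4 * A + L, L, 100, by positivity, hL, by norm_num, fun N hN y t y1 y2 t1 t2 t3 => ?_⟩
  have hN1 : 1 ≤ N := by omega
  have hN0 : (0 : ℝ) < N := by exact_mod_cast hN1
  have hNc : (N : ℂ) ≠ 0 := by exact_mod_cast hN0.ne'
  have hs := gc_HN hN
  have r1 := gc_re1 y1 t1 t2 (by norm_num) (by norm_num)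
  have r2 := gc_re2 y1 t1 t2 (by norm_num) (by norm_num)
  have i1 : |(t + y).im| ≤ 1 / 5 := by
    rw [Complex.add_im]
    exact (abs_add_le _ _).trans (by linarith)
  have i2 : |(t - y).im| ≤ 1 / 5 := by
    rw [Complex.sub_im]
    exact (abs_sub _ _).trans (by linarith)
  have n1 : ‖t + y‖ ≤ 1 := (gc_norm r1 i1).trans (by norm_num)
  have n2 : ‖t - y‖ ≤ 1 := (gc_norm r2 i2).trans (by norm_num)
  have eh : t - 1 / 2 + 1 / (2 * N) = t - 1 / 2 + ((1 / (2 * N) : ℝ) : ℂ) := by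
    rw [half_N_re]
  have k0 : t - 1 / 2 ∈ KB := by
    have hr : (t - 1 / 2).re = t.re - 1 / 2 := by simp
    have hi : (t - 1 / 2).im = t.im := by simp
    have hr2 : |(t - 1 / 2).re| ≤ 2 / 5 := by
      rw [hr, abs_le]
      constructor <;> linarith
    rw [KB_iff]
    refine ⟨hr2, (gc_norm hr2 (hi ▸ t3)).trans (by norm_num)⟩
  have k1 : t - 1 / 2 + ((1 / (2 * N) : ℝ) : ℂ) ∈ KB := by
    rw [← eh]
    have hr2 : |(t - 1 / 2 + 1 / (2 * (N : ℂ))).re| ≤ 2 / 5 := by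
      rw [gc_re3, abs_le]
      constructor <;> linarith [hs.1, hs.2]
    have hi : (t - 1 / 2 + 1 / (2 * (N : ℂ))).im = t.im := by
      rw [eh, Complex.add_im, Complex.ofReal_im]
      simp
    rw [KB_iff]
    exact ⟨hr2, (gc_norm hr2 (hi ▸ t3)).trans (by norm_num)⟩
  have a1 := happ N hN1 _ r1 n1
  have a2 := happ N hN1 _ r2 n2
  have a3 := happ N hN1 _ ((KB_iff.1 k1).1.trans (by norm_num)) (KB_iff.1 k1).2
  have tt := (htay _ k0).2 _ hs.1.le k1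
  refine ⟨(htay _ k0).1, KB_HS k0, ?_⟩
  have e : N * GA N y t - (N * gam y t - cc (t - 1 / 2) - Real.log N) =
      (CN N (t + y) - N * CC (t + y)) + (CN N (t - y) - N * CC (t - y)) -
        2 * (CN N (t - 1 / 2 + ((1 / (2 * N) : ℝ) : ℂ)) -
          N * CC (t - 1 / 2 + ((1 / (2 * N) : ℝ) : ℂ))) -
        2 * (N * (CC (t - 1 / 2 + ((1 / (2 * N) : ℝ) : ℂ)) - CC (t - 1 / 2) -
          cc (t - 1 / 2) * ((1 / (2 * N) : ℝ) : ℂ))) := by
    unfold GA gam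
    rw [eh, ← half_N_re]
    field_simp
    ring
  rw [e]
  have h1 := norm_sub_le ((CN N (t + y) - N * CC (t + y)) + (CN N (t - y) - N * CC (t - y)) -
        2 * (CN N (t - 1 / 2 + ((1 / (2 * N) : ℝ) : ℂ)) -
          N * CC (t - 1 / 2 + ((1 / (2 * N) : ℝ) : ℂ))))
        (2 * (N * (CC (t - 1 / 2 + ((1 / (2 * N) : ℝ) : ℂ)) - CC (t - 1 / 2) -
          cc (t - 1 / 2) * ((1 / (2 * N) : ℝ) : ℂ))))
  have h2 := norm_sub_le ((CN N (t + y) - N * CC (t + y)) + (CN N (t - y) - N * CC (t - y)))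
        (2 * (CN N (t - 1 / 2 + ((1 / (2 * N) : ℝ) : ℂ)) -
          N * CC (t - 1 / 2 + ((1 / (2 * N) : ℝ) : ℂ))))
  have h3 := norm_add_le (CN N (t + y) - N * CC (t + y)) (CN N (t - y) - N * CC (t - y))
  rw [norm_mul, RCLike.norm_ofNat, norm_mul, Complex.norm_natCast] at h1
  rw [norm_mul, RCLike.norm_ofNat] at h2
  have h4 : (N : ℝ) * (L * (1 / (2 * N)) ^ 2) = L / N / 4 := by field_simp; ring
  have h5 : (N : ℝ) * ‖CC (t - 1 / 2 + ((1 / (2 * N) : ℝ) : ℂ)) - CC (t - 1 / 2) -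
          cc (t - 1 / 2) * ((1 / (2 * N) : ℝ) : ℂ)‖ ≤ L / N / 4 := by
    rw [← h4]
    gcongr
  have h6 : (4 * A + L) / N = 4 * (A / N) + L / N := by ring
  have h7 : 0 ≤ L / N := by positivity
  rw [h6]
  linarith

/-- the main formula -/
lemma gc_main {N : ℕ} (hN : 1 ≤ N) {y t r : ℂ}
    (hr : N * GA N y t = N * gam y t - cc (t - 1 / 2) - Real.log N + r) :
    N * gmc N y t * Complex.exp (-(N * gam y t)) = Complex.exp (-cc (t - 1 / 2)) * Complex.exp r := by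
  have hN0 : (0 : ℝ) < N := by exact_mod_cast hN
  have h5 : (N : ℂ) = Complex.exp (Real.log N) := by
    rw [← Complex.ofReal_exp, Real.exp_log hN0]
    simp
  have h6 : (N : ℂ) * gmc N y t = Complex.exp (N * gam y t - cc (t - 1 / 2) + r) := by
    unfold gmc
    rw [hr]
    nth_rewrite 1 [h5]
    rw [← Complex.exp_add]
    congr 1
    ring
  rw [h6, ← Complex.exp_add, ← Complex.exp_add]
  congr 1
  ring

lemma gc_sin {t : ℂ} (ht : t - 1 / 2 ∈ HS) :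
    1 / (2 * Complex.sin (Real.pi * t)) = Complex.exp (-cc (t - 1 / 2)) := by
  have h := exp_cc ht
  have e : Complex.cos (Real.pi * (t - 1 / 2)) = Complex.sin (Real.pi * t) := by
    rw [show (Real.pi : ℂ) * (t - 1 / 2) = Real.pi * t - Real.pi / 2 by ring,
      Complex.cos_sub_pi_div_two]
  rw [e] at h
  rw [Complex.exp_neg, h, one_div]

theorem gmc_lim : ∃ (C : ℝ) (N0 : ℕ), 0 < C ∧ ∀ N : ℕ, N0 ≤ N → ∀ y t : ℂ, |y.re| ≤ 17 / 100 →
    |y.im| ≤ 1 / 10 → 17 / 100 ≤ t.re → t.re ≤ 31 / 100 → |t.im| ≤ 1 / 10 →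
    ‖N * gmc N y t * Complex.exp (-(N * gam y t)) - 1 / (2 * Complex.sin (Real.pi * t))‖ ≤
      C / N := by
  obtain ⟨C, L, N0, hC, hL, hN0, h⟩ := gc_exp
  obtain ⟨K, hK⟩ := exists_nat_ge C
  refine ⟨Real.exp L * (2 * C), max N0 K, by positivity, fun N hN y t y1 y2 t1 t2 t3 => ?_⟩
  have hN1 : N0 ≤ N := (le_max_left _ _).trans hN
  have hN2 : K ≤ N := (le_max_right _ _).trans hN
  have hN3 : 1 ≤ N := hN0.trans hN1
  have hNr : (0 : ℝ) < N := by exact_mod_cast hN3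
  obtain ⟨b1, b2, b3⟩ := h N hN1 y t y1 y2 t1 t2 t3
  set r := N * GA N y t - (N * gam y t - cc (t - 1 / 2) - Real.log N) with hr
  have e : N * GA N y t = N * gam y t - cc (t - 1 / 2) - Real.log N + r := by
    rw [hr]; ring
  have hr1 : ‖r‖ ≤ 1 := by
    refine b3.trans ?_
    rw [div_le_one hNr]
    exact hK.trans (by exact_mod_cast hN2)
  rw [gc_main hN3 e, gc_sin b2, ← mul_sub_one, norm_mul]
  have h1 : ‖Complex.exp (-cc (t - 1 / 2))‖ ≤ Real.exp L := by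
    rw [Complex.norm_exp]
    apply Real.exp_le_exp.2
    rw [Complex.neg_re]
    have := (abs_le.1 ((Complex.abs_re_le_norm (cc (t - 1 / 2))).trans b1)).1
    linarith
  have h2 : ‖Complex.exp r - 1‖ ≤ 2 * (C / N) :=
    (Complex.norm_exp_sub_one_le hr1).trans (by linarith)
  calc _ ≤ Real.exp L * (2 * (C / N)) := by gcongr
    _ = Real.exp L * (2 * C) / N := by ring

theorem gmc_bd : ∃ (C : ℝ) (N0 : ℕ), 0 < C ∧ ∀ N : ℕ, N0 ≤ N → ∀ y t : ℂ, |y.re| ≤ 17 / 100 →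
    |y.im| ≤ 1 / 10 → 17 / 100 ≤ t.re → t.re ≤ 31 / 100 → |t.im| ≤ 1 / 10 →
    ‖gmc N y t‖ ≤ C / N * Real.exp (N * (gam y t).re) := by
  obtain ⟨C, L, N0, hC, hL, hN0, h⟩ := gc_exp
  refine ⟨Real.exp (L + C), N0, by positivity, fun N hN y t y1 y2 t1 t2 t3 => ?_⟩
  have hN3 : 1 ≤ N := hN0.trans hN
  have hNr : (0 : ℝ) < N := by exact_mod_cast hN3
  have hNr1 : (1 : ℝ) ≤ N := by exact_mod_cast hN3
  obtain ⟨b1, b2, b3⟩ := h N hN y t y1 y2 t1 t2 t3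
  set r := N * GA N y t - (N * gam y t - cc (t - 1 / 2) - Real.log N) with hr
  have e : N * GA N y t = N * gam y t - cc (t - 1 / 2) - Real.log N + r := by
    rw [hr]; ring
  unfold gmc
  rw [e, Complex.norm_exp]
  have h1 := (abs_le.1 ((Complex.abs_re_le_norm (cc (t - 1 / 2))).trans b1)).1
  have h2 := (abs_le.1 ((Complex.abs_re_le_norm r).trans b3)).2
  have h3 : C / N ≤ C := div_le_self hC.le hNr1
  have e2 : ((N : ℂ) * gam y t - cc (t - 1 / 2) - Real.log N + r).re =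
      N * (gam y t).re - (cc (t - 1 / 2)).re - Real.log N + r.re := by
    rw [Complex.add_re, Complex.sub_re, Complex.sub_re, Complex.ofReal_re, Complex.mul_re,
      Complex.natCast_re, Complex.natCast_im, zero_mul, sub_zero]
  rw [e2]
  have e3 : Real.exp (L + C) / N * Real.exp (N * (gam y t).re) =
      Real.exp (L + C - Real.log N + N * (gam y t).re) := by
    rw [Real.exp_add (L + C - Real.log N), Real.exp_sub, Real.exp_log hNr]
  rw [e3]
  apply Real.exp_le_exp.2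
  linarith

end Pool.Agent.XV
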