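import Mathlib
import Pool.Agent.XV.Defs
import Pool.Agent.Helper48.TF.GmLe
import Pool.Agent.Helper48.TF.Gaps
import Pool.Agent.Helper11.TB.Win

/-!
# XV GMB: bound of `gm` with the sharp exponent `win |y.im| y.re` (up to `ε`)

`win_lip`: for `h' = 0` this is `Helper48.TF.win_close`.  For `0 < h'`: `win_eq`
(Helper11.TB.Ee) gives `win h ξ τ = EE h (ξ + τ) - EE h (ξ - τ)`, and `x ↦ EE h x - EE h' x` is
monotone (derivative `ee h x - ee h' x ≥ 0` by `ee_mono`), so with `a = ξ - τ`, `ξ + τ ≤ a + 2`: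
`win h ξ τ - win h' ξ τ ≤ (EE h (a + 2) - EE h a) - (EE h' (a + 2) - EE h' a) = 2 π h - 2 π h'` by
`EE_add_one` (Helper11.TB.Win) twice.

`gm_bd`: take `n` with `2 π / (10 n) ≤ ε` and the finitely many heights `h_j = j / (10 n)`,
`1 ≤ j ≤ n`.  `Helper48.TF.gm_le` with `h = h_j` gives constants `C_j`, `k_j`; take the maxima (use
`N ≥ 2 ≥ 1` to raise the power).  For `y` choose `j` with `h_j - 1 / (10 n) ≤ |y.im| ≤ h_j`
(`j = max 1 ⌈10 n |y.im|⌉`); then `win h_j ξ τ ≤ win |y.im| ξ τ + 2 π / (10 n)` by `win_lip`.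
-/

set_option autoImplicit false

namespace Pool.Agent.XV

open Complex Finset
open Pool.Agent.Helper9.TB Pool.Agent.Helper9.TF
open Pool.Agent.Helper11.TB (ee_mono ee_int EE EE_add_one win_eq)

theorem win_lip {h h' ξ τ : ℝ} (h0 : 0 ≤ h') (hh : h' ≤ h) (t0 : 0 ≤ τ) (t1 : τ ≤ 1) :
    win h ξ τ ≤ win h' ξ τ + 2 * Real.pi * (h - h') := by
  rcases h0.eq_or_lt with h1 | h1
  · subst h1
    rcases hh.eq_or_lt with h2 | h2
    · subst h2; simp
    · have := Pool.Agent.Helper48.TF.win_close (ξ := ξ) h2 t0 t1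
      rwa [sub_zero]
  · have h2 : 0 < h := h1.trans_le hh
    have key : (EE h' (ξ - τ + 2) - EE h' (ξ + τ)) ≤ (EE h (ξ - τ + 2) - EE h (ξ + τ)) := by
      unfold EE
      rw [intervalIntegral.integral_interval_sub_left (ee_int h1 _ _) (ee_int h1 _ _),
        intervalIntegral.integral_interval_sub_left (ee_int h2 _ _) (ee_int h2 _ _)]
      apply intervalIntegral.integral_mono_on (by linarith) (ee_int h1 _ _) (ee_int h2 _ _)
      exact fun x _ => ee_mono h1 hh x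
    have e1 : EE h (ξ - τ + 2) = EE h (ξ - τ) + 2 * (Real.pi * h) := by
      rw [show ξ - τ + 2 = ξ - τ + 1 + 1 by ring, EE_add_one h2, EE_add_one h2]
      ring
    have e2 : EE h' (ξ - τ + 2) = EE h' (ξ - τ) + 2 * (Real.pi * h') := by
      rw [show ξ - τ + 2 = ξ - τ + 1 + 1 by ring, EE_add_one h1, EE_add_one h1]
      ring
    rw [win_eq h1, win_eq h2]
    rw [e1, e2] at key
    linarith

theorem gm_bd {ε : ℝ} (hε : 0 < ε) : ∃ (C : ℝ) (K : ℕ), 0 < C ∧ ∀ N m : ℕ, 2 ≤ N → m < N →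
    ∀ y : ℂ, |y.re| ≤ 1 / 2 → |y.im| ≤ 1 / 10 →
      ‖gm N m y‖ ≤ C * N ^ K * Real.exp (N * (win |y.im| y.re (m / N) - 2 * ll (m / N) + ε)) := by
  obtain ⟨n0, hn0⟩ := exists_nat_gt (2 * Real.pi / (10 * ε))
  have hpi := Real.pi_pos
  have hn0p : (0 : ℝ) < n0 := lt_trans (by positivity) hn0
  obtain ⟨n, rfl⟩ : ∃ n, n0 = n + 1 := ⟨n0 - 1, by
    have : 0 < n0 := by exact_mod_cast hn0p
    omega⟩
  have hs : 2 * Real.pi * (1 / (10 * ((n + 1 : ℕ) : ℝ))) ≤ ε := by
    rw [div_lt_iff₀ (by positivity)] at hn0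
    rw [mul_one_div, div_le_iff₀ (by positivity)]
    linarith
  have hpos : ∀ j : ℕ, (0 : ℝ) < ((j : ℝ) + 1) / (10 * ((n + 1 : ℕ) : ℝ)) := fun j => by positivity
  choose C k hC hb using fun j : ℕ => Pool.Agent.Helper48.TF.gm_le (hpos j)
  refine ⟨∑ j ∈ range (n + 1), C j, ∑ j ∈ range (n + 1), k j, ?_, ?_⟩
  · exact sum_pos (fun j _ => hC j) ⟨0, by simp⟩
  · intro N m hN hm y hy1 hy2
    have hNR : (2 : ℝ) ≤ N := by exact_mod_cast hN
    set P : ℝ := 10 * ((n + 1 : ℕ) : ℝ) with hP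
    have hPp : 0 < P := by positivity
    obtain ⟨j, hj, hj1, hj2⟩ : ∃ j : ℕ, j < n + 1 ∧ |y.im| ≤ ((j : ℝ) + 1) / P ∧
        ((j : ℝ) + 1) / P - 1 / P ≤ |y.im| := by
      have hf1 : (⌊P * |y.im|⌋₊ : ℝ) ≤ P * |y.im| := Nat.floor_le (by positivity)
      have hf2 : P * |y.im| < (⌊P * |y.im|⌋₊ : ℝ) + 1 := Nat.lt_floor_add_one _
      by_cases hc : ⌊P * |y.im|⌋₊ < n + 1
      · refine ⟨⌊P * |y.im|⌋₊, hc, ?_, ?_⟩
        · rw [le_div_iff₀ hPp]; linarith
        · rw [← sub_div, div_le_iff₀ hPp]; linarith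
      · have hc' : n + 1 ≤ ⌊P * |y.im|⌋₊ := by omega
        have hc2 : ((n + 1 : ℕ) : ℝ) ≤ (⌊P * |y.im|⌋₊ : ℝ) := by exact_mod_cast hc'
        refine ⟨n, by omega, ?_, ?_⟩
        · rw [le_div_iff₀ hPp]
          have : |y.im| * P ≤ 1 / 10 * P := mul_le_mul_of_nonneg_right hy2 hPp.le
          rw [hP] at this ⊢
          push_cast at this ⊢
          linarith
        · rw [← sub_div, div_le_iff₀ hPp]
          push_cast at hc2
          linarith
    have h1 := hb j N m hN hm y hy1 hj1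
    have ht0 : (0 : ℝ) ≤ (m : ℝ) / N := by positivity
    have ht1 : (m : ℝ) / N ≤ 1 := by
      rw [div_le_one (by linarith)]
      exact_mod_cast hm.le
    have h2 := win_lip (h := ((j : ℝ) + 1) / P) (h' := |y.im|) (ξ := y.re) (abs_nonneg _) hj1 ht0 ht1
    have h3 : 2 * Real.pi * (((j : ℝ) + 1) / P - |y.im|) ≤ ε := by
      refine le_trans ?_ hs
      apply mul_le_mul_of_nonneg_left _ (by positivity)
      linarith
    refine h1.trans ?_
    have hCj : C j ≤ ∑ j ∈ range (n + 1), C j :=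
      single_le_sum (f := C) (fun i _ => (hC i).le) (mem_range.2 hj)
    have hkj : k j ≤ ∑ j ∈ range (n + 1), k j :=
      single_le_sum (f := k) (fun i _ => Nat.zero_le _) (mem_range.2 hj)
    apply mul_le_mul
    · apply mul_le_mul hCj (pow_le_pow_right₀ (by linarith) hkj) (by positivity)
      exact (hC j).le.trans hCj
    · apply Real.exp_le_exp.2
      apply mul_le_mul_of_nonneg_left _ (by linarith)
      linarith
    · exact (Real.exp_pos _).le
    · exact mul_nonneg ((hC j).le.trans hCj) (by positivity)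

end Pool.Agent.XV
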