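import Pool.Agent.XV.Gmb

/-!
# XV HB: bounds of `gm N m w` for the points `w` of the path of a vertex

Use `gm_bd` with `ε = 1 / 16000`; in all cases `|w.re| ≤ 1 / 2`, `|w.im| ≤ 1 / 10` and
`0 ≤ m / N ≤ 1`.

* `Nr y w ξ`: `w = ξ + y.im I`, `Inn x0 1 ξ ξ`, `|w.im| = |y.im| = 1 * |y.im|`.
* `Wa`: `w = x + (lam * y.im) I`, `|w.im| = lam * |y.im|`, `Inn x0 lam x ξ`.
  So `H.real`, `H.realfar` give the first two bounds.
* `Fa`: `|w.im| ≤ 1 / N ≤ 1 / 10`, `win_lip` gives `win |w.im| w.re r ≤ win 0 w.re r + 2 π / N`, and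
  `exp (N * (2 π / N)) = exp (2 π)` is put into the constant; then `H.far`, `ξ = x0`.
  For the first bound `-1 / 100 ≤ 1 / 200`.
-/

set_option autoImplicit false

namespace Pool.Agent.XV

open Complex Finset
open Pool.Agent.Helper9.TB Pool.Agent.Helper9.TF

/-- the bounds of `gm` for one abscissa, near points and walls -/
private theorem hb_core : ∃ (C : ℝ) (K : ℕ), 0 < C ∧
    ∀ N : ℕ, 2 ≤ N → ∀ w : ℂ, |w.re| ≤ 1 / 2 → |w.im| ≤ 1 / 10 → ∀ m : ℕ, m < N → ∀ E : ℝ,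
      win |w.im| w.re (m / N) - 2 * ll (m / N) ≤ E →
      ‖gm N m w‖ ≤ C * N ^ K * Real.exp (N * (E + 1 / 16000)) := by
  obtain ⟨C, K, hC, h⟩ := gm_bd (ε := 1 / 16000) (by norm_num)
  refine ⟨C, K, hC, fun N hN w h1 h2 m hm E hE => (h N m hN hm w h1 h2).trans ?_⟩
  apply mul_le_mul_of_nonneg_left _ (by positivity)
  apply Real.exp_le_exp.2
  apply mul_le_mul_of_nonneg_left _ (by positivity)
  linarith

private theorem hb_r {N m : ℕ} (hm : m < N) : (0 : ℝ) ≤ (m : ℝ) / N ∧ (m : ℝ) / N ≤ 1 := by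
  have h0 : (0 : ℝ) < N := by exact_mod_cast (by omega : 0 < N)
  refine ⟨by positivity, ?_⟩
  rw [div_le_one h0]
  exact_mod_cast hm.le

/-- near points and walls in the form used by `Half` -/
private theorem hb_inn {x0 : ℝ} {y t w : ℂ} {ξ : ℝ} {N : ℕ} (H : Half x0 y t)
    (h : Nr y w ξ ∨ Wa x0 y N w ξ) : ∃ lam x : ℝ, Inn x0 lam x ξ ∧ w.re = x ∧
      |w.im| = lam * |y.im| ∧ |w.re| ≤ 1 / 2 ∧ |w.im| ≤ 1 / 10 := by
  have hy1 := H.yneg
  have hy2 := H.yim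
  have hy3 : |y.im| ≤ 1 / 10 := by rw [abs_le]; constructor <;> linarith
  rcases h with ⟨h1, h2⟩ | ⟨lam, x, l0, l1, -, hx, hw, hξ⟩
  · have e1 : w.re = ξ := by rw [h2]; simp
    have e2 : w.im = y.im := by rw [h2]; simp
    refine ⟨1, ξ, ⟨by norm_num, le_rfl, h1, Or.inl rfl, by ring⟩, e1, ?_, ?_, ?_⟩
    · rw [e2, one_mul]
    · rw [e1]; linarith
    · rw [e2]; exact hy3
  · have e1 : w.re = x := by rw [hw]; simp
    have e2 : w.im = lam * y.im := by rw [hw]; simp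
    refine ⟨lam, x, ⟨l0, l1, hx.le, Or.inr hx, hξ⟩, e1, ?_, ?_, ?_⟩
    · rw [e2, abs_mul, abs_of_nonneg l0]
    · rw [e1, hx]; norm_num
    · rw [e2, abs_mul, abs_of_nonneg l0]
      calc lam * |y.im| ≤ 1 * |y.im| := mul_le_mul_of_nonneg_right l1 (abs_nonneg _)
        _ ≤ 1 / 10 := by rw [one_mul]; exact hy3

/-- far points -/
private theorem hb_fa {x0 : ℝ} {y t : ℂ} (H : Half x0 y t) : ∃ (C : ℝ) (K : ℕ), 0 < C ∧
    ∀ N : ℕ, 10 ≤ N → ∀ (w : ℂ) (ξ : ℝ), Fa x0 N w ξ → ∀ m : ℕ, m < N →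
      ‖gm N m w‖ ≤ C * N ^ K * Real.exp (N * (TP y t (m / N) ξ - 79 / 8000)) := by
  obtain ⟨C, K, hC, h⟩ := gm_bd (ε := 1 / 16000) (by norm_num)
  refine ⟨C * Real.exp (2 * Real.pi), K, by positivity, ?_⟩
  rintro N hN w ξ ⟨f1, f2, f3, f4, -, rfl⟩ m hm
  obtain ⟨r0, r1⟩ := hb_r hm
  have hNR : (10 : ℝ) ≤ N := by exact_mod_cast hN
  have hN0 : (0 : ℝ) < N := by linarith
  have hi : 1 / (N : ℝ) ≤ 1 / 10 := one_div_le_one_div_of_le (by norm_num) hNR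
  have a1 : |w.im| ≤ 1 / (N : ℝ) := by rw [abs_le]; constructor <;> [linarith; exact f4.trans (by positivity)]
  have h1 := h N m (by omega) hm w f2 (a1.trans hi)
  have h2 := win_lip (h := |w.im|) (h' := 0) (ξ := w.re) le_rfl (abs_nonneg _) r0 r1
  have h3 := H.far (m / N) w.re r0 r1 f1 f2
  have hpi := Real.pi_pos
  have h4 : 2 * Real.pi * (|w.im| - 0) ≤ 2 * Real.pi / N := by
    rw [sub_zero, show 2 * Real.pi / (N : ℝ) = 2 * Real.pi * (1 / N) by ring]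
    exact mul_le_mul_of_nonneg_left a1 (by positivity)
  refine h1.trans ?_
  calc C * N ^ K * Real.exp (N * (win |w.im| w.re (m / N) - 2 * ll (m / N) + 1 / 16000))
      ≤ C * N ^ K * Real.exp (2 * Real.pi + N * (TP y t (m / N) ξ - 79 / 8000)) := by
        apply mul_le_mul_of_nonneg_left _ (by positivity)
        apply Real.exp_le_exp.2
        have e : 2 * Real.pi = N * (2 * Real.pi / N) := by field_simp
        rw [e, ← mul_add]
        apply mul_le_mul_of_nonneg_left _ hN0.le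
        linarith
    _ = _ := by rw [Real.exp_add]; ring

theorem hb_all {x0 : ℝ} {y t : ℂ} (H : Half x0 y t) : ∃ (C : ℝ) (K N0 : ℕ), 0 < C ∧
    ∀ N : ℕ, N0 ≤ N → ∀ (w : ℂ) (ξ : ℝ), (Nr y w ξ ∨ Wa x0 y N w ξ ∨ Fa x0 N w ξ) →
    ∀ m : ℕ, m < N →
      ‖gm N m w‖ ≤ C * N ^ K * Real.exp (N * (TP y t (m / N) ξ + 41 / 8000)) := by
  obtain ⟨C, K, hC, h⟩ := hb_core
  obtain ⟨C', K', hC', h'⟩ := hb_fa H
  refine ⟨C + C', K + K', 10, by positivity, ?_⟩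
  intro N hN w ξ hw m hm
  have hNR : (10 : ℝ) ≤ N := by exact_mod_cast hN
  have hor : (Nr y w ξ ∨ Wa x0 y N w ξ) ∨ Fa x0 N w ξ := by tauto
  obtain ⟨r0, r1⟩ := hb_r hm
  rcases hor with hw | hw
  · obtain ⟨lam, x, hI, e1, e2, b1, b2⟩ := hb_inn H hw
    have h1 := H.real (m / N) lam x ξ r0 r1 hI
    rw [← e1, ← e2] at h1
    refine (h N (by omega) w b1 b2 m hm _ h1).trans ?_
    apply mul_le_mul
    · apply mul_le_mul (by linarith) (pow_le_pow_right₀ (by linarith) (by omega)) (by positivity)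
        (by positivity)
    · apply Real.exp_le_exp.2
      apply mul_le_mul_of_nonneg_left _ (by linarith)
      linarith
    · exact (Real.exp_pos _).le
    · positivity
  · refine (h' N hN w ξ hw m hm).trans ?_
    apply mul_le_mul
    · apply mul_le_mul (by linarith) (pow_le_pow_right₀ (by linarith) (by omega)) (by positivity)
        (by positivity)
    · apply Real.exp_le_exp.2
      apply mul_le_mul_of_nonneg_left _ (by linarith)
      linarith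
    · exact (Real.exp_pos _).le
    · positivity

theorem hb_out {x0 : ℝ} {y t : ℂ} (H : Half x0 y t) : ∃ (C : ℝ) (K N0 : ℕ), 0 < C ∧
    ∀ N : ℕ, N0 ≤ N → ∀ (w : ℂ) (ξ : ℝ), (Nr y w ξ ∨ Wa x0 y N w ξ) →
    ∀ m : ℕ, m < N → ((m : ℝ) / N ≤ 175 / 1000 ∨ 305 / 1000 ≤ (m : ℝ) / N) →
      ‖gm N m w‖ ≤ C * N ^ K * Real.exp (N * (TP y t (m / N) ξ - 3 / 8000)) := by
  obtain ⟨C, K, hC, h⟩ := hb_core
  refine ⟨C, K, 2, hC, ?_⟩
  intro N hN w ξ hw m hm hr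
  have hNR : (2 : ℝ) ≤ N := by exact_mod_cast hN
  obtain ⟨r0, r1⟩ := hb_r hm
  obtain ⟨lam, x, hI, e1, e2, b1, b2⟩ := hb_inn H hw
  have h1 := H.realfar (m / N) lam x ξ r0 r1 hr hI
  rw [← e1, ← e2] at h1
  refine (h N hN w b1 b2 m hm _ h1).trans ?_
  apply mul_le_mul_of_nonneg_left _ (by positivity)
  apply Real.exp_le_exp.2
  apply mul_le_mul_of_nonneg_left _ (by linarith)
  linarith

theorem hb_far {x0 : ℝ} {y t : ℂ} (H : Half x0 y t) : ∃ (C : ℝ) (K N0 : ℕ), 0 < C ∧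
    ∀ N : ℕ, N0 ≤ N → ∀ (w : ℂ) (ξ : ℝ), Fa x0 N w ξ → ∀ m : ℕ, m < N →
      ‖gm N m w‖ ≤ C * N ^ K * Real.exp (N * (TP y t (m / N) ξ - 79 / 8000)) := by
  obtain ⟨C', K', hC', h'⟩ := hb_fa H
  exact ⟨C', K', 10, hC', h'⟩

end Pool.Agent.XV
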