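import Pool.Agent.XV.Cv
import Pool.Agent.XV.Qlb

/-!
# XV HN: strict concavity near the saddle point

`near_rf`: `taylor` with the base point `(y, t)`, `a = x - y.re`, `b = r - t.re`,
`c = 6 b ^ 2 + 4/5 a ^ 2`: the points `y + s a = (y.re + s a) + y.im I`, `t + s b` stay in the convex
box of `qlb` (`H.yre`, `H.yim`, `H.tre1`, `H.tre2`, `H.tim`), and in `Dom`
(`|x'| + r' ≤ 17/100 + 31/100 < 1/2`).  At the end `y + a = x + y.im I`, `t + b = r + t.im I`.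

`near_real`: the same with the base point `(y, t.re)`.

`tge_rf`: `near_rf` gives `(gam (ξ + y.im I) (r + t.im I)).re ≤ TP y t r ξ`, and `ge_real` with
`η = y.im`, `θ = t.im` (`qlb` along the segment).
-/

set_option autoImplicit false

namespace Pool.Agent.XV

open Complex Finset
open Pool.Agent.Helper9.TB Pool.Agent.Helper9.TF

/-- A point of a segment. -/
lemma HN_seg {u v s lo hi : ℝ} (hs0 : 0 ≤ s) (hs1 : s ≤ 1) (hu : lo ≤ u ∧ u ≤ hi)
    (hv : lo ≤ v ∧ v ≤ hi) : lo ≤ u + s * (v - u) ∧ u + s * (v - u) ≤ hi := by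
  obtain ⟨hu1, hu2⟩ := hu
  obtain ⟨hv1, hv2⟩ := hv
  constructor <;> nlinarith

lemma HN_dom {x η r θ : ℝ} (h1 : 17 / 100 ≤ r) (h2 : r ≤ 31 / 100) (h3 : |x| ≤ 17 / 100) :
    Dom (x + η * I) (r + θ * I) := by
  rw [abs_le] at h3
  refine ⟨?_, ?_, ?_, ?_⟩ <;> simp
  · rw [abs_lt]
    constructor <;> linarith
  · rw [abs_lt]
    constructor <;> linarith
  · linarith
  · linarith

lemma HN_abs_yim {y t : ℂ} (H : RF y t) : |y.im| ≤ 55 / 1000 := by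
  rw [abs_le]
  exact ⟨H.yim, by linarith [H.yneg]⟩

lemma HN_yre {y t : ℂ} (H : RF y t) : -(17 / 100) ≤ y.re ∧ y.re ≤ 17 / 100 := by
  have := abs_le.1 H.yre
  constructor <;> linarith [this.1, this.2]

lemma HN_tre {y t : ℂ} (H : RF y t) : 17 / 100 ≤ t.re ∧ t.re ≤ 31 / 100 :=
  ⟨by linarith [H.tre1], by linarith [H.tre2]⟩

lemma HN_tim {y t : ℂ} (H : RF y t) : |t.im| ≤ 2 / 100 := H.tim.trans (by norm_num)

lemma HN_abs_mul {s u c : ℝ} (hs0 : 0 ≤ s) (hs1 : s ≤ 1) (hu : |u| ≤ c) : |s * u| ≤ c := by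
  rw [abs_mul, abs_of_nonneg hs0]
  have := abs_nonneg u
  nlinarith

theorem near_rf {y t : ℂ} (H : RF y t) {r x : ℝ} (h1 : 17 / 100 ≤ r) (h2 : r ≤ 31 / 100)
    (h3 : |x| ≤ 17 / 100) : (gam (x + y.im * I) (r + t.im * I)).re ≤
      TP y t r x - 3 * (r - t.re) ^ 2 - 2 / 5 * (x - y.re) ^ 2 := by
  have key := taylor (y := y) (t := t) (a := x - y.re) (b := r - t.re)
    (c := 6 * (r - t.re) ^ 2 + 4 / 5 * (x - y.re) ^ 2) (fun s hs0 hs1 => by
      have e1 : y + (s : ℂ) * ((x - y.re : ℝ) : ℂ) =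
          ((y.re + s * (x - y.re) : ℝ) : ℂ) + (y.im : ℂ) * I := by
        apply Complex.ext <;> simp
      have e2 : t + (s : ℂ) * ((r - t.re : ℝ) : ℂ) =
          ((t.re + s * (r - t.re) : ℝ) : ℂ) + (t.im : ℂ) * I := by
        apply Complex.ext <;> simp
      have b1 := HN_seg hs0 hs1 (HN_yre H) (abs_le.1 h3)
      have b2 := HN_seg hs0 hs1 (HN_tre H) ⟨h1, h2⟩
      rw [e1, e2]
      exact ⟨HN_dom b2.1 b2.2 (abs_le.2 b1), qlb b2.1 b2.2 (abs_le.2 b1)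
        (HN_tim H) (HN_abs_yim H) _ _⟩)
  have e3 : y + ((x - y.re : ℝ) : ℂ) = (x : ℂ) + (y.im : ℂ) * I := by
    apply Complex.ext <;> simp
  have e4 : t + ((r - t.re : ℝ) : ℂ) = (r : ℂ) + (t.im : ℂ) * I := by
    apply Complex.ext <;> simp
  rw [e3, e4] at key
  unfold TP
  linarith

theorem near_real {y t : ℂ} (H : RF y t) {r x : ℝ} (h1 : 17 / 100 ≤ r) (h2 : r ≤ 31 / 100)
    (h3 : |x| ≤ 17 / 100) : (gam (x + y.im * I) r).re ≤
      (gam y t.re).re + (gamt y t.re).re * (r - t.re) + (gamy y t.re).re * (x - y.re) -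
        3 * (r - t.re) ^ 2 - 2 / 5 * (x - y.re) ^ 2 := by
  have key := taylor (y := y) (t := (t.re : ℂ)) (a := x - y.re) (b := r - t.re)
    (c := 6 * (r - t.re) ^ 2 + 4 / 5 * (x - y.re) ^ 2) (fun s hs0 hs1 => by
      have e1 : y + (s : ℂ) * ((x - y.re : ℝ) : ℂ) =
          ((y.re + s * (x - y.re) : ℝ) : ℂ) + (y.im : ℂ) * I := by
        apply Complex.ext <;> simp
      have e2 : (t.re : ℂ) + (s : ℂ) * ((r - t.re : ℝ) : ℂ) =
          ((t.re + s * (r - t.re) : ℝ) : ℂ) + ((0 : ℝ) : ℂ) * I := by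
        apply Complex.ext <;> simp
      have b1 := HN_seg hs0 hs1 (HN_yre H) (abs_le.1 h3)
      have b2 := HN_seg hs0 hs1 (HN_tre H) ⟨h1, h2⟩
      rw [e1, e2]
      exact ⟨HN_dom b2.1 b2.2 (abs_le.2 b1), qlb b2.1 b2.2 (abs_le.2 b1)
        (by norm_num) (HN_abs_yim H) _ _⟩)
  have e3 : y + ((x - y.re : ℝ) : ℂ) = (x : ℂ) + (y.im : ℂ) * I := by
    apply Complex.ext <;> simp
  have e4 : (t.re : ℂ) + ((r - t.re : ℝ) : ℂ) = (r : ℂ) := by
    apply Complex.ext <;> simp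
  rw [e3, e4] at key
  linarith

theorem tge_rf {y t : ℂ} (H : RF y t) {r ξ : ℝ} (h1 : 17 / 100 ≤ r) (h2 : r ≤ 31 / 100)
    (h3 : |ξ| ≤ 17 / 100) : (gam ξ r).re ≤ TP y t r ξ := by
  have k1 := near_rf H h1 h2 h3
  have k2 := ge_real (x := ξ) (r := r) (η := y.im) (θ := t.im) (fun s hs0 hs1 => by
    have e1 : (ξ : ℂ) + (s : ℂ) * ((y.im : ℂ) * I) = (ξ : ℂ) + ((s * y.im : ℝ) : ℂ) * I := by
      push_cast
      ring
    have e2 : (r : ℂ) + (s : ℂ) * ((t.im : ℂ) * I) = (r : ℂ) + ((s * t.im : ℝ) : ℂ) * I := by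
      push_cast
      ring
    rw [e1, e2]
    refine ⟨HN_dom h1 h2 h3, ?_⟩
    have q := qlb h1 h2 h3 (HN_abs_mul hs0 hs1 (HN_tim H))
      (HN_abs_mul hs0 hs1 (HN_abs_yim H)) y.im t.im
    nlinarith [sq_nonneg t.im, sq_nonneg y.im])
  nlinarith [sq_nonneg (r - t.re), sq_nonneg (ξ - y.re)]

end Pool.Agent.XV
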