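import Pool.Agent.XV.Hw

/-!
# XV HR: real values of the variable of the edge, inside the window

`real1`: `near_real`; compare its right side with `TP y t r x`.
`(gam y t.re).re ≤ (gam y t).re + |t.im| / 5`: the function `f s = (gam y (t.re + s t.im I)).re` is
convex on `[0, 1]` (`convex_im`, `qlb`), `f' 0 = - t.im (gamt y t.re).im` (`im_deriv`), so
`f 1 ≥ f 0 + f' 0`, and `H.gti`.  With `H.gtd`, `H.gyd`, `b = r - t.re`, `a = x - y.re`:
`(gam ..).re - TP y t r x ≤ 0.0135 / 5 + 0.045 |b| + 0.052 |a| - 3 b ^ 2 - 0.4 a ^ 2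
  ≤ 0.0027 + 0.045 ^ 2 / 12 + 0.052 ^ 2 / 1.6 ≤ 0.0027 + 0.00017 + 0.0017 ≤ 1/200`.

`real1e`: now `|b| ≥ 0.0505` (`0.305 - 0.2545`, `0.2335 - 0.175`), and `0.045 |b| - 3 b ^ 2` is
decreasing for `|b| ≥ 0.0075`, so it is `≤ 0.00228 - 0.00765 ≤ -0.0053`; total
`≤ 0.0027 + 0.0017 - 0.0053 ≤ -1/2000`.

`real_rf`, `reale_rf`: if `lam = 1` this is `real1`, `real1e`.  If `|x| = 17/100`:
`f lam = (gam (x + lam y.im I) r).re` is convex (`convex_im`, `qlb`), `TP` is affine in `lam`; check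
`lam = 1` (`real1`, `real1e`) and `lam = 0`: `(gam x r).re ≤ (gam x0 r).re - 1/50 ≤ TP y t r x0 - 1/50`
(`gap`, `tge_rf`).
-/

set_option autoImplicit false

namespace Pool.Agent.XV

open Complex Finset
open Pool.Agent.Helper9.TB Pool.Agent.Helper9.TF

/-- The value at the real part of the variable of the edge. -/
lemma HR_base {y t : ℂ} (H : RF y t) : (gam y t.re).re ≤ (gam y t).re + |t.im| / 5 := by
  have ey : y = (y.re : ℂ) + (y.im : ℂ) * I := (Complex.re_add_im y).symm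
  have hpt : ∀ s : ℝ, 0 ≤ s → s ≤ 1 →
      Dom (y + s * (((0 : ℝ) : ℂ) * I)) ((t.re : ℂ) + s * ((t.im : ℂ) * I)) ∧
        0 ≤ (QQ (y + s * (((0 : ℝ) : ℂ) * I)) ((t.re : ℂ) + s * ((t.im : ℂ) * I))
          ((0 : ℝ) : ℂ) (t.im : ℂ)).re := by
    intro s hs0 hs1
    have e1 : y + s * (((0 : ℝ) : ℂ) * I) = (y.re : ℂ) + (y.im : ℂ) * I := by
      rw [← ey]
      simp
    have e2 : (t.re : ℂ) + s * ((t.im : ℂ) * I) = (t.re : ℂ) + ((s * t.im : ℝ) : ℂ) * I := by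
      push_cast
      ring
    rw [e1, e2]
    have hy := abs_le.2 (HN_yre H)
    refine ⟨HN_dom (HN_tre H).1 (HN_tre H).2 hy, ?_⟩
    have q := qlb (HN_tre H).1 (HN_tre H).2 hy (HN_abs_mul hs0 hs1 (HN_tim H))
      (HN_abs_yim H) 0 t.im
    nlinarith [sq_nonneg t.im]
  have hconv := convex_im (y := y) (t := (t.re : ℂ)) (a := 0) (b := t.im) (s0 := 0) (s1 := 1)
    (fun s h0 h1 => hpt s h0 h1)
  have hd := im_deriv (y := y) (t := (t.re : ℂ)) (a := 0) (b := t.im) (s := 0)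
    (hpt 0 le_rfl zero_le_one).1
  have h1 := hconv.le_slope_of_hasDerivAt (x := 0) (y := 1) ⟨le_rfl, zero_le_one⟩
    ⟨zero_le_one, le_rfl⟩ zero_lt_one hd
  rw [slope_def_field] at h1
  have e3 : (t.re : ℂ) + (t.im : ℂ) * I = t := Complex.re_add_im t
  simp only [Complex.ofReal_zero, zero_mul, mul_zero, add_zero, Complex.ofReal_one, one_mul,
    sub_zero, div_one, zero_add, e3] at h1
  have h2 : (gamt y t.re * (t.im : ℂ)).im = (gamt y t.re).im * t.im := by simp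
  rw [h2] at h1
  have h3 : (gamt y t.re).im * t.im ≤ 1 / 5 * |t.im| := by
    calc (gamt y t.re).im * t.im ≤ |(gamt y t.re).im * t.im| := le_abs_self _
      _ = |(gamt y t.re).im| * |t.im| := abs_mul _ _
      _ ≤ 1 / 5 * |t.im| := mul_le_mul_of_nonneg_right H.gti (abs_nonneg _)
  linarith

/-- The difference with the tangent plane. -/
lemma HR_diff {y t : ℂ} (H : RF y t) {r x : ℝ} (h1 : 17 / 100 ≤ r) (h2 : r ≤ 31 / 100)
    (h3 : |x| ≤ 17 / 100) : (gam (x + y.im * I) r).re ≤ TP y t r x + 27 / 10000 +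
      45 / 1000 * |r - t.re| + 52 / 1000 * |x - y.re| - 3 * |r - t.re| ^ 2 -
        2 / 5 * |x - y.re| ^ 2 := by
  have k1 := near_real H h1 h2 h3
  have k2 := HR_base H
  have k3 : ((gamt y t.re).re - (gamt y t).re) * (r - t.re) ≤ 45 / 1000 * |r - t.re| := by
    calc ((gamt y t.re).re - (gamt y t).re) * (r - t.re)
        ≤ |((gamt y t.re).re - (gamt y t).re) * (r - t.re)| := le_abs_self _
      _ = |(gamt y t.re).re - (gamt y t).re| * |r - t.re| := abs_mul _ _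
      _ ≤ 45 / 1000 * |r - t.re| := by
        refine mul_le_mul_of_nonneg_right ?_ (abs_nonneg _)
        rw [abs_sub_comm]
        exact H.gtd.trans (by norm_num)
  have k4 : ((gamy y t.re).re - (gamy y t).re) * (x - y.re) ≤ 52 / 1000 * |x - y.re| := by
    calc ((gamy y t.re).re - (gamy y t).re) * (x - y.re)
        ≤ |((gamy y t.re).re - (gamy y t).re) * (x - y.re)| := le_abs_self _
      _ = |(gamy y t.re).re - (gamy y t).re| * |x - y.re| := abs_mul _ _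
      _ ≤ 52 / 1000 * |x - y.re| := by
        refine mul_le_mul_of_nonneg_right ?_ (abs_nonneg _)
        rw [abs_sub_comm]
        exact H.gyd
  have k5 := H.tim
  rw [sq_abs, sq_abs]
  unfold TP
  nlinarith

theorem real1 {y t : ℂ} (H : RF y t) {r x : ℝ} (h1 : 17 / 100 ≤ r) (h2 : r ≤ 31 / 100)
    (h3 : |x| ≤ 17 / 100) : (gam (x + y.im * I) r).re ≤ TP y t r x + 1 / 200 := by
  have k := HR_diff H h1 h2 h3
  nlinarith [sq_nonneg (|r - t.re| - 75 / 10000), sq_nonneg (|x - y.re| - 65 / 1000)]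

theorem real1e {y t : ℂ} (H : RF y t) {r x : ℝ} (h1 : 17 / 100 ≤ r) (h2 : r ≤ 31 / 100)
    (he : r ≤ 175 / 1000 ∨ 305 / 1000 ≤ r) (h3 : |x| ≤ 17 / 100) :
    (gam (x + y.im * I) r).re ≤ TP y t r x - 1 / 2000 := by
  have k := HR_diff H h1 h2 h3
  have k1 : 505 / 10000 ≤ |r - t.re| := by
    rcases he with he | he
    · rw [abs_of_nonpos (by linarith [H.tre1])]
      linarith [H.tre1]
    · rw [abs_of_nonneg (by linarith [H.tre2])]
      linarith [H.tre2]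
  have k2 : 45 / 1000 * |r - t.re| - 3 * |r - t.re| ^ 2 ≤ -(537 / 100000) := by nlinarith
  nlinarith [sq_nonneg (|x - y.re| - 65 / 1000)]

/-- The walls. -/
lemma HR_wall {y t : ℂ} (H : RF y t) {x0 r lam x ξ c : ℝ} (hx0 : |x0| ≤ 1 / 10)
    (h1 : 17 / 100 ≤ r) (h2 : r ≤ 31 / 100) (hI : Inn x0 lam x ξ) (hc : -(1 / 50) ≤ c)
    (hx1 : (gam (x + y.im * I) r).re ≤ TP y t r x + c) :
    (gam (x + (lam * y.im : ℝ) * I) r).re ≤ TP y t r ξ + c := by
  rcases hI.or with hl | hx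
  · have e : ξ = x := by
      rw [hI.eq, hl]
      ring
    rw [e, hl, one_mul]
    exact hx1
  · have hpt : ∀ s : ℝ, 0 ≤ s → s ≤ 1 →
        Dom ((x : ℂ) + s * ((y.im : ℂ) * I)) ((r : ℂ) + s * (((0 : ℝ) : ℂ) * I)) ∧
          0 ≤ (QQ ((x : ℂ) + s * ((y.im : ℂ) * I)) ((r : ℂ) + s * (((0 : ℝ) : ℂ) * I))
            (y.im : ℂ) ((0 : ℝ) : ℂ)).re := by
      intro s hs0 hs1
      have e1 : (x : ℂ) + s * ((y.im : ℂ) * I) = (x : ℂ) + ((s * y.im : ℝ) : ℂ) * I := by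
        push_cast
        ring
      have e2 : (r : ℂ) + s * (((0 : ℝ) : ℂ) * I) = (r : ℂ) + ((0 : ℝ) : ℂ) * I := by simp
      rw [e1, e2]
      refine ⟨HN_dom h1 h2 hI.x1, ?_⟩
      have q := qlb h1 h2 hI.x1 (θ := 0) (by norm_num) (HN_abs_mul hs0 hs1 (HN_abs_yim H))
        y.im 0
      nlinarith [sq_nonneg y.im]
    have hconv := convex_im (y := (x : ℂ)) (t := (r : ℂ)) (a := y.im) (b := 0) (s0 := 0)
      (s1 := 1) (fun s h0 h1 => hpt s h0 h1)
    have k := hconv.2 (show (0 : ℝ) ∈ Set.Icc (0 : ℝ) 1 from ⟨le_rfl, zero_le_one⟩)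
      (show (1 : ℝ) ∈ Set.Icc (0 : ℝ) 1 from ⟨zero_le_one, le_rfl⟩)
      (show (0 : ℝ) ≤ 1 - lam by linarith [hI.l1]) hI.l0 (by ring)
    simp only [smul_eq_mul, mul_zero, mul_one, zero_add, Complex.ofReal_zero, zero_mul, add_zero,
      Complex.ofReal_one, one_mul] at k
    have e3 : (x : ℂ) + ((lam * y.im : ℝ) : ℂ) * I = (x : ℂ) + (lam : ℂ) * ((y.im : ℂ) * I) := by
      push_cast
      ring
    rw [e3]
    have g1 := gap h1 h2 hx0 hx
    have g2 := tge_rf H h1 h2 (ξ := x0) (hx0.trans (by norm_num))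
    have g3 : TP y t r ξ = (1 - lam) * TP y t r x0 + lam * TP y t r x := by
      rw [hI.eq]
      unfold TP
      ring
    rw [g3]
    have g4 : (1 - lam) * (gam x r).re ≤ (1 - lam) * (TP y t r x0 + c) :=
      mul_le_mul_of_nonneg_left (by linarith) (by linarith [hI.l1])
    have g5 : lam * (gam (x + y.im * I) r).re ≤ lam * (TP y t r x + c) :=
      mul_le_mul_of_nonneg_left hx1 hI.l0
    linarith

theorem real_rf {y t : ℂ} (H : RF y t) {x0 r lam x ξ : ℝ} (hx0 : |x0| ≤ 1 / 10)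
    (h1 : 17 / 100 ≤ r) (h2 : r ≤ 31 / 100) (hI : Inn x0 lam x ξ) :
    (gam (x + (lam * y.im : ℝ) * I) r).re ≤ TP y t r ξ + 1 / 200 :=
  HR_wall H hx0 h1 h2 hI (by norm_num) (real1 H h1 h2 hI.x1)

theorem reale_rf {y t : ℂ} (H : RF y t) {x0 r lam x ξ : ℝ} (hx0 : |x0| ≤ 1 / 10)
    (h1 : 17 / 100 ≤ r) (h2 : r ≤ 31 / 100) (he : r ≤ 175 / 1000 ∨ 305 / 1000 ≤ r)
    (hI : Inn x0 lam x ξ) :
    (gam (x + (lam * y.im : ℝ) * I) r).re ≤ TP y t r ξ - 1 / 2000 := by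
  have := HR_wall H hx0 h1 h2 hI (c := -(1 / 2000)) (by norm_num)
    (by linarith [real1e H h1 h2 he hI.x1])
  linarith

end Pool.Agent.XV
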