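import Pool.Agent.XV.Defs

/-!
# XV TN: real and imaginary parts of `tan` and `cot`

`tan (α + i β) = sin (α + i β) cos (α - i β) / (cos (α + i β) cos (α - i β))`, with
`2 cos (α + i β) cos (α - i β) = cos 2α + cosh 2β` and
`2 sin (α + i β) cos (α - i β) = sin 2α + i sinh 2β`; if the denominator is `0` both sides are `0`
(division by zero; check: then `cosh 2β = 1`, `cos 2α = -1`, `β = 0`, `cos α = 0`).
The same for `cot` with `2 sin (α + i β) sin (α - i β) = cosh 2β - cos 2α`.
-/

set_option autoImplicit false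

namespace Pool.Agent.XV

open Complex Finset

theorem TN_sin (α β : ℝ) : Complex.sin (α + β * I) =
    ((Real.sin α * Real.cosh β : ℝ) : ℂ) + ((Real.cos α * Real.sinh β : ℝ) : ℂ) * I := by
  rw [Complex.sin_add_mul_I]
  push_cast
  ring

theorem TN_cos (α β : ℝ) : Complex.cos (α + β * I) =
    ((Real.cos α * Real.cosh β : ℝ) : ℂ) + ((-(Real.sin α * Real.sinh β) : ℝ) : ℂ) * I := by
  rw [Complex.cos_add_mul_I]
  push_cast
  ring

theorem TN_sin_re (α β : ℝ) : (Complex.sin (α + β * I)).re = Real.sin α * Real.cosh β := by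
  rw [TN_sin, Complex.add_re, Complex.ofReal_re, Complex.re_ofReal_mul, Complex.I_re, mul_zero,
    add_zero]

theorem TN_sin_im (α β : ℝ) : (Complex.sin (α + β * I)).im = Real.cos α * Real.sinh β := by
  rw [TN_sin, Complex.add_im, Complex.ofReal_im, Complex.im_ofReal_mul, Complex.I_im, mul_one,
    zero_add]

theorem TN_cos_re (α β : ℝ) : (Complex.cos (α + β * I)).re = Real.cos α * Real.cosh β := by
  rw [TN_cos, Complex.add_re, Complex.ofReal_re, Complex.re_ofReal_mul, Complex.I_re, mul_zero,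
    add_zero]

theorem TN_cos_im (α β : ℝ) : (Complex.cos (α + β * I)).im = -(Real.sin α * Real.sinh β) := by
  rw [TN_cos, Complex.add_im, Complex.ofReal_im, Complex.im_ofReal_mul, Complex.I_im, mul_one,
    zero_add]

theorem TN_nsc (α β : ℝ) : Complex.normSq (Complex.cos (α + β * I)) =
    (Real.cos (2 * α) + Real.cosh (2 * β)) / 2 := by
  rw [Complex.normSq_apply, TN_cos_re, TN_cos_im, Real.cos_two_mul, Real.cosh_two_mul]
  have h1 := Real.cosh_sq β
  have h2 := Real.sin_sq_add_cos_sq α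
  have h3 : Real.sin α ^ 2 = 1 - Real.cos α ^ 2 := by linarith
  have h4 : Real.cos α * Real.cosh β * (Real.cos α * Real.cosh β) +
      -(Real.sin α * Real.sinh β) * -(Real.sin α * Real.sinh β) =
      Real.cos α ^ 2 * Real.cosh β ^ 2 + Real.sin α ^ 2 * Real.sinh β ^ 2 := by ring
  rw [h4, h3, h1]
  ring

theorem TN_nss (α β : ℝ) : Complex.normSq (Complex.sin (α + β * I)) =
    (Real.cosh (2 * β) - Real.cos (2 * α)) / 2 := by
  rw [Complex.normSq_apply, TN_sin_re, TN_sin_im, Real.cos_two_mul, Real.cosh_two_mul]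
  have h1 := Real.cosh_sq β
  have h2 := Real.sin_sq_add_cos_sq α
  have h3 : Real.sin α ^ 2 = 1 - Real.cos α ^ 2 := by linarith
  have h4 : Real.sin α * Real.cosh β * (Real.sin α * Real.cosh β) +
      Real.cos α * Real.sinh β * (Real.cos α * Real.sinh β) =
      Real.sin α ^ 2 * Real.cosh β ^ 2 + Real.cos α ^ 2 * Real.sinh β ^ 2 := by ring
  rw [h4, h3, h1]
  ring

theorem TN_div (a D : ℝ) (A : ℝ) (h : 2 * a = A) : a / (D / 2) = A / D := by
  rw [← h, div_div_eq_mul_div]
  ring

theorem tan_re (α β : ℝ) : (Complex.tan (α + β * I)).re =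
    Real.sin (2 * α) / (Real.cos (2 * α) + Real.cosh (2 * β)) := by
  rw [Complex.tan, Complex.div_re, ← add_div, TN_nsc, TN_sin_re, TN_sin_im, TN_cos_re, TN_cos_im]
  refine TN_div _ _ _ ?_
  rw [Real.sin_two_mul]
  have h1 := Real.cosh_sq β
  linear_combination (2 * Real.sin α * Real.cos α) * h1

theorem tan_im (α β : ℝ) : (Complex.tan (α + β * I)).im =
    Real.sinh (2 * β) / (Real.cos (2 * α) + Real.cosh (2 * β)) := by
  rw [Complex.tan, Complex.div_im, ← sub_div, TN_nsc, TN_sin_re, TN_sin_im, TN_cos_re, TN_cos_im]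
  refine TN_div _ _ _ ?_
  rw [Real.sinh_two_mul]
  have h2 := Real.sin_sq_add_cos_sq α
  linear_combination (2 * Real.sinh β * Real.cosh β) * h2

theorem cot_re (α β : ℝ) : (Complex.cot (α + β * I)).re =
    Real.sin (2 * α) / (Real.cosh (2 * β) - Real.cos (2 * α)) := by
  rw [Complex.cot, Complex.div_re, ← add_div, TN_nss, TN_sin_re, TN_sin_im, TN_cos_re, TN_cos_im]
  refine TN_div _ _ _ ?_
  rw [Real.sin_two_mul]
  have h1 := Real.cosh_sq β
  linear_combination (2 * Real.sin α * Real.cos α) * h1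

theorem cot_im (α β : ℝ) : (Complex.cot (α + β * I)).im =
    -(Real.sinh (2 * β) / (Real.cosh (2 * β) - Real.cos (2 * α))) := by
  rw [Complex.cot, Complex.div_im, ← sub_div, TN_nss, TN_sin_re, TN_sin_im, TN_cos_re, TN_cos_im,
    ← neg_div]
  refine TN_div _ _ _ ?_
  rw [Real.sinh_two_mul]
  have h2 := Real.sin_sq_add_cos_sq α
  linear_combination (-2 * Real.sinh β * Real.cosh β) * h2

end Pool.Agent.XV
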