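import Pool.Agent.XV.Cv
import Pool.Agent.XV.Tn

/-!
# XV IMB: the imaginary part of `gamt`

`gamt y t = cc (t + y) + cc (t - y) - 2 cc (t - 1/2)`, `cc u = log (2 cos π u)`, and for
`|α| < π / 2`: `arg (cos (α + i β)) = - arctan (tan α tanh β)`.

`imb`: `|θ ± η| ≤ 0.115`, `tanh (0.115 π) ≤ 0.347`.  One of `|r + x|`, `|r - x|` is `≤ r ≤ 31/100`,
`tan (0.31 π) ≤ 1.473`, so its argument is at most `arctan (0.512) ≤ 0.474`; the other one is less
than `π / 2`; and `2 arctan (tan (0.33 π) tanh (0.06 π)) ≤ 2 * 1.692 * 0.187 ≤ 0.633`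
(`t - 1/2` has real part in `[-0.33, -0.19]`).  Sum `≤ 1.571 + 0.474 + 0.633 < 3`.
(Without explicit arguments: `|arg w| ≤ |tan (arg w)| = |w.im| / w.re`.)

`imb_line`: `im_deriv` with `a = 0`, `b = 1` and `imb`; mean value inequality.
-/

set_option autoImplicit false

namespace Pool.Agent.XV

open Complex Finset
open Pool.Agent.Helper9.TB Pool.Agent.Helper9.TF

private lemma imb_arg {w : ℂ} (hw : 0 < w.re) : |w.arg| ≤ |w.im| / w.re := by
  have h1 : |w.arg| < Real.pi / 2 := abs_arg_lt_pi_div_two_iff.2 (Or.inl hw)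
  have h2 := Complex.tan_arg w
  rcases le_or_gt 0 w.arg with h | h
  · rw [abs_of_nonneg h] at h1 ⊢
    have h3 := Real.le_tan h h1
    rw [h2] at h3
    refine h3.trans ?_
    exact div_le_div_of_nonneg_right (le_abs_self _) hw.le
  · rw [abs_of_neg h] at h1 ⊢
    have h3 := Real.le_tan (x := -w.arg) (by linarith) h1
    rw [Real.tan_neg, h2, ← neg_div] at h3
    refine h3.trans ?_
    exact div_le_div_of_nonneg_right (neg_le_abs _) hw.le

private lemma imb_cos (a b : ℝ) : (2 * Complex.cos (Real.pi * (a + b * I))).re =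
      2 * (Real.cos (Real.pi * a) * Real.cosh (Real.pi * b)) ∧
    (2 * Complex.cos (Real.pi * (a + b * I))).im =
      -(2 * (Real.sin (Real.pi * a) * Real.sinh (Real.pi * b))) := by
  have e : (Real.pi : ℂ) * (a + b * I) = ((Real.pi * a : ℝ) : ℂ) + ((Real.pi * b : ℝ) : ℂ) * I := by
    push_cast; ring
  have e2 : 2 * Complex.cos (Real.pi * (a + b * I)) =
      ((2 * (Real.cos (Real.pi * a) * Real.cosh (Real.pi * b)) : ℝ) : ℂ) +
      ((-(2 * (Real.sin (Real.pi * a) * Real.sinh (Real.pi * b))) : ℝ) : ℂ) * I := by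
    rw [e, Complex.cos_add_mul_I, ← Complex.ofReal_cos, ← Complex.ofReal_cosh,
      ← Complex.ofReal_sin, ← Complex.ofReal_sinh]
    push_cast
    ring
  rw [e2]
  constructor
  · rw [Complex.add_re, Complex.ofReal_re, Complex.re_ofReal_mul, Complex.I_re, mul_zero, add_zero]
  · rw [Complex.add_im, Complex.ofReal_im, Complex.im_ofReal_mul, Complex.I_im, mul_one, zero_add]

private lemma imb_cospos {a : ℝ} (ha : |a| < 1 / 2) : 0 < Real.cos (Real.pi * a) := by
  have hpi := Real.pi_pos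
  have h := abs_lt.1 ha
  apply Real.cos_pos_of_mem_Ioo
  constructor <;> nlinarith [h.1, h.2]

private lemma imb_re {a : ℝ} (ha : |a| < 1 / 2) (b : ℝ) :
    0 < (2 * Complex.cos (Real.pi * (a + b * I))).re := by
  rw [(imb_cos a b).1]
  have := imb_cospos ha
  have := Real.cosh_pos (Real.pi * b)
  positivity

private lemma imb_one {a : ℝ} (ha : |a| < 1 / 2) (b : ℝ) :
    |(cc (a + b * I)).im| ≤ Real.pi / 2 := by
  unfold cc
  rw [Complex.log_im]
  exact abs_arg_le_pi_div_two_iff.2 (imb_re ha b).le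

private lemma imb_sinh (v : ℝ) : |Real.sinh v| ≤ |v| * Real.cosh v := by
  rcases le_or_gt 0 v with h | h
  · rw [abs_of_nonneg (Real.sinh_nonneg_iff.2 h), abs_of_nonneg h]
    exact Pool.Agent.Helper48.QD.sinh_le_mul_cosh h
  · have h1 := Pool.Agent.Helper48.QD.sinh_le_mul_cosh (t := -v) (by linarith)
    rw [Real.sinh_neg, Real.cosh_neg] at h1
    rw [abs_of_neg (Real.sinh_neg_iff.2 h), abs_of_neg h]
    exact h1

/-- for `|a| ≤ 1 / 3` -/
private lemma imb_two {a : ℝ} (ha : |a| ≤ 1 / 3) (b : ℝ) :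
    |(cc (a + b * I)).im| ≤ 17321 / 10000 * (Real.pi * |b|) := by
  have hpi := Real.pi_pos
  have ha' : |a| < 1 / 2 := by linarith
  unfold cc
  rw [Complex.log_im]
  refine (imb_arg (imb_re ha' b)).trans ?_
  rw [div_le_iff₀ (imb_re ha' b), (imb_cos a b).1, (imb_cos a b).2, abs_neg, abs_mul, abs_mul,
    abs_two]
  have hc := Real.cosh_pos (Real.pi * b)
  have h1 := imb_sinh (Real.pi * b)
  rw [abs_mul, abs_of_pos hpi] at h1
  -- `|sin (π a)| ≤ √3 cos (π a)`
  have h2 : |Real.sin (Real.pi * a)| ≤ 17321 / 10000 * Real.cos (Real.pi * a) := by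
    have h3 : Real.cos (Real.pi / 3) ≤ Real.cos (Real.pi * a) := by
      rw [← Real.cos_abs (Real.pi * a), abs_mul, abs_of_pos hpi]
      apply Real.cos_le_cos_of_nonneg_of_le_pi (by positivity) (by linarith)
      nlinarith
    rw [Real.cos_pi_div_three] at h3
    have h4 := Real.sin_sq_add_cos_sq (Real.pi * a)
    apply abs_le_of_sq_le_sq _ (by linarith)
    nlinarith
  have h5 := abs_nonneg (Real.sin (Real.pi * a))
  have h6 := abs_nonneg (Real.sinh (Real.pi * b))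
  have h7 : |Real.sin (Real.pi * a)| * |Real.sinh (Real.pi * b)| ≤
      17321 / 10000 * Real.cos (Real.pi * a) * (Real.pi * |b| * Real.cosh (Real.pi * b)) :=
    mul_le_mul h2 h1 h6 (by have := imb_cospos ha'; positivity)
  linarith

theorem imb {r θ x η : ℝ} (h1 : 17 / 100 ≤ r) (h2 : r ≤ 31 / 100) (h3 : |x| ≤ 17 / 100)
    (h4 : |θ| ≤ 6 / 100) (h5 : |η| ≤ 55 / 1000) :
    |(gamt (x + η * I) (r + θ * I)).im| ≤ 3 := by
  have hpi := Real.pi_pos
  have hpi2 := Real.pi_lt_d2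
  have hx := abs_le.1 h3
  have hadd : |θ + η| ≤ 115 / 1000 := (abs_add_le θ η).trans (by linarith)
  have hsub : |θ - η| ≤ 115 / 1000 := (abs_sub θ η).trans (by linarith)
  have e1 : (r + θ * I : ℂ) + (x + η * I) = ((r + x : ℝ) : ℂ) + ((θ + η : ℝ) : ℂ) * I := by
    push_cast; ring
  have e2 : (r + θ * I : ℂ) - (x + η * I) = ((r - x : ℝ) : ℂ) + ((θ - η : ℝ) : ℂ) * I := by
    push_cast; ring
  have e3 : (r + θ * I : ℂ) - 1 / 2 = ((r - 1 / 2 : ℝ) : ℂ) + (θ : ℂ) * I := by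
    push_cast; ring
  unfold gamt
  rw [e1, e2, e3]
  have k3 : |(cc (((r - 1 / 2 : ℝ) : ℂ) + (θ : ℂ) * I)).im| ≤
      17321 / 10000 * (Real.pi * |θ|) := by
    apply imb_two
    rw [abs_le]
    constructor <;> linarith
  have k3' : |(cc (((r - 1 / 2 : ℝ) : ℂ) + (θ : ℂ) * I)).im| ≤
      17321 / 10000 * (Real.pi * (6 / 100)) := by
    refine k3.trans ?_
    gcongr
  have key : |(cc (((r + x : ℝ) : ℂ) + ((θ + η : ℝ) : ℂ) * I)).im| +
      |(cc (((r - x : ℝ) : ℂ) + ((θ - η : ℝ) : ℂ) * I)).im| ≤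
      Real.pi / 2 + 17321 / 10000 * (Real.pi * (115 / 1000)) := by
    rcases le_or_gt 0 x with h | h
    · have a1 := imb_one (a := r + x) (by rw [abs_lt]; constructor <;> linarith) (θ + η)
      have a2 := imb_two (a := r - x) (by rw [abs_le]; constructor <;> linarith) (θ - η)
      have a3 : 17321 / 10000 * (Real.pi * |θ - η|) ≤ 17321 / 10000 * (Real.pi * (115 / 1000)) := by
        gcongr
      linarith
    · have a1 := imb_one (a := r - x) (by rw [abs_lt]; constructor <;> linarith) (θ - η)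
      have a2 := imb_two (a := r + x) (by rw [abs_le]; constructor <;> linarith) (θ + η)
      have a3 : 17321 / 10000 * (Real.pi * |θ + η|) ≤ 17321 / 10000 * (Real.pi * (115 / 1000)) := by
        gcongr
      linarith
  set A := cc (((r + x : ℝ) : ℂ) + ((θ + η : ℝ) : ℂ) * I) with hA
  set B := cc (((r - x : ℝ) : ℂ) + ((θ - η : ℝ) : ℂ) * I) with hB
  set C := cc (((r - 1 / 2 : ℝ) : ℂ) + (θ : ℂ) * I) with hC
  have e4 : (A + B - 2 * C).im = A.im + B.im - 2 * C.im := by simp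
  rw [e4]
  have b1 := abs_le.1 (le_refl |A.im|)
  have b2 := abs_le.1 (le_refl |B.im|)
  have b3 := abs_le.1 (le_refl |C.im|)
  rw [abs_le]
  constructor <;> linarith [b1.1, b1.2, b2.1, b2.2, b3.1, b3.2]

theorem imb_line {r θ x η : ℝ} (h1 : 17 / 100 ≤ r) (h2 : r ≤ 31 / 100) (h3 : |x| ≤ 17 / 100)
    (h4 : |θ| ≤ 6 / 100) (h5 : |η| ≤ 55 / 1000) :
    (gam (x + η * I) (r + θ * I)).re ≤ (gam (x + η * I) r).re + 3 * |θ| := by
  have hx := abs_le.1 h3
  set f : ℝ → ℝ := fun s : ℝ =>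
    (gam ((x + η * I) + s * (((0 : ℝ) : ℂ) * I)) ((r : ℂ) + s * ((θ : ℂ) * I))).re with hf
  have hd : ∀ s ∈ Set.Icc (0 : ℝ) 1, HasDerivWithinAt f
      (-(gamy ((x + η * I) + s * (((0 : ℝ) : ℂ) * I)) ((r : ℂ) + s * ((θ : ℂ) * I)) * (0 : ℝ) +
        gamt ((x + η * I) + s * (((0 : ℝ) : ℂ) * I)) ((r : ℂ) + s * ((θ : ℂ) * I)) * θ).im)
      (Set.Icc 0 1) s := by
    intro s hs
    refine (im_deriv ⟨?_, ?_, ?_, ?_⟩).hasDerivWithinAt
    · simp only [add_re, sub_re, mul_re, ofReal_re, I_re, ofReal_im, I_im, mul_im]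
      rw [abs_lt]
      constructor <;> linarith
    · simp only [add_re, sub_re, mul_re, ofReal_re, I_re, ofReal_im, I_im, mul_im]
      rw [abs_lt]
      constructor <;> linarith
    · simp only [add_re, sub_re, mul_re, ofReal_re, I_re, ofReal_im, I_im, mul_im]
      linarith
    · simp only [add_re, sub_re, mul_re, ofReal_re, I_re, ofReal_im, I_im, mul_im]
      linarith
  have hb : ∀ s ∈ Set.Icc (0 : ℝ) 1,
      ‖-(gamy ((x + η * I) + s * (((0 : ℝ) : ℂ) * I)) ((r : ℂ) + s * ((θ : ℂ) * I)) * (0 : ℝ) +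
        gamt ((x + η * I) + s * (((0 : ℝ) : ℂ) * I)) ((r : ℂ) + s * ((θ : ℂ) * I)) * θ).im‖ ≤
      3 * |θ| := by
    intro s hs
    have e1 : (x + η * I : ℂ) + s * (((0 : ℝ) : ℂ) * I) = x + η * I := by push_cast; ring
    have e2 : (r : ℂ) + s * ((θ : ℂ) * I) = r + ((s * θ : ℝ) : ℂ) * I := by push_cast; ring
    rw [e1, e2, Complex.ofReal_zero, mul_zero, zero_add, Complex.im_mul_ofReal, norm_neg, norm_mul,
      Real.norm_eq_abs, Real.norm_eq_abs]
    have h6 : |s * θ| ≤ 6 / 100 := by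
      rw [abs_mul, abs_of_nonneg hs.1]
      have := abs_nonneg θ
      nlinarith [hs.2]
    exact mul_le_mul_of_nonneg_right (imb h1 h2 h3 h6 h5) (abs_nonneg _)
  have h6 := (convex_Icc (0 : ℝ) 1).norm_image_sub_le_of_norm_hasDerivWithin_le hd hb
    (x := 0) (y := 1) (by simp) (by simp)
  have e0 : f 0 = (gam (x + η * I) r).re := by
    simp only [hf]
    congr 2 <;> (push_cast; ring)
  have e1 : f 1 = (gam (x + η * I) (r + θ * I)).re := by
    simp only [hf]
    congr 2 <;> (push_cast; ring)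
  rw [e0, e1, Real.norm_eq_abs] at h6
  have h7 := (le_abs_self _).trans h6
  have e2 : ‖(1 : ℝ) - 0‖ = 1 := by simp
  rw [e2, mul_one] at h7
  linarith

end Pool.Agent.XV
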