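import Pool.Agent.XV.Hr
import Pool.Agent.XV.Imb

/-!
# XV HS: the sides of the window

`|lam y.im| ≤ 55/1000`.

`side_rf`: `imb_line` and `real_rf`: `≤ TP + 1/200 + 3 * 6/100 = TP + 0.185`, and
`π * 6/100 - 1/2000 ≥ 0.1879`.

`vert_rf`: `imb_line` and `reale_rf`: `≤ TP - 1/2000 + 3 |θ|`, `3 ≤ π`.

`vert0_rf`: `f κ = (gam (x + lam y.im I) (r + κ t.im I)).re` is convex on `[0, 1]` (`convex_im` with
`a = 0`, `b = t.im`, `qlb`), `f 0 ≤ TP y t r ξ - 1/2000` (`reale_rf`), and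
`f 1 ≤ TP y t r ξ - 1/2000`: if `|x| = 17/100` by `wall_rf`, if `lam = 1` by `near_rf` (`ξ = x`,
`3 (r - t.re) ^ 2 ≥ 3 * 0.0505 ^ 2`).
-/

set_option autoImplicit false

namespace Pool.Agent.XV

open Complex Finset
open Pool.Agent.Helper9.TB Pool.Agent.Helper9.TF

theorem side_rf {y t : ℂ} (H : RF y t) {x0 r θ lam x ξ : ℝ} (hx0 : |x0| ≤ 1 / 10)
    (h1 : 17 / 100 ≤ r) (h2 : r ≤ 31 / 100) (hθ : |θ| = 6 / 100) (hI : Inn x0 lam x ξ) :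
    (gam (x + (lam * y.im : ℝ) * I) (r + θ * I)).re ≤
      TP y t r ξ + Real.pi * |θ| - 1 / 2000 := by
  have k1 := imb_line h1 h2 hI.x1 hθ.le (HN_abs_mul hI.l0 hI.l1 (HN_abs_yim H))
  have k2 := real_rf H hx0 h1 h2 hI
  have k3 := Real.pi_gt_d2
  rw [hθ] at k1 ⊢
  linarith

theorem vert_rf {y t : ℂ} (H : RF y t) {x0 r θ lam x ξ : ℝ} (hx0 : |x0| ≤ 1 / 10)
    (h1 : 17 / 100 ≤ r) (h2 : r ≤ 31 / 100) (he : r ≤ 175 / 1000 ∨ 305 / 1000 ≤ r)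
    (hθ : |θ| ≤ 6 / 100) (hI : Inn x0 lam x ξ) :
    (gam (x + (lam * y.im : ℝ) * I) (r + θ * I)).re ≤
      TP y t r ξ + Real.pi * |θ| - 1 / 2000 := by
  have k1 := imb_line h1 h2 hI.x1 hθ (HN_abs_mul hI.l0 hI.l1 (HN_abs_yim H))
  have k2 := reale_rf H hx0 h1 h2 he hI
  have k3 : 3 * |θ| ≤ Real.pi * |θ| :=
    mul_le_mul_of_nonneg_right Real.pi_gt_three.le (abs_nonneg _)
  linarith

theorem vert0_rf {y t : ℂ} (H : RF y t) {x0 r κ lam x ξ : ℝ} (hx0 : |x0| ≤ 1 / 10)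
    (h1 : 17 / 100 ≤ r) (h2 : r ≤ 31 / 100) (he : r ≤ 175 / 1000 ∨ 305 / 1000 ≤ r)
    (k0 : 0 ≤ κ) (k1 : κ ≤ 1) (hI : Inn x0 lam x ξ) :
    (gam (x + (lam * y.im : ℝ) * I) (r + (κ * t.im : ℝ) * I)).re ≤ TP y t r ξ - 1 / 2000 := by
  set z : ℂ := x + (lam * y.im : ℝ) * I with hz
  have hpt : ∀ s : ℝ, 0 ≤ s → s ≤ 1 →
      Dom (z + s * (((0 : ℝ) : ℂ) * I)) ((r : ℂ) + s * ((t.im : ℂ) * I)) ∧
        0 ≤ (QQ (z + s * (((0 : ℝ) : ℂ) * I)) ((r : ℂ) + s * ((t.im : ℂ) * I))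
          ((0 : ℝ) : ℂ) (t.im : ℂ)).re := by
    intro s hs0 hs1
    have e1 : z + s * (((0 : ℝ) : ℂ) * I) = (x : ℂ) + ((lam * y.im : ℝ) : ℂ) * I := by
      rw [hz]
      simp
    have e2 : (r : ℂ) + s * ((t.im : ℂ) * I) = (r : ℂ) + ((s * t.im : ℝ) : ℂ) * I := by
      push_cast
      ring
    rw [e1, e2]
    refine ⟨HN_dom h1 h2 hI.x1, ?_⟩
    have q := qlb h1 h2 hI.x1 (HN_abs_mul hs0 hs1 (HN_tim H))
      (HN_abs_mul hI.l0 hI.l1 (HN_abs_yim H)) 0 t.im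
    nlinarith [sq_nonneg t.im]
  have hconv := convex_im (y := z) (t := (r : ℂ)) (a := 0) (b := t.im) (s0 := 0) (s1 := 1)
    (fun s h0 h1 => hpt s h0 h1)
  have k := hconv.2 (show (0 : ℝ) ∈ Set.Icc (0 : ℝ) 1 from ⟨le_rfl, zero_le_one⟩)
    (show (1 : ℝ) ∈ Set.Icc (0 : ℝ) 1 from ⟨zero_le_one, le_rfl⟩)
    (show (0 : ℝ) ≤ 1 - κ by linarith) k0 (by ring)
  simp only [smul_eq_mul, mul_zero, mul_one, zero_add, Complex.ofReal_zero, zero_mul, add_zero,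
    Complex.ofReal_one, one_mul] at k
  have e3 : (r : ℂ) + ((κ * t.im : ℝ) : ℂ) * I = (r : ℂ) + (κ : ℂ) * ((t.im : ℂ) * I) := by
    push_cast
    ring
  rw [e3]
  have g1 : (gam z r).re ≤ TP y t r ξ - 1 / 2000 := reale_rf H hx0 h1 h2 he hI
  have g2 : (gam z (r + t.im * I)).re ≤ TP y t r ξ - 1 / 2000 := by
    rcases hI.or with hl | hx
    · have e : ξ = x := by
        rw [hI.eq, hl]
        ring
      have k2 := near_rf H h1 h2 hI.x1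
      rw [hz, e, hl, one_mul]
      have k3 : (505 / 10000) ^ 2 ≤ (r - t.re) ^ 2 := by
        rcases he with he | he
        · nlinarith [H.tre1]
        · nlinarith [H.tre2]
      nlinarith [sq_nonneg (x - y.re)]
    · have k2 := wall_rf H hx0 h1 h2 hI.l0 hI.l1 hx
      rw [← hI.eq] at k2
      exact k2
  have g3 : (1 - κ) * (gam z r).re ≤ (1 - κ) * (TP y t r ξ - 1 / 2000) :=
    mul_le_mul_of_nonneg_left g1 (by linarith)
  have g4 : κ * (gam z (r + t.im * I)).re ≤ κ * (TP y t r ξ - 1 / 2000) :=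
    mul_le_mul_of_nonneg_left g2 k0
  linarith

end Pool.Agent.XV
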