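import Pool.Agent.XV.Cv
import Pool.Agent.XV.Tn

/-!
# XV QUB: the loss by a small height of the edge variable

`f s = (gam x (r + s θ i)).re` for `x = ± 17/100` (use `gam_even`), `s ∈ [0, 1]`: `f' 0 = 0`
(`im_deriv`, `gamt` is real at real points) and
`f'' s = θ ^ 2 (QQ x (r + s θ i) 0 1).re = θ ^ 2 π (p + m + 2 k)` (`convex_im`'s computation), with
`p = (tan π (r + 17/100 + s θ i)).re ≤ tan (π (r + 17/100)) ≤ tan (0.48 π) ≤ 15.9`,
`m ≤ tan (0.14 π) ≤ 0.4707`, `k ≤ cot (0.17 π) ≤ 1.692`: crude bound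
`π (15.9 + 0.4707 + 3.384) ≤ 62.1`; so `f 1 ≤ f 0 + θ ^ 2 * 62.1 / 2 ≤ f 0 + 0.00566`
(`θ ^ 2 ≤ 0.0135 ^ 2 = 0.00018225`).  (`(tan (α + i β)).re = sin 2α / (cos 2α + cosh 2β) ≤ tan α`.)
-/

set_option autoImplicit false

namespace Pool.Agent.XV

open Complex Finset
open Pool.Agent.Helper9.TB Pool.Agent.Helper9.TF

private lemma qub_t2 {f f' f'' : ℝ → ℝ} {M : ℝ}
    (h1 : ∀ s, 0 ≤ s → s ≤ 1 → HasDerivAt f (f' s) s)
    (h2 : ∀ s, 0 ≤ s → s ≤ 1 → HasDerivAt f' (f'' s) s)
    (h3 : ∀ s, 0 ≤ s → s ≤ 1 → f'' s ≤ M) : f 1 ≤ f 0 + f' 0 + M / 2 := by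
  have A : ∀ s ∈ Set.Icc (0 : ℝ) 1, f' s ≤ f' 0 + M * s := by
    have hm : AntitoneOn (fun s => f' s - M * s) (Set.Icc 0 1) := by
      refine antitoneOn_of_hasDerivWithinAt_nonpos (convex_Icc 0 1) (f' := fun s => f'' s - M)
        ?_ ?_ ?_
      · intro s hs
        have c1 := (h2 s hs.1 hs.2).continuousAt
        exact (c1.sub (by fun_prop)).continuousWithinAt
      · intro s hs
        rw [interior_Icc] at hs
        have d1 := h2 s hs.1.le hs.2.le
        have d2 : HasDerivAt (fun s : ℝ => M * s) M s := by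
          simpa using (hasDerivAt_id s).const_mul M
        exact (d1.sub d2).hasDerivWithinAt
      · intro s hs
        rw [interior_Icc] at hs
        linarith [h3 s hs.1.le hs.2.le]
    intro s hs
    have := hm (Set.left_mem_Icc.2 zero_le_one) hs hs.1
    simp only [mul_zero, sub_zero] at this
    linarith
  have hm : AntitoneOn (fun s => f s - (f' 0 * s + M / 2 * s ^ 2)) (Set.Icc 0 1) := by
    refine antitoneOn_of_hasDerivWithinAt_nonpos (convex_Icc 0 1)
      (f' := fun s => f' s - (f' 0 + M * s)) ?_ ?_ ?_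
    · intro s hs
      have c1 := (h1 s hs.1 hs.2).continuousAt
      exact (c1.sub (by fun_prop)).continuousWithinAt
    · intro s hs
      rw [interior_Icc] at hs
      have d1 := h1 s hs.1.le hs.2.le
      have d2 : HasDerivAt (fun s : ℝ => f' 0 * s + M / 2 * s ^ 2) (f' 0 + M * s) s := by
        have e1 := (hasDerivAt_id s).const_mul (f' 0)
        have e2 := (hasDerivAt_pow 2 s).const_mul (M / 2)
        refine (e1.add e2).congr_deriv ?_
        push_cast
        ring
      exact (d1.sub d2).hasDerivWithinAt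
    · intro s hs
      rw [interior_Icc] at hs
      linarith [A s ⟨hs.1.le, hs.2.le⟩]
  have := hm (Set.left_mem_Icc.2 zero_le_one) (Set.right_mem_Icc.2 zero_le_one) zero_le_one
  norm_num at this
  linarith

/-- `(tan (α + β i)).re ≤ tan α` -/
private lemma qub_tan {α : ℝ} (h0 : 0 ≤ α) (h1 : α < Real.pi / 2) (β : ℝ) :
    (Complex.tan (α + β * I)).re ≤ Real.tan α := by
  have hc : 0 < Real.cos α := Real.cos_pos_of_mem_Ioo ⟨by linarith, h1⟩
  have hs : 0 ≤ Real.sin α := Real.sin_nonneg_of_nonneg_of_le_pi h0 (by linarith)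
  rw [tan_re, Real.tan_eq_sin_div_cos, Real.sin_two_mul, Real.cos_two_mul]
  have hch := Real.one_le_cosh (2 * β)
  have hd : 0 < 2 * Real.cos α ^ 2 := by positivity
  calc 2 * Real.sin α * Real.cos α / (2 * Real.cos α ^ 2 - 1 + Real.cosh (2 * β))
      ≤ 2 * Real.sin α * Real.cos α / (2 * Real.cos α ^ 2) := by
        apply div_le_div_of_nonneg_left (by positivity) hd (by linarith)
    _ = Real.sin α / Real.cos α := by field_simp

private lemma qub_cot {α : ℝ} (h0 : 0 < α) (h1 : α < Real.pi / 2) (β : ℝ) :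
    (Complex.cot (α + β * I)).re ≤ Real.cos α / Real.sin α := by
  have hc : 0 < Real.cos α := Real.cos_pos_of_mem_Ioo ⟨by linarith, h1⟩
  have hs : 0 < Real.sin α := Real.sin_pos_of_pos_of_lt_pi h0 (by linarith)
  rw [cot_re, Real.sin_two_mul, Real.cos_two_mul]
  have hch := Real.one_le_cosh (2 * β)
  have hsc := Real.sin_sq_add_cos_sq α
  have hd : 0 < 2 * Real.sin α ^ 2 := by positivity
  calc 2 * Real.sin α * Real.cos α / (Real.cosh (2 * β) - (2 * Real.cos α ^ 2 - 1))
      ≤ 2 * Real.sin α * Real.cos α / (2 * Real.sin α ^ 2) := by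
        apply div_le_div_of_nonneg_left (by positivity) hd (by linarith)
    _ = Real.cos α / Real.sin α := by field_simp

/-- the three values -/
private lemma qub_vals {r : ℝ} (h1 : 17 / 100 ≤ r) (h2 : r ≤ 31 / 100) (β : ℝ) :
    (Complex.tan (((Real.pi * (r + 17 / 100) : ℝ) : ℂ) + β * I)).re +
    (Complex.tan (((Real.pi * (r - 17 / 100) : ℝ) : ℂ) + β * I)).re +
    2 * (Complex.cot (((Real.pi * r : ℝ) : ℂ) + β * I)).re ≤ 204 / 10 := by
  have hpi := Real.pi_pos
  have hpi1 := Real.pi_gt_d2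
  have hpi2 := Real.pi_lt_d2
  have p : (Complex.tan (((Real.pi * (r + 17 / 100) : ℝ) : ℂ) + β * I)).re ≤ 1593 / 100 := by
    refine (qub_tan (by nlinarith) (by nlinarith) β).trans ?_
    set δ := Real.pi / 2 - Real.pi * (r + 17 / 100) with hδ
    have hδ1 : 628 / 10000 ≤ δ := by nlinarith
    have hδ2 : δ < Real.pi / 2 := by nlinarith
    have e : Real.pi * (r + 17 / 100) = Real.pi / 2 - δ := by rw [hδ]; ring
    rw [e, Real.tan_pi_div_two_sub]
    have h3 := Real.le_tan (by linarith : 0 ≤ δ) hδ2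
    have h4 : 628 / 10000 ≤ Real.tan δ := hδ1.trans h3
    rw [inv_le_comm₀ (by linarith) (by norm_num)]
    norm_num
    linarith
  have m : (Complex.tan (((Real.pi * (r - 17 / 100) : ℝ) : ℂ) + β * I)).re ≤ 1 := by
    refine (qub_tan (by nlinarith) (by nlinarith) β).trans ?_
    rw [← Real.tan_pi_div_four]
    rcases le_or_gt (Real.pi * (r - 17 / 100)) 0 with h | h
    · have : Real.pi * (r - 17 / 100) = 0 := le_antisymm h (by nlinarith)
      rw [this, Real.tan_zero, Real.tan_pi_div_four]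
      norm_num
    · exact (Real.tan_lt_tan_of_lt_of_lt_pi_div_two (by linarith) (by linarith)
        (by nlinarith)).le
  have k : (Complex.cot (((Real.pi * r : ℝ) : ℂ) + β * I)).re ≤ 17321 / 10000 := by
    refine (qub_cot (by nlinarith) (by nlinarith) β).trans ?_
    have hs : 1 / 2 ≤ Real.sin (Real.pi * r) := by
      rw [← Real.sin_pi_div_six]
      exact Real.sin_le_sin_of_le_of_le_pi_div_two (by linarith) (by nlinarith) (by nlinarith)
    have hc : 0 < Real.cos (Real.pi * r) := Real.cos_pos_of_mem_Ioo ⟨by nlinarith, by nlinarith⟩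
    rw [div_le_iff₀ (by linarith)]
    have hsc := Real.sin_sq_add_cos_sq (Real.pi * r)
    apply le_of_sq_le_sq _ (by positivity)
    nlinarith
  linarith

private lemma qub_pos {r θ : ℝ} (h1 : 17 / 100 ≤ r) (h2 : r ≤ 31 / 100)
    (h4 : |θ| ≤ 135 / 10000) :
    (gam ((17 / 100 : ℝ) : ℂ) (r + θ * I)).re ≤ (gam ((17 / 100 : ℝ) : ℂ) r).re + 6 / 1000 := by
  have hpi := Real.pi_pos
  have hpi2 := Real.pi_lt_d2
  set x : ℂ := ((17 / 100 : ℝ) : ℂ) with hx
  have hdom : ∀ s : ℝ, Dom (x + s * 0) ((r : ℂ) + s * ((θ : ℂ) * I)) := by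
    intro s
    refine ⟨?_, ?_, ?_, ?_⟩ <;>
      simp only [hx, add_re, sub_re, mul_re, ofReal_re, I_re, ofReal_im, I_im, mul_im,
        Complex.zero_re, Complex.zero_im]
    · rw [abs_lt]
      constructor <;> linarith
    · rw [abs_lt]
      constructor <;> linarith
    · linarith
    · linarith
  have hre : ∀ {f : ℝ → ℂ} {f' : ℂ} {s : ℝ}, HasDerivAt f f' s →
      HasDerivAt (fun s => (f s).re) f'.re s := fun h => by
    have h2 := Complex.reCLM.hasFDerivAt.comp_hasDerivAt _ h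
    exact h2
  have hθ2 : θ ^ 2 ≤ 18225 / 100000000 := by
    have : |θ| ^ 2 ≤ (135 / 10000) ^ 2 := by gcongr
    rw [sq_abs] at this
    norm_num at this
    linarith
  have key := qub_t2 (M := θ ^ 2 * (Real.pi * (204 / 10)))
    (fun s _ _ => hre (gam_d1 (hdom s))) (fun s _ _ => hre (gam_d2 (hdom s))) ?_
  · have e0 : x + ((0 : ℝ) : ℂ) * 0 = x := by simp
    have e1 : (r : ℂ) + ((0 : ℝ) : ℂ) * ((θ : ℂ) * I) = r := by simp
    have e2 : x + ((1 : ℝ) : ℂ) * 0 = x := by simp
    have e3 : (r : ℂ) + ((1 : ℝ) : ℂ) * ((θ : ℂ) * I) = r + θ * I := by simp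
    rw [e0, e1, e2, e3] at key
    -- `gamt` is real at real points
    have hreal : ∀ u : ℝ, |u| < 1 / 2 → (cc (u : ℂ)).im = 0 := by
      intro u hu
      have hu' := abs_lt.1 hu
      have hc : 0 ≤ 2 * Real.cos (Real.pi * u) := by
        have : 0 < Real.cos (Real.pi * u) :=
          Real.cos_pos_of_mem_Ioo ⟨by nlinarith [hu'.1], by nlinarith [hu'.2]⟩
        linarith
      have : cc (u : ℂ) = ((Real.log (2 * Real.cos (Real.pi * u)) : ℝ) : ℂ) := by
        unfold cc
        rw [Complex.ofReal_log hc]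
        push_cast
        rfl
      rw [this, Complex.ofReal_im]
    have hgt : (gamt x r).im = 0 := by
      unfold gamt
      have a1 : (r : ℂ) + x = ((r + 17 / 100 : ℝ) : ℂ) := by rw [hx]; push_cast; ring
      have a2 : (r : ℂ) - x = ((r - 17 / 100 : ℝ) : ℂ) := by rw [hx]; push_cast; ring
      have a3 : (r : ℂ) - 1 / 2 = ((r - 1 / 2 : ℝ) : ℂ) := by push_cast; ring
      rw [a1, a2, a3]
      have b1 := hreal (r + 17 / 100) (by rw [abs_lt]; constructor <;> linarith)
      have b2 := hreal (r - 17 / 100) (by rw [abs_lt]; constructor <;> linarith)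
      have b3 := hreal (r - 1 / 2) (by rw [abs_lt]; constructor <;> linarith)
      simp only [Complex.sub_im, Complex.add_im, Complex.mul_im, b1, b2, b3]
      simp
    have hz : (gamy x r * 0 + gamt x r * ((θ : ℂ) * I)).re = 0 := by
      rw [mul_zero, zero_add]
      simp [Complex.mul_re, hgt]
    rw [hz] at key
    have e4 : θ ^ 2 * (Real.pi * (204 / 10)) ≤ 18225 / 100000000 * (Real.pi * (204 / 10)) := by
      gcongr
    linarith
  · intro s hs0 hs1
    have e1 : (Real.pi : ℂ) * ((r : ℂ) + s * ((θ : ℂ) * I) + (x + s * 0)) =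
        ((Real.pi * (r + 17 / 100) : ℝ) : ℂ) + ((Real.pi * (s * θ) : ℝ) : ℂ) * I := by
      rw [hx]; push_cast; ring
    have e2 : (Real.pi : ℂ) * ((r : ℂ) + s * ((θ : ℂ) * I) - (x + s * 0)) =
        ((Real.pi * (r - 17 / 100) : ℝ) : ℂ) + ((Real.pi * (s * θ) : ℝ) : ℂ) * I := by
      rw [hx]; push_cast; ring
    have e3 : (Real.pi : ℂ) * ((r : ℂ) + s * ((θ : ℂ) * I)) =
        ((Real.pi * r : ℝ) : ℂ) + ((Real.pi * (s * θ) : ℝ) : ℂ) * I := by
      push_cast; ring
    have hv := qub_vals h1 h2 (Real.pi * (s * θ))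
    have e4 : -QQ (x + s * 0) ((r : ℂ) + s * ((θ : ℂ) * I)) 0 ((θ : ℂ) * I) =
        ((Real.pi * θ ^ 2 : ℝ) : ℂ) *
          (Complex.tan (((Real.pi * (r + 17 / 100) : ℝ) : ℂ) + ((Real.pi * (s * θ) : ℝ) : ℂ) * I) +
          Complex.tan (((Real.pi * (r - 17 / 100) : ℝ) : ℂ) + ((Real.pi * (s * θ) : ℝ) : ℂ) * I) +
          2 * Complex.cot (((Real.pi * r : ℝ) : ℂ) + ((Real.pi * (s * θ) : ℝ) : ℂ) * I)) := by
      unfold QQ
      rw [e1, e2, e3, add_zero, sub_zero, mul_pow, Complex.I_sq]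
      push_cast
      ring
    rw [e4, Complex.re_ofReal_mul]
    have e5 : ∀ A B C : ℂ, (A + B + 2 * C).re = A.re + B.re + 2 * C.re := by
      intro A B C
      simp
    rw [e5]
    calc _ ≤ Real.pi * θ ^ 2 * (204 / 10) := mul_le_mul_of_nonneg_left hv (by positivity)
      _ = _ := by ring

theorem qub {r θ x : ℝ} (h1 : 17 / 100 ≤ r) (h2 : r ≤ 31 / 100) (h3 : |x| = 17 / 100)
    (h4 : |θ| ≤ 135 / 10000) : (gam x (r + θ * I)).re ≤ (gam x r).re + 6 / 1000 := by
  rcases abs_choice x with h | h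
  · rw [h] at h3
    rw [h3]
    exact qub_pos h1 h2 h4
  · rw [h] at h3
    have hx : (x : ℂ) = -((17 / 100 : ℝ) : ℂ) := by
      rw [← h3]; push_cast; ring
    rw [hx, gam_even, gam_even]
    exact qub_pos h1 h2 h4

end Pool.Agent.XV
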