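import Mathlib
import Pool.Agent.XV.Cv
import Pool.Agent.Helper48.TF.Gaps
import Pool.Agent.Helper48.TF.GmLe
import Pool.Agent.Helper11.TB.Win

/-!
# XV WG: `gam` at real `t`, and the comparison of `± 17/100` with smaller abscissas

`win_gam`: `CC (r - 1/2) = LI r = ll r` (`CC_eq`, `LI_eq_ll`), so the last term of `gam` is
`- 2 ll r`.  It remains `(CC (r + y)).re + (CC (r - y)).re = win |η| x r`, `y = x + η i`: both sides are
`0` at `r = 0` (`CC` is odd: substitute in the integral defining it, `cc_neg`), and for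
`|x| + r < 1/2` the derivatives in `r` agree: `(cc (r + y)).re = log |2 cos π (r + x + η i)| =
ee |η| (r + x)` (`norm_two_cos_sq` in Helper48.TF.GmLe, definition of `ee`), the same for `r - y`, and
`win_deriv_right` (Helper11.TB.Win), `ee_neg`, if `η ≠ 0`.  For `η = 0` use `win0`
(Helper48.TF.Gaps) and `CC u = ll (u + 1/2)` for real `u` (`CC_eq`, `LI_eq_ll`), `CC` odd.

`gap`: for `0 ≤ x ≤ 17/100` the derivative of `x ↦ (gam x r).re` is
`(gamy x r).re = log (cos π(r + x) / cos π(r - x)) = log ((1 - T) / (1 + T)) ≤ -2 T` with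
`T = tan πr tan πx ≥ tan (0.17 π) πx ≥ 0.591 πx`; so
`(gam x0 r).re - (gam (17/100) r).re ≥ (gam (1/10) r).re - (gam (17/100) r).re
  ≥ 2 * 0.591 π (0.0289 - 0.01) / 2 ≥ 0.035 ≥ 1/50` (even in `x0`, decreasing on `[0, 17/100]`).
-/

set_option autoImplicit false

namespace Pool.Agent.XV

open Complex Finset
open Pool.Agent.Helper9.TB Pool.Agent.Helper9.TF

open Pool.Agent.Helper48.TF (norm_two_cos_sq win0 win0_neg ll_neg Gs Gs_mono)
open Pool.Agent.Helper11.TB (ee_neg win_deriv_right ll_refl)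

private lemma wg_cc_re (x η : ℝ) : (cc (x + η * I)).re = ee |η| x := by
  unfold cc ee
  rw [Complex.log_re]
  have h := norm_two_cos_sq x η
  have e : Real.cosh (2 * Real.pi * |η|) = Real.cosh (2 * Real.pi * η) := by
    rw [← Real.cosh_abs (2 * Real.pi * η), abs_mul,
      abs_of_pos (by positivity : (0 : ℝ) < 2 * Real.pi)]
  rw [e, ← h, Real.log_pow]
  push_cast
  ring

private lemma wg_CC_neg (u : ℂ) : CC (-u) = - CC u := by
  unfold CC
  have : ∀ s : ℝ, cc ((s : ℂ) * -u) = cc (s * u) := fun s => by rw [mul_neg, cc_neg]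
  simp only [this]
  ring

private lemma wg_CC_real {u : ℝ} (hu : |u| < 1 / 2) : (CC u).re = ll (u + 1 / 2) := by
  have h := abs_lt.1 hu
  have h1 : (u : ℂ) ∈ HS := by
    show |(u : ℂ).re| < 1 / 2
    simpa using hu
  rw [CC_eq h1, show (1 / 2 + (u : ℂ)) = ((u + 1 / 2 : ℝ) : ℂ) by push_cast; ring,
    Pool.Agent.Helper48.QD.LI_eq_ll (by linarith [h.1]) (by linarith [h.2]), Complex.ofReal_re]

private lemma wg_main {x η r : ℝ} (hη : η ≠ 0) (h0 : 0 < r) (h1 : |x| + r < 1 / 2) :
    (CC (r + (x + η * I))).re + (CC (r - (x + η * I))).re = win |η| x r := by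
  have hx := abs_le.1 (le_refl |x|)
  have hd : ∀ τ ∈ Set.Icc (0 : ℝ) r, HasDerivAt (fun τ : ℝ => (CC ((τ : ℂ) + (x + η * I))).re +
      (CC ((τ : ℂ) - (x + η * I))).re - win |η| x τ) 0 τ := by
    intro τ hτ
    obtain ⟨t0, t1⟩ := hτ
    have u1 : (τ : ℂ) + (x + η * I) ∈ HS := by
      show |((τ : ℂ) + (x + η * I)).re| < 1 / 2
      simp only [Complex.add_re, Complex.ofReal_re, Complex.mul_re, Complex.I_re, Complex.ofReal_im,
        Complex.I_im, mul_zero, zero_mul, sub_zero, add_zero]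
      rw [abs_lt]
      constructor <;> linarith [hx.1, hx.2]
    have u2 : (τ : ℂ) - (x + η * I) ∈ HS := by
      show |((τ : ℂ) - (x + η * I)).re| < 1 / 2
      simp only [Complex.add_re, Complex.sub_re, Complex.ofReal_re, Complex.mul_re, Complex.I_re,
        Complex.ofReal_im, Complex.I_im, mul_zero, zero_mul, sub_zero, add_zero]
      rw [abs_lt]
      constructor <;> linarith [hx.1, hx.2]
    have d1 := (HasDerivAt.comp_add_const (τ : ℂ) (x + η * I) (CC_deriv u1)).real_of_complex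
    have d2 := (HasDerivAt.comp_sub_const (τ : ℂ) (x + η * I) (CC_deriv u2)).real_of_complex
    have d3 := win_deriv_right (abs_pos.2 hη) x τ
    refine ((d1.add d2).sub d3).congr_deriv ?_
    have e1 : (cc ((τ : ℂ) + (x + η * I))).re = ee |η| (x + τ) := by
      rw [← wg_cc_re]
      congr 2
      push_cast
      ring
    have e2 : (cc ((τ : ℂ) - (x + η * I))).re = ee |η| (x - τ) := by
      rw [← ee_neg, ← abs_neg, ← wg_cc_re]
      congr 2
      push_cast
      ring
    rw [e1, e2]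
    ring
  have hc := constant_of_has_deriv_right_zero (a := 0) (b := r)
    (fun τ hτ => (hd τ hτ).continuousAt.continuousWithinAt)
    (fun τ hτ => (hd τ (Set.Ico_subset_Icc_self hτ)).hasDerivWithinAt) r ⟨h0.le, le_refl _⟩
  have e0 : win |η| x 0 = 0 := by unfold win; simp
  simp only [Complex.ofReal_zero, zero_add, zero_sub, wg_CC_neg (x + η * I), Complex.neg_re, e0] at hc
  linarith

theorem win_gam {x η r : ℝ} (h0 : 0 < r) (h1 : |x| + r < 1 / 2) :
    (gam (x + η * I) r).re = win |η| x r - 2 * ll r := by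
  have hx := abs_le.1 (le_refl |x|)
  have hx0 := abs_nonneg x
  have e1 : (CC ((r : ℂ) - 1 / 2)).re = ll r := by
    rw [show (r : ℂ) - 1 / 2 = ((r - 1 / 2 : ℝ) : ℂ) by push_cast; ring, wg_CC_real]
    · congr 1
      ring
    · rw [abs_lt]
      constructor <;> linarith
  have e2 : (CC (r + (x + η * I))).re + (CC (r - (x + η * I))).re = win |η| x r := by
    by_cases hη : η = 0
    · subst hη
      rw [abs_zero, win0, Complex.ofReal_zero, zero_mul, add_zero,
        show (r : ℂ) + x = ((r + x : ℝ) : ℂ) by push_cast; ring,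
        show (r : ℂ) - x = -((x - r : ℝ) : ℂ) by push_cast; ring, wg_CC_neg, Complex.neg_re,
        wg_CC_real, wg_CC_real]
      · rw [add_comm r x]
        ring
      · rw [abs_lt]
        constructor <;> linarith [hx.1, hx.2]
      · rw [abs_lt]
        constructor <;> linarith [hx.1, hx.2]
    · exact wg_main hη h0 h1
  unfold gam
  rw [Complex.sub_re, Complex.add_re, e2, show (2 : ℂ) * CC ((r : ℂ) - 1 / 2) =
    ((2 : ℝ) : ℂ) * CC ((r : ℂ) - 1 / 2) by push_cast; ring, Complex.re_ofReal_mul, e1]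

private lemma wg_real {x r : ℝ} (h0 : 0 < r) (h1 : |x| + r < 1 / 2) :
    (gam x r).re = win 0 |x| r - 2 * ll r := by
  have h := win_gam (η := 0) h0 h1
  rw [Complex.ofReal_zero, zero_mul, add_zero, abs_zero] at h
  rw [h]
  rcases abs_choice x with e | e
  · rw [e]
  · rw [e, win0_neg]

private lemma wg_Gs {s r : ℝ} : win 0 s r = 2 * ll (r + 1 / 2) - Gs (r + 1 / 2) s := by
  rw [win0]
  unfold Gs
  have e1 : ll (s - r + 1 / 2) = - ll (r + 1 / 2 - s) := by
    rw [← ll_refl]
    congr 1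
    ring
  rw [e1, show s + r + 1 / 2 = r + 1 / 2 + s by ring]
  ring

theorem gap {x0 x r : ℝ} (h1 : 17 / 100 ≤ r) (h2 : r ≤ 31 / 100) (h3 : |x0| ≤ 1 / 10)
    (h4 : |x| = 17 / 100) : (gam x r).re ≤ (gam x0 r).re - 1 / 50 := by
  have hpi := Real.pi_gt_three
  have hx0 := abs_nonneg x0
  rw [wg_real (by linarith) (by rw [h4]; linarith), wg_real (by linarith) (by linarith), h4, wg_Gs,
    wg_Gs]
  have m := Gs_mono (σ := r + 1 / 2) (by linarith) (by linarith)
    (⟨hx0, by linarith⟩ : |x0| ∈ Set.Icc 0 (1 - (r + 1 / 2)))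
    (⟨by norm_num, by linarith⟩ : (17 / 100 : ℝ) ∈ Set.Icc 0 (1 - (r + 1 / 2))) (by linarith)
  simp only at m
  have h5 : 9 * (17 / 100) ≤ Real.pi ^ 2 * (r + 1 / 2 - 1 / 2) :=
    mul_le_mul (by nlinarith) (by linarith) (by norm_num) (by positivity)
  have h6 : (17 / 100 : ℝ) ^ 2 - |x0| ^ 2 ≥ 189 / 10000 := by nlinarith
  nlinarith [mul_nonneg (sub_nonneg.2 h5) (by linarith : (0 : ℝ) ≤ (17 / 100 : ℝ) ^ 2 - |x0| ^ 2)]

end Pool.Agent.XV
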