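import Pool.Agent.XV.Hn
import Pool.Agent.XV.Qub
import Pool.Agent.XV.Wg

/-!
# XV HW: the walls

Let `f lam = (gam (x + lam y.im I) (r + t.im I)).re`; it is convex on `[0, 1]` (`convex_im` with base
point `(x, r + t.im I)`, `a = y.im`, `b = 0`, and `qlb`), and `TP y t r ((1 - lam) x0 + lam x)` is
affine in `lam`.  So it is enough to check `lam = 0, 1`.
* `lam = 1`: `near_rf`, and `2/5 (x - y.re) ^ 2 ≥ 2/5 (0.17 - 0.1004) ^ 2 ≥ 0.0019`.
* `lam = 0`: `f 0 ≤ (gam x r).re + 6/1000` (`qub`), `≤ (gam x0 r).re - 1/50 + 6/1000` (`gap`),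
  `≤ TP y t r x0 - 14/1000` (`tge_rf`).
-/

set_option autoImplicit false
set_option linter.unusedSimpArgs false

namespace Pool.Agent.XV

open Complex Finset
open Pool.Agent.Helper9.TB Pool.Agent.Helper9.TF

theorem wall_rf {y t : ℂ} (H : RF y t) {x0 r lam x : ℝ} (hx0 : |x0| ≤ 1 / 10)
    (h1 : 17 / 100 ≤ r) (h2 : r ≤ 31 / 100) (l0 : 0 ≤ lam) (l1 : lam ≤ 1) (hx : |x| = 17 / 100) :
    (gam (x + (lam * y.im : ℝ) * I) (r + t.im * I)).re ≤
      TP y t r ((1 - lam) * x0 + lam * x) - 1 / 2000 := by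
  -- the function is convex
  have hyim : |y.im| ≤ 55 / 1000 := by
    rw [abs_le]
    exact ⟨H.yim, by linarith [H.yneg]⟩
  have htim : |t.im| ≤ 2 / 100 := H.tim.trans (by norm_num)
  have hxle := abs_le.1 hx.le
  have e1 : ∀ s : ℝ, (x : ℂ) + (s : ℂ) * ((y.im : ℂ) * I) = (x : ℂ) + ((s * y.im : ℝ) : ℂ) * I := by
    intro s
    push_cast
    ring
  have e2 : ∀ s : ℝ, ((r : ℂ) + (t.im : ℂ) * I) + (s : ℂ) * (((0 : ℝ) : ℂ) * I)
      = (r : ℂ) + (t.im : ℂ) * I := by
    intro s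
    push_cast
    ring
  have hconv := convex_im (y := (x : ℂ)) (t := (r : ℂ) + (t.im : ℂ) * I) (a := y.im) (b := 0)
    (s0 := 0) (s1 := 1) (by
      intro s hs0 hs1
      rw [e1 s, e2 s]
      have hs : |s * y.im| ≤ 55 / 1000 := by
        rw [abs_mul, abs_of_nonneg hs0]
        calc s * |y.im| ≤ 1 * |y.im| := by gcongr
          _ = |y.im| := one_mul _
          _ ≤ _ := hyim
      refine ⟨⟨?_, ?_, ?_, ?_⟩, ?_⟩
      · simp only [add_re, ofReal_re, mul_re, I_re, mul_zero, ofReal_im, I_im, zero_mul, sub_zero,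
          mul_one, sub_self, add_zero]
        rw [abs_lt]
        constructor <;> linarith
      · simp only [add_re, sub_re, ofReal_re, mul_re, I_re, mul_zero, ofReal_im, I_im, zero_mul,
          sub_zero, mul_one, sub_self, add_zero]
        rw [abs_lt]
        constructor <;> linarith
      · simp only [add_re, ofReal_re, mul_re, I_re, mul_zero, ofReal_im, I_im, zero_mul, sub_zero,
          mul_one, sub_self, add_zero]
        linarith
      · simp only [add_re, ofReal_re, mul_re, I_re, mul_zero, ofReal_im, I_im, zero_mul, sub_zero,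
          mul_one, sub_self, add_zero]
        linarith
      · refine le_trans ?_ (qlb h1 h2 hx.le htim hs y.im 0)
        positivity)
  have z0 : (0 : ℝ) ∈ Set.Icc (0 : ℝ) 1 := ⟨le_rfl, zero_le_one⟩
  have z1 : (1 : ℝ) ∈ Set.Icc (0 : ℝ) 1 := ⟨zero_le_one, le_rfl⟩
  have z2 : (0 : ℝ) ≤ 1 - lam := by linarith
  have z3 : (1 - lam) + lam = 1 := by ring
  have hc := hconv.2 z0 z1 z2 l0 z3
  simp only [smul_eq_mul, mul_zero, zero_add, mul_one] at hc
  rw [e1 lam, e2 lam, e1 1, e2 1] at hc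
  have e3 : (x : ℂ) + ((1 * y.im : ℝ) : ℂ) * I = (x : ℂ) + (y.im : ℂ) * I := by rw [one_mul]
  have e4 : (x : ℂ) + ((0 : ℝ) : ℂ) * ((y.im : ℂ) * I) = (x : ℂ) := by
    rw [ofReal_zero, zero_mul, add_zero]
  rw [e3, e4, e2 0] at hc
  -- the end points
  have k1 := near_rf H h1 h2 hx.le
  have k0 : (gam x (r + t.im * I)).re ≤ TP y t r x0 - 14 / 1000 := by
    have a1 := qub h1 h2 hx H.tim
    have a2 := gap h1 h2 hx0 hx
    have a3 := tge_rf H h1 h2 (ξ := x0) (hx0.trans (by norm_num))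
    linarith
  have hsq : (484 / 100000 : ℝ) ≤ (x - y.re) ^ 2 := by
    have hy := abs_le.1 H.yre
    rcases abs_eq (by norm_num : (0 : ℝ) ≤ 17 / 100) |>.1 hx with h | h
    · have : (696 / 10000 : ℝ) ≤ x - y.re := by rw [h]; linarith [hy.2]
      nlinarith
    · have : (696 / 10000 : ℝ) ≤ -(x - y.re) := by rw [h]; linarith [hy.1]
      nlinarith
  have k1' : (gam (x + y.im * I) (r + t.im * I)).re ≤ TP y t r x - 1 / 2000 := by
    have := sq_nonneg (r - t.re)
    linarith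
  have hTP : TP y t r ((1 - lam) * x0 + lam * x) = (1 - lam) * TP y t r x0 + lam * TP y t r x := by
    unfold TP
    ring
  rw [hTP]
  have m1 : (1 - lam) * (gam x (r + t.im * I)).re ≤ (1 - lam) * (TP y t r x0 - 14 / 1000) :=
    mul_le_mul_of_nonneg_left k0 (by linarith)
  have m2 : lam * (gam (x + y.im * I) (r + t.im * I)).re ≤ lam * (TP y t r x - 1 / 2000) :=
    mul_le_mul_of_nonneg_left k1' l0
  linarith

end Pool.Agent.XV
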