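import Pool.Agent.XV.Hb

/-!
# XV KFAR: bound of the kernel if one of the two points is far

`KN N w w' = ∑ m ∈ range N, gm N m w * gm N m w'`; `hb_far` for the far point and `hb_all` for the
other one: every term is at most `C N ^ K exp (N (TP y t r ξ + TP z t r ξ' - 38 / 8000))` and
`TP y t r ξ + TP z t r ξ' = SP y t ξ + SP z t ξ'` because `(gamt y t).re + (gamt z t).re = 0`.
-/

set_option autoImplicit false

namespace Pool.Agent.XV

open Complex Finset
open Pool.Agent.Helper9.TB Pool.Agent.Helper9.TF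

private theorem tp_add {y z t : ℂ} (kern : gamt y t + gamt z t = 0) (r ξ ξ' : ℝ) :
    TP y t r ξ + TP z t r ξ' = SP y t ξ + SP z t ξ' := by
  have h1 : (gamt y t).re + (gamt z t).re = 0 := by
    rw [← add_re, kern, zero_re]
  unfold TP SP
  linear_combination (r - t.re) * h1

private theorem kn_sum {N : ℕ} {w w' : ℂ} {C C' : ℝ} {K K' : ℕ} {A A' S : ℝ} (a b : ℕ → ℝ)
    (hC : 0 ≤ C) (h1 : ∀ m < N, ‖gm N m w‖ ≤ C * N ^ K * Real.exp (N * (a m + A)))
    (h2 : ∀ m < N, ‖gm N m w'‖ ≤ C' * N ^ K' * Real.exp (N * (b m + A')))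
    (hab : ∀ m, a m + b m = S) :
    ‖KN N w w'‖ ≤ C * C' * N ^ (K + K' + 1) * Real.exp (N * (S + (A + A'))) := by
  unfold KN
  refine (norm_sum_le _ _).trans ?_
  have h3 : ∀ m ∈ range N, ‖gm N m w * gm N m w'‖ ≤
      C * C' * N ^ (K + K') * Real.exp (N * (S + (A + A'))) := by
    intro m hm
    rw [norm_mul]
    have h4 := mul_le_mul (h1 m (mem_range.1 hm)) (h2 m (mem_range.1 hm)) (norm_nonneg _)
      (by positivity)
    refine h4.trans (le_of_eq ?_)
    have h5 : Real.exp (N * (S + (A + A'))) =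
        Real.exp (N * (a m + A)) * Real.exp (N * (b m + A')) := by
      rw [← Real.exp_add, ← hab m]
      congr 1
      ring
    rw [h5, pow_add]
    ring
  refine (sum_le_sum h3).trans (le_of_eq ?_)
  rw [sum_const, card_range, nsmul_eq_mul, pow_succ]
  ring

private theorem kn_mono {N K K' : ℕ} {C C' A A' x : ℝ} (hN : 1 ≤ N) (hC : 0 ≤ C) (hCC : C ≤ C')
    (hK : K ≤ K') (hA : A ≤ A') (h : x ≤ C * N ^ K * Real.exp (N * A)) :
    x ≤ C' * N ^ K' * Real.exp (N * A') := by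
  have hN' : (1 : ℝ) ≤ N := by exact_mod_cast hN
  refine h.trans (mul_le_mul (mul_le_mul hCC (pow_le_pow_right₀ hN' hK) (by positivity)
    (hC.trans hCC)) (Real.exp_le_exp.2 (mul_le_mul_of_nonneg_left hA (by positivity)))
    (Real.exp_pos _).le ?_)
  have := hC.trans hCC
  positivity

theorem kn_far {x0 x1 : ℝ} {y z t : ℂ} (H1 : Half x0 y t) (H2 : Half x1 z t)
    (kern : gamt y t + gamt z t = 0) : ∃ (C : ℝ) (K N0 : ℕ), 0 < C ∧ ∀ N : ℕ, N0 ≤ N →
    ∀ (w w' : ℂ) (ξ ξ' : ℝ),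
    (Nr y w ξ ∨ Wa x0 y N w ξ ∨ Fa x0 N w ξ) → (Nr z w' ξ' ∨ Wa x1 z N w' ξ' ∨ Fa x1 N w' ξ') →
    (Fa x0 N w ξ ∨ Fa x1 N w' ξ') →
    ‖KN N w w'‖ ≤ C * N ^ K * Real.exp (N * (SP y t ξ + SP z t ξ' - 1 / 2000)) := by
  obtain ⟨C1, K1, N1, hC1, h1⟩ := hb_far H1
  obtain ⟨C2, K2, N2, hC2, h2⟩ := hb_all H2
  obtain ⟨C3, K3, N3, hC3, h3⟩ := hb_all H1
  obtain ⟨C4, K4, N4, hC4, h4⟩ := hb_far H2
  refine ⟨C1 * C2 + C3 * C4, K1 + K2 + K3 + K4 + 1, max 1 (max (max N1 N2) (max N3 N4)),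
    by positivity, fun N hN w w' ξ ξ' hw hw' hfar => ?_⟩
  have hN0 : 1 ≤ N := (le_max_left _ _).trans hN
  have hN1 : N1 ≤ N :=
    ((le_max_left _ _).trans ((le_max_left _ _).trans (le_max_right _ _))).trans hN
  have hN2 : N2 ≤ N :=
    ((le_max_right _ _).trans ((le_max_left _ _).trans (le_max_right _ _))).trans hN
  have hN3 : N3 ≤ N :=
    ((le_max_left _ _).trans ((le_max_right _ _).trans (le_max_right _ _))).trans hN
  have hN4 : N4 ≤ N :=
    ((le_max_right _ _).trans ((le_max_right _ _).trans (le_max_right _ _))).trans hN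
  rcases hfar with hf | hf
  · have hs := kn_sum (w := w) (w' := w') (A := -(79 / 8000)) (A' := 41 / 8000)
      (fun m => TP y t (m / N) ξ) (fun m => TP z t (m / N) ξ') hC1.le
      (fun m hm => by simpa [sub_eq_add_neg] using h1 N hN1 w ξ hf m hm)
      (fun m hm => h2 N hN2 w' ξ' hw' m hm) (fun m => tp_add kern _ _ _)
    exact kn_mono hN0 (by positivity) (by nlinarith [mul_pos hC3 hC4]) (by omega)
      (by linarith) hs
  · have hs := kn_sum (w := w) (w' := w') (A := 41 / 8000) (A' := -(79 / 8000))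
      (fun m => TP y t (m / N) ξ) (fun m => TP z t (m / N) ξ') hC3.le
      (fun m hm => h3 N hN3 w ξ hw m hm)
      (fun m hm => by simpa [sub_eq_add_neg] using h4 N hN4 w' ξ' hf m hm)
      (fun m => tp_add kern _ _ _)
    exact kn_mono hN0 (by positivity) (by nlinarith [mul_pos hC1 hC2]) (by omega)
      (by linarith) hs

end Pool.Agent.XV
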