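import Pool.Agent.XV.Kne

/-!
# XV KI: bounds of the main part of the kernel

`KI N t.im w w' = N ∫_{aN}^{bN} gmc N w (r + t.im I) gmc N w' (r + t.im I) dr`, with
`17 / 100 ≤ aN N ≤ bN N ≤ 31 / 100` for `N ≥ 100`; `gmc_bd` bounds both factors, and
`TP y t r ξ + TP z t r ξ' = SP y t ξ + SP z t ξ'` by the real part of `kern`.

* `ki_wall`: the factor of a wall point is `≤ (C / N) exp (N (TP - 1 / 2000))` by `Half.wall`, the
  other one `≤ (C / N) exp (N TP)` by `Half.near` or `Half.wall`; the length of the interval is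
  `≤ 1`, so `‖KI‖ ≤ N (C / N) ^ 2 exp (...) ≤ C ^ 2 exp (...)`.
* `ki_near`: `Half.near` for both; the integrand is at most
  `(C / N) ^ 2 exp (N (SP y t x + SP z t x' - ((x - y.re) ^ 2 + (x' - z.re) ^ 2) / 5))
   exp (-(2 N / 5) (r - t.re) ^ 2)` and the Gauss integral over `ℝ` is `sqrt (5 π / (2 N))`
  (`integral_gaussian`).
-/

set_option autoImplicit false

namespace Pool.Agent.XV

open Complex Finset
open Pool.Agent.Helper9.TB Pool.Agent.Helper9.TF

/-- the exponent of a near or wall point -/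
theorem ki_pt {x0 : ℝ} {y t : ℂ} (H : Half x0 y t) {N : ℕ} {w : ℂ} {ξ r : ℝ}
    (hw : Nr y w ξ ∨ Wa x0 y N w ξ) (r1 : 17 / 100 ≤ r) (r2 : r ≤ 31 / 100) :
    (gam w (r + t.im * I)).re ≤ TP y t r ξ := by
  rcases hw with ⟨h1, h2⟩ | ⟨lam, x, h1, h2, -, h4, h5, h6⟩
  · have h := H.near r ξ r1 r2 h1
    rw [← h2] at h
    have : 0 ≤ ((r - t.re) ^ 2 + (ξ - y.re) ^ 2) / 5 := by positivity
    linarith
  · have h := H.wall r lam x ξ r1 r2 ⟨h1, h2, h4.le, Or.inr h4, h6⟩ h4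
    rw [← h5] at h
    linarith

/-- the exponent of a wall point -/
theorem ki_pt_wall {x0 : ℝ} {y t : ℂ} (H : Half x0 y t) {N : ℕ} {w : ℂ} {ξ r : ℝ}
    (hw : Wa x0 y N w ξ) (r1 : 17 / 100 ≤ r) (r2 : r ≤ 31 / 100) :
    (gam w (r + t.im * I)).re ≤ TP y t r ξ - 1 / 2000 := by
  obtain ⟨lam, x, h1, h2, -, h4, h5, h6⟩ := hw
  have h := H.wall r lam x ξ r1 r2 ⟨h1, h2, h4.le, Or.inr h4, h6⟩ h4
  rwa [← h5] at h

theorem ki_pt_re {x0 : ℝ} {y : ℂ} {N : ℕ} {w : ℂ} {ξ : ℝ} (hw : Nr y w ξ ∨ Wa x0 y N w ξ) :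
    |w.re| ≤ 17 / 100 := by
  obtain ⟨lam, x, hi, hwe⟩ := kne_inn hw
  rw [hwe, kne_re]; exact hi.x1

theorem ki_pt_im {x0 : ℝ} {y t : ℂ} (H : Half x0 y t) {N : ℕ} {w : ℂ} {ξ : ℝ}
    (hw : Nr y w ξ ∨ Wa x0 y N w ξ) : |w.im| ≤ 1 / 10 := by
  obtain ⟨lam, x, hi, hwe⟩ := kne_inn hw
  rw [hwe, kne_im]; exact kne_im_le H hi

theorem ki_r {r v : ℝ} : ((r : ℂ) + v * I).re = r := by simp

theorem ki_v {r v : ℝ} : ((r : ℂ) + v * I).im = v := by simp

theorem ki_wall {x0 x1 : ℝ} {y z t : ℂ} (H1 : Half x0 y t) (H2 : Half x1 z t)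
    (kern : gamt y t + gamt z t = 0) : ∃ (C : ℝ) (N0 : ℕ), 0 < C ∧ ∀ N : ℕ, N0 ≤ N →
    ∀ (w w' : ℂ) (ξ ξ' : ℝ), (Nr y w ξ ∨ Wa x0 y N w ξ) → (Nr z w' ξ' ∨ Wa x1 z N w' ξ') →
    (Wa x0 y N w ξ ∨ Wa x1 z N w' ξ') →
    ‖KI N t.im w w'‖ ≤ C * Real.exp (N * (SP y t ξ + SP z t ξ' - 1 / 2000)) := by
  obtain ⟨C3, N3, hC3, hb3⟩ := gmc_bd
  refine ⟨C3 ^ 2, max N3 1000, by positivity, ?_⟩
  intro N hN w w' ξ ξ' hw hw' hor
  have hN3 : N3 ≤ N := le_trans (le_max_left _ _) hN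
  have hN4 : 1000 ≤ N := le_trans (le_max_right _ _) hN
  have hNr : (1000 : ℝ) ≤ N := by exact_mod_cast hN4
  have hN0 : (0 : ℝ) < N := by linarith
  obtain ⟨m0, n, hmn, ha, hb, hlo, hhi, hmid, a1, a2, b1, b2⟩ := kne_win hN4
  have hti : |t.im| ≤ 1 / 10 := by linarith [H1.tim]
  have hbd : ∀ r ∈ Set.uIoc (aN N) (bN N),
      ‖gmc N w (r + t.im * I) * gmc N w' (r + t.im * I)‖ ≤
        (C3 / N) ^ 2 * Real.exp (N * (SP y t ξ + SP z t ξ' - 1 / 2000)) := by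
    intro r hr
    rw [Set.uIoc_of_le (by linarith)] at hr
    have r1 : 17 / 100 ≤ r := by linarith [hr.1]
    have r2 : r ≤ 31 / 100 := by linarith [hr.2]
    have e1 := hb3 N hN3 w (r + t.im * I) (ki_pt_re hw) (ki_pt_im H1 hw) (by rw [ki_r]; exact r1)
      (by rw [ki_r]; exact r2) (by rw [ki_v]; exact hti)
    have e2 := hb3 N hN3 w' (r + t.im * I) (ki_pt_re hw') (ki_pt_im H2 hw') (by rw [ki_r]; exact r1)
      (by rw [ki_r]; exact r2) (by rw [ki_v]; exact hti)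
    have f1 := ki_pt H1 hw r1 r2
    have f2 := ki_pt H2 hw' r1 r2
    have hS := kne_tp kern r ξ ξ'
    apply kne_prod hC3.le hN0 e1 e2
    rcases hor with h | h
    · have := ki_pt_wall H1 h r1 r2
      linarith
    · have := ki_pt_wall H2 h r1 r2
      linarith
  have hint := intervalIntegral.norm_integral_le_of_norm_le_const hbd
  unfold KI
  rw [norm_mul, Complex.norm_natCast]
  have habs : |bN N - aN N| ≤ 1 := by
    rw [abs_le]; constructor <;> linarith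
  set E := Real.exp (N * (SP y t ξ + SP z t ξ' - 1 / 2000)) with hE
  have hE0 : 0 < E := Real.exp_pos _
  calc (N : ℝ) * ‖∫ r in (aN N)..(bN N), gmc N w (r + t.im * I) * gmc N w' (r + t.im * I)‖ ≤
      N * ((C3 / N) ^ 2 * E * |bN N - aN N|) := by gcongr
    _ ≤ N * ((C3 / N) ^ 2 * E * 1) := by gcongr
    _ = C3 ^ 2 * E / N := by field_simp
    _ ≤ C3 ^ 2 * E := div_le_self (by positivity) (by linarith)

/-- Gauss integral over a bounded interval -/
theorem ki_gauss {a b c β : ℝ} (hab : a ≤ b) (hβ : 0 < β) :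
    ∫ r in a..b, Real.exp (-β * (r - c) ^ 2) ≤ Real.sqrt (Real.pi / β) := by
  have hI : MeasureTheory.Integrable (fun r : ℝ => Real.exp (-β * (r - c) ^ 2)) :=
    (integrable_exp_neg_mul_sq hβ).comp_sub_right c
  rw [intervalIntegral.integral_of_le hab, ← integral_gaussian β,
    ← MeasureTheory.integral_sub_right_eq_self (fun x : ℝ => Real.exp (-β * x ^ 2)) c]
  exact MeasureTheory.setIntegral_le_integral hI (Filter.Eventually.of_forall
    (fun r => (Real.exp_pos _).le))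

theorem ki_near {x0 x1 : ℝ} {y z t : ℂ} (H1 : Half x0 y t) (H2 : Half x1 z t)
    (kern : gamt y t + gamt z t = 0) : ∃ (C : ℝ) (N0 : ℕ), 0 < C ∧ ∀ N : ℕ, N0 ≤ N →
    ∀ x x' : ℝ, |x| ≤ 17 / 100 → |x'| ≤ 17 / 100 →
    ‖KI N t.im (x + y.im * I) (x' + z.im * I)‖ * Real.sqrt N ^ 3 ≤ C * Real.exp (N *
      (SP y t x + SP z t x' - ((x - y.re) ^ 2 + (x' - z.re) ^ 2) / 5)) := by
  obtain ⟨C3, N3, hC3, hb3⟩ := gmc_bd
  refine ⟨C3 ^ 2 * Real.sqrt (Real.pi / (2 / 5)), max N3 1000, by positivity, ?_⟩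
  intro N hN x x' hx hx'
  have hN3 : N3 ≤ N := le_trans (le_max_left _ _) hN
  have hN4 : 1000 ≤ N := le_trans (le_max_right _ _) hN
  have hNr : (1000 : ℝ) ≤ N := by exact_mod_cast hN4
  have hN0 : (0 : ℝ) < N := by linarith
  obtain ⟨m0, n, hmn, ha, hb, hlo, hhi, hmid, a1, a2, b1, b2⟩ := kne_win hN4
  have hti : |t.im| ≤ 1 / 10 := by linarith [H1.tim]
  set w : ℂ := (x : ℂ) + y.im * I with hw
  set w' : ℂ := (x' : ℂ) + z.im * I with hw'
  have hy1 : |y.im| ≤ 1 / 10 := by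
    have h1 := H1.yneg
    have h2 := H1.yim
    rw [abs_le]; constructor <;> linarith
  have hz1 : |z.im| ≤ 1 / 10 := by
    have h1 := H2.yneg
    have h2 := H2.yim
    rw [abs_le]; constructor <;> linarith
  set Q := SP y t x + SP z t x' - ((x - y.re) ^ 2 + (x' - z.re) ^ 2) / 5 with hQ
  have hbd : ∀ r ∈ Set.Ioc (aN N) (bN N),
      ‖gmc N w (r + t.im * I) * gmc N w' (r + t.im * I)‖ ≤
        (C3 / N) ^ 2 * Real.exp (N * Q) * Real.exp (-((2 / 5) * N) * (r - t.re) ^ 2) := by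
    intro r hr
    have r1 : 17 / 100 ≤ r := by linarith [hr.1]
    have r2 : r ≤ 31 / 100 := by linarith [hr.2]
    have e1 := hb3 N hN3 w (r + t.im * I) (by rw [hw, ki_r]; exact hx)
      (by rw [hw, ki_v]; exact hy1) (by rw [ki_r]; exact r1)
      (by rw [ki_r]; exact r2) (by rw [ki_v]; exact hti)
    have e2 := hb3 N hN3 w' (r + t.im * I) (by rw [hw', ki_r]; exact hx')
      (by rw [hw', ki_v]; exact hz1) (by rw [ki_r]; exact r1)
      (by rw [ki_r]; exact r2) (by rw [ki_v]; exact hti)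
    have f1 := H1.near r x r1 r2 hx
    have f2 := H2.near r x' r1 r2 hx'
    have hS := kne_tp kern r x x'
    have key := kne_prod (c := Q - (2 / 5) * (r - t.re) ^ 2) hC3.le hN0 e1 e2
      (by rw [hQ]; linarith)
    refine le_trans key (le_of_eq ?_)
    rw [mul_assoc ((C3 / (N : ℝ)) ^ 2), ← Real.exp_add]
    congr 2; ring
  have hab : aN N ≤ bN N := by linarith
  have hii : IntervalIntegrable (fun r : ℝ => (C3 / N) ^ 2 * Real.exp (N * Q) *
      Real.exp (-((2 / 5) * N) * (r - t.re) ^ 2)) MeasureTheory.volume (aN N) (bN N) :=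
    Continuous.intervalIntegrable (by fun_prop) (aN N) (bN N)
  have hint := intervalIntegral.norm_integral_le_of_norm_le hab
    (Filter.Eventually.of_forall hbd) hii
  rw [intervalIntegral.integral_const_mul] at hint
  have hg := ki_gauss (c := t.re) hab (β := (2 / 5) * N) (by positivity)
  unfold KI
  rw [norm_mul, Complex.norm_natCast]
  set E := Real.exp (N * Q) with hE
  have hE0 : 0 < E := Real.exp_pos _
  have hs : Real.sqrt (Real.pi / ((2 / 5) * N)) * Real.sqrt N = Real.sqrt (Real.pi / (2 / 5)) := by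
    rw [← Real.sqrt_mul (by positivity)]
    congr 1
    field_simp
  have hs3 : Real.sqrt N ^ 3 = N * Real.sqrt N := by
    have := Real.mul_self_sqrt hN0.le
    calc Real.sqrt N ^ 3 = Real.sqrt N * Real.sqrt N * Real.sqrt N := by ring
      _ = _ := by rw [this]
  calc (N : ℝ) * ‖∫ r in (aN N)..(bN N), gmc N w (r + t.im * I) * gmc N w' (r + t.im * I)‖ *
      Real.sqrt N ^ 3 ≤
      N * ((C3 / N) ^ 2 * E * Real.sqrt (Real.pi / ((2 / 5) * N))) * Real.sqrt N ^ 3 := by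
        have := le_trans hint (mul_le_mul_of_nonneg_left hg (by positivity))
        gcongr
    _ = C3 ^ 2 * E * (Real.sqrt (Real.pi / ((2 / 5) * N)) * Real.sqrt N) := by
        rw [hs3]; field_simp
    _ = C3 ^ 2 * Real.sqrt (Real.pi / (2 / 5)) * E := by rw [hs]; ring

end Pool.Agent.XV
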