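import Pool.Agent.XV.Klim
import Pool.Agent.XV.Ki
import Pool.Agent.XV.Kfar

/-!
# XV KER: the properties of the kernel of an edge
-/

set_option autoImplicit false

namespace Pool.Agent.XV

open Complex Finset Filter Topology
open Pool.Agent.Helper9.TB Pool.Agent.Helper9.TF

/-- `N ^ K * exp (-c N)` is bounded -/
lemma pow_exp_bd (K : ℕ) {c : ℝ} (hc : 0 < c) : ∃ M : ℝ, 0 < M ∧ ∀ N : ℕ,
    (N : ℝ) ^ K * Real.exp (-(c * N)) ≤ M := by
  have h := Real.tendsto_pow_mul_exp_neg_atTop_nhds_zero K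
  have h1 : Tendsto (fun N : ℕ => ((c * N : ℝ)) ^ K * Real.exp (-(c * N))) atTop (𝓝 0) := by
    have h2 : Tendsto (fun N : ℕ => (c * N : ℝ)) atTop atTop :=
      Tendsto.const_mul_atTop hc tendsto_natCast_atTop_atTop
    exact h.comp h2
  obtain ⟨M, hM⟩ := h1.bddAbove_range
  refine ⟨(|M| + 1) / c ^ K, by positivity, fun N => ?_⟩
  have h3 : (c * N : ℝ) ^ K * Real.exp (-(c * N)) ≤ M := hM ⟨N, rfl⟩
  rw [le_div_iff₀ (by positivity)]
  calc (N : ℝ) ^ K * Real.exp (-(c * N)) * c ^ K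
      = (c * N : ℝ) ^ K * Real.exp (-(c * N)) := by rw [mul_pow]; ring
    _ ≤ M := h3
    _ ≤ |M| + 1 := by linarith [le_abs_self M]

theorem kerP {x0 x1 : ℝ} {y z t : ℂ} (H1 : Half x0 y t) (H2 : Half x1 z t)
    (kern : gamt y t + gamt z t = 0) : KerP x0 x1 y z t := by
  refine ⟨?_, ?_, kn_lim H1 H2 kern⟩
  · obtain ⟨C1, K1, N1, hC1, h1⟩ := kn_in H1 H2 kern
    obtain ⟨C2, N2, hC2, h2⟩ := ki_near H1 H2 kern
    obtain ⟨M, hM, h3⟩ := pow_exp_bd (K1 + 2) (c := 1 / 10000) (by norm_num)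
    refine ⟨C1 * M + C2, max (max N1 N2) 1, by positivity, fun N hN x x' hx hx' => ?_⟩
    have hN1 : N1 ≤ N := by omega
    have hN2 : N2 ≤ N := by omega
    have hNp : (1 : ℝ) ≤ N := by exact_mod_cast (show 1 ≤ N by omega)
    have a1 := h1 N hN1 (x + y.im * I) (x' + z.im * I) x x' (Or.inl ⟨hx, rfl⟩)
      (Or.inl ⟨hx', rfl⟩)
    have a2 := h2 N hN2 x x' hx hx'
    have hsq : Real.sqrt N ^ 3 ≤ (N : ℝ) ^ 2 := by
      have e1 : Real.sqrt N ^ 4 = (N : ℝ) ^ 2 := by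
        rw [show Real.sqrt N ^ 4 = (Real.sqrt N ^ 2) ^ 2 by ring, Real.sq_sqrt (by linarith)]
      rw [← e1]
      apply pow_le_pow_right₀ _ (by norm_num)
      rw [Real.one_le_sqrt]
      exact hNp
    have hq : ((x - y.re) ^ 2 + (x' - z.re) ^ 2) / 400 ≤ 1 / 2000 - 1 / 10000 := by
      have b1 := abs_le.1 hx
      have b2 := abs_le.1 hx'
      have b3 := abs_le.1 H1.yre
      have b4 := abs_le.1 H2.yre
      nlinarith [sq_nonneg (x - y.re), sq_nonneg (x' - z.re)]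
    set S := SP y t x + SP z t x' with hS
    set Q := ((x - y.re) ^ 2 + (x' - z.re) ^ 2) with hQ
    have hQ0 : 0 ≤ Q := by positivity
    have a3 := norm_add_le (KN N (x + y.im * I) (x' + z.im * I) -
      KI N t.im (x + y.im * I) (x' + z.im * I)) (KI N t.im (x + y.im * I) (x' + z.im * I))
    rw [sub_add_cancel] at a3
    have a4 : C1 * (N : ℝ) ^ K1 * Real.exp (N * (S - 1 / 2000)) * Real.sqrt N ^ 3 ≤
        C1 * M * Real.exp (N * (S - Q / 400)) := by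
      have e1 : Real.exp (N * (S - 1 / 2000)) ≤
          Real.exp (N * (S - Q / 400)) * Real.exp (-(1 / 10000 * N)) := by
        rw [← Real.exp_add]
        apply Real.exp_le_exp.2
        nlinarith
      calc C1 * (N : ℝ) ^ K1 * Real.exp (N * (S - 1 / 2000)) * Real.sqrt N ^ 3
          ≤ C1 * (N : ℝ) ^ K1 * (Real.exp (N * (S - Q / 400)) * Real.exp (-(1 / 10000 * N))) *
            (N : ℝ) ^ 2 := by gcongr
        _ = C1 * ((N : ℝ) ^ (K1 + 2) * Real.exp (-(1 / 10000 * N))) *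
            Real.exp (N * (S - Q / 400)) := by ring
        _ ≤ C1 * M * Real.exp (N * (S - Q / 400)) := by
            have := h3 N
            gcongr
    have a5 : Real.exp (N * (S - Q / 5)) ≤ Real.exp (N * (S - Q / 400)) := by
      apply Real.exp_le_exp.2
      nlinarith
    calc ‖KN N (x + y.im * I) (x' + z.im * I)‖ * Real.sqrt N ^ 3
        ≤ (C1 * (N : ℝ) ^ K1 * Real.exp (N * (S - 1 / 2000)) +
          ‖KI N t.im (x + y.im * I) (x' + z.im * I)‖) * Real.sqrt N ^ 3 := by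
            gcongr
            linarith
      _ = C1 * (N : ℝ) ^ K1 * Real.exp (N * (S - 1 / 2000)) * Real.sqrt N ^ 3 +
          ‖KI N t.im (x + y.im * I) (x' + z.im * I)‖ * Real.sqrt N ^ 3 := by ring
      _ ≤ C1 * M * Real.exp (N * (S - Q / 400)) + C2 * Real.exp (N * (S - Q / 5)) :=
          add_le_add a4 a2
      _ ≤ (C1 * M + C2) * Real.exp (N * (S - Q / 400)) := by
          rw [add_mul]
          gcongr
  · obtain ⟨C1, K1, N1, hC1, h1⟩ := kn_in H1 H2 kern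
    obtain ⟨C2, N2, hC2, h2⟩ := ki_wall H1 H2 kern
    obtain ⟨C3, K3, N3, hC3, h3⟩ := kn_far H1 H2 kern
    refine ⟨C1 + C2 + C3, K1 + K3, max (max (max N1 N2) N3) 1, by positivity,
      fun N hN w w' ξ ξ' hw hw' ho => ?_⟩
    have hNp : (1 : ℝ) ≤ N := by exact_mod_cast (show 1 ≤ N by omega)
    set X := Real.exp (N * (SP y t ξ + SP z t ξ' - 1 / 2000)) with hX
    have hX0 : 0 < X := Real.exp_pos _
    have p1 : (N : ℝ) ^ K1 ≤ (N : ℝ) ^ (K1 + K3) := pow_le_pow_right₀ hNp (by omega)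
    have p3 : (N : ℝ) ^ K3 ≤ (N : ℝ) ^ (K1 + K3) := pow_le_pow_right₀ hNp (by omega)
    have p0 : (1 : ℝ) ≤ (N : ℝ) ^ (K1 + K3) := one_le_pow₀ hNp
    have key : ∀ c1 c2 c3 : ℝ, 0 ≤ c1 → 0 ≤ c2 → 0 ≤ c3 → c1 ≤ C1 → c2 ≤ C2 → c3 ≤ C3 →
        c1 * (N : ℝ) ^ K1 * X + c2 * X + c3 * (N : ℝ) ^ K3 * X ≤
          (C1 + C2 + C3) * (N : ℝ) ^ (K1 + K3) * X := by
      intro c1 c2 c3 g1 g2 g3 l1 l2 l3
      have q1 : c1 * (N : ℝ) ^ K1 * X ≤ C1 * (N : ℝ) ^ (K1 + K3) * X := by gcongr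
      have q2 : c2 * X ≤ C2 * (N : ℝ) ^ (K1 + K3) * X := by
        have : c2 * 1 * X ≤ C2 * (N : ℝ) ^ (K1 + K3) * X := by gcongr
        simpa using this
      have q3 : c3 * (N : ℝ) ^ K3 * X ≤ C3 * (N : ℝ) ^ (K1 + K3) * X := by gcongr
      linarith
    by_cases hf : Fa x0 N w ξ ∨ Fa x1 N w' ξ'
    · have := h3 N (by omega) w w' ξ ξ' hw hw' hf
      have k := key 0 0 C3 le_rfl le_rfl hC3.le hC1.le hC2.le le_rfl
      linarith
    · push Not at hf
      have g1 : Nr y w ξ ∨ Wa x0 y N w ξ := by tauto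
      have g2 : Nr z w' ξ' ∨ Wa x1 z N w' ξ' := by tauto
      have g3 : Wa x0 y N w ξ ∨ Wa x1 z N w' ξ' := by tauto
      have a1 := h1 N (by omega) w w' ξ ξ' g1 g2
      have a2 := h2 N (by omega) w w' ξ ξ' g1 g2 g3
      have a3 := norm_add_le (KN N w w' - KI N t.im w w') (KI N t.im w w')
      rw [sub_add_cancel] at a3
      have k := key C1 C2 0 hC1.le hC2.le le_rfl le_rfl le_rfl hC3.le
      linarith

end Pool.Agent.XV
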