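import Pool.Agent.XV.Defs
import Pool.Agent.Helper11.TF.Lim

/-!
# XV TAY: the second order term of `gam`

`tay`: `CC` has derivative `cc` on the open convex set `HS` and `cc` has the derivative
`-(π tan π u)` (`CC_deriv`, `cc_deriv` in Helper11.TF.CN).  With `x = δ / sqrt N → 0`,
`N = δ ^ 2 / x ^ 2`, this is the second order Taylor formula
`CC (u0 + x) = CC u0 + cc u0 x - (π / 2) tan (π u0) x ^ 2 + o (x ^ 2)`.
(For instance: `R x = CC (u0 + x) - CC u0 - cc u0 x + (π / 2) tan (π u0) x ^ 2` has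
`R' x = cc (u0 + x) - cc u0 + π tan (π u0) x = o (x)`, and the mean value inequality on `[0, x]`.)

`gam_tay`: `gam y t = CC (t + y) + CC (t - y) - 2 CC (t - 1 / 2)`, `gamy y t = cc (t + y) - cc (t - y)`,
`gamt y t = cc (t + y) + cc (t - y) - 2 cc (t - 1 / 2)`; apply `tay` with `δ = w + u`, `w - u`, `w`.
-/

set_option autoImplicit false

namespace Pool.Agent.XV

open Complex Finset Filter Topology
open Pool.Agent.Helper9.TB Pool.Agent.Helper9.TF

private lemma tay_o {u0 : ℂ} (hu : u0 ∈ HS) :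
    (fun z : ℂ => CC (u0 + z) - CC u0 - cc u0 * z +
      Real.pi / 2 * Complex.tan (Real.pi * u0) * z ^ 2) =o[𝓝 0] fun z : ℂ => z ^ 2 := by
  rw [Asymptotics.isLittleO_iff]
  intro c hc
  have h1 := hasDerivAt_iff_isLittleO_nhds_zero.1 (cc_deriv hu)
  have h2 := h1.bound hc
  have h3 : ∀ᶠ z : ℂ in 𝓝 0, u0 + z ∈ HS := by
    have h4 : ContinuousAt (fun z : ℂ => u0 + z) 0 := by fun_prop
    apply h4.eventually_mem
    rw [add_zero]
    exact isOpen_HS.mem_nhds hu
  obtain ⟨r, hr, hr'⟩ := Metric.eventually_nhds_iff_ball.1 (h2.and h3)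
  filter_upwards [Metric.ball_mem_nhds (0 : ℂ) hr] with z hz
  have hsub : Metric.closedBall (0 : ℂ) ‖z‖ ⊆ Metric.ball 0 r :=
    Metric.closedBall_subset_ball (by simpa using hz)
  have hd : ∀ w ∈ Metric.closedBall (0 : ℂ) ‖z‖,
      HasDerivWithinAt (fun z : ℂ => CC (u0 + z) - CC u0 - cc u0 * z +
        Real.pi / 2 * Complex.tan (Real.pi * u0) * z ^ 2)
        (cc (u0 + w) - cc u0 + Real.pi * Complex.tan (Real.pi * u0) * w)
        (Metric.closedBall (0 : ℂ) ‖z‖) w := by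
    intro w hw
    have hw' := (hr' w (hsub hw)).2
    have e1 : HasDerivAt (fun z : ℂ => CC (u0 + z)) (cc (u0 + w)) w := by
      have := (CC_deriv hw').comp_const_add u0 w
      exact this
    have e2 : HasDerivAt (fun z : ℂ => cc u0 * z) (cc u0) w := by
      simpa using (hasDerivAt_id w).const_mul (cc u0)
    have e3 : HasDerivAt (fun z : ℂ => Real.pi / 2 * Complex.tan (Real.pi * u0) * z ^ 2)
        (Real.pi * Complex.tan (Real.pi * u0) * w) w := by
      have := (hasDerivAt_pow 2 w).const_mul ((Real.pi : ℂ) / 2 * Complex.tan (Real.pi * u0))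
      refine this.congr_deriv ?_
      push_cast
      ring
    exact (((e1.sub_const _).sub e2).add e3).hasDerivWithinAt
  have hb : ∀ w ∈ Metric.closedBall (0 : ℂ) ‖z‖,
      ‖cc (u0 + w) - cc u0 + Real.pi * Complex.tan (Real.pi * u0) * w‖ ≤ c * ‖z‖ := by
    intro w hw
    have hw1 := (hr' w (hsub hw)).1
    have hw2 : ‖w‖ ≤ ‖z‖ := by simpa using hw
    have e : cc (u0 + w) - cc u0 + Real.pi * Complex.tan (Real.pi * u0) * w =
        cc (u0 + w) - cc u0 - w • -(Real.pi * Complex.tan (Real.pi * u0)) := by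
      rw [smul_eq_mul]; ring
    rw [e]
    exact hw1.trans (mul_le_mul_of_nonneg_left hw2 hc.le)
  have h5 := (convex_closedBall (0 : ℂ) ‖z‖).norm_image_sub_le_of_norm_hasDerivWithin_le hd hb
    (x := 0) (y := z) (by simp) (by simp)
  simp only [add_zero, sub_self, mul_zero, sub_zero] at h5
  rw [norm_pow]
  have e2 : (0 : ℂ) ^ 2 = 0 := by norm_num
  rw [e2, mul_zero, add_zero, sub_zero] at h5
  calc _ ≤ c * ‖z‖ * ‖z‖ := h5
    _ = c * ‖z‖ ^ 2 := by ring

theorem tay {u0 : ℂ} (hu : u0 ∈ HS) (δ : ℝ) : Tendsto (fun N : ℕ => (N : ℂ) *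
      (CC (u0 + (δ / Real.sqrt N : ℝ)) - CC u0 - cc u0 * (δ / Real.sqrt N : ℝ))) atTop
    (𝓝 (-(Real.pi / 2) * Complex.tan (Real.pi * u0) * δ ^ 2)) := by
  have hs : Tendsto (fun N : ℕ => Real.sqrt N) atTop atTop :=
    Real.tendsto_sqrt_atTop.comp tendsto_natCast_atTop_atTop
  have h1 : Tendsto (fun N : ℕ => (δ / Real.sqrt N : ℝ)) atTop (𝓝 0) :=
    hs.const_div_atTop δ
  have h2 : Tendsto (fun N : ℕ => ((δ / Real.sqrt N : ℝ) : ℂ)) atTop (𝓝 0) := by
    have := (Complex.continuous_ofReal.tendsto 0).comp h1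
    rw [Complex.ofReal_zero] at this
    exact this
  have h3 := (tay_o hu).comp_tendsto h2
  have h4 : (fun N : ℕ => (N : ℂ) * (((δ / Real.sqrt N : ℝ) : ℂ)) ^ 2) =ᶠ[atTop]
      fun _ => (δ : ℂ) ^ 2 := by
    filter_upwards [eventually_ge_atTop 1] with N hN
    have hN' : (0 : ℝ) < N := by exact_mod_cast hN
    have e : (N : ℝ) * (δ / Real.sqrt N) ^ 2 = δ ^ 2 := by
      rw [div_pow, Real.sq_sqrt hN'.le]
      field_simp
    exact_mod_cast e
  have h5 : Tendsto (fun N : ℕ => (N : ℂ) * (CC (u0 + (δ / Real.sqrt N : ℝ)) - CC u0 -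
      cc u0 * (δ / Real.sqrt N : ℝ) + Real.pi / 2 * Complex.tan (Real.pi * u0) *
        ((δ / Real.sqrt N : ℝ) : ℂ) ^ 2)) atTop (𝓝 0) := by
    have h6 := (Asymptotics.isBigO_refl (fun N : ℕ => (N : ℂ)) atTop).mul_isLittleO h3
    have h7 : (fun N : ℕ => (N : ℂ) * ((fun z : ℂ => z ^ 2) ∘
        fun N : ℕ => ((δ / Real.sqrt N : ℝ) : ℂ)) N) =O[atTop] fun _ => (1 : ℂ) := by
      refine h4.trans_isBigO ?_
      exact Asymptotics.isBigO_const_const _ one_ne_zero _
    exact (Asymptotics.isLittleO_one_iff ℂ).1 (h6.trans_isBigO h7)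
  have h8 : Tendsto (fun N : ℕ => Real.pi / 2 * Complex.tan (Real.pi * u0) *
      ((N : ℂ) * (((δ / Real.sqrt N : ℝ) : ℂ)) ^ 2)) atTop
      (𝓝 (Real.pi / 2 * Complex.tan (Real.pi * u0) * δ ^ 2)) := by
    apply Tendsto.const_mul
    exact (tendsto_const_nhds).congr' h4.symm
  have h9 := h5.sub h8
  refine (h9.congr ?_).trans (le_of_eq ?_)
  · intro N
    ring
  · congr 1
    ring

theorem gam_tay {y t : ℂ} (h1 : t + y ∈ HS) (h2 : t - y ∈ HS) (h3 : t - 1 / 2 ∈ HS) (u w : ℝ) :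
    Tendsto (fun N : ℕ => (N : ℂ) *
      (gam (y + (u / Real.sqrt N : ℝ)) (t + (w / Real.sqrt N : ℝ)) - gam y t -
        gamy y t * (u / Real.sqrt N : ℝ) - gamt y t * (w / Real.sqrt N : ℝ))) atTop
    (𝓝 (-(Real.pi / 2) * (Complex.tan (Real.pi * (t + y)) * (w + u) ^ 2 +
      Complex.tan (Real.pi * (t - y)) * (w - u) ^ 2 -
      2 * Complex.tan (Real.pi * (t - 1 / 2)) * w ^ 2))) := by
  have e := ((tay h1 (w + u)).add (tay h2 (w - u))).sub ((tay h3 w).const_mul 2)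
  refine (e.congr ?_).trans (le_of_eq ?_)
  · intro N
    unfold gam gamy gamt
    have a1 : t + (w / Real.sqrt N : ℝ) + (y + (u / Real.sqrt N : ℝ)) =
        t + y + ((w + u) / Real.sqrt N : ℝ) := by push_cast; ring
    have a2 : t + (w / Real.sqrt N : ℝ) - (y + (u / Real.sqrt N : ℝ)) =
        t - y + ((w - u) / Real.sqrt N : ℝ) := by push_cast; ring
    have a3 : t + (w / Real.sqrt N : ℝ) - 1 / 2 = t - 1 / 2 + (w / Real.sqrt N : ℝ) := by ring
    rw [a1, a2, a3]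
    push_cast
    ring
  · congr 1
    push_cast
    ring

end Pool.Agent.XV
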