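import Pool.Agent.XV.Kne
import Pool.Agent.XV.Tay
import Pool.Agent.XV.Lap

/-!
# XV KLIM: the limit of the kernel

Fix `u v`; write `yN = y + u / sqrt N`, `zN = z + v / sqrt N`; for large `N` these are
`x + y.im I`, `x' + z.im I` with `|x|, |x'| ≤ 17 / 100` (`|y.re|, |z.re| ≤ 11 / 100`), so
`Nr y yN x`, `Nr z zN x'` with `x - y.re = u / sqrt N`.

1. By `kn_in` the difference of `KN` and `KI N t.im` contributes at most
   `C N ^ (K + 2) exp (-N / 2000) → 0`: the modulus of the normalising factor is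
   `exp (-N (SP y t x + SP z t x'))`.
2. Substitute `r = t.re + s / sqrt N` in `KI`: `r + t.im I = t + s / sqrt N`, so
   `KI N t.im yN zN = (N / sqrt N) ∫_{AN}^{BN} gmc N yN (t + s / sqrt N) gmc N zN (t + s / sqrt N) ds`
   with `AN = sqrt N (aN N - t.re) → -∞`, `BN = sqrt N (bN N - t.re) → ∞`
   (`t.re ∈ [23 / 100, 26 / 100]`).  Hence, since `sqrt N ^ 3 * (N / sqrt N) = N * N`, the normalised
   main part is `∫_{AN}^{BN} Φ N s ds`, `Φ N s = P N s * Q N s`,
   `P N s = N * gmc N yN tN * exp (-(N * (gam y t + gamy y t * u / sqrt N + gamt y t * s / sqrt N)))`,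
   `Q N s` the same with `z, v`; the terms with `gamt` cancel because `gamt y t + gamt z t = 0`.
3. Pointwise limit (`gmc_lim`, `gam_tay`, continuity of `sin`):
   `P N s → (2 sin π t)⁻¹ exp (-(π / 2) (tan π (t + y) (s + u) ^ 2 + tan π (t - y) (s - u) ^ 2
     - 2 tan π (t - 1 / 2) s ^ 2))`, the same for `Q`.
4. Domination on `[AN, BN]`: by `gmc_bd` and `Half.near` with `r - t.re = s / sqrt N`:
   `‖P N s‖ ≤ C exp (-s ^ 2 / 5)`, the same for `Q`, so `‖Φ N s‖ ≤ C ^ 2 exp (-2 s ^ 2 / 5)`.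
5. Dominated convergence (with the indicator of `[AN, BN]`): the limit is
   `(2 sin π t)⁻² ∫ exp (b s ^ 2 + c s + d) ds`, where `b` is minus `π / 2` times
   `tan π (t + y) + tan π (t - y) + tan π (t + z) + tan π (t - z) - 4 tan π (t - 1 / 2)`, `c` is
   linear and `d` quadratic in `u, v`.  By 4. the limit function is bounded by
   `C ^ 2 exp (-2 s ^ 2 / 5)` for all `s`, so `b.re ≤ -2 / 5 < 0` (let `s → ∞`), and
   `integral_cexp_quadratic` gives `(π / -b) ^ (1 / 2) exp (d - c ^ 2 / (4 b))`.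
   So `k = (2 sin π t)⁻² (π / -b) ^ (1 / 2) ≠ 0` (`sin π t ≠ 0` because `0 < t.re < 1`).
-/

set_option autoImplicit false

namespace Pool.Agent.XV

open Complex Finset Filter Topology
open Pool.Agent.Helper9.TB Pool.Agent.Helper9.TF

private lemma ptk_eq (y : ℂ) (x : ℝ) : y + (x : ℂ) = ((y.re + x : ℝ) : ℂ) + y.im * I := by
  apply Complex.ext <;> simp

private lemma evk_near {y : ℂ} (hyr : |y.re| ≤ 11 / 100) (u : ℝ) :
    ∀ᶠ N : ℕ in atTop, |y.re + u / Real.sqrt N| ≤ 17 / 100 := by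
  have h := (div_sqrt_lim u).abs
  rw [abs_zero] at h
  filter_upwards [h.eventually (ge_mem_nhds (show (0 : ℝ) < 6 / 100 by norm_num))] with N hN
  calc |y.re + u / Real.sqrt N| ≤ |y.re| + |u / Real.sqrt N| := abs_add_le _ _
    _ ≤ 11 / 100 + 6 / 100 := add_le_add hyr hN
    _ = 17 / 100 := by norm_num

private lemma aN_ge {N : ℕ} (hN : 0 < N) : 17 / 100 ≤ aN N := by
  have hNp : (0 : ℝ) < N := by exact_mod_cast hN
  unfold aN
  rw [le_div_iff₀ hNp]
  linarith [Nat.le_ceil ((17 / 100 : ℝ) * N)]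

private lemma aN_le {N : ℕ} (hN : 200 ≤ N) : aN N ≤ 18 / 100 := by
  have hNp : (200 : ℝ) ≤ N := by exact_mod_cast hN
  unfold aN
  rw [div_le_iff₀ (by linarith)]
  linarith [Nat.ceil_lt_add_one (show (0 : ℝ) ≤ 17 / 100 * N by positivity)]

private lemma bN_le {N : ℕ} (hN : 0 < N) : bN N ≤ 31 / 100 := by
  have hNp : (0 : ℝ) < N := by exact_mod_cast hN
  unfold bN
  rw [div_le_iff₀ hNp]
  linarith [Nat.floor_le (show (0 : ℝ) ≤ 31 / 100 * N by positivity)]

private lemma bN_ge {N : ℕ} (hN : 200 ≤ N) : 30 / 100 ≤ bN N := by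
  have hNp : (200 : ℝ) ≤ N := by exact_mod_cast hN
  unfold bN
  rw [le_div_iff₀ (by linarith)]
  linarith [Nat.lt_floor_add_one ((31 / 100 : ℝ) * N)]

/-- one normalised factor of the integrand -/
private noncomputable def Pn (y t : ℂ) (u : ℝ) (N : ℕ) (s : ℝ) : ℂ :=
  N * gmc N (y + (u / Real.sqrt N : ℝ)) (t + (s / Real.sqrt N : ℝ)) *
    Complex.exp (-(N * (gam y t + gamy y t * (u / Real.sqrt N : ℝ) +
      gamt y t * (s / Real.sqrt N : ℝ))))

private lemma half_HS {x0 : ℝ} {y t : ℂ} (H : Half x0 y t) :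
    t + y ∈ HS ∧ t - y ∈ HS ∧ t - 1 / 2 ∈ HS := by
  have h1 := abs_le.1 H.yre
  have h2 := H.tre1
  have h3 := H.tre2
  unfold HS
  refine ⟨?_, ?_, ?_⟩
  · rw [Set.mem_setOf_eq, Complex.add_re, abs_lt]
    constructor <;> linarith
  · rw [Set.mem_setOf_eq, Complex.sub_re, abs_lt]
    constructor <;> linarith
  · rw [Set.mem_setOf_eq, Complex.sub_re, abs_lt]
    have : ((1 / 2 : ℂ)).re = 1 / 2 := by norm_num
    rw [this]
    constructor <;> linarith

private lemma sin_ne {x0 : ℝ} {y t : ℂ} (H : Half x0 y t) : Complex.sin (Real.pi * t) ≠ 0 := by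
  rw [Ne, Complex.sin_eq_zero_iff]
  rintro ⟨n, hn⟩
  have h5 : (Real.pi : ℂ) ≠ 0 := by exact_mod_cast Real.pi_ne_zero
  have h1 : t = n := by
    apply mul_left_cancel₀ h5
    rw [hn]; ring
  have h2 : t.re = n := by rw [h1]; simp
  have h3 := H.tre1
  have h4 := H.tre2
  rw [h2] at h3 h4
  have h6 : (0 : ℝ) < n := by linarith
  have h7 : (n : ℝ) < 1 := by linarith
  have h8 : (0 : ℤ) < n := by exact_mod_cast h6
  have h9 : n < (1 : ℤ) := by exact_mod_cast h7
  omega

/-- the limit of one factor -/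
private noncomputable def Pl (y t : ℂ) (u s : ℝ) : ℂ :=
  1 / (2 * Complex.sin (Real.pi * t)) *
    Complex.exp (-(Real.pi / 2) * (Complex.tan (Real.pi * (t + y)) * (s + u) ^ 2 +
      Complex.tan (Real.pi * (t - y)) * (s - u) ^ 2 -
      2 * Complex.tan (Real.pi * (t - 1 / 2)) * s ^ 2))

private lemma pn_lim {x0 : ℝ} {y t : ℂ} (H : Half x0 y t) (u s : ℝ) :
    Tendsto (fun N : ℕ => Pn y t u N s) atTop (𝓝 (Pl y t u s)) := by
  obtain ⟨C, N0, hC, hg⟩ := gmc_lim
  obtain ⟨m1, m2, m3⟩ := half_HS H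
  have h1 := gam_tay m1 m2 m3 u s
  have h2 := (Complex.continuous_exp.tendsto _).comp h1
  have hyim : |y.im| ≤ 1 / 10 := by
    rw [abs_le]; constructor <;> linarith [H.yneg, H.yim]
  have htim : |t.im| ≤ 1 / 10 := H.tim.trans (by norm_num)
  have hts : ∀ᶠ N : ℕ in atTop, |s / Real.sqrt N| ≤ 5 / 100 := by
    have h := (div_sqrt_lim s).abs
    rw [abs_zero] at h
    exact h.eventually (ge_mem_nhds (by norm_num))
  -- the factor from `gmc`
  have h3 : Tendsto (fun N : ℕ => (N : ℂ) * gmc N (y + (u / Real.sqrt N : ℝ))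
      (t + (s / Real.sqrt N : ℝ)) * Complex.exp (-(N * gam (y + (u / Real.sqrt N : ℝ))
      (t + (s / Real.sqrt N : ℝ)))) - 1 / (2 * Complex.sin (Real.pi * (t + (s / Real.sqrt N : ℝ)))))
      atTop (𝓝 0) := by
    have h4 : Tendsto (fun N : ℕ => C / (N : ℝ)) atTop (𝓝 0) :=
      tendsto_const_div_atTop_nhds_zero_nat C
    refine squeeze_zero_norm' ?_ h4
    filter_upwards [eventually_ge_atTop N0, evk_near H.yre u, hts] with N hN e1 e2
    have e3 := abs_le.1 e2
    refine hg N hN _ _ ?_ ?_ ?_ ?_ ?_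
    · simpa using e1
    · simpa using hyim
    · have := H.tre1
      simp only [Complex.add_re, Complex.ofReal_re]
      linarith
    · have := H.tre2
      simp only [Complex.add_re, Complex.ofReal_re]
      linarith
    · simpa using htim
  have h5 : Tendsto (fun N : ℕ => 1 / (2 * Complex.sin (Real.pi * (t + (s / Real.sqrt N : ℝ)))))
      atTop (𝓝 (1 / (2 * Complex.sin (Real.pi * t)))) := by
    have h6 : Tendsto (fun N : ℕ => (((s / Real.sqrt N : ℝ)) : ℂ)) atTop (𝓝 0) := by
      have := (Complex.continuous_ofReal.tendsto 0).comp (div_sqrt_lim s)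
      simpa [Function.comp_def] using this
    have h7 : Tendsto (fun N : ℕ => 2 * Complex.sin (Real.pi * (t + (s / Real.sqrt N : ℝ))))
        atTop (𝓝 (2 * Complex.sin (Real.pi * t))) := by
      have h8 : Tendsto (fun N : ℕ => (Real.pi : ℂ) * (t + (s / Real.sqrt N : ℝ))) atTop
          (𝓝 (Real.pi * (t + 0))) := (h6.const_add t).const_mul _
      rw [add_zero] at h8
      exact ((Complex.continuous_sin.tendsto _).comp h8).const_mul 2
    exact tendsto_const_nhds.div h7 (mul_ne_zero two_ne_zero (sin_ne H))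
  have h6 := h3.add h5
  rw [zero_add] at h6
  have h7 := h6.mul h2
  refine h7.congr fun N => ?_
  simp only [Function.comp_apply, sub_add_cancel]
  unfold Pn
  rw [mul_assoc ((N : ℂ) * _), ← Complex.exp_add]
  congr 2
  ring

private lemma pn_bound {x0 : ℝ} {y t : ℂ} (H : Half x0 y t) (u : ℝ) :
    ∃ C : ℝ, 0 < C ∧ ∀ᶠ N : ℕ in atTop, ∀ s : ℝ, 17 / 100 ≤ t.re + s / Real.sqrt N →
      t.re + s / Real.sqrt N ≤ 31 / 100 →
      ‖Pn y t u N s‖ ≤ C * Real.exp (-(1 / 5) * s ^ 2) := by
  obtain ⟨C, N0, hC, hg⟩ := gmc_bd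
  have hyim : |y.im| ≤ 1 / 10 := by
    rw [abs_le]; constructor <;> linarith [H.yneg, H.yim]
  have htim : |t.im| ≤ 1 / 10 := H.tim.trans (by norm_num)
  refine ⟨C, hC, ?_⟩
  filter_upwards [eventually_ge_atTop N0, evk_near H.yre u, eventually_ge_atTop 1]
    with N hN e1 e2 s hs1 hs2
  have hNp : (0 : ℝ) < N := by exact_mod_cast (show 0 < N by omega)
  have hsq : Real.sqrt N ^ 2 = N := Real.sq_sqrt hNp.le
  set δ : ℝ := u / Real.sqrt N with hδ
  set ε : ℝ := s / Real.sqrt N with hε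
  have a1 := hg N hN (y + (δ : ℂ)) (t + (ε : ℂ)) (by simpa using e1) (by simpa using hyim)
    (by simpa using hs1) (by simpa using hs2) (by simpa using htim)
  have a2 := H.near (t.re + ε) (y.re + δ) hs1 hs2 e1
  rw [← ptk_eq, ← ptk_eq] at a2
  unfold Pn
  rw [← hδ, ← hε, norm_mul, norm_mul, Complex.norm_natCast, Complex.norm_exp]
  have a7 : ((-(N * (gam y t + gamy y t * (δ : ℂ) + gamt y t * (ε : ℂ)))) : ℂ).re =
      -(N * ((gam y t).re + (gamy y t).re * δ + (gamt y t).re * ε)) := by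
    rw [Complex.neg_re, ← Complex.ofReal_natCast, Complex.re_ofReal_mul]
    simp
  rw [a7]
  calc (N : ℝ) * ‖gmc N (y + (δ : ℂ)) (t + (ε : ℂ))‖ *
        Real.exp (-(N * ((gam y t).re + (gamy y t).re * δ + (gamt y t).re * ε)))
      ≤ (N : ℝ) * (C / N * Real.exp (N * (gam (y + (δ : ℂ)) (t + (ε : ℂ))).re)) *
        Real.exp (-(N * ((gam y t).re + (gamy y t).re * δ + (gamt y t).re * ε))) := by
        gcongr
    _ = C * Real.exp (N * (gam (y + (δ : ℂ)) (t + (ε : ℂ))).re +
        -(N * ((gam y t).re + (gamy y t).re * δ + (gamt y t).re * ε))) := by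
        rw [Real.exp_add]
        field_simp
    _ ≤ C * Real.exp (-(1 / 5) * s ^ 2) := by
        refine mul_le_mul_of_nonneg_left (Real.exp_le_exp.2 ?_) hC.le
        have b3 : (N : ℝ) * ε ^ 2 = s ^ 2 := by
          rw [hε, div_pow, hsq]
          field_simp
        have b4 : (0 : ℝ) ≤ N * δ ^ 2 := by positivity
        have b5 := mul_le_mul_of_nonneg_left a2 hNp.le
        unfold TP at b5
        nlinarith

theorem kn_lim {x0 x1 : ℝ} {y z t : ℂ} (H1 : Half x0 y t) (H2 : Half x1 z t)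
    (kern : gamt y t + gamt z t = 0) :
    ∃ k α β γ : ℂ, k ≠ 0 ∧ ∀ u v : ℝ, Tendsto (fun N : ℕ => (Real.sqrt N : ℂ) ^ 3 *
      Complex.exp (-(N * (gam y t + gam z t + gamy y t * (u / Real.sqrt N : ℝ) +
        gamy z t * (v / Real.sqrt N : ℝ)))) *
      KN N (y + (u / Real.sqrt N : ℝ)) (z + (v / Real.sqrt N : ℝ)))
    atTop (𝓝 (k * Complex.exp (α * u ^ 2 + β * u * v + γ * v ^ 2))) := by
  obtain ⟨C0, K, N0, hC0, hkn⟩ := kn_in H1 H2 kern
  set T1 := Complex.tan (Real.pi * (t + y)) with hT1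
  set T2 := Complex.tan (Real.pi * (t - y)) with hT2
  set T3 := Complex.tan (Real.pi * (t + z)) with hT3
  set T4 := Complex.tan (Real.pi * (t - z)) with hT4
  set T0 := Complex.tan (Real.pi * (t - 1 / 2)) with hT0
  set b : ℂ := -(Real.pi / 2) * (T1 + T2 + T3 + T4 - 4 * T0) with hb
  set κ : ℂ := (1 / (2 * Complex.sin (Real.pi * t))) ^ 2 with hκ
  have hκ0 : κ ≠ 0 := by
    rw [hκ]
    exact pow_ne_zero _ (one_div_ne_zero (mul_ne_zero two_ne_zero (sin_ne H1)))
  -- the limit function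
  have hprod : ∀ u v s : ℝ, Pl y t u s * Pl z t v s = κ * Complex.exp (b * s ^ 2 +
      (-Real.pi * ((T1 - T2) * u + (T3 - T4) * v)) * s +
      (-(Real.pi / 2) * ((T1 + T2) * u ^ 2 + (T3 + T4) * v ^ 2))) := by
    intro u v s
    unfold Pl
    rw [← hT1, ← hT2, ← hT3, ← hT4, ← hT0, mul_mul_mul_comm, ← Complex.exp_add, ← sq, ← hκ]
    congr 2
    rw [hb]
    ring
  have key : ∀ u v : ℝ, b.re < 0 ∧ Tendsto (fun N : ℕ =>
      ∫ s in (Real.sqrt N * (aN N - t.re))..(Real.sqrt N * (bN N - t.re)),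
        Pn y t u N s * Pn z t v N s) atTop
      (𝓝 (∫ s : ℝ, κ * Complex.exp (b * s ^ 2 +
      (-Real.pi * ((T1 - T2) * u + (T3 - T4) * v)) * s +
      (-(Real.pi / 2) * ((T1 + T2) * u ^ 2 + (T3 + T4) * v ^ 2))))) := by
    intro u v
    obtain ⟨C1, hC1, hb1⟩ := pn_bound H1 u
    obtain ⟨C2, hC2, hb2⟩ := pn_bound H2 v
    have hA : Tendsto (fun N : ℕ => Real.sqrt N * (aN N - t.re)) atTop atBot := by
      refine tendsto_atBot_mono' _ ?_ (sqrt_mul_atBot (c := -(5 / 100)) (by norm_num))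
      filter_upwards [eventually_ge_atTop 200] with N hN
      have := aN_le hN
      exact mul_le_mul_of_nonneg_left (by linarith [H1.tre1]) (Real.sqrt_nonneg _)
    have hB : Tendsto (fun N : ℕ => Real.sqrt N * (bN N - t.re)) atTop atTop := by
      refine tendsto_atTop_mono' _ ?_ (sqrt_mul_atTop (c := 4 / 100) (by norm_num))
      filter_upwards [eventually_ge_atTop 200] with N hN
      have := bN_ge hN
      exact mul_le_mul_of_nonneg_left (by linarith [H1.tre2]) (Real.sqrt_nonneg _)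
    have hrange : ∀ {N : ℕ}, 0 < N → ∀ s ∈ Set.Icc (Real.sqrt N * (aN N - t.re))
        (Real.sqrt N * (bN N - t.re)), 17 / 100 ≤ t.re + s / Real.sqrt N ∧
          t.re + s / Real.sqrt N ≤ 31 / 100 := by
      intro N hN s hs
      have hsp : 0 < Real.sqrt N := Real.sqrt_pos.2 (by exact_mod_cast hN)
      have h1 : aN N - t.re ≤ s / Real.sqrt N := by
        rw [le_div_iff₀ hsp]; linarith [hs.1]
      have h2 : s / Real.sqrt N ≤ bN N - t.re := by
        rw [div_le_iff₀ hsp]; linarith [hs.2]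
      constructor <;> linarith [aN_ge hN, bN_le hN]
    have := lap_dct (Φ := fun N s => Pn y t u N s * Pn z t v N s)
      (φ := fun s => κ * Complex.exp (b * s ^ 2 +
      (-Real.pi * ((T1 - T2) * u + (T3 - T4) * v)) * s +
      (-(Real.pi / 2) * ((T1 + T2) * u ^ 2 + (T3 + T4) * v ^ 2))))
      (C := C1 * C2) (c := 2 / 5) (by norm_num) hA hB ?_ ?_ ?_
    · exact ⟨gauss_re hκ0 (by norm_num) this.2, this.1⟩
    · filter_upwards [eventually_ge_atTop 100, evk_near H1.yre u, evk_near H2.yre v]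
        with N hN e1 e2 s hs
      have hr := hrange (by omega) s hs
      have hmem : t + ((s / Real.sqrt N : ℝ) : ℂ) ∈ {t : ℂ | 16 / 100 < t.re ∧ t.re < 32 / 100} := by
        rw [Set.mem_setOf_eq, Complex.add_re, Complex.ofReal_re]
        constructor <;> linarith [hr.1, hr.2]
      have hopen : IsOpen {t : ℂ | 16 / 100 < t.re ∧ t.re < 32 / 100} :=
        (isOpen_lt continuous_const Complex.continuous_re).inter
          (isOpen_lt Complex.continuous_re continuous_const)
      have hc : ContinuousAt (fun s : ℝ => t + ((s / Real.sqrt N : ℝ) : ℂ)) s := by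
        fun_prop
      have hc1 : ∀ (w : ℂ) (_ : |w.re| ≤ 17 / 100), ContinuousAt
          (fun s : ℝ => gmc N w (t + ((s / Real.sqrt N : ℝ) : ℂ))) s := by
        intro w hw
        have h1 := ((gmc_diffOn hN hw).differentiableAt (hopen.mem_nhds hmem)).continuousAt
        exact h1.comp (f := fun s : ℝ => t + ((s / Real.sqrt N : ℝ) : ℂ)) hc
      refine ContinuousAt.continuousWithinAt ?_
      unfold Pn
      refine ContinuousAt.mul ?_ ?_
      · refine ContinuousAt.mul (continuousAt_const.mul (hc1 _ (by simpa using e1))) ?_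
        fun_prop
      · refine ContinuousAt.mul (continuousAt_const.mul (hc1 _ (by simpa using e2))) ?_
        fun_prop
    · filter_upwards [hb1, hb2, eventually_ge_atTop 1] with N h1 h2 hN s hs
      have hr := hrange (by omega) s hs
      have h3 := h1 s hr.1 hr.2
      have h4 := h2 s hr.1 hr.2
      rw [norm_mul]
      calc ‖Pn y t u N s‖ * ‖Pn z t v N s‖ ≤ (C1 * Real.exp (-(1 / 5) * s ^ 2)) *
            (C2 * Real.exp (-(1 / 5) * s ^ 2)) :=
            mul_le_mul h3 h4 (norm_nonneg _) (by positivity)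
        _ = C1 * C2 * Real.exp (-(2 / 5) * s ^ 2) := by
            have : Real.exp (-(2 / 5) * s ^ 2) =
                Real.exp (-(1 / 5) * s ^ 2) * Real.exp (-(1 / 5) * s ^ 2) := by
              rw [← Real.exp_add]; congr 1; ring
            rw [this]; ring
    · intro s
      have := (pn_lim H1 u s).mul (pn_lim H2 v s)
      rw [hprod] at this
      exact this
  have hbre : b.re < 0 := (key 0 0).1
  have hb0 : b ≠ 0 := by
    rintro h
    rw [h] at hbre
    simp at hbre
  refine ⟨κ * (Real.pi / -b) ^ (1 / 2 : ℂ),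
    -(Real.pi / 2) * (T1 + T2) - Real.pi ^ 2 * (T1 - T2) ^ 2 / (4 * b),
    -(Real.pi ^ 2 * (2 * (T1 - T2) * (T3 - T4)) / (4 * b)),
    -(Real.pi / 2) * (T3 + T4) - Real.pi ^ 2 * (T3 - T4) ^ 2 / (4 * b), ?_, fun u v => ?_⟩
  · refine mul_ne_zero hκ0 ?_
    rw [Ne, Complex.cpow_eq_zero_iff]
    rintro ⟨h, -⟩
    have h5 : (Real.pi : ℂ) ≠ 0 := by exact_mod_cast Real.pi_ne_zero
    exact div_ne_zero h5 (neg_ne_zero.2 hb0) h
  · have hI : ∫ s : ℝ, κ * Complex.exp (b * s ^ 2 +
        (-Real.pi * ((T1 - T2) * u + (T3 - T4) * v)) * s +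
        (-(Real.pi / 2) * ((T1 + T2) * u ^ 2 + (T3 + T4) * v ^ 2))) =
        κ * (Real.pi / -b) ^ (1 / 2 : ℂ) * Complex.exp
          ((-(Real.pi / 2) * (T1 + T2) - Real.pi ^ 2 * (T1 - T2) ^ 2 / (4 * b)) * u ^ 2 +
          (-(Real.pi ^ 2 * (2 * (T1 - T2) * (T3 - T4)) / (4 * b))) * u * v +
          (-(Real.pi / 2) * (T3 + T4) - Real.pi ^ 2 * (T3 - T4) ^ 2 / (4 * b)) * v ^ 2) := by
      rw [MeasureTheory.integral_const_mul, integral_cexp_quadratic hbre, ← mul_assoc]
      congr 2
      field_simp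
      ring
    rw [← hI]
    have h1 := (key u v).2
    -- the difference
    have h2 : Tendsto (fun N : ℕ => (Real.sqrt N : ℂ) ^ 3 *
      Complex.exp (-(N * (gam y t + gam z t + gamy y t * (u / Real.sqrt N : ℝ) +
        gamy z t * (v / Real.sqrt N : ℝ)))) *
      (KN N (y + (u / Real.sqrt N : ℝ)) (z + (v / Real.sqrt N : ℝ)) -
        KI N t.im (y + (u / Real.sqrt N : ℝ)) (z + (v / Real.sqrt N : ℝ)))) atTop (𝓝 0) := by
      have h3 := (pow_exp_lim (K + 3) (show (0 : ℝ) < 1 / 2000 by norm_num)).const_mul C0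
      rw [mul_zero] at h3
      refine squeeze_zero_norm' ?_ h3
      filter_upwards [eventually_ge_atTop N0, evk_near H1.yre u, evk_near H2.yre v,
        eventually_ge_atTop 1] with N hN e1 e2 e3
      have hNp : (1 : ℝ) ≤ N := by exact_mod_cast e3
      have h4 := hkn N hN (y + (u / Real.sqrt N : ℝ)) (z + (v / Real.sqrt N : ℝ))
        (y.re + u / Real.sqrt N) (z.re + v / Real.sqrt N) (Or.inl ⟨e1, ptk_eq y _⟩)
        (Or.inl ⟨e2, ptk_eq z _⟩)
      rw [norm_mul, norm_mul, norm_pow, Complex.norm_real, Complex.norm_exp,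
        Real.norm_of_nonneg (Real.sqrt_nonneg _)]
      have a7 : ((-(N * (gam y t + gam z t + gamy y t * ((u / Real.sqrt N : ℝ) : ℂ) +
          gamy z t * ((v / Real.sqrt N : ℝ) : ℂ)))) : ℂ).re =
          -(N * (SP y t (y.re + u / Real.sqrt N) + SP z t (z.re + v / Real.sqrt N))) := by
        rw [Complex.neg_re, ← Complex.ofReal_natCast, Complex.re_ofReal_mul, Complex.add_re,
          Complex.add_re, Complex.add_re, Complex.re_mul_ofReal, Complex.re_mul_ofReal]
        unfold SP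
        ring
      rw [a7]
      have hsq : Real.sqrt N ≤ N := by
        rw [Real.sqrt_le_left (by linarith)]
        nlinarith
      calc _ ≤ (N : ℝ) ^ 3 * Real.exp (-(N * (SP y t (y.re + u / Real.sqrt N) +
            SP z t (z.re + v / Real.sqrt N)))) *
            (C0 * N ^ K * Real.exp (N * (SP y t (y.re + u / Real.sqrt N) +
            SP z t (z.re + v / Real.sqrt N) - 1 / 2000))) := by
            gcongr
        _ = C0 * ((N : ℝ) ^ (K + 3) * Real.exp (-(1 / 2000 * N))) := by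
            have : Real.exp (-(1 / 2000 * (N : ℝ))) =
                Real.exp (-(N * (SP y t (y.re + u / Real.sqrt N) +
                  SP z t (z.re + v / Real.sqrt N)))) *
                Real.exp (N * (SP y t (y.re + u / Real.sqrt N) +
                  SP z t (z.re + v / Real.sqrt N) - 1 / 2000)) := by
              rw [← Real.exp_add]; congr 1; ring
            rw [this, pow_add]
            ring
    have h4 := h1.add h2
    rw [add_zero] at h4
    refine h4.congr' ?_
    filter_upwards [eventually_ge_atTop 1] with N hN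
    have hNp : (0 : ℝ) < N := by exact_mod_cast (show 0 < N by omega)
    have hs : (Real.sqrt N) ≠ 0 := (Real.sqrt_pos.2 hNp).ne'
    have hs2 : (Real.sqrt N : ℂ) ^ 2 = N := by
      rw [← Complex.ofReal_pow, Real.sq_sqrt hNp.le]
      simp
    have h5 : ∫ s in (Real.sqrt N * (aN N - t.re))..(Real.sqrt N * (bN N - t.re)),
        Pn y t u N s * Pn z t v N s = (Real.sqrt N : ℂ) ^ 3 *
      Complex.exp (-(N * (gam y t + gam z t + gamy y t * (u / Real.sqrt N : ℝ) +
        gamy z t * (v / Real.sqrt N : ℝ)))) *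
        KI N t.im (y + (u / Real.sqrt N : ℝ)) (z + (v / Real.sqrt N : ℝ)) := by
      unfold KI
      have h6 := intervalIntegral.integral_comp_div_add
        (a := Real.sqrt N * (aN N - t.re)) (b := Real.sqrt N * (bN N - t.re))
        (fun r : ℝ => gmc N (y + (u / Real.sqrt N : ℝ)) (r + t.im * I) *
          gmc N (z + (v / Real.sqrt N : ℝ)) (r + t.im * I)) hs t.re
      have h7 : Real.sqrt N * (aN N - t.re) / Real.sqrt N + t.re = aN N := by
        field_simp
        ring
      have h8 : Real.sqrt N * (bN N - t.re) / Real.sqrt N + t.re = bN N := by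
        field_simp
        ring
      rw [h7, h8] at h6
      have h9 : ∀ s : ℝ, Pn y t u N s * Pn z t v N s = (N : ℂ) ^ 2 *
          Complex.exp (-(N * (gam y t + gam z t + gamy y t * (u / Real.sqrt N : ℝ) +
            gamy z t * (v / Real.sqrt N : ℝ)))) *
          (gmc N (y + (u / Real.sqrt N : ℝ)) (((s / Real.sqrt N + t.re : ℝ) : ℂ) + t.im * I) *
            gmc N (z + (v / Real.sqrt N : ℝ)) (((s / Real.sqrt N + t.re : ℝ) : ℂ) + t.im * I)) := by
        intro s
        unfold Pn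
        rw [ptk_eq t (s / Real.sqrt N), add_comm t.re]
        have e1 : Complex.exp (-(N * (gam y t + gam z t + gamy y t * (u / Real.sqrt N : ℝ) +
            gamy z t * (v / Real.sqrt N : ℝ)))) =
            Complex.exp (-(N * (gam y t + gamy y t * (u / Real.sqrt N : ℝ) +
              gamt y t * (s / Real.sqrt N : ℝ)))) *
            Complex.exp (-(N * (gam z t + gamy z t * (v / Real.sqrt N : ℝ) +
              gamt z t * (s / Real.sqrt N : ℝ)))) := by
          rw [← Complex.exp_add]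
          congr 1
          linear_combination ((N : ℂ) * ((s / Real.sqrt N : ℝ) : ℂ)) * kern
        rw [e1]
        ring
      simp_rw [h9]
      rw [intervalIntegral.integral_const_mul, h6, Complex.real_smul]
      have hs4 : (N : ℂ) ^ 2 * (Real.sqrt N : ℂ) = (Real.sqrt N : ℂ) ^ 3 * N := by
        rw [← hs2]; ring
      linear_combination (Complex.exp (-(N * (gam y t + gam z t +
        gamy y t * (u / Real.sqrt N : ℝ) + gamy z t * (v / Real.sqrt N : ℝ)))) *
        ∫ r in (aN N)..(bN N), gmc N (y + (u / Real.sqrt N : ℝ)) (r + t.im * I) *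
          gmc N (z + (v / Real.sqrt N : ℝ)) (r + t.im * I)) * hs4
    rw [h5]
    ring

end Pool.Agent.XV
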