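import Pool.Agent.XV.Hb
import Pool.Agent.XV.Gc
import Pool.Agent.XV.Ap

/-!
# XV KNE: the kernel and its main part

Let `m0 = ⌈17 N / 100⌉₊ + 1`, `m0 + n = ⌊31 N / 100⌋₊`, so `aN N = (m0 - 1 / 2) / N` and
`bN N = (m0 + n - 1 / 2) / N`; for `N ≥ 400`: `17 / 100 ≤ aN N ≤ 175 / 1000` and
`305 / 1000 ≤ bN N ≤ 31 / 100`.

Split the sum `KN N w w' = ∑ m ∈ range N`.

* `m < m0` or `m ≥ m0 + n`: `m / N ≤ 175 / 1000` or `m / N ≥ 305 / 1000`, and `hb_out` twice gives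
  each term `≤ C N ^ K exp (N (TP y t r ξ + TP z t r ξ' - 6 / 8000))`, where
  `TP y t r ξ + TP z t r ξ' = SP y t ξ + SP z t ξ'` because `(gamt y t).re + (gamt z t).re = 0`
  (real part of `kern`).  There are at most `N` terms.
* `m0 ≤ m < m0 + n`: `|w.re| + m / N ≤ 17 / 100 + 31 / 100 < 1 / 2`, so `gmc_eq` and `ap` with
  `F τ = gmc N w τ * gmc N w' τ`, `U = {16 / 100 < re < 32 / 100}` (`gmc_diffOn`), `h = 6 / 100`,
  `v = t.im` (`H1.tim`), `B = (C / N) ^ 2 exp (N (SP y t ξ + SP z t ξ' - 1 / 1000))`, `C` from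
  `gmc_bd`: every inner point is `w = x + (lam * y.im) I` with `Inn x0 lam x ξ` (for `Nr`: `lam = 1`,
  `x = ξ`), the horizontal sides are bounded with `H.side` for both half edges
  (`π |θ| + π |θ| = 2 π h`), the vertical sides with `H.vert` (`2 π |θ|`), and between the heights
  `0` and `t.im` with `H.vert0`.  The integral in `ap` is `KI N t.im w w'`.
-/

set_option autoImplicit false

namespace Pool.Agent.XV

open Complex Finset
open Pool.Agent.Helper9.TB Pool.Agent.Helper9.TF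

/-! ### auxiliary facts -/

/-- both kinds of points are inner points -/
theorem kne_inn {x0 : ℝ} {y w : ℂ} {N : ℕ} {ξ : ℝ} (h : Nr y w ξ ∨ Wa x0 y N w ξ) :
    ∃ lam x : ℝ, Inn x0 lam x ξ ∧ w = x + (lam * y.im : ℝ) * I := by
  rcases h with ⟨h1, h2⟩ | ⟨lam, x, h1, h2, -, h4, h5, h6⟩
  · refine ⟨1, ξ, ⟨by norm_num, le_rfl, h1, Or.inl rfl, by ring⟩, ?_⟩
    rw [h2]; push_cast; ring
  · exact ⟨lam, x, ⟨h1, h2, h4.le, Or.inr h4, h6⟩, h5⟩

theorem kne_re {x lam b : ℝ} : ((x : ℂ) + (lam * b : ℝ) * I).re = x := by simp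

theorem kne_im {x lam b : ℝ} : ((x : ℂ) + (lam * b : ℝ) * I).im = lam * b := by simp

/-- inner points have small imaginary part -/
theorem kne_im_le {x0 : ℝ} {y t : ℂ} (H : Half x0 y t) {lam x ξ : ℝ} (hi : Inn x0 lam x ξ) :
    |lam * y.im| ≤ 1 / 10 := by
  have h1 := H.yneg
  have h2 := H.yim
  have h3 := hi.l0
  have h4 := hi.l1
  rw [abs_le]
  constructor <;> nlinarith

/-- the value of `m0`, `n` -/
theorem kne_win {N : ℕ} (hN : 1000 ≤ N) : ∃ m0 n : ℕ, m0 + n ≤ N ∧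
    aN N = ((m0 : ℝ) - 1 / 2) / N ∧ bN N = ((m0 : ℝ) + n - 1 / 2) / N ∧
    (∀ m : ℕ, m < m0 → (m : ℝ) / N ≤ 175 / 1000) ∧
    (∀ m : ℕ, m0 + n ≤ m → 305 / 1000 ≤ (m : ℝ) / N) ∧
    (∀ m : ℕ, m < m0 + n → (m : ℝ) / N ≤ 31 / 100) ∧
    17 / 100 ≤ aN N ∧ aN N ≤ 175 / 1000 ∧ 305 / 1000 ≤ bN N ∧ bN N ≤ 31 / 100 := by
  have hNr : (1000 : ℝ) ≤ N := by exact_mod_cast hN
  have hN0 : (0 : ℝ) < N := by linarith
  set A := ⌈(17 / 100 : ℝ) * N⌉₊ with hA
  set M := ⌊(31 / 100 : ℝ) * N⌋₊ with hM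
  have hA1 : (17 / 100 : ℝ) * N ≤ A := Nat.le_ceil _
  have hA2 : (A : ℝ) < (17 / 100 : ℝ) * N + 1 := Nat.ceil_lt_add_one (by positivity)
  have hM1 : (M : ℝ) ≤ (31 / 100 : ℝ) * N := Nat.floor_le (by positivity)
  have hM2 : (31 / 100 : ℝ) * N < M + 1 := Nat.lt_floor_add_one _
  have hle : A + 1 ≤ M := by
    have : ((A + 1 : ℕ) : ℝ) ≤ M := by push_cast; linarith
    exact_mod_cast this
  have hMN : M ≤ N := by
    have : (M : ℝ) ≤ N := by linarith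
    exact_mod_cast this
  have hsum : (A + 1) + (M - (A + 1)) = M := by omega
  have hsumr : ((A + 1 : ℕ) : ℝ) + ((M - (A + 1) : ℕ) : ℝ) = M := by exact_mod_cast hsum
  have hdiv : ∀ {u v : ℝ}, u ≤ v * N → u / N ≤ v := fun h => by rwa [div_le_iff₀ hN0]
  have hdiv' : ∀ {u v : ℝ}, v * N ≤ u → v ≤ u / N := fun h => by rwa [le_div_iff₀ hN0]
  refine ⟨A + 1, M - (A + 1), by omega, ?_, ?_, ?_, ?_, ?_, ?_, ?_, ?_, ?_⟩
  · unfold aN
    rw [← hA]; push_cast; congr 1; ring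
  · unfold bN
    rw [← hM, hsumr]
  · intro m hm
    have hm' : (m : ℝ) ≤ A := by exact_mod_cast (by omega : m ≤ A)
    exact hdiv (by linarith)
  · intro m hm
    have hm' : (M : ℝ) ≤ m := by exact_mod_cast (by omega : M ≤ m)
    exact hdiv' (by linarith)
  · intro m hm
    have hm' : (m : ℝ) ≤ M := by exact_mod_cast (by omega : m ≤ M)
    exact hdiv (by linarith)
  · exact hdiv' (by rw [← hA]; linarith)
  · exact hdiv (by rw [← hA]; linarith)
  · exact hdiv' (by rw [← hM]; linarith)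
  · exact hdiv (by rw [← hM]; linarith)

/-- the tangent planes add up -/
theorem kne_tp {y z t : ℂ} (kern : gamt y t + gamt z t = 0) (r ξ ξ' : ℝ) :
    TP y t r ξ + TP z t r ξ' = SP y t ξ + SP z t ξ' := by
  have h : (gamt y t).re + (gamt z t).re = 0 := by
    have := congrArg Complex.re kern
    simpa using this
  unfold TP SP
  linear_combination (r - t.re) * h

/-- bound of a product of two `gmc` -/
theorem kne_prod {C N a b c : ℝ} {u v : ℂ} (hC : 0 ≤ C) (hN : 0 < N)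
    (h1 : ‖u‖ ≤ C / N * Real.exp (N * a)) (h2 : ‖v‖ ≤ C / N * Real.exp (N * b))
    (h3 : a + b ≤ c) : ‖u * v‖ ≤ (C / N) ^ 2 * Real.exp (N * c) := by
  rw [norm_mul]
  calc ‖u‖ * ‖v‖ ≤ (C / N * Real.exp (N * a)) * (C / N * Real.exp (N * b)) := by
        gcongr
    _ = (C / N) ^ 2 * Real.exp (N * (a + b)) := by
        rw [mul_add, Real.exp_add]; ring
    _ ≤ (C / N) ^ 2 * Real.exp (N * c) := by
        gcongr

theorem kn_in {x0 x1 : ℝ} {y z t : ℂ} (H1 : Half x0 y t) (H2 : Half x1 z t)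
    (kern : gamt y t + gamt z t = 0) : ∃ (C : ℝ) (K N0 : ℕ), 0 < C ∧ ∀ N : ℕ, N0 ≤ N →
    ∀ (w w' : ℂ) (ξ ξ' : ℝ), (Nr y w ξ ∨ Wa x0 y N w ξ) → (Nr z w' ξ' ∨ Wa x1 z N w' ξ') →
    ‖KN N w w' - KI N t.im w w'‖ ≤
      C * N ^ K * Real.exp (N * (SP y t ξ + SP z t ξ' - 1 / 2000)) := by
  obtain ⟨C1, K1, N1, hC1, hb1⟩ := hb_out H1
  obtain ⟨C2, K2, N2, hC2, hb2⟩ := hb_out H2
  obtain ⟨C3, N3, hC3, hb3⟩ := gmc_bd
  refine ⟨C1 * C2 + 8 * C3 ^ 2, K1 + K2 + 1, max (max N1 N2) (max N3 1000), by positivity, ?_⟩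
  intro N hN w w' ξ ξ' hw hw'
  have hN1 : N1 ≤ N := le_trans (le_trans (le_max_left _ _) (le_max_left _ _)) hN
  have hN2 : N2 ≤ N := le_trans (le_trans (le_max_right _ _) (le_max_left _ _)) hN
  have hN3 : N3 ≤ N := le_trans (le_trans (le_max_left _ _) (le_max_right _ _)) hN
  have hN4 : 1000 ≤ N := le_trans (le_trans (le_max_right _ _) (le_max_right _ _)) hN
  have hNr : (1000 : ℝ) ≤ N := by exact_mod_cast hN4
  have hN0 : (0 : ℝ) < N := by linarith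
  have hNpos : 0 < N := by omega
  obtain ⟨lam, x, hi, hwe⟩ := kne_inn hw
  obtain ⟨lam', x', hi', hwe'⟩ := kne_inn hw'
  obtain ⟨m0, n, hmn, ha, hb, hlo, hhi, hmid, a1, a2, b1, b2⟩ := kne_win hN4
  -- sizes of w, w'
  have hwre : |w.re| ≤ 17 / 100 := by rw [hwe, kne_re]; exact hi.x1
  have hwre' : |w'.re| ≤ 17 / 100 := by rw [hwe', kne_re]; exact hi'.x1
  have hwim : |w.im| ≤ 1 / 10 := by rw [hwe, kne_im]; exact kne_im_le H1 hi
  have hwim' : |w'.im| ≤ 1 / 10 := by rw [hwe', kne_im]; exact kne_im_le H2 hi'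
  set S := SP y t ξ + SP z t ξ' with hS
  set T : ℕ → ℂ := fun m => gm N m w * gm N m w' with hT
  -- split of the sum
  have hsplit : KN N w w' = ∑ m ∈ range m0, T m + ∑ j ∈ range n, T (m0 + j) +
      ∑ j ∈ range (N - (m0 + n)), T (m0 + n + j) := by
    unfold KN
    have e : N = (m0 + n) + (N - (m0 + n)) := by omega
    conv_lhs => rw [e]
    rw [Finset.sum_range_add, Finset.sum_range_add]
    rw [← e]
  -- outer terms
  have hout : ∀ m : ℕ, m < N → ((m : ℝ) / N ≤ 175 / 1000 ∨ 305 / 1000 ≤ (m : ℝ) / N) →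
      ‖T m‖ ≤ C1 * C2 * N ^ (K1 + K2) * Real.exp (N * (S - 1 / 2000)) := by
    intro m hm hmr
    have e1 := hb1 N hN1 w ξ hw m hm hmr
    have e2 := hb2 N hN2 w' ξ' hw' m hm hmr
    have e3 := kne_tp kern ((m : ℝ) / N) ξ ξ'
    rw [hT]
    simp only []
    rw [norm_mul]
    calc ‖gm N m w‖ * ‖gm N m w'‖ ≤ (C1 * N ^ K1 * Real.exp (N * (TP y t (m / N) ξ - 3 / 8000))) *
          (C2 * N ^ K2 * Real.exp (N * (TP z t (m / N) ξ' - 3 / 8000))) := by
          gcongr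
      _ = C1 * C2 * N ^ (K1 + K2) * Real.exp (N * (S - 6 / 8000)) := by
          have : N * (S - 6 / 8000) = N * (TP y t (m / N) ξ - 3 / 8000) +
            N * (TP z t (m / N) ξ' - 3 / 8000) := by
            rw [hS, ← e3]; ring
          rw [this, Real.exp_add, pow_add]; ring
      _ ≤ C1 * C2 * N ^ (K1 + K2) * Real.exp (N * (S - 1 / 2000)) := by
          have h := Real.exp_le_exp.2 (mul_le_mul_of_nonneg_left
            (by linarith : S - 6 / 8000 ≤ S - 1 / 2000) hN0.le)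
          gcongr
  have hs1 : ‖∑ m ∈ range m0, T m‖ ≤
      m0 * (C1 * C2 * N ^ (K1 + K2) * Real.exp (N * (S - 1 / 2000))) := by
    refine le_trans (norm_sum_le_of_le (n := fun _ => C1 * C2 * (N : ℝ) ^ (K1 + K2) *
      Real.exp (N * (S - 1 / 2000))) _ (fun m hm => ?_)) (le_of_eq ?_)
    · have hm' := Finset.mem_range.1 hm
      exact hout m (by omega) (Or.inl (hlo m hm'))
    · rw [Finset.sum_const, Finset.card_range, nsmul_eq_mul]
  have hs3 : ‖∑ j ∈ range (N - (m0 + n)), T (m0 + n + j)‖ ≤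
      (N - (m0 + n) : ℕ) * (C1 * C2 * N ^ (K1 + K2) * Real.exp (N * (S - 1 / 2000))) := by
    refine le_trans (norm_sum_le_of_le (n := fun _ => C1 * C2 * (N : ℝ) ^ (K1 + K2) *
      Real.exp (N * (S - 1 / 2000))) _ (fun m hm => ?_)) (le_of_eq ?_)
    · have hm' := Finset.mem_range.1 hm
      exact hout _ (by omega) (Or.inr (hhi _ (by omega)))
    · rw [Finset.sum_const, Finset.card_range, nsmul_eq_mul]
  -- the middle
  set F : ℂ → ℂ := fun τ => gmc N w τ * gmc N w' τ with hF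
  have hmideq : ∑ j ∈ range n, T (m0 + j) = ∑ j ∈ range n, F (((m0 + j : ℕ) : ℂ) / N) := by
    refine Finset.sum_congr rfl (fun j hj => ?_)
    have hj' := Finset.mem_range.1 hj
    have hmN : m0 + j < N := by omega
    have hr := hmid (m0 + j) (by omega)
    rw [hT, hF]
    simp only []
    rw [gmc_eq (by omega) hmN (by linarith), gmc_eq (by omega) hmN (by linarith)]
  have hbase : 0 ≤ C3 := hC3.le
  -- bounds of F
  have hTPS : ∀ r : ℝ, TP y t r ξ + TP z t r ξ' = S := fun r => kne_tp kern r ξ ξ'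
  have hzeq : ∀ z' : ℂ, z' = (z'.re : ℂ) + (z'.im : ℝ) * I := fun z' => by
    exact (Complex.re_add_im z').symm
  set B := (C3 / N) ^ 2 * Real.exp (N * (S - 1 / 1000)) with hB
  have hre : ∀ z' : ℂ, ((m0 : ℝ) - 1 / 2) / N ≤ z'.re → z'.re ≤ ((m0 : ℝ) + n - 1 / 2) / N →
      17 / 100 ≤ z'.re ∧ z'.re ≤ 31 / 100 := by
    intro z' h1 h2
    rw [← ha] at h1
    rw [← hb] at h2
    exact ⟨by linarith, by linarith⟩
  have hH : ∀ z' : ℂ, ((m0 : ℝ) - 1 / 2) / N ≤ z'.re → z'.re ≤ ((m0 : ℝ) + n - 1 / 2) / N →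
      |z'.im| = 6 / 100 → ‖F z'‖ ≤ B * Real.exp (2 * Real.pi * (N * (6 / 100))) := by
    intro z' h1 h2 h3
    obtain ⟨r1, r2⟩ := hre z' h1 h2
    have e1 := hb3 N hN3 w z' hwre hwim r1 r2 (by rw [h3]; norm_num)
    have e2 := hb3 N hN3 w' z' hwre' hwim' r1 r2 (by rw [h3]; norm_num)
    have f1 := H1.side z'.re z'.im lam x ξ r1 r2 h3 hi
    have f2 := H2.side z'.re z'.im lam' x' ξ' r1 r2 h3 hi'
    rw [← hwe, ← hzeq z', h3] at f1
    rw [← hwe', ← hzeq z', h3] at f2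
    have key := kne_prod hbase hN0 e1 e2 (c := S - 1 / 1000 + 2 * Real.pi * (6 / 100))
      (by have := hTPS z'.re; linarith)
    refine le_trans key (le_of_eq ?_)
    rw [hB, mul_assoc ((C3 / (N : ℝ)) ^ 2), ← Real.exp_add]
    congr 2; ring
  have hV : ∀ z' : ℂ, (z'.re = ((m0 : ℝ) - 1 / 2) / N ∨ z'.re = ((m0 : ℝ) + n - 1 / 2) / N) →
      |z'.im| ≤ 6 / 100 → ‖F z'‖ ≤ B * Real.exp (2 * Real.pi * (N * |z'.im|)) := by
    intro z' h1 h3
    rw [← ha, ← hb] at h1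
    have r12 : 17 / 100 ≤ z'.re ∧ z'.re ≤ 31 / 100 ∧ (z'.re ≤ 175 / 1000 ∨ 305 / 1000 ≤ z'.re) := by
      rcases h1 with h | h
      · rw [h]; exact ⟨a1, by linarith, Or.inl a2⟩
      · rw [h]; exact ⟨by linarith, b2, Or.inr b1⟩
    obtain ⟨r1, r2, r3⟩ := r12
    have e1 := hb3 N hN3 w z' hwre hwim r1 r2 (by linarith)
    have e2 := hb3 N hN3 w' z' hwre' hwim' r1 r2 (by linarith)
    have f1 := H1.vert z'.re z'.im lam x ξ r1 r2 r3 h3 hi
    have f2 := H2.vert z'.re z'.im lam' x' ξ' r1 r2 r3 h3 hi'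
    rw [← hwe, ← hzeq z'] at f1
    rw [← hwe', ← hzeq z'] at f2
    have key := kne_prod hbase hN0 e1 e2 (c := S - 1 / 1000 + 2 * Real.pi * |z'.im|)
      (by have := hTPS z'.re; linarith)
    refine le_trans key (le_of_eq ?_)
    rw [hB, mul_assoc ((C3 / (N : ℝ)) ^ 2), ← Real.exp_add]
    congr 2; ring
  have hV0 : ∀ z' : ℂ, (z'.re = ((m0 : ℝ) - 1 / 2) / N ∨ z'.re = ((m0 : ℝ) + n - 1 / 2) / N) →
      (∃ κ : ℝ, 0 ≤ κ ∧ κ ≤ 1 ∧ z'.im = κ * t.im) → ‖F z'‖ ≤ B := by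
    rintro z' h1 ⟨κ, k0, k1, hk⟩
    rw [← ha, ← hb] at h1
    have r12 : 17 / 100 ≤ z'.re ∧ z'.re ≤ 31 / 100 ∧ (z'.re ≤ 175 / 1000 ∨ 305 / 1000 ≤ z'.re) := by
      rcases h1 with h | h
      · rw [h]; exact ⟨a1, by linarith, Or.inl a2⟩
      · rw [h]; exact ⟨by linarith, b2, Or.inr b1⟩
    obtain ⟨r1, r2, r3⟩ := r12
    have h3 : |z'.im| ≤ 1 / 10 := by
      rw [hk, abs_mul, abs_of_nonneg k0]
      have := H1.tim
      nlinarith [abs_nonneg t.im]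
    have e1 := hb3 N hN3 w z' hwre hwim r1 r2 h3
    have e2 := hb3 N hN3 w' z' hwre' hwim' r1 r2 h3
    have f1 := H1.vert0 z'.re κ lam x ξ r1 r2 r3 k0 k1 hi
    have f2 := H2.vert0 z'.re κ lam' x' ξ' r1 r2 r3 k0 k1 hi'
    rw [← hk, ← hwe, ← hzeq z'] at f1
    rw [← hk, ← hwe', ← hzeq z'] at f2
    exact kne_prod hbase hN0 e1 e2 (by have := hTPS z'.re; linarith)
  have hdiff : DifferentiableOn ℂ F {t : ℂ | 16 / 100 < t.re ∧ t.re < 32 / 100} :=
    (gmc_diffOn (by omega) hwre).mul (gmc_diffOn (by omega) hwre')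
  have hopen : IsOpen {t : ℂ | 16 / 100 < t.re ∧ t.re < 32 / 100} := by
    apply IsOpen.inter
    · exact isOpen_lt continuous_const Complex.continuous_re
    · exact isOpen_lt Complex.continuous_re continuous_const
  have hti := abs_le.1 H1.tim
  have hq : Real.exp (-(2 * Real.pi * (N * (6 / 100)))) ≤ 1 / 2 := by
    have h1 : (1 : ℝ) ≤ 2 * Real.pi * (N * (6 / 100)) := by
      have := Real.pi_gt_three
      nlinarith
    have h2 : Real.exp (-(2 * Real.pi * (N * (6 / 100)))) ≤ Real.exp (-1) :=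
      Real.exp_le_exp.2 (by linarith)
    have h3 : Real.exp (-1) ≤ 1 / 2 := by
      rw [Real.exp_neg, one_div]
      apply inv_anti₀ (by norm_num)
      have := Real.add_one_le_exp (1 : ℝ)
      linarith
    linarith
  have hap := ap (F := F) hopen hdiff hNpos (h := 6 / 100) (v := t.im) (B := B) (by norm_num) hq
    (by linarith) (by linarith) m0 n
    (fun z' h1 h2 h3 => by
      obtain ⟨r1, r2⟩ := hre z' h1 h2
      exact ⟨by linarith, by linarith⟩) hH hV hV0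
  have hKI : KI N t.im w w' = N * (∫ x in (((m0 : ℝ) - 1 / 2) / N)..(((m0 : ℝ) + n - 1 / 2) / N),
      F (x + t.im * I)) := by
    unfold KI
    rw [ha, hb]
  have hBle : (4 * (n : ℝ) + 4 * (N * (6 / 100))) * B ≤
      8 * C3 ^ 2 * N ^ (K1 + K2 + 1) * Real.exp (N * (S - 1 / 2000)) := by
    have hnN : (n : ℝ) ≤ N := by exact_mod_cast (by omega : n ≤ N)
    have hN1' : (1 : ℝ) ≤ N := by linarith
    have hB1 : B ≤ C3 ^ 2 * Real.exp (N * (S - 1 / 2000)) := by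
      rw [hB]
      have h1 : (C3 / N) ^ 2 ≤ C3 ^ 2 := by
        gcongr
        exact div_le_self hbase hN1'
      have h2 : Real.exp (N * (S - 1 / 1000)) ≤ Real.exp (N * (S - 1 / 2000)) :=
        Real.exp_le_exp.2 (mul_le_mul_of_nonneg_left
            (by linarith : S - 1 / 1000 ≤ S - 1 / 2000) hN0.le)
      gcongr
    have hB0 : 0 ≤ C3 ^ 2 * Real.exp (N * (S - 1 / 2000)) := by positivity
    have hpow : (N : ℝ) ≤ N ^ (K1 + K2 + 1) := by
      calc (N : ℝ) = N ^ 1 := (pow_one _).symm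
        _ ≤ N ^ (K1 + K2 + 1) := pow_le_pow_right₀ hN1' (by omega)
    calc (4 * (n : ℝ) + 4 * (N * (6 / 100))) * B ≤
        (4 * N + 4 * N) * (C3 ^ 2 * Real.exp (N * (S - 1 / 2000))) := by
          gcongr
          nlinarith
      _ = 8 * (C3 ^ 2 * Real.exp (N * (S - 1 / 2000))) * N := by ring
      _ ≤ 8 * (C3 ^ 2 * Real.exp (N * (S - 1 / 2000))) * N ^ (K1 + K2 + 1) := by
          gcongr
      _ = _ := by ring
  rw [← hmideq, ← hKI] at hap
  have hsumle : ((m0 : ℝ) + ((N - (m0 + n) : ℕ) : ℝ)) ≤ N := by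
    exact_mod_cast (by omega : m0 + (N - (m0 + n)) ≤ N)
  set E := Real.exp (N * (S - 1 / 2000)) with hE
  have hE0 : 0 < E := Real.exp_pos _
  have hfin : ‖KN N w w' - KI N t.im w w'‖ ≤ ‖∑ m ∈ range m0, T m‖ +
      ‖∑ j ∈ range n, T (m0 + j) - KI N t.im w w'‖ +
      ‖∑ j ∈ range (N - (m0 + n)), T (m0 + n + j)‖ := by
    rw [hsplit]
    have e : ∑ m ∈ range m0, T m + ∑ j ∈ range n, T (m0 + j) +
        ∑ j ∈ range (N - (m0 + n)), T (m0 + n + j) - KI N t.im w w' =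
        ∑ m ∈ range m0, T m + (∑ j ∈ range n, T (m0 + j) - KI N t.im w w') +
        ∑ j ∈ range (N - (m0 + n)), T (m0 + n + j) := by ring
    rw [e]
    exact norm_add₃_le
  calc ‖KN N w w' - KI N t.im w w'‖ ≤ ‖∑ m ∈ range m0, T m‖ +
      ‖∑ j ∈ range n, T (m0 + j) - KI N t.im w w'‖ +
      ‖∑ j ∈ range (N - (m0 + n)), T (m0 + n + j)‖ := hfin
    _ ≤ m0 * (C1 * C2 * N ^ (K1 + K2) * E) + 8 * C3 ^ 2 * N ^ (K1 + K2 + 1) * E +
        (N - (m0 + n) : ℕ) * (C1 * C2 * N ^ (K1 + K2) * E) := by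
        have := le_trans hap hBle
        linarith
    _ = ((m0 : ℝ) + ((N - (m0 + n) : ℕ) : ℝ)) * (C1 * C2 * N ^ (K1 + K2) * E) +
        8 * C3 ^ 2 * N ^ (K1 + K2 + 1) * E := by ring
    _ ≤ N * (C1 * C2 * N ^ (K1 + K2) * E) + 8 * C3 ^ 2 * N ^ (K1 + K2 + 1) * E := by
        gcongr
    _ = (C1 * C2 + 8 * C3 ^ 2) * N ^ (K1 + K2 + 1) * E := by ring

end Pool.Agent.XV
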