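import Pool.Agent.XV.Defs
import Pool.Agent.Helper6.TF.Out
import Pool.Agent.Helper6.TF.Entry
import Pool.Agent.Helper6.TF.DN

/-!
# XV OM: the integrand of a twist region

`om2_eq`: by `DN_eq` (Helper6.TF.DN), `DN N z = 2 + (-1) ^ N * 2 cos (2 π N z)`
`= (-1) ^ N * q⁻¹ * (1 + (-1) ^ N q) ^ 2` with `q = exp (-(2 π i N z))`; insert the definitions of
`om2`, `omz`, `vx`.

`om2_in`: `‖q‖ = exp (2 π N w.im) ≤ exp (-2 π) ≤ 1 / 2`, so `‖1 + (-1) ^ N q‖ ^ 2 ≥ 1 / 4`, and
`‖dLy w‖ ≤ 4 π exp (2 π |w.im|)` (`norm_dLy_le`, Helper6.TF.Out).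

`om2_out`: for `Wa`, `w = x + lam y.im I`, `ξ = (1 - lam) / a + lam x`: `om2_in` and
`(vx a w).re = -2 π w.im (a x - 1) = -2 π y.im (a ξ - 1)` because `a ξ - 1 = lam (a x - 1)`.
For `Fa` the claimed exponent is `0`.  If `w.im = -1 / N`: `om2_in` and
`N (vx a w).re = 2 π (a w.re - 1) ≤ π |a|`.  If `|w.re| = 1 / 2`: `4 ≤ ‖DN N w‖` (`DN_side`,
Helper6.TF.Out) and `‖exp (π i a N w ^ 2)‖ = exp (-(2 π a N w.re w.im)) ≤ exp (π |a|)`.

`om2_lim`: by `om2_eq` the function is `dLy (zN) / (1 + (-1) ^ N q N) ^ 2` with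
`zN = z + v / sqrt N → z` and `‖q N‖ = exp (2 π N z.im) → 0`.

`om2_diff`, `om2_cont`: `DN_ne` (Helper6.TF.Entry; `w ∈ PS (-w.im)` if `|w.re| ≤ 1 / 2`,
`w.im < 0`).
-/

set_option autoImplicit false

namespace Pool.Agent.XV

open Complex Finset Filter Topology
open Pool.Agent.Helper9.TB Pool.Agent.Helper9.TF Pool.Agent.Helper9.TW

lemma vx_re (a : ℤ) (z : ℂ) : (vx a z).re = -(2 * Real.pi * z.im * (a * z.re - 1)) := by
  unfold vx
  have h1 : (Real.pi * I * a * z ^ 2 : ℂ) = ((Real.pi * a : ℝ) : ℂ) * (I * z ^ 2) := by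
    push_cast; ring
  have h2 : (2 * Real.pi * I * z : ℂ) = ((2 * Real.pi : ℝ) : ℂ) * (I * z) := by
    push_cast; ring
  rw [Complex.sub_re, h1, h2, Complex.re_ofReal_mul, Complex.re_ofReal_mul]
  simp [pow_two]
  ring

lemma neg_one_pow_sq' (n : ℕ) : ((-1 : ℂ) ^ n) * (-1) ^ n = 1 := by
  rw [← mul_pow]; norm_num

theorem om2_eq {N : ℕ} (hN : 1 ≤ N) (a : ℤ) (z : ℂ) : om2 N a z =
    Complex.exp (N * vx a z) * dLy z /
      (1 + (-1) ^ N * Complex.exp (-(2 * Real.pi * I * N * z))) ^ 2 := by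
  unfold om2 omz
  have h1 : Complex.exp (N * vx a z) = Complex.exp (Real.pi * I * (a * N) * z ^ 2) *
      Complex.exp (-(2 * Real.pi * I * N * z)) := by
    rw [← Complex.exp_add]
    congr 1
    unfold vx
    ring
  have h2 : DN N z = (-1) ^ N * (Complex.exp (-(2 * Real.pi * I * N * z)))⁻¹ *
      (1 + (-1) ^ N * Complex.exp (-(2 * Real.pi * I * N * z))) ^ 2 := by
    rw [DN_eq hN, Complex.cos]
    have e1 : Complex.exp (2 * Real.pi * N * z * I) =
        (Complex.exp (-(2 * Real.pi * I * N * z)))⁻¹ := by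
      rw [← Complex.exp_neg]; congr 1; ring
    have e2 : Complex.exp (-(2 * Real.pi * N * z) * I) =
        Complex.exp (-(2 * Real.pi * I * N * z)) := by
      congr 1; ring
    rw [e1, e2]
    have h0 := Complex.exp_ne_zero (-(2 * Real.pi * I * N * z))
    set q := Complex.exp (-(2 * Real.pi * I * N * z))
    have h3 := neg_one_pow_sq' N
    field_simp
    linear_combination (-(2 * q) - (-1) ^ N * q ^ 2) * h3
  rw [h1, h2]
  have h0 := Complex.exp_ne_zero (-(2 * Real.pi * I * N * z))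
  set q := Complex.exp (-(2 * Real.pi * I * N * z))
  have h3 : ((-1 : ℂ)) ^ N ≠ 0 := pow_ne_zero _ (by norm_num)
  by_cases h4 : (1 + (-1) ^ N * q) = 0
  · rw [h4]; simp
  · field_simp

lemma q_norm (N : ℕ) (w : ℂ) : ‖Complex.exp (-(2 * Real.pi * I * N * w))‖ =
    Real.exp (2 * Real.pi * N * w.im) := by
  rw [Complex.norm_exp]
  congr 1
  have h : (-(2 * Real.pi * I * N * w) : ℂ) = ((-(2 * Real.pi * N) : ℝ) : ℂ) * (I * w) := by
    push_cast; ring
  rw [h, Complex.re_ofReal_mul]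
  simp

lemma exp_neg_two_pi_le : Real.exp (-(2 * Real.pi)) ≤ 1 / 2 := by
  have h1 : 2 * Real.pi + 1 ≤ Real.exp (2 * Real.pi) := Real.add_one_le_exp _
  have h2 := Real.pi_gt_three
  rw [Real.exp_neg, inv_le_comm₀ (Real.exp_pos _) (by norm_num)]
  norm_num
  linarith

lemma den_ge {N : ℕ} (hN : 1 ≤ N) {w : ℂ} (h : w.im ≤ -(1 / (N : ℝ))) :
    1 / 4 ≤ ‖(1 + (-1) ^ N * Complex.exp (-(2 * Real.pi * I * N * w))) ^ 2‖ := by
  have hN0 : (0 : ℝ) < N := by exact_mod_cast hN
  have h1 : ‖(-1 : ℂ) ^ N * Complex.exp (-(2 * Real.pi * I * N * w))‖ ≤ 1 / 2 := by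
    rw [norm_mul, norm_pow, norm_neg, norm_one, one_pow, one_mul, q_norm]
    refine le_trans (Real.exp_le_exp.2 ?_) exp_neg_two_pi_le
    have h2 : N * w.im ≤ -1 := by
      have := mul_le_mul_of_nonneg_left h hN0.le
      rw [mul_neg, mul_one_div_cancel hN0.ne'] at this
      exact this
    nlinarith [Real.pi_pos]
  have h2 : 1 / 2 ≤ ‖(1 + (-1) ^ N * Complex.exp (-(2 * Real.pi * I * N * w)))‖ := by
    have h3 := norm_sub_norm_le (1 : ℂ) (-((-1) ^ N * Complex.exp (-(2 * Real.pi * I * N * w))))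
    rw [norm_neg, sub_neg_eq_add, norm_one] at h3
    linarith
  rw [norm_pow]
  nlinarith

theorem om2_in (a : ℤ) : ∃ C : ℝ, 0 < C ∧ ∀ N : ℕ, 1 ≤ N → ∀ w : ℂ, -(1 / 10) ≤ w.im →
    w.im ≤ -(1 / (N : ℝ)) → ‖om2 N a w‖ ≤ C * Real.exp (N * (vx a w).re) := by
  refine ⟨16 * Real.pi * Real.exp (2 * Real.pi * (1 / 10)), by positivity, ?_⟩
  intro N hN w h1 h2
  have hN0 : (0 : ℝ) < N := by exact_mod_cast hN
  have hneg : w.im ≤ 0 := h2.trans (by rw [neg_nonpos]; positivity)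
  rw [om2_eq hN, norm_div, norm_mul]
  have h3 : ‖Complex.exp (N * vx a w)‖ = Real.exp (N * (vx a w).re) := by
    rw [Complex.norm_exp]
    congr 1
    rw [show (N : ℂ) = ((N : ℝ) : ℂ) by push_cast; rfl, Complex.re_ofReal_mul]
  have h4 : ‖dLy w‖ ≤ 4 * Real.pi * Real.exp (2 * Real.pi * (1 / 10)) := by
    refine (norm_dLy_le w).trans ?_
    have h5 : |w.im| ≤ 1 / 10 := by rw [abs_of_nonpos hneg]; linarith
    gcongr
  have h6 := den_ge hN h2
  rw [h3, div_le_iff₀ (by linarith)]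
  calc Real.exp (N * (vx a w).re) * ‖dLy w‖
      ≤ Real.exp (N * (vx a w).re) * (4 * Real.pi * Real.exp (2 * Real.pi * (1 / 10))) := by
        gcongr
    _ = 16 * Real.pi * Real.exp (2 * Real.pi * (1 / 10)) * Real.exp (N * (vx a w).re) * (1 / 4) := by
        ring
    _ ≤ _ := by gcongr

lemma norm_gaussz (N : ℕ) (a : ℤ) (y : ℂ) : ‖Complex.exp (Real.pi * I * (a * N) * y ^ 2)‖ =
    Real.exp (-(2 * Real.pi * a * N * (y.re * y.im))) := by
  rw [Complex.norm_exp]
  congr 1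
  have h : (Real.pi * I * (a * N) * y ^ 2 : ℂ) = ((Real.pi * a * N : ℝ) : ℂ) * (I * y ^ 2) := by
    push_cast; ring
  rw [h, Complex.re_ofReal_mul]
  simp [pow_two]
  ring

theorem om2_out {a : ℤ} (ha : a ≠ 0) {y : ℂ} (hy : y.im < 0) (hy' : -(55 / 1000) ≤ y.im) :
    ∃ C : ℝ, 0 < C ∧ ∀ N : ℕ, 10 ≤ N → ∀ (w : ℂ) (ξ : ℝ),
      (Wa (1 / a) y N w ξ ∨ Fa (1 / a) N w ξ) →
      ‖om2 N a w‖ ≤ C * Real.exp (N * -(2 * Real.pi * y.im * (a * ξ - 1))) := by
  obtain ⟨C, hC, hin⟩ := om2_in a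
  have ha' : (a : ℝ) ≠ 0 := by exact_mod_cast ha
  refine ⟨C + C * Real.exp (Real.pi * |(a : ℝ)|) + Real.exp (Real.pi * |(a : ℝ)|) *
    (Real.pi * Real.exp (2 * Real.pi * (1 / 10))), by positivity, ?_⟩
  intro N hN w ξ h
  have hN0 : (0 : ℝ) < N := by exact_mod_cast (by omega : 0 < N)
  have hN10 : 1 / (N : ℝ) ≤ 1 / 10 := by
    apply one_div_le_one_div_of_le (by norm_num)
    exact_mod_cast hN
  have p1 : 0 ≤ C * Real.exp (Real.pi * |(a : ℝ)|) := by positivity
  have p2 : 0 ≤ Real.exp (Real.pi * |(a : ℝ)|) * (Real.pi * Real.exp (2 * Real.pi * (1 / 10))) := by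
    positivity
  rcases h with ⟨lam, x, l0, l1, l2, hx, hw, hξ⟩ | ⟨r1, r2, i1, i2, hor, hξ⟩
  · have hwim : w.im = lam * y.im := by rw [hw]; simp
    have hwre : w.re = x := by rw [hw]; simp
    rw [abs_of_neg hy] at l2
    have h1 := hin N (by omega) w (by rw [hwim]; nlinarith) (by rw [hwim]; linarith)
    have h2 : (vx a w).re = -(2 * Real.pi * y.im * (a * ξ - 1)) := by
      rw [vx_re, hwim, hwre, hξ]
      field_simp
      ring
    rw [h2] at h1
    refine h1.trans ?_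
    have := Real.exp_pos (N * -(2 * Real.pi * y.im * (a * ξ - 1)))
    nlinarith
  · have he : (N : ℝ) * -(2 * Real.pi * y.im * (a * ξ - 1)) = 0 := by
      rw [hξ, mul_one_div_cancel ha']; ring
    rw [he, Real.exp_zero, mul_one]
    rcases hor with h1 | h1
    · have h2 := hin N (by omega) w (by rw [h1]; linarith) h1.le
      have h3 : N * (vx a w).re ≤ Real.pi * |(a : ℝ)| := by
        rw [vx_re, h1]
        have e : (N : ℝ) * -(2 * Real.pi * -(1 / (N : ℝ)) * (a * w.re - 1)) =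
            2 * Real.pi * (a * w.re - 1) := by
          field_simp
        rw [e]
        have h4 : (a : ℝ) * w.re ≤ |(a : ℝ)| * (1 / 2) := by
          calc (a : ℝ) * w.re ≤ |(a : ℝ) * w.re| := le_abs_self _
            _ = |(a : ℝ)| * |w.re| := abs_mul _ _
            _ ≤ _ := by gcongr
        nlinarith [Real.pi_pos]
      have h5 := Real.exp_le_exp.2 h3
      have h6 : C * Real.exp (N * (vx a w).re) ≤ C * Real.exp (Real.pi * |(a : ℝ)|) := by gcongr
      linarith
    · have hD := DN_side (N := N) (by omega) h1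
      have h2 : ‖om2 N a w‖ ≤ Real.exp (Real.pi * |(a : ℝ)|) *
          (Real.pi * Real.exp (2 * Real.pi * (1 / 10))) := by
        unfold om2 omz
        rw [norm_mul, norm_pow, norm_neg, norm_one, one_pow, one_mul, norm_div, norm_mul,
          norm_gaussz, div_le_iff₀ (by linarith)]
        have e1 : Real.exp (-(2 * Real.pi * a * N * (w.re * w.im))) ≤
            Real.exp (Real.pi * |(a : ℝ)|) := by
          apply Real.exp_le_exp.2
          have h3 : -((a : ℝ) * (w.re * (N * w.im))) ≤ |(a : ℝ)| * (1 / 2 * 1) := by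
            refine (neg_le_abs _).trans ?_
            rw [abs_mul, abs_mul]
            have h4 : |(N : ℝ) * w.im| ≤ 1 := by
              rw [abs_le]
              constructor
              · have := mul_le_mul_of_nonneg_left i1 hN0.le
                rw [mul_neg, mul_one_div_cancel hN0.ne'] at this
                exact this
              · nlinarith
            have h5 : |w.re| * |(N : ℝ) * w.im| ≤ 1 / 2 * 1 :=
              mul_le_mul r2 h4 (abs_nonneg _) (by norm_num)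
            exact mul_le_mul_of_nonneg_left h5 (abs_nonneg _)
          nlinarith [Real.pi_pos]
        have e2 : ‖dLy w‖ ≤ 4 * Real.pi * Real.exp (2 * Real.pi * (1 / 10)) := by
          refine (norm_dLy_le w).trans ?_
          have h5 : |w.im| ≤ 1 / 10 := by rw [abs_of_nonpos i2]; linarith
          gcongr
        calc Real.exp (-(2 * Real.pi * a * N * (w.re * w.im))) * ‖dLy w‖
            ≤ Real.exp (Real.pi * |(a : ℝ)|) *
              (4 * Real.pi * Real.exp (2 * Real.pi * (1 / 10))) :=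
              mul_le_mul e1 e2 (norm_nonneg _) (Real.exp_pos _).le
          _ = Real.exp (Real.pi * |(a : ℝ)|) *
              (Real.pi * Real.exp (2 * Real.pi * (1 / 10))) * 4 := by ring
          _ ≤ _ := by gcongr
      linarith

theorem om2_lim (a : ℤ) {z : ℂ} (hz : z.im < 0) (v : ℝ) : Tendsto (fun N : ℕ =>
      Complex.exp (-(N * vx a (z + (v / Real.sqrt N : ℝ)))) * om2 N a (z + (v / Real.sqrt N : ℝ)))
    atTop (𝓝 (dLy z)) := by
  have hs : Tendsto (fun N : ℕ => v / Real.sqrt N) atTop (𝓝 0) := by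
    apply Tendsto.const_div_atTop
    exact Real.tendsto_sqrt_atTop.comp tendsto_natCast_atTop_atTop
  have hz1 : Tendsto (fun N : ℕ => z + ((v / Real.sqrt N : ℝ) : ℂ)) atTop (𝓝 z) := by
    have h1 : Tendsto (fun N : ℕ => ((v / Real.sqrt N : ℝ) : ℂ)) atTop (𝓝 ((0 : ℝ) : ℂ)) :=
      (Complex.continuous_ofReal.tendsto 0).comp hs
    have h2 := h1.const_add z
    simpa using h2
  have hd : Tendsto (fun N : ℕ => dLy (z + ((v / Real.sqrt N : ℝ) : ℂ))) atTop (𝓝 (dLy z)) := by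
    have hc : Continuous dLy := by unfold dLy; fun_prop
    exact (hc.tendsto z).comp hz1
  have hq : Tendsto (fun N : ℕ => (-1 : ℂ) ^ N *
      Complex.exp (-(2 * Real.pi * I * N * (z + ((v / Real.sqrt N : ℝ) : ℂ))))) atTop (𝓝 0) := by
    rw [tendsto_zero_iff_norm_tendsto_zero]
    have e : ∀ N : ℕ, ‖(-1 : ℂ) ^ N *
        Complex.exp (-(2 * Real.pi * I * N * (z + ((v / Real.sqrt N : ℝ) : ℂ))))‖ =
        Real.exp (-(-(2 * Real.pi * z.im) * N)) := by
      intro N
      rw [norm_mul, norm_pow, norm_neg, norm_one, one_pow, one_mul, q_norm]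
      congr 1
      rw [Complex.add_im, Complex.ofReal_im]
      ring
    simp only [e]
    have h1 : Tendsto (fun N : ℕ => -(2 * Real.pi * z.im) * (N : ℝ)) atTop atTop := by
      apply Tendsto.const_mul_atTop (by nlinarith [Real.pi_pos]) tendsto_natCast_atTop_atTop
    exact Real.tendsto_exp_neg_atTop_nhds_zero.comp h1
  have h2 : Tendsto (fun N : ℕ => dLy (z + ((v / Real.sqrt N : ℝ) : ℂ)) / (1 + (-1 : ℂ) ^ N *
      Complex.exp (-(2 * Real.pi * I * N * (z + ((v / Real.sqrt N : ℝ) : ℂ))))) ^ 2) atTop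
      (𝓝 (dLy z / (1 + 0) ^ 2)) := by
    apply hd.div ((hq.const_add 1).pow 2)
    norm_num
  rw [add_zero, one_pow, div_one] at h2
  refine h2.congr' ?_
  filter_upwards [eventually_ge_atTop 1] with N hN
  rw [om2_eq hN, mul_div_assoc, ← mul_assoc, ← Complex.exp_add, neg_add_cancel, Complex.exp_zero,
    one_mul]

lemma om2_diff' {N : ℕ} (a : ℤ) {w : ℂ} (h : DN N w ≠ 0) :
    DifferentiableAt ℂ (om2 N a) w := by
  unfold om2 omz
  have h1 : Differentiable ℂ dLy := by unfold dLy; fun_prop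
  have h2 : Differentiable ℂ (DN N) := by
    unfold DN Ly
    fun_prop
  have h3 := h1 w
  have h4 := h2 w
  fun_prop (disch := assumption)

set_option linter.unusedVariables false in
theorem om2_diff {N : ℕ} (hN : 1 ≤ N) (a : ℤ) {w : ℂ} (h1 : |w.re| ≤ 1 / 2) (h2 : w.im < 0) :
    DifferentiableAt ℂ (om2 N a) w := by
  apply om2_diff'
  apply DN_ne (h := -w.im) (by linarith)
  left
  exact ⟨h1, by ring⟩

set_option linter.unusedVariables false in
theorem om2_cont {N : ℕ} (hN : 1 ≤ N) (a : ℤ) {h : ℝ} (hh : 0 < h) :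
    ContinuousOn (om2 N a) (PS h) := by
  intro w hw
  exact (om2_diff' a (DN_ne hh hw)).continuousAt.continuousWithinAt

end Pool.Agent.XV
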