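import Pool.Agent.XV.Std
import Pool.Agent.XV.Pth

/-!
# XV SNEAR: sharp bound of the step at near points

`tot`: the exponents of the three factors `om2`, `KN`, `G` at a point of the path of `z` with
(effective) abscissa `ξ` add up to the critical value: the real part of `site` is
`D.re + (gamy z t).re = 2 π a z.im`, hence
`E.re + D.re (ξ - z.re) + SP z t ξ - 2 π z.im (a ξ - 1) = E.re + (gam z t).re + (vx a z).re`
(`vx_re`; also `(vx a (ξ + z.im I)).re = -2 π z.im (a ξ - 1)`).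

`st_near`: `ST N a (G N) (x + y.im I) = PI f 1` with `f w = om2 N a w * KN N (x + y.im I) w * G N w`.
`pi_rest` with `x0 := 1 / a` and the saddle point `z`:

* the near part `∫_{-17/100}^{17/100} f (x' + z.im I) dx'`: by `om2_in` (`1 / N ≤ |z.im|`),
  `KerP.near`, `Nice.near` and `tot` the integrand is at most
  `C N ^ (-3/2) N ^ (-e) exp (N (tot + SP y t x - ((x - y.re) ^ 2 + (x' - z.re) ^ 2) / 400))`
  (drop the term with `d`), and `∫ exp (-N (x' - z.re) ^ 2 / 400) ≤ sqrt (400 π / N)`; together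
  `N ^ (-e - 2)`.
* the rest: for `w` with `Wa` or `Fa` the bound is `om2_out`, `KerP.out`, `Nice.out` and `tot`:
  `≤ C N ^ K exp (N (tot + SP y t x - 1 / 2000))`, and since `(x - y.re) ^ 2 ≤ (28 / 100) ^ 2`,
  `(x - y.re) ^ 2 / 400 ≤ 196 / 1000000 < 1 / 2000`, so
  `N ^ (K + e + 2) exp (-N / 2000) ≤ C' exp (-N (x - y.re) ^ 2 / 400)`.
-/

set_option autoImplicit false

namespace Pool.Agent.XV

open Complex Finset
open Pool.Agent.Helper9.TB Pool.Agent.Helper9.TF Pool.Agent.Helper9.TW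

theorem tot {a : ℤ} {z t E D : ℂ} (site : 2 * Real.pi * I * (a * z - 1) + D + gamy z t = 0)
    (ξ : ℝ) : E.re + D.re * (ξ - z.re) + SP z t ξ + -(2 * Real.pi * z.im * (a * ξ - 1)) =
      E.re + (gam z t).re + (vx a z).re := by
  have h1 := congrArg Complex.re site
  have e1 : (2 * Real.pi * I * (a * z - 1) : ℂ) = ((2 * Real.pi : ℝ) : ℂ) * (I * (a * z - 1)) := by
    push_cast; ring
  rw [Complex.add_re, Complex.add_re, e1, Complex.re_ofReal_mul, Complex.zero_re] at h1
  have e2 : (I * ((a : ℂ) * z - 1)).re = -(a * z.im) := by simp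
  rw [e2] at h1
  rw [vx_re]
  unfold SP
  linear_combination (ξ - z.re) * h1

lemma gauss_le {b c l r : ℝ} (hb : 0 < b) (hlr : l ≤ r) :
    ∫ x in l..r, Real.exp (-b * (x - c) ^ 2) ≤ Real.sqrt (Real.pi / b) := by
  have hi : MeasureTheory.Integrable (fun x : ℝ => Real.exp (-b * (x - c) ^ 2)) :=
    (integrable_exp_neg_mul_sq hb).comp_sub_right c
  rw [intervalIntegral.integral_of_le hlr]
  refine (MeasureTheory.setIntegral_le_integral hi ?_).trans ?_
  · exact Filter.Eventually.of_forall fun x => (Real.exp_pos _).le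
  · have := MeasureTheory.integral_sub_right_eq_self (μ := MeasureTheory.volume)
      (fun x : ℝ => Real.exp (-b * x ^ 2)) c
    rw [this, integral_gaussian]

lemma pow_le_exp {c : ℝ} (hc : 0 < c) (K : ℕ) : ∃ C : ℝ, 0 < C ∧ ∀ N : ℕ,
    (N : ℝ) ^ K ≤ C * Real.exp (c * N) := by
  refine ⟨K.factorial / c ^ K, by positivity, fun N => ?_⟩
  have h := Real.pow_div_factorial_le_exp (c * N) (by positivity) K
  rw [mul_pow, div_le_iff₀ (by positivity)] at h
  rw [div_mul_eq_mul_div, le_div_iff₀ (by positivity)]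
  linarith

lemma st_integrand {N : ℕ} (hN : 1 ≤ N) (a : ℤ) (y : ℂ) {G : ℂ → ℂ} (hG : Differentiable ℂ G) :
    (∀ w : ℂ, |w.re| ≤ 1 / 2 → w.im < 0 →
      DifferentiableAt ℂ (fun w => om2 N a w * KN N y w * G w) w) ∧
    ContinuousOn (fun w => om2 N a w * KN N y w * G w) (PS 1) := by
  constructor
  · intro w h1 h2
    exact ((om2_diff hN a h1 h2).mul (kn_diff N y w)).mul (hG w)
  · exact ((om2_cont hN a one_pos).mul (kn_diff N y).continuous.continuousOn).mul
      hG.continuous.continuousOn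

lemma N_large {h : ℝ} (hh : 0 < h) : ∃ N0 : ℕ, ∀ N : ℕ, N0 ≤ N → 1 / (N : ℝ) ≤ h := by
  obtain ⟨n, hn⟩ := exists_nat_ge (1 / h)
  refine ⟨n + 1, fun N hN => ?_⟩
  have h1 : (n : ℝ) + 1 ≤ N := by exact_mod_cast hN
  have hpos : 0 < 1 / h := by positivity
  have h2 : (0 : ℝ) < N := by linarith
  rw [div_le_iff₀ h2]
  rw [div_le_iff₀ hh] at hn
  nlinarith

theorem st_near {a : ℤ} (ha : a ≠ 0) {x0 : ℝ} {y z t E D k q : ℂ} {d e : ℕ} {G : ℕ → ℂ → ℂ}
    (hyr : |y.re| ≤ 11 / 100) (hz : z.im < 0) (hz' : -(55 / 1000) ≤ z.im)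
    (K : KerP x0 (1 / a) y z t) (HG : Nice a z d G E D e k q)
    (site : 2 * Real.pi * I * (a * z - 1) + D + gamy z t = 0) :
    ∃ (C : ℝ) (N0 : ℕ), 0 < C ∧ ∀ N : ℕ, N0 ≤ N → ∀ x : ℝ, |x| ≤ 17 / 100 →
      ‖ST N a (G N) (x + y.im * I)‖ * N ^ (e + 2) ≤
        C * Real.exp (N * ((E + vx a z + gam y t + gam z t).re + (gamy y t).re * (x - y.re) -
          (x - y.re) ^ 2 / 400)) := by
  obtain ⟨C1, hC1, h1⟩ := om2_in a
  obtain ⟨C2, N2, hC2, h2⟩ := K.near
  obtain ⟨C3, N3, hC3, h3⟩ := HG.near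
  obtain ⟨C4, hC4, h4⟩ := om2_out ha hz hz'
  obtain ⟨C5, K5, N5, hC5, h5⟩ := K.out
  obtain ⟨C6, K6, N6, hC6, h6⟩ := HG.out
  obtain ⟨N7, h7⟩ := N_large (h := -z.im) (by linarith)
  obtain ⟨C8, hC8, h8⟩ := pow_le_exp (c := 3 / 10000) (by norm_num) (K5 + K6 + (e + 2))
  refine ⟨C1 * C2 * C3 * Real.sqrt (400 * Real.pi) + 2 * (C4 * C5 * C6) * C8,
    10 + N2 + N3 + N5 + N6 + N7, by positivity, ?_⟩
  intro N hN x hx
  have hN10 : 10 ≤ N := by omega
  have hN1 : 1 ≤ N := by omega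
  have hNpos : (0 : ℝ) < N := by exact_mod_cast hN1
  have hzN : 1 / (N : ℝ) ≤ -z.im := h7 N (by omega)
  set T : ℝ := (E + vx a z + gam y t + gam z t).re + (gamy y t).re * (x - y.re) with hT
  have hTe : T = SP y t x + (E.re + (gam z t).re + (vx a z).re) := by
    rw [hT]
    unfold SP
    simp only [Complex.add_re]
    ring
  set f : ℂ → ℂ := fun w => om2 N a w * KN N (x + y.im * I) w * G N w with hf
  have hST : ST N a (G N) (x + y.im * I) = PI f 1 := rfl
  obtain ⟨hd, hc⟩ := st_integrand hN1 a (x + y.im * I) (HG.diff N)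
  -- outer part
  set B : ℝ := C4 * C5 * C6 * (N : ℝ) ^ (K5 + K6) * Real.exp (N * (T - 1 / 2000)) with hB
  have hout : ∀ (w : ℂ) (ξ : ℝ), (Wa (1 / a) z N w ξ ∨ Fa (1 / a) N w ξ) → ‖f w‖ ≤ B := by
    intro w ξ hw
    have b1 := h4 N hN10 w ξ hw
    have b2 := h5 N (by omega) (x + y.im * I) w x ξ (Or.inl ⟨hx, rfl⟩) (Or.inr hw)
      (by rcases hw with hw | hw
          · exact Or.inr (Or.inr (Or.inl hw))
          · exact Or.inr (Or.inr (Or.inr hw)))
    have b3 := h6 N (by omega) w ξ hw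
    have b3' : ‖G N w‖ ≤ C6 * N ^ K6 * Real.exp (N * (E.re + D.re * (ξ - z.re))) := by
      refine b3.trans ?_
      have : (0 : ℝ) ≤ d / 2000 := by positivity
      gcongr
      linarith
    have ht := tot (E := E) site ξ
    calc ‖f w‖ = ‖om2 N a w‖ * ‖KN N (x + y.im * I) w‖ * ‖G N w‖ := by
          simp only [hf, norm_mul]
      _ ≤ (C4 * Real.exp (N * -(2 * Real.pi * z.im * (a * ξ - 1)))) *
          (C5 * N ^ K5 * Real.exp (N * (SP y t x + SP z t ξ - 1 / 2000))) *
          (C6 * N ^ K6 * Real.exp (N * (E.re + D.re * (ξ - z.re)))) := by gcongr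
      _ = C4 * C5 * C6 * ((N : ℝ) ^ K5 * N ^ K6) *
          (Real.exp (N * -(2 * Real.pi * z.im * (a * ξ - 1))) *
          Real.exp (N * (SP y t x + SP z t ξ - 1 / 2000)) *
          Real.exp (N * (E.re + D.re * (ξ - z.re)))) := by ring
      _ = B := by
          rw [← pow_add, ← Real.exp_add, ← Real.exp_add, hB]
          congr 2
          rw [hTe]
          linear_combination (N : ℝ) * ht
  have hrest := pi_rest (f := f) (y := z) (x0 := 1 / a) (B := B) (N := N) (by omega) hz' hzN hd hc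
    hout
  -- near part
  have hnear : ∀ x' : ℝ, |x'| ≤ 17 / 100 → ‖f (x' + z.im * I)‖ ≤
      C1 * C2 * C3 / (Real.sqrt N ^ 3 * N ^ e) *
        Real.exp (N * (T - (x - y.re) ^ 2 / 400)) *
        Real.exp (-(N / 400) * (x' - z.re) ^ 2) := by
    intro x' hx'
    have hwim : ((x' : ℂ) + z.im * I).im = z.im := by simp
    have hwre : ((x' : ℂ) + z.im * I).re = x' := by simp
    have b1 := h1 N hN1 (x' + z.im * I) (by rw [hwim]; linarith) (by rw [hwim]; linarith)
    rw [vx_re, hwim, hwre] at b1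
    have b2 := h2 N (by omega) x x' hx hx'
    have b3 := h3 N (by omega) x' hx'
    have b3' : ‖G N (x' + z.im * I)‖ * N ^ e ≤ C3 * Real.exp (N * (E.re + D.re * (x' - z.re))) := by
      refine b3.trans ?_
      have : (0 : ℝ) ≤ d * (x' - z.re) ^ 2 / 400 := by positivity
      gcongr
      linarith
    have ht := tot (E := E) site x'
    have hp : 0 < Real.sqrt N ^ 3 * (N : ℝ) ^ e := by positivity
    have key : ‖f (x' + z.im * I)‖ * (Real.sqrt N ^ 3 * N ^ e) ≤ C1 * C2 * C3 *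
        (Real.exp (N * (T - (x - y.re) ^ 2 / 400)) *
        Real.exp (-(N / 400) * (x' - z.re) ^ 2)) := by
      calc ‖f (x' + z.im * I)‖ * (Real.sqrt N ^ 3 * N ^ e)
          = ‖om2 N a (x' + z.im * I)‖ *
            (‖KN N (x + y.im * I) (x' + z.im * I)‖ * Real.sqrt N ^ 3) *
            (‖G N (x' + z.im * I)‖ * N ^ e) := by
            simp only [hf, norm_mul]; ring
        _ ≤ (C1 * Real.exp (N * -(2 * Real.pi * z.im * (a * x' - 1)))) *
            (C2 * Real.exp (N * (SP y t x + SP z t x' -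
              ((x - y.re) ^ 2 + (x' - z.re) ^ 2) / 400))) *
            (C3 * Real.exp (N * (E.re + D.re * (x' - z.re)))) := by gcongr
        _ = C1 * C2 * C3 * (Real.exp (N * -(2 * Real.pi * z.im * (a * x' - 1))) *
            Real.exp (N * (SP y t x + SP z t x' -
              ((x - y.re) ^ 2 + (x' - z.re) ^ 2) / 400)) *
            Real.exp (N * (E.re + D.re * (x' - z.re)))) := by ring
        _ = _ := by
            rw [← Real.exp_add, ← Real.exp_add, ← Real.exp_add]
            congr 2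
            rw [hTe]
            linear_combination (N : ℝ) * ht
    rw [← le_div_iff₀ hp] at key
    refine key.trans (le_of_eq ?_)
    ring
  have hint : ‖∫ x' in (-(17 / 100) : ℝ)..(17 / 100), f (x' + z.im * I)‖ ≤
      C1 * C2 * C3 / (Real.sqrt N ^ 3 * N ^ e) *
        Real.exp (N * (T - (x - y.re) ^ 2 / 400)) * Real.sqrt (Real.pi / (N / 400)) := by
    have hle : (-(17 / 100) : ℝ) ≤ 17 / 100 := by norm_num
    refine (intervalIntegral.norm_integral_le_of_norm_le hle
      (g := fun x' => C1 * C2 * C3 / (Real.sqrt N ^ 3 * N ^ e) *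
        Real.exp (N * (T - (x - y.re) ^ 2 / 400)) *
        Real.exp (-(N / 400) * (x' - z.re) ^ 2)) ?_ ?_).trans ?_
    · refine Filter.Eventually.of_forall fun x' hx' => hnear x' ?_
      rw [abs_le]
      exact ⟨hx'.1.le, hx'.2⟩
    · apply Continuous.intervalIntegrable
      fun_prop
    · rw [intervalIntegral.integral_const_mul]
      have hg := gauss_le (b := N / 400) (c := z.re) (by positivity) hle
      gcongr
  -- sum up
  have hsq : Real.sqrt (Real.pi / (N / 400)) * Real.sqrt N = Real.sqrt (400 * Real.pi) := by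
    rw [← Real.sqrt_mul (by positivity)]
    congr 1
    field_simp
  have hs4 : Real.sqrt N ^ 3 * Real.sqrt N = (N : ℝ) ^ 2 := by
    rw [← pow_succ]
    have := Real.sq_sqrt hNpos.le
    calc Real.sqrt N ^ 4 = (Real.sqrt N ^ 2) ^ 2 := by ring
      _ = (N : ℝ) ^ 2 := by rw [this]
  have hnn : ‖∫ x' in (-(17 / 100) : ℝ)..(17 / 100), f (x' + z.im * I)‖ * N ^ (e + 2) ≤
      C1 * C2 * C3 * Real.sqrt (400 * Real.pi) * Real.exp (N * (T - (x - y.re) ^ 2 / 400)) := by
    refine (mul_le_mul_of_nonneg_right hint (by positivity)).trans (le_of_eq ?_)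
    have hsN : Real.sqrt N ≠ 0 := (Real.sqrt_pos.2 hNpos).ne'
    rw [← hsq, pow_add, ← hs4]
    field_simp
  have hoo : 2 * B * (N : ℝ) ^ (e + 2) ≤
      2 * (C4 * C5 * C6) * C8 * Real.exp (N * (T - (x - y.re) ^ 2 / 400)) := by
    have h9 := h8 N
    have hx2 : (x - y.re) ^ 2 ≤ (28 / 100) ^ 2 := by
      apply sq_le_sq'
      · have := (abs_le.1 hx).1
        have := (abs_le.1 hyr).2
        linarith
      · have := (abs_le.1 hx).2
        have := (abs_le.1 hyr).1
        linarith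
    calc 2 * B * (N : ℝ) ^ (e + 2)
        = 2 * (C4 * C5 * C6) * (N : ℝ) ^ (K5 + K6 + (e + 2)) * Real.exp (N * (T - 1 / 2000)) := by
          rw [hB, pow_add]; ring
      _ ≤ 2 * (C4 * C5 * C6) * (C8 * Real.exp (3 / 10000 * N)) * Real.exp (N * (T - 1 / 2000)) := by
          gcongr
      _ = 2 * (C4 * C5 * C6) * C8 * (Real.exp (3 / 10000 * N) * Real.exp (N * (T - 1 / 2000))) := by
          ring
      _ ≤ _ := by
          rw [← Real.exp_add]
          gcongr
          nlinarith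
  rw [hST]
  have hfin : ‖PI f 1‖ ≤ ‖∫ x' in (-(17 / 100) : ℝ)..(17 / 100), f (x' + z.im * I)‖ + 2 * B := by
    have := norm_sub_norm_le (PI f 1) (∫ x' in (-(17 / 100) : ℝ)..(17 / 100), f (x' + z.im * I))
    linarith
  calc ‖PI f 1‖ * N ^ (e + 2)
      ≤ (‖∫ x' in (-(17 / 100) : ℝ)..(17 / 100), f (x' + z.im * I)‖ + 2 * B) * N ^ (e + 2) := by
        gcongr
    _ = ‖∫ x' in (-(17 / 100) : ℝ)..(17 / 100), f (x' + z.im * I)‖ * N ^ (e + 2) +
        2 * B * N ^ (e + 2) := by ring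
    _ ≤ _ := by
        rw [add_mul]
        exact add_le_add hnn hoo

end Pool.Agent.XV
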