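import Pool.Agent.XV.Om

/-!
# XV STD: the step as a finite sum

`st_eq`: `KN N y z = ∑ m, gm N m y * gm N m z`; the functions `om2 N a z * gm N m z * G z` are
continuous on `PS 1` (`om2_cont`, `gm` and `G` are entire) and `PI` is additive (`PI_add`, `PI_mul`
in Helper9.TB.Contour; induction over the sum as in `rb_VV_sum` of Helper48.TG.RB).
For `N = 0` both sides are `0`.

`gm` is an even entire function of `y` (`gm N m y` is a product of factors
`4 cos π (y + x_k) cos π (y - x_k)` over a constant).
-/

set_option autoImplicit false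

namespace Pool.Agent.XV

open Complex Finset
open Pool.Agent.Helper9.TB Pool.Agent.Helper9.TF Pool.Agent.Helper9.TW

lemma gm_entire (N m : ℕ) : Differentiable ℂ (gm N m) := by
  unfold gm
  fun_prop

lemma gm_neg (N m : ℕ) (y : ℂ) : gm N m (-y) = gm N m y := by
  unfold gm
  congr 1
  apply prod_congr rfl
  intro k _
  rw [show (Real.pi : ℂ) * (-y + xk N k) = -(Real.pi * (y - xk N k)) by ring,
    show (Real.pi : ℂ) * (-y - xk N k) = -(Real.pi * (y + xk N k)) by ring,
    Complex.cos_neg, Complex.cos_neg]
  ring

lemma kn_diff (N : ℕ) (y : ℂ) : Differentiable ℂ (fun z => KN N y z) := by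
  unfold KN
  have h : ∀ m, Differentiable ℂ (gm N m) := fun m => gm_entire N m
  fun_prop

lemma PI_sum {ι : Type} (s : Finset ι) {h : ℝ} (hh : 0 ≤ h) (f : ι → ℂ → ℂ)
    (hf : ∀ i ∈ s, ContinuousOn (f i) (PS h)) :
    PI (fun z => ∑ i ∈ s, f i z) h = ∑ i ∈ s, PI (f i) h := by
  classical
  induction s using Finset.induction_on with
  | empty =>
    simp only [Finset.sum_empty]
    have := PI_mul (f := fun _ => (0 : ℂ)) (h := h) 0
    simpa using this
  | insert i s his ih =>
    simp only [Finset.sum_insert his]
    rw [PI_add hh (hf i (Finset.mem_insert_self _ _)), ih]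
    · intro j hj
      exact hf j (Finset.mem_insert_of_mem hj)
    · apply continuousOn_finsetSum
      intro j hj
      exact hf j (Finset.mem_insert_of_mem hj)

theorem st_eq (N : ℕ) (a : ℤ) {G : ℂ → ℂ} (hG : Differentiable ℂ G) (y : ℂ) :
    ST N a G y = ∑ m ∈ range N, PI (fun z => om2 N a z * gm N m z * G z) 1 * gm N m y := by
  unfold ST
  rcases Nat.eq_zero_or_pos N with h0 | hN
  · subst h0
    unfold KN
    simp only [Finset.range_zero, Finset.sum_empty, mul_zero, zero_mul]
    have := PI_mul (f := fun _ => (0 : ℂ)) (h := 1) 0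
    simpa using this
  · have h1 : (fun z => om2 N a z * KN N y z * G z) =
        fun z => ∑ m ∈ range N, gm N m y * (om2 N a z * gm N m z * G z) := by
      funext z
      unfold KN
      rw [Finset.mul_sum, Finset.sum_mul]
      apply Finset.sum_congr rfl
      intro m _
      ring
    rw [h1, PI_sum (range N) zero_le_one]
    · apply Finset.sum_congr rfl
      intro m _
      rw [PI_mul, mul_comm]
    · intro m _
      apply continuousOn_const.mul
      exact ((om2_cont hN a one_pos).mul (gm_entire N m).continuous.continuousOn).mul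
        hG.continuous.continuousOn

theorem st_diff (N : ℕ) (a : ℤ) {G : ℂ → ℂ} (hG : Differentiable ℂ G) :
    Differentiable ℂ (ST N a G) := by
  have h : ST N a G = fun y => ∑ m ∈ range N,
      PI (fun z => om2 N a z * gm N m z * G z) 1 * gm N m y := by
    funext y
    exact st_eq N a hG y
  rw [h]
  have h : ∀ m, Differentiable ℂ (gm N m) := fun m => gm_entire N m
  fun_prop

theorem st_even (N : ℕ) (a : ℤ) (G : ℂ → ℂ) (y : ℂ) : ST N a G (-y) = ST N a G y := by
  unfold ST
  congr 1
  funext z
  unfold KN
  simp only [gm_neg]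

end Pool.Agent.XV
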